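import Pool.Agent.H226.GB.Spec4
import Pool.Agent.H226.GB.Uni

/-!
Uniqueness of smooth solutions of the projected equations, for the closed span of a set.
-/

set_option autoImplicit false

open MeasureTheory Set Filter Topology
open scoped ContDiff
open H459R3.NS

namespace Pool.Agent.H226.GB

/-- elements of the span are smooth and periodic, and orthogonal to what is orthogonal to `Φ` -/
theorem uniP_span {Φ : Set (V → V)} (hΦ : ∀ w ∈ Φ, ∀ i, SP (fun x => w x i)) {G : Fin 3 → V → ℝ}
    (hG : ∀ i, SP (G i)) (h0 : ∀ w ∈ Φ, ∑ i, ∫ x in cube, G i x * w x i = 0) {w : V → V}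
    (hw : w ∈ Submodule.span ℝ Φ) :
    (∀ i, SP (fun x => w x i)) ∧ ∑ i, ∫ x in cube, G i x * w x i = 0 := by
  induction hw using Submodule.span_induction with
  | mem w hw => exact ⟨hΦ w hw, h0 w hw⟩
  | zero =>
    refine ⟨fun i => ⟨contDiff_const, fun j x => rfl⟩, ?_⟩
    simp
  | add w1 w2 _ _ ih1 ih2 =>
    obtain ⟨a1, b1⟩ := ih1
    obtain ⟨a2, b2⟩ := ih2
    refine ⟨fun i => SP.add (a1 i) (a2 i), ?_⟩
    have e1 : ∀ i, ∫ x in cube, G i x * (w1 + w2) x i =
        (∫ x in cube, G i x * w1 x i) + ∫ x in cube, G i x * w2 x i := by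
      intro i
      have e2 : ∀ x, G i x * (w1 + w2) x i = G i x * w1 x i + G i x * w2 x i := by
        intro x
        rw [Pi.add_apply, Pi.add_apply, mul_add]
      simp_rw [e2]
      exact integral_add ((hG i).mul (a1 i)).int ((hG i).mul (a2 i)).int
    rw [Finset.sum_congr rfl fun i _ => e1 i, Finset.sum_add_distrib, b1, b2, add_zero]
  | smul c w1 _ ih1 =>
    obtain ⟨a1, b1⟩ := ih1
    refine ⟨fun i => uni_smul c (a1 i), ?_⟩
    have e1 : ∀ i, ∫ x in cube, G i x * (c • w1) x i = c * ∫ x in cube, G i x * w1 x i := by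
      intro i
      have e2 : ∀ x, G i x * (c • w1) x i = c * (G i x * w1 x i) := by
        intro x
        rw [Pi.smul_apply, Pi.smul_apply, smul_eq_mul]
        ring
      simp_rw [e2]
      exact integral_const_mul _ _
    rw [Finset.sum_congr rfl fun i _ => e1 i, ← Finset.mul_sum, b1, mul_zero]

/-- a field which is orthogonal to `Φ` is orthogonal to its closed span -/
theorem uniP_dens {Φ : Set (V → V)} (hΦ : ∀ w ∈ Φ, ∀ i, SP (fun x => w x i))
    {G : Fin 3 → V → ℝ} {f : V → V} (hG : ∀ i, SP (G i)) (hf : ∀ i, SP (fun x => f x i))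
    (h0 : ∀ w ∈ Φ, ∑ i, ∫ x in cube, G i x * w x i = 0) (hd : InSpan Φ f) :
    ∑ i, ∫ x in cube, G i x * f x i = 0 := by
  choose w hw hlt using fun n : ℕ => hd (1 / ((n : ℝ) + 1)) (by positivity)
  refine uni_dens (φ := w) (fun m i => (uniP_span hΦ hG h0 (hw m)).1 i) hG hf
    (fun m => (uniP_span hΦ hG h0 (hw m)).2) ?_
  intro ε hε
  obtain ⟨n, hn⟩ := exists_nat_one_div_lt hε
  refine ⟨n + 1, fun m => if m = n then 1 else 0, ?_⟩
  have e1 : ∀ i x, ∑ m ∈ Finset.range (n + 1), (if m = n then (1 : ℝ) else 0) * w m x i =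
      w n x i := by
    intro i x
    rw [Finset.sum_eq_single n]
    · rw [if_pos rfl, one_mul]
    · intro m _ hm
      rw [if_neg hm, zero_mul]
    · intro h
      exact absurd (Finset.mem_range.2 (Nat.lt_succ_self n)) h
  simp_rw [e1]
  exact (hlt n).trans hn

theorem uniP_sp {Φ : Set (V → V)} {ν T : ℝ} {u : ℝ → V → V} (hu : IsPr Φ ν T u) {t : ℝ}
    (ht : t ∈ Ico 0 T) (i : Fin 3) : SP (fun x => u t x i) where
  smooth := contDiff_slice (f := fun (t : ℝ) (x : V) => u t x i) (uni_comp hu.smooth i) ht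
  per := fun j x => congrFun (hu.per t ht j x) i

theorem uniP_dtc {Φ : Set (V → V)} {ν T : ℝ} {u : ℝ → V → V} (hu : IsPr Φ ν T u) {t : ℝ}
    (ht : t ∈ Ioo 0 T) (i : Fin 3) : SP (dt (fun s x => u s x i) t) :=
  uni_dt (uni_comp hu.smooth i) (fun s hs j x => congrFun (hu.per s hs j x) i) ht

theorem uniP_R {Φ : Set (V → V)} {ν T : ℝ} {u : ℝ → V → V} (hu : IsPr Φ ν T u) {t : ℝ}
    (ht : t ∈ Ioo 0 T) (i : Fin 3) : SP (uniR ν u t i) := by
  have ht' : t ∈ Ico 0 T := ⟨ht.1.le, ht.2⟩
  exact uni_sub (SP.add (uniP_dtc hu ht i)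
    (SP.sum fun j _ => (uniP_sp hu ht' j).mul ((uniP_sp hu ht' i).pd j)))
    (uni_smul ν (SP.sum fun j _ => ((uniP_sp hu ht' i).pd j).pd j))

theorem uniP_orth {Φ : Set (V → V)} (hΦ : ∀ w ∈ Φ, ∀ i, SP (fun x => w x i)) {ν T : ℝ}
    {u v : ℝ → V → V} (hu : IsPr Φ ν T u) (hv : IsPr Φ ν T v) {t : ℝ} (ht : t ∈ Ioo 0 T) :
    ∑ i, ∫ x in cube, (uniR ν u t i x - uniR ν v t i x) * (u t x i - v t x i) = 0 := by
  have ht' : t ∈ Ico 0 T := ⟨ht.1.le, ht.2⟩
  have hG : ∀ i, SP (fun x => uniR ν u t i x - uniR ν v t i x) := fun i =>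
    uni_sub (uniP_R hu ht i) (uniP_R hv ht i)
  have h0 : ∀ w ∈ Φ, ∑ i, ∫ x in cube, (uniR ν u t i x - uniR ν v t i x) * w x i = 0 := by
    intro w hw
    have e1 : ∀ i, ∫ x in cube, (uniR ν u t i x - uniR ν v t i x) * w x i =
        (∫ x in cube, uniR ν u t i x * w x i) - ∫ x in cube, uniR ν v t i x * w x i := by
      intro i
      simp_rw [sub_mul]
      exact integral_sub ((uniP_R hu ht i).mul (hΦ w hw i)).int ((uniP_R hv ht i).mul (hΦ w hw i)).int
    rw [Finset.sum_congr rfl fun i _ => e1 i, Finset.sum_sub_distrib]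
    have e2 : ∑ i, ∫ x in cube, uniR ν u t i x * w x i = 0 := hu.eq t ht w hw
    have e3 : ∑ i, ∫ x in cube, uniR ν v t i x * w x i = 0 := hv.eq t ht w hw
    rw [e2, e3, sub_zero]
  have h1 := uniP_dens hΦ hG (fun i => uniP_sp hu ht' i) h0 (hu.mem t ht')
  have h2 := uniP_dens hΦ hG (fun i => uniP_sp hv ht' i) h0 (hv.mem t ht')
  have e4 : ∀ i, ∫ x in cube, (uniR ν u t i x - uniR ν v t i x) * (u t x i - v t x i) =
      (∫ x in cube, (uniR ν u t i x - uniR ν v t i x) * u t x i) -
        ∫ x in cube, (uniR ν u t i x - uniR ν v t i x) * v t x i := by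
    intro i
    simp_rw [mul_sub]
    exact integral_sub ((hG i).mul (uniP_sp hu ht' i)).int ((hG i).mul (uniP_sp hv ht' i)).int
  rw [Finset.sum_congr rfl fun i _ => e4 i, Finset.sum_sub_distrib, h1, h2, sub_zero]

/-- the energy inequality for the difference -/
theorem uniP_ineq {Φ : Set (V → V)} (hΦ : ∀ w ∈ Φ, ∀ i, SP (fun x => w x i)) {ν T : ℝ}
    (hν : 0 ≤ ν) {u v : ℝ → V → V} (hu : IsPr Φ ν T u) (hv : IsPr Φ ν T v) {t : ℝ} (ht : t ∈ Ioo 0 T)
    {C : ℝ} (hC : ∀ i j, ∀ x ∈ cube, |pd j (fun y => u t y i) x| ≤ C) :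
    ∑ i, ∫ x in cube, (dt (fun s x => u s x i) t x - dt (fun s x => v s x i) t x) *
      (u t x i - v t x i) ≤ 3 * C * ∑ i, ∫ x in cube, (u t x i - v t x i) ^ 2 := by
  have ht' : t ∈ Ico 0 T := ⟨ht.1.le, ht.2⟩
  have hU := fun i => uniP_sp hu ht' i
  have hV := fun i => uniP_sp hv ht' i
  have hW : ∀ i, SP (fun x => u t x i - v t x i) := fun i => uni_sub (hU i) (hV i)
  have hD : ∀ i, SP (fun x => dt (fun s x => u s x i) t x - dt (fun s x => v s x i) t x) :=
    fun i => uni_sub (uniP_dtc hu ht i) (uniP_dtc hv ht i)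
  -- derivatives of the difference
  have hp1 : ∀ i j, pd j (fun x => u t x i - v t x i) =
      fun x => pd j (fun y => u t y i) x - pd j (fun y => v t y i) x := fun i j =>
    funext fun x => uni_pd_sub (hU i) (hV i) j x
  have hp2 : ∀ i j x, pd j (pd j (fun x => u t x i - v t x i)) x =
      pd j (pd j (fun y => u t y i)) x - pd j (pd j (fun y => v t y i)) x := by
    intro i j x
    rw [hp1]
    exact uni_pd_sub ((hU i).pd j) ((hV i).pd j) j x
  -- the pointwise identity
  have hpt : ∀ i x, (uniR ν u t i x - uniR ν v t i x) * (u t x i - v t x i) =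
      (dt (fun s x => u s x i) t x - dt (fun s x => v s x i) t x) * (u t x i - v t x i) +
      ∑ j, (u t x j - v t x j) * (pd j (fun y => u t y i) x * (u t x i - v t x i)) +
      ∑ j, v t x j * ((u t x i - v t x i) * pd j (fun x => u t x i - v t x i) x) -
      ν * (lap (fun x => u t x i - v t x i) x * (u t x i - v t x i)) := by
    intro i x
    unfold uniR lap
    simp only [hp2]
    have e1 : ∑ j, (u t x j - v t x j) * (pd j (fun y => u t y i) x * (u t x i - v t x i)) +
      ∑ j, v t x j * ((u t x i - v t x i) * pd j (fun x => u t x i - v t x i) x) =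
      (∑ j, u t x j * pd j (fun y => u t y i) x - ∑ j, v t x j * pd j (fun y => v t y i) x) *
        (u t x i - v t x i) := by
      rw [← Finset.sum_add_distrib, ← Finset.sum_sub_distrib, Finset.sum_mul]
      refine Finset.sum_congr rfl fun j _ => ?_
      rw [hp1]
      ring
    rw [add_assoc ((dt (fun s x => u s x i) t x - dt (fun s x => v s x i) t x) *
      (u t x i - v t x i)), e1, Finset.sum_sub_distrib]
    ring
  have hint : ∀ i, ∫ x in cube, (uniR ν u t i x - uniR ν v t i x) * (u t x i - v t x i) =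
      (∫ x in cube, (dt (fun s x => u s x i) t x - dt (fun s x => v s x i) t x) *
        (u t x i - v t x i)) +
      (∑ j, ∫ x in cube, (u t x j - v t x j) * (pd j (fun y => u t y i) x *
        (u t x i - v t x i))) +
      (∑ j, ∫ x in cube, v t x j * ((u t x i - v t x i) *
        pd j (fun x => u t x i - v t x i) x)) -
      ν * ∫ x in cube, lap (fun x => u t x i - v t x i) x * (u t x i - v t x i) := by
    intro i
    have s1 : SP (fun x => (dt (fun s x => u s x i) t x - dt (fun s x => v s x i) t x) *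
        (u t x i - v t x i)) := (hD i).mul (hW i)
    have s2 : ∀ j, SP (fun x => (u t x j - v t x j) * (pd j (fun y => u t y i) x *
        (u t x i - v t x i))) := fun j => (hW j).mul (((hU i).pd j).mul (hW i))
    have s3 : ∀ j, SP (fun x => v t x j * ((u t x i - v t x i) *
        pd j (fun x => u t x i - v t x i) x)) := fun j => (hV j).mul ((hW i).mul ((hW i).pd j))
    have s4 : SP (fun x => lap (fun x => u t x i - v t x i) x * (u t x i - v t x i)) :=
      (hW i).lap.mul (hW i)
    simp_rw [hpt]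
    rw [integral_sub (SP.add (SP.add s1 (SP.sum fun j _ => s2 j)) (SP.sum fun j _ => s3 j)).int
      (uni_smul ν s4).int, integral_add (SP.add s1 (SP.sum fun j _ => s2 j)).int
      (SP.sum fun j _ => s3 j).int, integral_add s1.int (SP.sum fun j _ => s2 j).int,
      integral_finsetSum _ fun j _ => (s2 j).int, integral_finsetSum _ fun j _ => (s3 j).int,
      integral_const_mul]
  have horth := uniP_orth hΦ hu hv ht
  rw [Finset.sum_congr rfl fun i _ => hint i, Finset.sum_sub_distrib, Finset.sum_add_distrib,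
    Finset.sum_add_distrib] at horth
  have h3 : ∑ i, ∑ j, ∫ x in cube, v t x j * ((u t x i - v t x i) *
        pd j (fun x => u t x i - v t x i) x) = 0 :=
    Finset.sum_eq_zero fun i _ => transport_zero (v := fun j x => v t x j) hV
      (fun x => hv.divfree t ht' x) (hW i)
  have h4 : ∑ i, ν * ∫ x in cube, lap (fun x => u t x i - v t x i) x * (u t x i - v t x i) ≤ 0 := by
    refine Finset.sum_nonpos fun i _ => ?_
    rw [int_lap_mul (hW i) (hW i)]
    have : 0 ≤ ∑ j, ∫ x in cube, pd j (fun x => u t x i - v t x i) x *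
        pd j (fun x => u t x i - v t x i) x :=
      Finset.sum_nonneg fun j _ => integral_nonneg fun x => mul_self_nonneg _
    nlinarith
  have h2 : ∀ i j, -(C / 2 * ((∫ x in cube, (u t x i - v t x i) ^ 2) +
      ∫ x in cube, (u t x j - v t x j) ^ 2)) ≤
      ∫ x in cube, (u t x j - v t x j) * (pd j (fun y => u t y i) x * (u t x i - v t x i)) := by
    intro i j
    have e1 : C / 2 * ((∫ x in cube, (u t x i - v t x i) ^ 2) +
        ∫ x in cube, (u t x j - v t x j) ^ 2) =
        ∫ x in cube, C / 2 * ((u t x i - v t x i) ^ 2 + (u t x j - v t x j) ^ 2) := by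
      rw [integral_const_mul, integral_add (uni_sq (hW i)) (uni_sq (hW j))]
    rw [e1, ← integral_neg]
    refine setIntegral_mono_on ?_ ?_ measurableSet_Icc fun x hx => ?_
    · exact (((uni_sq (hW i)).add (uni_sq (hW j))).const_mul _).neg
    · exact ((hW j).mul (((hU i).pd j).mul (hW i))).int
    · have e2 := hC i j x hx
      have e3 := abs_le.1 e2
      nlinarith [sq_nonneg (u t x i - v t x i + (u t x j - v t x j)),
        sq_nonneg (u t x i - v t x i - (u t x j - v t x j)),
        mul_nonneg (sub_nonneg.2 e3.2) (sq_nonneg (u t x i - v t x i - (u t x j - v t x j))),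
        mul_nonneg (neg_le_iff_add_nonneg.1 e3.1)
          (sq_nonneg (u t x i - v t x i + (u t x j - v t x j)))]
  have h5 : -(3 * C * ∑ i, ∫ x in cube, (u t x i - v t x i) ^ 2) ≤
      ∑ i, ∑ j, ∫ x in cube, (u t x j - v t x j) * (pd j (fun y => u t y i) x *
        (u t x i - v t x i)) := by
    refine le_trans (le_of_eq ?_) (Finset.sum_le_sum fun i _ => Finset.sum_le_sum fun j _ => h2 i j)
    have e1 : ∀ i j : Fin 3, -(C / 2 * ((∫ x in cube, (u t x i - v t x i) ^ 2) +
      ∫ x in cube, (u t x j - v t x j) ^ 2)) = -(C / 2) * (∫ x in cube, (u t x i - v t x i) ^ 2)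
        + -(C / 2) * ∫ x in cube, (u t x j - v t x j) ^ 2 := fun i j => by ring
    simp_rw [e1, Finset.sum_add_distrib, Finset.sum_const, ← Finset.mul_sum, Finset.card_univ,
      Fintype.card_fin, nsmul_eq_mul, ← Finset.mul_sum]
    push_cast
    ring
  linarith

theorem s_uniP : S_uniP := by
  intro Φ hΦ ν T u v hν hu hv h0 t ht
  rcases eq_or_lt_of_le ht.1 with h | htpos
  · rw [← h]; exact h0
  -- the bound of the gradient
  have hpdc : ∀ i j, ContinuousOn (fun z : ℝ × V => pd j (fun y => u z.1 y i) z.2)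
      (Ico 0 T ×ˢ univ) := fun i j =>
    (contDiffOn_pd (f := fun (t : ℝ) (x : V) => u t x i) (uni_comp hu.smooth i) j).continuousOn
  have hK : IsCompact (Icc 0 t ×ˢ cube) := isCompact_Icc.prod isCompact_Icc
  have hsub : Icc 0 t ×ˢ cube ⊆ Ico 0 T ×ˢ (univ : Set V) :=
    prod_mono (fun s hs => ⟨hs.1, hs.2.trans_lt ht.2⟩) (subset_univ _)
  choose C hC using fun i j => hK.exists_bound_of_continuousOn ((hpdc i j).mono hsub)
  set M := ∑ i, ∑ j, |C i j| with hM
  have hM0 : 0 ≤ M := Finset.sum_nonneg fun i _ => Finset.sum_nonneg fun j _ => abs_nonneg _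
  have hMb : ∀ s ∈ Icc 0 t, ∀ i j, ∀ x ∈ cube, |pd j (fun y => u s y i) x| ≤ M := by
    intro s hs i j x hx
    have h1 := hC i j (s, x) ⟨hs, hx⟩
    rw [Real.norm_eq_abs] at h1
    refine h1.trans ((le_abs_self _).trans ?_)
    have h2 : |C i j| ≤ ∑ j, |C i j| :=
      Finset.single_le_sum (f := fun j => |C i j|) (fun j _ => abs_nonneg _) (Finset.mem_univ j)
    have h3 : ∑ j, |C i j| ≤ M :=
      Finset.single_le_sum (f := fun i => ∑ j, |C i j|)
        (fun i _ => Finset.sum_nonneg fun j _ => abs_nonneg _) (Finset.mem_univ i)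
    exact h2.trans h3
  -- the energy of the difference
  have hw : ∀ i, ContDiffOn ℝ ∞ (fun z : ℝ × V =>
      (fun (s : ℝ) (x : V) => u s x i - v s x i) z.1 z.2) (Ico 0 T ×ˢ univ) := fun i =>
    (uni_comp hu.smooth i).sub (uni_comp hv.smooth i)
  let E : ℝ → ℝ := fun s => ∑ i, ∫ x in cube, (u s x i - v s x i) ^ 2
  have hEc : ContinuousOn E (Ico 0 T) := by
    refine continuousOn_finsetSum _ fun i _ => ?_
    exact continuousOn_int (F := fun s x => (u s x i - v s x i) ^ 2) ((hw i).continuousOn.pow 2)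
  have hE0 : E 0 = 0 := by
    refine Finset.sum_eq_zero fun i _ => ?_
    rw [h0]
    simp
  have hEn : ∀ s, 0 ≤ E s := fun s =>
    Finset.sum_nonneg fun i _ => integral_nonneg fun x => by positivity
  have hdd : ∀ s ∈ Ioo 0 T, ∀ i x, dt (fun s x => u s x i - v s x i) s x =
      dt (fun s x => u s x i) s x - dt (fun s x => v s x i) s x := by
    intro s hs i x
    have a1 := hasDerivAt_slice (F := fun s x => u s x i)
      (mono_Ioo (f := fun s x => u s x i) (uni_comp hu.smooth i) (by norm_cast)) hs x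
    have a2 := hasDerivAt_slice (F := fun s x => v s x i)
      (mono_Ioo (f := fun s x => v s x i) (uni_comp hv.smooth i) (by norm_cast)) hs x
    have a3 : HasDerivAt (fun s => u s x i - v s x i) _ s := a1.sub a2
    have b1 : dt (fun s x => u s x i) s x = _ := a1.deriv
    have b2 : dt (fun s x => v s x i) s x = _ := a2.deriv
    rw [b1, b2]
    exact a3.deriv
  have hEd : ∀ s ∈ Ioo 0 T, HasDerivAt E (2 * ∑ i, ∫ x in cube,
      (dt (fun s x => u s x i) s x - dt (fun s x => v s x i) s x) * (u s x i - v s x i)) s := by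
    intro s hs
    have a1 : HasDerivAt E (∑ i, 2 * ∫ x in cube,
        dt (fun s x => u s x i - v s x i) s x * (u s x i - v s x i)) s :=
      HasDerivAt.fun_sum fun i _ => uni_E (hw i) hs
    rw [← Finset.mul_sum] at a1
    simp_rw [hdd s hs] at a1
    exact a1
  have hEi : ∀ s ∈ Ioo 0 t, ∃ E', HasDerivAt E E' s ∧ E' ≤ 6 * M * E s := by
    intro s hs
    have hs' : s ∈ Ioo 0 T := ⟨hs.1, hs.2.trans ht.2⟩
    refine ⟨_, hEd s hs', ?_⟩
    have a1 := uniP_ineq hΦ hν hu hv hs' (hMb s ⟨hs.1.le, hs.2.le⟩)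
    show _ ≤ 6 * M * ∑ i, ∫ x in cube, (u s x i - v s x i) ^ 2
    linarith
  -- Gronwall
  have hanti : AntitoneOn (fun s => E s * Real.exp (-(6 * M) * s)) (Icc 0 t) := by
    refine antitoneOn_of_deriv_nonpos (convex_Icc 0 t) ?_ ?_ ?_
    · exact (hEc.mono fun s hs => ⟨hs.1, hs.2.trans_lt ht.2⟩).mul
        (Continuous.continuousOn (by fun_prop))
    · rw [interior_Icc]
      intro s hs
      obtain ⟨E', a1, -⟩ := hEi s hs
      have a2 : HasDerivAt (fun s => Real.exp (-(6 * M) * s))
          (Real.exp (-(6 * M) * s) * (-(6 * M) * 1)) s :=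
        ((hasDerivAt_id s).const_mul (-(6 * M))).exp
      exact (a1.mul a2).differentiableAt.differentiableWithinAt
    · rw [interior_Icc]
      intro s hs
      obtain ⟨E', a1, a3⟩ := hEi s hs
      have a2 : HasDerivAt (fun s => Real.exp (-(6 * M) * s))
          (Real.exp (-(6 * M) * s) * (-(6 * M) * 1)) s :=
        ((hasDerivAt_id s).const_mul (-(6 * M))).exp
      have a4 : HasDerivAt (fun s => E s * Real.exp (-(6 * M) * s)) _ s := a1.mul a2
      rw [a4.deriv]
      have a5 : E' * Real.exp (-(6 * M) * s) + E s * (Real.exp (-(6 * M) * s) * (-(6 * M) * 1)) =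
          (E' - 6 * M * E s) * Real.exp (-(6 * M) * s) := by ring
      rw [a5]
      exact mul_nonpos_of_nonpos_of_nonneg (by linarith) (Real.exp_pos _).le
  have hfin := hanti ⟨le_refl 0, htpos.le⟩ ⟨htpos.le, le_refl t⟩ htpos.le
  simp only [hE0, zero_mul] at hfin
  have hEt : E t = 0 := by
    refine le_antisymm ?_ (hEn t)
    by_contra hc
    push Not at hc
    have := mul_pos hc (Real.exp_pos (-(6 * M) * t))
    linarith
  -- conclusion
  funext x
  funext i
  have h1 : ∫ x in cube, (u t x i - v t x i) ^ 2 = 0 := by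
    have a1 := (Finset.sum_eq_zero_iff_of_nonneg fun i _ =>
      integral_nonneg (μ := volume.restrict cube)
        (f := fun x => (u t x i - v t x i) ^ 2) fun x => by positivity).1 hEt i
      (Finset.mem_univ i)
    exact a1
  have h2 := uni_zero (uni_sub (uniP_sp hu ht i) (uniP_sp hv ht i)) h1 x
  exact sub_eq_zero.1 h2

end Pool.Agent.H226.GB
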