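import Pool.Agent.H226.GB.Spec4
import Pool.Agent.H226.GB.Uni

/-!
From the span of the fields `φ m` to the larger space.
-/

set_option autoImplicit false

open MeasureTheory Set Filter Topology
open scoped ContDiff
open H459R3.NS

namespace Pool.Agent.H226.GB

theorem up_pd {f : V → ℝ} (hf : SP f) (c : ℝ) (j : Fin 3) (x : V) :
    pd j (fun y => f (c • y)) x = c * pd j f (c • x) := by
  unfold pd
  have h1 : HasFDerivAt (fun y : V => c • y) (c • ContinuousLinearMap.id ℝ V) x :=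
    (hasFDerivAt_id x).const_smul c
  have h2 : HasFDerivAt (fun y => f (c • y))
      ((fderiv ℝ f (c • x)).comp (c • ContinuousLinearMap.id ℝ V)) x :=
    HasFDerivAt.comp x (hf.diff (c • x)).hasFDerivAt h1
  rw [h2.fderiv]
  simp

theorem up_pdc {f : V → ℝ} (hf : SP f) (c : ℝ) (j : Fin 3) (x : V) :
    pd j (fun y => c * f y) x = c * pd j f x := by
  unfold pd
  have h : HasFDerivAt (fun y => c * f y) (c • fderiv ℝ f x) x :=
    (hf.diff x).hasFDerivAt.const_mul c
  rw [h.fderiv]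
  simp

theorem up_per {F : Type*} {f : V → F} (hf : Per f) (p : ℕ) :
    Per (fun x => f ((p : ℝ) • x)) := by
  intro i x
  have h := hf.int (Pi.single i (p : ℤ)) ((p : ℝ) • x)
  have e : (p : ℝ) • (x + Pi.single i 1) =
      (p : ℝ) • x + fun j => (((Pi.single i (p : ℤ) : K3) j : ℤ) : ℝ) := by
    funext j
    by_cases hj : j = i
    · subst hj
      simp [mul_add]
    · simp [Pi.single_eq_of_ne hj]
  show f ((p : ℝ) • (x + Pi.single i 1)) = f ((p : ℝ) • x)
  rw [e, h]

theorem up_sp {f : V → ℝ} (hf : SP f) (p : ℕ) : SP (fun x => f ((p : ℝ) • x)) where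
  smooth := hf.smooth.comp (contDiff_const_smul (p : ℝ))
  per := up_per hf.per p

theorem up_pdv {f : V → ℝ} (hf : SP f) {p : ℕ} (hp : (p : ℝ) ≠ 0) (j : Fin 3) (x : V) :
    pd j (fun y => (p : ℝ)⁻¹ * f ((p : ℝ) • y)) x = pd j f ((p : ℝ) • x) := by
  rw [up_pdc (up_sp hf p), up_pd hf, ← mul_assoc, inv_mul_cancel₀ hp, one_mul]

/-! ### modes -/

theorem up_cos (k : K3) : SP (fun x => Real.cos (2 * Real.pi * ph k x)) where
  smooth := Real.contDiff_cos.comp (contDiff_const.mul (ph_contDiff k))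
  per := by
    intro i x
    have e : 2 * Real.pi * ph k (x + Pi.single i 1) =
        2 * Real.pi * ph k x + (k i : ℝ) * (2 * Real.pi) := by
      rw [ph_add, ph_single]
      ring
    show Real.cos (2 * Real.pi * ph k (x + Pi.single i 1)) = Real.cos (2 * Real.pi * ph k x)
    rw [e, Real.cos_add_int_mul_two_pi]

theorem up_sin (k : K3) : SP (fun x => Real.sin (2 * Real.pi * ph k x)) where
  smooth := Real.contDiff_sin.comp (contDiff_const.mul (ph_contDiff k))
  per := by
    intro i x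
    have e : 2 * Real.pi * ph k (x + Pi.single i 1) =
        2 * Real.pi * ph k x + (k i : ℝ) * (2 * Real.pi) := by
      rw [ph_add, ph_single]
      ring
    show Real.sin (2 * Real.pi * ph k (x + Pi.single i 1)) = Real.sin (2 * Real.pi * ph k x)
    rw [e, Real.sin_add_int_mul_two_pi]

theorem up_mode (hI : S_int) {g : V → ℝ} (hg : SP g) {p : ℕ} (hp : (p : ℝ) ≠ 0) (k : K3)
    (j : Fin 3) (hk : ¬((p : ℤ) ∣ k j)) :
    ∫ x in cube, g ((p : ℝ) • x) * Real.cos (2 * Real.pi * ph k x) = 0 ∧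
    ∫ x in cube, g ((p : ℝ) • x) * Real.sin (2 * Real.pi * ph k x) = 0 := by
  set C := ∫ x in cube, g ((p : ℝ) • x) * Real.cos (2 * Real.pi * ph k x) with hC
  set D := ∫ x in cube, g ((p : ℝ) • x) * Real.sin (2 * Real.pi * ph k x) with hD
  set θ : ℝ := 2 * Real.pi * (k j / p) with hθ
  have hsc : SP (fun x => g ((p : ℝ) • x) * Real.cos (2 * Real.pi * ph k x)) :=
    (up_sp hg p).mul (up_cos k)
  have hss : SP (fun x => g ((p : ℝ) • x) * Real.sin (2 * Real.pi * ph k x)) :=
    (up_sp hg p).mul (up_sin k)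
  have hgs : ∀ x : V, g ((p : ℝ) • (x + Pi.single j (1 / (p : ℝ)))) = g ((p : ℝ) • x) := by
    intro x
    have e : (p : ℝ) • (x + Pi.single j (1 / (p : ℝ))) = (p : ℝ) • x + Pi.single j 1 := by
      rw [smul_add, ← Pi.single_smul, smul_eq_mul, mul_one_div_cancel hp]
    rw [e, hg.per]
  have hph : ∀ x : V, 2 * Real.pi * ph k (x + Pi.single j (1 / (p : ℝ))) =
      2 * Real.pi * ph k x + θ := by
    intro x
    rw [ph_add, ph_single, hθ]
    ring
  have c1 := hI.2 _ hsc (Pi.single j (1 / (p : ℝ)))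
  have c2 := hI.2 _ hss (Pi.single j (1 / (p : ℝ)))
  simp only [hgs, hph] at c1 c2
  have e1 : ∀ x : V, g ((p : ℝ) • x) * Real.cos (2 * Real.pi * ph k x + θ) =
      Real.cos θ * (g ((p : ℝ) • x) * Real.cos (2 * Real.pi * ph k x)) -
        Real.sin θ * (g ((p : ℝ) • x) * Real.sin (2 * Real.pi * ph k x)) := by
    intro x
    rw [Real.cos_add]
    ring
  have e2 : ∀ x : V, g ((p : ℝ) • x) * Real.sin (2 * Real.pi * ph k x + θ) =
      Real.cos θ * (g ((p : ℝ) • x) * Real.sin (2 * Real.pi * ph k x)) +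
        Real.sin θ * (g ((p : ℝ) • x) * Real.cos (2 * Real.pi * ph k x)) := by
    intro x
    rw [Real.sin_add]
    ring
  simp only [e1] at c1
  simp only [e2] at c2
  rw [integral_sub (hsc.int.const_mul _) (hss.int.const_mul _), integral_const_mul,
    integral_const_mul, ← hC, ← hD] at c1
  rw [integral_add (hss.int.const_mul _) (hsc.int.const_mul _), integral_const_mul,
    integral_const_mul, ← hC, ← hD] at c2
  have hcos : Real.cos θ ≠ 1 := by
    intro h
    obtain ⟨n, hn⟩ := (Real.cos_eq_one_iff θ).1 h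
    apply hk
    refine ⟨n, ?_⟩
    have hpi : (2 * Real.pi) ≠ 0 := by positivity
    have h1 : (2 * Real.pi) * (n : ℝ) = (2 * Real.pi) * (k j / p) := by
      rw [← hθ, ← hn]
      ring
    have h2 : (n : ℝ) = k j / p := mul_left_cancel₀ hpi h1
    have h3 : (k j : ℝ) = (p : ℝ) * n := by
      rw [h2]
      field_simp
    exact_mod_cast h3
  have hq : 0 < (Real.cos θ - 1) ^ 2 + Real.sin θ ^ 2 := by
    have : 0 < (Real.cos θ - 1) ^ 2 := by
      have := sub_ne_zero.2 hcos
      positivity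
    positivity
  constructor
  · have : ((Real.cos θ - 1) ^ 2 + Real.sin θ ^ 2) * C = 0 := by
      linear_combination (Real.cos θ - 1) * c1 + Real.sin θ * c2
    exact (mul_eq_zero.1 this).resolve_left hq.ne'
  · have : ((Real.cos θ - 1) ^ 2 + Real.sin θ ^ 2) * D = 0 := by
      linear_combination (Real.cos θ - 1) * c2 - Real.sin θ * c1
    exact (mul_eq_zero.1 this).resolve_left hq.ne'

/-! ### the residual -/

theorem up_res {φ : ℕ → V → V} {ν T : ℝ} {u : ℝ → V → V} {p : ℕ} (hp : (p : ℝ) ≠ 0)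
    (hu : IsGal φ (ν * p ^ 2) T u) {t : ℝ} (ht : t ∈ Ioo 0 T) (i : Fin 3) (x : V) :
    (deriv (fun s => ((p : ℝ)⁻¹ • u s ((p : ℝ) • x)) i) t +
      ∑ j, ((p : ℝ)⁻¹ • u t ((p : ℝ) • x)) j * pd j (fun y => ((p : ℝ)⁻¹ • u t ((p : ℝ) • y)) i) x
      - ν * ∑ j, pd j (pd j (fun y => ((p : ℝ)⁻¹ • u t ((p : ℝ) • y)) i)) x) =
    (p : ℝ)⁻¹ * uniR (ν * p ^ 2) u t i ((p : ℝ) • x) := by
  have ht' : t ∈ Ico 0 T := ⟨ht.1.le, ht.2⟩
  have hU := fun i => uni_sp hu ht' i
  simp only [Pi.smul_apply, smul_eq_mul]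
  have e1 : ∀ j, pd j (fun y => (p : ℝ)⁻¹ * u t ((p : ℝ) • y) i) =
      fun x => pd j (fun y => u t y i) ((p : ℝ) • x) := fun j =>
    funext fun x => up_pdv (f := fun y => u t y i) (hU i) hp j x
  have e2 : ∀ j, pd j (fun x => pd j (fun y => u t y i) ((p : ℝ) • x)) x =
      p * pd j (pd j (fun y => u t y i)) ((p : ℝ) • x) := fun j =>
    up_pd ((hU i).pd j) p j x
  have e3 : deriv (fun s => (p : ℝ)⁻¹ * u s ((p : ℝ) • x) i) t =
      (p : ℝ)⁻¹ * dt (fun s x => u s x i) t ((p : ℝ) • x) :=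
    deriv_const_mul_field _
  simp only [e1, e2]
  rw [e3]
  unfold uniR
  rw [← Finset.mul_sum]
  simp only [mul_assoc (p : ℝ)⁻¹]
  rw [← Finset.mul_sum]
  field_simp

theorem s_up (hI : S_int) : S_up := by
  intro φ p hφ hp1 ν T u hu
  have hp : (p : ℝ) ≠ 0 := by
    have : 0 < p := hp1
    positivity
  refine ⟨?_, ?_, ?_, ?_, ?_⟩
  · have h1 : ContDiff ℝ ∞ (fun z : ℝ × V => ((z.1, (p : ℝ) • z.2) : ℝ × V)) :=
      contDiff_fst.prodMk ((contDiff_const_smul (p : ℝ)).comp contDiff_snd)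
    have h2 : ContDiffOn ℝ ∞ (fun z : ℝ × V => u z.1 ((p : ℝ) • z.2)) (Ico 0 T ×ˢ univ) :=
      hu.smooth.comp h1.contDiffOn (fun z hz => ⟨hz.1, mem_univ _⟩)
    exact (contDiff_const_smul ((p : ℝ)⁻¹)).comp_contDiffOn h2
  · intro t ht i x
    have h : u t ((p : ℝ) • (x + Pi.single i 1)) = u t ((p : ℝ) • x) :=
      up_per (hu.per t ht) p i x
    show (p : ℝ)⁻¹ • u t ((p : ℝ) • (x + Pi.single i 1)) = (p : ℝ)⁻¹ • u t ((p : ℝ) • x)
    rw [h]
  · intro t ht x
    have e : ∀ i, pd i (fun y => ((p : ℝ)⁻¹ • u t ((p : ℝ) • y)) i) x =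
        pd i (fun y => u t y i) ((p : ℝ) • x) := fun i =>
      up_pdv (f := fun y => u t y i) (uni_sp hu ht i) hp i x
    rw [Finset.sum_congr rfl fun i _ => e i]
    exact hu.divfree t ht _
  · intro t ht ε hε
    obtain ⟨L, a, h⟩ := hu.mem t ht (ε * p ^ 2) (by positivity)
    refine ⟨∑ m ∈ Finset.range L, ((p : ℝ)⁻¹ * a m) • (fun x => φ m ((p : ℝ) • x)), ?_, ?_⟩
    · refine Submodule.sum_mem _ fun m _ => Submodule.smul_mem _ _ (Submodule.subset_span ?_)
      exact Or.inl ⟨m, fun x => rfl⟩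
    · have e : ∀ i, ∫ x in cube, (((p : ℝ)⁻¹ • u t ((p : ℝ) • x)) i -
          (∑ m ∈ Finset.range L, ((p : ℝ)⁻¹ * a m) • (fun x => φ m ((p : ℝ) • x))) x i) ^ 2 =
          ((p : ℝ) ^ 2)⁻¹ * ∫ x in cube, (u t x i - ∑ m ∈ Finset.range L, a m * φ m x i) ^ 2 := by
        intro i
        have hs : SP (fun x => u t x i - ∑ m ∈ Finset.range L, a m * φ m x i) :=
          uni_sub (uni_sp hu ht i) (SP.sum fun m _ => uni_smul (a m) (hφ m i))
        have h1 := hI.1 _ (hs.mul hs) p hp1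
        simp only [← sq] at h1
        rw [← h1, ← integral_const_mul]
        refine integral_congr_ae (Eventually.of_forall fun x => ?_)
        show (((p : ℝ)⁻¹ • u t ((p : ℝ) • x)) i -
          (∑ m ∈ Finset.range L, ((p : ℝ)⁻¹ * a m) • (fun x => φ m ((p : ℝ) • x))) x i) ^ 2 =
          ((p : ℝ) ^ 2)⁻¹ * (u t ((p : ℝ) • x) i -
            ∑ m ∈ Finset.range L, a m * φ m ((p : ℝ) • x) i) ^ 2
        have e1 : (∑ m ∈ Finset.range L, ((p : ℝ)⁻¹ * a m) • (fun x => φ m ((p : ℝ) • x))) x i =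
            (p : ℝ)⁻¹ * ∑ m ∈ Finset.range L, a m * φ m ((p : ℝ) • x) i := by
          rw [Finset.sum_apply, Finset.sum_apply, Finset.mul_sum]
          refine Finset.sum_congr rfl fun m _ => ?_
          simp only [Pi.smul_apply, smul_eq_mul]
          ring
        rw [e1, Pi.smul_apply, smul_eq_mul, ← mul_sub, mul_pow, inv_pow]
      rw [Finset.sum_congr rfl fun i _ => e i, ← Finset.mul_sum]
      have hp2 : (0 : ℝ) < (p : ℝ) ^ 2 := by positivity
      rw [inv_mul_lt_iff₀ hp2]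
      linarith
  · intro t ht w hw
    have e : ∀ i, ∫ x in cube, (deriv (fun s => ((p : ℝ)⁻¹ • u s ((p : ℝ) • x)) i) t +
        ∑ j, ((p : ℝ)⁻¹ • u t ((p : ℝ) • x)) j *
          pd j (fun y => ((p : ℝ)⁻¹ • u t ((p : ℝ) • y)) i) x
        - ν * ∑ j, pd j (pd j (fun y => ((p : ℝ)⁻¹ • u t ((p : ℝ) • y)) i)) x) * w x i =
        (p : ℝ)⁻¹ * ∫ x in cube, uniR (ν * p ^ 2) u t i ((p : ℝ) • x) * w x i := by
      intro i
      rw [← integral_const_mul]
      refine integral_congr_ae (Eventually.of_forall fun x => ?_)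
      show _ = (p : ℝ)⁻¹ * (uniR (ν * p ^ 2) u t i ((p : ℝ) • x) * w x i)
      rw [← mul_assoc, ← up_res hp hu ht i x]
    rw [Finset.sum_congr rfl fun i _ => e i, ← Finset.mul_sum]
    have key : ∑ i, ∫ x in cube, uniR (ν * p ^ 2) u t i ((p : ℝ) • x) * w x i = 0 := by
      rcases hw with ⟨m, hm⟩ | ⟨k, a, ⟨j, hj⟩, -, hw⟩
      · have e4 : ∀ i, ∫ x in cube, uniR (ν * p ^ 2) u t i ((p : ℝ) • x) * w x i =
            ∫ x in cube, uniR (ν * p ^ 2) u t i x * φ m x i := by
          intro i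
          rw [← hI.1 _ ((uni_R hu ht i).mul (hφ m i)) p hp1]
          refine integral_congr_ae (Eventually.of_forall fun x => ?_)
          show uniR (ν * p ^ 2) u t i ((p : ℝ) • x) * w x i =
            uniR (ν * p ^ 2) u t i ((p : ℝ) • x) * φ m ((p : ℝ) • x) i
          rw [hm]
        rw [Finset.sum_congr rfl fun i _ => e4 i]
        exact hu.eq t ht m
      · refine Finset.sum_eq_zero fun i _ => ?_
        have h5 := up_mode hI (uni_R hu ht i) hp k j hj
        rcases hw with hw | hw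
        · have e6 : ∫ x in cube, uniR (ν * p ^ 2) u t i ((p : ℝ) • x) * w x i =
              ∫ x in cube, a i * (uniR (ν * p ^ 2) u t i ((p : ℝ) • x) *
                Real.cos (2 * Real.pi * ph k x)) := by
            refine integral_congr_ae (Eventually.of_forall fun x => ?_)
            show uniR (ν * p ^ 2) u t i ((p : ℝ) • x) * w x i = a i *
              (uniR (ν * p ^ 2) u t i ((p : ℝ) • x) * Real.cos (2 * Real.pi * ph k x))
            rw [hw, Pi.smul_apply, smul_eq_mul]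
            unfold ph
            ring
          rw [e6, integral_const_mul, h5.1, mul_zero]
        · have e6 : ∫ x in cube, uniR (ν * p ^ 2) u t i ((p : ℝ) • x) * w x i =
              ∫ x in cube, a i * (uniR (ν * p ^ 2) u t i ((p : ℝ) • x) *
                Real.sin (2 * Real.pi * ph k x)) := by
            refine integral_congr_ae (Eventually.of_forall fun x => ?_)
            show uniR (ν * p ^ 2) u t i ((p : ℝ) • x) * w x i = a i *
              (uniR (ν * p ^ 2) u t i ((p : ℝ) • x) * Real.sin (2 * Real.pi * ph k x))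
            rw [hw, Pi.smul_apply, smul_eq_mul]
            unfold ph
            ring
          rw [e6, integral_const_mul, h5.2, mul_zero]
    rw [key, mul_zero]

end Pool.Agent.H226.GB
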