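import Pool.Agent.H226.GB.Spec8
import Pool.Agent.H226.GB.UniP
import Pool.Agent.H226.GB.Up

/-!
Solutions in the small space are solutions in all admissible spaces.
-/

set_option autoImplicit false

open MeasureTheory Set Filter Topology
open scoped ContDiff ENNReal
open H459R3.NS

namespace Pool.Agent.H226.GB

/-- the product of two functions is integrated -/
theorem adm_int {f g : V → ℝ} (hf : SP f) (hg : SP g) : IntegrableOn (fun x => f x * g x) cube :=
  (hf.mul hg).int

/-- the rescaled fields are smooth and periodic -/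
theorem adm_sc (hb : Basis phi cc pp gg) (p : ℕ) : ∀ w ∈ Sc p, ∀ i, SP (fun x => w x i) := by
  rintro w ⟨m, hm⟩ i
  have h1 := up_sp (hb.sp m i) p
  have h2 : (fun x => w x i) = fun x => phi m ((p : ℝ) • x) i := by
    funext x
    rw [hm x]
  rw [h2]
  exact h1

/-- a smooth field orthogonal to the rescaled constraint and to the rescaled fields is orthogonal
to the rescaled field from which the constraint was made -/
theorem adm_res (hb : Basis phi cc pp gg) (p n : ℕ) {f w : V → V} (hf : ∀ i, SP (fun x => f x i))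
    (hw : ∀ i, SP (fun x => w x i))
    (hphi : ∀ m, ∑ i, ∫ x in cube, w x i * phi m ((p : ℝ) • x) i = 0)
    (hc : ∑ l, ∫ x in cube, w x l * res n f ((p : ℝ) • x) l = 0) :
    ∑ l, ∫ x in cube, w x l * f ((p : ℝ) • x) l = 0 := by
  have hS : ∀ l, SP (fun x => ∑ m ∈ Finset.range (n + 2), ip f (phi m) * phi m ((p : ℝ) • x) l) :=
    fun l => SP.sum fun m _ => uni_smul _ (up_sp (hb.sp m l) p)
  have hR : ∀ l, SP (fun x => res n f ((p : ℝ) • x) l) := fun l =>
    uni_sub (up_sp (hf l) p) (hS l)
  have e1 : ∀ l, ∫ x in cube, w x l * f ((p : ℝ) • x) l =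
      (∫ x in cube, w x l * res n f ((p : ℝ) • x) l) +
        ∑ m ∈ Finset.range (n + 2), ip f (phi m) * ∫ x in cube, w x l * phi m ((p : ℝ) • x) l := by
    intro l
    have e2 : ∀ x, w x l * f ((p : ℝ) • x) l = w x l * res n f ((p : ℝ) • x) l +
        ∑ m ∈ Finset.range (n + 2), ip f (phi m) * (w x l * phi m ((p : ℝ) • x) l) := by
      intro x
      unfold res
      rw [mul_sub, Finset.mul_sum]
      have e3 : ∀ m ∈ Finset.range (n + 2), w x l * (ip f (phi m) * phi m ((p : ℝ) • x) l) =
          ip f (phi m) * (w x l * phi m ((p : ℝ) • x) l) := fun m _ => by ring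
      rw [Finset.sum_congr rfl e3]
      ring
    simp_rw [e2]
    rw [integral_add (adm_int (hw l) (hR l))
      (SP.sum fun m _ => uni_smul _ ((hw l).mul (up_sp (hb.sp m l) p))).int,
      integral_finsetSum _ fun m _ => (uni_smul _ ((hw l).mul (up_sp (hb.sp m l) p))).int]
    congr 1
    exact Finset.sum_congr rfl fun m _ => integral_const_mul _ _
  rw [Finset.sum_congr rfl fun l _ => e1 l, Finset.sum_add_distrib, hc, zero_add,
    Finset.sum_comm]
  refine Finset.sum_eq_zero fun m _ => ?_
  rw [← Finset.mul_sum, hphi m, mul_zero]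

theorem adm_sp_cv {u v : V → V} (hu : ∀ i, SP (fun x => u x i)) (hv : ∀ i, SP (fun x => v x i))
    (i : Fin 3) : SP (fun x => cv u v x i) :=
  SP.sum fun j _ => (hu j).mul ((hv i).pd j)

theorem adm_sp_lp {u : V → V} (hu : ∀ i, SP (fun x => u x i)) (i : Fin 3) :
    SP (fun x => lp u x i) :=
  SP.sum fun j _ => ((hu i).pd j).pd j

theorem adm_sp_qq (hb : Basis phi cc pp gg) (i j : ℕ) (l : Fin 3) : SP (fun x => qq i j x l) :=
  SP.add (adm_sp_cv (hb.sp i) (hb.sp j) l) (adm_sp_cv (hb.sp j) (hb.sp i) l)

/-- the element of the closed span is orthogonal to the rescaled constraints -/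
theorem adm_G (h5 : S_ort) (hI : S_int) (hb : Basis phi cc pp gg) {p : ℕ} (hp : 1 ≤ p)
    {G : V → V} (hG : ∀ i, SP (fun x => G x i)) (hsp : InSpan (Sc p) G) (n i : ℕ) :
    ∑ l, ∫ x in cube, G x l * cst n i ((p : ℝ) • x) l = 0 := by
  have hC : ∀ l, SP (fun x => cst n i ((p : ℝ) • x) l) := fun l => up_sp (h5.1 n i l) p
  have h0 : ∀ w ∈ Sc p, ∑ l, ∫ x in cube, cst n i ((p : ℝ) • x) l * w x l = 0 := by
    rintro w ⟨m, hm⟩
    have e1 : ∀ l, ∫ x in cube, cst n i ((p : ℝ) • x) l * w x l =
        ∫ x in cube, cst n i x l * phi m x l := by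
      intro l
      have e2 : ∀ x, cst n i ((p : ℝ) • x) l * w x l =
          (fun y => cst n i y l * phi m y l) ((p : ℝ) • x) := by
        intro x
        rw [hm x]
      simp_rw [e2]
      exact hI.1 _ ((h5.1 n i l).mul (hb.sp m l)) p hp
    rw [Finset.sum_congr rfl fun l _ => e1 l]
    exact h5.2 n i m
  have h1 := uniP_dens (adm_sc hb p) hC hG h0 hsp
  rw [← h1]
  refine Finset.sum_congr rfl fun l _ => ?_
  refine integral_congr_ae (Eventually.of_forall fun x => ?_)
  exact mul_comm _ _

theorem s_adm (h1 : S_dt) (h2 : S_lap) (h3 : S_con) (h4 : S_prS) (h5 : S_ort) (hI : S_int)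
    (hb : Basis phi cc pp gg) : S_adm := by
  intro p Φ hp hA ν T u hu
  refine ⟨hu.smooth, hu.per, hu.divfree, ?_, ?_⟩
  · intro t ht ε hε
    obtain ⟨w, hw, hlt⟩ := hu.mem t ht ε hε
    exact ⟨w, Submodule.span_mono hA.sc hw, hlt⟩
  · intro t ht w hw
    have ht' : t ∈ Ico 0 T := ⟨ht.1.le, ht.2⟩
    have hwS := hA.sp w hw
    obtain ⟨G, hG, -, hGs, hGo, -⟩ := h4 p w hp hwS
    obtain ⟨w', hw'⟩ : ∃ w' : V → V, w' = fun x i => w x i - G x i := ⟨_, rfl⟩
    have hwx : ∀ x i, w' x i = w x i - G x i := fun x i => by rw [hw']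
    have hwS' : ∀ i, SP (fun x => w' x i) := by
      intro i
      have e : (fun x => w' x i) = fun x => w x i - G x i := funext fun x => hwx x i
      rw [e]
      exact uni_sub (hwS i) (hG i)
    have ho : ∀ m, ∑ i, ∫ x in cube, w' x i * phi m ((p : ℝ) • x) i = 0 := by
      intro m
      simp_rw [hwx]
      exact hGo m
    -- orthogonality to the constraints
    have hcst : ∀ n i, ∑ l, ∫ x in cube, w' x l * cst n i ((p : ℝ) • x) l = 0 := by
      intro n i
      have a1 := hA.orth w hw n i
      have a2 := adm_G h5 hI hb hp hG hGs n i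
      have hC : ∀ l, SP (fun x => cst n i ((p : ℝ) • x) l) := fun l => up_sp (h5.1 n i l) p
      have e1 : ∀ l, ∫ x in cube, w' x l * cst n i ((p : ℝ) • x) l =
          (∫ x in cube, w x l * cst n i ((p : ℝ) • x) l) -
            ∫ x in cube, G x l * cst n i ((p : ℝ) • x) l := by
        intro l
        simp_rw [hwx, sub_mul]
        exact integral_sub (adm_int (hwS l) (hC l)) (adm_int (hG l) (hC l))
      rw [Finset.sum_congr rfl fun l _ => e1 l, Finset.sum_sub_distrib, a1, a2, sub_zero]
    have hqq : ∀ i j, i ≤ j → ∑ l, ∫ x in cube, w' x l * qq i j ((p : ℝ) • x) l = 0 := by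
      intro i j hij
      refine adm_res hb p j (adm_sp_qq hb i j) hwS' ho ?_
      have a1 := hcst j i
      have a2 : cst j i = res j (qq i j) := by
        unfold cst
        rw [if_pos hij]
      rw [a2] at a1
      exact a1
    have hlp : ∀ m, ∑ i, ∫ x in cube, w' x i * lp (phi m) ((p : ℝ) • x) i = 0 := by
      intro m
      refine adm_res hb p m (adm_sp_lp (hb.sp m)) hwS' ho ?_
      have a1 := hcst m (m + 1)
      have a2 : cst m (m + 1) = res m (lp (phi m)) := by
        unfold cst
        rw [if_neg (by omega), if_pos rfl]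
      rw [a2] at a1
      exact a1
    have hU : ∀ i, SP (fun x => u t x i) := fun i => uniP_sp hu ht' i
    have r1 := h1 p ν T u w' hp hu hwS' ho t ht
    have r2 := h2 p (u t) w' hp hU (hu.mem t ht') hwS' hlp
    have r3 := h3 p (u t) w' hp hU (hu.divfree t ht') (hu.mem t ht') hwS' hqq
    -- the equation for the element of the closed span
    have hRS : ∀ i, SP (uniR ν u t i) := fun i => uniP_R hu ht i
    have r4 : ∑ i, ∫ x in cube, uniR ν u t i x * G x i = 0 :=
      uniP_dens (adm_sc hb p) hRS hG (fun v hv => hu.eq t ht v hv) hGs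
    have hD : ∀ i, SP (fun x => deriv (fun s => u s x i) t) := fun i => uniP_dtc hu ht i
    have hC : ∀ i, SP (fun x => cv (u t) (u t) x i) := adm_sp_cv hU hU
    have hL : ∀ i, SP (fun x => lp (u t) x i) := adm_sp_lp hU
    have e1 : ∀ i, ∫ x in cube, (deriv (fun s => u s x i) t + ∑ j, u t x j * pd j (fun y => u t y i) x
      - ν * ∑ j, pd j (pd j (fun y => u t y i)) x) * w x i =
      (∫ x in cube, deriv (fun s => u s x i) t * w' x i) +
        (∫ x in cube, cv (u t) (u t) x i * w' x i) - ν * (∫ x in cube, lp (u t) x i * w' x i) +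
        ∫ x in cube, uniR ν u t i x * G x i := by
      intro i
      have e2 : ∀ x, (deriv (fun s => u s x i) t + ∑ j, u t x j * pd j (fun y => u t y i) x
          - ν * ∑ j, pd j (pd j (fun y => u t y i)) x) * w x i =
          deriv (fun s => u s x i) t * w' x i + cv (u t) (u t) x i * w' x i -
            ν * (lp (u t) x i * w' x i) + uniR ν u t i x * G x i := by
        intro x
        have e3 : uniR ν u t i x = deriv (fun s => u s x i) t + cv (u t) (u t) x i -
          ν * lp (u t) x i := rfl
        rw [hwx, e3]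
        show (deriv (fun s => u s x i) t + cv (u t) (u t) x i - ν * lp (u t) x i) * w x i = _
        ring
      simp_rw [e2]
      rw [integral_add ((uni_sub (SP.add ((hD i).mul (hwS' i)) ((hC i).mul (hwS' i)))
          (uni_smul ν ((hL i).mul (hwS' i)))).int) (adm_int (hRS i) (hG i)),
        integral_sub (SP.add ((hD i).mul (hwS' i)) ((hC i).mul (hwS' i))).int
          (uni_smul ν ((hL i).mul (hwS' i))).int,
        integral_add (adm_int (hD i) (hwS' i)) (adm_int (hC i) (hwS' i)), integral_const_mul]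
    rw [Finset.sum_congr rfl fun i _ => e1 i, Finset.sum_add_distrib, Finset.sum_sub_distrib,
      Finset.sum_add_distrib, ← Finset.mul_sum, r1, r2, r3, r4]
    ring

end Pool.Agent.H226.GB
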