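import Pool.Agent.H226.GB.Ode5

/-!
Blow-up for the infinite system.
-/

open MeasureTheory Set Filter Topology

namespace Pool.Agent.H226.GB

/-- extension by constants -/
noncomputable def exT (T : ℝ) (f : ℝ → ℝ) (t : ℝ) : ℝ := f (max 0 (min t T))

lemma exT_eq {T t : ℝ} (f : ℝ → ℝ) (ht : t ∈ Icc 0 T) : exT T f t = f t := by
  unfold exT
  rw [min_eq_left ht.2, max_eq_right ht.1]

lemma exT_cont {T : ℝ} {f : ℝ → ℝ} (hT : 0 ≤ T) (hf : ContinuousOn f (Icc 0 T)) :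
    Continuous (exT T f) := by
  unfold exT
  exact hf.comp_continuous (by fun_prop) fun t =>
    ⟨le_max_left _ _, max_le hT (min_le_right _ _)⟩

lemma Shell.sys0 {c : ℕ → ℕ → ℝ} {p ν : ℕ → ℝ} {T : ℝ} {a : ℕ → ℝ → ℝ} {S : ℝ → ℝ}
    {W : ℕ → ℝ → ℝ} (hsh : Shell c p ν T a S W) (hT : 0 ≤ T)
    (hcG : ∀ n l, n < l → |c n l| ≤ Gm n) (hp0 : ∀ n, 0 ≤ p n) (hν0 : ∀ n, 0 ≤ ν n)
    (hνm : Monotone ν) :
    Sys0 c Gm p ν T (fun m => exT T (a m)) (exT T S) (fun m => exT T (W m)) := by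
  refine ⟨fun m => exT_cont hT (hsh.cont m), exT_cont hT hsh.contS, fun t ht => ?_,
    fun t ht m => ?_, fun t ht m => ?_, fun t ht => ?_, hcG, hp0, hν0, hνm⟩
  · rw [exT_eq _ ht]
    simp_rw [exT_eq _ ht]
    exact hsh.sum t ht
  · rw [exT_eq _ ht]
    simp_rw [exT_eq _ ht]
    exact hsh.sumW t ht m
  · have htI : t ∈ Icc 0 T := ⟨ht.1.le, ht.2.le⟩
    have h1 := hsh.der t ht m
    have h2 : exT T (a m) =ᶠ[𝓝 t] a m := by
      filter_upwards [Ioo_mem_nhds ht.1 ht.2] with s hs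
      exact exT_eq _ ⟨hs.1.le, hs.2.le⟩
    refine (h1.congr_of_eventuallyEq h2).congr_deriv ?_
    have e3 : pm p (fun m => exT T (a m)) m t = pm p a m t := by
      show (if m = 0 then 0 else p (m - 1) * exT T (a (m - 1)) t ^ 2)
        = if m = 0 then 0 else p (m - 1) * a (m - 1) t ^ 2
      rw [exT_eq _ htI]
    have e4 : ∑ n ∈ Finset.range m, c n m * exT T (a n) t
        = ∑ n ∈ Finset.range m, c n m * a n t :=
      Finset.sum_congr rfl fun n _ => by rw [exT_eq _ htI]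
    rw [e3, e4, exT_eq _ htI, exT_eq _ htI, exT_eq _ htI]
  · have htI : t ∈ Icc 0 T := ⟨ht.1.le, ht.2.le⟩
    obtain ⟨D, hD, hD'⟩ := hsh.en t ht
    have h2 : exT T S =ᶠ[𝓝 t] S := by
      filter_upwards [Ioo_mem_nhds ht.1 ht.2] with s hs
      exact exT_eq _ ⟨hs.1.le, hs.2.le⟩
    refine ⟨D, hD.congr_of_eventuallyEq h2, fun L => ?_⟩
    simp_rw [exT_eq _ htI]
    exact hD' L

/-- **no regular solution on `[0, T]`**: the modes below `m₀` have a bounded strain, the mode `m₀`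
is at least `al m₀`, the next one is `rr m₀` and all higher modes vanish initially. -/
theorem blowP (hplan : S_plan) (hgrow : S_grow) {K T : ℝ} (hK : 0 ≤ K) (hT : 0 < T)
    (hT1 : T ≤ 1) {m0 : ℕ} (hm0 : 2 ≤ m0) (hP : ∀ m, m0 ≤ m → Par K T m) {c : ℕ → ℕ → ℝ}
    {p ν : ℕ → ℝ} {a : ℕ → ℝ → ℝ} {S : ℝ → ℝ} {W : ℕ → ℝ → ℝ} (hc : CH c p ν K)
    (hcG : ∀ n l, n < l → |c n l| ≤ Gm n) (hp0 : ∀ n, 0 ≤ p n) (hν0 : ∀ n, 0 ≤ ν n)
    (hνm : Monotone ν) (hsh : Shell c p ν T a S W)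
    (hE2 : ∀ t ∈ Icc 0 T, tl a S (m0 - 1) t ≤ 2)
    (hlow : ∀ t ∈ Icc 0 T, ∑ n ∈ Finset.range (m0 - 1), Gm n * |a n t| ≤ 2 * SG (m0 - 1))
    (ha00 : al m0 ≤ a m0 0) (ha01 : a (m0 + 1) 0 = rr m0) (ha02 : ∀ m, m0 + 2 ≤ m → a m 0 = 0) :
    ¬∃ B, ∀ t ∈ Icc 0 T, ∀ m, (RR m : ℝ) * |a m t| ≤ B := by
  rintro ⟨B, hB⟩
  have h0T : (0 : ℝ) ∈ Icc 0 T := ⟨le_rfl, hT.le⟩
  set a' : ℕ → ℝ → ℝ := fun m => exT T (a m) with ha'
  set S' : ℝ → ℝ := exT T S with hS'
  set W' : ℕ → ℝ → ℝ := fun m => exT T (W m) with hW'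
  have ea : ∀ m, ∀ t ∈ Icc 0 T, a' m t = a m t := fun m t ht => exT_eq _ ht
  have hsys : Sys (m0 - 1) c Gm p ν T a' S' W' := by
    refine ⟨hsh.sys0 hT.le hcG hp0 hν0 hνm, fun t ht => ?_, fun t ht => ?_⟩
    · have h1 := hE2 t ht
      unfold tl at h1 ⊢
      rw [hS', exT_eq _ ht]
      simp_rw [ea _ t ht]
      exact h1
    · simp_rw [ea _ t ht]
      exact hlow t ht
  have hr0 := rr_pos m0
  have b0 : al m0 ≤ a' m0 0 := by rw [ea m0 0 h0T]; exact ha00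
  have b1 : a' (m0 + 1) 0 = rr m0 := by rw [ea (m0 + 1) 0 h0T]; exact ha01
  have b2 : ∀ m, m0 + 2 ≤ m → a' m 0 = 0 := fun m hm => by rw [ea m 0 h0T]; exact ha02 m hm
  have hnn : ∀ m, m0 + 1 ≤ m → 0 ≤ a' m 0 := fun m hm => by
    rcases Nat.lt_or_ge m (m0 + 2) with h | h
    · obtain rfl : m = m0 + 1 := by omega
      rw [b1]; exact hr0.le
    · rw [b2 m h]
  -- the tails at the time 0
  have htl2 : ∀ l, m0 + 2 ≤ l → tl a' S' l 0 = 0 := by
    intro l hl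
    have h1 := hsys.tl_hasSum h0T l
    have h2 : (fun k => if l ≤ k then a' k 0 ^ 2 else 0) = fun _ => (0 : ℝ) := by
      funext k
      by_cases hk : l ≤ k
      · rw [if_pos hk, b2 k (by omega)]; norm_num
      · rw [if_neg hk]
    rw [h2] at h1
    exact h1.unique hasSum_zero
  have htl : ∀ l, m0 + 2 ≤ l → tl a' S' l 0 ≤ 0 := fun l hl => (htl2 l hl).le
  have e1 : tl a' S' (m0 + 1) 0 = rr m0 ^ 2 := by
    rw [tl_succ, b1, htl2 (m0 + 1 + 1) (by omega), add_zero]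
  -- the cascade
  have hcas : ∀ m, m0 ≤ m → ∃ t0, St a' S' T m t0 := by
    intro m hm
    induction m, hm using Nat.le_induction with
    | base =>
      refine ⟨0, le_rfl, ?_, ?_, e1, fun t ht => ?_, ?_⟩
      · have : (1 : ℝ) / 2 ^ m0 ≤ 1 := by
          rw [div_le_one (by positivity)]
          exact one_le_pow₀ (by norm_num)
        nlinarith
      · exact b0
      · have : t = 0 := le_antisymm ht.2 ht.1
        rw [this, e1]
      · rw [Ph_zero]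
        unfold Bm om
        have := RR_pos m0
        have := RR_pos (m0 - 1)
        positivity
    | succ m hm ih =>
      obtain ⟨t0, hs⟩ := ih
      exact hs.next hplan hgrow hsys hc hK hT hT1 (by omega) (by omega) (hP m hm) (hnn _ (by omega))
        (hnn _ (by omega))
        (htl _ (by omega))
  -- contradiction
  have hgrowth : ∀ m, m0 ≤ m → (RR m : ℝ) * al m ≤ B := by
    intro m hm
    obtain ⟨t0, hs⟩ := hcas m hm
    have h1 := hs.tT' (hP m hm) hT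
    have htI : t0 ∈ Icc 0 T := ⟨hs.nn, by linarith [h1.1, h1.2, Dm_pos m]⟩
    have h2 := hB t0 htI m
    rw [← ea m t0 htI] at h2
    refine le_trans ?_ h2
    have h3 := RR_pos m
    have h4 := hs.X
    have h5 := le_abs_self (a' m t0)
    gcongr
    exact h4.trans h5
  have hlow : ∀ m, 30 ≤ m → (2 : ℝ) ^ m ≤ (RR m : ℝ) * al m := by
    intro m hm
    have h1 : (RR m : ℝ) = 2 ^ ((m + 2) ^ 3) := by unfold RR; push_cast; rfl
    have h2 : al m = 1 / 2 ^ (29 * m) := by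
      unfold al; rw [div_pow, one_pow, ← pow_mul]
    rw [h1, h2, mul_one_div, le_div_iff₀ (by positivity), ← pow_add]
    refine pow_le_pow_right₀ (by norm_num) ?_
    have h3 : 30 * m ≤ (m + 2) ^ 2 := by nlinarith
    have h4 : (m + 2) ^ 2 ≤ (m + 2) ^ 3 := Nat.pow_le_pow_right (by omega) (by norm_num)
    omega
  obtain ⟨N, hN⟩ := pow_unbounded_of_one_lt B (show (1 : ℝ) < 2 by norm_num)
  have h1 := hgrowth (max (max m0 30) N) ((le_max_left _ _).trans (le_max_left _ _))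
  have h2 := hlow (max (max m0 30) N) ((le_max_right _ _).trans (le_max_left _ _))
  have h3 : (2 : ℝ) ^ N ≤ 2 ^ (max (max m0 30) N) :=
    pow_le_pow_right₀ (by norm_num) (le_max_right _ _)
  linarith

end Pool.Agent.H226.GB
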