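import Pool.Agent.H226.GB.Shift

/-!
Averaging over the translations by the points of the grid with step `1 / p`.
-/

set_option autoImplicit false

open MeasureTheory Set Filter Topology
open scoped ContDiff
open H459R3.NS

namespace Pool.Agent.H226.GB

/-- the grid points -/
noncomputable def memSh (p : ℕ) (n : Fin 3 → Fin p) : V := fun j => ((n j : ℕ) : ℝ) * (1 / (p : ℝ))

/-- the average over the translations by the grid points -/
noncomputable def memAv (p : ℕ) (w : V → V) (x : V) : V :=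
  ((p : ℝ) ^ 3)⁻¹ • ∑ n : Fin 3 → Fin p, w (x + memSh p n)

theorem mem_nat {F : Type*} {f : V → F} {c : ℝ}
    (h : ∀ (j : Fin 3) (x : V), f (x + Pi.single j c) = f x) (n : Fin 3 → ℕ) (x : V) :
    f (x + fun j => (n j : ℝ) * c) = f x := by
  have e : x + (fun j => (n j : ℝ) * c) = ((x + Pi.single 0 ((n 0 : ℝ) * c)) +
      Pi.single 1 ((n 1 : ℝ) * c)) + Pi.single 2 ((n 2 : ℝ) * c) := by
    funext j
    fin_cases j <;> simp
  rw [e, shift_nat (h 2), shift_nat (h 1), shift_nat (h 0)]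

theorem mem_card (p : ℕ) : (Fintype.card (Fin 3 → Fin p) : ℝ) = (p : ℝ) ^ 3 := by
  simp

theorem mem_phi {φ : ℕ → V → V} (hφ : ∀ m i, SP (fun x => φ m x i)) {p : ℕ} (hp : 1 ≤ p)
    (n : Fin 3 → Fin p) (m : ℕ) (x : V) :
    φ m ((p : ℝ) • (x + memSh p n)) = φ m ((p : ℝ) • x) := by
  have hp0 : (p : ℝ) ≠ 0 := by positivity
  have e : (p : ℝ) • (x + memSh p n) = (p : ℝ) • x + fun j => (((n j : ℕ)) : ℝ) * 1 := by
    rw [smul_add]
    refine congrArg _ ?_
    funext j
    show (p : ℝ) * (((n j : ℕ) : ℝ) * (1 / (p : ℝ))) = ((n j : ℕ) : ℝ) * 1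
    field_simp
  rw [e]
  exact mem_nat (f := φ m) (c := 1)
    (fun j x => funext fun i => (hφ m i).per j x) (fun j => (n j : ℕ)) _

/-! ### The modes -/

theorem mem_geom {p : ℕ} (hp : 1 ≤ p) {k : ℤ} (hk : ¬((p : ℤ) ∣ k)) :
    ∑ m : Fin p, Complex.exp (2 * Real.pi * Complex.I * ((k : ℂ) * (((m : ℕ) : ℂ) * (1 / (p : ℂ)))))
      = 0 := by
  have hp0 : (p : ℂ) ≠ 0 := by exact_mod_cast (by omega : p ≠ 0)
  set ζ : ℂ := Complex.exp (2 * Real.pi * Complex.I * ((k : ℂ) / (p : ℂ))) with hζ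
  have e : ∀ m : Fin p, Complex.exp (2 * Real.pi * Complex.I *
      ((k : ℂ) * (((m : ℕ) : ℂ) * (1 / (p : ℂ))))) = ζ ^ (m : ℕ) := by
    intro m
    rw [hζ, ← Complex.exp_nat_mul]
    refine congrArg _ ?_
    field_simp
  rw [Finset.sum_congr rfl fun m _ => e m, Fin.sum_univ_eq_sum_range (fun m => ζ ^ m) p]
  have h1 : ζ ≠ 1 := by
    intro h
    rw [hζ, Complex.exp_eq_one_iff] at h
    obtain ⟨n, hn⟩ := h
    apply hk
    refine ⟨n, ?_⟩
    have hpi : (2 * Real.pi * Complex.I : ℂ) ≠ 0 := Complex.two_pi_I_ne_zero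
    have h2 : (k : ℂ) / p = n := by
      apply mul_left_cancel₀ hpi
      rw [hn]; ring
    rw [div_eq_iff hp0] at h2
    have h3 : (k : ℂ) = ((p * n : ℤ) : ℂ) := by
      rw [h2]; push_cast; ring
    exact_mod_cast h3
  have h2 : ζ ^ p = 1 := by
    rw [hζ, ← Complex.exp_nat_mul, Complex.exp_eq_one_iff]
    refine ⟨k, ?_⟩
    field_simp
  rw [geom_sum_eq h1, h2, sub_self, zero_div]

theorem mem_mode {p : ℕ} (hp : 1 ≤ p) {k : Fin 3 → ℤ} (hk : ∃ j, ¬((p : ℤ) ∣ k j)) (x : V) :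
    ∑ n : Fin 3 → Fin p, Complex.exp
      (((2 * Real.pi * ∑ j, (k j : ℝ) * (x + memSh p n) j : ℝ) : ℂ) * Complex.I) = 0 := by
  obtain ⟨j₀, hj₀⟩ := hk
  have e : ∀ n : Fin 3 → Fin p, Complex.exp
      (((2 * Real.pi * ∑ j, (k j : ℝ) * (x + memSh p n) j : ℝ) : ℂ) * Complex.I) =
      Complex.exp (((2 * Real.pi * ∑ j, (k j : ℝ) * x j : ℝ) : ℂ) * Complex.I) *
        ∏ j, Complex.exp (2 * Real.pi * Complex.I *
          ((k j : ℂ) * (((n j : ℕ) : ℂ) * (1 / (p : ℂ))))) := by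
    intro n
    rw [← Complex.exp_sum, ← Complex.exp_add]
    refine congrArg _ ?_
    rw [shift_ph_add, ← Finset.mul_sum]
    have e1 : ((∑ j, (k j : ℝ) * memSh p n j : ℝ) : ℂ) =
        ∑ j, ((k j : ℂ) * (((n j : ℕ) : ℂ) * (1 / (p : ℂ)))) := by
      unfold memSh
      push_cast
      rfl
    rw [mul_add, Complex.ofReal_add, Complex.ofReal_mul (2 * Real.pi) (∑ j, (k j : ℝ) * memSh p n j),
      e1]
    push_cast
    ring
  rw [Finset.sum_congr rfl fun n _ => e n, ← Finset.mul_sum]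
  have e2 : ∑ n : Fin 3 → Fin p, ∏ j, Complex.exp (2 * Real.pi * Complex.I *
          ((k j : ℂ) * (((n j : ℕ) : ℂ) * (1 / (p : ℂ))))) =
      ∏ j, ∑ m : Fin p, Complex.exp (2 * Real.pi * Complex.I *
          ((k j : ℂ) * (((m : ℕ) : ℂ) * (1 / (p : ℂ))))) := by
    rw [Finset.prod_univ_sum, Fintype.piFinset_univ]
  rw [e2, Finset.prod_eq_zero (Finset.mem_univ j₀) (mem_geom hp hj₀), mul_zero]

theorem mem_cos {p : ℕ} (hp : 1 ≤ p) {k : Fin 3 → ℤ} (hk : ∃ j, ¬((p : ℤ) ∣ k j)) (x : V) :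
    ∑ n : Fin 3 → Fin p, Real.cos (2 * Real.pi * ∑ j, (k j : ℝ) * (x + memSh p n) j) = 0 := by
  have h := congrArg Complex.re (mem_mode hp hk x)
  rw [Complex.re_sum, Complex.zero_re] at h
  rw [← h]
  refine Finset.sum_congr rfl fun n _ => ?_
  rw [Complex.exp_ofReal_mul_I_re]

theorem mem_sin {p : ℕ} (hp : 1 ≤ p) {k : Fin 3 → ℤ} (hk : ∃ j, ¬((p : ℤ) ∣ k j)) (x : V) :
    ∑ n : Fin 3 → Fin p, Real.sin (2 * Real.pi * ∑ j, (k j : ℝ) * (x + memSh p n) j) = 0 := by
  have h := congrArg Complex.im (mem_mode hp hk x)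
  rw [Complex.im_sum, Complex.zero_im] at h
  rw [← h]
  refine Finset.sum_congr rfl fun n _ => ?_
  rw [Complex.exp_ofReal_mul_I_im]

/-! ### The average of the elements of the span -/

theorem mem_av_md {p : ℕ} (hp : 1 ≤ p) {w : V → V} (hw : w ∈ md p) : memAv p w = 0 := by
  obtain ⟨k, a, hk, -, h | h⟩ := hw
  · funext x
    unfold memAv
    rw [Finset.sum_congr rfl fun n _ => h (x + memSh p n), ← Finset.sum_smul, mem_cos hp hk,
      zero_smul, smul_zero]
    rfl
  · funext x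
    unfold memAv
    rw [Finset.sum_congr rfl fun n _ => h (x + memSh p n), ← Finset.sum_smul, mem_sin hp hk,
      zero_smul, smul_zero]
    rfl

theorem mem_av_const {p : ℕ} (hp : 1 ≤ p) {w : V → V}
    (h : ∀ (n : Fin 3 → Fin p) (x : V), w (x + memSh p n) = w x) : memAv p w = w := by
  have hp0 : (p : ℝ) ^ 3 ≠ 0 := by positivity
  funext x
  unfold memAv
  rw [Finset.sum_congr rfl fun n _ => h n x, Finset.sum_const, Finset.card_univ,
    ← Nat.cast_smul_eq_nsmul ℝ, mem_card, smul_smul, inv_mul_cancel₀ hp0, one_smul]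

theorem mem_av_span {φ : ℕ → V → V} (hφ : ∀ m i, SP (fun x => φ m x i)) {p : ℕ} (hp : 1 ≤ p)
    {w : V → V} (hw : w ∈ Submodule.span ℝ (Fp φ p)) :
    memAv p w ∈ Submodule.span ℝ (Set.range fun (m : ℕ) (x : V) => φ m ((p : ℝ) • x)) := by
  induction hw using Submodule.span_induction with
  | mem w h =>
    rcases h with ⟨m, h⟩ | h
    · have e : memAv p w = w := by
        refine mem_av_const hp fun n x => ?_
        rw [h, h, mem_phi hφ hp]
      rw [e]
      exact Submodule.subset_span ⟨m, funext fun x => (h x).symm⟩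
    · rw [mem_av_md hp h]
      exact Submodule.zero_mem _
  | zero =>
    have e : memAv p (0 : V → V) = 0 := by
      funext x
      unfold memAv
      simp
    rw [e]
    exact Submodule.zero_mem _
  | add v w _ _ hv hw =>
    have e : memAv p (v + w) = memAv p v + memAv p w := by
      funext x
      unfold memAv
      simp only [Pi.add_apply]
      rw [Finset.sum_add_distrib, smul_add]
    rw [e]
    exact Submodule.add_mem _ hv hw
  | smul c w _ hw =>
    have e : memAv p (c • w) = c • memAv p w := by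
      funext x
      unfold memAv
      simp only [Pi.smul_apply]
      rw [← Finset.smul_sum, smul_comm]
    rw [e]
    exact Submodule.smul_mem _ c hw

/-! ### The distance -/

theorem mem_trans {f : V → ℝ} (hf : SP f) (y : V) : SP (fun x => f (x + y)) where
  smooth := hf.smooth.comp (contDiff_id.add contDiff_const)
  per := by
    intro j x
    show f (x + Pi.single j 1 + y) = f (x + y)
    rw [add_right_comm]
    exact hf.per j (x + y)

theorem mem_av_apply (p : ℕ) (w : V → V) (x : V) (i : Fin 3) :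
    memAv p w x i = ((p : ℝ) ^ 3)⁻¹ * ∑ n : Fin 3 → Fin p, w (x + memSh p n) i := by
  unfold memAv
  rw [Pi.smul_apply, smul_eq_mul, Finset.sum_apply]

theorem mem_le (hI : S_int) {p : ℕ} (hp : 1 ≤ p) {v w : V → V}
    (hv : ∀ i, SP (fun x => v x i)) (hw : ∀ i, SP (fun x => w x i))
    (h : ∀ (n : Fin 3 → Fin p) (x : V), v (x + memSh p n) = v x) (i : Fin 3) :
    ∫ x in cube, (v x i - memAv p w x i) ^ 2 ≤ ∫ x in cube, (v x i - w x i) ^ 2 := by
  have hp0 : (0 : ℝ) < (p : ℝ) ^ 3 := by positivity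
  set g : V → ℝ := fun x => v x i - w x i with hgdef
  have hg : SP g := uni_sub (hv i) (hw i)
  have hgt : ∀ y : V, SP (fun x => g (x + y)) := fun y => mem_trans hg y
  have e : ∀ x, v x i - memAv p w x i =
      ((p : ℝ) ^ 3)⁻¹ * ∑ n : Fin 3 → Fin p, g (x + memSh p n) := by
    intro x
    have e1 : v x i = memAv p v x i := by rw [mem_av_const hp h]
    rw [e1, mem_av_apply, mem_av_apply, ← mul_sub, ← Finset.sum_sub_distrib]
  have hle : ∀ x, (v x i - memAv p w x i) ^ 2 ≤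
      ((p : ℝ) ^ 3)⁻¹ * ∑ n : Fin 3 → Fin p, g (x + memSh p n) ^ 2 := by
    intro x
    rw [e x, mul_pow]
    have h1 := sq_sum_le_card_mul_sum_sq (s := (Finset.univ : Finset (Fin 3 → Fin p)))
      (f := fun n => g (x + memSh p n))
    rw [Finset.card_univ, mem_card] at h1
    have h2 := mul_le_mul_of_nonneg_left h1 (by positivity : (0 : ℝ) ≤ (((p : ℝ) ^ 3)⁻¹) ^ 2)
    refine h2.trans (le_of_eq ?_)
    field_simp
  have hsp : SP (fun x => v x i - memAv p w x i) := by
    have e2 : (fun x => v x i - memAv p w x i) = fun x =>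
        ((p : ℝ) ^ 3)⁻¹ * ∑ n : Fin 3 → Fin p, g (x + memSh p n) := funext e
    rw [e2]
    exact uni_smul _ (SP.sum fun n _ => hgt _)
  have hs2 : SP (fun x => ∑ n : Fin 3 → Fin p, g (x + memSh p n) ^ 2) := by
    simp only [pow_two]
    exact SP.sum fun n _ => (hgt _).mul (hgt _)
  have h3 : ∫ x in cube, (v x i - memAv p w x i) ^ 2 ≤
      ∫ x in cube, ((p : ℝ) ^ 3)⁻¹ * ∑ n : Fin 3 → Fin p, g (x + memSh p n) ^ 2 := by
    refine integral_mono ?_ ?_ hle
    · exact uni_sq hsp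
    · exact (uni_smul _ hs2).int
  refine h3.trans (le_of_eq ?_)
  have h4 : ∀ n : Fin 3 → Fin p, ∫ x in cube, g (x + memSh p n) ^ 2 = ∫ x in cube, g x ^ 2 := by
    intro n
    have h5 := hI.2 _ (hg.mul hg) (memSh p n)
    simp only [← pow_two] at h5
    exact h5
  rw [integral_const_mul, integral_finsetSum _ fun n _ => uni_sq (hgt _),
    Finset.sum_congr rfl fun n _ => h4 n, Finset.sum_const, Finset.card_univ, nsmul_eq_mul,
    mem_card, ← mul_assoc, inv_mul_cancel₀ hp0.ne', one_mul]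

theorem s_memdown (hI : S_int) : S_memdown := by
  intro φ p hφ hp v hv hper hspan ε hε
  have hp0 : (0 : ℝ) < (p : ℝ) := by positivity
  obtain ⟨w, hw, h⟩ := hspan (ε / (p : ℝ) ^ 2) (by positivity)
  have hwsp : ∀ i, SP (fun x => w x i) :=
    shift_sp_span (fun w hw i => shift_sp_Fp hφ hw i) hw
  have hA := mem_av_span hφ hp hw
  obtain ⟨b, hb⟩ := Finsupp.mem_span_range_iff_exists_finsupp.1 hA
  have hvn : ∀ (n : Fin 3 → Fin p) (x : V), v (x + memSh p n) = v x := fun n x =>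
    mem_nat hper (fun j => (n j : ℕ)) x
  have hbL : ∀ x i, memAv p w x i =
      ∑ m ∈ Finset.range (b.support.sup id + 1), b m * φ m ((p : ℝ) • x) i := by
    intro x i
    rw [← hb, Finsupp.sum, Finset.sum_apply, Finset.sum_apply]
    refine Finset.sum_subset ?_ ?_
    · intro m hm
      rw [Finset.mem_range]
      exact Nat.lt_succ_of_le (Finset.le_sup (f := id) hm)
    · intro m _ hm
      rw [Finsupp.notMem_support_iff] at hm
      show b m * φ m ((p : ℝ) • x) i = 0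
      rw [hm, zero_mul]
  refine ⟨b.support.sup id + 1, fun m => p * b m, ?_⟩
  have hvs : ∀ i, SP (fun x => v ((p : ℝ)⁻¹ • x) i) := by
    intro i
    refine ⟨(hv i).smooth.comp (contDiff_const_smul _), ?_⟩
    intro j x
    show v ((p : ℝ)⁻¹ • (x + Pi.single j 1)) i = v ((p : ℝ)⁻¹ • x) i
    rw [smul_add, shift_smul_single, mul_one, inv_eq_one_div, hper]
  have key : ∀ i, ∫ x in cube, (p * v ((p : ℝ)⁻¹ • x) i -
      ∑ m ∈ Finset.range (b.support.sup id + 1), (p * b m) * φ m x i) ^ 2 =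
      (p : ℝ) ^ 2 * ∫ x in cube, (v x i - memAv p w x i) ^ 2 := by
    intro i
    have hg : SP (fun x => p * v ((p : ℝ)⁻¹ • x) i -
        ∑ m ∈ Finset.range (b.support.sup id + 1), (p * b m) * φ m x i) :=
      uni_sub (uni_smul _ (hvs i)) (SP.sum fun m _ => uni_smul _ (hφ m i))
    have h1 := hI.1 _ (hg.mul hg) p hp
    simp only [← pow_two] at h1
    rw [← h1, ← integral_const_mul]
    refine integral_congr_ae (Eventually.of_forall fun x => ?_)
    show (p * v ((p : ℝ)⁻¹ • (p : ℝ) • x) i -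
      ∑ m ∈ Finset.range (b.support.sup id + 1), (p * b m) * φ m ((p : ℝ) • x) i) ^ 2 =
      (p : ℝ) ^ 2 * (v x i - memAv p w x i) ^ 2
    rw [smul_smul, inv_mul_cancel₀ hp0.ne', one_smul, hbL, ← mul_pow, mul_sub, Finset.mul_sum]
    refine congrArg (fun z : ℝ => (p * v x i - z) ^ 2) (Finset.sum_congr rfl fun m _ => ?_)
    ring
  rw [Finset.sum_congr rfl fun i _ => key i, ← Finset.mul_sum]
  have h2 : ∑ i, ∫ x in cube, (v x i - memAv p w x i) ^ 2 ≤
      ∑ i, ∫ x in cube, (v x i - w x i) ^ 2 :=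
    Finset.sum_le_sum fun i _ => mem_le hI hp hv hwsp hvn i
  have h3 := lt_of_le_of_lt h2 h
  rw [lt_div_iff₀ (by positivity)] at h3
  linarith

end Pool.Agent.H226.GB
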