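import Pool.Agent.H226.GB.Spec7
import Pool.Agent.H226.GB.MemDown
import Pool.Agent.H226.GB.Up

/-!
The part of a divergence-free field with frequencies in `(pℤ)³`.
-/

set_option autoImplicit false

open MeasureTheory Set Filter Topology
open scoped ContDiff ENNReal
open H459R3.NS

namespace Pool.Agent.H226.GB

/-! ### Fourier coefficients -/

theorem avg_ee (k : K3) (x : V) : ee k x = ((Real.cos (2 * Real.pi * ph k x) : ℝ) : ℂ) +
    ((Real.sin (2 * Real.pi * ph k x) : ℝ) : ℂ) * Complex.I := by
  have e : ee k x = Complex.exp (((2 * Real.pi * ph k x : ℝ) : ℂ) * Complex.I) := by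
    rw [ee]
    refine congrArg _ ?_
    push_cast
    ring
  rw [e, Complex.exp_mul_I, ← Complex.ofReal_cos, ← Complex.ofReal_sin]

/-- the Fourier coefficients in terms of cosines and sines -/
theorem avg_fr {f : V → ℝ} (hf : SP f) (k : K3) :
    fr f k = ((∫ x in cube, f x * Real.cos (2 * Real.pi * ph k x) : ℝ) : ℂ) -
      ((∫ x in cube, f x * Real.sin (2 * Real.pi * ph k x) : ℝ) : ℂ) * Complex.I := by
  have e : ∀ x, ee (-k) x * (f x : ℂ) = ((f x * Real.cos (2 * Real.pi * ph k x) : ℝ) : ℂ) -
      ((f x * Real.sin (2 * Real.pi * ph k x) : ℝ) : ℂ) * Complex.I := by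
    intro x
    rw [avg_ee, ph_neg, mul_neg, Real.cos_neg, Real.sin_neg]
    push_cast
    ring
  have i1 : Integrable (fun x => ((f x * Real.cos (2 * Real.pi * ph k x) : ℝ) : ℂ))
      (volume.restrict cube) := ((hf.mul (up_cos k)).int).ofReal
  have i2 : Integrable (fun x => ((f x * Real.sin (2 * Real.pi * ph k x) : ℝ) : ℂ) * Complex.I)
      (volume.restrict cube) := (((hf.mul (up_sin k)).int).ofReal).mul_const _
  unfold fr fc
  rw [integral_congr_ae (Eventually.of_forall e), integral_sub i1 i2, integral_mul_const,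
    integral_complex_ofReal, integral_complex_ofReal]

theorem avg_norm {f : V → ℝ} (hf : SP f) (k : K3) :
    ‖fr f k‖ ^ 2 = (∫ x in cube, f x * Real.cos (2 * Real.pi * ph k x)) ^ 2 +
      (∫ x in cube, f x * Real.sin (2 * Real.pi * ph k x)) ^ 2 := by
  rw [avg_fr hf, ← Complex.normSq_eq_norm_sq, Complex.normSq_apply]
  simp only [Complex.sub_re, Complex.ofReal_re, Complex.mul_re, Complex.I_re, mul_zero,
    Complex.ofReal_im, Complex.I_im, mul_one, sub_zero, Complex.sub_im, Complex.mul_im,
    zero_sub, zero_mul, add_zero, zero_add]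
  ring

theorem avg_fq {v : V → V} (hv : ∀ i, SP (fun x => v x i)) (k : K3) :
    fq v k = ∑ i, ‖fr (fun x => v x i) k‖ ^ 2 := by
  unfold fq
  refine Finset.sum_congr rfl fun i _ => ?_
  rw [avg_norm (hv i) k]
  rfl

/-- translations -/
theorem avg_tr (hI : S_int) {f : V → ℝ} (hf : SP f) (y : V) (k : K3) :
    fr (fun x => f (x + y)) k = ee k y * fr f k := by
  have h1 := hI.2 _ (hf.mul (up_cos k)) y
  have h2 := hI.2 _ (hf.mul (up_sin k)) y
  have hft := mem_trans hf y
  have i1 : Integrable (fun x => f (x + y) * Real.cos (2 * Real.pi * ph k (x + y)))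
      (volume.restrict cube) := (mem_trans (hf.mul (up_cos k)) y).int
  have i2 : Integrable (fun x => f (x + y) * Real.sin (2 * Real.pi * ph k (x + y)))
      (volume.restrict cube) := (mem_trans (hf.mul (up_sin k)) y).int
  have e0 : ∀ x, 2 * Real.pi * ph k x = 2 * Real.pi * ph k (x + y) - 2 * Real.pi * ph k y := by
    intro x
    rw [ph_add]
    ring
  have e1 : ∫ x in cube, f (x + y) * Real.cos (2 * Real.pi * ph k x) =
      (∫ x in cube, f x * Real.cos (2 * Real.pi * ph k x)) * Real.cos (2 * Real.pi * ph k y) +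
      (∫ x in cube, f x * Real.sin (2 * Real.pi * ph k x)) * Real.sin (2 * Real.pi * ph k y) := by
    rw [← h1, ← h2, ← integral_mul_const, ← integral_mul_const,
      ← integral_add (i1.mul_const _) (i2.mul_const _)]
    refine integral_congr_ae (Eventually.of_forall fun x => ?_)
    show f (x + y) * Real.cos (2 * Real.pi * ph k x) = _
    rw [e0 x, Real.cos_sub]
    ring
  have e2 : ∫ x in cube, f (x + y) * Real.sin (2 * Real.pi * ph k x) =
      (∫ x in cube, f x * Real.sin (2 * Real.pi * ph k x)) * Real.cos (2 * Real.pi * ph k y) -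
      (∫ x in cube, f x * Real.cos (2 * Real.pi * ph k x)) * Real.sin (2 * Real.pi * ph k y) := by
    rw [← h1, ← h2, ← integral_mul_const, ← integral_mul_const,
      ← integral_sub (i2.mul_const _) (i1.mul_const _)]
    refine integral_congr_ae (Eventually.of_forall fun x => ?_)
    show f (x + y) * Real.sin (2 * Real.pi * ph k x) = _
    rw [e0 x, Real.sin_sub]
    ring
  rw [avg_fr hft, avg_fr hf, avg_ee, e1, e2]
  push_cast
  have hII : Complex.I * Complex.I = -1 := Complex.I_mul_I
  linear_combination (((∫ x in cube, f x * Real.sin (2 * Real.pi * ph k x) : ℝ) : ℂ) *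
    Complex.sin (2 * Real.pi * ph k y)) * hII

theorem avg_lin {ι : Type*} [Fintype ι] {g : ι → V → ℝ} (hg : ∀ n, SP (g n)) (c : ℝ) (k : K3) :
    fr (fun x => c * ∑ n, g n x) k = c * ∑ n, fr (g n) k := by
  unfold fr fc
  have e : ∀ x, ee (-k) x * ((c * ∑ n, g n x : ℝ) : ℂ) =
      (c : ℂ) * ∑ n, ee (-k) x * ((g n x : ℝ) : ℂ) := by
    intro x
    rw [← Finset.mul_sum]
    push_cast
    ring
  rw [integral_congr_ae (Eventually.of_forall e), integral_const_mul, integral_finsetSum]
  intro n _
  exact integrableOn_cube ((ee_continuous _).mul (Complex.continuous_ofReal.comp (hg n).cont))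

theorem avg_frsub {f g : V → ℝ} (hf : SP f) (hg : SP g) (k : K3) :
    fr (fun x => f x - g x) k = fr f k - fr g k := by
  unfold fr fc
  have e : ∀ x, ee (-k) x * ((f x - g x : ℝ) : ℂ) =
      ee (-k) x * (f x : ℂ) - ee (-k) x * (g x : ℂ) := by
    intro x
    push_cast
    ring
  rw [integral_congr_ae (Eventually.of_forall e), integral_sub]
  · exact integrableOn_cube ((ee_continuous _).mul (Complex.continuous_ofReal.comp hf.cont))
  · exact integrableOn_cube ((ee_continuous _).mul (Complex.continuous_ofReal.comp hg.cont))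

/-! ### The average -/

/-- the frequencies which are not divisible by `p` -/
def avgB (p : ℕ) : Set K3 := {k | ∃ j, ¬((p : ℤ) ∣ k j)}

theorem avg_one {p : ℕ} (hp : 1 ≤ p) {k : K3} (hk : k ∉ avgB p) (n : Fin 3 → Fin p) :
    ee k (memSh p n) = 1 := by
  have hp0 : (p : ℝ) ≠ 0 := by positivity
  have h : ∀ j, ∃ m : ℤ, k j = p * m := by
    intro j
    by_contra hcon
    exact hk ⟨j, fun ⟨m, hm⟩ => hcon ⟨m, hm⟩⟩
  choose m hm using h
  have e : ph k (memSh p n) = ((∑ j, m j * ((n j : ℕ) : ℤ) : ℤ) : ℝ) := by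
    unfold ph memSh
    push_cast
    refine Finset.sum_congr rfl fun j _ => ?_
    rw [hm j]
    push_cast
    field_simp
  rw [ee, e, Complex.exp_eq_one_iff]
  refine ⟨∑ j, m j * ((n j : ℕ) : ℤ), ?_⟩
  push_cast
  ring

theorem avg_zero {p : ℕ} (hp : 1 ≤ p) {k : K3} (hk : k ∈ avgB p) :
    ∑ n : Fin 3 → Fin p, ee k (memSh p n) = 0 := by
  have h := mem_mode hp hk 0
  rw [← h]
  refine Finset.sum_congr rfl fun n _ => ?_
  rw [zero_add, ee]
  refine congrArg _ ?_
  unfold ph
  push_cast
  ring

theorem avg_sp {p : ℕ} {f : V → V} (hf : ∀ i, SP (fun x => f x i)) (i : Fin 3) :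
    SP (fun x => memAv p f x i) := by
  have e : (fun x => memAv p f x i) = fun x =>
      ((p : ℝ) ^ 3)⁻¹ * ∑ n : Fin 3 → Fin p, f (x + memSh p n) i := by
    funext x
    exact mem_av_apply p f x i
  rw [e]
  exact uni_smul _ (SP.sum fun n _ => mem_trans (hf i) _)

open Classical in
theorem avg_frh (hI : S_int) {p : ℕ} (hp : 1 ≤ p) {f : V → V} (hf : ∀ i, SP (fun x => f x i))
    (i : Fin 3) (k : K3) : fr (fun x => memAv p f x i) k =
      if k ∈ avgB p then 0 else fr (fun x => f x i) k := by
  have e : (fun x => memAv p f x i) = fun x =>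
      ((p : ℝ) ^ 3)⁻¹ * ∑ n : Fin 3 → Fin p, f (x + memSh p n) i := by
    funext x
    exact mem_av_apply p f x i
  have hp0 : (p : ℂ) ^ 3 ≠ 0 := pow_ne_zero _ (by exact_mod_cast (by omega : p ≠ 0))
  have e1 : ∀ n : Fin 3 → Fin p, fr (fun x => f (x + memSh p n) i) k =
      ee k (memSh p n) * fr (fun x => f x i) k := fun n =>
    avg_tr hI (hf i) (memSh p n) k
  rw [e, avg_lin (g := fun (n : Fin 3 → Fin p) x => f (x + memSh p n) i)
    (fun n => mem_trans (hf i) _), Finset.sum_congr rfl fun n _ => e1 n, ← Finset.sum_mul]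
  split_ifs with hk
  · rw [avg_zero hp hk, zero_mul, mul_zero]
  · rw [Finset.sum_congr rfl fun n _ => avg_one hp hk n, Finset.sum_const, Finset.card_univ,
      nsmul_eq_mul, mul_one, ← mul_assoc]
    have h3 : ((Fintype.card (Fin 3 → Fin p) : ℕ) : ℂ) = (p : ℂ) ^ 3 := by
      exact_mod_cast mem_card p
    rw [h3]
    push_cast
    rw [inv_mul_cancel₀ hp0, one_mul]

open Classical in
theorem avg_frd (hI : S_int) {p : ℕ} (hp : 1 ≤ p) {f : V → V} (hf : ∀ i, SP (fun x => f x i))
    (i : Fin 3) (k : K3) : fr (fun x => f x i - memAv p f x i) k =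
      if k ∈ avgB p then fr (fun x => f x i) k else 0 := by
  rw [avg_frsub (hf i) (avg_sp hf i), avg_frh hI hp hf]
  split_ifs
  · rw [sub_zero]
  · rw [sub_self]

theorem avg_div {p : ℕ} {f : V → V} (hf : ∀ i, SP (fun x => f x i))
    (hd : ∀ x, ∑ i, pd i (fun y => f y i) x = 0) (x : V) :
    ∑ i, pd i (fun y => memAv p f y i) x = 0 := by
  have e : ∀ i : Fin 3, pd i (fun y => memAv p f y i) x =
      ((p : ℝ) ^ 3)⁻¹ * ∑ n : Fin 3 → Fin p, pd i (fun y => f y i) (x + memSh p n) := by
    intro i
    have e0 : (fun x => memAv p f x i) = fun x =>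
        ((p : ℝ) ^ 3)⁻¹ * ∑ n : Fin 3 → Fin p, f (x + memSh p n) i := by
      funext x
      exact mem_av_apply p f x i
    rw [e0, up_pdc (SP.sum fun n _ => mem_trans (hf i) _),
      pd_sum (f := fun (n : Fin 3 → Fin p) x => f (x + memSh p n) i)
        (fun n _ => mem_trans (hf i) _)]
    refine congrArg _ (Finset.sum_congr rfl fun n _ => ?_)
    exact shift_pd (fun z => f z i) i (memSh p n) x
  rw [Finset.sum_congr rfl fun i _ => e i, ← Finset.mul_sum, Finset.sum_comm,
    Finset.sum_eq_zero fun n _ => hd _, mul_zero]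

theorem avg_rot {q : ℕ} (j : Fin 3) (n : Fin 3 → Fin (q + 1)) {f : V → V} (hf : Per f) (x : V) :
    f (x + Pi.single j (1 / ((q + 1 : ℕ) : ℝ)) + memSh (q + 1) n) = f (x + memSh (q + 1)
      (Equiv.piCongrRight (fun l => if l = j then finRotate (q + 1) else Equiv.refl _) n)) := by
  have hp0 : ((q + 1 : ℕ) : ℝ) ≠ 0 := by positivity
  have hne : ∀ l, l ≠ j → (Equiv.piCongrRight
      (fun l => if l = j then finRotate (q + 1) else Equiv.refl _) n) l = n l := by
    intro l hl
    show (if l = j then finRotate (q + 1) else Equiv.refl _) (n l) = n l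
    rw [if_neg hl]
    rfl
  have heq : (Equiv.piCongrRight
      (fun l => if l = j then finRotate (q + 1) else Equiv.refl _) n) j =
        finRotate (q + 1) (n j) := by
    show (if j = j then finRotate (q + 1) else Equiv.refl _) (n j) = _
    rw [if_pos rfl]
  by_cases h : n j = Fin.last q
  · have e : x + Pi.single j (1 / ((q + 1 : ℕ) : ℝ)) + memSh (q + 1) n =
        (x + memSh (q + 1) (Equiv.piCongrRight
          (fun l => if l = j then finRotate (q + 1) else Equiv.refl _) n)) + Pi.single j 1 := by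
      rw [add_assoc, add_assoc]
      refine congrArg _ ?_
      funext l
      rw [Pi.add_apply, Pi.add_apply]
      unfold memSh
      by_cases hl : l = j
      · subst hl
        rw [heq, h, Pi.single_eq_same, Pi.single_eq_same, coe_finRotate, if_pos rfl,
          Fin.val_last]
        push_cast
        push_cast at hp0
        field_simp
        ring
      · rw [hne l hl, Pi.single_eq_of_ne hl, Pi.single_eq_of_ne hl, zero_add, add_zero]
    rw [e, hf]
  · have e : x + Pi.single j (1 / ((q + 1 : ℕ) : ℝ)) + memSh (q + 1) n =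
        x + memSh (q + 1) (Equiv.piCongrRight
          (fun l => if l = j then finRotate (q + 1) else Equiv.refl _) n) := by
      rw [add_assoc]
      refine congrArg _ ?_
      funext l
      rw [Pi.add_apply]
      unfold memSh
      by_cases hl : l = j
      · subst hl
        rw [heq, Pi.single_eq_same, coe_finRotate, if_neg h]
        push_cast
        ring
      · rw [hne l hl, Pi.single_eq_of_ne hl, zero_add]
    rw [e]

theorem avg_per {p : ℕ} (hp : 1 ≤ p) {f : V → V} (hf : Per f) (j : Fin 3) (x : V) :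
    memAv p f (x + Pi.single j (1 / (p : ℝ))) = memAv p f x := by
  obtain ⟨q, rfl⟩ : ∃ q, p = q + 1 := ⟨p - 1, by omega⟩
  unfold memAv
  rw [Finset.sum_congr rfl fun n _ => avg_rot j n hf x]
  exact congrArg _ ((Equiv.piCongrRight (fun l : Fin 3 =>
    if l = j then finRotate (q + 1) else Equiv.refl (Fin (q + 1)))).sum_comp
      (fun n => f (x + memSh (q + 1) n)))

theorem avg_ip (hI : S_int) {p : ℕ} (hp : 1 ≤ p) {f w : V → V} (hf : ∀ i, SP (fun x => f x i))
    (hw : ∀ i, SP (fun x => w x i))
    (hwp : ∀ (j : Fin 3) (x : V), w (x + Pi.single j (1 / (p : ℝ))) = w x) (i : Fin 3) :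
    ∫ x in cube, memAv p f x i * w x i = ∫ x in cube, f x i * w x i := by
  have hp0 : (0 : ℝ) < (p : ℝ) ^ 3 := by positivity
  have hwn : ∀ (n : Fin 3 → Fin p) (x : V), w (x + memSh p n) = w x := fun n x =>
    mem_nat hwp (fun j => (n j : ℕ)) x
  have e : ∀ x, memAv p f x i * w x i = ((p : ℝ) ^ 3)⁻¹ *
      ∑ n : Fin 3 → Fin p, f (x + memSh p n) i * w (x + memSh p n) i := by
    intro x
    rw [mem_av_apply, mul_assoc, Finset.sum_mul]
    refine congrArg _ (Finset.sum_congr rfl fun n _ => ?_)
    rw [hwn]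
  have h1 : ∀ n : Fin 3 → Fin p, ∫ x in cube, f (x + memSh p n) i * w (x + memSh p n) i =
      ∫ x in cube, f x i * w x i := fun n => hI.2 _ ((hf i).mul (hw i)) (memSh p n)
  rw [integral_congr_ae (Eventually.of_forall e), integral_const_mul,
    integral_finsetSum _ fun n _ => (mem_trans ((hf i).mul (hw i)) (memSh p n)).int,
    Finset.sum_congr rfl fun n _ => h1 n, Finset.sum_const, Finset.card_univ, nsmul_eq_mul,
    mem_card, ← mul_assoc, inv_mul_cancel₀ hp0.ne', one_mul]

/-! ### The span -/

theorem avg_kdiv {f : V → V} (hf : ∀ i, SP (fun x => f x i))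
    (hd : ∀ x, ∑ i, pd i (fun y => f y i) x = 0) (k : K3) :
    ∑ i, (k i : ℂ) * fr (fun x => f x i) k = 0 := by
  have h1 := avg_lin (g := fun (i : Fin 3) => pd i (fun y => f y i)) (fun i => (hf i).pd i) 1 k
  have h2 : (fun x => (1 : ℝ) * ∑ i, pd i (fun y => f y i) x) = fun _ => (0 : ℝ) := by
    funext x
    rw [hd, mul_zero]
  have h3 : fr (fun _ => (0 : ℝ)) k = 0 := by
    unfold fr fc
    simp
  have h4 : ∀ i : Fin 3, fr (pd i (fun y => f y i)) k =
      (2 * Real.pi * Complex.I) * ((k i : ℂ) * fr (fun x => f x i) k) := by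
    intro i
    rw [fr_pd (hf i)]
    unfold D
    ring
  rw [h2, h3, Finset.sum_congr rfl fun i _ => h4 i, ← Finset.mul_sum] at h1
  have h5 : (2 * Real.pi * Complex.I : ℂ) ≠ 0 := Complex.two_pi_I_ne_zero
  rw [Complex.ofReal_one, one_mul] at h1
  exact (mul_eq_zero.1 h1.symm).resolve_left h5

/-- the truncations of the Fourier series -/
noncomputable def avgW (f : V → V) (s : Finset K3) (x : V) : V :=
  ∑ k ∈ s, (Real.cos (2 * Real.pi * ph k x) • (fun i => (fr (fun x => f x i) k).re : V) -
    Real.sin (2 * Real.pi * ph k x) • (fun i => (fr (fun x => f x i) k).im : V))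

theorem avg_W_mem {p : ℕ} {f : V → V} (hf : ∀ i, SP (fun x => f x i))
    (hd : ∀ x, ∑ i, pd i (fun y => f y i) x = 0) {s : Finset K3} (hs : ∀ k ∈ s, k ∈ avgB p) :
    avgW f s ∈ Submodule.span ℝ (md p) := by
  have e : avgW f s = ∑ k ∈ s,
      ((fun x => Real.cos (2 * Real.pi * ph k x) • (fun i => (fr (fun x => f x i) k).re : V)) -
        fun x => Real.sin (2 * Real.pi * ph k x) • (fun i => (fr (fun x => f x i) k).im : V)) := by
    funext x
    rw [Finset.sum_apply]
    rfl
  rw [e]
  refine Submodule.sum_mem _ fun k hk => ?_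
  have h0 := avg_kdiv hf hd k
  refine Submodule.sub_mem _ (Submodule.subset_span ?_) (Submodule.subset_span ?_)
  · refine ⟨k, fun i => (fr (fun x => f x i) k).re, hs k hk, ?_, Or.inl fun x => rfl⟩
    have h1 := congrArg Complex.re h0
    rw [Complex.re_sum, Complex.zero_re] at h1
    rw [← h1]
    refine Finset.sum_congr rfl fun i _ => ?_
    rw [Complex.mul_re, Complex.intCast_re, Complex.intCast_im, zero_mul, sub_zero]
  · refine ⟨k, fun i => (fr (fun x => f x i) k).im, hs k hk, ?_, Or.inr fun x => rfl⟩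
    have h1 := congrArg Complex.im h0
    rw [Complex.im_sum, Complex.zero_im] at h1
    rw [← h1]
    refine Finset.sum_congr rfl fun i _ => ?_
    rw [Complex.mul_im, Complex.intCast_re, Complex.intCast_im, zero_mul, add_zero]

theorem avg_W_re (f : V → V) (s : Finset K3) (x : V) (i : Fin 3) :
    avgW f s x i = (∑ k ∈ s, fr (fun x => f x i) k * ee k x).re := by
  unfold avgW
  rw [Finset.sum_apply, Complex.re_sum]
  refine Finset.sum_congr rfl fun k _ => ?_
  rw [avg_ee, Pi.sub_apply, Pi.smul_apply, Pi.smul_apply, smul_eq_mul, smul_eq_mul,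
    Complex.mul_re]
  simp only [Complex.add_re, Complex.ofReal_re, Complex.mul_re, Complex.I_re, mul_zero,
    Complex.ofReal_im, Complex.I_im, mul_one, sub_zero, Complex.add_im, Complex.mul_im,
    zero_add, add_zero, sub_self]
  ring

open Classical in
theorem avg_ite {E : Type*} [AddCommGroup E] [TopologicalSpace E] [IsTopologicalAddGroup E]
    {g : K3 → E} {a : E} (h : HasSum g a) (s : Finset K3) :
    HasSum (fun k => if k ∈ s then 0 else g k) (a - ∑ k ∈ s, g k) := by
  have h1 : HasSum (fun k => if k ∈ s then g k else 0) (∑ k ∈ s, g k) := by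
    have h2 : HasSum (fun k => if k ∈ s then g k else 0) (∑ k ∈ s, if k ∈ s then g k else 0) :=
      hasSum_sum_of_ne_finset_zero (fun k hk => if_neg hk)
    rwa [Finset.sum_congr rfl fun k hk => if_pos hk] at h2
  have h3 := h.sub h1
  have e : (fun k => g k - if k ∈ s then g k else 0) = fun k => if k ∈ s then 0 else g k := by
    funext k
    split_ifs
    · rw [sub_self]
    · rw [sub_zero]
  rwa [e] at h3

open Classical in
/-- the distance to the truncations -/
theorem avg_dist (hI : S_int) {p : ℕ} (hp : 1 ≤ p) {f : V → V} (hf : ∀ i, SP (fun x => f x i))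
    (s : Finset K3) (i : Fin 3) :
    ∫ x in cube, (f x i - memAv p f x i - avgW f (s.filter fun k => k ∈ avgB p) x i) ^ 2 ≤
      (∑' k, ‖fr (fun x => f x i) k‖ ^ 2) - ∑ k ∈ s, ‖fr (fun x => f x i) k‖ ^ 2 := by
  set a : K3 → ℂ := fr (fun x => f x i) with ha
  set d : V → ℝ := fun x => f x i - memAv p f x i with hdd
  have hd : SP d := uni_sub (hf i) (avg_sp hf i)
  set c : K3 → ℂ := fr d with hc
  have hca : ∀ k, c k = if k ∈ avgB p then a k else 0 := fun k => avg_frd hI hp hf i k
  have hcs : Summable c := (rap_fr hd).summable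
  have has : Summable a := (rap_fr (hf i)).summable
  set b : K3 → ℂ := fun k => if k ∈ s then 0 else c k with hb
  have hbn : ∀ k, ‖b k‖ ≤ ‖c k‖ := by
    intro k
    simp only [hb]
    split_ifs
    · rw [norm_zero]
      exact norm_nonneg _
    · exact le_rfl
  have hbs : Summable b := Summable.of_norm_bounded hcs.norm hbn
  have hW : ∀ x, avgW f (s.filter fun k => k ∈ avgB p) x i = (∑ k ∈ s, c k * ee k x).re := by
    intro x
    rw [avg_W_re, Finset.sum_filter]
    refine congrArg _ (Finset.sum_congr rfl fun k _ => ?_)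
    rw [hca]
    split_ifs
    · rfl
    · rw [zero_mul]
  have hSb : ∀ x, S b x = (d x : ℂ) - ∑ k ∈ s, c k * ee k x := by
    intro x
    have h1 : HasSum (fun k => c k * ee k x) (d x : ℂ) := by
      have h2 := (summable_term hcs x).hasSum
      have h3 : ∑' k, c k * ee k x = (d x : ℂ) := S_fr hd x
      rwa [h3] at h2
    have h4 := (avg_ite h1 s).tsum_eq
    rw [← h4]
    unfold S
    refine tsum_congr fun k => ?_
    simp only [hb]
    split_ifs
    · rw [zero_mul]
    · rfl
  have hle : ∀ x, (f x i - memAv p f x i - avgW f (s.filter fun k => k ∈ avgB p) x i) ^ 2 ≤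
      ‖S b x‖ ^ 2 := by
    intro x
    have h1 : f x i - memAv p f x i - avgW f (s.filter fun k => k ∈ avgB p) x i =
        (S b x).re := by
      rw [hSb, hW, Complex.sub_re, Complex.ofReal_re]
    rw [h1, ← sq_abs]
    exact pow_le_pow_left₀ (abs_nonneg _) (Complex.abs_re_le_norm _) 2
  have hWsp : SP (fun x => avgW f (s.filter fun k => k ∈ avgB p) x i) := by
    have e : (fun x => avgW f (s.filter fun k => k ∈ avgB p) x i) = fun x =>
        ∑ k ∈ s.filter (fun k => k ∈ avgB p), ((a k).re * Real.cos (2 * Real.pi * ph k x) -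
          (a k).im * Real.sin (2 * Real.pi * ph k x)) := by
      funext x
      unfold avgW
      rw [Finset.sum_apply]
      refine Finset.sum_congr rfl fun k _ => ?_
      rw [Pi.sub_apply, Pi.smul_apply, Pi.smul_apply, smul_eq_mul, smul_eq_mul, mul_comm,
        mul_comm (Real.sin _)]
    rw [e]
    exact SP.sum fun k _ => uni_sub (uni_smul _ (up_cos k)) (uni_smul _ (up_sin k))
  have h1 : ∫ x in cube, (f x i - memAv p f x i -
      avgW f (s.filter fun k => k ∈ avgB p) x i) ^ 2 ≤ ∫ x in cube, ‖S b x‖ ^ 2 := by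
    refine integral_mono ?_ ?_ hle
    · exact uni_sq (uni_sub hd hWsp)
    · exact integrableOn_cube ((S_continuous hbs).norm.pow 2)
  refine h1.trans ?_
  rw [integral_norm_sq hbs, n2_sq]
  have h2 := avg_ite (summable_sq has).hasSum s
  rw [← h2.tsum_eq]
  refine Summable.tsum_le_tsum (fun k => ?_) (summable_sq hbs) h2.summable
  simp only [hb]
  split_ifs with hk
  · rw [norm_zero]
    norm_num
  · rw [hca]
    split_ifs
    · exact le_rfl
    · rw [norm_zero]
      exact pow_le_pow_left₀ le_rfl (norm_nonneg _) 2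

theorem avg_span (hI : S_int) {p : ℕ} (hp : 1 ≤ p) {f : V → V} (hf : ∀ i, SP (fun x => f x i))
    (hd : ∀ x, ∑ i, pd i (fun y => f y i) x = 0) :
    InSpan (md p) (fun x => f x - memAv p f x) := by
  classical
  intro ε hε
  have has : ∀ i : Fin 3, HasSum (fun k => ‖fr (fun x => f x i) k‖ ^ 2)
      (∑' k, ‖fr (fun x => f x i) k‖ ^ 2) := fun i =>
    (summable_sq (rap_fr (hf i)).summable).hasSum
  have hsum := hasSum_sum (s := Finset.univ) fun i (_ : i ∈ Finset.univ) => has i
  have hev := hsum.eventually (lt_mem_nhds (show (∑ i, ∑' k, ‖fr (fun x => f x i) k‖ ^ 2) - ε <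
    ∑ i, ∑' k, ‖fr (fun x => f x i) k‖ ^ 2 by linarith))
  obtain ⟨s, hs⟩ := hev.exists
  refine ⟨avgW f (s.filter fun k => k ∈ avgB p),
    avg_W_mem hf hd (fun k hk => (Finset.mem_filter.1 hk).2), ?_⟩
  have h1 : ∑ i, ∫ x in cube, ((f x - memAv p f x) i -
      avgW f (s.filter fun k => k ∈ avgB p) x i) ^ 2 ≤
      ∑ i, ((∑' k, ‖fr (fun x => f x i) k‖ ^ 2) - ∑ k ∈ s, ‖fr (fun x => f x i) k‖ ^ 2) :=
    Finset.sum_le_sum fun i _ => avg_dist hI hp hf s i
  refine lt_of_le_of_lt h1 ?_
  rw [Finset.sum_sub_distrib]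
  rw [Finset.sum_comm] at hs
  linarith

theorem s_avg (hI : S_int) : S_avg := by
  classical
  intro p f hp hf hd
  have hfP : Per f := fun j x => funext fun i => (hf i).per j x
  refine ⟨memAv p f, avg_sp hf, avg_div hf hd, avg_per hp hfP, ?_, avg_span hI hp hf hd, ?_⟩
  · intro w hw hwp
    exact Finset.sum_congr rfl fun i _ => avg_ip hI hp hf hw hwp i
  · intro s
    unfold hs
    refine ENNReal.tsum_le_tsum fun k => ENNReal.ofReal_le_ofReal ?_
    refine mul_le_mul_of_nonneg_left ?_ (by positivity)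
    rw [avg_fq (v := fun x => f x - memAv p f x) (fun i => uni_sub (hf i) (avg_sp hf i)),
      avg_fq hf]
    refine Finset.sum_le_sum fun i _ => ?_
    have h1 : fr (fun x => (f x - memAv p f x) i) k =
        if k ∈ avgB p then fr (fun x => f x i) k else 0 := avg_frd hI hp hf i k
    rw [h1]
    split_ifs
    · exact le_rfl
    · rw [norm_zero]
      exact pow_le_pow_left₀ le_rfl (norm_nonneg _) 2

end Pool.Agent.H226.GB
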