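import Pool.Agent.H226.GB.Spec

/-!
The structure of the basis (helper376).
-/

open MeasureTheory Set Filter Topology
open scoped ContDiff
open H459R3.NS

namespace Pool.Agent.H226.GB

/-! ### Functions with prescribed frequencies in the last variable -/

/-- sums of two product functions, with frequencies in `A` in the last variable -/
def Bas_X (A : Set ℕ) (f : V → ℝ) : Prop :=
  ∃ F G H : Fin 2 → ℝ → ℝ, (∀ i, P1 (F i)) ∧ (∀ i, P1 (G i)) ∧ (∀ i, Trig A (H i)) ∧
    f = fun x => ∑ i, prd (F i) (G i) (H i) x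

theorem Bas_const (c : ℝ) : P1 fun _ => c := ⟨contDiff_const, fun _ => rfl⟩

theorem Bas_sp (P : S_prod) (T : S_trig) {A : Set ℕ} {f : V → ℝ} (h : Bas_X A f) : SP f := by
  obtain ⟨F, G, H, hF, hG, hH, rfl⟩ := h
  exact SP.sum fun i _ => P.sp (hF i) (hG i) (T.p1 (hH i))

theorem Bas_pd (P : S_prod) (T : S_trig) {A : Set ℕ} {f : V → ℝ} (h : Bas_X A f) (j : Fin 3) :
    Bas_X A (pd j f) := by
  obtain ⟨F, G, H, hF, hG, hH, rfl⟩ := h
  have e : pd j (fun x => ∑ i, prd (F i) (G i) (H i) x) =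
      fun x => ∑ i, pd j (prd (F i) (G i) (H i)) x := by
    funext x
    exact pd_sum (f := fun i => prd (F i) (G i) (H i))
      (fun i _ => P.sp (hF i) (hG i) (T.p1 (hH i))) j x
  rw [e]
  have hj : ∀ j : Fin 3, j = 0 ∨ j = 1 ∨ j = 2 := by decide
  rcases hj j with rfl | rfl | rfl
  · refine ⟨fun i => deriv (F i), G, H, fun i => P.der (hF i), hG, hH, ?_⟩
    funext x
    exact Finset.sum_congr rfl fun i _ => by rw [P.pd0 (hF i) (hG i) (T.p1 (hH i))]
  · refine ⟨F, fun i => deriv (G i), H, hF, fun i => P.der (hG i), hH, ?_⟩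
    funext x
    exact Finset.sum_congr rfl fun i _ => by rw [P.pd1 (hF i) (hG i) (T.p1 (hH i))]
  · refine ⟨F, G, fun i => deriv (H i), hF, hG, fun i => T.der (hH i), ?_⟩
    funext x
    exact Finset.sum_congr rfl fun i _ => by rw [P.pd2 (hF i) (hG i) (T.p1 (hH i))]

theorem Bas_smul (P : S_prod) {A : Set ℕ} {f : V → ℝ} (h : Bas_X A f) (c : ℝ) :
    Bas_X A (fun x => c * f x) := by
  obtain ⟨F, G, H, hF, hG, hH, rfl⟩ := h
  refine ⟨fun i s => c * F i s, G, H, fun i => P.mul (Bas_const c) (hF i), hG, hH, ?_⟩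
  funext x
  rw [Finset.mul_sum]
  refine Finset.sum_congr rfl fun i _ => ?_
  unfold prd
  ring

theorem Bas_int2 (P : S_prod) (T : S_trig) {A B : Set ℕ} {f g : V → ℝ} (hf : Bas_X A f)
    (hg : Bas_X B g) (h : ∀ a ∈ A, ∀ b ∈ B, a ≠ b) : ∫ x in cube, f x * g x = 0 := by
  obtain ⟨F, G, H, hF, hG, hH, rfl⟩ := hf
  obtain ⟨F', G', H', hF', hG', hH', rfl⟩ := hg
  have e : ∀ x, (∑ i, prd (F i) (G i) (H i) x) * (∑ j, prd (F' j) (G' j) (H' j) x) =
      ∑ i, ∑ j, prd (fun s => F i s * F' j s) (fun s => G i s * G' j s)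
        (fun s => H i s * H' j s) x := by
    intro x
    rw [Finset.sum_mul_sum]
    refine Finset.sum_congr rfl fun i _ => Finset.sum_congr rfl fun j _ => ?_
    unfold prd
    ring
  have hsp : ∀ i j, SP (prd (fun s => F i s * F' j s) (fun s => G i s * G' j s)
      (fun s => H i s * H' j s)) := fun i j =>
    P.sp (P.mul (hF i) (hF' j)) (P.mul (hG i) (hG' j)) (P.mul (T.p1 (hH i)) (T.p1 (hH' j)))
  simp_rw [e]
  rw [integral_finsetSum _ fun i _ => (SP.sum fun j _ => hsp i j).int]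
  refine Finset.sum_eq_zero fun i _ => ?_
  rw [integral_finsetSum _ fun j _ => (hsp i j).int]
  refine Finset.sum_eq_zero fun j _ => ?_
  rw [P.int (P.mul (hF i) (hF' j)) (P.mul (hG i) (hG' j)) (P.mul (T.p1 (hH i)) (T.p1 (hH' j))),
    T.int2 (hH i) (hH' j) h, mul_zero]

theorem Bas_int3 (P : S_prod) (T : S_trig) {A B C : Set ℕ} {f g k : V → ℝ} (hf : Bas_X A f)
    (hg : Bas_X B g) (hk : Bas_X C k)
    (h : ∀ a ∈ A, ∀ b ∈ B, ∀ c ∈ C, a ≠ b + c ∧ b ≠ a + c ∧ c ≠ a + b) :
    ∫ x in cube, f x * g x * k x = 0 := by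
  obtain ⟨F, G, H, hF, hG, hH, rfl⟩ := hf
  obtain ⟨F', G', H', hF', hG', hH', rfl⟩ := hg
  obtain ⟨F'', G'', H'', hF'', hG'', hH'', rfl⟩ := hk
  have e : ∀ x, (∑ i, prd (F i) (G i) (H i) x) * (∑ j, prd (F' j) (G' j) (H' j) x) *
      (∑ l, prd (F'' l) (G'' l) (H'' l) x) =
      ∑ i, ∑ j, ∑ l, prd (fun s => F i s * F' j s * F'' l s) (fun s => G i s * G' j s * G'' l s)
        (fun s => H i s * H' j s * H'' l s) x := by
    intro x
    rw [Finset.sum_mul_sum, Finset.sum_mul]
    refine Finset.sum_congr rfl fun i _ => ?_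
    rw [Finset.sum_mul_sum]
    refine Finset.sum_congr rfl fun j _ => Finset.sum_congr rfl fun l _ => ?_
    unfold prd
    ring
  have hsp : ∀ i j l, SP (prd (fun s => F i s * F' j s * F'' l s)
      (fun s => G i s * G' j s * G'' l s) (fun s => H i s * H' j s * H'' l s)) := fun i j l =>
    P.sp (P.mul (P.mul (hF i) (hF' j)) (hF'' l)) (P.mul (P.mul (hG i) (hG' j)) (hG'' l))
      (P.mul (P.mul (T.p1 (hH i)) (T.p1 (hH' j))) (T.p1 (hH'' l)))
  simp_rw [e]
  rw [integral_finsetSum _ fun i _ => (SP.sum fun j _ => SP.sum fun l _ => hsp i j l).int]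
  refine Finset.sum_eq_zero fun i _ => ?_
  rw [integral_finsetSum _ fun j _ => (SP.sum fun l _ => hsp i j l).int]
  refine Finset.sum_eq_zero fun j _ => ?_
  rw [integral_finsetSum _ fun l _ => (hsp i j l).int]
  refine Finset.sum_eq_zero fun l _ => ?_
  rw [P.int (P.mul (P.mul (hF i) (hF' j)) (hF'' l)) (P.mul (P.mul (hG i) (hG' j)) (hG'' l))
      (P.mul (P.mul (T.p1 (hH i)) (T.p1 (hH' j))) (T.p1 (hH'' l))),
    T.int3 (hH i) (hH' j) (hH'' l) h, mul_zero]

/-! ### Frequencies -/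

theorem Bas_RR (m : ℕ) : 16 * RR m ≤ RR (m + 1) := by
  unfold RR
  have e : (m + 1 + 2) ^ 3 = (m + 2) ^ 3 + (3 * m ^ 2 + 15 * m + 19) := by ring
  calc 16 * 2 ^ ((m + 2) ^ 3) = 2 ^ ((m + 2) ^ 3 + 4) := by rw [pow_add]; ring
    _ ≤ 2 ^ ((m + 1 + 2) ^ 3) := by
        refine Nat.pow_le_pow_right (by norm_num) ?_
        rw [e]
        omega

theorem Bas_NN (m : ℕ) : 4 * NN m ≤ NN (m + 1) := by
  unfold NN
  have h := Bas_RR m
  calc 4 * RR m ^ 2 ≤ (16 * RR m) ^ 2 := by nlinarith [sq_nonneg (RR m)]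
    _ ≤ RR (m + 1) ^ 2 := Nat.pow_le_pow_left h 2

theorem Bas_NNpos (m : ℕ) : 1 ≤ NN m := by
  unfold NN RR
  exact Nat.one_le_two_pow.trans (Nat.le_self_pow two_ne_zero _)

theorem Bas_NNlt {m n : ℕ} (h : m < n) : NN m < NN n := by
  refine strictMono_nat_of_lt_succ (f := NN) (fun k => ?_) h
  have h1 := Bas_NN k
  have h2 := Bas_NNpos k
  omega

theorem Bas_NNle {m n : ℕ} (h : m ≤ n) : NN m ≤ NN n := by
  rcases h.eq_or_lt with rfl | h
  · exact le_rfl
  · exact (Bas_NNlt h).le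

/-- the frequencies of the `m`-th field in the last variable -/
def Bas_A (m : ℕ) : Set ℕ :=
  {k | 16 * NN m ≤ k ∧ k ≤ 17 * NN m - 1} ∪ {k | 1 ≤ m ∧ k = 2 * (17 * NN (m - 1) - 1)}

theorem Bas_hi {m a : ℕ} (h : a ∈ Bas_A m) : a ≤ 17 * NN m - 1 := by
  rcases h with h | ⟨h1, h2⟩
  · exact h.2
  · obtain ⟨k, rfl⟩ : ∃ k, m = k + 1 := ⟨m - 1, by omega⟩
    rw [Nat.add_sub_cancel] at h2
    have h3 := Bas_NN k
    omega

theorem Bas_lo {k a : ℕ} (h : a ∈ Bas_A (k + 1)) : 2 * (17 * NN k - 1) ≤ a := by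
  rcases h with h | ⟨h1, h2⟩
  · have h3 := Bas_NN k
    have h4 : 16 * NN (k + 1) ≤ a := h.1
    omega
  · rw [Nat.add_sub_cancel] at h2
    exact h2.ge

theorem Bas_lt {m n a b : ℕ} (h : m < n) (ha : a ∈ Bas_A m) (hb : b ∈ Bas_A n) : a < b := by
  obtain ⟨k, rfl⟩ : ∃ k, n = k + 1 := ⟨n - 1, by omega⟩
  have h1 := Bas_hi ha
  have h2 := Bas_lo hb
  have h3 := Bas_NNle (show m ≤ k by omega)
  have h4 := Bas_NNpos k
  omega

theorem Bas_ne {m n : ℕ} (h : m ≠ n) : ∀ a ∈ Bas_A m, ∀ b ∈ Bas_A n, a ≠ b := by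
  intro a ha b hb
  rcases lt_or_gt_of_ne h with h | h
  · exact (Bas_lt h ha hb).ne
  · exact (Bas_lt h hb ha).ne'

theorem Bas_lt3 {i j m a b c : ℕ} (hi : i < m) (hj : j < m) (h : i + 1 < m ∨ j + 1 < m)
    (ha : a ∈ Bas_A i) (hb : b ∈ Bas_A j) (hc : c ∈ Bas_A m) : a + b < c := by
  obtain ⟨k, rfl⟩ : ∃ k, m = k + 1 := ⟨m - 1, by omega⟩
  have h1 := Bas_hi ha
  have h2 := Bas_hi hb
  have h3 := Bas_lo hc
  have h4 := Bas_NNle (show i ≤ k by omega)
  have h5 := Bas_NNle (show j ≤ k by omega)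
  have h6 := Bas_NNpos i
  have h7 := Bas_NNpos j
  rcases h with h | h
  · have h8 := Bas_NNlt (show i < k by omega)
    omega
  · have h8 := Bas_NNlt (show j < k by omega)
    omega

theorem Bas_trig {A B : Set ℕ} (h : A ⊆ B) {f : ℝ → ℝ} (hf : Trig A f) : Trig B f := by
  refine Submodule.span_mono ?_ hf
  rintro g (⟨k, hk, rfl⟩ | ⟨k, hk, rfl⟩)
  · exact Or.inl ⟨k, h hk, rfl⟩
  · exact Or.inr ⟨k, h hk, rfl⟩

theorem Bas_H (T : S_trig) (m : ℕ) : Trig (Bas_A m) (fH (NN m)) :=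
  Bas_trig (fun _ hk => Or.inl hk) (T.H (NN m))

theorem Bas_th0 (P : S_prod) (O : S_one) (T : S_trig) (m : ℕ) : Bas_X (Bas_A m) (th0 m) := by
  rcases Nat.eq_zero_or_pos m with rfl | hm
  · refine ⟨![fF (NN 0), fun _ => 0], ![fG (NN 0), fG (NN 0)], ![fH (NN 0), fH (NN 0)], ?_, ?_, ?_,
      ?_⟩
    · intro i
      fin_cases i
      · exact O.p1_F _
      · exact Bas_const 0
    · intro i
      fin_cases i
      · exact O.p1_G _
      · exact O.p1_G _
    · intro i
      fin_cases i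
      · exact Bas_H T 0
      · exact Bas_H T 0
    · funext x
      rw [Fin.sum_univ_two]
      unfold th0 ee' psi prd
      simp
  · refine ⟨![fF (NN m), fun s => ee' m * sn (4 * NN (m - 1) - 3) s],
      ![fG (NN m), cs (4 * NN (m - 1) - 2)], ![fH (NN m), sn (2 * (17 * NN (m - 1) - 1))],
      ?_, ?_, ?_, ?_⟩
    · intro i
      fin_cases i
      · exact O.p1_F _
      · exact P.mul (Bas_const _) (O.p1_sn _)
    · intro i
      fin_cases i
      · exact O.p1_G _
      · exact O.p1_cs _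
    · intro i
      fin_cases i
      · exact Bas_H T m
      · exact T.sn (Or.inr ⟨hm, rfl⟩)
    · funext x
      rw [Fin.sum_univ_two]
      unfold th0 psi chi prd
      simp only [Matrix.cons_val_zero, Matrix.cons_val_one]
      ring

/-! ### The fields -/

theorem Bas_phi0 (m : ℕ) (x : V) : phi m x 0 = -(nm m)⁻¹ * pd 2 (th0 m) x := rfl

theorem Bas_phi1 (m : ℕ) (x : V) : phi m x 1 = -(nm m)⁻¹ * 0 := rfl

theorem Bas_phi2 (m : ℕ) (x : V) : phi m x 2 = -(nm m)⁻¹ * -pd 0 (th0 m) x := rfl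

theorem Bas_comp (P : S_prod) (O : S_one) (T : S_trig) (m : ℕ) (i : Fin 3) :
    Bas_X (Bas_A m) (fun x => phi m x i) := by
  have h := Bas_th0 P O T m
  have hi : i = 0 ∨ i = 1 ∨ i = 2 := by
    revert i
    decide
  rcases hi with rfl | rfl | rfl
  · exact Bas_smul P (Bas_pd P T h 2) (-(nm m)⁻¹)
  · have h1 := Bas_smul P h 0
    have e : (fun x => phi m x 1) = fun x => 0 * th0 m x := by
      funext x
      rw [Bas_phi1]
      ring
    rw [e]
    exact h1
  · have h1 := Bas_smul P (Bas_pd P T h 0) ((nm m)⁻¹)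
    have e : (fun x => phi m x 2) = fun x => (nm m)⁻¹ * pd 0 (th0 m) x := by
      funext x
      rw [Bas_phi2]
      ring
    rw [e]
    exact h1

theorem Bas_pdc {f : V → ℝ} (hf : SP f) (c : ℝ) (j : Fin 3) (x : V) :
    pd j (fun y => c * f y) x = c * pd j f x := by
  unfold pd
  rw [fderiv_const_mul (hf.diff x) c]
  rfl

theorem Bas_div (P : S_prod) (O : S_one) (T : S_trig) (m : ℕ) (x : V) :
    ∑ i, pd i (fun y => phi m y i) x = 0 := by
  have h := Bas_sp P T (Bas_th0 P O T m)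
  rw [Fin.sum_univ_three]
  have e1 : pd 0 (fun y => phi m y 0) x = -(nm m)⁻¹ * pd 0 (pd 2 (th0 m)) x :=
    Bas_pdc (h.pd 2) _ 0 x
  have e2 : pd 1 (fun y => phi m y 1) x = 0 := by
    have e : (fun y => phi m y 1) = fun _ => (-(nm m)⁻¹ * 0 : ℝ) := rfl
    rw [e]
    unfold pd
    rw [fderiv_fun_const]
    rfl
  have e3 : pd 2 (fun y => phi m y 2) x = (nm m)⁻¹ * pd 2 (pd 0 (th0 m)) x := by
    have e : (fun y => phi m y 2) = fun y => (nm m)⁻¹ * pd 0 (th0 m) y := by
      funext y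
      rw [Bas_phi2]
      ring
    rw [e]
    exact Bas_pdc (h.pd 0) _ 2 x
  rw [e1, e2, e3, pd_comm h 2 0]
  ring

theorem Bas_anti (P : S_prod) (O : S_one) (T : S_trig) (i j m : ℕ) :
    tri (phi i) (phi j) (phi m) = -tri (phi i) (phi m) (phi j) := by
  have hs : ∀ m l, SP (fun x => phi m x l) := fun m l => Bas_sp P T (Bas_comp P O T m l)
  rw [eq_neg_iff_add_eq_zero]
  unfold tri
  rw [← Finset.sum_add_distrib]
  have e : ∀ k l : Fin 3, (∫ x in cube, phi i x k * phi j x l * pd k (fun y => phi m y l) x) +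
      ∫ x in cube, phi i x k * phi m x l * pd k (fun y => phi j y l) x =
      ∫ x in cube, phi i x k * pd k (fun y => phi j y l * phi m y l) x := by
    intro k l
    rw [← integral_add (((hs i k).mul (hs j l)).mul ((hs m l).pd k)).int
      (((hs i k).mul (hs m l)).mul ((hs j l).pd k)).int]
    congr 1
    funext x
    rw [pd_mul (hs j l) (hs m l)]
    ring
  simp_rw [← Finset.sum_add_distrib, e]
  rw [Finset.sum_comm]
  refine Finset.sum_eq_zero fun l _ => ?_
  exact int_press (v := fun k x => phi i x k) (fun k => hs i k) (Bas_div P O T i)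
    ((hs j l).mul (hs m l))

theorem Bas_tri0 (P : S_prod) (O : S_one) (T : S_trig) {i j m : ℕ}
    (h : ∀ a ∈ Bas_A i, ∀ b ∈ Bas_A j, ∀ c ∈ Bas_A m, a ≠ b + c ∧ b ≠ a + c ∧ c ≠ a + b) :
    tri (phi i) (phi j) (phi m) = 0 := by
  unfold tri
  refine Finset.sum_eq_zero fun k _ => Finset.sum_eq_zero fun l _ => ?_
  exact Bas_int3 P T (Bas_comp P O T i k) (Bas_comp P O T j l) (Bas_pd P T (Bas_comp P O T m l) k) h

theorem Bas_tri1 (P : S_prod) (O : S_one) (T : S_trig) {i m : ℕ} (h : i + 1 < m) :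
    tri (phi i) (phi i) (phi m) = 0 := by
  refine Bas_tri0 P O T fun a ha b hb c hc => ?_
  have := Bas_lt3 (by omega) (by omega) (Or.inl h) ha hb hc
  omega

theorem Bas_tri2 (P : S_prod) (O : S_one) (T : S_trig) {i j m : ℕ} (h1 : i ≠ j) (h2 : i ≠ m)
    (h3 : j ≠ m) : tri (phi i) (phi j) (phi m) = 0 := by
  refine Bas_tri0 P O T fun a ha b hb c hc => ?_
  by_cases hm : i < m ∧ j < m
  · have := Bas_lt3 hm.1 hm.2 (by omega) ha hb hc
    omega
  · by_cases hj : i < j ∧ m < j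
    · have := Bas_lt3 hj.1 hj.2 (by omega) ha hc hb
      omega
    · have := Bas_lt3 (show j < i by omega) (show m < i by omega) (by omega) hb hc ha
      omega

theorem s_basis (P : S_prod) (O : S_one) (G : S_trig) (h : S_nm) (hg : S_gg) : S_basis where
  sp := fun m i => Bas_sp P G (Bas_comp P O G m i)
  div := Bas_div P O G
  on := by
    intro m n
    split_ifs with hmn
    · subst hmn
      have h1 : 0 < nm m := (h m).2
      have h2 : 0 < ip (gp (th0 m)) (gp (th0 m)) := Real.sqrt_pos.1 h1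
      have h3 : nm m ^ 2 = ip (gp (th0 m)) (gp (th0 m)) := Real.sq_sqrt h2.le
      have h4 : ip (phi m) (phi m) = ((nm m)⁻¹) ^ 2 * ip (gp (th0 m)) (gp (th0 m)) := by
        unfold ip
        rw [Finset.mul_sum]
        refine Finset.sum_congr rfl fun i _ => ?_
        rw [← integral_const_mul]
        congr 1
        funext x
        have e : phi m x i = -(nm m)⁻¹ * gp (th0 m) x i := rfl
        rw [e]
        ring
      rw [h4, ← h3, ← mul_pow, inv_mul_cancel₀ h1.ne', one_pow]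
    · unfold ip
      exact Finset.sum_eq_zero fun i _ =>
        Bas_int2 P G (Bas_comp P O G m i) (Bas_comp P O G n i) (Bas_ne hmn)
  gon := by
    intro m n
    split_ifs with hmn
    · subst hmn
      rfl
    · unfold gip
      exact Finset.sum_eq_zero fun i _ => Finset.sum_eq_zero fun j _ =>
        Bas_int2 P G (Bas_pd P G (Bas_comp P O G m i) j) (Bas_pd P G (Bas_comp P O G n i) j)
          (Bas_ne hmn)
  mono := by
    refine monotone_nat_of_le_succ fun m => ?_
    have h1 : (16 * RR m : ℝ) ≤ RR (m + 1) := by exact_mod_cast Bas_RR m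
    have h2 : (16 * RR m : ℝ) ^ 4 ≤ (RR (m + 1) : ℝ) ^ 4 := pow_le_pow_left₀ (by positivity) h1 4
    have h3 : (0 : ℝ) ≤ (RR m : ℝ) ^ 4 := by positivity
    have h4 := (hg m).2
    have h5 := (hg (m + 1)).1
    have h6 : (16 * RR m : ℝ) ^ 4 = 2 ^ 16 * (RR m : ℝ) ^ 4 := by ring
    rw [h6] at h2
    linarith
  tri_eq := by
    intro i j m
    by_cases h1 : j = m
    · subst h1
      have h2 := Bas_anti P O G i j j
      have h3 : tri (phi i) (phi j) (phi j) = 0 := by linarith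
      rw [h3, if_neg (by omega), if_neg (by omega), if_neg (by omega)]
      ring
    · by_cases h2 : i = m
      · subst h2
        rw [Bas_anti P O G i j i]
        rcases lt_or_gt_of_ne h1 with h3 | h3
        · rw [if_pos ⟨h3, rfl⟩, if_neg (by omega), if_neg (by omega), if_neg (by omega)]
          unfold cc
          ring
        · rw [if_neg (by omega), if_neg (by omega), if_neg (by omega)]
          by_cases h4 : j = i + 1
          · rw [if_pos ⟨rfl, h4⟩, h4]
            unfold pp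
            ring
          · rw [if_neg (by omega), Bas_tri1 P O G (by omega)]
            ring
      · by_cases h3 : i = j
        · subst h3
          rcases lt_or_gt_of_ne h1 with h4 | h4
          · rw [if_neg (by omega), if_neg (by omega), if_neg (c := i = m ∧ i = i + 1) (by omega)]
            by_cases h5 : m = i + 1
            · rw [if_pos ⟨rfl, h5⟩, h5]
              unfold pp
              ring
            · rw [if_neg (by omega), Bas_tri1 P O G (by omega)]
              ring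
          · rw [if_neg (by omega), if_pos ⟨h4, rfl⟩, if_neg (by omega), if_neg (by omega)]
            unfold cc
            ring
        · rw [if_neg (by omega), if_neg (by omega), if_neg (by omega), if_neg (by omega),
            Bas_tri2 P O G h3 h2 h1]
          ring

end Pool.Agent.H226.GB
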