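import Pool.Graph.R_seed8.H459R3.NS.Evo

/-!
Galerkin projections of the Navier-Stokes equations: definitions.
-/

open MeasureTheory Set Filter Topology
open scoped ContDiff
open H459R3.NS

namespace Pool.Agent.H226.GB

/-- `∫ u · v` over the period cell -/
noncomputable def ip (u v : V → V) : ℝ := ∑ i, ∫ x in cube, u x i * v x i

/-- `∫ ∇u : ∇v` over the period cell -/
noncomputable def gip (u v : V → V) : ℝ :=
  ∑ i, ∑ j, ∫ x in cube, pd j (fun y => u y i) x * pd j (fun y => v y i) x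

/-- `∫ u ⊗ v : ∇w = ∑ ∫ uᵢ vⱼ ∂ᵢ wⱼ` over the period cell -/
noncomputable def tri (u v w : V → V) : ℝ :=
  ∑ i, ∑ j, ∫ x in cube, u x i * v x j * pd i (fun y => w y j) x

/-- The field `(∂₂ Θ, 0, -∂₀ Θ)`. -/
noncomputable def gp (Θ : V → ℝ) (x : V) : V := ![pd 2 Θ x, 0, -pd 0 Θ x]

/-- the product function `F(x₀) G(x₁) H(x₂)` -/
def prd (F G H : ℝ → ℝ) (x : V) : ℝ := F (x 0) * G (x 1) * H (x 2)

/-- `sin (2πks)` -/
noncomputable def sn (k : ℕ) (s : ℝ) : ℝ := Real.sin (2 * Real.pi * k * s)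

/-- `cos (2πks)` -/
noncomputable def cs (k : ℕ) (s : ℝ) : ℝ := Real.cos (2 * Real.pi * k * s)

/-- the basic scale `2^((m+2)^3)` -/
def RR (m : ℕ) : ℕ := 2 ^ ((m + 2) ^ 3)

/-- the frequency `RR m ^ 2` -/
def NN (m : ℕ) : ℕ := RR m ^ 2

/-- `∑_{N ≤ j < 2N} sin (2πjs)` -/
noncomputable def fF (N : ℕ) (s : ℝ) : ℝ := ∑ j ∈ Finset.Ico N (2 * N), sn j s

/-- `∑_{N ≤ j < 2N} cos (2πjs)` -/
noncomputable def fG (N : ℕ) (s : ℝ) : ℝ := ∑ j ∈ Finset.Ico N (2 * N), cs j s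

/-- `∑_{16N ≤ j < 17N} sin (2πjs) / (2πj)` -/
noncomputable def fH (N : ℕ) (s : ℝ) : ℝ :=
  ∑ j ∈ Finset.Ico (16 * N) (17 * N), sn j s / (2 * Real.pi * j)

/-- the exponents of the pumps: `(R_m / R_{m-1})^5 / 2^13` -/
noncomputable def bb (m : ℕ) : ℝ := ((RR m : ℝ) / RR (m - 1)) ^ 5 / 2 ^ 13

/-- the amplitude of the pump mode in the `m`-th field -/
noncomputable def ee' (m : ℕ) : ℝ := if m = 0 then 0 else Real.exp (-bb (m - 1))

/-- main part of the stream function -/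
noncomputable def psi (m : ℕ) : V → ℝ := prd (fF (NN m)) (fG (NN m)) (fH (NN m))

/-- pump mode of the `m`-th field, of frequencies comparable to `NN (m-1)` -/
noncomputable def chi (m : ℕ) : V → ℝ :=
  prd (sn (4 * NN (m - 1) - 3)) (cs (4 * NN (m - 1) - 2)) (sn (2 * (17 * NN (m - 1) - 1)))

/-- stream function, not normalised -/
noncomputable def th0 (m : ℕ) (x : V) : ℝ := psi m x + ee' m * chi m x

/-- its norm -/
noncomputable def nm (m : ℕ) : ℝ := Real.sqrt (ip (gp (th0 m)) (gp (th0 m)))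

/-- the basis fields `φ_m` -/
noncomputable def phi (m : ℕ) (x : V) : V := (-(nm m)⁻¹) • gp (th0 m) x

/-- `c n l` for `n < l`: `- ∫ φ_l ⊗ φ_l : ∇ φ_n` -/
noncomputable def cc (n l : ℕ) : ℝ := -tri (phi l) (phi l) (phi n)

/-- the pump coefficient `∫ φ_n ⊗ φ_n : ∇ φ_{n+1}` -/
noncomputable def pp (n : ℕ) : ℝ := tri (phi n) (phi n) (phi (n + 1))

/-- `∫ |∇φ_m|²` -/
noncomputable def gg (m : ℕ) : ℝ := gip (phi m) (phi m)

/-- An orthonormal system of smooth periodic divergence-free fields for which the Galerkin system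
of the Navier-Stokes equations has only the couplings `c n l` and `p n`. -/
structure Basis (φ : ℕ → V → V) (c : ℕ → ℕ → ℝ) (p g : ℕ → ℝ) : Prop where
  sp : ∀ m i, SP (fun x => φ m x i)
  div : ∀ m x, ∑ i, pd i (fun y => φ m y i) x = 0
  on : ∀ m n, ip (φ m) (φ n) = if m = n then 1 else 0
  gon : ∀ m n, gip (φ m) (φ n) = if m = n then g m else 0
  mono : Monotone g
  tri_eq : ∀ i j m, tri (φ i) (φ j) (φ m)
    = (if j < m ∧ i = m then c j m else 0) - (if m < j ∧ i = j then c m j else 0)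
      + (if i = j ∧ m = i + 1 then p i else 0) - (if i = m ∧ j = i + 1 then p m else 0)

/-- smooth 1-periodic functions on the line -/
structure P1 (f : ℝ → ℝ) : Prop where
  smooth : ContDiff ℝ ∞ f
  per : ∀ s, f (s + 1) = f s

end Pool.Agent.H226.GB
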