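import Pool.Agent.H226.GB.Spec9
import Pool.Agent.H226.GB.UniP

/-!
Blow-up of the critical norms at the maximal time (assembly).
-/

set_option autoImplicit false

open MeasureTheory Set Filter Topology
open scoped ContDiff ENNReal
open H459R3.NS

namespace Pool.Agent.H226.GB

/-- the Fourier sums are nonnegative -/
theorem bup_fq (f : V → V) (k : Fin 3 → ℤ) : 0 ≤ fq f k :=
  Finset.sum_nonneg fun _ _ => add_nonneg (sq_nonneg _) (sq_nonneg _)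

/-- the Sobolev norms are monotone in the exponent -/
theorem bup_mono {s r : ℝ} (h : s ≤ r) (f : V → V) : hs s f ≤ hs r f := by
  unfold hs
  refine ENNReal.tsum_le_tsum fun k => ENNReal.ofReal_le_ofReal ?_
  refine mul_le_mul_of_nonneg_right ?_ (bup_fq f k)
  refine Real.rpow_le_rpow_of_exponent_le ?_ h
  have : 0 ≤ ∑ j, (k j : ℝ) ^ 2 := Finset.sum_nonneg fun j _ => sq_nonneg _
  linarith

/-- the coefficients of the rescaled field -/
theorem bup_ip (hI : S_int) (hb : Basis phi cc pp gg) {p : ℕ} (hp : 1 ≤ p) {v : V → V}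
    (hV : ∀ i, SP (fun x => ((p : ℝ) • v ((p : ℝ)⁻¹ • x)) i)) (m : ℕ) :
    ip (fun x => (p : ℝ) • v ((p : ℝ)⁻¹ • x)) (phi m) =
      p * ∑ i, ∫ x in cube, v x i * phi m ((p : ℝ) • x) i := by
  have hp0 : (p : ℝ) ≠ 0 := by
    have : (1 : ℝ) ≤ p := by exact_mod_cast hp
    positivity
  unfold ip
  rw [Finset.mul_sum]
  refine Finset.sum_congr rfl fun i _ => ?_
  have h1 := hI.1 (fun x => ((p : ℝ) • v ((p : ℝ)⁻¹ • x)) i * phi m x i) ((hV i).mul (hb.sp m i)) p hp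
  rw [← h1, ← integral_const_mul]
  refine integral_congr_ae (Eventually.of_forall fun x => ?_)
  have hx : (p : ℝ)⁻¹ • (p : ℝ) • x = x := by
    rw [smul_smul, inv_mul_cancel₀ hp0, one_smul]
  show ((p : ℝ) • v ((p : ℝ)⁻¹ • (p : ℝ) • x)) i * phi m ((p : ℝ) • x) i =
    (p : ℝ) * (v x i * phi m ((p : ℝ) • x) i)
  rw [hx, Pi.smul_apply, smul_eq_mul, mul_assoc]

/-- a bound of the Sobolev norm bounds the coefficients -/
theorem bup_coef (h5 : S_hsb) {p : ℕ} (hp : 1 ≤ p) {s : ℝ} (hs0 : 0 ≤ s) : ∃ C : ℝ, 0 ≤ C ∧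
    ∀ (f : V → V) (B : ℝ), 0 ≤ B → (∀ i, SP (fun x => f x i)) → hs s f ≤ ENNReal.ofReal B →
      ∀ m : ℕ, (RR m : ℝ) ^ (2 * s) * |∑ i, ∫ x in cube, f x i * phi m ((p : ℝ) • x) i| ≤
        Real.sqrt (C * B) := by
  obtain ⟨C, hC, h⟩ := h5 p s hp hs0
  refine ⟨C, hC, fun f B hB hf hfB m => ?_⟩
  obtain ⟨b, hbd⟩ : ∃ b : ℕ → ℝ, ∀ m, b m = ∑ i, ∫ x in cube, f x i * phi m ((p : ℝ) • x) i :=
    ⟨_, fun _ => rfl⟩
  rw [← hbd]
  have h1 := h f hf (m + 1)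
  simp only [← hbd] at h1
  have h2 : ENNReal.ofReal (∑ m ∈ Finset.range (m + 1), (RR m : ℝ) ^ (4 * s) * b m ^ 2) ≤
      ENNReal.ofReal (C * B) := by
    rw [ENNReal.ofReal_mul hC]
    exact h1.trans (mul_le_mul_right hfB _)
  rw [ENNReal.ofReal_le_ofReal_iff (mul_nonneg hC hB)] at h2
  have h0 : ∀ m : ℕ, 0 ≤ (RR m : ℝ) ^ (4 * s) * b m ^ 2 := fun m =>
    mul_nonneg (Real.rpow_nonneg (Nat.cast_nonneg _) _) (sq_nonneg _)
  have h3 : (RR m : ℝ) ^ (4 * s) * b m ^ 2 ≤ C * B :=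
    (Finset.single_le_sum (f := fun m => (RR m : ℝ) ^ (4 * s) * b m ^ 2) (fun m _ => h0 m)
      (Finset.mem_range.2 (Nat.lt_succ_self m))).trans h2
  apply Real.le_sqrt_of_sq_le
  have h4 : ((RR m : ℝ) ^ (2 * s) * |b m|) ^ 2 = (RR m : ℝ) ^ (4 * s) * b m ^ 2 := by
    rw [mul_pow, sq_abs, ← Real.rpow_natCast ((RR m : ℝ) ^ (2 * s)) 2, ← Real.rpow_mul (Nat.cast_nonneg _)]
    congr 2
    push_cast
    ring
  rw [h4]
  exact h3

theorem s_bup (h1 : S_cri) (h2 : S_str) (h3 : S_scl) (h4 : S_scl2) (h5 : S_hsb) (hI : S_int)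
    (hg : S_gg) (hb : Basis phi cc pp gg) : S_bup := by
  intro p ν T u hp hν hT hu hmax r hr B
  by_contra hcon
  push Not at hcon
  have hp1 : (1 : ℝ) ≤ p := by exact_mod_cast hp
  have hp0 : (p : ℝ) ≠ 0 := by positivity
  have hU := h4 p ν T u hp hu
  set U : ℝ → V → V := fun t x => (p : ℝ) • u t ((p : ℝ)⁻¹ • x) with hUd
  have hν' : 0 ≤ ν * (p : ℝ) ^ 2 := by positivity
  have husp : ∀ t ∈ Ico 0 T, ∀ i, SP (fun x => u t x i) := fun t ht i => uniP_sp hu ht i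
  have hUsp : ∀ t ∈ Ico 0 T, ∀ i, SP (fun x => U t x i) := fun t ht i => uni_sp hU ht i
  have hip : ∀ t ∈ Ico 0 T, ∀ m, ip (U t) (phi m) =
      p * ∑ i, ∫ x in cube, u t x i * phi m ((p : ℝ) • x) i := fun t ht m =>
    bup_ip hI hb hp (hUsp t ht) m
  obtain ⟨B', hB'0, hB'⟩ : ∃ B' : ℝ, 0 ≤ B' ∧ ∀ t ∈ Ico 0 T, hs r (u t) ≤ ENNReal.ofReal B' :=
    ⟨max B 0, le_max_right _ _, fun t ht => (hcon t ht).trans
      (ENNReal.ofReal_le_ofReal (le_max_left _ _))⟩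
  -- the strain is dominated by the dissipation
  obtain ⟨Λ, hΛ, hdom⟩ : ∃ Λ : ℝ, 0 ≤ Λ ∧ ∀ t ∈ Ico 0 T, ∀ m,
      ∑ n ∈ Finset.range m, Gm n * |ip (U t) (phi n)| ≤ ν * (p : ℝ) ^ 2 * gg m + Λ := by
    rcases hr with hr | ⟨hν0, hr⟩
    · obtain ⟨C, hC, hco⟩ := bup_coef h5 hp (s := r) (by linarith)
      obtain ⟨Λ, hΛ, hst⟩ := h2.2 r (p * Real.sqrt (C * B')) hr
        (mul_nonneg (by linarith) (Real.sqrt_nonneg _))
      refine ⟨Λ, hΛ, fun t ht m => ?_⟩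
      have h6 := hst (fun n => ip (U t) (phi n)) (fun n => by
        have h7 := hco (u t) B' hB'0 (husp t ht) (hB' t ht) n
        have h8 := mul_le_mul_of_nonneg_left h7 (by linarith : (0 : ℝ) ≤ p)
        show (RR n : ℝ) ^ (2 * r) * |ip (U t) (phi n)| ≤ _
        rw [hip t ht n, abs_mul, abs_of_nonneg (by linarith : (0 : ℝ) ≤ p)]
        calc (RR n : ℝ) ^ (2 * r) * ((p : ℝ) * |∑ i, ∫ x in cube, u t x i * phi n ((p : ℝ) • x) i|)
            = (p : ℝ) * ((RR n : ℝ) ^ (2 * r) *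
                |∑ i, ∫ x in cube, u t x i * phi n ((p : ℝ) • x) i|) := by ring
          _ ≤ _ := h8) m
      have h9 : 0 ≤ ν * (p : ℝ) ^ 2 * gg m := by
        refine mul_nonneg hν' (le_trans ?_ (hg m).1)
        positivity
      linarith
    · obtain ⟨C, hC, hco⟩ := bup_coef h5 hp (s := 1 / 2) (by norm_num)
      obtain ⟨Λ, hΛ, hst⟩ := h2.1 (ν * (p : ℝ) ^ 2) (p * Real.sqrt (C * B')) (by positivity)
        (mul_nonneg (by linarith) (Real.sqrt_nonneg _))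
      refine ⟨Λ, hΛ, fun t ht m => ?_⟩
      have h6 := hst (fun n => ip (U t) (phi n)) (fun n => by
        have h7 := hco (u t) B' hB'0 (husp t ht) ((bup_mono hr (u t)).trans (hB' t ht)) n
        have h8 := mul_le_mul_of_nonneg_left h7 (by linarith : (0 : ℝ) ≤ p)
        have e1 : (RR n : ℝ) ^ (2 * (1 / 2 : ℝ)) = RR n := by
          rw [mul_one_div_cancel two_ne_zero, Real.rpow_one]
        rw [e1] at h8
        show (RR n : ℝ) * |ip (U t) (phi n)| ≤ _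
        rw [hip t ht n, abs_mul, abs_of_nonneg (by linarith : (0 : ℝ) ≤ p)]
        calc (RR n : ℝ) * ((p : ℝ) * |∑ i, ∫ x in cube, u t x i * phi n ((p : ℝ) • x) i|)
            = (p : ℝ) * ((RR n : ℝ) *
                |∑ i, ∫ x in cube, u t x i * phi n ((p : ℝ) • x) i|) := by ring
          _ ≤ _ := h8) m
      have h9 : ν * (p : ℝ) ^ 2 * (RR m : ℝ) ^ 4 ≤ ν * (p : ℝ) ^ 2 * gg m :=
        mul_le_mul_of_nonneg_left (hg m).1 hν'
      linarith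
  obtain ⟨T', U', hTT', hU', hUU'⟩ := h1 (ν * (p : ℝ) ^ 2) T Λ U hν' hT hΛ hU hdom
  have hv := h3 p ν T' U' hp hU'
  have h0 : (fun x => (p : ℝ)⁻¹ • U' 0 ((p : ℝ) • x)) = u 0 := by
    funext x
    rw [hUU' 0 ⟨le_rfl, hT⟩]
    show (p : ℝ)⁻¹ • (p : ℝ) • u 0 ((p : ℝ)⁻¹ • (p : ℝ) • x) = u 0 x
    rw [smul_smul, inv_mul_cancel₀ hp0, one_smul, smul_smul, inv_mul_cancel₀ hp0, one_smul]
  have h10 := hmax T' _ hv h0
  exact absurd hTT' (not_lt.2 h10)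

end Pool.Agent.H226.GB
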