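import Pool.Agent.H226.GB.Spec8
import Pool.Agent.H226.GB.Uni

/-!
The condition `u t ∈ closed span` is closed in time; translation in time.
-/

set_option autoImplicit false

open MeasureTheory Set Filter Topology
open scoped ContDiff ENNReal
open H459R3.NS

namespace Pool.Agent.H226.GB

theorem clo_sp {Φ : Set (V → V)} {ν T : ℝ} {u : ℝ → V → V} (hu : IsPr Φ ν T u) {t : ℝ}
    (ht : t ∈ Ico 0 T) (i : Fin 3) : SP (fun x => u t x i) where
  smooth := by
    have h1 : ContDiff ℝ ∞ (fun x : V => ((t, x) : ℝ × V)) := contDiff_const.prodMk contDiff_id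
    have h2 : ContDiff ℝ ∞ (fun x : V => u t x) := by
      rw [← contDiffOn_univ]
      exact hu.smooth.comp h1.contDiffOn (fun x _ => ⟨ht, mem_univ _⟩)
    exact contDiff_pi.1 h2 i
  per := fun j x => congrFun (hu.per t ht j x) i

theorem clo_span {Ψ : Set (V → V)} (hΨ : ∀ w ∈ Ψ, ∀ i, SP (fun x => w x i)) {w : V → V}
    (hw : w ∈ Submodule.span ℝ Ψ) (i : Fin 3) : SP (fun x => w x i) := by
  induction hw using Submodule.span_induction with
  | mem w hw => exact hΨ w hw i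
  | zero =>
    exact ⟨contDiff_const, fun _ _ => rfl⟩
  | add f g _ _ hf hg =>
    exact ⟨hf.smooth.add hg.smooth, fun j x => by
      have h1 := hf.per j x
      have h2 := hg.per j x
      show f (x + Pi.single j 1) i + g (x + Pi.single j 1) i = f x i + g x i
      rw [h1, h2]⟩
  | smul c f _ hf => exact uni_smul c hf

theorem clo_cont {Φ : Set (V → V)} {ν T : ℝ} {u : ℝ → V → V} (hu : IsPr Φ ν T u) {t : ℝ}
    (ht : t ∈ Ico 0 T) :
    ContinuousOn (fun s => ∑ i, ∫ x in cube, (u s x i - u t x i) ^ 2) (Ico 0 T) := by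
  refine continuousOn_finsetSum _ fun i _ => ?_
  refine continuousOn_int (F := fun s x => (u s x i - u t x i) ^ 2) ?_
  have h1 : ContinuousOn (fun z : ℝ × V => u z.1 z.2 i) (Ico 0 T ×ˢ univ) :=
    (continuous_apply i).comp_continuousOn hu.smooth.continuousOn
  have h2 : Continuous (fun z : ℝ × V => u t z.2 i) := (clo_sp hu ht i).cont.comp continuous_snd
  exact (h1.sub h2.continuousOn).pow 2

/-- `S_clo`, for smooth fields -/
theorem clo_aux : ∀ (Φ Ψ : Set (V → V)), (∀ w ∈ Ψ, ∀ i, SP (fun x => w x i)) →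
    ∀ (ν T : ℝ) (u : ℝ → V → V), IsPr Φ ν T u → ∀ t ∈ Ico 0 T,
    (∀ ε > 0, ∃ s ∈ Ico 0 T, |s - t| < ε ∧ InSpan Ψ (u s)) → InSpan Ψ (u t) := by
  intro Φ Ψ hΨ ν T u hu t ht h ε hε
  have hc := clo_cont hu ht t ht
  have h0 : (∑ i, ∫ x in cube, (u t x i - u t x i) ^ 2) = 0 := by
    simp
  obtain ⟨δ, hδ, hδ2⟩ := Metric.continuousWithinAt_iff.1 hc (ε / 4) (by positivity)
  obtain ⟨s, hs, hst, hin⟩ := h δ hδ
  have h1 := hδ2 hs (by rw [Real.dist_eq]; exact hst)
  rw [Real.dist_eq, h0, sub_zero] at h1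
  have h2 := lt_of_le_of_lt (le_abs_self _) h1
  obtain ⟨w, hw, h3⟩ := hin (ε / 4) (by positivity)
  refine ⟨w, hw, ?_⟩
  have hsp := fun i => clo_span hΨ hw i
  have key : ∀ i, ∫ x in cube, (u t x i - w x i) ^ 2 ≤
      2 * (∫ x in cube, (u s x i - w x i) ^ 2) + 2 * ∫ x in cube, (u s x i - u t x i) ^ 2 := by
    intro i
    have i1 : IntegrableOn (fun x => (u t x i - w x i) ^ 2) cube :=
      uni_sq (uni_sub (clo_sp hu ht i) (hsp i))
    have i2 : IntegrableOn (fun x => (u s x i - w x i) ^ 2) cube :=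
      uni_sq (uni_sub (clo_sp hu hs i) (hsp i))
    have i3 : IntegrableOn (fun x => (u s x i - u t x i) ^ 2) cube :=
      uni_sq (uni_sub (clo_sp hu hs i) (clo_sp hu ht i))
    rw [← integral_const_mul, ← integral_const_mul,
      ← integral_add (i2.const_mul 2) (i3.const_mul 2)]
    refine integral_mono i1 ((i2.const_mul 2).add (i3.const_mul 2)) fun x => ?_
    show (u t x i - w x i) ^ 2 ≤ 2 * (u s x i - w x i) ^ 2 + 2 * (u s x i - u t x i) ^ 2
    nlinarith [sq_nonneg ((u s x i - w x i) + (u s x i - u t x i))]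
  have h4 := Finset.sum_le_sum fun i (_ : i ∈ Finset.univ) => key i
  rw [Finset.sum_add_distrib, ← Finset.mul_sum, ← Finset.mul_sum] at h4
  linarith

theorem s_clo : S_clo := clo_aux

theorem s_tsh : S_tsh := by
  intro Φ ν T t₀ u hu ht₀
  have hin : ∀ t ∈ Ico 0 (T - t₀), t₀ + t ∈ Ico 0 T := fun t ht =>
    ⟨add_nonneg ht₀ ht.1, by linarith [ht.2]⟩
  refine ⟨?_, fun t ht => hu.per _ (hin t ht), fun t ht => hu.divfree _ (hin t ht),
    fun t ht => hu.mem _ (hin t ht), ?_⟩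
  · have h1 : ContDiff ℝ ∞ (fun z : ℝ × V => ((t₀ + z.1, z.2) : ℝ × V)) :=
      (contDiff_const.add contDiff_fst).prodMk contDiff_snd
    exact hu.smooth.comp h1.contDiffOn (fun z hz => ⟨hin _ hz.1, mem_univ _⟩)
  · intro t ht w hw
    have ht' : t₀ + t ∈ Ioo 0 T := ⟨by linarith [ht.1], by linarith [ht.2]⟩
    have e : ∀ (x : V) (i : Fin 3), deriv (fun s => u (t₀ + s) x i) t =
        deriv (fun s => u s x i) (t₀ + t) := fun x i =>
      deriv_comp_const_add (f := fun s => u s x i) t₀ t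
    simp only [e]
    exact hu.eq _ ht' w hw

end Pool.Agent.H226.GB
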