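import Pool.Agent.H226.GB.Spec

/-!
GB4, by helper294: from the Galerkin projected Navier-Stokes equations to the infinite system.
-/

open MeasureTheory Set Filter Topology
open scoped ContDiff
open H459R3.NS

namespace Pool.Agent.H226.GB

/-- smooth periodic fields -/
def RedSF (v : V → V) : Prop := ∀ i, SP (fun x => v x i)

theorem red_const_sp (s : ℝ) : SP (fun _ : V => s) where
  smooth := contDiff_const
  per := fun _ _ => rfl

theorem red_smul_sp {f : V → ℝ} (hf : SP f) (s : ℝ) : SP (fun x => s * f x) :=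
  (red_const_sp s).mul hf

theorem red_sub_sp {f g : V → ℝ} (hf : SP f) (hg : SP g) : SP (fun x => f x - g x) where
  smooth := hf.smooth.sub hg.smooth
  per := fun i x => by simp only [hf.per i x, hg.per i x]

/-- finite combinations of the fields -/
def red_comb (φ : ℕ → V → V) (b : ℕ → ℝ) (L : ℕ) : V → V :=
  fun x i => ∑ m ∈ Finset.range L, b m * φ m x i

theorem red_comb_sf {φ : ℕ → V → V} (hφ : ∀ m, RedSF (φ m)) (b : ℕ → ℝ) (L : ℕ) :
    RedSF (red_comb φ b L) := fun i => SP.sum fun m _ => red_smul_sp (hφ m i) (b m)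

theorem red_sub_sf {v w : V → V} (hv : RedSF v) (hw : RedSF w) : RedSF (fun x => v x - w x) :=
  fun i => red_sub_sp (hv i) (hw i)

/-- linearity of the integral -/
theorem red_int_sum {ι : Type*} (s : Finset ι) (b : ι → ℝ) {f : ι → V → ℝ} {g : V → ℝ}
    (hf : ∀ l, SP (f l)) (hg : SP g) :
    ∫ x in cube, (∑ l ∈ s, b l * f l x) * g x = ∑ l ∈ s, b l * ∫ x in cube, f l x * g x := by
  have h1 : ∀ x, (∑ l ∈ s, b l * f l x) * g x = ∑ l ∈ s, b l * (f l x * g x) := by
    intro x
    rw [Finset.sum_mul]
    exact Finset.sum_congr rfl fun l _ => by ring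
  simp_rw [h1]
  rw [integral_finsetSum _ fun l _ => (red_smul_sp ((hf l).mul hg) (b l)).int]
  exact Finset.sum_congr rfl fun l _ => integral_const_mul _ _

theorem red_ip_comm (v w : V → V) : ip v w = ip w v := by
  unfold ip
  refine Finset.sum_congr rfl fun i _ => ?_
  congr 1
  funext x
  ring

theorem red_ip_sub_left {v w z : V → V} (hv : RedSF v) (hw : RedSF w) (hz : RedSF z) :
    ip (fun x => v x - w x) z = ip v z - ip w z := by
  unfold ip
  rw [← Finset.sum_sub_distrib]
  refine Finset.sum_congr rfl fun i _ => ?_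
  rw [← integral_sub ((hv i).mul (hz i)).int ((hw i).mul (hz i)).int]
  congr 1
  funext x
  show (v x i - w x i) * z x i = v x i * z x i - w x i * z x i
  ring

theorem red_ip_comb_left {φ : ℕ → V → V} (hφ : ∀ m, RedSF (φ m)) (b : ℕ → ℝ) (L : ℕ) {z : V → V}
    (hz : RedSF z) :
    ip (red_comb φ b L) z = ∑ m ∈ Finset.range L, b m * ip (φ m) z := by
  unfold ip red_comb
  have h1 : ∀ i : Fin 3, ∫ x in cube, (∑ m ∈ Finset.range L, b m * φ m x i) * z x i
      = ∑ m ∈ Finset.range L, b m * ∫ x in cube, φ m x i * z x i := fun i =>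
    red_int_sum _ b (f := fun m x => φ m x i) (fun l => hφ l i) (hz i)
  simp_rw [h1]
  rw [Finset.sum_comm]
  exact Finset.sum_congr rfl fun m _ => (Finset.mul_sum _ _ _).symm

theorem red_ip_comb_right {φ : ℕ → V → V} (hφ : ∀ m, RedSF (φ m)) (b : ℕ → ℝ) (L : ℕ) {z : V → V}
    (hz : RedSF z) :
    ip z (red_comb φ b L) = ∑ m ∈ Finset.range L, b m * ip z (φ m) := by
  rw [red_ip_comm, red_ip_comb_left hφ b L hz]
  exact Finset.sum_congr rfl fun m _ => by rw [red_ip_comm]

theorem red_ip_self_nonneg (v : V → V) : 0 ≤ ip v v := by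
  unfold ip
  exact Finset.sum_nonneg fun i _ => integral_nonneg fun x => mul_self_nonneg _

theorem red_ip_sub_sub {v w : V → V} (hv : RedSF v) (hw : RedSF w) :
    ip (fun x => v x - w x) (fun x => v x - w x) = ip v v - 2 * ip v w + ip w w := by
  rw [red_ip_sub_left hv hw (red_sub_sf hv hw), red_ip_comm v, red_ip_comm w,
    red_ip_sub_left hv hw hv, red_ip_sub_left hv hw hw, red_ip_comm w v]
  ring

/-- an inequality of the type of Cauchy and Schwarz, from a pointwise one -/
theorem red_disc {A B C : ℝ} (h : ∀ s : ℝ, 0 ≤ A * (s * s) + (2 * B) * s + C) :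
    B ^ 2 ≤ A * C := by
  have := discrim_le_zero h
  unfold discrim at this
  nlinarith

/-- Cauchy-Schwarz -/
theorem red_cs {v w : V → V} (hv : RedSF v) (hw : RedSF w) :
    ip v w ^ 2 ≤ ip v v * ip w w := by
  apply red_disc
  intro s
  have e : ip v v * (s * s) + 2 * ip v w * s + ip w w
      = ∑ i, ∫ x in cube, (s * v x i + w x i) ^ 2 := by
    unfold ip
    rw [Finset.sum_mul, Finset.mul_sum, Finset.sum_mul, ← Finset.sum_add_distrib,
      ← Finset.sum_add_distrib]
    refine Finset.sum_congr rfl fun i _ => ?_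
    have h1 : ∀ x, (s * v x i + w x i) ^ 2
        = ((s * s) * (v x i * v x i) + (2 * s) * (v x i * w x i)) + w x i * w x i := fun x => by
      ring
    simp_rw [h1]
    rw [integral_add (SP.add (red_smul_sp ((hv i).mul (hv i)) _)
        (red_smul_sp ((hv i).mul (hw i)) _)).int ((hw i).mul (hw i)).int,
      integral_add (red_smul_sp ((hv i).mul (hv i)) _).int
        (red_smul_sp ((hv i).mul (hw i)) _).int, integral_const_mul, integral_const_mul]
    ring
  rw [e]
  exact Finset.sum_nonneg fun i _ => integral_nonneg fun x => sq_nonneg _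

/-! ### the trilinear form -/

theorem red_tri_sub_left {v v' w z : V → V} (hv : RedSF v) (hv' : RedSF v') (hw : RedSF w)
    (hz : RedSF z) : tri (fun x => v x - v' x) w z = tri v w z - tri v' w z := by
  unfold tri
  rw [← Finset.sum_sub_distrib]
  refine Finset.sum_congr rfl fun i _ => ?_
  rw [← Finset.sum_sub_distrib]
  refine Finset.sum_congr rfl fun j _ => ?_
  rw [← integral_sub (((hv i).mul (hw j)).mul ((hz j).pd i)).int
    (((hv' i).mul (hw j)).mul ((hz j).pd i)).int]
  congr 1
  funext x
  show (v x i - v' x i) * w x j * pd i (fun y => z y j) x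
    = v x i * w x j * pd i (fun y => z y j) x - v' x i * w x j * pd i (fun y => z y j) x
  ring

theorem red_tri_sub_mid {v w w' z : V → V} (hv : RedSF v) (hw : RedSF w) (hw' : RedSF w')
    (hz : RedSF z) : tri v (fun x => w x - w' x) z = tri v w z - tri v w' z := by
  unfold tri
  rw [← Finset.sum_sub_distrib]
  refine Finset.sum_congr rfl fun i _ => ?_
  rw [← Finset.sum_sub_distrib]
  refine Finset.sum_congr rfl fun j _ => ?_
  rw [← integral_sub (((hv i).mul (hw j)).mul ((hz j).pd i)).int
    (((hv i).mul (hw' j)).mul ((hz j).pd i)).int]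
  congr 1
  funext x
  show v x i * (w x j - w' x j) * pd i (fun y => z y j) x
    = v x i * w x j * pd i (fun y => z y j) x - v x i * w' x j * pd i (fun y => z y j) x
  ring

theorem red_swap (s : Finset ℕ) (f : Fin 3 → Fin 3 → ℕ → ℝ) :
    ∑ i, ∑ j, ∑ m ∈ s, f i j m = ∑ m ∈ s, ∑ i, ∑ j, f i j m := by
  rw [Finset.sum_comm (s := s)]
  exact Finset.sum_congr rfl fun i _ => Finset.sum_comm

theorem red_tri_comb_left {φ : ℕ → V → V} (hφ : ∀ m, RedSF (φ m)) (b : ℕ → ℝ) (L : ℕ)
    {w z : V → V} (hw : RedSF w) (hz : RedSF z) :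
    tri (red_comb φ b L) w z = ∑ m ∈ Finset.range L, b m * tri (φ m) w z := by
  unfold tri red_comb
  have h1 : ∀ i j : Fin 3, ∫ x in cube, (∑ m ∈ Finset.range L, b m * φ m x i) * w x j
        * pd i (fun y => z y j) x
      = ∑ m ∈ Finset.range L, b m * ∫ x in cube, φ m x i * w x j * pd i (fun y => z y j) x := by
    intro i j
    have := red_int_sum (Finset.range L) b (f := fun m x => φ m x i)
      (g := fun x => w x j * pd i (fun y => z y j) x) (fun l => hφ l i) ((hw j).mul ((hz j).pd i))
    simp_rw [mul_assoc] at this ⊢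
    exact this
  simp_rw [h1, Finset.mul_sum]
  exact red_swap _ _

/-- a finite combination in the second argument -/
theorem red_tri_comb_mid {φ : ℕ → V → V} (hφ : ∀ m, RedSF (φ m)) (b : ℕ → ℝ) (L : ℕ)
    {v z : V → V} (hv : RedSF v) (hz : RedSF z) :
    tri v (red_comb φ b L) z = ∑ m ∈ Finset.range L, b m * tri v (φ m) z := by
  unfold tri red_comb
  have h1 : ∀ i j : Fin 3, ∫ x in cube, v x i * (∑ m ∈ Finset.range L, b m * φ m x j)
        * pd i (fun y => z y j) x
      = ∑ m ∈ Finset.range L, b m * ∫ x in cube, v x i * φ m x j * pd i (fun y => z y j) x := by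
    intro i j
    have := red_int_sum (Finset.range L) b (f := fun m x => φ m x j)
      (g := fun x => v x i * pd i (fun y => z y j) x) (fun l => hφ l j) ((hv i).mul ((hz j).pd i))
    have e1 : ∀ x, v x i * (∑ m ∈ Finset.range L, b m * φ m x j) * pd i (fun y => z y j) x
        = (∑ m ∈ Finset.range L, b m * φ m x j) * (v x i * pd i (fun y => z y j) x) := fun x => by
      ring
    have e2 : ∀ m x, v x i * φ m x j * pd i (fun y => z y j) x
        = φ m x j * (v x i * pd i (fun y => z y j) x) := fun m x => by ring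
    simp_rw [e1, e2]
    exact this
  simp_rw [h1, Finset.mul_sum]
  exact red_swap _ _

theorem red_tri_bound {v w z : V → V} (hv : RedSF v) (hw : RedSF w) (hz : RedSF z) {B : ℝ}
    (hB : ∀ i j : Fin 3, ∀ x ∈ cube, |pd i (fun y => z y j) x| ≤ B) :
    tri v w z ^ 2 ≤ (3 * B * ip v v) * (3 * B * ip w w) := by
  apply red_disc
  intro s
  have h1 : ∀ i j : Fin 3, ∫ x in cube, (B * (s * s) * (v x i * v x i)
      + (2 * s) * (v x i * w x j * pd i (fun y => z y j) x) + B * (w x j * w x j))
      = B * (s * s) * (∫ x in cube, v x i * v x i)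
        + (2 * s) * (∫ x in cube, v x i * w x j * pd i (fun y => z y j) x)
        + B * ∫ x in cube, w x j * w x j := by
    intro i j
    have i1 := red_smul_sp ((hv i).mul (hv i)) (B * (s * s))
    have i2 := red_smul_sp (((hv i).mul (hw j)).mul ((hz j).pd i)) (2 * s)
    have i3 := red_smul_sp ((hw j).mul (hw j)) B
    rw [integral_add (i1.add i2).int i3.int, integral_add i1.int i2.int, integral_const_mul,
      integral_const_mul, integral_const_mul]
  have e : (3 * B * ip v v) * (s * s) + 2 * tri v w z * s + 3 * B * ip w w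
     = ∑ i, ∑ j, ∫ x in cube, (B * (s * s) * (v x i * v x i)
      + (2 * s) * (v x i * w x j * pd i (fun y => z y j) x) + B * (w x j * w x j)) := by
    simp_rw [h1]
    unfold ip tri
    simp only [Fin.sum_univ_three]
    ring
  rw [e]
  refine Finset.sum_nonneg fun i _ => Finset.sum_nonneg fun j _ =>
    setIntegral_nonneg measurableSet_Icc fun x hx => ?_
  have h2 := abs_le.1 (hB i j x hx)
  nlinarith [mul_nonneg (sub_nonneg.2 h2.2) (sq_nonneg (s * v x i - w x j)),
    mul_nonneg (by linarith [h2.1] : 0 ≤ B + pd i (fun y => z y j) x)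
      (sq_nonneg (s * v x i + w x j))]

/-- gradients are bounded on the cell -/
theorem red_bound {z : V → V} (hz : RedSF z) :
    ∃ B, 0 ≤ B ∧ ∀ i j : Fin 3, ∀ x ∈ cube, |pd i (fun y => z y j) x| ≤ B := by
  have h1 : ∀ i j : Fin 3, ∃ B, ∀ x ∈ cube, ‖pd i (fun y => z y j) x‖ ≤ B := fun i j =>
    (isCompact_Icc (a := (0 : V)) (b := 1)).exists_bound_of_continuousOn
      ((hz j).pd i).cont.continuousOn
  choose B hB using h1
  refine ⟨∑ i, ∑ j, |B i j|, by positivity, fun i j x hx => ?_⟩
  calc |pd i (fun y => z y j) x| ≤ B i j := hB i j x hx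
    _ ≤ |B i j| := le_abs_self _
    _ ≤ ∑ j, |B i j| := Finset.single_le_sum (f := fun j => |B i j|) (fun j _ => abs_nonneg _)
        (Finset.mem_univ j)
    _ ≤ ∑ i, ∑ j, |B i j| := Finset.single_le_sum (f := fun i => ∑ j, |B i j|)
        (fun i _ => by positivity) (Finset.mem_univ i)

/-! ### the form `gip` -/

/-- the Laplacian of a field -/
noncomputable def red_lap (z : V → V) : V → V := fun x i => lap (fun y => z y i) x

theorem red_lap_sf {z : V → V} (hz : RedSF z) : RedSF (red_lap z) := fun i => (hz i).lap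

theorem red_gip_eq {v z : V → V} (hv : RedSF v) (hz : RedSF z) :
    gip v z = -ip v (red_lap z) := by
  unfold gip ip red_lap
  rw [← Finset.sum_neg_distrib]
  refine Finset.sum_congr rfl fun i _ => ?_
  have h := int_lap_mul (hz i) (hv i)
  have e : ∫ x in cube, v x i * lap (fun y => z y i) x
      = ∫ x in cube, lap (fun y => z y i) x * v x i := by
    congr 1
    funext x
    ring
  rw [e, h, neg_neg]
  refine Finset.sum_congr rfl fun j _ => ?_
  congr 1
  funext x
  ring

theorem red_gip_comm (v z : V → V) : gip v z = gip z v := by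
  unfold gip
  refine Finset.sum_congr rfl fun i _ => Finset.sum_congr rfl fun j _ => ?_
  congr 1
  funext x
  ring

theorem red_gip_self_nonneg (v : V → V) : 0 ≤ gip v v := by
  unfold gip
  exact Finset.sum_nonneg fun i _ => Finset.sum_nonneg fun j _ =>
    integral_nonneg fun x => mul_self_nonneg _

theorem red_gip_comb {φ : ℕ → V → V} (hφ : ∀ m, RedSF (φ m)) (b : ℕ → ℝ) (L : ℕ) {z : V → V}
    (hz : RedSF z) :
    gip (red_comb φ b L) z = ∑ m ∈ Finset.range L, b m * gip (φ m) z := by
  rw [red_gip_eq (red_comb_sf hφ b L) hz, red_ip_comb_left hφ b L (red_lap_sf hz),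
    ← Finset.sum_neg_distrib]
  refine Finset.sum_congr rfl fun m _ => ?_
  rw [red_gip_eq (hφ m) hz]
  ring

theorem red_gip_sub_left {v w z : V → V} (hv : RedSF v) (hw : RedSF w) (hz : RedSF z) :
    gip (fun x => v x - w x) z = gip v z - gip w z := by
  rw [red_gip_eq (red_sub_sf hv hw) hz, red_gip_eq hv hz, red_gip_eq hw hz,
    red_ip_sub_left hv hw (red_lap_sf hz)]
  ring

theorem red_gip_sub_sub {v w : V → V} (hv : RedSF v) (hw : RedSF w) :
    gip (fun x => v x - w x) (fun x => v x - w x) = gip v v - 2 * gip v w + gip w w := by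
  rw [red_gip_sub_left hv hw (red_sub_sf hv hw), red_gip_comm v, red_gip_comm w,
    red_gip_sub_left hv hw hv, red_gip_sub_left hv hw hw, red_gip_comm w v]
  ring


/-! ### the finite sums of the expansion -/

/-- the closure condition -/
def RedMem (φ : ℕ → V → V) (v : V → V) : Prop := ∀ ε > 0, ∃ (L : ℕ) (a : ℕ → ℝ),
    ∑ i, ∫ x in cube, (v x i - ∑ m ∈ Finset.range L, a m * φ m x i) ^ 2 < ε

/-- the finite sums of the expansion of `v` -/
noncomputable def red_ps (φ : ℕ → V → V) (v : V → V) (L : ℕ) : V → V := red_comb φ (fun m => ip v (φ m)) L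

section fixed

variable {φ : ℕ → V → V} (hφ : ∀ m, RedSF (φ m))
  (on : ∀ m n, ip (φ m) (φ n) = if m = n then 1 else 0)
  {v : V → V} (hv : RedSF v) (mem : RedMem φ v)

include hφ in
theorem red_ps_sf (v : V → V) (L : ℕ) : RedSF (red_ps φ v L) := red_comb_sf hφ _ L

include hφ on in
theorem red_comb_ip (b : ℕ → ℝ) (L : ℕ) :
    ip (red_comb φ b L) (red_comb φ b L) = ∑ m ∈ Finset.range L, b m ^ 2 := by
  rw [red_ip_comb_left hφ b L (red_comb_sf hφ b L)]
  refine Finset.sum_congr rfl fun m hm => ?_
  rw [red_ip_comb_right hφ b L (hφ m)]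
  simp_rw [on]
  simp only [mul_ite, mul_one, mul_zero, Finset.sum_ite_eq, hm, if_true]
  ring

include hφ on hv in
theorem red_pyth (b : ℕ → ℝ) (L : ℕ) :
    ip (fun x => v x - red_comb φ b L x) (fun x => v x - red_comb φ b L x)
      = ip v v - ∑ m ∈ Finset.range L, ip v (φ m) ^ 2
        + ∑ m ∈ Finset.range L, (b m - ip v (φ m)) ^ 2 := by
  rw [red_ip_sub_sub hv (red_comb_sf hφ b L), red_comb_ip hφ on, red_ip_comb_right hφ b L hv,
    Finset.mul_sum]
  have e : ∑ m ∈ Finset.range L, (b m - ip v (φ m)) ^ 2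
      = ∑ m ∈ Finset.range L, b m ^ 2 - ∑ m ∈ Finset.range L, 2 * (b m * ip v (φ m))
        + ∑ m ∈ Finset.range L, ip v (φ m) ^ 2 := by
    rw [← Finset.sum_sub_distrib, ← Finset.sum_add_distrib]
    exact Finset.sum_congr rfl fun m _ => by ring
  rw [e]
  ring

include hφ on hv in
theorem red_res (L : ℕ) :
    ip (fun x => v x - red_ps φ v L x) (fun x => v x - red_ps φ v L x)
      = ip v v - ∑ m ∈ Finset.range L, ip v (φ m) ^ 2 := by
  unfold red_ps
  rw [red_pyth hφ on hv]
  simp

include hφ on hv in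
theorem red_bessel (L : ℕ) : ∑ m ∈ Finset.range L, ip v (φ m) ^ 2 ≤ ip v v := by
  have := red_ip_self_nonneg (fun x => v x - red_ps φ v L x)
  rw [red_res hφ on hv] at this
  linarith

include hφ on hv mem in
theorem red_sum : HasSum (fun m => ip v (φ m) ^ 2) (ip v v) := by
  rw [hasSum_iff_tendsto_nat_of_nonneg fun m => sq_nonneg _]
  rw [Metric.tendsto_atTop]
  intro ε hε
  obtain ⟨L, b, h⟩ := mem ε hε
  refine ⟨L, fun n hn => ?_⟩
  have h1 : ∑ i, ∫ x in cube, (v x i - ∑ m ∈ Finset.range L, b m * φ m x i) ^ 2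
      = ip (fun x => v x - red_comb φ b L x) (fun x => v x - red_comb φ b L x) := by
    unfold ip red_comb
    refine Finset.sum_congr rfl fun i _ => ?_
    congr 1
    funext x
    show _ = (v x i - ∑ m ∈ Finset.range L, b m * φ m x i)
      * (v x i - ∑ m ∈ Finset.range L, b m * φ m x i)
    ring
  rw [h1, red_pyth hφ on hv] at h
  have h2 : 0 ≤ ∑ m ∈ Finset.range L, (b m - ip v (φ m)) ^ 2 :=
    Finset.sum_nonneg fun m _ => sq_nonneg _
  have h3 : ∑ m ∈ Finset.range L, ip v (φ m) ^ 2 ≤ ∑ m ∈ Finset.range n, ip v (φ m) ^ 2 :=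
    Finset.sum_le_sum_of_subset_of_nonneg (Finset.range_mono hn) fun m _ _ => sq_nonneg _
  have h4 := red_bessel hφ on hv n
  rw [Real.dist_eq, abs_lt]
  constructor <;> linarith

include hφ on hv mem in
/-- the remainders tend to zero -/
theorem red_res_tendsto : Tendsto (fun L =>
    ip (fun x => v x - red_ps φ v L x) (fun x => v x - red_ps φ v L x)) atTop (𝓝 0) := by
  have h := (red_sum hφ on hv mem).tendsto_sum_nat
  have h2 := (tendsto_const_nhds (x := ip v v)).sub h
  rw [sub_self] at h2
  exact h2.congr fun L => (red_res hφ on hv L).symm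

theorem red_squeeze {x E : ℕ → ℝ} {C : ℝ} (h : ∀ L, x L ^ 2 ≤ C * E L)
    (hE : Tendsto E atTop (𝓝 0)) : Tendsto x atTop (𝓝 0) := by
  have h1 : Tendsto (fun L => C * E L) atTop (𝓝 0) := by
    have := hE.const_mul C
    rwa [mul_zero] at this
  have h2 : Tendsto (fun L => x L ^ 2) atTop (𝓝 0) :=
    squeeze_zero (fun L => sq_nonneg _) h h1
  have h3 : Tendsto (fun L => Real.sqrt (x L ^ 2)) atTop (𝓝 (Real.sqrt 0)) :=
    (Real.continuous_sqrt.tendsto 0).comp h2
  rw [Real.sqrt_zero] at h3
  simp_rw [Real.sqrt_sq_eq_abs] at h3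
  exact (tendsto_zero_iff_abs_tendsto_zero _).2 h3

include hφ on hv mem in
theorem red_ip_tendsto {w : V → V} (hw : RedSF w) :
    Tendsto (fun L => ip (red_ps φ v L) w) atTop (𝓝 (ip v w)) := by
  have h : Tendsto (fun L => ip (fun x => v x - red_ps φ v L x) w) atTop (𝓝 0) := by
    refine red_squeeze (C := ip w w) (fun L => ?_) (red_res_tendsto hφ on hv mem)
    have := red_cs (red_sub_sf hv (red_ps_sf hφ v L)) hw
    rwa [mul_comm] at this
  have h2 := (tendsto_const_nhds (x := ip v w)).sub h
  rw [sub_zero] at h2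
  refine h2.congr fun L => ?_
  rw [red_ip_sub_left hv (red_ps_sf hφ v L) hw]
  ring

include hφ on hv mem in
/-- what is orthogonal to all fields of the basis, is orthogonal to `v` -/
theorem red_ip_zero {w : V → V} (hw : RedSF w) (h : ∀ m, ip (φ m) w = 0) : ip v w = 0 := by
  refine tendsto_nhds_unique (red_ip_tendsto hφ on hv mem hw) ?_
  have : (fun L => ip (red_ps φ v L) w) = fun _ => 0 := by
    funext L
    unfold red_ps
    rw [red_ip_comb_left hφ _ L hw]
    exact Finset.sum_eq_zero fun m _ => by rw [h m, mul_zero]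
  rw [this]
  exact tendsto_const_nhds

include hφ on hv mem in
theorem red_tri_tendsto {z : V → V} (hz : RedSF z) :
    Tendsto (fun L => tri (red_ps φ v L) (red_ps φ v L) z) atTop (𝓝 (tri v v z)) := by
  obtain ⟨B, hB0, hB⟩ := red_bound hz
  have hE := red_res_tendsto hφ on hv mem
  have hvv := red_ip_self_nonneg v
  have h1 : Tendsto (fun L => tri (fun x => v x - red_ps φ v L x) v z) atTop (𝓝 0) := by
    refine red_squeeze (C := 3 * B * (3 * B * ip v v)) (fun L => ?_) hE
    have := red_tri_bound (red_sub_sf hv (red_ps_sf hφ v L)) hv hz hB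
    refine this.trans (le_of_eq ?_)
    ring
  have h2 : Tendsto (fun L => tri (red_ps φ v L) (fun x => v x - red_ps φ v L x) z) atTop
      (𝓝 0) := by
    refine red_squeeze (C := 3 * B * (3 * B * ip v v)) (fun L => ?_) hE
    have h3 := red_tri_bound (red_ps_sf hφ v L) (red_sub_sf hv (red_ps_sf hφ v L)) hz hB
    refine h3.trans ?_
    have h4 : ip (red_ps φ v L) (red_ps φ v L) ≤ ip v v := by
      unfold red_ps
      rw [red_comb_ip hφ on]
      exact red_bessel hφ on hv L
    have h5 := red_ip_self_nonneg (fun x => v x - red_ps φ v L x)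
    have h6 : 0 ≤ 3 * B * (3 * B * ip (fun x => v x - red_ps φ v L x)
        (fun x => v x - red_ps φ v L x)) := by positivity
    nlinarith [mul_le_mul_of_nonneg_left h4 h6]
  have h3 := ((tendsto_const_nhds (x := tri v v z)).sub h1).sub h2
  rw [sub_zero, sub_zero] at h3
  refine h3.congr fun L => ?_
  rw [red_tri_sub_left hv (red_ps_sf hφ v L) hv hz,
    red_tri_sub_mid (red_ps_sf hφ v L) hv (red_ps_sf hφ v L) hz]
  ring

variable {g : ℕ → ℝ} (gon : ∀ m n, gip (φ m) (φ n) = if m = n then g m else 0)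

include gon in
theorem red_g_nonneg (m : ℕ) : 0 ≤ g m := by
  have := red_gip_self_nonneg (φ m)
  rwa [gon, if_pos rfl] at this

include hφ on hv mem gon in
theorem red_gip_phi (m : ℕ) : gip v (φ m) = g m * ip v (φ m) := by
  rw [red_gip_eq hv (hφ m)]
  have h1 := red_ip_tendsto hφ on hv mem (red_lap_sf (hφ m))
  have h2 : Tendsto (fun L => ip (red_ps φ v L) (red_lap (φ m))) atTop
      (𝓝 (-(g m * ip v (φ m)))) := by
    refine tendsto_const_nhds.congr' ?_
    filter_upwards [eventually_gt_atTop m] with L hL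
    unfold red_ps
    rw [red_ip_comb_left hφ _ L (red_lap_sf (hφ m))]
    have h3 : ∀ n, ip (φ n) (red_lap (φ m)) = -(if n = m then g n else 0) := by
      intro n
      rw [← gon, red_gip_eq (hφ n) (hφ m), neg_neg]
    simp_rw [h3]
    rw [Finset.sum_eq_single m]
    · rw [if_pos rfl]; ring
    · intro n _ hn
      rw [if_neg hn]; ring
    · intro h
      exact absurd (Finset.mem_range.2 hL) h
  rw [tendsto_nhds_unique h1 h2, neg_neg]

include hφ on hv mem gon in
theorem red_gip_le (L : ℕ) : ∑ m ∈ Finset.range L, g m * ip v (φ m) ^ 2 ≤ gip v v := by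
  have h0 := red_gip_self_nonneg (fun x => v x - red_ps φ v L x)
  rw [red_gip_sub_sub hv (red_ps_sf hφ v L)] at h0
  have h1 : gip v (red_ps φ v L) = ∑ m ∈ Finset.range L, g m * ip v (φ m) ^ 2 := by
    rw [red_gip_comm]
    unfold red_ps
    rw [red_gip_comb hφ _ L hv]
    refine Finset.sum_congr rfl fun m _ => ?_
    rw [red_gip_comm, red_gip_phi hφ on hv mem gon]
    ring
  have h2 : gip (red_ps φ v L) (red_ps φ v L)
      = ∑ m ∈ Finset.range L, g m * ip v (φ m) ^ 2 := by
    unfold red_ps
    rw [red_gip_comb hφ _ L (red_comb_sf hφ _ L)]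
    refine Finset.sum_congr rfl fun m hm => ?_
    rw [red_gip_comm, red_gip_comb hφ _ L (hφ m)]
    simp_rw [gon]
    simp only [mul_ite, mul_zero, Finset.sum_ite_eq', hm, if_true]
    ring
  rw [h1, h2] at h0
  linarith

end fixed


/-! ### the couplings -/

theorem red_dsum {c : ℕ → ℕ → ℝ} {p a : ℕ → ℝ} {t : ℕ → ℕ → ℝ} {m L : ℕ} (hL : m + 1 < L)
    (ht : ∀ i j, t i j = (if j < m ∧ i = m then c j m else 0)
      - (if m < j ∧ i = j then c m j else 0) + (if i = j ∧ m = i + 1 then p i else 0)
      - (if i = m ∧ j = i + 1 then p m else 0)) :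
    ∑ i ∈ Finset.range L, a i * ∑ j ∈ Finset.range L, a j * t i j
      = a m * ∑ n ∈ Finset.range m, c n m * a n
        - ∑ l ∈ Finset.range L, (if m < l then c m l * a l ^ 2 else 0)
        + (if m = 0 then 0 else p (m - 1) * a (m - 1) ^ 2) - p m * a m * a (m + 1) := by
  have key : ∀ i j, a i * (a j * t i j)
      = (if i = m then (if j < m then a m * (c j m * a j) else 0) else 0)
        - (if i = j then (if m < j then c m j * a j ^ 2 else 0) else 0)
        + (if i = j then (if j = m - 1 then (if m = 0 then 0 else p (m - 1) * a (m - 1) ^ 2)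
            else 0) else 0)
        - (if i = m then (if j = m + 1 then p m * a m * a (m + 1) else 0) else 0) := by
    intro i j
    rw [ht]
    have e1 : a i * (a j * (if j < m ∧ i = m then c j m else 0))
        = if i = m then (if j < m then a m * (c j m * a j) else 0) else 0 := by
      by_cases h1 : i = m
      · subst h1
        by_cases h2 : j < i
        · simp only [h2, if_true, and_self]; ring
        · simp [h2]
      · simp [h1]
    have e2 : a i * (a j * (if m < j ∧ i = j then c m j else 0))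
        = if i = j then (if m < j then c m j * a j ^ 2 else 0) else 0 := by
      by_cases h1 : i = j
      · subst h1
        by_cases h2 : m < i
        · simp only [h2, if_true, and_self]; ring
        · simp [h2]
      · simp [h1]
    have e3 : a i * (a j * (if i = j ∧ m = i + 1 then p i else 0))
        = if i = j then (if j = m - 1 then (if m = 0 then 0 else p (m - 1) * a (m - 1) ^ 2)
            else 0) else 0 := by
      by_cases h1 : i = j
      · subst h1
        by_cases h2 : m = i + 1
        · subst h2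
          simp only [and_self, if_true, Nat.add_sub_cancel, Nat.succ_ne_zero, if_false]
          ring
        · by_cases h3 : m = 0
          · simp [h3]
          · have h4 : i ≠ m - 1 := by omega
            simp [h2, h4]
      · simp [h1]
    have e4 : a i * (a j * (if i = m ∧ j = i + 1 then p m else 0))
        = if i = m then (if j = m + 1 then p m * a m * a (m + 1) else 0) else 0 := by
      by_cases h1 : i = m
      · subst h1
        by_cases h2 : j = i + 1
        · subst h2
          simp only [and_self, if_true]; ring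
        · simp [h2]
      · simp [h1]
    rw [← e1, ← e2, ← e3, ← e4]
    ring
  simp_rw [Finset.mul_sum, key, Finset.sum_sub_distrib, Finset.sum_add_distrib,
    Finset.sum_sub_distrib]
  have hm : m ∈ Finset.range L := Finset.mem_range.2 (by omega)
  have hm' : m + 1 ∈ Finset.range L := Finset.mem_range.2 (by omega)
  have hm'' : m - 1 ∈ Finset.range L := Finset.mem_range.2 (by omega)
  have s1 : ∑ i ∈ Finset.range L, ∑ j ∈ Finset.range L,
      (if i = m then (if j < m then a m * (c j m * a j) else 0) else 0)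
      = ∑ n ∈ Finset.range m, a m * (c n m * a n) := by
    rw [Finset.sum_comm]
    simp only [Finset.sum_ite_eq', hm, if_true]
    rw [← Finset.sum_filter]
    refine Finset.sum_congr ?_ fun _ _ => rfl
    ext n
    simp only [Finset.mem_filter, Finset.mem_range]
    omega
  have s2 : ∑ i ∈ Finset.range L, ∑ j ∈ Finset.range L,
      (if i = j then (if m < j then c m j * a j ^ 2 else 0) else 0)
      = ∑ l ∈ Finset.range L, (if m < l then c m l * a l ^ 2 else 0) := by
    refine Finset.sum_congr rfl fun i hi => ?_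
    rw [Finset.sum_ite_eq, if_pos hi]
  have s3 : ∑ i ∈ Finset.range L, ∑ j ∈ Finset.range L,
      (if i = j then (if j = m - 1 then (if m = 0 then 0 else p (m - 1) * a (m - 1) ^ 2)
            else 0) else 0) = if m = 0 then 0 else p (m - 1) * a (m - 1) ^ 2 := by
    have : ∀ i ∈ Finset.range L, ∑ j ∈ Finset.range L,
      (if i = j then (if j = m - 1 then (if m = 0 then 0 else p (m - 1) * a (m - 1) ^ 2)
            else 0) else 0) = if i = m - 1 then (if m = 0 then 0 else p (m - 1) * a (m - 1) ^ 2)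
            else 0 := by
      intro i hi
      rw [Finset.sum_ite_eq, if_pos hi]
    rw [Finset.sum_congr rfl this, Finset.sum_ite_eq', if_pos hm'']
  have s4 : ∑ i ∈ Finset.range L, ∑ j ∈ Finset.range L,
      (if i = m then (if j = m + 1 then p m * a m * a (m + 1) else 0) else 0)
      = p m * a m * a (m + 1) := by
    rw [Finset.sum_comm]
    simp only [Finset.sum_ite_eq', hm, hm', if_true]
  rw [s1, s2, s3, s4]

section fixed

variable {φ : ℕ → V → V} {c : ℕ → ℕ → ℝ} {p g : ℕ → ℝ} (H : Basis φ c p g)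
  {v : V → V} (hv : RedSF v) (mem : RedMem φ v)

include H in
theorem red_basis_sf (m : ℕ) : RedSF (φ m) := H.sp m

include H in
theorem red_tri_ps (v : V → V) {m L : ℕ} (hL : m + 1 < L) :
    tri (red_ps φ v L) (red_ps φ v L) (φ m)
      = ip v (φ m) * ∑ n ∈ Finset.range m, c n m * ip v (φ n)
        - ∑ l ∈ Finset.range L, (if m < l then c m l * ip v (φ l) ^ 2 else 0)
        + (if m = 0 then 0 else p (m - 1) * ip v (φ (m - 1)) ^ 2)
        - p m * ip v (φ m) * ip v (φ (m + 1)) := by
  have hφ := red_basis_sf H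
  have h := red_tri_comb_left hφ (fun m => ip v (φ m)) L (red_ps_sf hφ v L) (hφ m)
  have h2 : ∀ i, tri (φ i) (red_ps φ v L) (φ m)
      = ∑ j ∈ Finset.range L, ip v (φ j) * tri (φ i) (φ j) (φ m) := fun i =>
    red_tri_comb_mid hφ (fun m => ip v (φ m)) L (hφ i) (hφ m)
  simp_rw [h2] at h
  exact h.trans (red_dsum (a := fun m => ip v (φ m)) (t := fun i j => tri (φ i) (φ j) (φ m)) hL
    fun i j => H.tri_eq i j m)

include H hv mem in
theorem red_summable (hc : ∀ n, ∃ C, ∀ l, |c n l| ≤ C) (m : ℕ) :
    Summable fun l => if m < l then c m l * ip v (φ l) ^ 2 else 0 := by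
  have hφ := red_basis_sf H
  obtain ⟨C, hC⟩ := hc m
  have hs := (red_sum hφ H.on hv mem).summable.mul_left C
  refine Summable.of_norm_bounded hs fun l => ?_
  have h0 : 0 ≤ C := (abs_nonneg _).trans (hC l)
  split_ifs with h
  · rw [norm_mul, Real.norm_eq_abs, Real.norm_eq_abs, abs_of_nonneg (sq_nonneg (ip v (φ l)))]
    exact mul_le_mul_of_nonneg_right (hC l) (sq_nonneg _)
  · rw [norm_zero]
    exact mul_nonneg h0 (sq_nonneg _)

include H hv mem in
theorem red_tri_val (hc : ∀ n, ∃ C, ∀ l, |c n l| ≤ C) (m : ℕ) :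
    tri v v (φ m) = ip v (φ m) * ∑ n ∈ Finset.range m, c n m * ip v (φ n)
        - ∑' l, (if m < l then c m l * ip v (φ l) ^ 2 else 0)
        + (if m = 0 then 0 else p (m - 1) * ip v (φ (m - 1)) ^ 2)
        - p m * ip v (φ m) * ip v (φ (m + 1)) := by
  have hφ := red_basis_sf H
  have h1 := red_tri_tendsto hφ H.on hv mem (hφ m)
  have h2 := (red_summable H hv mem hc m).hasSum.tendsto_sum_nat
  have h3 := (((tendsto_const_nhds (x := ip v (φ m) *
    ∑ n ∈ Finset.range m, c n m * ip v (φ n))).sub h2).add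
    (tendsto_const_nhds (x := if m = 0 then 0 else p (m - 1) * ip v (φ (m - 1)) ^ 2))).sub
    (tendsto_const_nhds (x := p m * ip v (φ m) * ip v (φ (m + 1))))
  refine tendsto_nhds_unique h1 (h3.congr' ?_)
  filter_upwards [eventually_gt_atTop (m + 1)] with L hL
  rw [red_tri_ps H v hL]

/-- the convection term -/
theorem red_conv_ip (hv : RedSF v) (hdiv : ∀ x, ∑ i, pd i (fun y => v y i) x = 0) {z : V → V}
    (hz : RedSF z) :
    ∑ i, ∫ x in cube, (∑ j, v x j * pd j (fun y => v y i) x) * z x i = -tri v v z := by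
  have h1 : ∀ i : Fin 3, ∫ x in cube, (∑ j, v x j * pd j (fun y => v y i) x) * z x i
      = ∑ j, ∫ x in cube, pd j (fun y => v y i) x * (v x j * z x i) := by
    intro i
    rw [← integral_finsetSum _ fun j _ => (((hv i).pd j).mul ((hv j).mul (hz i))).int]
    congr 1
    funext x
    rw [Finset.sum_mul]
    exact Finset.sum_congr rfl fun j _ => by ring
  have h2 : ∀ i j : Fin 3, ∫ x in cube, pd j (fun y => v y i) x * (v x j * z x i)
      = -(∫ x in cube, v x i * (v x j * pd j (fun y => z y i) x))
        - ∫ x in cube, v x i * z x i * pd j (fun y => v y j) x := by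
    intro i j
    rw [ibp (hv i) ((hv j).mul (hz i)) j]
    have e : ∀ x, v x i * pd j (fun y => v y j * z y i) x
        = v x i * (v x j * pd j (fun y => z y i) x) + v x i * z x i * pd j (fun y => v y j) x := by
      intro x
      rw [pd_mul (hv j) (hz i)]
      ring
    simp_rw [e]
    rw [integral_add ((hv i).mul ((hv j).mul ((hz i).pd j))).int
      (((hv i).mul (hz i)).mul ((hv j).pd j)).int]
    ring
  simp_rw [h1, h2, Finset.sum_sub_distrib, Finset.sum_neg_distrib]
  have h3 : ∀ i : Fin 3, ∑ j, ∫ x in cube, v x i * z x i * pd j (fun y => v y j) x = 0 := by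
    intro i
    rw [← integral_finsetSum _ fun j _ => (((hv i).mul (hz i)).mul ((hv j).pd j)).int]
    simp_rw [← Finset.mul_sum, hdiv]
    simp
  simp_rw [h3]
  rw [Finset.sum_const_zero, sub_zero]
  congr 1
  unfold tri
  rw [Finset.sum_comm]
  refine Finset.sum_congr rfl fun i _ => Finset.sum_congr rfl fun j _ => ?_
  congr 1
  funext x
  ring

end fixed


/-! ### dependence on time -/

section time

variable {T : ℝ} {u : ℝ → V → V}
  (hs : ContDiffOn ℝ ∞ (fun z : ℝ × V => u z.1 z.2) (Ico 0 T ×ˢ univ))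
  (hp : ∀ t ∈ Ico 0 T, Per (u t))

include hs in
theorem red_comp (i : Fin 3) :
    ContDiffOn ℝ ∞ (fun z : ℝ × V => (fun (s : ℝ) (x : V) => u s x i) z.1 z.2)
      (Ico 0 T ×ˢ univ) := contDiffOn_pi.1 hs i

include hs hp in
theorem red_slice {t : ℝ} (ht : t ∈ Ico 0 T) : RedSF (u t) := fun i =>
  ⟨contDiff_slice (f := fun s x => u s x i) (red_comp hs i) ht, fun j x => by
    show u t (x + Pi.single j 1) i = u t x i
    rw [hp t ht j x]⟩

include hs in
theorem red_ip_cont {z : V → V} (hz : RedSF z) : ContinuousOn (fun t => ip (u t) z) (Ico 0 T) := by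
  unfold ip
  refine continuousOn_finsetSum _ fun i _ => ?_
  refine continuousOn_int (F := fun s x => u s x i * z x i) ?_
  exact (red_comp hs i).continuousOn.mul ((hz i).cont.comp continuous_snd).continuousOn

include hs in
theorem red_S_cont : ContinuousOn (fun t => ip (u t) (u t)) (Ico 0 T) := by
  unfold ip
  refine continuousOn_finsetSum _ fun i _ => ?_
  refine continuousOn_int (F := fun s x => u s x i * u s x i) ?_
  exact (red_comp hs i).continuousOn.mul (red_comp hs i).continuousOn

include hs in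
theorem red_gip_cont : ContinuousOn (fun t => gip (u t) (u t)) (Ico 0 T) := by
  unfold gip
  refine continuousOn_finsetSum _ fun i _ => continuousOn_finsetSum _ fun j _ => ?_
  refine continuousOn_int (F := fun s x => pd j (fun y => u s y i) x * pd j (fun y => u s y i) x) ?_
  have := (contDiffOn_pd (f := fun s x => u s x i) (red_comp hs i) j).continuousOn
  exact this.mul this

/-- the derivative with respect to time -/
noncomputable def red_dt (u : ℝ → V → V) (t : ℝ) : V → V := fun x i => deriv (fun s => u s x i) t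

include hs hp in
theorem red_dt_sf {t : ℝ} (ht : t ∈ Ioo 0 T) : RedSF (red_dt u t) := fun i =>
  ⟨contDiff_dt (f := fun s x => u s x i) (red_comp hs i) ht, fun j x => by
    show deriv (fun s => u s (x + Pi.single j 1) i) t = deriv (fun s => u s x i) t
    refine Filter.EventuallyEq.deriv_eq ?_
    filter_upwards [Ioo_mem_nhds ht.1 ht.2] with s hs'
    rw [hp s ⟨hs'.1.le, hs'.2⟩ j x]⟩

include hs in
theorem red_ip_der {z : V → V} (hz : RedSF z) {t : ℝ} (ht : t ∈ Ioo 0 T) :
    HasDerivAt (fun t => ip (u t) z) (ip (red_dt u t) z) t := by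
  unfold ip
  refine HasDerivAt.fun_sum fun i _ => ?_
  have h1 := hasDerivAt_int (F := fun s x => u s x i * z x i) (T := T) ?_ ht
  · have e : ∀ x, deriv (fun s => u s x i * z x i) t = red_dt u t x i * z x i := fun x => by
      rw [deriv_mul_const_field]
      rfl
    simp_rw [e] at h1
    exact h1
  · exact (mono_Ioo (f := fun s x => u s x i) (red_comp hs i) (by norm_cast)).mul
      (((hz i).smooth.of_le (by norm_cast)).comp contDiff_snd).contDiffOn

include hs in
theorem red_S_der {t : ℝ} (ht : t ∈ Ioo 0 T) :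
    HasDerivAt (fun t => ip (u t) (u t)) (2 * ip (red_dt u t) (u t)) t := by
  unfold ip
  rw [Finset.mul_sum]
  refine HasDerivAt.fun_sum fun i _ => ?_
  have hm : ContDiffOn ℝ 1 (fun z : ℝ × V => (fun (s : ℝ) (x : V) => u s x i) z.1 z.2)
    (Ioo 0 T ×ˢ univ) := mono_Ioo (f := fun s x => u s x i) (red_comp hs i) (by norm_cast)
  have h1 := hasDerivAt_int (F := fun s x => u s x i * u s x i) (T := T) (hm.mul hm) ht
  have e : ∀ x, deriv (fun s => u s x i * u s x i) t = 2 * (red_dt u t x i * u t x i) := fun x => by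
    have h2 := hasDerivAt_slice (F := fun s x => u s x i) hm ht x
    have h3 := (h2.mul h2).deriv
    have h4 := h2.deriv
    have h5 : red_dt u t x i = fderiv ℝ (fun z : ℝ × V => u z.1 z.2 i) (t, x) (1, 0) := h4
    have h6 : deriv (fun s => u s x i * u s x i) t
      = fderiv ℝ (fun z : ℝ × V => u z.1 z.2 i) (t, x) (1, 0) * u t x i
        + u t x i * fderiv ℝ (fun z : ℝ × V => u z.1 z.2 i) (t, x) (1, 0) := h3
    rw [h6, h5]
    ring
  simp_rw [e] at h1
  rw [integral_const_mul] at h1
  exact h1

end time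

/-- no contribution of the convection to the energy -/
theorem red_tri_self {v : V → V} (hv : RedSF v) (hdiv : ∀ x, ∑ i, pd i (fun y => v y i) x = 0) :
    tri v v v = 0 := by
  unfold tri
  rw [Finset.sum_comm]
  refine Finset.sum_eq_zero fun j _ => ?_
  have h := transport_zero (v := fun i x => v x i) hv hdiv (hv j)
  refine Eq.trans (Finset.sum_congr rfl fun i _ => ?_) h
  congr 1
  funext x
  ring

/-- the equation, tested -/
theorem red_test {v w : V → V} (hv : RedSF v) (hw : RedSF w)
    (hdiv : ∀ x, ∑ i, pd i (fun y => v y i) x = 0) (ν : ℝ) {z : V → V} (hz : RedSF z) :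
    RedSF (fun x i => w x i + ∑ j, v x j * pd j (fun y => v y i) x
      - ν * ∑ j, pd j (pd j (fun y => v y i)) x) ∧
    ip (fun x i => w x i + ∑ j, v x j * pd j (fun y => v y i) x
      - ν * ∑ j, pd j (pd j (fun y => v y i)) x) z
      = ip w z - tri v v z + ν * gip v z := by
  have c1 : ∀ i : Fin 3, SP (fun x => ∑ j, v x j * pd j (fun y => v y i) x) := fun i =>
    SP.sum fun j _ => (hv j).mul ((hv i).pd j)
  have c2 : ∀ i : Fin 3, SP (fun x => ν * ∑ j, pd j (pd j (fun y => v y i)) x) := fun i =>
    red_smul_sp (SP.sum fun j _ => ((hv i).pd j).pd j) ν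
  refine ⟨fun i => red_sub_sp ((hw i).add (c1 i)) (c2 i), ?_⟩
  have h1 := red_conv_ip hv hdiv hz
  have h2 : gip v z = -∑ i, ∫ x in cube, (∑ j, pd j (pd j (fun y => v y i)) x) * z x i := by
    rw [red_gip_comm, red_gip_eq hz hv, red_ip_comm]
    rfl
  have h3 : tri v v z = -∑ i, ∫ x in cube, (∑ j, v x j * pd j (fun y => v y i) x) * z x i := by
    rw [h1, neg_neg]
  rw [h2, h3]
  unfold ip
  rw [mul_neg, ← sub_eq_add_neg, sub_neg_eq_add, ← Finset.sum_add_distrib, Finset.mul_sum,
    ← Finset.sum_sub_distrib]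
  refine Finset.sum_congr rfl fun i _ => ?_
  rw [← integral_const_mul, ← integral_add ((hw i).mul (hz i)).int ((c1 i).mul (hz i)).int,
    ← integral_sub (((hw i).mul (hz i)).add ((c1 i).mul (hz i))).int
      (red_smul_sp ((SP.sum fun j _ => ((hv i).pd j).pd j).mul (hz i)) ν).int]
  congr 1
  funext x
  ring

theorem s_red : S_red := by
  intro φ c p g H hc ν T u hν hu T' hT'
  have hφ := red_basis_sf H
  have hsub : Icc 0 T' ⊆ Ico 0 T := fun t ht => ⟨ht.1, ht.2.trans_lt hT'.2⟩
  have hsub' : Ioo 0 T' ⊆ Ioo 0 T := fun t ht => ⟨ht.1, ht.2.trans hT'.2⟩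
  have hv : ∀ t ∈ Ico 0 T, RedSF (u t) := fun t ht => red_slice hu.smooth hu.per ht
  have hm : ∀ t ∈ Ico 0 T, RedMem φ (u t) := fun t ht => hu.mem t ht
  have ht0 : ∀ t ∈ Ioo 0 T, t ∈ Ico 0 T := fun t ht => ⟨ht.1.le, ht.2⟩
  obtain ⟨K, hK⟩ := (isCompact_Icc (a := (0 : ℝ)) (b := T')).exists_bound_of_continuousOn
    ((red_gip_cont hu.smooth).mono hsub)
  refine ⟨fun t => ip (u t) (u t),
    fun m t => ∑' l, (if m < l then c m l * ip (u t) (φ l) ^ 2 else 0), K, ?_, ?_⟩
  · refine ⟨fun m => (red_ip_cont hu.smooth (hφ m)).mono hsub, (red_S_cont hu.smooth).mono hsub,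
      fun t ht => red_sum hφ H.on (hv t (hsub ht)) (hm t (hsub ht)),
      fun t ht m => (red_summable H (hv t (hsub ht)) (hm t (hsub ht)) hc m).hasSum, ?_, ?_⟩
    · intro t ht m
      have ht1 := hsub' ht
      have ht2 := ht0 t ht1
      have h1 := red_ip_der hu.smooth (hφ m) ht1
      have h2 := (red_test (hv t ht2) (red_dt_sf hu.smooth hu.per ht1) (hu.divfree t ht2) ν
        (hφ m)).2
      have h3 : ip (fun x i => red_dt u t x i + ∑ j, u t x j * pd j (fun y => u t y i) x
        - ν * ∑ j, pd j (pd j (fun y => u t y i)) x) (φ m) = 0 := hu.eq t ht1 m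
      rw [h3, red_tri_val H (hv t ht2) (hm t ht2) hc m,
        red_gip_phi hφ H.on (hv t ht2) (hm t ht2) H.gon] at h2
      have h4 : ip (red_dt u t) (φ m)
        = (∑ n ∈ Finset.range m, c n m * ip (u t) (φ n) - ν * g m) * ip (u t) (φ m)
          - (∑' l, (if m < l then c m l * ip (u t) (φ l) ^ 2 else 0))
          + pm p (fun m t => ip (u t) (φ m)) m t
          - p m * ip (u t) (φ m) * ip (u t) (φ (m + 1)) := by
        unfold pm
        linarith
      rw [h4] at h1
      exact h1
    · intro t ht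
      have ht1 := hsub' ht
      have ht2 := ht0 t ht1
      have h1 := red_S_der hu.smooth ht1
      obtain ⟨h2, h3⟩ := red_test (hv t ht2) (red_dt_sf hu.smooth hu.per ht1) (hu.divfree t ht2) ν
        (hv t ht2)
      have h4 : ip (u t) (fun x i => red_dt u t x i + ∑ j, u t x j * pd j (fun y => u t y i) x
        - ν * ∑ j, pd j (pd j (fun y => u t y i)) x) = 0 := by
        refine red_ip_zero hφ H.on (hv t ht2) (hm t ht2) h2 fun m => ?_
        rw [red_ip_comm]
        exact hu.eq t ht1 m
      rw [red_ip_comm, h4, red_tri_self (hv t ht2) (hu.divfree t ht2)] at h3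
      refine ⟨_, h1, fun L => ?_⟩
      have h5 := red_gip_le hφ H.on (hv t ht2) (hm t ht2) H.gon L
      have h6 : ∑ m ∈ Finset.range L, ν * g m * ip (u t) (φ m) ^ 2
        = ν * ∑ m ∈ Finset.range L, g m * ip (u t) (φ m) ^ 2 := by
        rw [Finset.mul_sum]
        exact Finset.sum_congr rfl fun m _ => by ring
      have h7 := mul_le_mul_of_nonneg_left h5 hν
      show 2 * ip (red_dt u t) (u t)
        ≤ -2 * ∑ m ∈ Finset.range L, ν * g m * ip (u t) (φ m) ^ 2
      rw [h6]
      linarith
  · intro t ht m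
    have ht2 := hsub ht
    have h1 := red_gip_le hφ H.on (hv t ht2) (hm t ht2) H.gon (m + 1)
    have h2 : g m * ip (u t) (φ m) ^ 2 ≤ ∑ m ∈ Finset.range (m + 1), g m * ip (u t) (φ m) ^ 2 :=
      Finset.single_le_sum (f := fun m => g m * ip (u t) (φ m) ^ 2)
        (fun n _ => mul_nonneg (red_g_nonneg H.gon n) (sq_nonneg _))
        (Finset.self_mem_range_succ m)
    have h3 : gip (u t) (u t) ≤ K := (Real.le_norm_self _).trans (hK t ht)
    linarith

end Pool.Agent.H226.GB
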