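import Pool.Agent.H226.GB.Spec8
import Pool.Agent.H226.GB.Red
import Pool.Agent.H226.GB.Up

/-!
The convective term against fields which are orthogonal to the interactions.
-/

set_option autoImplicit false
set_option linter.all false

open MeasureTheory Set Filter Topology
open scoped ContDiff
open H459R3.NS

namespace Pool.Agent.H226.GB

/-- integration by parts in the convective term -/
theorem con_bil {a b z : V → V} (ha : RedSF a) (hb : RedSF b) (hz : RedSF z)
    (hdiv : ∀ x, ∑ i, pd i (fun y => a y i) x = 0) :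
    ∑ i, ∫ x in cube, cv a b x i * z x i = -tri a b z := by
  unfold cv
  have h1 : ∀ i : Fin 3, ∫ x in cube, (∑ j, a x j * pd j (fun y => b y i) x) * z x i
      = ∑ j, ∫ x in cube, pd j (fun y => b y i) x * (a x j * z x i) := by
    intro i
    rw [← integral_finsetSum _ fun j _ => (((hb i).pd j).mul ((ha j).mul (hz i))).int]
    congr 1
    funext x
    rw [Finset.sum_mul]
    exact Finset.sum_congr rfl fun j _ => by ring
  have h2 : ∀ i j : Fin 3, ∫ x in cube, pd j (fun y => b y i) x * (a x j * z x i)
      = -(∫ x in cube, b x i * (a x j * pd j (fun y => z y i) x))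
        - ∫ x in cube, b x i * z x i * pd j (fun y => a y j) x := by
    intro i j
    rw [ibp (hb i) ((ha j).mul (hz i)) j]
    have e : ∀ x, b x i * pd j (fun y => a y j * z y i) x
        = b x i * (a x j * pd j (fun y => z y i) x) + b x i * z x i * pd j (fun y => a y j) x := by
      intro x
      rw [pd_mul (ha j) (hz i)]
      ring
    simp_rw [e]
    rw [integral_add ((hb i).mul ((ha j).mul ((hz i).pd j))).int
      (((hb i).mul (hz i)).mul ((ha j).pd j)).int]
    ring
  simp_rw [h1, h2, Finset.sum_sub_distrib, Finset.sum_neg_distrib]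
  have h3 : ∀ i : Fin 3, ∑ j, ∫ x in cube, b x i * z x i * pd j (fun y => a y j) x = 0 := by
    intro i
    rw [← integral_finsetSum _ fun j _ => (((hb i).mul (hz i)).mul ((ha j).pd j)).int]
    simp_rw [← Finset.mul_sum, hdiv]
    simp
  simp_rw [h3]
  rw [Finset.sum_const_zero, sub_zero]
  congr 1
  unfold tri
  rw [Finset.sum_comm]
  refine Finset.sum_congr rfl fun i _ => Finset.sum_congr rfl fun j _ => ?_
  congr 1
  funext x
  ring

/-- the rescaled fields -/
noncomputable def con_ps (p m : ℕ) : V → V := fun x => phi m ((p : ℝ) • x)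

theorem con_sf (hb : Basis phi cc pp gg) (p m : ℕ) : RedSF (con_ps p m) := fun i =>
  up_sp (hb.sp m i) p

theorem con_div (hb : Basis phi cc pp gg) (p m : ℕ) (x : V) :
    ∑ i, pd i (fun y => con_ps p m y i) x = 0 := by
  have h1 : ∀ i : Fin 3, pd i (fun y => con_ps p m y i) x =
      (p : ℝ) * pd i (fun y => phi m y i) ((p : ℝ) • x) := fun i =>
    up_pd (f := fun y => phi m y i) (hb.sp m i) (p : ℝ) i x
  simp_rw [h1]
  rw [← Finset.mul_sum, hb.div, mul_zero]

theorem con_cv (hb : Basis phi cc pp gg) (p i j : ℕ) (x : V) (l : Fin 3) :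
    cv (con_ps p i) (con_ps p j) x l = (p : ℝ) * cv (phi i) (phi j) ((p : ℝ) • x) l := by
  unfold cv
  rw [Finset.mul_sum]
  refine Finset.sum_congr rfl fun k _ => ?_
  have h1 : pd k (fun y => con_ps p j y l) x =
      (p : ℝ) * pd k (fun y => phi j y l) ((p : ℝ) • x) :=
    up_pd (f := fun y => phi j y l) (hb.sp j l) (p : ℝ) k x
  rw [h1]
  show phi i ((p : ℝ) • x) k * _ = _
  ring

/-- the symmetrised form vanishes on the rescaled fields, one order -/
theorem con_pair0 (hb : Basis phi cc pp gg) {p : ℕ} {w : V → V} (hw : RedSF w) {i j : ℕ}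
    (h : ∑ l, ∫ x in cube, w x l * qq i j ((p : ℝ) • x) l = 0) :
    tri (con_ps p i) (con_ps p j) w + tri (con_ps p j) (con_ps p i) w = 0 := by
  have h1 := con_bil (con_sf hb p i) (con_sf hb p j) hw (con_div hb p i)
  have h2 := con_bil (con_sf hb p j) (con_sf hb p i) hw (con_div hb p j)
  have hs : ∀ (a b : ℕ) (l : Fin 3), SP (fun x => cv (con_ps p a) (con_ps p b) x l * w x l) :=
    fun a b l => (SP.sum fun k _ => ((con_sf hb p a) k).mul (((con_sf hb p b) l).pd k)).mul (hw l)
  have h3 : (∑ l, ∫ x in cube, cv (con_ps p i) (con_ps p j) x l * w x l) +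
      ∑ l, ∫ x in cube, cv (con_ps p j) (con_ps p i) x l * w x l = 0 := by
    rw [← Finset.sum_add_distrib]
    have h4 : ∀ l : Fin 3, (∫ x in cube, cv (con_ps p i) (con_ps p j) x l * w x l) +
        (∫ x in cube, cv (con_ps p j) (con_ps p i) x l * w x l) =
        (p : ℝ) * ∫ x in cube, w x l * qq i j ((p : ℝ) • x) l := by
      intro l
      rw [← integral_add (hs i j l).int (hs j i l).int, ← integral_const_mul]
      congr 1
      funext x
      rw [con_cv hb, con_cv hb]
      unfold qq
      ring
    rw [Finset.sum_congr rfl fun l _ => h4 l, ← Finset.mul_sum, h, mul_zero]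
  linarith

theorem con_pair (hb : Basis phi cc pp gg) {p : ℕ} {w : V → V} (hw : RedSF w)
    (h : ∀ i j, i ≤ j → ∑ l, ∫ x in cube, w x l * qq i j ((p : ℝ) • x) l = 0) (i j : ℕ) :
    tri (con_ps p i) (con_ps p j) w = -tri (con_ps p j) (con_ps p i) w := by
  rcases le_total i j with hij | hij
  · have := con_pair0 hb hw (h i j hij)
    linarith
  · have := con_pair0 hb hw (h j i hij)
    linarith

/-- the elements of the span are finite combinations -/
theorem con_span {p : ℕ} {v : V → V} (hv : v ∈ Submodule.span ℝ (Sc p)) :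
    ∃ (a : ℕ → ℝ) (L : ℕ), v = red_comb (con_ps p) a L := by
  have h1 : Sc p = Set.range (con_ps p) := by
    ext w
    constructor
    · rintro ⟨m, hm⟩
      exact ⟨m, funext fun x => (hm x).symm⟩
    · rintro ⟨m, rfl⟩
      exact ⟨m, fun x => rfl⟩
  rw [h1, Finsupp.mem_span_range_iff_exists_finsupp] at hv
  obtain ⟨c, hc⟩ := hv
  refine ⟨c, c.support.sup id + 1, ?_⟩
  have hsub : c.support ⊆ Finset.range (c.support.sup id + 1) := by
    intro m hm
    rw [Finset.mem_range, Nat.lt_succ_iff]
    exact Finset.le_sup (f := id) hm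
  rw [← hc, Finsupp.sum_of_support_subset c hsub (fun i a => a • con_ps p i)
    (fun i _ => zero_smul ℝ _)]
  funext x
  funext i
  unfold red_comb
  rw [Finset.sum_apply, Finset.sum_apply]
  rfl

/-- the convective term of a finite combination -/
theorem con_fin (hb : Basis phi cc pp gg) {p : ℕ} {w : V → V} (hw : RedSF w)
    (h : ∀ i j, i ≤ j → ∑ l, ∫ x in cube, w x l * qq i j ((p : ℝ) • x) l = 0) (a : ℕ → ℝ) (L : ℕ) :
    tri (red_comb (con_ps p) a L) (red_comb (con_ps p) a L) w = 0 := by
  have hs := con_sf hb p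
  have h1 : tri (red_comb (con_ps p) a L) (red_comb (con_ps p) a L) w =
      ∑ m ∈ Finset.range L, ∑ n ∈ Finset.range L, a m * a n * tri (con_ps p m) (con_ps p n) w := by
    rw [red_tri_comb_left hs a L (red_comb_sf hs a L) hw]
    refine Finset.sum_congr rfl fun m _ => ?_
    rw [red_tri_comb_mid hs a L (hs m) hw, Finset.mul_sum]
    exact Finset.sum_congr rfl fun n _ => by ring
  have h2 : ∑ m ∈ Finset.range L, ∑ n ∈ Finset.range L,
      a m * a n * tri (con_ps p m) (con_ps p n) w =
      -∑ m ∈ Finset.range L, ∑ n ∈ Finset.range L,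
      a m * a n * tri (con_ps p m) (con_ps p n) w := by
    conv_lhs => rw [Finset.sum_comm]
    rw [← Finset.sum_neg_distrib]
    refine Finset.sum_congr rfl fun m _ => ?_
    rw [← Finset.sum_neg_distrib]
    refine Finset.sum_congr rfl fun n _ => ?_
    rw [con_pair hb hw h n m]
    ring
  rw [h1]
  linarith

theorem s_con (hb : Basis phi cc pp gg) : S_con := by
  intro p u w hp hu hdiv hin hw h
  have hU : RedSF u := hu
  have hW : RedSF w := hw
  rw [con_bil hU hU hW hdiv, neg_eq_zero]
  obtain ⟨B, hB0, hB⟩ := red_bound hW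
  set X := tri u u w with hX
  set U := ip u u with hUdef
  have hU0 : 0 ≤ U := red_ip_self_nonneg u
  -- the approximation
  have key : ∀ ε : ℝ, 0 < ε → ε ≤ 1 → X ^ 2 ≤ (54 * B ^ 2 * U + 27 * B ^ 2) * ε := by
    intro ε hε hε1
    obtain ⟨v, hv, hlt⟩ := hin ε hε
    obtain ⟨a, L, rfl⟩ := con_span hv
    set v := red_comb (con_ps p) a L with hvdef
    have hV : RedSF v := red_comb_sf (con_sf hb p) a L
    have hD : RedSF (fun x => u x - v x) := red_sub_sf hU hV
    set d : V → V := fun x => u x - v x with hd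
    have hdd : ip d d < ε := by
      have e : ip d d = ∑ i, ∫ x in cube, (u x i - v x i) ^ 2 := by
        unfold ip
        refine Finset.sum_congr rfl fun i _ => ?_
        congr 1
        funext x
        show (u x i - v x i) * (u x i - v x i) = _
        ring
      rw [e]
      exact hlt
    have hdd0 : 0 ≤ ip d d := red_ip_self_nonneg d
    have h0 : tri v v w = 0 := con_fin hb hW h a L
    have e1 : tri d u w = tri u u w - tri v u w := red_tri_sub_left hU hV hU hW
    have e2 : tri v d w = tri v u w - tri v v w := red_tri_sub_mid hV hU hV hW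
    have e3 : tri d d w = tri u d w - tri v d w := red_tri_sub_left hU hV hD hW
    have e4 : X = tri d u w + tri u d w - tri d d w := by
      rw [hX]
      linarith
    have b1 := red_tri_bound hD hU hW hB
    have b2 := red_tri_bound hU hD hW hB
    have b3 := red_tri_bound hD hD hW hB
    rw [← hUdef] at b1 b2
    have c1 : tri d u w ^ 2 ≤ 9 * B ^ 2 * U * ε := by
      refine b1.trans ?_
      have : ip d d * (9 * B ^ 2 * U) ≤ ε * (9 * B ^ 2 * U) :=
        mul_le_mul_of_nonneg_right hdd.le (by positivity)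
      linarith
    have c2 : tri u d w ^ 2 ≤ 9 * B ^ 2 * U * ε := by
      refine b2.trans ?_
      have : ip d d * (9 * B ^ 2 * U) ≤ ε * (9 * B ^ 2 * U) :=
        mul_le_mul_of_nonneg_right hdd.le (by positivity)
      linarith
    have c3 : tri d d w ^ 2 ≤ 9 * B ^ 2 * ε := by
      refine b3.trans ?_
      have h5 : ip d d * ip d d ≤ ε * 1 := mul_le_mul hdd.le (hdd.le.trans hε1) hdd0 hε.le
      have : 9 * B ^ 2 * (ip d d * ip d d) ≤ 9 * B ^ 2 * (ε * 1) :=
        mul_le_mul_of_nonneg_left h5 (by positivity)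
      linarith
    rw [e4]
    have e5 : (tri d u w + tri u d w - tri d d w) ^ 2 ≤
        3 * (tri d u w ^ 2 + tri u d w ^ 2 + tri d d w ^ 2) := by
      nlinarith [sq_nonneg (tri d u w - tri u d w), sq_nonneg (tri d u w + tri d d w),
        sq_nonneg (tri u d w + tri d d w)]
    linarith
  set K := 54 * B ^ 2 * U + 27 * B ^ 2 with hK
  have hK0 : 0 ≤ K := by positivity
  by_contra hne
  have hX2 : 0 < X ^ 2 := by positivity
  have h1 := key (min 1 (X ^ 2 / (2 * (K + 1)))) (lt_min one_pos (by positivity)) (min_le_left _ _)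
  have h2 : K * min 1 (X ^ 2 / (2 * (K + 1))) ≤ K * (X ^ 2 / (2 * (K + 1))) :=
    mul_le_mul_of_nonneg_left (min_le_right _ _) hK0
  have h3 : K * (X ^ 2 / (2 * (K + 1))) < X ^ 2 := by
    rw [← mul_div_assoc, div_lt_iff₀ (by positivity)]
    nlinarith
  linarith

end Pool.Agent.H226.GB
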