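import Pool.Agent.H226.GB.Spec

/-!
Lower and upper bounds of the coupling coefficients (helper277 for helper226).
-/

open MeasureTheory Set Filter Topology
open scoped ContDiff
open H459R3.NS

namespace Pool.Agent.H226.GB

/-! ### Linearity of `tri` -/

/-- the components are smooth and periodic -/
def CoupF (u : V → V) : Prop := ∀ i, SP (fun x => u x i)

theorem Coup_smul {f : V → ℝ} (hf : SP f) (c : ℝ) : SP (fun x => c * f x) where
  smooth := contDiff_const.mul hf.smooth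
  per := fun i x => by
    have := hf.per i x
    simp only [this]

theorem Coup_lin {u u' : V → V} (hu : CoupF u) (hu' : CoupF u') (c : ℝ) :
    CoupF (fun x => u x + c • u' x) := fun i => (hu i).add (Coup_smul (hu' i) c)

theorem Coup_pd {f g : V → ℝ} (hf : SP f) (hg : SP g) (c : ℝ) (j : Fin 3) (x : V) :
    pd j (fun y => f y + c * g y) x = pd j f x + c * pd j g x := by
  unfold pd
  have h : HasFDerivAt (fun y => f y + c * g y) (fderiv ℝ f x + c • fderiv ℝ g x) x :=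
    (hf.diff x).hasFDerivAt.add ((hg.diff x).hasFDerivAt.const_mul c)
  rw [h.fderiv]
  simp

theorem Coup_pd' {g : V → ℝ} (hg : SP g) (c : ℝ) (j : Fin 3) (x : V) :
    pd j (fun y => c * g y) x = c * pd j g x := by
  unfold pd
  have h : HasFDerivAt (fun y => c * g y) (c • fderiv ℝ g x) x :=
    ((hg.diff x).hasFDerivAt.const_mul c)
  rw [h.fderiv]
  simp

theorem Coup_tri1 {u u' v w : V → V} (hu : CoupF u) (hu' : CoupF u') (hv : CoupF v)
    (hw : CoupF w) (c : ℝ) :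
    tri (fun x => u x + c • u' x) v w = tri u v w + c * tri u' v w := by
  unfold tri
  rw [Finset.mul_sum, ← Finset.sum_add_distrib]
  refine Finset.sum_congr rfl fun i _ => ?_
  rw [Finset.mul_sum, ← Finset.sum_add_distrib]
  refine Finset.sum_congr rfl fun j _ => ?_
  rw [← integral_const_mul, ← integral_add]
  · refine integral_congr_ae (Filter.Eventually.of_forall fun x => ?_)
    simp only [Pi.add_apply, Pi.smul_apply, smul_eq_mul]
    ring
  · exact (((hu i).mul (hv j)).mul ((hw j).pd i)).int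
  · exact (Coup_smul (((hu' i).mul (hv j)).mul ((hw j).pd i)) c).int

theorem Coup_tri2 {u v v' w : V → V} (hu : CoupF u) (hv : CoupF v) (hv' : CoupF v')
    (hw : CoupF w) (c : ℝ) :
    tri u (fun x => v x + c • v' x) w = tri u v w + c * tri u v' w := by
  unfold tri
  rw [Finset.mul_sum, ← Finset.sum_add_distrib]
  refine Finset.sum_congr rfl fun i _ => ?_
  rw [Finset.mul_sum, ← Finset.sum_add_distrib]
  refine Finset.sum_congr rfl fun j _ => ?_
  rw [← integral_const_mul, ← integral_add]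
  · refine integral_congr_ae (Filter.Eventually.of_forall fun x => ?_)
    simp only [Pi.add_apply, Pi.smul_apply, smul_eq_mul]
    ring
  · exact (((hu i).mul (hv j)).mul ((hw j).pd i)).int
  · exact (Coup_smul (((hu i).mul (hv' j)).mul ((hw j).pd i)) c).int

theorem Coup_tri3 {u v w w' : V → V} (hu : CoupF u) (hv : CoupF v) (hw : CoupF w)
    (hw' : CoupF w') (c : ℝ) :
    tri u v (fun x => w x + c • w' x) = tri u v w + c * tri u v w' := by
  unfold tri
  rw [Finset.mul_sum, ← Finset.sum_add_distrib]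
  refine Finset.sum_congr rfl fun i _ => ?_
  rw [Finset.mul_sum, ← Finset.sum_add_distrib]
  refine Finset.sum_congr rfl fun j _ => ?_
  rw [← integral_const_mul, ← integral_add]
  · refine integral_congr_ae (Filter.Eventually.of_forall fun x => ?_)
    have h := Coup_pd (hw j) (hw' j) c i x
    simp only [Pi.add_apply, Pi.smul_apply, smul_eq_mul]
    rw [h]
    ring
  · exact (((hu i).mul (hv j)).mul ((hw j).pd i)).int
  · exact (Coup_smul (((hu i).mul (hv j)).mul ((hw' j).pd i)) c).int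

theorem Coup_hom {u v w : V → V} (hw : CoupF w) (a b c : ℝ) :
    tri (fun x => a • u x) (fun x => b • v x) (fun x => c • w x) = a * b * c * tri u v w := by
  unfold tri
  rw [Finset.mul_sum]
  refine Finset.sum_congr rfl fun i _ => ?_
  rw [Finset.mul_sum]
  refine Finset.sum_congr rfl fun j _ => ?_
  rw [← integral_const_mul]
  refine integral_congr_ae (Filter.Eventually.of_forall fun x => ?_)
  have h := Coup_pd' (hw j) c i x
  simp only [Pi.smul_apply, smul_eq_mul]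
  rw [h]
  ring

theorem Coup_gpF {Θ : V → ℝ} (h : SP Θ) : CoupF (gp Θ) := by
  intro i
  have h0 : SP (fun _ : V => (0 : ℝ)) := ⟨contDiff_const, fun _ _ => rfl⟩
  fin_cases i
  · exact h.pd 2
  · exact h0
  · have h1 := Coup_smul (h.pd 0) (-1)
    have h2 : (fun x => gp Θ x 2) = fun x => (-1) * pd 0 Θ x := by
      funext x
      show -pd 0 Θ x = _
      ring
    show SP (fun x => gp Θ x 2)
    rw [h2]
    exact h1

theorem Coup_gp {f g : V → ℝ} (hf : SP f) (hg : SP g) (c : ℝ) :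
    gp (fun x => f x + c * g x) = fun x => gp f x + c • gp g x := by
  funext x
  funext i
  fin_cases i
  · show pd 2 (fun x => f x + c * g x) x = pd 2 f x + c * pd 2 g x
    exact Coup_pd hf hg c 2 x
  · show (0 : ℝ) = 0 + c * 0
    ring
  · show -pd 0 (fun x => f x + c * g x) x = -pd 0 f x + c * (-pd 0 g x)
    rw [Coup_pd hf hg c 0 x]
    ring

/-! ### Products with separated frequencies -/

theorem Coup_van (P : S_prod) (G : S_trig) {F₁ G₁ H₁ F₂ G₂ H₂ F₃ G₃ H₃ : ℝ → ℝ}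
    (f1 : P1 F₁) (g1 : P1 G₁) (f2 : P1 F₂) (g2 : P1 G₂) (f3 : P1 F₃) (g3 : P1 G₃)
    {A B C : Set ℕ} (h1 : Trig A H₁) (h2 : Trig B H₂) (h3 : Trig C H₃)
    (hr : ∀ a ∈ A, ∀ b ∈ B, ∀ c ∈ C, a ≠ b + c ∧ b ≠ a + c ∧ c ≠ a + b) :
    tri (gp (prd F₁ G₁ H₁)) (gp (prd F₂ G₂ H₂)) (gp (prd F₃ G₃ H₃)) = 0 := by
  rw [P.tri_gp f1 g1 (G.p1 h1) f2 g2 (G.p1 h2) f3 g3 (G.p1 h3),
    G.int3 (G.der h1) (G.der h2) (G.der h3) hr, G.int3 h1 (G.der h2) (G.der (G.der h3)) hr,
    G.int3 (G.der h1) h2 h3 hr, G.int3 h1 h2 (G.der h3) hr]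
  ring

/-! ### Sine and cosine sums -/

/-- sine sum -/
noncomputable def CoupS (s : Finset ℕ) (α : ℕ → ℝ) (x : ℝ) : ℝ := ∑ j ∈ s, α j * sn j x

/-- cosine sum -/
noncomputable def CoupC (s : Finset ℕ) (α : ℕ → ℝ) (x : ℝ) : ℝ := ∑ j ∈ s, α j * cs j x

theorem Coup_dsn (k : ℕ) (x : ℝ) : HasDerivAt (sn k) (2 * Real.pi * k * cs k x) x := by
  unfold sn cs
  have h1 : HasDerivAt (fun s : ℝ => 2 * Real.pi * k * s) (2 * Real.pi * k) x := by
    simpa using (hasDerivAt_id x).const_mul (2 * Real.pi * k)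
  have h2 := h1.sin
  refine h2.congr_deriv ?_
  ring

theorem Coup_dcs (k : ℕ) (x : ℝ) : HasDerivAt (cs k) (-(2 * Real.pi * k) * sn k x) x := by
  unfold sn cs
  have h1 : HasDerivAt (fun s : ℝ => 2 * Real.pi * k * s) (2 * Real.pi * k) x := by
    simpa using (hasDerivAt_id x).const_mul (2 * Real.pi * k)
  have h2 := h1.cos
  refine h2.congr_deriv ?_
  ring

theorem Coup_csn (k : ℕ) : Continuous (sn k) := by
  unfold sn
  fun_prop

theorem Coup_ccs (k : ℕ) : Continuous (cs k) := by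
  unfold cs
  fun_prop

theorem Coup_dS (s : Finset ℕ) (α : ℕ → ℝ) :
    deriv (CoupS s α) = CoupC s (fun j => α j * (2 * Real.pi * j)) := by
  funext x
  have h : HasDerivAt (CoupS s α) (∑ j ∈ s, α j * (2 * Real.pi * j * cs j x)) x := by
    unfold CoupS
    exact HasDerivAt.fun_sum fun j _ => (Coup_dsn j x).const_mul (α j)
  rw [h.deriv]
  unfold CoupC
  refine Finset.sum_congr rfl fun j _ => ?_
  ring

theorem Coup_dC (s : Finset ℕ) (α : ℕ → ℝ) :
    deriv (CoupC s α) = CoupS s (fun j => -(α j * (2 * Real.pi * j))) := by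
  funext x
  have h : HasDerivAt (CoupC s α) (∑ j ∈ s, α j * (-(2 * Real.pi * j) * sn j x)) x := by
    unfold CoupC
    exact HasDerivAt.fun_sum fun j _ => (Coup_dcs j x).const_mul (α j)
  rw [h.deriv]
  unfold CoupS
  refine Finset.sum_congr rfl fun j _ => ?_
  ring

theorem Coup_pS (O : S_one) (s : Finset ℕ) (α : ℕ → ℝ) : P1 (CoupS s α) where
  smooth := by
    unfold CoupS
    exact ContDiff.sum fun j _ => contDiff_const.mul (O.p1_sn j).smooth
  per := fun x => by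
    unfold CoupS
    exact Finset.sum_congr rfl fun j _ => by rw [(O.p1_sn j).per x]

theorem Coup_pC (O : S_one) (s : Finset ℕ) (α : ℕ → ℝ) : P1 (CoupC s α) where
  smooth := by
    unfold CoupC
    exact ContDiff.sum fun j _ => contDiff_const.mul (O.p1_cs j).smooth
  per := fun x => by
    unfold CoupC
    exact Finset.sum_congr rfl fun j _ => by rw [(O.p1_cs j).per x]

theorem Coup_iS {f : ℝ → ℝ} (hf : Continuous f) (s : Finset ℕ) (α : ℕ → ℝ) :
    i1 (fun x => f x * CoupS s α x) = ∑ j ∈ s, α j * i1 (fun x => f x * sn j x) := by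
  unfold i1 CoupS
  have h1 : ∀ x : ℝ, f x * ∑ j ∈ s, α j * sn j x = ∑ j ∈ s, α j * (f x * sn j x) := by
    intro x
    rw [Finset.mul_sum]
    exact Finset.sum_congr rfl fun j _ => by ring
  simp only [h1]
  have h2 : ∀ j ∈ s, IntervalIntegrable (fun x => α j * (f x * sn j x)) volume 0 1 := fun j _ =>
    (continuous_const.mul (hf.mul (Coup_csn j))).intervalIntegrable 0 1
  rw [intervalIntegral.integral_finsetSum h2]
  refine Finset.sum_congr rfl fun j _ => ?_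
  rw [intervalIntegral.integral_const_mul]

theorem Coup_iC {f : ℝ → ℝ} (hf : Continuous f) (s : Finset ℕ) (α : ℕ → ℝ) :
    i1 (fun x => f x * CoupC s α x) = ∑ j ∈ s, α j * i1 (fun x => f x * cs j x) := by
  unfold i1 CoupC
  have h1 : ∀ x : ℝ, f x * ∑ j ∈ s, α j * cs j x = ∑ j ∈ s, α j * (f x * cs j x) := by
    intro x
    rw [Finset.mul_sum]
    exact Finset.sum_congr rfl fun j _ => by ring
  simp only [h1]
  have h2 : ∀ j ∈ s, IntervalIntegrable (fun x => α j * (f x * cs j x)) volume 0 1 := fun j _ =>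
    (continuous_const.mul (hf.mul (Coup_ccs j))).intervalIntegrable 0 1
  rw [intervalIntegral.integral_finsetSum h2]
  refine Finset.sum_congr rfl fun j _ => ?_
  rw [intervalIntegral.integral_const_mul]

/-! ### The main estimate -/

theorem Coup_bp (O : S_one) {f : ℝ → ℝ} (hf : P1 f) (s : Finset ℕ) (α : ℕ → ℝ) :
    i1 (fun x => f x * deriv f x * CoupS s α x)
      = -∑ j ∈ s, α j * (Real.pi * j) * i1 (fun x => f x ^ 2 * cs j x) := by
  have hc : Continuous fun x => f x * deriv f x := by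
    have h1 : Continuous (deriv f) := (hf.smooth.continuous_deriv (by norm_cast))
    exact hf.smooth.continuous.mul h1
  rw [Coup_iS hc, ← Finset.sum_neg_distrib]
  refine Finset.sum_congr rfl fun j _ => ?_
  rw [O.by_parts hf j]
  ring

theorem Coup_sqC {f : ℝ → ℝ} (hf : Continuous f) (s : Finset ℕ) (α : ℕ → ℝ) :
    i1 (fun x => f x * f x * CoupC s α x) = ∑ j ∈ s, α j * i1 (fun x => f x ^ 2 * cs j x) := by
  rw [Coup_iC (f := fun x => f x * f x) (hf.mul hf)]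
  refine Finset.sum_congr rfl fun j _ => ?_
  congr 1
  unfold i1
  refine intervalIntegral.integral_congr fun x _ => ?_
  show f x * f x * cs j x = f x ^ 2 * cs j x
  ring

theorem Coup_ar {A B C b t2 t3 t4 D : ℝ} (hA : 0 ≤ A) (hB : 0 ≤ B) (hC : 0 ≤ C) (hb : 0 ≤ b)
    (h1 : 1024 * D * b ≤ C) (h2 : 0 ≤ t2) (h2' : t2 ≤ 2 * D * b) (h3 : 0 ≤ t3)
    (h3' : t3 ≤ 2 * D * A) (h4 : 0 ≤ t4) (h4' : t4 ≤ 16 * D * A) :
    31 / 32 * (A * B * C) ≤ B * (A * C - (-(A / 2)) * t2 + t3 * (-(b / 2)) - t4 * b) ∧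
    B * (A * C - (-(A / 2)) * t2 + t3 * (-(b / 2)) - t4 * b) ≤ 2 * (A * B * C) := by
  have e1 : 1024 * D * b * A ≤ C * A := mul_le_mul_of_nonneg_right h1 hA
  have e2 : A * t2 ≤ A * (2 * D * b) := mul_le_mul_of_nonneg_left h2' hA
  have e3 : t3 * b ≤ 2 * D * A * b := mul_le_mul_of_nonneg_right h3' hb
  have e4 : t4 * b ≤ 16 * D * A * b := mul_le_mul_of_nonneg_right h4' hb
  have e5 : 0 ≤ A * t2 := mul_nonneg hA h2
  have e6 : 0 ≤ t3 * b := mul_nonneg h3 hb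
  have e7 : 0 ≤ t4 * b := mul_nonneg h4 hb
  have e8 : 0 ≤ A * C := mul_nonneg hA hC
  have k1 : 31 / 32 * (A * C) ≤ A * C - (-(A / 2)) * t2 + t3 * (-(b / 2)) - t4 * b := by
    nlinarith
  have k2 : A * C - (-(A / 2)) * t2 + t3 * (-(b / 2)) - t4 * b ≤ 2 * (A * C) := by
    nlinarith
  have l1 := mul_le_mul_of_nonneg_left k1 hB
  have l2 := mul_le_mul_of_nonneg_left k2 hB
  constructor
  · calc 31 / 32 * (A * B * C) = B * (31 / 32 * (A * C)) := by ring
      _ ≤ _ := l1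
  · calc _ ≤ B * (2 * (A * C)) := l2
      _ = 2 * (A * B * C) := by ring

/-- the trilinear form at the main part of a field and a product of sums -/
theorem Coup_gen (P : S_prod) (O : S_one) {N : ℕ} {s1 s2 s3 : Finset ℕ} {α β γ : ℕ → ℝ}
    (h1 : ∀ j ∈ s1, 1 ≤ j ∧ j ≤ N ∧ 0 ≤ α j) (h2 : ∀ j ∈ s2, 1 ≤ j ∧ j ≤ N ∧ 0 ≤ β j)
    (h3 : ∀ j ∈ s3, 1 ≤ j ∧ j ≤ N ∧ 0 ≤ γ j) {A B C T : ℝ}
    (hA : A = ∑ j ∈ s1, α j * (2 * Real.pi * j) * (((N : ℝ) - j) / 2))
    (hB : B = ∑ j ∈ s2, β j * (((N : ℝ) - j) / 2))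
    (hC : C = ∑ j ∈ s3, γ j * (2 * Real.pi * j) * (((N : ℝ) - j) / 2))
    (hT : T = tri (gp (prd (fF N) (fG N) (fH N))) (gp (prd (fF N) (fG N) (fH N)))
      (gp (prd (CoupS s1 α) (CoupC s2 β) (CoupS s3 γ)))) :
    31 / 32 * (A * B * C) ≤ T ∧ T ≤ 2 * (A * B * C) := by
  have pF := O.p1_F N
  have pG := O.p1_G N
  have pH := O.p1_H N
  have cF := pF.smooth.continuous
  have cG := pG.smooth.continuous
  have cH := pH.smooth.continuous
  have cdF : Continuous (deriv (fF N)) := (P.der pF).smooth.continuous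
  have cdH : Continuous (deriv (fH N)) := (P.der pH).smooth.continuous
  have hpi := Real.pi_pos
  have hN0 : (0 : ℝ) ≤ N := Nat.cast_nonneg N
  have hle : ∀ j : ℕ, j ≤ N → (0 : ℝ) ≤ ((N : ℝ) - j) / 2 := by
    intro j hj
    have : (j : ℝ) ≤ N := by exact_mod_cast hj
    linarith
  rw [P.tri_gp pF pG pH pF pG pH (Coup_pS O s1 α) (Coup_pC O s2 β) (Coup_pS O s3 γ),
    Coup_dS, Coup_dS, Coup_dC, Coup_dC] at hT
  -- the integral in `x₁`
  have iG : i1 (fun x => fG N x * fG N x * CoupC s2 β x) = B := by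
    rw [Coup_sqC cG, hB]
    refine Finset.sum_congr rfl fun j hj => ?_
    obtain ⟨a, b, -⟩ := h2 j hj
    rw [O.G2 N j a b]
  have i1a : i1 (fun x => fF N x * fF N x * CoupC s1 (fun j => α j * (2 * Real.pi * j)) x) = A := by
    rw [Coup_sqC cF, hA]
    refine Finset.sum_congr rfl fun j hj => ?_
    obtain ⟨a, b, -⟩ := h1 j hj
    rw [O.F2 N j a b]
  have i1b : i1 (fun x => deriv (fH N) x * deriv (fH N) x *
      CoupC s3 (fun j => γ j * (2 * Real.pi * j)) x) = C := by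
    rw [Coup_sqC cdH, hC]
    refine Finset.sum_congr rfl fun j hj => ?_
    obtain ⟨a, b, -⟩ := h3 j hj
    rw [O.dH2 N j a b]
  have i2a : i1 (fun x => deriv (fF N) x * fF N x * CoupS s1 α x) = -(A / 2) := by
    have e : (fun x => deriv (fF N) x * fF N x * CoupS s1 α x) =
        fun x => fF N x * deriv (fF N) x * CoupS s1 α x := by
      funext x
      ring
    rw [e, Coup_bp O pF, hA, Finset.sum_div]
    congr 1
    refine Finset.sum_congr rfl fun j hj => ?_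
    obtain ⟨a, b, -⟩ := h1 j hj
    rw [O.F2 N j a b]
    ring
  obtain ⟨t2, ht2⟩ : ∃ t2 : ℝ, t2 = ∑ j ∈ s3, γ j * (2 * Real.pi * j) * (2 * Real.pi * j) *
    (Real.pi * j) * i1 (fun x => fH N x ^ 2 * cs j x) := ⟨_, rfl⟩
  have i2b : i1 (fun x => fH N x * deriv (fH N) x *
      CoupS s3 (fun j => -(γ j * (2 * Real.pi * j) * (2 * Real.pi * j))) x) = t2 := by
    rw [Coup_bp O pH, ht2, ← Finset.sum_neg_distrib]
    refine Finset.sum_congr rfl fun j hj => ?_
    ring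
  obtain ⟨t3, ht3⟩ : ∃ t3 : ℝ, t3 = ∑ j ∈ s1, α j * (2 * Real.pi * j) * (2 * Real.pi * j) *
    (Real.pi * j) * (((N : ℝ) - j) / 2) := ⟨_, rfl⟩
  have i3a : i1 (fun x => fF N x * deriv (fF N) x *
      CoupS s1 (fun j => -(α j * (2 * Real.pi * j) * (2 * Real.pi * j))) x) = t3 := by
    rw [Coup_bp O pF, ht3, ← Finset.sum_neg_distrib]
    refine Finset.sum_congr rfl fun j hj => ?_
    obtain ⟨a, b, -⟩ := h1 j hj
    rw [O.F2 N j a b]
    ring
  obtain ⟨b4, hb4⟩ : ∃ b4 : ℝ, b4 = ∑ j ∈ s3, γ j * (2 * Real.pi * j) *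
    i1 (fun x => fH N x ^ 2 * cs j x) := ⟨_, rfl⟩
  have i3b : i1 (fun x => deriv (fH N) x * fH N x * CoupS s3 γ x) = -(b4 / 2) := by
    have e : (fun x => deriv (fH N) x * fH N x * CoupS s3 γ x) =
        fun x => fH N x * deriv (fH N) x * CoupS s3 γ x := by
      funext x
      ring
    rw [e, Coup_bp O pH, hb4, Finset.sum_div]
    congr 1
    refine Finset.sum_congr rfl fun j hj => ?_
    ring
  obtain ⟨t4, ht4⟩ : ∃ t4 : ℝ, t4 = ∑ j ∈ s1, α j * (2 * Real.pi * j) *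
    i1 (fun x => deriv (fF N) x ^ 2 * cs j x) := ⟨_, rfl⟩
  have i4a : i1 (fun x => deriv (fF N) x * deriv (fF N) x *
      CoupC s1 (fun j => α j * (2 * Real.pi * j)) x) = t4 := by
    rw [Coup_sqC cdF, ht4]
  have i4b : i1 (fun x => fH N x * fH N x * CoupC s3 (fun j => γ j * (2 * Real.pi * j)) x) = b4 := by
    rw [Coup_sqC cH, hb4]
  rw [iG, i1a, i1b, i2a, i2b, i3a, i3b, i4a, i4b] at hT
  rw [hT]
  -- the bounds
  have hA0 : 0 ≤ A := by
    rw [hA]
    refine Finset.sum_nonneg fun j hj => ?_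
    obtain ⟨a, b, c⟩ := h1 j hj
    have := hle j b
    positivity
  have hB0 : 0 ≤ B := by
    rw [hB]
    refine Finset.sum_nonneg fun j hj => ?_
    obtain ⟨a, b, c⟩ := h2 j hj
    have := hle j b
    positivity
  have hC0 : 0 ≤ C := by
    rw [hC]
    refine Finset.sum_nonneg fun j hj => ?_
    obtain ⟨a, b, c⟩ := h3 j hj
    have := hle j b
    positivity
  have hh : ∀ j ∈ s3, 0 ≤ i1 (fun x => fH N x ^ 2 * cs j x) := fun j hj =>
    (O.H2 N j (h3 j hj).1 (h3 j hj).2.1).1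
  have hb0 : 0 ≤ b4 := by
    rw [hb4]
    refine Finset.sum_nonneg fun j hj => ?_
    have := hh j hj
    have := (h3 j hj).2.2
    positivity
  refine Coup_ar (D := Real.pi ^ 2 * (N : ℝ) ^ 2) hA0 hB0 hC0 hb0 ?_ ?_ ?_ ?_ ?_ ?_ ?_
  · rw [hb4, hC, Finset.mul_sum]
    refine Finset.sum_le_sum fun j hj => ?_
    obtain ⟨a, b, c⟩ := h3 j hj
    have hj0 : (1 : ℝ) ≤ j := by exact_mod_cast a
    have hjN : (j : ℝ) ≤ N := by exact_mod_cast b
    have hNp : (0 : ℝ) < N := by linarith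
    have k1 := (O.H2 N j a b).2
    rw [le_div_iff₀ (by positivity)] at k1
    have k2 : 0 ≤ γ j * (2 * Real.pi * j) := by positivity
    calc 1024 * (Real.pi ^ 2 * (N : ℝ) ^ 2) * (γ j * (2 * Real.pi * j) *
          i1 (fun x => fH N x ^ 2 * cs j x))
        = γ j * (2 * Real.pi * j) * (i1 (fun x => fH N x ^ 2 * cs j x) *
          (2 * Real.pi * (16 * N)) ^ 2) := by ring
      _ ≤ γ j * (2 * Real.pi * j) * (((N : ℝ) - j) / 2) := mul_le_mul_of_nonneg_left k1 k2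
  · rw [ht2]
    refine Finset.sum_nonneg fun j hj => ?_
    have := hh j hj
    have := (h3 j hj).2.2
    positivity
  · rw [ht2, hb4, Finset.mul_sum]
    refine Finset.sum_le_sum fun j hj => ?_
    obtain ⟨a, b, c⟩ := h3 j hj
    have hjN : (j : ℝ) ≤ N := by exact_mod_cast b
    have k0 := hh j hj
    have k1 : (j : ℝ) ^ 2 ≤ (N : ℝ) ^ 2 := pow_le_pow_left₀ (Nat.cast_nonneg j) hjN 2
    have k2 : 0 ≤ 2 * Real.pi ^ 2 * (γ j * (2 * Real.pi * j) *
      i1 (fun x => fH N x ^ 2 * cs j x)) := by positivity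
    calc γ j * (2 * Real.pi * j) * (2 * Real.pi * j) * (Real.pi * j) *
          i1 (fun x => fH N x ^ 2 * cs j x)
        = 2 * Real.pi ^ 2 * (γ j * (2 * Real.pi * j) *
          i1 (fun x => fH N x ^ 2 * cs j x)) * (j : ℝ) ^ 2 := by ring
      _ ≤ 2 * Real.pi ^ 2 * (γ j * (2 * Real.pi * j) *
          i1 (fun x => fH N x ^ 2 * cs j x)) * (N : ℝ) ^ 2 := mul_le_mul_of_nonneg_left k1 k2
      _ = _ := by ring
  · rw [ht3]
    refine Finset.sum_nonneg fun j hj => ?_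
    obtain ⟨a, b, c⟩ := h1 j hj
    have := hle j b
    positivity
  · rw [ht3, hA, Finset.mul_sum]
    refine Finset.sum_le_sum fun j hj => ?_
    obtain ⟨a, b, c⟩ := h1 j hj
    have hjN : (j : ℝ) ≤ N := by exact_mod_cast b
    have k0 := hle j b
    have k1 : (j : ℝ) ^ 2 ≤ (N : ℝ) ^ 2 := pow_le_pow_left₀ (Nat.cast_nonneg j) hjN 2
    have k2 : 0 ≤ 2 * Real.pi ^ 2 * (α j * (2 * Real.pi * j) * (((N : ℝ) - j) / 2)) := by
      positivity
    calc α j * (2 * Real.pi * j) * (2 * Real.pi * j) * (Real.pi * j) * (((N : ℝ) - j) / 2)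
        = 2 * Real.pi ^ 2 * (α j * (2 * Real.pi * j) * (((N : ℝ) - j) / 2)) * (j : ℝ) ^ 2 := by ring
      _ ≤ 2 * Real.pi ^ 2 * (α j * (2 * Real.pi * j) * (((N : ℝ) - j) / 2)) * (N : ℝ) ^ 2 :=
          mul_le_mul_of_nonneg_left k1 k2
      _ = _ := by ring
  · rw [ht4]
    refine Finset.sum_nonneg fun j hj => ?_
    obtain ⟨a, b, c⟩ := h1 j hj
    have := (O.dF2 N j a b).1
    positivity
  · rw [ht4, hA, Finset.mul_sum]
    refine Finset.sum_le_sum fun j hj => ?_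
    obtain ⟨a, b, c⟩ := h1 j hj
    have k1 := (O.dF2 N j a b).2
    have k2 : 0 ≤ α j * (2 * Real.pi * j) := by positivity
    calc α j * (2 * Real.pi * j) * i1 (fun x => deriv (fF N) x ^ 2 * cs j x)
        ≤ α j * (2 * Real.pi * j) * ((2 * Real.pi * (2 * N)) ^ 2 * (((N : ℝ) - j) / 2)) :=
          mul_le_mul_of_nonneg_left k1 k2
      _ = _ := by ring

/-! ### The scales -/

theorem Coup_RR {n l : ℕ} (h : n < l) : 32 * RR n ≤ RR l := by
  unfold RR
  have e : 32 * 2 ^ ((n + 2) ^ 3) = 2 ^ (5 + (n + 2) ^ 3) := by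
    have h5 : (32 : ℕ) = 2 ^ 5 := by norm_num
    rw [h5, pow_add]
  rw [e]
  refine Nat.pow_le_pow_right (by norm_num) ?_
  have h1 : (n + 3) ^ 3 ≤ (l + 2) ^ 3 := Nat.pow_le_pow_left (by omega) 3
  have h2 : 5 + (n + 2) ^ 3 ≤ (n + 3) ^ 3 := by nlinarith [Nat.zero_le n]
  omega

theorem Coup_NN {n l : ℕ} (h : n < l) : 1024 * NN n ≤ NN l := by
  unfold NN
  have h1 := Nat.pow_le_pow_left (Coup_RR h) 2
  calc 1024 * RR n ^ 2 = (32 * RR n) ^ 2 := by ring
    _ ≤ _ := h1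

theorem Coup_NNle {n l : ℕ} (h : n ≤ l) : NN n ≤ NN l := by
  rcases h.lt_or_eq with h | rfl
  · have := Coup_NN h
    omega
  · exact le_rfl

theorem Coup_RRge (n : ℕ) : 256 ≤ RR n := by
  unfold RR
  have h1 : 2 ^ 8 ≤ 2 ^ ((n + 2) ^ 3) := by
    refine Nat.pow_le_pow_right (by norm_num) ?_
    have h1 : 2 ^ 3 ≤ (n + 2) ^ 3 := Nat.pow_le_pow_left (by omega) 3
    omega
  exact h1

theorem Coup_NNge (n : ℕ) : 65536 ≤ NN n := by
  unfold NN
  have h1 := Nat.pow_le_pow_left (Coup_RRge n) 2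
  exact h1

theorem Coup_ee (m : ℕ) : 0 ≤ ee' m ∧ ee' m ≤ 1 := by
  unfold ee'
  split_ifs with h
  · exact ⟨le_rfl, zero_le_one⟩
  · refine ⟨(Real.exp_pos _).le, ?_⟩
    rw [Real.exp_le_one_iff]
    have : 0 ≤ bb (m - 1) := by
      unfold bb
      positivity
    linarith

/-! ### The basic functions as sums -/

theorem Coup_fF (N : ℕ) : fF N = CoupS (Finset.Ico N (2 * N)) (fun _ => 1) := by
  funext x
  unfold fF CoupS
  exact Finset.sum_congr rfl fun j _ => by ring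

theorem Coup_fG (N : ℕ) : fG N = CoupC (Finset.Ico N (2 * N)) (fun _ => 1) := by
  funext x
  unfold fG CoupC
  exact Finset.sum_congr rfl fun j _ => by ring

theorem Coup_fH (N : ℕ) :
    fH N = CoupS (Finset.Ico (16 * N) (17 * N)) (fun j => 1 / (2 * Real.pi * j)) := by
  funext x
  unfold fH CoupS
  exact Finset.sum_congr rfl fun j _ => by ring

theorem Coup_sn (k : ℕ) : sn k = CoupS {k} (fun _ => 1) := by
  funext x
  unfold CoupS
  rw [Finset.sum_singleton, one_mul]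

theorem Coup_cs (k : ℕ) : cs k = CoupC {k} (fun _ => 1) := by
  funext x
  unfold CoupC
  rw [Finset.sum_singleton, one_mul]

theorem Coup_psiSP (P : S_prod) (O : S_one) (m : ℕ) : SP (psi m) :=
  P.sp (O.p1_F _) (O.p1_G _) (O.p1_H _)

theorem Coup_chiSP (P : S_prod) (O : S_one) (m : ℕ) : SP (chi m) :=
  P.sp (O.p1_sn _) (O.p1_cs _) (O.p1_sn _)

/-- the coupling coefficient in terms of the main part and the pump mode -/
theorem Coup_exp (P : S_prod) (O : S_one) (G : S_trig) {n l : ℕ} (h : n < l) :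
    cc n l = (nm l)⁻¹ ^ 2 * (nm n)⁻¹ * (tri (gp (psi l)) (gp (psi l)) (gp (psi n))
      + ee' n * tri (gp (psi l)) (gp (psi l)) (gp (chi n))) := by
  have pl := Coup_psiSP P O l
  have cl := Coup_chiSP P O l
  have pn := Coup_psiSP P O n
  have cn := Coup_chiSP P O n
  have Al := Coup_gpF pl
  have Bl := Coup_gpF cl
  have An := Coup_gpF pn
  have Bn := Coup_gpF cn
  have gl : gp (th0 l) = fun x => gp (psi l) x + ee' l • gp (chi l) x := Coup_gp pl cl (ee' l)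
  have gn : gp (th0 n) = fun x => gp (psi n) x + ee' n • gp (chi n) x := Coup_gp pn cn (ee' n)
  have Cl : CoupF (gp (th0 l)) := by
    rw [gl]
    exact Coup_lin Al Bl _
  have Cn : CoupF (gp (th0 n)) := by
    rw [gn]
    exact Coup_lin An Bn _
  -- the scales
  obtain ⟨l', rfl⟩ : ∃ l', l = l' + 1 := ⟨l - 1, by omega⟩
  have k1 : 1024 * NN l' ≤ NN (l' + 1) := Coup_NN (Nat.lt_succ_self l')
  have k2 : NN n ≤ NN l' := Coup_NNle (by omega)
  have k3 : NN (n - 1) ≤ NN n := Coup_NNle (by omega)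
  have k4 : 65536 ≤ NN (n - 1) := Coup_NNge _
  have hsub : l' + 1 - 1 = l' := rfl
  have hH := G.H (NN (l' + 1))
  have hHn := G.H (NN n)
  have hcl : Trig {2 * (17 * NN (l' + 1 - 1) - 1)} (sn (2 * (17 * NN (l' + 1 - 1) - 1))) :=
    G.sn (Set.mem_singleton _)
  have hcn : Trig {2 * (17 * NN (n - 1) - 1)} (sn (2 * (17 * NN (n - 1) - 1))) :=
    G.sn (Set.mem_singleton _)
  have v1 : tri (gp (psi (l' + 1))) (gp (chi (l' + 1))) (gp (psi n)) = 0 := by
    refine Coup_van P G (O.p1_F _) (O.p1_G _) (O.p1_sn _) (O.p1_cs _) (O.p1_F _) (O.p1_G _)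
      hH hcl hHn ?_
    rintro a ⟨ha1, ha2⟩ b hb c ⟨hc1, hc2⟩
    rw [Set.mem_singleton_iff, hsub] at hb
    omega
  have v2 : tri (gp (chi (l' + 1))) (gp (psi (l' + 1))) (gp (psi n)) = 0 := by
    refine Coup_van P G (O.p1_sn _) (O.p1_cs _) (O.p1_F _) (O.p1_G _) (O.p1_F _) (O.p1_G _)
      hcl hH hHn ?_
    rintro b hb a ⟨ha1, ha2⟩ c ⟨hc1, hc2⟩
    rw [Set.mem_singleton_iff, hsub] at hb
    omega
  have v3 : tri (gp (chi (l' + 1))) (gp (chi (l' + 1))) (gp (psi n)) = 0 := by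
    refine Coup_van P G (O.p1_sn _) (O.p1_cs _) (O.p1_sn _) (O.p1_cs _) (O.p1_F _) (O.p1_G _)
      hcl hcl hHn ?_
    rintro b hb a ha c ⟨hc1, hc2⟩
    rw [Set.mem_singleton_iff, hsub] at hb ha
    omega
  have v4 : tri (gp (psi (l' + 1))) (gp (chi (l' + 1))) (gp (chi n)) = 0 := by
    refine Coup_van P G (O.p1_F _) (O.p1_G _) (O.p1_sn _) (O.p1_cs _) (O.p1_sn _) (O.p1_cs _)
      hH hcl hcn ?_
    rintro a ⟨ha1, ha2⟩ b hb c hc
    rw [Set.mem_singleton_iff, hsub] at hb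
    rw [Set.mem_singleton_iff] at hc
    omega
  have v5 : tri (gp (chi (l' + 1))) (gp (psi (l' + 1))) (gp (chi n)) = 0 := by
    refine Coup_van P G (O.p1_sn _) (O.p1_cs _) (O.p1_F _) (O.p1_G _) (O.p1_sn _) (O.p1_cs _)
      hcl hH hcn ?_
    rintro b hb a ⟨ha1, ha2⟩ c hc
    rw [Set.mem_singleton_iff, hsub] at hb
    rw [Set.mem_singleton_iff] at hc
    omega
  have v6 : tri (gp (chi (l' + 1))) (gp (chi (l' + 1))) (gp (chi n)) = 0 := by
    refine Coup_van P G (O.p1_sn _) (O.p1_cs _) (O.p1_sn _) (O.p1_cs _) (O.p1_sn _) (O.p1_cs _)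
      hcl hcl hcn ?_
    rintro b hb a ha c hc
    rw [Set.mem_singleton_iff, hsub] at hb ha
    rw [Set.mem_singleton_iff] at hc
    omega
  have e0 : cc n (l' + 1) = (nm (l' + 1))⁻¹ ^ 2 * (nm n)⁻¹ *
      tri (gp (th0 (l' + 1))) (gp (th0 (l' + 1))) (gp (th0 n)) := by
    unfold cc
    have h1 := Coup_hom (u := gp (th0 (l' + 1))) (v := gp (th0 (l' + 1))) Cn
      (-(nm (l' + 1))⁻¹) (-(nm (l' + 1))⁻¹) (-(nm n)⁻¹)
    have h2 : tri (phi (l' + 1)) (phi (l' + 1)) (phi n) = _ := h1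
    rw [h2]
    ring
  rw [e0]
  congr 1
  have w1 : tri (gp (th0 (l' + 1))) (gp (th0 (l' + 1))) (gp (th0 n)) =
      tri (gp (th0 (l' + 1))) (gp (th0 (l' + 1))) (gp (psi n)) +
      ee' n * tri (gp (th0 (l' + 1))) (gp (th0 (l' + 1))) (gp (chi n)) := by
    rw [gn]
    exact Coup_tri3 Cl Cl An Bn _
  have w2 : ∀ w : V → V, CoupF w → tri (gp (th0 (l' + 1))) (gp (th0 (l' + 1))) w =
      tri (gp (psi (l' + 1))) (gp (psi (l' + 1))) w +
      ee' (l' + 1) * tri (gp (psi (l' + 1))) (gp (chi (l' + 1))) w +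
      ee' (l' + 1) * (tri (gp (chi (l' + 1))) (gp (psi (l' + 1))) w +
        ee' (l' + 1) * tri (gp (chi (l' + 1))) (gp (chi (l' + 1))) w) := by
    intro w hw
    have q1 : tri (gp (th0 (l' + 1))) (gp (th0 (l' + 1))) w =
        tri (gp (psi (l' + 1))) (gp (th0 (l' + 1))) w +
        ee' (l' + 1) * tri (gp (chi (l' + 1))) (gp (th0 (l' + 1))) w := by
      have := Coup_tri1 Al Bl Cl hw (ee' (l' + 1))
      rw [← gl] at this
      exact this
    have q2 : tri (gp (psi (l' + 1))) (gp (th0 (l' + 1))) w =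
        tri (gp (psi (l' + 1))) (gp (psi (l' + 1))) w +
        ee' (l' + 1) * tri (gp (psi (l' + 1))) (gp (chi (l' + 1))) w := by
      have := Coup_tri2 Al Al Bl hw (ee' (l' + 1))
      rw [← gl] at this
      exact this
    have q3 : tri (gp (chi (l' + 1))) (gp (th0 (l' + 1))) w =
        tri (gp (chi (l' + 1))) (gp (psi (l' + 1))) w +
        ee' (l' + 1) * tri (gp (chi (l' + 1))) (gp (chi (l' + 1))) w := by
      have := Coup_tri2 Bl Al Bl hw (ee' (l' + 1))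
      rw [← gl] at this
      exact this
    rw [q1, q2, q3]
  rw [w1, w2 _ An, w2 _ Bn, v1, v2, v3, v4, v5, v6]
  ring

/-! ### The sums -/

theorem Coup_sumle (s : Finset ℕ) (f : ℕ → ℝ) (m : ℕ) (hm : s.card = m) {a b : ℝ}
    (h : ∀ j ∈ s, a ≤ f j ∧ f j ≤ b) : m * a ≤ ∑ j ∈ s, f j ∧ ∑ j ∈ s, f j ≤ m * b := by
  constructor
  · have h1 := Finset.card_nsmul_le_sum s f a fun j hj => (h j hj).1
    rwa [nsmul_eq_mul, hm] at h1
  · have h1 := Finset.sum_le_card_nsmul s f b fun j hj => (h j hj).2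
    rwa [nsmul_eq_mul, hm] at h1

/-- the main term -/
theorem Coup_T1 (P : S_prod) (O : S_one) {n l : ℕ} (h : n < l) :
    (3 / 10) * ((NN n : ℝ) ^ 4 * (NN l : ℝ) ^ 3) ≤
      tri (gp (psi l)) (gp (psi l)) (gp (psi n)) ∧
    tri (gp (psi l)) (gp (psi l)) (gp (psi n)) ≤ 4 * ((NN n : ℝ) ^ 4 * (NN l : ℝ) ^ 3) := by
  have hpi := Real.pi_pos
  have hpi3 := Real.pi_gt_three
  have hpi4 := Real.pi_le_four
  obtain ⟨N, hN⟩ : ∃ N, N = NN l := ⟨_, rfl⟩
  obtain ⟨M, hM⟩ : ∃ M, M = NN n := ⟨_, rfl⟩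
  have h0 : 1024 * M ≤ N := by
    rw [hN, hM]
    exact Coup_NN h
  have hM0 : 65536 ≤ M := by
    rw [hM]
    exact Coup_NNge n
  have e1 : psi l = prd (fF N) (fG N) (fH N) := by
    rw [hN]
    rfl
  have e2 : psi n = prd (CoupS (Finset.Ico M (2 * M)) (fun _ => 1))
      (CoupC (Finset.Ico M (2 * M)) (fun _ => 1))
      (CoupS (Finset.Ico (16 * M) (17 * M)) (fun j => 1 / (2 * Real.pi * j))) := by
    rw [← Coup_fF, ← Coup_fG, ← Coup_fH, hM]
    rfl
  rw [e1, e2, ← hM, ← hN]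
  have g := Coup_gen P O (N := N) (s1 := Finset.Ico M (2 * M)) (s2 := Finset.Ico M (2 * M))
    (s3 := Finset.Ico (16 * M) (17 * M)) (α := fun _ => 1) (β := fun _ => 1)
    (γ := fun j => 1 / (2 * Real.pi * j))
    (fun j hj => by
      rw [Finset.mem_Ico] at hj
      exact ⟨by omega, by omega, zero_le_one⟩)
    (fun j hj => by
      rw [Finset.mem_Ico] at hj
      exact ⟨by omega, by omega, zero_le_one⟩)
    (fun j hj => by
      rw [Finset.mem_Ico] at hj
      exact ⟨by omega, by omega, by positivity⟩) rfl rfl rfl rfl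
  have hNr : (1024 : ℝ) * M ≤ N := by exact_mod_cast h0
  have hMr : (65536 : ℝ) ≤ M := by exact_mod_cast hM0
  have hN0 : (0 : ℝ) < N := by linarith
  have hM1 : (0 : ℝ) < M := by linarith
  have sA := Coup_sumle (Finset.Ico M (2 * M))
    (fun j => (1 : ℝ) * (2 * Real.pi * j) * (((N : ℝ) - j) / 2)) M
    (by rw [Nat.card_Ico]; omega) (a := 2 * Real.pi * M * (3 * N / 8))
    (b := 2 * Real.pi * (2 * M) * (N / 2)) (fun j hj => by
      rw [Finset.mem_Ico] at hj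
      have j1 : (M : ℝ) ≤ j := by exact_mod_cast hj.1
      have j2 : (j : ℝ) ≤ 2 * M := by exact_mod_cast hj.2.le
      have j3 : (0 : ℝ) ≤ j := Nat.cast_nonneg j
      constructor
      · rw [one_mul]
        refine mul_le_mul ?_ (by linarith) (by positivity) (by positivity)
        exact mul_le_mul_of_nonneg_left j1 (by positivity)
      · rw [one_mul]
        refine mul_le_mul ?_ (by linarith) (by linarith) (by positivity)
        exact mul_le_mul_of_nonneg_left j2 (by positivity))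
  have sB := Coup_sumle (Finset.Ico M (2 * M))
    (fun j => (1 : ℝ) * (((N : ℝ) - j) / 2)) M
    (by rw [Nat.card_Ico]; omega) (a := 3 * N / 8) (b := N / 2) (fun j hj => by
      rw [Finset.mem_Ico] at hj
      have j2 : (j : ℝ) ≤ 2 * M := by exact_mod_cast hj.2.le
      have j3 : (0 : ℝ) ≤ j := Nat.cast_nonneg j
      constructor
      · linarith
      · linarith)
  have sC := Coup_sumle (Finset.Ico (16 * M) (17 * M))
    (fun j => 1 / (2 * Real.pi * j) * (2 * Real.pi * j) * (((N : ℝ) - j) / 2)) M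
    (by rw [Nat.card_Ico]; omega) (a := 3 * N / 8) (b := N / 2) (fun j hj => by
      rw [Finset.mem_Ico] at hj
      have j1 : (1 : ℕ) ≤ j := by omega
      have j1' : (0 : ℝ) < j := by exact_mod_cast j1
      have j2 : (j : ℝ) ≤ 17 * M := by exact_mod_cast hj.2.le
      have e : 1 / (2 * Real.pi * j) * (2 * Real.pi * j) = 1 := by
        field_simp
      rw [e, one_mul]
      constructor
      · linarith
      · linarith)
  obtain ⟨g1, g2⟩ := g
  set A : ℝ := ∑ j ∈ Finset.Ico M (2 * M), (1 : ℝ) * (2 * Real.pi * j) * (((N : ℝ) - j) / 2)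
    with hA
  set B : ℝ := ∑ j ∈ Finset.Ico M (2 * M), (1 : ℝ) * (((N : ℝ) - j) / 2) with hB
  set C : ℝ := ∑ j ∈ Finset.Ico (16 * M) (17 * M),
    1 / (2 * Real.pi * j) * (2 * Real.pi * j) * (((N : ℝ) - j) / 2) with hC
  have a0 : (0 : ℝ) ≤ M * (2 * Real.pi * M * (3 * N / 8)) := by positivity
  have b0 : (0 : ℝ) ≤ M * (3 * N / 8) := by positivity
  have lowAB : (M * (2 * Real.pi * M * (3 * N / 8))) * (M * (3 * N / 8)) ≤ A * B :=
    mul_le_mul sA.1 sB.1 b0 (a0.trans sA.1)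
  have lowABC : (M * (2 * Real.pi * M * (3 * N / 8))) * (M * (3 * N / 8)) * (M * (3 * N / 8)) ≤
      A * B * C := mul_le_mul lowAB sC.1 b0 ((mul_nonneg a0 b0).trans lowAB)
  have upAB : A * B ≤ (M * (2 * Real.pi * (2 * M) * (N / 2))) * (M * (N / 2)) :=
    mul_le_mul sA.2 sB.2 (b0.trans sB.1) ((a0.trans sA.1).trans sA.2)
  have upABC : A * B * C ≤
      (M * (2 * Real.pi * (2 * M) * (N / 2))) * (M * (N / 2)) * (M * (N / 2)) :=
    mul_le_mul upAB sC.2 (b0.trans sC.1) (((mul_nonneg a0 b0).trans lowAB).trans upAB)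
  have hq : (0 : ℝ) ≤ (M : ℝ) ^ 4 * (N : ℝ) ^ 3 := by positivity
  constructor
  · refine le_trans ?_ g1
    have e : 31 / 32 * ((M * (2 * Real.pi * M * (3 * N / 8))) * (M * (3 * N / 8)) *
        (M * (3 * N / 8))) = (31 / 32 * 27 / 256 * Real.pi) * ((M : ℝ) ^ 4 * (N : ℝ) ^ 3) := by
      ring
    have k1 : (3 / 10 : ℝ) ≤ 31 / 32 * 27 / 256 * Real.pi := by linarith
    have k2 := mul_le_mul_of_nonneg_right k1 hq
    linarith
  · refine g2.trans ?_
    have e : 2 * ((M * (2 * Real.pi * (2 * M) * (N / 2))) * (M * (N / 2)) * (M * (N / 2))) =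
        Real.pi * ((M : ℝ) ^ 4 * (N : ℝ) ^ 3) := by ring
    have k2 := mul_le_mul_of_nonneg_right hpi4 hq
    linarith

/-- the term with the pump mode -/
theorem Coup_T2 (P : S_prod) (O : S_one) {n l : ℕ} (h : n < l) :
    0 ≤ tri (gp (psi l)) (gp (psi l)) (gp (chi n)) ∧
    tri (gp (psi l)) (gp (psi l)) (gp (chi n)) ≤ 2 * ((NN n : ℝ) ^ 4 * (NN l : ℝ) ^ 3) := by
  have hpi := Real.pi_pos
  have hpi4 := Real.pi_le_four
  obtain ⟨N, hN⟩ : ∃ N, N = NN l := ⟨_, rfl⟩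
  obtain ⟨M, hM⟩ : ∃ M, M = NN n := ⟨_, rfl⟩
  obtain ⟨m, hm⟩ : ∃ m, m = NN (n - 1) := ⟨_, rfl⟩
  have h0 : 1024 * M ≤ N := by
    rw [hN, hM]
    exact Coup_NN h
  have hM0 : 65536 ≤ M := by
    rw [hM]
    exact Coup_NNge n
  have hmM : m ≤ M := by
    rw [hm, hM]
    exact Coup_NNle (by omega)
  have hm0 : 65536 ≤ m := by
    rw [hm]
    exact Coup_NNge _
  have e1 : psi l = prd (fF N) (fG N) (fH N) := by
    rw [hN]
    rfl
  obtain ⟨a, ha⟩ : ∃ a, a = 4 * m - 3 := ⟨_, rfl⟩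
  obtain ⟨b, hb⟩ : ∃ b, b = 4 * m - 2 := ⟨_, rfl⟩
  obtain ⟨c, hc⟩ : ∃ c, c = 2 * (17 * m - 1) := ⟨_, rfl⟩
  have e2 : chi n = prd (CoupS {a} (fun _ => 1)) (CoupC {b} (fun _ => 1))
      (CoupS {c} (fun _ => 1)) := by
    rw [← Coup_sn, ← Coup_cs, ← Coup_sn, ha, hb, hc, hm]
    rfl
  rw [e1, e2, ← hM, ← hN]
  have g := Coup_gen P O (N := N) (s1 := {a}) (s2 := {b})
    (s3 := {c}) (α := fun _ => 1) (β := fun _ => 1) (γ := fun _ => 1)
    (fun j hj => by
      rw [Finset.mem_singleton] at hj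
      exact ⟨by omega, by omega, zero_le_one⟩)
    (fun j hj => by
      rw [Finset.mem_singleton] at hj
      exact ⟨by omega, by omega, zero_le_one⟩)
    (fun j hj => by
      rw [Finset.mem_singleton] at hj
      exact ⟨by omega, by omega, zero_le_one⟩) rfl rfl rfl rfl
  rw [Finset.sum_singleton, Finset.sum_singleton, Finset.sum_singleton] at g
  obtain ⟨g1, g2⟩ := g
  have hNr : (1024 : ℝ) * M ≤ N := by exact_mod_cast h0
  have hMr : (65536 : ℝ) ≤ M := by exact_mod_cast hM0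
  have hN0 : (0 : ℝ) < N := by linarith
  have hM1 : (0 : ℝ) < M := by linarith
  have a1 : (a : ℝ) ≤ 4 * M := by exact_mod_cast (by omega : a ≤ 4 * M)
  have b1 : (b : ℝ) ≤ 4 * M := by exact_mod_cast (by omega : b ≤ 4 * M)
  have c1 : (c : ℝ) ≤ 34 * M := by exact_mod_cast (by omega : c ≤ 34 * M)
  have a0 : (0 : ℝ) ≤ a := Nat.cast_nonneg a
  have b0 : (0 : ℝ) ≤ b := Nat.cast_nonneg b
  have c0 : (0 : ℝ) ≤ c := Nat.cast_nonneg c
  obtain ⟨A, hA⟩ : ∃ A : ℝ, A = 1 * (2 * Real.pi * a) * (((N : ℝ) - a) / 2) := ⟨_, rfl⟩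
  obtain ⟨B, hB⟩ : ∃ B : ℝ, B = 1 * (((N : ℝ) - b) / 2) := ⟨_, rfl⟩
  obtain ⟨C, hC⟩ : ∃ C : ℝ, C = 1 * (2 * Real.pi * c) * (((N : ℝ) - c) / 2) := ⟨_, rfl⟩
  rw [← hA, ← hB, ← hC] at g1 g2
  have hA0 : 0 ≤ A := by
    rw [hA]
    have : 0 ≤ ((N : ℝ) - a) / 2 := by linarith
    positivity
  have hB0 : 0 ≤ B := by
    rw [hB]
    have : 0 ≤ ((N : ℝ) - b) / 2 := by linarith
    positivity
  have hC0 : 0 ≤ C := by
    rw [hC]
    have : 0 ≤ ((N : ℝ) - c) / 2 := by linarith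
    positivity
  have hA1 : A ≤ 2 * Real.pi * (4 * M) * (N / 2) := by
    rw [hA, one_mul]
    refine mul_le_mul ?_ (by linarith) (by linarith) (by positivity)
    exact mul_le_mul_of_nonneg_left a1 (by positivity)
  have hB1 : B ≤ N / 2 := by
    rw [hB]
    linarith
  have hC1 : C ≤ 2 * Real.pi * (34 * M) * (N / 2) := by
    rw [hC, one_mul]
    refine mul_le_mul ?_ (by linarith) (by linarith) (by positivity)
    exact mul_le_mul_of_nonneg_left c1 (by positivity)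
  have hABC : 0 ≤ A * B * C := mul_nonneg (mul_nonneg hA0 hB0) hC0
  constructor
  · refine le_trans ?_ g1
    positivity
  · refine g2.trans ?_
    have k1 : A * B ≤ 2 * Real.pi * (4 * M) * (N / 2) * (N / 2) :=
      mul_le_mul hA1 hB1 hB0 (by positivity)
    have k2 : A * B * C ≤ 2 * Real.pi * (4 * M) * (N / 2) * (N / 2) *
        (2 * Real.pi * (34 * M) * (N / 2)) :=
      mul_le_mul k1 hC1 hC0 (by positivity)
    have k3 : 2 * Real.pi * (4 * M) * (N / 2) * (N / 2) *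
        (2 * Real.pi * (34 * M) * (N / 2)) = 68 * Real.pi ^ 2 * ((M : ℝ) ^ 2 * (N : ℝ) ^ 3) := by
      ring
    have k4 : Real.pi ^ 2 ≤ 16 := by nlinarith
    have k5 : 68 * Real.pi ^ 2 ≤ (M : ℝ) ^ 2 := by nlinarith
    have k6 : (0 : ℝ) ≤ (M : ℝ) ^ 2 * (N : ℝ) ^ 3 := by positivity
    have k7 := mul_le_mul_of_nonneg_right k5 k6
    have k8 : (M : ℝ) ^ 2 * ((M : ℝ) ^ 2 * (N : ℝ) ^ 3) = (M : ℝ) ^ 4 * (N : ℝ) ^ 3 := by ring
    linarith

/-! ### The bounds of the coupling coefficients -/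

theorem Coup_both (P : S_prod) (O : S_one) (G : S_trig) (h : S_nm) {n l : ℕ} (hl : n < l) :
    (RR n : ℝ) ^ 5 / 2 ≤ cc n l ∧ cc n l ≤ 2 ^ 10 * (RR n : ℝ) ^ 5 := by
  obtain ⟨t1, t2⟩ := Coup_T1 P O hl
  obtain ⟨t3, t4⟩ := Coup_T2 P O hl
  obtain ⟨e0, e1⟩ := Coup_ee n
  rw [Coup_exp P O G hl]
  obtain ⟨⟨l1, l2⟩, l3⟩ := h l
  obtain ⟨⟨n1, n2⟩, n3⟩ := h n
  have hR : (NN n : ℝ) = (RR n : ℝ) ^ 2 := by
    unfold NN
    push_cast
    rfl
  have hR0 : (256 : ℝ) ≤ RR n := by exact_mod_cast Coup_RRge n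
  have hN0 : (65536 : ℝ) ≤ NN l := by exact_mod_cast Coup_NNge l
  rw [hR] at t1 t2 t4 n1 n2
  set R : ℝ := (RR n : ℝ) with hRdef
  set N : ℝ := (NN l : ℝ) with hNdef
  have hRp : 0 < R := by linarith
  have hNp : 0 < N := by linarith
  obtain ⟨T, hT⟩ : ∃ T : ℝ, T = tri (gp (psi l)) (gp (psi l)) (gp (psi n))
      + ee' n * tri (gp (psi l)) (gp (psi l)) (gp (chi n)) := ⟨_, rfl⟩
  rw [← hT]
  have q0 : (R ^ 2) ^ 4 * N ^ 3 = R ^ 5 * (R ^ 3 * N ^ 3) := by ring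
  rw [q0] at t1 t2 t4
  have hT1 : 3 / 10 * (R ^ 5 * (R ^ 3 * N ^ 3)) ≤ T := by
    rw [hT]
    have := mul_nonneg e0 t3
    linarith
  have hT2 : T ≤ 6 * (R ^ 5 * (R ^ 3 * N ^ 3)) := by
    rw [hT]
    have h1 := mul_le_mul e1 t4 t3 zero_le_one
    linarith
  -- the norms
  have m1 : nm n ≤ R ^ 3 / 2 := by
    refine le_of_sq_le_sq ?_ (by positivity)
    calc nm n ^ 2 ≤ (R ^ 2) ^ 3 / 4 := n2
      _ = (R ^ 3 / 2) ^ 2 := by ring
  have m2 : R ^ 3 / 3 ≤ nm n := by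
    refine le_of_sq_le_sq ?_ n3.le
    calc (R ^ 3 / 3) ^ 2 = (R ^ 2) ^ 3 / 9 := by ring
      _ ≤ (R ^ 2) ^ 3 / 8 := by
        have : 0 ≤ (R ^ 2) ^ 3 := by positivity
        linarith
      _ ≤ _ := n1
  have d1 : nm l ^ 2 * nm n ≤ N ^ 3 / 4 * (R ^ 3 / 2) :=
    mul_le_mul l2 m1 n3.le (by positivity)
  have d2 : N ^ 3 / 8 * (R ^ 3 / 3) ≤ nm l ^ 2 * nm n :=
    mul_le_mul l1 m2 (by positivity) (by positivity)
  have dp : 0 < nm l ^ 2 * nm n := by positivity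
  have ee : (nm l)⁻¹ ^ 2 * (nm n)⁻¹ * T = T / (nm l ^ 2 * nm n) := by
    rw [div_eq_mul_inv, mul_inv, inv_pow]
    ring
  rw [ee]
  have hQ : 0 ≤ R ^ 5 * (R ^ 3 * N ^ 3) := by positivity
  have hR5 : 0 ≤ R ^ 5 := by positivity
  constructor
  · rw [le_div_iff₀ dp]
    have h1 := mul_le_mul_of_nonneg_left d1 (by positivity : 0 ≤ R ^ 5 / 2)
    calc R ^ 5 / 2 * (nm l ^ 2 * nm n) ≤ R ^ 5 / 2 * (N ^ 3 / 4 * (R ^ 3 / 2)) := h1
      _ = 1 / 16 * (R ^ 5 * (R ^ 3 * N ^ 3)) := by ring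
      _ ≤ 3 / 10 * (R ^ 5 * (R ^ 3 * N ^ 3)) := by linarith
      _ ≤ T := hT1
  · rw [div_le_iff₀ dp]
    have h1 := mul_le_mul_of_nonneg_left d2 (by positivity : 0 ≤ 2 ^ 10 * R ^ 5)
    calc T ≤ 6 * (R ^ 5 * (R ^ 3 * N ^ 3)) := hT2
      _ ≤ (2 ^ 10 / 24) * (R ^ 5 * (R ^ 3 * N ^ 3)) := by
        have : (6 : ℝ) ≤ 2 ^ 10 / 24 := by norm_num
        exact mul_le_mul_of_nonneg_right this hQ
      _ = 2 ^ 10 * R ^ 5 * (N ^ 3 / 8 * (R ^ 3 / 3)) := by ring
      _ ≤ _ := h1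

/-- lower bound of the main couplings -/
theorem s_cc (P : S_prod) (O : S_one) (G : S_trig) (h : S_nm) : S_cc := fun n =>
  (Coup_both P O G h (Nat.lt_succ_self n)).1

/-- upper bound of all couplings -/
theorem s_ccu (P : S_prod) (O : S_one) (G : S_trig) (h : S_nm) : S_ccu := fun n l hl => by
  obtain ⟨h1, h2⟩ := Coup_both P O G h hl
  have h3 : 0 ≤ (RR n : ℝ) ^ 5 / 2 := by positivity
  rw [abs_of_nonneg (h3.trans h1)]
  exact h2

end Pool.Agent.H226.GB
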