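import Pool.Agent.H226.GB.Spec3

/-!
GB14: growth of the next level (by helper385).
-/

open MeasureTheory Set Filter Topology

namespace Pool.Agent.H226.GB

theorem grow_mono {f f' : ℝ → ℝ} {a b : ℝ} (hf : ContinuousOn f (Icc a b))
    (hd : ∀ t ∈ Ioo a b, HasDerivAt f (f' t) t) (h0 : ∀ t ∈ Ioo a b, 0 ≤ f' t) :
    MonotoneOn f (Icc a b) := by
  refine monotoneOn_of_hasDerivWithinAt_nonneg (convex_Icc a b) hf (f' := f') ?_ ?_
  · intro t ht
    rw [interior_Icc] at ht
    exact (hd t ht).hasDerivWithinAt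
  · intro t ht
    rw [interior_Icc] at ht
    exact h0 t ht

theorem s_grow : S_grow := by
  intro x y z x' z' I c c1 E p err D t0 s1 s h01 h1s hsD hc hc1 hE hp herr cx cz cI dx dz dI
    hy hz hx' hz'
  have h0s : t0 ≤ s := h01.trans h1s
  have hI : MonotoneOn I (Icc t0 s) :=
    grow_mono cI dI (fun t ht => hy t (Ioo_subset_Icc_self ht))
  have m0 : t0 ∈ Icc t0 s := ⟨le_rfl, h0s⟩
  have m1 : s1 ∈ Icc t0 s := ⟨h01, h1s⟩
  have ms : s ∈ Icc t0 s := ⟨h0s, le_rfl⟩
  rcases lt_or_ge (x t0 - x s1 - err * D) 0 with hneg | hpos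
  · refine le_trans ?_ (hz s ms)
    refine mul_nonpos_of_nonpos_of_nonneg ?_ (Real.exp_pos _).le
    exact mul_nonpos_of_nonneg_of_nonpos (by positivity) hneg.le
  obtain ⟨Psi, hPsi⟩ : ∃ Psi : ℝ → ℝ, Psi = fun t => c1 * (I t - I t0) - E * (t - t0) := ⟨_, rfl⟩
  have cPsi : ContinuousOn Psi (Icc t0 s) := by
    rw [hPsi]
    exact (continuousOn_const.mul (cI.sub continuousOn_const)).sub
      (continuousOn_const.mul (continuousOn_id.sub continuousOn_const))
  have dPsi : ∀ t ∈ Ioo t0 s, HasDerivAt Psi (c1 * y t - E) t := by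
    intro t ht
    rw [hPsi]
    have h1 := (((dI t ht).sub_const (I t0)).const_mul c1).sub
      (((hasDerivAt_id t).sub_const t0).const_mul E)
    rw [mul_one] at h1
    exact h1
  obtain ⟨u, hu⟩ : ∃ u : ℝ → ℝ, u = fun t => z t * Real.exp (-Psi t) := ⟨_, rfl⟩
  have cu : ContinuousOn u (Icc t0 s) := by
    rw [hu]
    exact cz.mul (Real.continuous_exp.comp_continuousOn cPsi.neg)
  have du : ∀ t ∈ Ioo t0 s, HasDerivAt u ((z' t - (c1 * y t - E) * z t) * Real.exp (-Psi t)) t := by
    intro t ht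
    rw [hu]
    have h1 := (dz t ht).mul ((dPsi t ht).neg.exp)
    refine h1.congr_deriv ?_
    rw [Pi.neg_apply]
    ring
  have du0 : ∀ t ∈ Ioo t0 s, p * y t ^ 2 * Real.exp (-Psi t) ≤
      (z' t - (c1 * y t - E) * z t) * Real.exp (-Psi t) := by
    intro t ht
    have h1 := hz' t ht
    exact mul_le_mul_of_nonneg_right (by linarith) (Real.exp_pos _).le
  have hmono : MonotoneOn u (Icc t0 s) := by
    refine grow_mono cu du fun t ht => le_trans ?_ (du0 t ht)
    positivity
  obtain ⟨J, hJ⟩ : ∃ J : ℝ, J = c1 * (I s1 - I t0) := ⟨_, rfl⟩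
  obtain ⟨k, hk⟩ : ∃ k : ℝ, k = p / c * Real.exp (-J) := ⟨_, rfl⟩
  have hk0 : 0 ≤ k := by
    rw [hk]
    positivity
  -- the first part
  have hsub : Icc t0 s1 ⊆ Icc t0 s := Icc_subset_Icc_right h1s
  have hsub' : Ioo t0 s1 ⊆ Ioo t0 s := Ioo_subset_Ioo_right h1s
  have hm1 : MonotoneOn (fun t => u t + k * x t + k * err * (t - t0)) (Icc t0 s1) := by
    refine grow_mono (f' := fun t => (z' t - (c1 * y t - E) * z t) * Real.exp (-Psi t) +
      k * x' t + k * err * 1) ?_ ?_ ?_
    · exact ((cu.mono hsub).add (continuousOn_const.mul (cx.mono hsub))).add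
        (continuousOn_const.mul (continuousOn_id.sub continuousOn_const))
    · intro t ht
      exact ((du t (hsub' ht)).add ((dx t (hsub' ht)).const_mul k)).add
        (((hasDerivAt_id t).sub_const t0).const_mul (k * err))
    · intro t ht
      have h1 := du0 t (hsub' ht)
      have h2 := hx' t (hsub' ht)
      have h3 : Real.exp (-J) ≤ Real.exp (-Psi t) := by
        apply Real.exp_le_exp.2
        have h4 : I t ≤ I s1 := hI (hsub (Ioo_subset_Icc_self ht)) m1 ht.2.le
        have h5 : c1 * (I t - I t0) ≤ J := by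
          rw [hJ]
          exact mul_le_mul_of_nonneg_left (by linarith) hc1
        have h6 : 0 ≤ E * (t - t0) := mul_nonneg hE (by linarith [ht.1])
        rw [hPsi]
        simp only
        linarith
      have h4 : p * y t ^ 2 * Real.exp (-J) ≤ p * y t ^ 2 * Real.exp (-Psi t) :=
        mul_le_mul_of_nonneg_left h3 (by positivity)
      have h5 : p * y t ^ 2 * Real.exp (-J) = k * (c * y t ^ 2) := by
        rw [hk]
        field_simp
      have h6 : k * (-(c * y t ^ 2) - err) ≤ k * x' t := mul_le_mul_of_nonneg_left h2 hk0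
      nlinarith
  have h1 := hm1 ⟨le_rfl, h01⟩ ⟨h01, le_rfl⟩ h01
  simp only [sub_self, mul_zero, add_zero] at h1
  have hu0 : 0 ≤ u t0 := by
    rw [hu]
    exact mul_nonneg (hz t0 m0) (Real.exp_pos _).le
  have h2 : k * (x t0 - x s1 - err * D) ≤ u s1 := by
    have h3 : k * err * (s1 - t0) ≤ k * err * D :=
      mul_le_mul_of_nonneg_left (by linarith) (by positivity)
    nlinarith
  have h3 : u s1 ≤ u s := hmono m1 ms h1s
  have h4 : z s = u s * Real.exp (Psi s) := by
    rw [hu]
    simp only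
    rw [mul_assoc, ← Real.exp_add, neg_add_cancel, Real.exp_zero, mul_one]
  rw [h4]
  have h5 : k * (x t0 - x s1 - err * D) * Real.exp (Psi s) ≤ u s * Real.exp (Psi s) :=
    mul_le_mul_of_nonneg_right (h2.trans h3) (Real.exp_pos _).le
  refine le_trans ?_ h5
  have h6 : k * (x t0 - x s1 - err * D) * Real.exp (Psi s) =
      p / c * (x t0 - x s1 - err * D) * Real.exp (-J + Psi s) := by
    rw [hk, Real.exp_add]
    ring
  rw [h6]
  refine mul_le_mul_of_nonneg_left ?_ (by positivity)
  apply Real.exp_le_exp.2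
  have h7 : E * (s - t0) ≤ E * D := mul_le_mul_of_nonneg_left hsD hE
  rw [hPsi, hJ]
  simp only
  nlinarith

end Pool.Agent.H226.GB
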