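import Pool.Agent.H226.GB.Spec2

/-!
Local existence for the infinite system.  The terms other than the dissipation are bounded bilinear
maps in all the weighted spaces, with tame estimates, so that the contraction principle applied to
Duhamel's formula gives the solution.
-/

open MeasureTheory Set Filter Topology
open scoped BoundedContinuousFunction

namespace Pool.Agent.H226.GB

/-- the right side without the dissipation, at a fixed time -/
noncomputable def Loc1_N (c : ℕ → ℕ → ℝ) (p : ℕ → ℝ) (x : ℕ → ℝ) (m : ℕ) : ℝ :=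
  (∑ n ∈ Finset.range m, c n m * x n) * x m - (∑' l, if m < l then c m l * x l ^ 2 else 0)
    + (if m = 0 then 0 else p (m - 1) * x (m - 1) ^ 2) - p m * x m * x (m + 1)

theorem Loc1_FF (c : ℕ → ℕ → ℝ) (p ν : ℕ → ℝ) (a : ℕ → ℝ → ℝ) (m : ℕ) (t : ℝ) :
    FF c p ν a m t = Loc1_N c p (fun n => a n t) m - ν m * a m t := by
  unfold FF Loc1_N pm
  ring

theorem Loc1_one (m : ℕ) : (1 : ℝ) ≤ RR m := by
  have h : 1 ≤ RR m := Nat.one_le_two_pow
  exact_mod_cast h

theorem Loc1_mono {m n : ℕ} (h : m ≤ n) : (RR m : ℝ) ≤ RR n := by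
  have h1 : RR m ≤ RR n :=
    Nat.pow_le_pow_right (by norm_num) (Nat.pow_le_pow_left (by omega) 3)
  exact_mod_cast h1

/-- a summable weight -/
noncomputable def Loc1_w (n : ℕ) : ℝ := 1 / 2 / 2 ^ n

theorem Loc1_w0 (n : ℕ) : 0 ≤ Loc1_w n := by unfold Loc1_w; positivity

theorem Loc1_wsum : HasSum Loc1_w 1 := hasSum_geometric_two' 1

theorem Loc1_wfin (m : ℕ) : ∑ n ∈ Finset.range m, Loc1_w n ≤ 1 :=
  sum_le_hasSum _ (fun n _ => Loc1_w0 n) Loc1_wsum

theorem Loc1_wR (n : ℕ) : 1 ≤ Loc1_w n * RR n := by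
  have h : 2 ^ (n + 1) ≤ RR n := by
    refine Nat.pow_le_pow_right (by norm_num) ?_
    nlinarith [Nat.zero_le n, Nat.zero_le (n ^ 2), Nat.zero_le (n ^ 3)]
  have h1 : (2 : ℝ) ^ (n + 1) ≤ RR n := by exact_mod_cast h
  have h2 : (0 : ℝ) < 2 ^ n := by positivity
  calc (1 : ℝ) = Loc1_w n * 2 ^ (n + 1) := by
        unfold Loc1_w; rw [pow_succ]; field_simp
    _ ≤ Loc1_w n * RR n := mul_le_mul_of_nonneg_left h1 (Loc1_w0 n)

theorem Loc1_five {x M : ℝ} {n m : ℕ} (hnm : n ≤ m) (h : (RR m : ℝ) ^ 6 * |x| ≤ M) :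
    (RR n : ℝ) ^ 5 * |x| ≤ M * Loc1_w n := by
  have hR := Loc1_one n
  have h2 : (RR n : ℝ) ^ 6 * |x| ≤ M :=
    le_trans (mul_le_mul_of_nonneg_right (pow_le_pow_left₀ (by linarith) (Loc1_mono hnm) 6)
      (abs_nonneg x)) h
  have h3 : 0 ≤ (RR n : ℝ) ^ 5 * |x| := by positivity
  calc (RR n : ℝ) ^ 5 * |x| = 1 * ((RR n : ℝ) ^ 5 * |x|) := by ring
    _ ≤ (Loc1_w n * RR n) * ((RR n : ℝ) ^ 5 * |x|) :=
        mul_le_mul_of_nonneg_right (Loc1_wR n) h3
    _ = ((RR n : ℝ) ^ 6 * |x|) * Loc1_w n := by ring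
    _ ≤ M * Loc1_w n := mul_le_mul_of_nonneg_right h2 (Loc1_w0 n)

theorem Loc1_five' {x M : ℝ} {m l : ℕ} (hml : m ≤ l) (h : (RR l : ℝ) ^ 6 * |x| ≤ M) :
    (RR m : ℝ) ^ 5 * |x| ≤ M * Loc1_w l := by
  have hR := Loc1_one m
  exact le_trans (mul_le_mul_of_nonneg_right (pow_le_pow_left₀ (by linarith) (Loc1_mono hml) 5)
      (abs_nonneg x)) (Loc1_five le_rfl h)

theorem Loc1_le {x M : ℝ} {m k : ℕ} (h : (RR m : ℝ) ^ k * |x| ≤ M) : |x| ≤ M := by
  have h1 : (1 : ℝ) ≤ (RR m : ℝ) ^ k := one_le_pow₀ (Loc1_one m)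
  calc |x| = 1 * |x| := by ring
    _ ≤ (RR m : ℝ) ^ k * |x| := mul_le_mul_of_nonneg_right h1 (abs_nonneg x)
    _ ≤ M := h

variable {c : ℕ → ℕ → ℝ} {p ν : ℕ → ℝ} {C : ℝ}

theorem Loc1_C0 (hc : Coef c p ν C) : 0 ≤ C := by
  have h := hc.c_le 0 1 (by norm_num)
  have h1 := Loc1_one 0
  by_contra hC
  push Not at hC
  have h2 : C * (RR 0 : ℝ) ^ 5 < 0 := mul_neg_of_neg_of_pos hC (by positivity)
  linarith [abs_nonneg (c 0 1)]

theorem Loc1_S1 (hc : Coef c p ν C) {y : ℕ → ℝ} {M : ℝ} {m : ℕ} (hM : 0 ≤ M)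
    (hy : ∀ n, n < m → (RR n : ℝ) ^ 5 * |y n| ≤ M * Loc1_w n) :
    |∑ n ∈ Finset.range m, c n m * y n| ≤ C * M := by
  have h0 := Loc1_C0 hc
  refine (Finset.abs_sum_le_sum_abs _ _).trans ?_
  have h1 : ∀ n ∈ Finset.range m, |c n m * y n| ≤ C * M * Loc1_w n := by
    intro n hn
    have hn' := Finset.mem_range.1 hn
    rw [abs_mul]
    calc |c n m| * |y n| ≤ (C * (RR n : ℝ) ^ 5) * |y n| :=
          mul_le_mul_of_nonneg_right (hc.c_le n m hn') (abs_nonneg _)
      _ = C * ((RR n : ℝ) ^ 5 * |y n|) := by ring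
      _ ≤ C * (M * Loc1_w n) := mul_le_mul_of_nonneg_left (hy n hn') h0
      _ = _ := by ring
  refine (Finset.sum_le_sum h1).trans ?_
  rw [← Finset.mul_sum]
  calc C * M * ∑ n ∈ Finset.range m, Loc1_w n ≤ C * M * 1 :=
        mul_le_mul_of_nonneg_left (Loc1_wfin m) (mul_nonneg h0 hM)
    _ = C * M := by ring

theorem Loc1_S2t (hc : Coef c p ν C) {y : ℕ → ℝ} {G : ℝ} {m : ℕ} (hG : 0 ≤ G)
    (hy : ∀ l, m < l → (RR m : ℝ) ^ 5 * |y l| ≤ G * Loc1_w l) (l : ℕ) :
    ‖if m < l then c m l * y l else 0‖ ≤ C * G * Loc1_w l := by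
  have h0 := Loc1_C0 hc
  split_ifs with hl
  · rw [norm_mul, Real.norm_eq_abs, Real.norm_eq_abs]
    calc |c m l| * |y l| ≤ (C * (RR m : ℝ) ^ 5) * |y l| :=
          mul_le_mul_of_nonneg_right (hc.c_le m l hl) (abs_nonneg _)
      _ = C * ((RR m : ℝ) ^ 5 * |y l|) := by ring
      _ ≤ C * (G * Loc1_w l) := mul_le_mul_of_nonneg_left (hy l hl) h0
      _ = _ := by ring
  · rw [norm_zero]
    exact mul_nonneg (mul_nonneg h0 hG) (Loc1_w0 l)

theorem Loc1_S2s (hc : Coef c p ν C) {y : ℕ → ℝ} {G : ℝ} {m : ℕ} (hG : 0 ≤ G)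
    (hy : ∀ l, m < l → (RR m : ℝ) ^ 5 * |y l| ≤ G * Loc1_w l) :
    Summable fun l => if m < l then c m l * y l else 0 :=
  Summable.of_norm_bounded (Loc1_wsum.summable.mul_left (C * G)) (Loc1_S2t hc hG hy)

theorem Loc1_S2 (hc : Coef c p ν C) {y : ℕ → ℝ} {G : ℝ} {m : ℕ} (hG : 0 ≤ G)
    (hy : ∀ l, m < l → (RR m : ℝ) ^ 5 * |y l| ≤ G * Loc1_w l) :
    |∑' l, if m < l then c m l * y l else 0| ≤ C * G := by
  have h := tsum_of_norm_bounded (Loc1_wsum.mul_left (C * G)) (Loc1_S2t hc hG hy)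
  rw [mul_one] at h
  exact h

/-- the tame estimate -/
theorem Loc1_bd (hc : Coef c p ν C) {x : ℕ → ℝ} {M E P P0 : ℝ} {k : ℕ}
    (hP : ∀ n, p n * (RR (n + 1) : ℝ) ^ k ≤ P) (hP0 : ∀ n, p n ≤ P0)
    (hx : ∀ n, (RR n : ℝ) ^ 6 * |x n| ≤ M) (hE : ∀ n, (RR n : ℝ) ^ k * |x n| ≤ E) (m : ℕ) :
    (RR m : ℝ) ^ k * |Loc1_N c p x m| ≤ (2 * C + P + P0) * M * E := by
  have h0 := Loc1_C0 hc
  have hM : 0 ≤ M := le_trans (abs_nonneg _) (Loc1_le (hx 0))
  have hE0 : 0 ≤ E := le_trans (abs_nonneg _) (Loc1_le (hE 0))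
  have hR := Loc1_one m
  have hRk : 0 ≤ (RR m : ℝ) ^ k := by positivity
  have t1 : (RR m : ℝ) ^ k * |(∑ n ∈ Finset.range m, c n m * x n) * x m| ≤ C * M * E := by
    rw [abs_mul]
    have h1 := Loc1_S1 (m := m) hc hM fun n _ => Loc1_five le_rfl (hx n)
    calc (RR m : ℝ) ^ k * (|∑ n ∈ Finset.range m, c n m * x n| * |x m|)
        = |∑ n ∈ Finset.range m, c n m * x n| * ((RR m : ℝ) ^ k * |x m|) := by ring
      _ ≤ (C * M) * E := mul_le_mul h1 (hE m) (by positivity) (mul_nonneg h0 hM)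
  have t2 : (RR m : ℝ) ^ k * |∑' l, if m < l then c m l * x l ^ 2 else 0| ≤ C * M * E := by
    have e : (RR m : ℝ) ^ k * |∑' l, if m < l then c m l * x l ^ 2 else 0|
        = |∑' l, if m < l then c m l * ((RR m : ℝ) ^ k * x l ^ 2) else 0| := by
      rw [← abs_of_nonneg hRk, ← abs_mul, ← tsum_mul_left, abs_of_nonneg hRk]
      congr 1
      refine tsum_congr fun l => ?_
      split_ifs
      · ring
      · ring
    rw [e]
    have h2 := Loc1_S2 (m := m) (y := fun l => (RR m : ℝ) ^ k * x l ^ 2) hc (mul_nonneg hM hE0)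
      (fun l hl => ?_)
    · calc _ ≤ C * (M * E) := h2
        _ = C * M * E := by ring
    · have h3 := Loc1_five' hl.le (hx l)
      have h4 : (RR m : ℝ) ^ k * |x l| ≤ E :=
        le_trans (mul_le_mul_of_nonneg_right (pow_le_pow_left₀ (by linarith) (Loc1_mono hl.le) k)
          (abs_nonneg _)) (hE l)
      calc (RR m : ℝ) ^ 5 * |(RR m : ℝ) ^ k * x l ^ 2|
          = ((RR m : ℝ) ^ 5 * |x l|) * ((RR m : ℝ) ^ k * |x l|) := by
            rw [abs_mul, abs_of_nonneg hRk, abs_pow]; ring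
        _ ≤ (M * Loc1_w l) * E := mul_le_mul h3 h4 (by positivity)
            (mul_nonneg hM (Loc1_w0 l))
        _ = M * E * Loc1_w l := by ring
  have t3 : (RR m : ℝ) ^ k * |if m = 0 then 0 else p (m - 1) * x (m - 1) ^ 2| ≤ P * M * E := by
    have hPn : 0 ≤ P := le_trans (mul_nonneg (hc.p0 0) (by positivity)) (hP 0)
    split_ifs with hm
    · rw [abs_zero, mul_zero]
      positivity
    · obtain ⟨n, rfl⟩ : ∃ n, m = n + 1 := ⟨m - 1, by omega⟩
      rw [Nat.add_sub_cancel, abs_mul, abs_of_nonneg (hc.p0 n), abs_pow]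
      have h5 := Loc1_le (hx n)
      have h6 := Loc1_le (hE n)
      calc (RR (n + 1) : ℝ) ^ k * (p n * |x n| ^ 2)
          = (p n * (RR (n + 1) : ℝ) ^ k) * (|x n| * |x n|) := by ring
        _ ≤ P * (M * E) := mul_le_mul (hP n) (mul_le_mul h5 h6 (abs_nonneg _) hM)
            (by positivity) hPn
        _ = P * M * E := by ring
  have t4 : (RR m : ℝ) ^ k * |p m * x m * x (m + 1)| ≤ P0 * M * E := by
    have hPn : 0 ≤ P0 := le_trans (hc.p0 0) (hP0 0)
    rw [abs_mul, abs_mul, abs_of_nonneg (hc.p0 m)]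
    have h5 := Loc1_le (hx (m + 1))
    calc (RR m : ℝ) ^ k * (p m * |x m| * |x (m + 1)|)
        = p m * (|x (m + 1)| * ((RR m : ℝ) ^ k * |x m|)) := by ring
      _ ≤ P0 * (M * E) := mul_le_mul (hP0 m) (mul_le_mul h5 (hE m) (by positivity) hM)
            (by positivity) hPn
      _ = P0 * M * E := by ring
  unfold Loc1_N
  have h7 : ∀ u v w z : ℝ, |u - v + w - z| ≤ |u| + |v| + |w| + |z| := fun u v w z => by
    have h8 := abs_sub (u - v + w) z
    have h9 := abs_add_le (u - v) w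
    have h10 := abs_sub u v
    linarith
  calc _ ≤ (RR m : ℝ) ^ k * (_ + _ + _ + _) := mul_le_mul_of_nonneg_left (h7 _ _ _ _) hRk
    _ = _ := by rw [mul_add, mul_add, mul_add]
    _ ≤ C * M * E + C * M * E + P * M * E + P0 * M * E :=
        add_le_add (add_le_add (add_le_add t1 t2) t3) t4
    _ = _ := by ring

/-- the Lipschitz estimate -/
theorem Loc1_lip (hc : Coef c p ν C) {x y : ℕ → ℝ} {M P0 d : ℝ} (hP0 : ∀ n, p n ≤ P0)
    (hx : ∀ n, (RR n : ℝ) ^ 6 * |x n| ≤ M) (hy : ∀ n, (RR n : ℝ) ^ 6 * |y n| ≤ M)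
    (hd : ∀ n, |x n - y n| ≤ d) (m : ℕ) :
    |Loc1_N c p x m - Loc1_N c p y m| ≤ 4 * (C + P0) * M * d := by
  have h0 := Loc1_C0 hc
  have hM : 0 ≤ M := le_trans (abs_nonneg _) (Loc1_le (hx 0))
  have hd0 : 0 ≤ d := le_trans (abs_nonneg _) (hd 0)
  have hPn : 0 ≤ P0 := le_trans (hc.p0 0) (hP0 0)
  have hR := Loc1_one m
  have sx : Summable fun l => if m < l then c m l * x l ^ 2 else 0 := by
    refine Loc1_S2s (G := M * M) hc (mul_nonneg hM hM) fun l hl => ?_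
    rw [abs_pow, sq, ← mul_assoc]
    calc (RR m : ℝ) ^ 5 * |x l| * |x l| ≤ (M * Loc1_w l) * M :=
          mul_le_mul (Loc1_five' hl.le (hx l)) (Loc1_le (hx l)) (abs_nonneg _)
            (mul_nonneg hM (Loc1_w0 l))
      _ = M * M * Loc1_w l := by ring
  have sy : Summable fun l => if m < l then c m l * y l ^ 2 else 0 := by
    refine Loc1_S2s (G := M * M) hc (mul_nonneg hM hM) fun l hl => ?_
    rw [abs_pow, sq, ← mul_assoc]
    calc (RR m : ℝ) ^ 5 * |y l| * |y l| ≤ (M * Loc1_w l) * M :=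
          mul_le_mul (Loc1_five' hl.le (hy l)) (Loc1_le (hy l)) (abs_nonneg _)
            (mul_nonneg hM (Loc1_w0 l))
      _ = M * M * Loc1_w l := by ring
  have t1 : |(∑ n ∈ Finset.range m, c n m * x n) * x m
      - (∑ n ∈ Finset.range m, c n m * y n) * y m| ≤ 2 * C * M * d := by
    have e : (∑ n ∈ Finset.range m, c n m * x n) * x m
      - (∑ n ∈ Finset.range m, c n m * y n) * y m
      = (∑ n ∈ Finset.range m, c n m * ((x n - y n) * x m))
        + (∑ n ∈ Finset.range m, c n m * y n) * (x m - y m) := by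
      have e1 : ∑ n ∈ Finset.range m, c n m * ((x n - y n) * x m)
          = (∑ n ∈ Finset.range m, c n m * x n) * x m
            - (∑ n ∈ Finset.range m, c n m * y n) * x m := by
        rw [Finset.sum_mul, Finset.sum_mul, ← Finset.sum_sub_distrib]
        exact Finset.sum_congr rfl fun n _ => by ring
      rw [e1]
      ring
    rw [e]
    have h1 : |∑ n ∈ Finset.range m, c n m * ((x n - y n) * x m)| ≤ C * (d * M) := by
      refine Loc1_S1 hc (mul_nonneg hd0 hM) fun n hn => ?_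
      rw [abs_mul]
      have h2 := Loc1_five hn.le (hx m)
      calc (RR n : ℝ) ^ 5 * (|x n - y n| * |x m|)
          = |x n - y n| * ((RR n : ℝ) ^ 5 * |x m|) := by ring
        _ ≤ d * (M * Loc1_w n) := mul_le_mul (hd n) h2 (by positivity) hd0
        _ = d * M * Loc1_w n := by ring
    have h3 : |(∑ n ∈ Finset.range m, c n m * y n) * (x m - y m)| ≤ (C * M) * d := by
      rw [abs_mul]
      exact mul_le_mul (Loc1_S1 (m := m) hc hM fun n _ => Loc1_five le_rfl (hy n)) (hd m)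
        (abs_nonneg _) (mul_nonneg h0 hM)
    refine (abs_add_le _ _).trans ?_
    linarith
  have t2 : |(∑' l, if m < l then c m l * x l ^ 2 else 0)
      - ∑' l, if m < l then c m l * y l ^ 2 else 0| ≤ 2 * C * M * d := by
    rw [← sx.tsum_sub sy]
    have e : ∀ l, ((if m < l then c m l * x l ^ 2 else 0) - if m < l then c m l * y l ^ 2 else 0)
        = if m < l then c m l * (x l ^ 2 - y l ^ 2) else 0 := fun l => by
      split_ifs <;> ring
    rw [tsum_congr e]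
    have h2 := Loc1_S2 (m := m) (y := fun l => x l ^ 2 - y l ^ 2) (G := 2 * M * d) hc
      (by positivity) (fun l hl => ?_)
    · calc _ ≤ C * (2 * M * d) := h2
        _ = _ := by ring
    · have e2 : x l ^ 2 - y l ^ 2 = (x l - y l) * (x l + y l) := by ring
      rw [e2, abs_mul]
      have h3 := Loc1_five' hl.le (hx l)
      have h4 := Loc1_five' hl.le (hy l)
      have h5 : (RR m : ℝ) ^ 5 * |x l + y l| ≤ 2 * M * Loc1_w l := by
        calc (RR m : ℝ) ^ 5 * |x l + y l| ≤ (RR m : ℝ) ^ 5 * (|x l| + |y l|) :=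
              mul_le_mul_of_nonneg_left (abs_add_le _ _) (by positivity)
          _ = (RR m : ℝ) ^ 5 * |x l| + (RR m : ℝ) ^ 5 * |y l| := by ring
          _ ≤ M * Loc1_w l + M * Loc1_w l := add_le_add h3 h4
          _ = _ := by ring
      calc (RR m : ℝ) ^ 5 * (|x l - y l| * |x l + y l|)
          = |x l - y l| * ((RR m : ℝ) ^ 5 * |x l + y l|) := by ring
        _ ≤ d * (2 * M * Loc1_w l) := mul_le_mul (hd l) h5 (by positivity) hd0
        _ = _ := by ring
  have t3 : |(if m = 0 then 0 else p (m - 1) * x (m - 1) ^ 2)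
      - if m = 0 then 0 else p (m - 1) * y (m - 1) ^ 2| ≤ 2 * P0 * M * d := by
    split_ifs with hm
    · rw [sub_zero, abs_zero]
      positivity
    · have e2 : p (m - 1) * x (m - 1) ^ 2 - p (m - 1) * y (m - 1) ^ 2
          = p (m - 1) * ((x (m - 1) - y (m - 1)) * (x (m - 1) + y (m - 1))) := by ring
      rw [e2, abs_mul, abs_mul, abs_of_nonneg (hc.p0 _)]
      have h5 : |x (m - 1) + y (m - 1)| ≤ 2 * M := by
        refine (abs_add_le _ _).trans ?_
        linarith [Loc1_le (hx (m - 1)), Loc1_le (hy (m - 1))]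
      calc p (m - 1) * (|x (m - 1) - y (m - 1)| * |x (m - 1) + y (m - 1)|)
          ≤ P0 * (d * (2 * M)) := mul_le_mul (hP0 _)
            (mul_le_mul (hd _) h5 (abs_nonneg _) hd0) (by positivity) hPn
        _ = _ := by ring
  have t4 : |p m * x m * x (m + 1) - p m * y m * y (m + 1)| ≤ 2 * P0 * M * d := by
    have e2 : p m * x m * x (m + 1) - p m * y m * y (m + 1)
        = p m * ((x m - y m) * x (m + 1) + y m * (x (m + 1) - y (m + 1))) := by ring
    rw [e2, abs_mul, abs_of_nonneg (hc.p0 _)]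
    have h5 : |(x m - y m) * x (m + 1) + y m * (x (m + 1) - y (m + 1))| ≤ d * M + M * d := by
      refine (abs_add_le _ _).trans (add_le_add ?_ ?_)
      · rw [abs_mul]
        exact mul_le_mul (hd m) (Loc1_le (hx _)) (abs_nonneg _) hd0
      · rw [abs_mul]
        exact mul_le_mul (Loc1_le (hy _)) (hd _) (abs_nonneg _) hM
    calc p m * |(x m - y m) * x (m + 1) + y m * (x (m + 1) - y (m + 1))|
        ≤ P0 * (d * M + M * d) := mul_le_mul (hP0 m) h5 (abs_nonneg _) hPn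
      _ = _ := by ring
  have e : Loc1_N c p x m - Loc1_N c p y m
      = ((∑ n ∈ Finset.range m, c n m * x n) * x m
          - (∑ n ∈ Finset.range m, c n m * y n) * y m)
        - ((∑' l, if m < l then c m l * x l ^ 2 else 0)
          - ∑' l, if m < l then c m l * y l ^ 2 else 0)
        + ((if m = 0 then 0 else p (m - 1) * x (m - 1) ^ 2)
          - if m = 0 then 0 else p (m - 1) * y (m - 1) ^ 2)
        - (p m * x m * x (m + 1) - p m * y m * y (m + 1)) := by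
    unfold Loc1_N
    ring
  have h7 : ∀ u v w z : ℝ, |u - v + w - z| ≤ |u| + |v| + |w| + |z| := fun u v w z => by
    have h8 := abs_sub (u - v + w) z
    have h9 := abs_add_le (u - v) w
    have h10 := abs_sub u v
    linarith
  rw [e]
  refine (h7 _ _ _ _).trans ?_
  linarith

/-- continuity in time -/
theorem Loc1_cont (hc : Coef c p ν C) {a : ℕ → ℝ → ℝ} {M : ℝ} (ha : ∀ n, Continuous (a n))
    (hx : ∀ n t, (RR n : ℝ) ^ 6 * |a n t| ≤ M) (m : ℕ) :
    Continuous fun t => Loc1_N c p (fun n => a n t) m := by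
  have h0 := Loc1_C0 hc
  have hM : 0 ≤ M := le_trans (abs_nonneg _) (Loc1_le (hx 0 0))
  unfold Loc1_N
  refine Continuous.sub (Continuous.add (Continuous.sub ?_ ?_) ?_) ?_
  · exact (continuous_finsetSum _ fun n _ => continuous_const.mul (ha n)).mul (ha m)
  · refine continuous_tsum (u := fun l => C * (M * M) * Loc1_w l) (fun l => ?_)
      (Loc1_wsum.summable.mul_left _) (fun l t => ?_)
    · split_ifs
      · exact continuous_const.mul ((ha l).pow 2)
      · exact continuous_const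
    · refine Loc1_S2t (y := fun l => a l t ^ 2) (G := M * M) hc (mul_nonneg hM hM)
        (fun l hl => ?_) l
      show (RR m : ℝ) ^ 5 * |a l t ^ 2| ≤ M * M * Loc1_w l
      rw [abs_pow, sq, ← mul_assoc]
      calc (RR m : ℝ) ^ 5 * |a l t| * |a l t| ≤ (M * Loc1_w l) * M :=
            mul_le_mul (Loc1_five' hl.le (hx l t)) (Loc1_le (hx l t)) (abs_nonneg _)
              (mul_nonneg hM (Loc1_w0 l))
        _ = M * M * Loc1_w l := by ring
  · split_ifs
    · exact continuous_const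
    · exact continuous_const.mul ((ha _).pow 2)
  · exact (continuous_const.mul (ha m)).mul (ha _)

/-- Duhamel's formula -/
noncomputable def Loc1_D (ν x0 : ℝ) (g : ℝ → ℝ) (t : ℝ) : ℝ :=
  Real.exp (-(ν * t)) * (x0 + ∫ r in (0 : ℝ)..t, Real.exp (ν * r) * g r)

theorem Loc1_Dder {ν x0 : ℝ} {g : ℝ → ℝ} (hg : Continuous g) (t : ℝ) :
    HasDerivAt (Loc1_D ν x0 g) (g t - ν * Loc1_D ν x0 g t) t := by
  have hc : Continuous fun r => Real.exp (ν * r) * g r :=
    (Real.continuous_exp.comp (continuous_const.mul continuous_id)).mul hg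
  have h1 : HasDerivAt (fun t => x0 + ∫ r in (0 : ℝ)..t, Real.exp (ν * r) * g r)
      (Real.exp (ν * t) * g t) t :=
    (intervalIntegral.integral_hasDerivAt_right (hc.intervalIntegrable _ _)
      (hc.stronglyMeasurableAtFilter _ _) hc.continuousAt).const_add x0
  have h2 : HasDerivAt (fun t => Real.exp (-(ν * t))) (Real.exp (-(ν * t)) * (-(ν * 1))) t :=
    ((hasDerivAt_id t).const_mul ν).neg.exp
  have h3 := h2.mul h1
  have e : Real.exp (-(ν * t)) * Real.exp (ν * t) = 1 := by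
    rw [← Real.exp_add, neg_add_cancel, Real.exp_zero]
  refine h3.congr_deriv ?_
  unfold Loc1_D
  linear_combination g t * e

theorem Loc1_Dcont {ν x0 : ℝ} {g : ℝ → ℝ} (hg : Continuous g) : Continuous (Loc1_D ν x0 g) :=
  continuous_iff_continuousAt.2 fun t => (Loc1_Dder hg t).continuousAt

theorem Loc1_D0 (ν x0 : ℝ) (g : ℝ → ℝ) : Loc1_D ν x0 g 0 = x0 := by
  unfold Loc1_D
  simp

theorem Loc1_Dint {ν : ℝ} (hν : 0 ≤ ν) {g : ℝ → ℝ} (hg : Continuous g) {t : ℝ} (ht : 0 ≤ t) :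
    |Real.exp (-(ν * t)) * ∫ r in (0 : ℝ)..t, Real.exp (ν * r) * g r|
      ≤ ∫ r in (0 : ℝ)..t, |g r| := by
  have hc : Continuous fun r => Real.exp (ν * r) * g r :=
    (Real.continuous_exp.comp (continuous_const.mul continuous_id)).mul hg
  rw [abs_mul, abs_of_pos (Real.exp_pos _)]
  have h1 : |∫ r in (0 : ℝ)..t, Real.exp (ν * r) * g r|
      ≤ ∫ r in (0 : ℝ)..t, |Real.exp (ν * r) * g r| :=
    intervalIntegral.norm_integral_le_integral_norm (f := fun r => Real.exp (ν * r) * g r) ht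
  have h2 : ∫ r in (0 : ℝ)..t, |Real.exp (ν * r) * g r|
      ≤ ∫ r in (0 : ℝ)..t, Real.exp (ν * t) * |g r| := by
    refine intervalIntegral.integral_mono_on ht (hc.abs.intervalIntegrable _ _)
      ((continuous_const.mul hg.abs).intervalIntegrable _ _) fun r hr => ?_
    rw [abs_mul, abs_of_pos (Real.exp_pos _)]
    exact mul_le_mul_of_nonneg_right (Real.exp_le_exp.2 (mul_le_mul_of_nonneg_left hr.2 hν))
      (abs_nonneg _)
  rw [intervalIntegral.integral_const_mul] at h2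
  calc Real.exp (-(ν * t)) * |∫ r in (0 : ℝ)..t, Real.exp (ν * r) * g r|
      ≤ Real.exp (-(ν * t)) * (Real.exp (ν * t) * ∫ r in (0 : ℝ)..t, |g r|) :=
        mul_le_mul_of_nonneg_left (h1.trans h2) (Real.exp_pos _).le
    _ = (Real.exp (-(ν * t)) * Real.exp (ν * t)) * ∫ r in (0 : ℝ)..t, |g r| := by ring
    _ = ∫ r in (0 : ℝ)..t, |g r| := by
        rw [← Real.exp_add, neg_add_cancel, Real.exp_zero, one_mul]

theorem Loc1_Dbd {ν x0 : ℝ} (hν : 0 ≤ ν) {g : ℝ → ℝ} (hg : Continuous g) {t : ℝ} (ht : 0 ≤ t) :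
    |Loc1_D ν x0 g t| ≤ |x0| + ∫ r in (0 : ℝ)..t, |g r| := by
  unfold Loc1_D
  rw [mul_add]
  refine (abs_add_le _ _).trans (add_le_add ?_ (Loc1_Dint hν hg ht))
  rw [abs_mul, abs_of_pos (Real.exp_pos _)]
  have h1 : Real.exp (-(ν * t)) ≤ 1 := Real.exp_le_one_iff.2 (by nlinarith)
  calc Real.exp (-(ν * t)) * |x0| ≤ 1 * |x0| := mul_le_mul_of_nonneg_right h1 (abs_nonneg _)
    _ = |x0| := one_mul _

theorem Loc1_Dsub {ν x0 : ℝ} (hν : 0 ≤ ν) {g h : ℝ → ℝ} (hg : Continuous g) (hh : Continuous h)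
    {t : ℝ} (ht : 0 ≤ t) :
    |Loc1_D ν x0 g t - Loc1_D ν x0 h t| ≤ ∫ r in (0 : ℝ)..t, |g r - h r| := by
  have hc : ∀ {g : ℝ → ℝ}, Continuous g → Continuous fun r => Real.exp (ν * r) * g r :=
    fun hg => (Real.continuous_exp.comp (continuous_const.mul continuous_id)).mul hg
  have e : Loc1_D ν x0 g t - Loc1_D ν x0 h t
      = Real.exp (-(ν * t)) * ∫ r in (0 : ℝ)..t, Real.exp (ν * r) * (g r - h r) := by
    unfold Loc1_D
    have e1 : ∫ r in (0 : ℝ)..t, Real.exp (ν * r) * (g r - h r)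
        = (∫ r in (0 : ℝ)..t, Real.exp (ν * r) * g r)
          - ∫ r in (0 : ℝ)..t, Real.exp (ν * r) * h r := by
      rw [← intervalIntegral.integral_sub ((hc hg).intervalIntegrable _ _)
        ((hc hh).intervalIntegrable _ _)]
      refine intervalIntegral.integral_congr fun r _ => ?_
      ring
    rw [e1]
    ring
  rw [e]
  exact Loc1_Dint hν (hg.sub hh) ht

/-- the growth estimate with an exponential weight -/
theorem Loc1_grow {ν x0 A B R : ℝ} (hν : 0 ≤ ν) (hR : 0 ≤ R) {g : ℝ → ℝ} (hg : Continuous g)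
    {t : ℝ} (ht : 0 ≤ t) (h0 : R * |x0| ≤ A)
    (hgb : ∀ r ∈ Icc 0 t, R * |g r| ≤ B * (A * Real.exp (B * r))) :
    R * |Loc1_D ν x0 g t| ≤ A * Real.exp (B * t) := by
  have h1 := Loc1_Dbd (x0 := x0) hν hg ht
  have hcE : Continuous fun r => B * (A * Real.exp (B * r)) :=
    continuous_const.mul (continuous_const.mul
      (Real.continuous_exp.comp (continuous_const.mul continuous_id)))
  have h2 : ∫ r in (0 : ℝ)..t, R * |g r| ≤ ∫ r in (0 : ℝ)..t, B * (A * Real.exp (B * r)) :=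
    intervalIntegral.integral_mono_on ht ((continuous_const.mul hg.abs).intervalIntegrable _ _)
      (hcE.intervalIntegrable _ _) hgb
  rw [intervalIntegral.integral_const_mul] at h2
  have h3 : ∫ r in (0 : ℝ)..t, B * (A * Real.exp (B * r))
      = A * Real.exp (B * t) - A * Real.exp (B * 0) := by
    refine intervalIntegral.integral_eq_sub_of_hasDerivAt
      (f := fun r => A * Real.exp (B * r)) (fun r _ => ?_) (hcE.intervalIntegrable _ _)
    have h4 : HasDerivAt (fun r => Real.exp (B * r)) (Real.exp (B * r) * (B * 1)) r :=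
      ((hasDerivAt_id r).const_mul B).exp
    refine (h4.const_mul A).congr_deriv ?_
    ring
  rw [mul_zero, Real.exp_zero, mul_one] at h3
  calc R * |Loc1_D ν x0 g t| ≤ R * (|x0| + ∫ r in (0 : ℝ)..t, |g r|) :=
        mul_le_mul_of_nonneg_left h1 hR
    _ = R * |x0| + R * ∫ r in (0 : ℝ)..t, |g r| := by ring
    _ ≤ A + (A * Real.exp (B * t) - A) := add_le_add h0 (h2.trans_eq h3)
    _ = A * Real.exp (B * t) := by ring

/-- a bound with a constant -/
theorem Loc1_small {R L : ℝ} {g : ℝ → ℝ} (hg : Continuous g)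
    {t : ℝ} (ht : 0 ≤ t) (hgb : ∀ r ∈ Icc 0 t, R * |g r| ≤ L) :
    R * ∫ r in (0 : ℝ)..t, |g r| ≤ t * L := by
  have h2 : ∫ r in (0 : ℝ)..t, R * |g r| ≤ ∫ _r in (0 : ℝ)..t, L :=
    intervalIntegral.integral_mono_on ht ((continuous_const.mul hg.abs).intervalIntegrable _ _)
      (continuous_const.intervalIntegrable _ _) hgb
  rw [intervalIntegral.integral_const_mul, intervalIntegral.integral_const, sub_zero,
    smul_eq_mul] at h2
  exact h2

/-- the clamped time -/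
noncomputable def Loc1_cl (τ t : ℝ) : ℝ := max 0 (min t τ)

theorem Loc1_cl_cont (τ : ℝ) : Continuous (Loc1_cl τ) :=
  continuous_const.max (continuous_id.min continuous_const)

theorem Loc1_cl0 (τ t : ℝ) : 0 ≤ Loc1_cl τ t := le_max_left _ _

theorem Loc1_clτ {τ : ℝ} (hτ : 0 ≤ τ) (t : ℝ) : Loc1_cl τ t ≤ τ :=
  max_le hτ (min_le_right _ _)

theorem Loc1_cl_eq {τ t : ℝ} (h : t ∈ Icc 0 τ) : Loc1_cl τ t = t := by
  unfold Loc1_cl
  rw [min_eq_left h.2, max_eq_right h.1]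

theorem s_loc1 : S_loc1 := by
  intro c p ν C hc a0 ha0
  choose K hK using ha0
  choose P hP using hc.p_le
  have hP0 : ∀ n, p n ≤ P 0 := fun n => by
    have h := hP 0 n
    rw [pow_zero, mul_one] at h
    exact h
  have h0 := Loc1_C0 hc
  have hPn : ∀ k, 0 ≤ P k := fun k =>
    le_trans (mul_nonneg (hc.p0 0) (by positivity)) (hP k 0)
  have hKn : ∀ k, 0 ≤ K k := fun k => le_trans (abs_nonneg _) (Loc1_le (hK k 0))
  obtain ⟨M, hMdef⟩ : ∃ M, M = K 6 + 1 := ⟨_, rfl⟩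
  have hM : 0 < M := by rw [hMdef]; linarith [hKn 6]
  obtain ⟨B, hB⟩ : ∃ B : ℕ → ℝ, ∀ k, B k = (2 * C + P k + P 0) * M := ⟨_, fun _ => rfl⟩
  have hBn : ∀ k, 0 ≤ B k := fun k => by
    rw [hB]
    have := hPn k
    have := hPn 0
    positivity
  obtain ⟨τ, hτ, hτ1, hτ2⟩ : ∃ τ : ℝ, 0 < τ ∧ τ * (B 6 * M) ≤ 1 ∧
      τ * (4 * (C + P 0) * M) ≤ 1 / 2 := by
    have h1 : 0 ≤ B 6 * M := mul_nonneg (hBn 6) hM.le
    have h2 : 0 ≤ 4 * (C + P 0) * M := by
      have := hPn 0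
      positivity
    have h3 : 0 < B 6 * M + 2 * (4 * (C + P 0) * M) + 1 := by linarith
    refine ⟨1 / (B 6 * M + 2 * (4 * (C + P 0) * M) + 1), by positivity, ?_, ?_⟩
    · rw [one_div, inv_mul_le_iff₀ h3]
      linarith
    · rw [one_div, inv_mul_le_iff₀ h3]
      linarith
  -- the set
  let s : Set ((ℕ × ℝ) →ᵇ ℝ) := {a | (∀ m t, (RR m : ℝ) ^ 6 * |a (m, t)| ≤ M) ∧
    ∀ k m t, (RR m : ℝ) ^ k * |a (m, t)| ≤ K k * Real.exp (B k * Loc1_cl τ t)}
  have hsc : IsClosed s := by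
    have hev : ∀ (k m : ℕ) (t L : ℝ),
        IsClosed {a : (ℕ × ℝ) →ᵇ ℝ | (RR m : ℝ) ^ k * |a (m, t)| ≤ L} := fun k m t L =>
      isClosed_le (continuous_const.mul
        (continuous_eval_const (F := (ℕ × ℝ) →ᵇ ℝ) (m, t)).abs) continuous_const
    have e : s = (⋂ m : ℕ, ⋂ t : ℝ, {a : (ℕ × ℝ) →ᵇ ℝ | (RR m : ℝ) ^ 6 * |a (m, t)| ≤ M}) ∩
        ⋂ k : ℕ, ⋂ m : ℕ, ⋂ t : ℝ, {a : (ℕ × ℝ) →ᵇ ℝ | (RR m : ℝ) ^ k * |a (m, t)|
          ≤ K k * Real.exp (B k * Loc1_cl τ t)} := by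
      ext a
      simp only [s, mem_ofPred_eq, mem_inter_iff, mem_iInter]
    rw [e]
    exact (isClosed_iInter fun m => isClosed_iInter fun t => hev _ _ _ _).inter
      (isClosed_iInter fun k => isClosed_iInter fun m => isClosed_iInter fun t => hev _ _ _ _)
  have hexp : ∀ k t, K k ≤ K k * Real.exp (B k * Loc1_cl τ t) := fun k t => by
    have h1 : 1 ≤ Real.exp (B k * Loc1_cl τ t) :=
      Real.one_le_exp (mul_nonneg (hBn k) (Loc1_cl0 τ t))
    calc K k = K k * 1 := by ring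
      _ ≤ _ := mul_le_mul_of_nonneg_left h1 (hKn k)
  -- continuity of the families
  have hac : ∀ (a : (ℕ × ℝ) →ᵇ ℝ) (m : ℕ), Continuous fun t => a (m, t) := fun a m =>
    a.continuous.comp (continuous_const.prodMk continuous_id)
  have hNc : ∀ a ∈ s, ∀ m, Continuous fun r => Loc1_N c p (fun n => a (n, r)) m :=
    fun a ha m => Loc1_cont (a := fun n t => a (n, t)) hc (hac a) ha.1 m
  -- bounds of the map
  have hmap : ∀ a ∈ s, ∀ m t,
      (RR m : ℝ) ^ 6 * |Loc1_D (ν m) (a0 m) (fun r => Loc1_N c p (fun n => a (n, r)) m)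
        (Loc1_cl τ t)| ≤ M ∧
      ∀ k : ℕ, (RR m : ℝ) ^ k * |Loc1_D (ν m) (a0 m)
        (fun r => Loc1_N c p (fun n => a (n, r)) m) (Loc1_cl τ t)|
          ≤ K k * Real.exp (B k * Loc1_cl τ t) := by
    intro a ha m t
    have ht := Loc1_cl0 τ t
    have ht' := Loc1_clτ hτ.le t
    refine ⟨?_, fun k => ?_⟩
    · have h1 := Loc1_Dbd (x0 := a0 m) (hc.ν0 m) (hNc a ha m) ht
      have h2 := Loc1_small (R := (RR m : ℝ) ^ 6) (L := B 6 * M) (hNc a ha m) ht (fun r _ => by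
        rw [hB]
        exact Loc1_bd hc (hP 6) hP0 (fun n => ha.1 n r) (fun n => ha.1 n r) m)
      calc _ ≤ (RR m : ℝ) ^ 6 * (|a0 m|
            + ∫ r in (0 : ℝ)..Loc1_cl τ t, |Loc1_N c p (fun n => a (n, r)) m|) :=
            mul_le_mul_of_nonneg_left h1 (by positivity)
        _ = (RR m : ℝ) ^ 6 * |a0 m| + (RR m : ℝ) ^ 6 *
            ∫ r in (0 : ℝ)..Loc1_cl τ t, |Loc1_N c p (fun n => a (n, r)) m| := by ring
        _ ≤ K 6 + Loc1_cl τ t * (B 6 * M) := add_le_add (hK 6 m) h2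
        _ ≤ K 6 + τ * (B 6 * M) := by
            have := mul_le_mul_of_nonneg_right ht' (mul_nonneg (hBn 6) hM.le)
            linarith
        _ ≤ M := by rw [hMdef]; rw [hMdef] at hτ1; linarith
    · refine Loc1_grow (hc.ν0 m) (by positivity) (hNc a ha m) ht (hK k m) fun r hr => ?_
      have hr' : Loc1_cl τ r = r := Loc1_cl_eq ⟨hr.1, hr.2.trans ht'⟩
      have h3 := Loc1_bd (E := K k * Real.exp (B k * r)) hc (hP k) hP0 (fun n => ha.1 n r)
        (fun n => by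
          have h4 := ha.2 k n r
          rw [hr'] at h4
          exact h4) m
      rw [hB k] at h3 ⊢
      exact h3
  -- the map
  have hex : ∀ a : s, ∃ b : s, ∀ m t, (b : (ℕ × ℝ) →ᵇ ℝ) (m, t)
      = Loc1_D (ν m) (a0 m) (fun r => Loc1_N c p (fun n => (a : (ℕ × ℝ) →ᵇ ℝ) (n, r)) m)
        (Loc1_cl τ t) := by
    rintro ⟨a, ha⟩
    have hcont : Continuous fun z : ℕ × ℝ => Loc1_D (ν z.1) (a0 z.1)
        (fun r => Loc1_N c p (fun n => a (n, r)) z.1) (Loc1_cl τ z.2) := by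
      rw [continuous_prod_of_discrete_left]
      intro m
      show Continuous fun x => Loc1_D (ν m) (a0 m)
        (fun r => Loc1_N c p (fun n => a (n, r)) m) (Loc1_cl τ x)
      exact (Loc1_Dcont (hNc a ha m)).comp (Loc1_cl_cont τ)
    refine ⟨⟨BoundedContinuousFunction.ofNormedAddCommGroup _ hcont M fun z => ?_, ?_, ?_⟩,
      fun m t => rfl⟩
    · exact Loc1_le (hmap a ha z.1 z.2).1
    · exact fun m t => (hmap a ha m t).1
    · exact fun k m t => (hmap a ha m t).2 k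
  choose Φ hΦ using hex
  have hcw : ContractingWith (1 / 2) Φ := by
    refine ⟨by norm_num, LipschitzWith.of_dist_le_mul fun a b => ?_⟩
    rw [Subtype.dist_eq, Subtype.dist_eq]
    refine (BoundedContinuousFunction.dist_le (by positivity)).2 ?_
    rintro ⟨m, t⟩
    have ht := Loc1_cl0 τ t
    have ht' := Loc1_clτ hτ.le t
    rw [hΦ, hΦ, Real.dist_eq]
    refine (Loc1_Dsub (hc.ν0 m) (hNc a a.2 m) (hNc b b.2 m) ht).trans ?_
    have h2 := Loc1_small (R := 1) (L := 4 * (C + P 0) * M * dist (a : (ℕ × ℝ) →ᵇ ℝ) b)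
      ((hNc a a.2 m).sub (hNc b b.2 m)) ht (fun r _ => by
        rw [one_mul]
        refine Loc1_lip hc hP0 (fun n => a.2.1 n r) (fun n => b.2.1 n r) (fun n => ?_) m
        rw [← Real.dist_eq]
        exact BoundedContinuousFunction.dist_coe_le_dist _)
    rw [one_mul] at h2
    refine h2.trans ?_
    have hd : 0 ≤ dist (a : (ℕ × ℝ) →ᵇ ℝ) b := dist_nonneg
    have hL : 0 ≤ 4 * (C + P 0) * M := by
      have := hPn 0
      positivity
    calc Loc1_cl τ t * (4 * (C + P 0) * M * dist (a : (ℕ × ℝ) →ᵇ ℝ) b)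
        ≤ τ * (4 * (C + P 0) * M * dist (a : (ℕ × ℝ) →ᵇ ℝ) b) :=
          mul_le_mul_of_nonneg_right ht' (mul_nonneg hL hd)
      _ = (τ * (4 * (C + P 0) * M)) * dist (a : (ℕ × ℝ) →ᵇ ℝ) b := by ring
      _ ≤ (1 / 2) * dist (a : (ℕ × ℝ) →ᵇ ℝ) b := mul_le_mul_of_nonneg_right hτ2 hd
      _ = _ := by norm_num
  -- the fixed point
  have : CompleteSpace s := hsc.completeSpace_coe
  have : Nonempty s := by
    have hcont : Continuous fun z : ℕ × ℝ => a0 z.1 := by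
      rw [continuous_prod_of_discrete_left]
      intro m
      show Continuous fun _ : ℝ => a0 m
      exact continuous_const
    refine ⟨⟨BoundedContinuousFunction.ofNormedAddCommGroup _ hcont (K 0) fun z => ?_, ?_, ?_⟩⟩
    · exact Loc1_le (hK 0 z.1)
    · intro m t
      exact (hK 6 m).trans (by rw [hMdef]; linarith)
    · intro k m t
      exact (hK k m).trans (hexp k t)
  obtain ⟨a, ha⟩ : ∃ a : s, Φ a = a :=
    ⟨ContractingWith.fixedPoint Φ hcw, hcw.fixedPoint_isFixedPt⟩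
  have hfix : ∀ m t, (a : (ℕ × ℝ) →ᵇ ℝ) (m, t)
      = Loc1_D (ν m) (a0 m) (fun r => Loc1_N c p (fun n => (a : (ℕ × ℝ) →ᵇ ℝ) (n, r)) m)
        (Loc1_cl τ t) := fun m t => by
    rw [← hΦ a m t, ha]
  refine ⟨τ, hτ, fun m t => (a : (ℕ × ℝ) →ᵇ ℝ) (m, t), fun k => ?_, hac a, fun m => ?_,
    fun t ht m => ?_⟩
  · refine ⟨K k * Real.exp (B k * τ), fun m t => (a.2.2 k m t).trans ?_⟩
    exact mul_le_mul_of_nonneg_left (Real.exp_le_exp.2
      (mul_le_mul_of_nonneg_left (Loc1_clτ hτ.le t) (hBn k))) (hKn k)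
  · show (a : (ℕ × ℝ) →ᵇ ℝ) (m, 0) = a0 m
    rw [hfix, Loc1_cl_eq ⟨le_rfl, hτ.le⟩, Loc1_D0]
  · have h1 := Loc1_Dder (ν := ν m) (x0 := a0 m) (hNc a a.2 m) t
    have h2 : (fun t => (a : (ℕ × ℝ) →ᵇ ℝ) (m, t)) =ᶠ[𝓝 t]
        Loc1_D (ν m) (a0 m) (fun r => Loc1_N c p (fun n => (a : (ℕ × ℝ) →ᵇ ℝ) (n, r)) m) := by
      filter_upwards [Ioo_mem_nhds ht.1 ht.2] with r hr
      rw [hfix, Loc1_cl_eq ⟨hr.1.le, hr.2.le⟩]
    rw [Loc1_FF]
    refine (h1.congr_of_eventuallyEq h2).congr_deriv ?_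
    have h3 := h2.eq_of_nhds
    show Loc1_N c p (fun n => (a : (ℕ × ℝ) →ᵇ ℝ) (n, t)) m - ν m * _
      = Loc1_N c p (fun n => (a : (ℕ × ℝ) →ᵇ ℝ) (n, t)) m - ν m * (a : (ℕ × ℝ) →ᵇ ℝ) (m, t)
    rw [← h3]

end Pool.Agent.H226.GB
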