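import Pool.Agent.H226.GB.Spec6

/-!
The lower levels stay under control for a short time.
-/

open MeasureTheory Set Filter Topology

namespace Pool.Agent.H226.GB

lemma Low_exp {x : ℝ} (hx : x ≤ 1 / 8) : Real.exp x ≤ 114 / 100 := by
  have h1 : Real.exp x ≤ Real.exp (1 / 8) := Real.exp_le_exp.mpr hx
  have h2 : Real.exp (1 / 8) ≤ 114 / 100 := by
    by_contra h
    push Not at h
    have h3 : (114 / 100 : ℝ) ^ 8 < Real.exp (1 / 8) ^ 8 := pow_lt_pow_left₀ h (by norm_num) (by norm_num)
    rw [← Real.exp_nat_mul] at h3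
    have h4 : ((8 : ℕ) : ℝ) * (1 / 8) = 1 := by norm_num
    rw [h4] at h3
    have h5 := Real.exp_one_lt_d9
    norm_num at h3
    linarith
  exact h1.trans h2

section

variable {c : ℕ → ℕ → ℝ} {G p ν : ℕ → ℝ} {T : ℝ} {a : ℕ → ℝ → ℝ} {S : ℝ → ℝ} {W : ℕ → ℝ → ℝ}

lemma Low_tl_cont (h : Sys0 c G p ν T a S W) (n : ℕ) : Continuous (tl a S n) := by
  unfold tl
  have h1 := h.contS
  have h2 := h.cont
  exact h1.sub (continuous_finsetSum _ fun j _ => (h2 j).pow 2)

/-- the energy decreases -/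
lemma Low_en (h : Sys0 c G p ν T a S W) {t : ℝ} (ht : t ∈ Icc 0 T) : S t ≤ S 0 := by
  have hd : ∀ s ∈ Ioo 0 t, HasDerivAt S (deriv S s) s ∧ deriv S s ≤ 0 := by
    intro s hs
    obtain ⟨S', hS', hL⟩ := h.en s ⟨hs.1, hs.2.trans_le ht.2⟩
    rw [hS'.deriv]
    refine ⟨hS', ?_⟩
    have := hL 0
    simpa using this
  have h1 := mono_of (f := fun s => -S s) (f' := fun s => -deriv S s) (s := 0) (t := t)
    h.contS.neg.continuousOn (fun s hs => (hd s hs).1.neg)
    (fun s hs => by have := (hd s hs).2; simpa using this) le_rfl ht.1 le_rfl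
  simpa using h1

/-- Gronwall for the square root of the tail -/
lemma Low_tl (h : Sys0 c G p ν T a S W) {B α Λ t : ℝ} {n l : ℕ} (ht : t ∈ Icc 0 T) (hα : 0 < α)
    (hΛ : 0 ≤ Λ) (hΛT : Λ * T ≤ 1 / 8) (hB : ∀ s ∈ Icc 0 T, S s ≤ B ^ 2)
    (hM : ∀ s ∈ Ioo 0 t, ∑ j ∈ Finset.range l, G j * |a j s| ≤ Λ) (hn : 1 ≤ n) (hnl : n ≤ l)
    (h0 : tl a S n 0 ≤ α ^ 2) :
    Real.sqrt (tl a S n t) ≤ 114 / 100 * (α + T * (p (n - 1) * B ^ 2)) := by
  obtain ⟨q, hq⟩ : ∃ q, q = p (n - 1) * B ^ 2 := ⟨_, rfl⟩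
  rw [← hq]
  have hq0 : 0 ≤ q := by
    rw [hq]
    exact mul_nonneg (h.p0 _) (sq_nonneg _)
  have key : ∀ η : ℝ, 0 < η → Real.sqrt (tl a S n t) ≤ 114 / 100 * (α + η + T * q) := by
    intro η hη
    have hpos : ∀ s ∈ Icc 0 T, 0 < tl a S n s + η ^ 2 := by
      intro s hs
      have := h.tl_nonneg hs n
      positivity
    have hcont : Continuous fun s => q * s - Real.exp (-(Λ * s)) * Real.sqrt (tl a S n s + η ^ 2) := by
      have h1 := Low_tl_cont h n
      fun_prop
    obtain ⟨D, hD⟩ : ∃ D : ℝ → ℝ, ∀ s ∈ Ioo 0 T, HasDerivAt (tl a S n) (D s) s ∧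
        D s ≤ 2 * (∑ j ∈ Finset.range n, G j * |a j s|) * tl a S n s
          + 2 * pm p a n s * |a n s| - 2 * ν n * tl a S n s := by
      classical
      refine ⟨fun s => if hs : s ∈ Ioo 0 T then (h.tl_der_le hs n).choose else 0, ?_⟩
      intro s hs
      simp only [dif_pos hs]
      exact (h.tl_der_le hs n).choose_spec
    have hmono := mono_of
      (f := fun s => q * s - Real.exp (-(Λ * s)) * Real.sqrt (tl a S n s + η ^ 2))
      (f' := fun s => q * 1 - (Real.exp (-(Λ * s)) * (-(Λ * 1)) * Real.sqrt (tl a S n s + η ^ 2) +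
        Real.exp (-(Λ * s)) * (D s / (2 * Real.sqrt (tl a S n s + η ^ 2))))) (s := 0) (t := t)
      hcont.continuousOn ?_ ?_ le_rfl ht.1 le_rfl
    · simp only [mul_zero, neg_zero, Real.exp_zero, one_mul, zero_sub] at hmono
      have hf0 : Real.sqrt (tl a S n 0 + η ^ 2) ≤ α + η := by
        apply Real.sqrt_le_iff.mpr
        constructor
        · positivity
        · nlinarith
      have h1 : Real.exp (-(Λ * t)) * Real.sqrt (tl a S n t + η ^ 2) ≤ α + η + q * t := by linarith
      have h2 : Real.sqrt (tl a S n t + η ^ 2) ≤ Real.exp (Λ * t) * (α + η + q * t) := by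
        have h3 := mul_le_mul_of_nonneg_left h1 (Real.exp_pos (Λ * t)).le
        rwa [← mul_assoc, ← Real.exp_add, add_neg_cancel, Real.exp_zero, one_mul] at h3
      have h4 : Real.exp (Λ * t) ≤ 114 / 100 := by
        apply Low_exp
        have := mul_le_mul_of_nonneg_left ht.2 hΛ
        linarith
      have h5 : q * t ≤ T * q := by
        have := mul_le_mul_of_nonneg_left ht.2 hq0
        linarith
      have h6 : 0 ≤ α + η + q * t := by
        have := mul_nonneg hq0 ht.1
        positivity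
      calc Real.sqrt (tl a S n t) ≤ Real.sqrt (tl a S n t + η ^ 2) := by
            apply Real.sqrt_le_sqrt
            nlinarith
        _ ≤ Real.exp (Λ * t) * (α + η + q * t) := h2
        _ ≤ 114 / 100 * (α + η + q * t) := mul_le_mul_of_nonneg_right h4 h6
        _ ≤ _ := by linarith
    · intro s hs
      have hsT : s ∈ Ioo 0 T := ⟨hs.1, hs.2.trans_le ht.2⟩
      have hs' : s ∈ Icc 0 T := ⟨hsT.1.le, hsT.2.le⟩
      have d1 : HasDerivAt (fun s : ℝ => Real.sqrt (tl a S n s + η ^ 2))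
          (D s / (2 * Real.sqrt (tl a S n s + η ^ 2))) s :=
        ((hD s hsT).1.add_const _).sqrt (hpos s hs').ne'
      have d2 : HasDerivAt (fun s : ℝ => Real.exp (-(Λ * s))) (Real.exp (-(Λ * s)) * (-(Λ * 1))) s :=
        (((hasDerivAt_id s).const_mul Λ).neg).exp
      exact ((hasDerivAt_id s).const_mul q).sub (d2.mul d1)
    · intro s hs
      have hsT : s ∈ Ioo 0 T := ⟨hs.1, hs.2.trans_le ht.2⟩
      have hs' : s ∈ Icc 0 T := ⟨hsT.1.le, hsT.2.le⟩
      obtain ⟨f, hf⟩ : ∃ f, f = Real.sqrt (tl a S n s + η ^ 2) := ⟨_, rfl⟩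
      have hf0 : 0 < f := by
        rw [hf]
        exact Real.sqrt_pos.mpr (hpos s hs')
      have hf2 : f ^ 2 = tl a S n s + η ^ 2 := by
        rw [hf, Real.sq_sqrt (hpos s hs').le]
      have htl := h.tl_nonneg hs' n
      have han : |a n s| ≤ f := by
        apply abs_le_of_sq_le_sq
        · have := h.sq_le_tl hs' n
          nlinarith
        · exact hf0.le
      have hMn : ∑ j ∈ Finset.range n, G j * |a j s| ≤ Λ := by
        refine le_trans ?_ (hM s hs)
        apply Finset.sum_le_sum_of_subset_of_nonneg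
        · intro j hj
          rw [Finset.mem_range] at hj ⊢
          omega
        · intro j _ _
          exact mul_nonneg (h.G0 j) (abs_nonneg _)
      have hpm : pm p a n s ≤ q := by
        unfold pm
        rw [if_neg (by omega), hq]
        apply mul_le_mul_of_nonneg_left _ (h.p0 _)
        have h1 := h.sq_le_tl hs' (n - 1)
        have h2 : tl a S (n - 1) s ≤ S s := tl_le_S _
        exact h1.trans (h2.trans (hB s hs'))
      have hpm0 : 0 ≤ pm p a n s := pm_nonneg h.p0 n s
      have hD1 : D s ≤ 2 * (Λ * f + q) * f := by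
        have h1 := (hD s hsT).2
        have h2 : (∑ j ∈ Finset.range n, G j * |a j s|) * tl a S n s ≤ Λ * f ^ 2 := by
          calc _ ≤ Λ * tl a S n s := mul_le_mul_of_nonneg_right hMn htl
            _ ≤ Λ * f ^ 2 := by
              apply mul_le_mul_of_nonneg_left _ hΛ
              rw [hf2]
              nlinarith
        have h3 : pm p a n s * |a n s| ≤ q * f := mul_le_mul hpm han (abs_nonneg _) hq0
        have h4 : 0 ≤ ν n * tl a S n s := mul_nonneg (h.ν0 n) htl
        nlinarith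
      have hD2 : D s / (2 * f) ≤ Λ * f + q := by
        rw [div_le_iff₀ (by positivity)]
        linarith
      rw [← hf]
      have he : Real.exp (-(Λ * s)) ≤ 1 := by
        rw [Real.exp_le_one_iff]
        have := mul_nonneg hΛ hs.1.le
        linarith
      have he0 : 0 < Real.exp (-(Λ * s)) := Real.exp_pos _
      have h1 : Real.exp (-(Λ * s)) * (D s / (2 * f)) ≤ Real.exp (-(Λ * s)) * (Λ * f + q) :=
        mul_le_mul_of_nonneg_left hD2 he0.le
      have h2 : Real.exp (-(Λ * s)) * q ≤ 1 * q := mul_le_mul_of_nonneg_right he hq0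
      nlinarith
  apply le_of_forall_pos_le_add
  intro ε hε
  have h1 := key (ε / 2) (by positivity)
  linarith

end

theorem s_low : S_low := by
  intro c p ν T a S W L l B α h hT hα hB hL hLl hS0 htl0 hTs hsum hTB
  have hSB : ∀ s ∈ Icc 0 T, S s ≤ B ^ 2 := fun s hs => (Low_en h hs).trans hS0
  have haB : ∀ n, ∀ s ∈ Icc 0 T, |a n s| ≤ B := by
    intro n s hs
    apply abs_le_of_sq_le_sq _ hB
    exact (h.sq_le_tl hs n).trans ((tl_le_S n).trans (hSB s hs))
  have hG0 : ∀ n, 0 < Gm n := by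
    intro n
    unfold Gm RR
    positivity
  have hSG : 0 < SG l := by
    unfold SG
    apply Finset.sum_pos (fun n _ => hG0 n)
    rw [Finset.nonempty_range_iff]
    omega
  have h00 : ∀ n, L ≤ n → tl a S n 0 ≤ α ^ 2 := fun n hn => (tl_anti hn).trans htl0
  have hΛ : 0 ≤ 2 * α * SG l := by positivity
  -- the strain
  have hstr : ∀ t ∈ Icc 0 T, (∀ s ∈ Ioo 0 t, ∑ n ∈ Finset.range l, Gm n * |a n s| ≤ 2 * α * SG l) →
      ∑ n ∈ Finset.range l, Gm n * |a n t| < 2 * α * SG l := by
    intro t ht hM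
    have h1 : ∀ n ∈ Finset.range l, Gm n * |a n t| ≤ (if n < L then Gm n * B else 0) +
        114 / 100 * α * Gm n + 114 / 100 * (T * B ^ 2) * (Gm n * (if n = 0 then 0 else p (n - 1))) := by
      intro n hn
      rw [Finset.mem_range] at hn
      have hp : 0 ≤ (if n = 0 then 0 else p (n - 1)) := by
        split_ifs
        · exact le_rfl
        · exact h.p0 _
      have hp2 : 0 ≤ Gm n * (if n = 0 then 0 else p (n - 1)) := mul_nonneg (hG0 n).le hp
      have hp3 : 0 ≤ 114 / 100 * (T * B ^ 2) * (Gm n * (if n = 0 then 0 else p (n - 1))) := by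
        positivity
      by_cases hnL : n < L
      · rw [if_pos hnL]
        have h2 := mul_le_mul_of_nonneg_left (haB n t ht) (hG0 n).le
        have h3 : 0 ≤ 114 / 100 * α * Gm n := by
          have := hG0 n
          positivity
        linarith
      · rw [if_neg hnL, zero_add]
        have h2 := Low_tl h (B := B) ht hα hΛ hTs hSB hM (by omega : 1 ≤ n) hn.le
          (h00 n (by omega))
        have h3 : |a n t| ≤ Real.sqrt (tl a S n t) := by
          rw [← Real.sqrt_sq_eq_abs]
          exact Real.sqrt_le_sqrt (h.sq_le_tl ht n)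
        rw [if_neg (by omega : n ≠ 0)]
        have h4 := mul_le_mul_of_nonneg_left (h3.trans h2) (hG0 n).le
        linarith
    have h2 := Finset.sum_le_sum h1
    rw [Finset.sum_add_distrib, Finset.sum_add_distrib, ← Finset.mul_sum, ← Finset.mul_sum] at h2
    have h3 : ∑ n ∈ Finset.range l, (if n < L then Gm n * B else 0) =
        ∑ n ∈ Finset.range L, Gm n * B := by
      rw [← Finset.sum_filter]
      apply Finset.sum_congr _ (fun _ _ => rfl)
      ext n
      rw [Finset.mem_filter, Finset.mem_range, Finset.mem_range]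
      omega
    rw [h3] at h2
    have h4 : 0 ≤ (T * B ^ 2) * ∑ n ∈ Finset.range l, Gm n * (if n = 0 then 0 else p (n - 1)) := by
      apply mul_nonneg (by positivity)
      apply Finset.sum_nonneg
      intro n _
      apply mul_nonneg (hG0 n).le
      split_ifs
      · exact le_rfl
      · exact h.p0 _
    have h5 : 0 < α * SG l := mul_pos hα hSG
    have h6 : ∑ n ∈ Finset.range l, Gm n = SG l := rfl
    rw [h6] at h2
    nlinarith
  have hall : ∀ t ∈ Icc 0 T, ∑ n ∈ Finset.range l, Gm n * |a n t| ≤ 2 * α * SG l := by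
    by_contra hcon
    push Not at hcon
    obtain ⟨t1, ht1, hlt⟩ := hcon
    have hMc : Continuous fun t => ∑ n ∈ Finset.range l, Gm n * |a n t| :=
      continuous_finsetSum _ fun n _ => continuous_const.mul (h.cont n).abs
    have hK : IsCompact (Icc 0 t1 ∩ {t | 2 * α * SG l ≤ ∑ n ∈ Finset.range l, Gm n * |a n t|}) :=
      isCompact_Icc.inter_right (isClosed_le continuous_const hMc)
    obtain ⟨t2, ht2, hmin⟩ := hK.exists_isLeast ⟨t1, ⟨ht1.1, le_rfl⟩, hlt.le⟩
    have h1 : t2 ∈ Icc 0 T := ⟨ht2.1.1, ht2.1.2.trans ht1.2⟩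
    have h2 := hstr t2 h1 (by
      intro s hs
      by_contra hc
      push Not at hc
      have h3 := hmin ⟨⟨hs.1.le, hs.2.le.trans ht2.1.2⟩, hc.le⟩
      exact absurd hs.2 (not_lt.mpr h3))
    exact absurd ht2.2 (not_le.mpr h2)
  intro t ht
  refine ⟨?_, hall t ht⟩
  have h1 := Low_tl h (B := B) ht hα hΛ hTs hSB (fun s hs => hall s ⟨hs.1.le, hs.2.le.trans ht.2⟩)
    (by omega : 1 ≤ l) le_rfl (h00 l hLl)
  have h2 : Real.sqrt (tl a S l t) ≤ 114 / 100 * (17 / 16 * α) := by
    refine h1.trans ?_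
    have : T * (p (l - 1) * B ^ 2) = T * B ^ 2 * p (l - 1) := by ring
    rw [this]
    linarith
  have h3 := h.tl_nonneg ht l
  have h4 : tl a S l t = Real.sqrt (tl a S l t) ^ 2 := (Real.sq_sqrt h3).symm
  have h5 : Real.sqrt (tl a S l t) ^ 2 ≤ (114 / 100 * (17 / 16 * α)) ^ 2 :=
    pow_le_pow_left₀ (Real.sqrt_nonneg _) h2 2
  rw [h4]
  refine h5.trans ?_
  nlinarith [sq_nonneg α]

end Pool.Agent.H226.GB
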