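import Pool.Agent.H226.GB.Spec

/-!
Interface, second part: local existence and uniqueness.
-/

open MeasureTheory Set Filter Topology
open scoped ContDiff
open H459R3.NS

namespace Pool.Agent.H226.GB

/-- rapidly decreasing families, uniformly in time -/
def Rap (a : ℕ → ℝ → ℝ) : Prop := ∀ s : ℕ, ∃ K : ℝ, ∀ m t, (RR m : ℝ) ^ s * |a m t| ≤ K

/-- the right side of the infinite system -/
noncomputable def FF (c : ℕ → ℕ → ℝ) (p ν : ℕ → ℝ) (a : ℕ → ℝ → ℝ) (m : ℕ) (t : ℝ) : ℝ :=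
  (∑ n ∈ Finset.range m, c n m * a n t - ν m) * a m t
    - (∑' l, if m < l then c m l * a l t ^ 2 else 0) + pm p a m t - p m * a m t * a (m + 1) t

/-- hypotheses on the coefficients -/
structure Coef (c : ℕ → ℕ → ℝ) (p ν : ℕ → ℝ) (C : ℝ) : Prop where
  c_le : ∀ n l, n < l → |c n l| ≤ C * (RR n : ℝ) ^ 5
  p0 : ∀ n, 0 ≤ p n
  p_le : ∀ s : ℕ, ∃ K : ℝ, ∀ n, p n * (RR (n + 1) : ℝ) ^ s ≤ K
  ν0 : ∀ n, 0 ≤ ν n
  ν_le : ∀ n, ν n ≤ C * (RR n : ℝ) ^ 4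

/-- local existence for the infinite system -/
def S_loc1 : Prop := ∀ (c : ℕ → ℕ → ℝ) (p ν : ℕ → ℝ) (C : ℝ), Coef c p ν C →
  ∀ a0 : ℕ → ℝ, (∀ s : ℕ, ∃ K : ℝ, ∀ m, (RR m : ℝ) ^ s * |a0 m| ≤ K) →
  ∃ τ > 0, ∃ a : ℕ → ℝ → ℝ, Rap a ∧ (∀ m, Continuous (a m)) ∧ (∀ m, a m 0 = a0 m) ∧
    ∀ t ∈ Ioo 0 τ, ∀ m, HasDerivAt (a m) (FF c p ν a m t) t

/-- families which are `n` times differentiable for `t ∈ (0, τ)`, with continuous and rapidly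
decreasing derivatives -/
def AT (τ : ℝ) : ℕ → (ℕ → ℝ → ℝ) → Prop
  | 0, a => Rap a ∧ ∀ m, Continuous (a m)
  | n + 1, a => (Rap a ∧ ∀ m, Continuous (a m)) ∧ ∃ a' : ℕ → ℝ → ℝ,
      (∀ t ∈ Ioo 0 τ, ∀ m, HasDerivAt (a m) (a' m t) t) ∧ AT τ n a'

/-- regularity in time of the solutions of the infinite system -/
def S_loc2 : Prop := ∀ (c : ℕ → ℕ → ℝ) (p ν : ℕ → ℝ) (C : ℝ), Coef c p ν C →
  ∀ (τ : ℝ) (a : ℕ → ℝ → ℝ), Rap a → (∀ m, Continuous (a m)) →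
    (∀ t ∈ Ioo 0 τ, ∀ m, HasDerivAt (a m) (FF c p ν a m t) t) → ∀ n, AT τ n a

/-- from the infinite system to the Galerkin projected equations -/
def S_loc3 : Prop := ∀ (ν τ : ℝ) (a : ℕ → ℝ → ℝ), 0 ≤ ν → 0 < τ → (∀ n, AT τ n a) →
  (∀ t ∈ Ioo 0 τ, ∀ m, HasDerivAt (a m) (FF cc pp (fun m => ν * gg m) a m t) t) →
  ∃ u : ℝ → V → V, IsGal phi ν τ u ∧
    ∀ t ∈ Ico 0 τ, ∀ x i, HasSum (fun m => a m t * phi m x i) (u t x i)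

/-- uniqueness of smooth solutions of the Galerkin projected equations -/
def S_uni : Prop := ∀ (φ : ℕ → V → V) (c : ℕ → ℕ → ℝ) (p g : ℕ → ℝ), Basis φ c p g →
  ∀ (ν T : ℝ) (u v : ℝ → V → V), 0 ≤ ν → IsGal φ ν T u → IsGal φ ν T v → u 0 = v 0 →
    ∀ t ∈ Ico 0 T, u t = v t

end Pool.Agent.H226.GB
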