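import Pool.Agent.H226.GB.Pump
import Pool.Agent.H226.GB.ParP
import Pool.Agent.H226.GB.Spec2

/-!
The coefficients of the Galerkin system satisfy the hypotheses of the analysis.
-/

open MeasureTheory Set Filter Topology
open scoped ContDiff
open H459R3.NS

namespace Pool.Agent.H226.GB

theorem Fin_tri0 (P : S_prod) (O : S_one) (G : S_trig) :
    tri (gp (th0 0)) (gp (th0 0)) (gp (th0 1))
      = -(Real.exp (-bb 0) * ((2 * Real.pi) ^ 2 * (4 * NN 0 - 3) / (64 * (17 * NN 0 - 1)))) := by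
  have h1 := Pump_NN_pos 0
  have h3 : 4 * NN 0 ≤ NN 1 := Pump_NN_le 0
  have sp1 := Pump_gp_S (Pump_psi_P P O 0)
  have sp3 := Pump_gp_S (Pump_psi_P P O 1)
  have sp4 := Pump_gp_S (Pump_chi_P P O 1)
  have e0 : gp (th0 0) = gp (psi 0) := by
    rw [Pump_gp_th0 P O]
    funext x
    simp [ee']
  rw [e0, Pump_gp_th0 P O 1]
  have tH : ∀ N, Trig {k | 16 * N ≤ k ∧ k ≤ 17 * N - 1} (fH N) := G.H
  have z1 : tri (gp (psi 0)) (gp (psi 0)) (gp (psi 1)) = 0 := by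
    refine Pump_zero P G (O.p1_F _) (O.p1_G _) (O.p1_F _) (O.p1_G _) (O.p1_F _) (O.p1_G _)
      (tH _) (tH _) (tH _) ?_
    rintro a ⟨ha, ha'⟩ b ⟨hb, hb'⟩ c ⟨hc, hc'⟩
    refine ⟨?_, ?_, ?_⟩ <;> omega
  have z8 : tri (gp (psi 0)) (gp (psi 0)) (gp (chi 1))
      = -((2 * Real.pi) ^ 2 * (4 * NN 0 - 3) / (64 * (17 * NN 0 - 1))) := by
    have := Pump_main P O (NN 0) (Pump_NN_pos 0)
    unfold psi chi
    exact this
  have he : ee' 1 = Real.exp (-bb 0) := by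
    unfold ee'
    rw [if_neg one_ne_zero]
  have s4 : Pump_S (fun x => ee' 1 • gp (chi 1) x) := Pump_S_smul sp4 _
  rw [Pump_tri_add3 sp1 sp1 sp3 s4, Pump_tri_smul3 _ _ _ sp4, z1, z8, he]
  ring

theorem Fin_pp (P : S_prod) (O : S_one) (G : S_trig) (n : ℕ) :
    pp n = Real.exp (-bb n) * (((2 * Real.pi) ^ 2 * (4 * NN n - 3) / (64 * (17 * NN n - 1)))
      * ((nm n)⁻¹ ^ 2 * (nm (n + 1))⁻¹)) := by
  rcases Nat.eq_zero_or_pos n with rfl | hn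
  · have e : ∀ m, phi m = fun x => (-(nm m)⁻¹) • gp (th0 m) x := fun m => rfl
    have s3 : Pump_S (gp (th0 (0 + 1))) := by
      refine Pump_gp_S ?_
      exact (Pump_psi_P P O (0 + 1)).add (Pump_smul (Pump_chi_P P O (0 + 1)) _)
    unfold pp
    rw [e 0, e (0 + 1), Pump_tri_smul3 _ _ _ s3, Pump_tri_smul1, Pump_tri_smul2, zero_add,
      Fin_tri0 P O G]
    ring
  · exact Pump_pp P O G n hn

theorem Fin_pp_bd (P : S_prod) (O : S_one) (G : S_trig) (h : S_nm) (n : ℕ) :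
    0 ≤ pp n ∧ pp n ≤ Real.exp (-bb n) := by
  rw [Fin_pp P O G n]
  have hE := Real.exp_pos (-bb n)
  obtain ⟨⟨a1, a2⟩, a3⟩ := h n
  obtain ⟨⟨b1, b2⟩, b3⟩ := h (n + 1)
  have hN : (2 : ℝ) ≤ NN n := by exact_mod_cast Pump_NN_pos n
  have hN1 : (2 : ℝ) ≤ NN (n + 1) := by exact_mod_cast Pump_NN_pos (n + 1)
  have p3 := Real.pi_gt_three
  have p4 := Real.pi_lt_four
  have hJ : 0 < 64 * (17 * (NN n : ℝ) - 1) := by linarith
  obtain ⟨q, hq⟩ : ∃ q, q = (2 * Real.pi) ^ 2 * (4 * NN n - 3) / (64 * (17 * (NN n : ℝ) - 1)) :=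
    ⟨_, rfl⟩
  have q1 : 0 ≤ q := by
    rw [hq]
    have : 0 ≤ 4 * (NN n : ℝ) - 3 := by linarith
    exact div_nonneg (mul_nonneg (sq_nonneg _) this) hJ.le
  have q2 : q ≤ 1 := by
    rw [hq, div_le_iff₀ hJ]
    nlinarith [mul_pos (sub_pos.2 p4) (show 0 < 4 * (NN n : ℝ) - 3 by linarith)]
  rw [← hq]
  have c1 : 1 ≤ nm n ^ 2 := by
    have : (2 : ℝ) ^ 3 ≤ (NN n : ℝ) ^ 3 := pow_le_pow_left₀ (by norm_num) hN 3
    linarith
  have c2 : 1 ≤ nm (n + 1) := by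
    have : (2 : ℝ) ^ 3 ≤ (NN (n + 1) : ℝ) ^ 3 := pow_le_pow_left₀ (by norm_num) hN1 3
    nlinarith
  have c3 : (nm n)⁻¹ ^ 2 * (nm (n + 1))⁻¹ ≤ 1 := by
    rw [inv_pow]
    exact mul_le_one₀ (inv_le_one_of_one_le₀ c1) (inv_nonneg.2 b3.le) (inv_le_one_of_one_le₀ c2)
  have c4 : 0 ≤ (nm n)⁻¹ ^ 2 * (nm (n + 1))⁻¹ :=
    mul_nonneg (pow_nonneg (inv_nonneg.2 a3.le) 2) (inv_nonneg.2 b3.le)
  refine ⟨mul_nonneg hE.le (mul_nonneg q1 c4), ?_⟩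
  have c5 : q * ((nm n)⁻¹ ^ 2 * (nm (n + 1))⁻¹) ≤ 1 := mul_le_one₀ q2 c4 c3
  nlinarith

/-- super-exponential decay of the pumps against the powers of `R` -/
theorem Fin_exp_bd (s : ℕ) : ∃ K : ℝ, ∀ n, Real.exp (-bb n) * (RR (n + 1) : ℝ) ^ s ≤ K := by
  have hev : ∀ n, max 1 (64 * s) ≤ n → Real.exp (-bb (n + 1)) * (RR (n + 1 + 1) : ℝ) ^ s ≤ 1 := by
    intro n hn
    have h1 : 1 ≤ n := (le_max_left _ _).trans hn
    have h2 : 64 * s ≤ n := (le_max_right _ _).trans hn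
    have h3 : s * (n + 4) ^ 3 ≤ (n + 5) ^ 5 := by
      have h4 : s ≤ (n + 5) ^ 2 := by nlinarith
      have h5 : (n + 4) ^ 3 ≤ (n + 5) ^ 3 := Nat.pow_le_pow_left (by omega) 3
      calc s * (n + 4) ^ 3 ≤ (n + 5) ^ 2 * (n + 5) ^ 3 := Nat.mul_le_mul h4 h5
        _ = (n + 5) ^ 5 := by rw [← pow_add]
    have h6 := ParP_big n (s * (n + 4) ^ 3) h3
    have h7 : ((s * (n + 4) ^ 3 : ℕ) : ℝ) ≤ bb (n + 1) := by
      refine h6.trans ?_
      rw [ParP_bb, ParP_om, le_div_iff₀ (by positivity), ← pow_add]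
      exact ParP_two (by omega)
    have h8 := ParP_expn _ h7
    have h9 : (RR (n + 1 + 1) : ℝ) ^ s = 2 ^ (s * (n + 4) ^ 3) := by
      rw [ParP_RR, ← pow_mul]
      congr 1
      ring
    rw [h9]
    calc Real.exp (-bb (n + 1)) * 2 ^ (s * (n + 4) ^ 3)
        ≤ 1 / 2 ^ (s * (n + 4) ^ 3) * 2 ^ (s * (n + 4) ^ 3) := by gcongr
      _ = 1 := by
        rw [one_div, inv_mul_cancel₀ (by positivity)]
  refine ⟨1 + ∑ n ∈ Finset.range (max 1 (64 * s) + 1),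
    Real.exp (-bb n) * (RR (n + 1) : ℝ) ^ s, fun n => ?_⟩
  have hnn : ∀ k, 0 ≤ Real.exp (-bb k) * (RR (k + 1) : ℝ) ^ s := fun k => by positivity
  by_cases hn : n < max 1 (64 * s) + 1
  · have := Finset.single_le_sum (f := fun n => Real.exp (-bb n) * (RR (n + 1) : ℝ) ^ s)
      (fun k _ => hnn k) (Finset.mem_range.2 hn)
    linarith
  · obtain ⟨k, rfl⟩ : ∃ k, n = k + 1 := ⟨n - 1, by omega⟩
    have h1 := hev k (by omega)
    have h2 : 0 ≤ ∑ n ∈ Finset.range (max 1 (64 * s) + 1),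
      Real.exp (-bb n) * (RR (n + 1) : ℝ) ^ s := Finset.sum_nonneg fun k _ => hnn k
    linarith

theorem Fin_gg0 (h : S_gg) (m : ℕ) : 0 ≤ gg m :=
  le_trans (by positivity) (h m).1

/-- the hypotheses on the coefficients -/
theorem Fin_coef (P : S_prod) (O : S_one) (G : S_trig) (h : S_nm) (hgg : S_gg) (hccu : S_ccu)
    {ν : ℝ} (hν : 0 ≤ ν) :
    Coef cc pp (fun m => ν * gg m) (2 ^ 10 + ν * 2 ^ 14) := by
  refine ⟨fun n l hnl => ?_, fun n => (Fin_pp_bd P O G h n).1, fun s => ?_,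
    fun n => mul_nonneg hν (Fin_gg0 hgg n), fun n => ?_⟩
  · refine (hccu n l hnl).trans ?_
    have : (0 : ℝ) ≤ (RR n : ℝ) ^ 5 := by positivity
    have h2 : 0 ≤ ν * 2 ^ 14 * (RR n : ℝ) ^ 5 := by positivity
    nlinarith
  · obtain ⟨K, hK⟩ := Fin_exp_bd s
    refine ⟨K, fun n => le_trans ?_ (hK n)⟩
    exact mul_le_mul_of_nonneg_right (Fin_pp_bd P O G h n).2 (by positivity)
  · have h1 := (hgg n).2
    have h2 : (0 : ℝ) ≤ (RR n : ℝ) ^ 4 := by positivity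
    calc ν * gg n ≤ ν * (2 ^ 14 * (RR n : ℝ) ^ 4) := mul_le_mul_of_nonneg_left h1 hν
      _ ≤ _ := by nlinarith

end Pool.Agent.H226.GB
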