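import Pool.Agent.H226.GB.Spec5
import Pool.Agent.H226.GB.ParP

/-!
The numerical conditions with large viscosity and short time (helper353).
-/

namespace Pool.Agent.H226.GB

/-- the quotient dominates the quadratic polynomials that occur -/
theorem Par2_div (m q : ℕ) (hq : 1 ≤ q) (hm : 100 * q ≤ m) :
    24 * (m + 2) ^ 2 + 100 * (m + 2) + 200 ≤ (m + 2) ^ 3 / q := by
  rw [Nat.le_div_iff_mul_le (by omega)]
  have h1 : 100 * q ≤ m + 2 := by omega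
  have h2 : 100 ≤ m + 2 := by omega
  have h3 : 100 * (m + 2) + 200 ≤ 3 * (m + 2) ^ 2 := by nlinarith
  calc (24 * (m + 2) ^ 2 + 100 * (m + 2) + 200) * q
      ≤ (27 * (m + 2) ^ 2) * q := Nat.mul_le_mul_right q (by omega)
    _ ≤ (m + 2) ^ 2 * (100 * q) := by nlinarith [Nat.zero_le ((m + 2) ^ 2 * q)]
    _ ≤ (m + 2) ^ 2 * (m + 2) := Nat.mul_le_mul_left _ h1
    _ = (m + 2) ^ 3 := by ring

theorem Par2_aux (m : ℕ) (hm : 100 ≤ m) : 32 * m + 53 ≤ 5 * (m + 2) ^ 3 := by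
  obtain ⟨k, rfl⟩ : ∃ k, m = k + 100 := ⟨m - 100, by omega⟩
  ring_nf; omega

/-- the bound of the viscous term -/
theorem Par2_K (K : ℝ) (m d a b : ℕ) (hd : d ≤ (m + 2) ^ 3)
    (hK : K ≤ 2 ^ m * 2 ^ ((m + 2) ^ 3 - d)) (h : m + 4 * a + b ≤ 4 * (m + 2) ^ 3 + d) :
    K * (2 ^ a) ^ 4 * 2 ^ b ≤ 2 ^ (5 * (m + 2) ^ 3) := by
  calc K * (2 ^ a) ^ 4 * 2 ^ b
      ≤ 2 ^ m * 2 ^ ((m + 2) ^ 3 - d) * (2 ^ a) ^ 4 * 2 ^ b := by gcongr
    _ = 2 ^ (m + ((m + 2) ^ 3 - d) + a * 4 + b) := by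
        rw [← pow_mul, ← pow_add, ← pow_add, ← pow_add]
    _ ≤ _ := ParP_two (by omega)

theorem Par2_lam (K : ℝ) (m d : ℕ) (hm : 100 ≤ m) (hd : d ≤ (m + 2) ^ 3)
    (hd2 : 24 * (m + 2) ^ 2 + 100 * (m + 2) + 200 ≤ d)
    (hK : K ≤ 2 ^ m * 2 ^ ((m + 2) ^ 3 - d)) :
    lam K m ≤ 2 ^ (5 * (m + 2) ^ 3) / 2 ^ (32 * m + 48) := by
  obtain ⟨Q, hQ⟩ : ∃ Q : ℝ, Q = 2 ^ (5 * (m + 2) ^ 3) / 2 ^ (32 * m + 50) := ⟨_, rfl⟩
  have h0 : 2 ^ (5 * (m + 2) ^ 3) / 2 ^ (32 * m + 48) = 4 * Q := by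
    rw [hQ, ← mul_div_assoc, div_eq_div_iff (by positivity) (by positivity),
      show (4 : ℝ) = 2 ^ 2 by norm_num, ← pow_add, ← pow_add, ← pow_add]
    congr 1
    ring
  have h1 : (6 : ℝ) ≤ Q := by
    rw [hQ, le_div_iff₀ (by positivity)]
    calc (6 : ℝ) * 2 ^ (32 * m + 50) ≤ 2 ^ 3 * 2 ^ (32 * m + 50) := by gcongr; norm_num
      _ = 2 ^ (3 + (32 * m + 50)) := by rw [← pow_add]
      _ ≤ _ := ParP_two (by have := Par2_aux m hm; omega)
  have h2 : 2 * SG m ≤ Q := by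
    obtain ⟨k, rfl⟩ : ∃ k, m = k + 1 := ⟨m - 1, by omega⟩
    have h3 := ParP_SG k
    rw [hQ, le_div_iff₀ (by positivity)]
    calc 2 * SG (k + 1) * 2 ^ (32 * (k + 1) + 50)
        ≤ 2 * 2 ^ (11 + 5 * (k + 2) ^ 3) * 2 ^ (32 * (k + 1) + 50) := by gcongr
      _ = 2 ^ (1 + (11 + 5 * (k + 2) ^ 3) + (32 * (k + 1) + 50)) := by
          rw [← pow_succ', ← pow_add]
          congr 1
          ring
      _ ≤ _ := ParP_two (by
        obtain ⟨j, rfl⟩ : ∃ j, k = j + 99 := ⟨k - 99, by omega⟩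
        ring_nf; omega)
  have h3 : K * (RR (m + 1) : ℝ) ^ 4 ≤ Q := by
    rw [hQ, le_div_iff₀ (by positivity), ParP_RR]
    refine Par2_K K m d _ _ hd hK ?_
    have e : (m + 1 + 2) ^ 3 = (m + 2) ^ 3 + 3 * (m + 2) ^ 2 + 3 * (m + 2) + 1 := by ring
    omega
  have h4 : Gm (m + 1) * rr (m + 1) ≤ 1 := by
    rw [ParP_Gm, ParP_rr, mul_one_div, div_le_one (by positivity)]
    exact ParP_two (by ring_nf; omega)
  have h5 : Real.exp (-bb m) ≤ 1 := by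
    obtain ⟨k, rfl⟩ : ∃ k, m = k + 1 := ⟨m - 1, by omega⟩
    exact ParP_expbb k
  have h6 : Real.exp (-bb (m + 1)) ≤ 1 := ParP_expbb m
  rw [h0]
  unfold lam
  linarith

theorem s_par2 : S_par2 := by
  intro K T q hK0 hT hq
  obtain ⟨k1, hk1⟩ : ∃ k : ℕ, K < 2 ^ k := pow_unbounded_of_one_lt K (by norm_num)
  obtain ⟨k2, hk2⟩ : ∃ k : ℕ, 1 / T < 2 ^ k := pow_unbounded_of_one_lt _ (by norm_num)
  obtain ⟨m0, -, hpar⟩ := s_par 0 1 le_rfl one_pos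
  refine ⟨100 * q + k1 + k2 + m0 + 2, by omega, fun m hm K' T' hK' hKK hTT => ?_⟩
  have hP := hpar m (by omega)
  have hm100 : 100 ≤ m := by omega
  have hdiv := Par2_div m q hq (by omega)
  obtain ⟨d, hd⟩ : ∃ d, d = (m + 2) ^ 3 / q := ⟨_, rfl⟩
  have hds : d ≤ (m + 2) ^ 3 := hd ▸ Nat.div_le_self _ _
  rw [← hd] at hdiv hKK hTT
  have hKm : K' ≤ 2 ^ m * 2 ^ ((m + 2) ^ 3 - d) := by
    refine hKK.trans ?_
    have hK : K ≤ 2 ^ m := hk1.le.trans (ParP_two (by omega))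
    gcongr
  have hTm : 1 ≤ T * 2 ^ m := by
    have h1 : 1 / T ≤ 2 ^ m := hk2.le.trans (ParP_two (by omega))
    rwa [div_le_iff₀ hT, mul_comm] at h1
  have hl1 := Par2_lam K' m d hm100 hds hdiv hKm
  have hl2 : lam 0 m ≤ lam K' m := by
    unfold lam
    have e2 : 0 ≤ K' * (RR (m + 1) : ℝ) ^ 4 := by positivity
    linarith
  have hD := ParP_Dm m
  have hD0 := ParP_Dm0 m
  have hDS := ParP_DSG m
  have hom : om (m + 1) = 2 ^ (15 * m ^ 2 + 75 * m + 77) * 2 ^ 18 := by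
    rw [ParP_om, ← pow_add]
  have hB1 : (2 : ℝ) ≤ 2 ^ (15 * m ^ 2 + 75 * m + 77) := by
    calc (2 : ℝ) = 2 ^ 1 := by norm_num
      _ ≤ _ := ParP_two (by omega)
  refine ⟨?_, ?_, hP.f3, hP.f4, hP.f5, hP.f5', hP.f6, hP.f7, hP.f7b, hP.f7c, hP.f8, ?_, ?_⟩
  · -- f1
    calc 4 * lam K' m * Dm m
        ≤ 4 * (2 ^ (5 * (m + 2) ^ 3) / 2 ^ (32 * m + 48)) *
          (2 ^ (32 * m + 15) / 2 ^ (5 * (m + 2) ^ 3)) := by gcongr
      _ = 4 * 2 ^ (32 * m + 15) / 2 ^ (32 * m + 48) := by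
          field_simp
      _ = 1 / 2 ^ 31 := by
          rw [div_eq_div_iff (by positivity) (by positivity), one_mul,
            show (4 : ℝ) = 2 ^ 2 by norm_num, ← pow_add, ← pow_add]
          congr 1
          ring
  · -- f2
    have h1 := hP.f2
    have h7 : 0 ≤ al m := by rw [ParP_al]; positivity
    have h8 := mul_le_mul_of_nonneg_left hl2 h7
    linarith
  · -- f10
    have h1 : (2 * SG (m + 1) + K' * (RR (m + 2) : ℝ) ^ 4 + 2) * Dm m ≤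
        2 ^ (15 * m ^ 2 + 75 * m + 77) + 2 := by
      have h5 : (2 : ℝ) * 2 ^ (32 * m + 26) ≤ 2 ^ (15 * m ^ 2 + 75 * m + 77) := by
        rw [← pow_succ']
        exact ParP_two (by ring_nf; omega)
      have h6 : K' * (RR (m + 2) : ℝ) ^ 4 * Dm m ≤ 1 := by
        rw [ParP_RR]
        calc K' * (2 ^ ((m + 2 + 2) ^ 3)) ^ 4 * Dm m
            ≤ K' * (2 ^ ((m + 2 + 2) ^ 3)) ^ 4 *
              (2 ^ (32 * m + 15) / 2 ^ (5 * (m + 2) ^ 3)) := by gcongr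
          _ = (K' * (2 ^ ((m + 2 + 2) ^ 3)) ^ 4 * 2 ^ (32 * m + 15)) /
              2 ^ (5 * (m + 2) ^ 3) := by rw [← mul_div_assoc]
          _ ≤ 1 := by
              rw [div_le_one (by positivity)]
              refine Par2_K K' m d _ _ hds hKm ?_
              have e : (m + 2 + 2) ^ 3 = (m + 2) ^ 3 + 6 * (m + 2) ^ 2 + 12 * (m + 2) + 8 := by
                ring
              omega
      have h7 : 2 * Dm m ≤ 1 := by
        have h8 : 2 * (2 ^ (32 * m + 15) / 2 ^ (5 * (m + 2) ^ 3)) ≤ (1 : ℝ) := by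
          rw [← mul_div_assoc, ← pow_succ', div_le_one (by positivity)]
          exact ParP_two (by have := Par2_aux m hm100; omega)
        linarith
      have h9 : (2 * SG (m + 1) + K' * (RR (m + 2) : ℝ) ^ 4 + 2) * Dm m =
          2 * (Dm m * SG (m + 1)) + K' * (RR (m + 2) : ℝ) ^ 4 * Dm m + 2 * Dm m := by ring
      rw [h9]
      linarith
    obtain ⟨N, hN⟩ : ∃ N : ℕ, N = 13 + 9 * (m + 4) ^ 3 + 29 * m + 5 * (m + 2) ^ 3 := ⟨_, rfl⟩
    have h2 : (N : ℝ) ≤ 2 ^ (15 * m ^ 2 + 75 * m + 77) := by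
      refine ParP_big m N ?_
      rw [hN]
      obtain ⟨k, rfl⟩ : ∃ k, m = k + 100 := ⟨m - 100, by omega⟩
      ring_nf; omega
    have h3 : (N : ℝ) ≤ 49 / 100 / 2 ^ 11 * om (m + 1) - bb (m + 1)
      - (2 * SG (m + 1) + K' * (RR (m + 2) : ℝ) ^ 4 + 2) * Dm m := by
      rw [ParP_bb, hom]
      linarith
    have h4 := ParP_exp N h3
    set X := Real.exp (49 / 100 / 2 ^ 11 * om (m + 1) - bb (m + 1)
      - (2 * SG (m + 1) + K' * (RR (m + 2) : ℝ) ^ 4 + 2) * Dm m) with hX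
    have h5 : rr (m + 1) < 1 := by
      rw [ParP_rr, div_lt_one (by positivity)]
      exact one_lt_pow₀ (by norm_num) (by positivity)
    refine h5.trans_le ?_
    rw [ParP_RR, ParP_al, ParP_Gm]
    have h6 : (2 : ℝ) ^ N = 2 ^ ((m + 2 + 2) ^ 3 * 9) * 2 ^ (29 * m) *
        2 ^ (10 + 5 * (m + 2) ^ 3) * 8 := by
      rw [show (8 : ℝ) = 2 ^ 3 by norm_num, ← pow_add, ← pow_add, ← pow_add, hN]
      congr 1
      ring
    rw [h6] at h4
    rw [← pow_mul]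
    calc (1 : ℝ) ≤ 49 * 8 / 200 := by norm_num
      _ = 1 / (2 * 2 ^ ((m + 2 + 2) ^ 3 * 9)) *
        (49 / 100 * (1 / 2 ^ (29 * m)) / 2 ^ (10 + 5 * (m + 2) ^ 3)) *
        (2 ^ ((m + 2 + 2) ^ 3 * 9) * 2 ^ (29 * m) * 2 ^ (10 + 5 * (m + 2) ^ 3) * 8) := by
          have key : ∀ a b c : ℝ, 0 < a → 0 < b → 0 < c → (49 * 8 / 200 : ℝ) =
              1 / (2 * a) * (49 / 100 * (1 / b) / c) * (a * b * c * 8) := by
            intro a b c ha hb hc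
            field_simp
            norm_num
          exact key _ _ _ (by positivity) (by positivity) (by positivity)
      _ ≤ _ := by gcongr
  · -- f11
    refine le_trans ?_ (div_le_div_of_nonneg_right hTT (by positivity))
    rw [div_div, le_div_iff₀ (by positivity)]
    calc Dm m * (2 ^ (5 * (m + 2) ^ 3 - d) * 2 ^ (m + 1))
        ≤ (2 ^ (32 * m + 15) / 2 ^ (5 * (m + 2) ^ 3)) *
          (2 ^ (5 * (m + 2) ^ 3 - d) * 2 ^ (m + 1)) := by gcongr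
      _ ≤ 1 / 2 ^ m := by
          rw [div_mul_eq_mul_div, div_le_div_iff₀ (by positivity) (by positivity), one_mul,
            ← pow_add, ← pow_add, ← pow_add]
          exact ParP_two (by omega)
      _ ≤ T := by
          rw [div_le_iff₀ (by positivity)]
          exact hTm

end Pool.Agent.H226.GB
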