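import Pool.Agent.H226.GB.Spec6
import Pool.Agent.H226.GB.ParP
import Pool.Agent.H226.GB.Par2
import Pool.Agent.H226.GB.Fin1

/-!
The choice of the parameters (helper824).
-/

namespace Pool.Agent.H226.GB

/-- the quotient dominates the quadratic polynomials that occur -/
theorem Num_div (m q : ℕ) (hq : 1 ≤ q) (hm : 100 * q ≤ m) :
    100 * (m + 2) ^ 2 ≤ (m + 2) ^ 3 / q := by
  rw [Nat.le_div_iff_mul_le (by omega)]
  calc 100 * (m + 2) ^ 2 * q = (m + 2) ^ 2 * (100 * q) := by ring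
    _ ≤ (m + 2) ^ 2 * (m + 2) := Nat.mul_le_mul_left _ (by omega)
    _ = (m + 2) ^ 3 := by ring

/-- `x - x / q` is nondecreasing -/
theorem Num_sub (a b q : ℕ) (hq : 1 ≤ q) (hab : a ≤ b) : a - a / q ≤ b - b / q := by
  obtain ⟨c, rfl⟩ : ∃ c, b = a + c := ⟨b - a, by omega⟩
  have h1 : (a + c) / q ≤ a / q + c := by
    calc (a + c) / q ≤ (a + c * q) / q := Nat.div_le_div_right (by nlinarith)
      _ = a / q + c := Nat.add_mul_div_right _ _ (by omega)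
  have h2 : a / q ≤ a := Nat.div_le_self _ _
  have h3 : (a + c) / q ≤ a + c := Nat.div_le_self _ _
  omega

/-- the sum of the pumps against the couplings is bounded -/
theorem Num_sum : ∃ C : ℝ, ∀ l, ∑ n ∈ Finset.range l, Gm n *
    (if n = 0 then 0 else Real.exp (-bb (n - 1))) ≤ C := by
  obtain ⟨K, hK⟩ := Fin_exp_bd 6
  have hK0 : 0 ≤ K := le_trans (by positivity) (hK 0)
  have ht : ∀ n, Gm n * (if n = 0 then 0 else Real.exp (-bb (n - 1))) ≤
      2 ^ 10 * K * (1 / 2) ^ n := by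
    intro n
    rcases Nat.eq_zero_or_pos n with rfl | hn
    · rw [if_pos rfl, mul_zero]
      positivity
    · obtain ⟨k, rfl⟩ : ∃ k, n = k + 1 := ⟨n - 1, by omega⟩
      rw [if_neg (by omega), Nat.add_sub_cancel]
      have h1 := hK k
      have h2 : (2 : ℝ) ^ (k + 1) ≤ RR (k + 1) := by
        rw [ParP_RR]
        exact ParP_two (by ring_nf; omega)
      have h3 : (0 : ℝ) < 2 ^ (k + 1) := by positivity
      have h4 : (0 : ℝ) < RR (k + 1) := h3.trans_le h2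
      unfold Gm
      rw [one_div_pow, mul_one_div, le_div_iff₀ h3]
      have h5 : 0 < Real.exp (-bb k) := Real.exp_pos _
      calc 2 ^ 10 * (RR (k + 1) : ℝ) ^ 5 * Real.exp (-bb k) * 2 ^ (k + 1)
          ≤ 2 ^ 10 * (RR (k + 1) : ℝ) ^ 5 * Real.exp (-bb k) * RR (k + 1) := by gcongr
        _ = 2 ^ 10 * (Real.exp (-bb k) * (RR (k + 1) : ℝ) ^ 6) := by ring
        _ ≤ 2 ^ 10 * K := by gcongr
  refine ⟨2 ^ 10 * K * 2, fun l => ?_⟩
  calc _ ≤ ∑ n ∈ Finset.range l, 2 ^ 10 * K * (1 / 2) ^ n := Finset.sum_le_sum fun n _ => ht n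
    _ = 2 ^ 10 * K * ∑ n ∈ Finset.range l, (1 / 2 : ℝ) ^ n := by rw [Finset.mul_sum]
    _ ≤ _ := mul_le_mul_of_nonneg_left (sum_geometric_two_le l) (by positivity)

/-- the stage lengths against the time -/
theorem Num_f11 (m0 m : ℕ) (hm : m0 ≤ m) : Dm m ≤ tau m0 / 2 ^ (m + 1) := by
  refine (ParP_Dm m).trans ?_
  unfold tau
  rw [div_div, div_le_div_iff₀ (by positivity) (by positivity), ← pow_add, ← pow_add, ← pow_add]
  refine ParP_two ?_
  obtain ⟨k, rfl⟩ : ∃ k, m = m0 + k := ⟨m - m0, by omega⟩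
  have h1 : (m0 + 2) ^ 3 + 12 * k ≤ (m0 + k + 2) ^ 3 := by
    have e : (m0 + k + 2) ^ 3 = (m0 + 2) ^ 3 + 12 * k + (3 * (m0 ^ 2 + 4 * m0) * k +
      3 * (m0 + 2) * k ^ 2 + k ^ 3) := by ring
    rw [e]
    exact Nat.le_add_right _ _
  omega

theorem s_num : S_num := by
  refine ⟨Num_sum, fun K C T q hK hC hT hq => ?_⟩
  obtain ⟨k1, hk1⟩ : ∃ k : ℕ, C < 2 ^ k := pow_unbounded_of_one_lt C (by norm_num)
  obtain ⟨k2, hk2⟩ : ∃ k : ℕ, 1 / T < 2 ^ k := pow_unbounded_of_one_lt _ (by norm_num)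
  obtain ⟨m1, hm1, hpar⟩ := s_par2 K 1 q hK one_pos hq
  refine ⟨m1 + 100 * q + k1 + k2 + 100, by omega, fun m0 hm0 => ?_⟩
  obtain ⟨i, rfl⟩ : ∃ i, m0 = i + 3 := ⟨m0 - 3, by omega⟩
  have e1 : i + 3 - 1 = i + 1 + 1 := by omega
  have e2 : i + 3 - 2 = i + 1 := by omega
  have e3 : i + 3 + 2 = i + 5 := by omega
  rw [e1, e2, e3]
  have hdiv := Num_div (i + 3) q hq (by omega)
  rw [e3] at hdiv
  obtain ⟨d, hd⟩ : ∃ d, d = (i + 5) ^ 3 / q := ⟨_, rfl⟩
  have hds : d ≤ (i + 5) ^ 3 := hd ▸ Nat.div_le_self _ _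
  rw [← hd] at hdiv ⊢
  have hCm : C ≤ 2 ^ (i + 3) := hk1.le.trans (ParP_two (by omega))
  have hTm : 1 / 2 ^ (i + 3) ≤ T := by
    have h1 : 1 / T ≤ 2 ^ (i + 3) := hk2.le.trans (ParP_two (by omega))
    rw [div_le_iff₀ hT] at h1
    rw [div_le_iff₀ (by positivity)]
    linarith
  have etau : tau (i + 3) = 2 ^ (34 * (i + 3) + 17) / 2 ^ (5 * (i + 5) ^ 3) := rfl
  have c1 : (i + 5) ^ 3 = (i + 3) ^ 3 + 6 * (i + 5) ^ 2 - 12 * (i + 5) + 8 := by
    have : 12 * (i + 5) ≤ 6 * (i + 5) ^ 2 := by nlinarith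
    have h2 : (i + 5) ^ 3 + 12 * (i + 5) = (i + 3) ^ 3 + 6 * (i + 5) ^ 2 + 8 := by ring
    omega
  have c2 : (i + 5) * 100 ≤ (i + 5) ^ 2 := by nlinarith
  have c3 : (i + 5) ^ 2 * 100 ≤ (i + 5) ^ 3 := by
    have : (i + 5) ^ 3 = (i + 5) ^ 2 * (i + 5) := by ring
    rw [this]
    exact Nat.mul_le_mul_left _ (by omega)
  refine ⟨fun K' hK'0 hK' m hm => ?_, ?_, ?_, fun A hA0 hA => ⟨?_, ?_, ?_⟩⟩
  · have hmon := Num_sub ((i + 5) ^ 3) ((m + 2) ^ 3) q hq (Nat.pow_le_pow_left (by omega) 3)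
    rw [← hd] at hmon
    have hP := hpar m (by omega) K' 1 hK'0 (hK'.trans (by
      have := ParP_two hmon
      gcongr)) (by
        rw [div_le_one (by positivity)]
        exact one_le_pow₀ (by norm_num))
    exact ⟨hP.f1, hP.f2, hP.f3, hP.f4, hP.f5, hP.f5', hP.f6, hP.f7, hP.f7b, hP.f7c, hP.f8,
      hP.f10, Num_f11 (i + 3) m hm⟩
  · have h3 := ParP_SG (i + 1)
    rw [etau, ← mul_div_assoc, div_le_div_iff₀ (by positivity) (by norm_num), one_mul]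
    calc 2 * SG (i + 1 + 1) * 2 ^ (34 * (i + 3) + 17) * 8
        ≤ 2 * 2 ^ (11 + 5 * (i + 1 + 2) ^ 3) * 2 ^ (34 * (i + 3) + 17) * 8 := by gcongr
      _ = 2 ^ (1 + (11 + 5 * (i + 1 + 2) ^ 3) + (34 * (i + 3) + 17) + 3) := by
          rw [show (8 : ℝ) = 2 ^ 3 by norm_num, ← pow_succ', ← pow_add, ← pow_add]
          congr 1
          ring
      _ ≤ _ := ParP_two (by
        have e : i + 1 + 2 = i + 3 := by omega
        rw [e]
        omega)
  · rw [etau, div_le_one (by positivity)]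
    exact ParP_two (by omega)
  · have h1 : Gm (i + 1) ≤ SG (i + 1 + 1) := by
      unfold SG
      exact Finset.single_le_sum (f := Gm) (fun k _ => by rw [ParP_Gm]; positivity)
        (Finset.mem_range.2 (by omega))
    rw [ParP_Gm] at h1
    have h2 : C * A ≤ 2 ^ (i + 3) * 2 ^ (5 * (i + 5) ^ 3 - d) := by gcongr
    have h3 : (2 : ℝ) ^ (i + 3) * 2 ^ (5 * (i + 5) ^ 3 - d) * 2 ≤ 2 ^ (10 + 5 * (i + 1 + 2) ^ 3) := by
      rw [← pow_add, ← pow_succ]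
      refine ParP_two ?_
      have e : i + 1 + 2 = i + 3 := by omega
      rw [e]
      omega
    linarith
  · obtain ⟨N, hN⟩ : ∃ N : ℕ, N = (i + 3) + (5 * (i + 5) ^ 3) * 2 := ⟨_, rfl⟩
    have h2 : (N : ℝ) ≤ 2 ^ (15 * i ^ 2 + 75 * i + 77) := by
      refine ParP_big i N ?_
      rw [hN]
      obtain ⟨k, rfl⟩ : ∃ k, i = k + 90 := ⟨i - 90, by omega⟩
      ring_nf; omega
    have h3 : (N : ℝ) ≤ bb (i + 1) := by
      refine h2.trans ?_
      rw [ParP_bb, ParP_om, le_div_iff₀ (by positivity), ← pow_add]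
      exact ParP_two (by omega)
    have h4 := ParP_expn N h3
    have h5 : A ≤ 2 ^ (5 * (i + 5) ^ 3) := hA.trans (ParP_two (by omega))
    calc C * A ^ 2 * Real.exp (-bb (i + 1))
        ≤ 2 ^ (i + 3) * (2 ^ (5 * (i + 5) ^ 3)) ^ 2 * (1 / 2 ^ N) := by gcongr
      _ = 1 := by
          rw [← pow_mul, ← pow_add, ← hN, mul_one_div, div_self (by positivity)]
  · refine le_trans ?_ hTm
    rw [etau]
    calc 2 ^ (34 * (i + 3) + 17) / 2 ^ (5 * (i + 5) ^ 3) * A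
        ≤ 2 ^ (34 * (i + 3) + 17) / 2 ^ (5 * (i + 5) ^ 3) * 2 ^ (5 * (i + 5) ^ 3 - d) := by
          gcongr
      _ ≤ 1 / 2 ^ (i + 3) := by
          rw [div_mul_eq_mul_div, div_le_div_iff₀ (by positivity) (by positivity), one_mul,
            ← pow_add, ← pow_add]
          exact ParP_two (by omega)

end Pool.Agent.H226.GB
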