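import Pool.Agent.H226.GB.Spec3

/-!
Interface, fifth part: the numerical conditions with large viscosity and short time.
-/

open MeasureTheory Set Filter Topology

namespace Pool.Agent.H226.GB

/-- the numerical conditions hold for all large `m`, with the viscosity of size `R_m^(1 - 1/q)`
and the time `R_m^(-5 + 1/q)` -/
def S_par2 : Prop := ∀ (K T : ℝ) (q : ℕ), 0 ≤ K → 0 < T → 1 ≤ q → ∃ m1, 2 ≤ m1 ∧ ∀ m, m1 ≤ m →
  ∀ K' T' : ℝ, 0 ≤ K' → K' ≤ K * 2 ^ ((m + 2) ^ 3 - (m + 2) ^ 3 / q) →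
    T / 2 ^ (5 * (m + 2) ^ 3 - (m + 2) ^ 3 / q) ≤ T' → Par K' T' m

end Pool.Agent.H226.GB
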