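import Pool.Agent.H226.GB.Ode1
import Pool.Agent.H226.GB.Spec5

/-!
Interface, sixth part: the lower levels during a short time, and the choice of the parameters.
-/

open MeasureTheory Set Filter Topology

namespace Pool.Agent.H226.GB

/-- control of the lower levels for a short time: the levels `n < L` are initially arbitrary, the
levels `≥ L` have initially at most the energy `α²` -/
def S_low : Prop := ∀ (c : ℕ → ℕ → ℝ) (p ν : ℕ → ℝ) (T : ℝ) (a : ℕ → ℝ → ℝ) (S : ℝ → ℝ)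
    (W : ℕ → ℝ → ℝ) (L l : ℕ) (B α : ℝ), Sys0 c Gm p ν T a S W → 0 ≤ T → 0 < α → 0 ≤ B →
    1 ≤ L → L ≤ l → S 0 ≤ B ^ 2 → tl a S L 0 ≤ α ^ 2 →
    2 * α * SG l * T ≤ 1 / 8 →
    (∑ n ∈ Finset.range L, Gm n * B) + 2 * T * B ^ 2 *
      (∑ n ∈ Finset.range l, Gm n * (if n = 0 then 0 else p (n - 1))) ≤ α * SG l / 2 →
    T * B ^ 2 * p (l - 1) ≤ α / 16 →
    ∀ t ∈ Icc 0 T, tl a S l t ≤ 2 * α ^ 2 ∧
      ∑ n ∈ Finset.range l, Gm n * |a n t| ≤ 2 * α * SG l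

/-- the time of the cascade which begins at the level `m` -/
noncomputable def tau (m : ℕ) : ℝ := 2 ^ (34 * m + 17) / 2 ^ (5 * (m + 2) ^ 3)

/-- the choice of the parameters -/
def S_num : Prop := (∃ C : ℝ, ∀ l, ∑ n ∈ Finset.range l, Gm n *
    (if n = 0 then 0 else Real.exp (-bb (n - 1))) ≤ C) ∧
  ∀ (K C T : ℝ) (q : ℕ), 0 ≤ K → 0 ≤ C → 0 < T → 1 ≤ q → ∃ m1, 3 ≤ m1 ∧ ∀ m0, m1 ≤ m0 →
    (∀ K', 0 ≤ K' → K' ≤ K * 2 ^ ((m0 + 2) ^ 3 - (m0 + 2) ^ 3 / q) → ∀ m, m0 ≤ m →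
      Par K' (tau m0) m) ∧
    2 * SG (m0 - 1) * tau m0 ≤ 1 / 8 ∧ tau m0 ≤ 1 ∧
    ∀ A : ℝ, 0 ≤ A → A ≤ 2 ^ (5 * (m0 + 2) ^ 3 - (m0 + 2) ^ 3 / q) →
      C * A ≤ SG (m0 - 1) / 2 ∧ C * A ^ 2 * Real.exp (-bb (m0 - 2)) ≤ 1 ∧ tau m0 * A ≤ T

end Pool.Agent.H226.GB
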