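import Pool.Agent.H226.GB.Spec

/-!
One-dimensional trigonometric integrals.
-/

set_option autoImplicit false
set_option linter.all false

open MeasureTheory Set Filter Topology
open scoped ContDiff
open H459R3.NS

namespace Pool.Agent.H226.GB

/-- cosine with an integer frequency -/
noncomputable def One_ci (m : ℤ) (s : ℝ) : ℝ := Real.cos (2 * Real.pi * m * s)

theorem One_ci_cont (m : ℤ) : Continuous (One_ci m) := by
  unfold One_ci; fun_prop

theorem One_sn_cont (m : ℕ) : Continuous (sn m) := by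
  unfold sn; fun_prop

theorem One_cs_cont (m : ℕ) : Continuous (cs m) := by
  unfold cs; fun_prop

theorem One_i1_ci (m : ℤ) : i1 (One_ci m) = if m = 0 then 1 else 0 := by
  unfold i1 One_ci
  split_ifs with h
  · subst h; simp
  · have hc : 2 * Real.pi * (m : ℝ) ≠ 0 := by
      have : (m : ℝ) ≠ 0 := by exact_mod_cast h
      have := Real.pi_pos.ne'
      positivity
    rw [intervalIntegral.integral_comp_mul_left (fun x => Real.cos x) hc, integral_cos]
    have : Real.sin (2 * Real.pi * (m : ℝ) * 1) = 0 := by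
      have h2 := Real.sin_int_mul_pi (2 * m)
      rw [← h2]; congr 1; push_cast; ring
    rw [this]; simp

theorem One_i1_add {f g : ℝ → ℝ} (hf : Continuous f) (hg : Continuous g) :
    i1 (fun s => f s + g s) = i1 f + i1 g :=
  intervalIntegral.integral_add (hf.intervalIntegrable _ _) (hg.intervalIntegrable _ _)

theorem One_i1_sub {f g : ℝ → ℝ} (hf : Continuous f) (hg : Continuous g) :
    i1 (fun s => f s - g s) = i1 f - i1 g :=
  intervalIntegral.integral_sub (hf.intervalIntegrable _ _) (hg.intervalIntegrable _ _)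

theorem One_i1_smul (c : ℝ) (f : ℝ → ℝ) : i1 (fun s => c * f s) = c * i1 f :=
  intervalIntegral.integral_const_mul _ _

theorem One_i1_sum (A : Finset ℕ) (f : ℕ → ℝ → ℝ) (hf : ∀ j ∈ A, Continuous (f j)) :
    i1 (fun s => ∑ j ∈ A, f j s) = ∑ j ∈ A, i1 (f j) :=
  intervalIntegral.integral_finset_sum fun j hj => (hf j hj).intervalIntegrable _ _

theorem One_2a (m n : ℤ) : i1 (fun s => One_ci m s + One_ci n s) =
    (if m = 0 then 1 else 0) + (if n = 0 then 1 else 0) := by
  rw [One_i1_add (One_ci_cont m) (One_ci_cont n), One_i1_ci, One_i1_ci]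

theorem One_4s (m n m' n' : ℤ) : i1 (fun s => (One_ci m s + One_ci n s) - (One_ci m' s + One_ci n' s)) =
    ((if m = 0 then 1 else 0) + (if n = 0 then 1 else 0)) -
      ((if m' = 0 then 1 else 0) + (if n' = 0 then 1 else 0)) := by
  rw [One_i1_sub (f := fun s => One_ci m s + One_ci n s) (g := fun s => One_ci m' s + One_ci n' s)
    ((One_ci_cont m).add (One_ci_cont n)) ((One_ci_cont m').add (One_ci_cont n')), One_2a, One_2a]

theorem One_4a (m n m' n' : ℤ) : i1 (fun s => (One_ci m s + One_ci n s) + (One_ci m' s + One_ci n' s)) =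
    ((if m = 0 then 1 else 0) + (if n = 0 then 1 else 0)) +
      ((if m' = 0 then 1 else 0) + (if n' = 0 then 1 else 0)) := by
  rw [One_i1_add (f := fun s => One_ci m s + One_ci n s) (g := fun s => One_ci m' s + One_ci n' s)
    ((One_ci_cont m).add (One_ci_cont n)) ((One_ci_cont m').add (One_ci_cont n')), One_2a, One_2a]

/-- the two kinds of triple integrals -/
theorem One_ssc (a b k : ℕ) (ha : 1 ≤ a) : i1 (fun s => sn a s * sn b s * cs k s) =
    1 / 4 * ((if a + k = b then 1 else 0) + (if b + k = a then 1 else 0) - (if a + b = k then 1 else 0)) := by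
  have h : (fun s => sn a s * sn b s * cs k s) = fun s => 1 / 4 * ((One_ci ((a : ℤ) - b + k) s +
      One_ci ((a : ℤ) - b - k) s) - (One_ci ((a : ℤ) + b - k) s + One_ci ((a : ℤ) + b + k) s)) := by
    funext s
    unfold sn cs One_ci
    push_cast
    have e1 : 2 * Real.pi * ((a : ℝ) - b + k) * s =
      (2 * Real.pi * a * s - 2 * Real.pi * b * s) + 2 * Real.pi * k * s := by ring
    have e2 : 2 * Real.pi * ((a : ℝ) - b - k) * s =
      (2 * Real.pi * a * s - 2 * Real.pi * b * s) - 2 * Real.pi * k * s := by ring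
    have e3 : 2 * Real.pi * ((a : ℝ) + b - k) * s =
      (2 * Real.pi * a * s + 2 * Real.pi * b * s) - 2 * Real.pi * k * s := by ring
    have e4 : 2 * Real.pi * ((a : ℝ) + b + k) * s =
      (2 * Real.pi * a * s + 2 * Real.pi * b * s) + 2 * Real.pi * k * s := by ring
    rw [e1, e2, e3, e4]
    simp only [Real.cos_add, Real.cos_sub, Real.sin_add, Real.sin_sub]
    ring
  rw [h, One_i1_smul, One_4s]
  have c1 : ((a : ℤ) - b + k = 0) ↔ a + k = b := by omega
  have c2 : ((a : ℤ) - b - k = 0) ↔ b + k = a := by omega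
  have c3 : ((a : ℤ) + b - k = 0) ↔ a + b = k := by omega
  have c4 : ¬ ((a : ℤ) + b + k = 0) := by omega
  simp only [c1, c2, c3, c4, if_false, add_zero]

theorem One_ccc (a b k : ℕ) (ha : 1 ≤ a) : i1 (fun s => cs a s * cs b s * cs k s) =
    1 / 4 * ((if a + k = b then 1 else 0) + (if b + k = a then 1 else 0) + (if a + b = k then 1 else 0)) := by
  have h : (fun s => cs a s * cs b s * cs k s) = fun s => 1 / 4 * ((One_ci ((a : ℤ) - b + k) s +
      One_ci ((a : ℤ) - b - k) s) + (One_ci ((a : ℤ) + b - k) s + One_ci ((a : ℤ) + b + k) s)) := by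
    funext s
    unfold cs One_ci
    push_cast
    have e1 : 2 * Real.pi * ((a : ℝ) - b + k) * s =
      (2 * Real.pi * a * s - 2 * Real.pi * b * s) + 2 * Real.pi * k * s := by ring
    have e2 : 2 * Real.pi * ((a : ℝ) - b - k) * s =
      (2 * Real.pi * a * s - 2 * Real.pi * b * s) - 2 * Real.pi * k * s := by ring
    have e3 : 2 * Real.pi * ((a : ℝ) + b - k) * s =
      (2 * Real.pi * a * s + 2 * Real.pi * b * s) - 2 * Real.pi * k * s := by ring
    have e4 : 2 * Real.pi * ((a : ℝ) + b + k) * s =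
      (2 * Real.pi * a * s + 2 * Real.pi * b * s) + 2 * Real.pi * k * s := by ring
    rw [e1, e2, e3, e4]
    simp only [Real.cos_add, Real.cos_sub, Real.sin_add, Real.sin_sub]
    ring
  rw [h, One_i1_smul, One_4a]
  have c1 : ((a : ℤ) - b + k = 0) ↔ a + k = b := by omega
  have c2 : ((a : ℤ) - b - k = 0) ↔ b + k = a := by omega
  have c3 : ((a : ℤ) + b - k = 0) ↔ a + b = k := by omega
  have c4 : ¬ ((a : ℤ) + b + k = 0) := by omega
  simp only [c1, c2, c3, c4, if_false, add_zero]

theorem One_cs_zero (s : ℝ) : cs 0 s = 1 := by simp [cs]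

/-- sums of sines -/
noncomputable def One_S (A : Finset ℕ) (u : ℕ → ℝ) (s : ℝ) : ℝ := ∑ j ∈ A, u j * sn j s

/-- sums of cosines -/
noncomputable def One_C (A : Finset ℕ) (u : ℕ → ℝ) (s : ℝ) : ℝ := ∑ j ∈ A, u j * cs j s

theorem One_S_sq (A : Finset ℕ) (hA : ∀ a ∈ A, 1 ≤ a) (u : ℕ → ℝ) (k : ℕ) :
    i1 (fun s => One_S A u s ^ 2 * cs k s) = ∑ a ∈ A, ∑ b ∈ A, u a * u b * (1 / 4 *
      ((if a + k = b then 1 else 0) + (if b + k = a then 1 else 0) - (if a + b = k then 1 else 0))) := by
  have h : (fun s => One_S A u s ^ 2 * cs k s) =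
      fun s => ∑ a ∈ A, ∑ b ∈ A, (u a * u b) * (sn a s * sn b s * cs k s) := by
    funext s
    unfold One_S
    rw [sq, Finset.sum_mul_sum, Finset.sum_mul]
    refine Finset.sum_congr rfl fun a _ => ?_
    rw [Finset.sum_mul]
    refine Finset.sum_congr rfl fun b _ => ?_
    ring
  have hc : ∀ a b : ℕ, Continuous (fun s => (u a * u b) * (sn a s * sn b s * cs k s)) := fun a b =>
    continuous_const.mul (((One_sn_cont a).mul (One_sn_cont b)).mul (One_cs_cont k))
  rw [h, One_i1_sum A (fun a s => ∑ b ∈ A, (u a * u b) * (sn a s * sn b s * cs k s))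
    (fun a _ => continuous_finset_sum _ fun b _ => hc a b)]
  refine Finset.sum_congr rfl fun a ha => ?_
  rw [One_i1_sum A (fun b s => (u a * u b) * (sn a s * sn b s * cs k s)) (fun b _ => hc a b)]
  refine Finset.sum_congr rfl fun b _ => ?_
  rw [One_i1_smul, One_ssc a b k (hA a ha)]

theorem One_C_sq (A : Finset ℕ) (hA : ∀ a ∈ A, 1 ≤ a) (u : ℕ → ℝ) (k : ℕ) :
    i1 (fun s => One_C A u s ^ 2 * cs k s) = ∑ a ∈ A, ∑ b ∈ A, u a * u b * (1 / 4 *
      ((if a + k = b then 1 else 0) + (if b + k = a then 1 else 0) + (if a + b = k then 1 else 0))) := by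
  have h : (fun s => One_C A u s ^ 2 * cs k s) =
      fun s => ∑ a ∈ A, ∑ b ∈ A, (u a * u b) * (cs a s * cs b s * cs k s) := by
    funext s
    unfold One_C
    rw [sq, Finset.sum_mul_sum, Finset.sum_mul]
    refine Finset.sum_congr rfl fun a _ => ?_
    rw [Finset.sum_mul]
    refine Finset.sum_congr rfl fun b _ => ?_
    ring
  have hc : ∀ a b : ℕ, Continuous (fun s => (u a * u b) * (cs a s * cs b s * cs k s)) := fun a b =>
    continuous_const.mul (((One_cs_cont a).mul (One_cs_cont b)).mul (One_cs_cont k))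
  rw [h, One_i1_sum A (fun a s => ∑ b ∈ A, (u a * u b) * (cs a s * cs b s * cs k s))
    (fun a _ => continuous_finset_sum _ fun b _ => hc a b)]
  refine Finset.sum_congr rfl fun a ha => ?_
  rw [One_i1_sum A (fun b s => (u a * u b) * (cs a s * cs b s * cs k s)) (fun b _ => hc a b)]
  refine Finset.sum_congr rfl fun b _ => ?_
  rw [One_i1_smul, One_ccc a b k (hA a ha)]

/-! ### Derivatives -/

theorem One_sn_der (k : ℕ) (s : ℝ) : HasDerivAt (sn k) (2 * Real.pi * k * cs k s) s := by
  have h1 : HasDerivAt (fun s : ℝ => 2 * Real.pi * k * s) (2 * Real.pi * k) s := by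
    have := (hasDerivAt_id s).const_mul (2 * Real.pi * k)
    simpa using this
  have h2 := h1.sin
  unfold sn cs
  rw [mul_comm (2 * Real.pi * (k : ℝ)) (Real.cos _)]
  exact h2

theorem One_cs_der (k : ℕ) (s : ℝ) : HasDerivAt (cs k) (-(2 * Real.pi * k * sn k s)) s := by
  have h1 : HasDerivAt (fun s : ℝ => 2 * Real.pi * k * s) (2 * Real.pi * k) s := by
    have := (hasDerivAt_id s).const_mul (2 * Real.pi * k)
    simpa using this
  have h2 := h1.cos
  unfold sn cs
  have e : -(2 * Real.pi * (k : ℝ) * Real.sin (2 * Real.pi * k * s)) =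
    -Real.sin (2 * Real.pi * k * s) * (2 * Real.pi * k) := by ring
  rw [e]
  exact h2

theorem One_dS (A : Finset ℕ) (u : ℕ → ℝ) :
    deriv (One_S A u) = One_C A (fun j => u j * (2 * Real.pi * j)) := by
  funext s
  have : HasDerivAt (One_S A u) (∑ j ∈ A, u j * (2 * Real.pi * j * cs j s)) s := by
    unfold One_S
    exact HasDerivAt.fun_sum fun j _ => (One_sn_der j s).const_mul (u j)
  rw [this.deriv]
  unfold One_C
  refine Finset.sum_congr rfl fun j _ => ?_
  ring

theorem One_dC (A : Finset ℕ) (u : ℕ → ℝ) :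
    deriv (One_C A u) = One_S A (fun j => -(u j * (2 * Real.pi * j))) := by
  funext s
  have : HasDerivAt (One_C A u) (∑ j ∈ A, u j * (-(2 * Real.pi * j * sn j s))) s := by
    unfold One_C
    exact HasDerivAt.fun_sum fun j _ => (One_cs_der j s).const_mul (u j)
  rw [this.deriv]
  unfold One_S
  refine Finset.sum_congr rfl fun j _ => ?_
  ring

theorem One_C_congr (A : Finset ℕ) (u v : ℕ → ℝ) (h : ∀ j ∈ A, u j = v j) : One_C A u = One_C A v := by
  funext s
  unfold One_C
  exact Finset.sum_congr rfl fun j hj => by rw [h j hj]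

theorem One_S_congr (A : Finset ℕ) (u v : ℕ → ℝ) (h : ∀ j ∈ A, u j = v j) : One_S A u = One_S A v := by
  funext s
  unfold One_S
  exact Finset.sum_congr rfl fun j hj => by rw [h j hj]

theorem One_F (N : ℕ) : fF N = One_S (Finset.Ico N (2 * N)) (fun _ => 1) := by
  funext s; simp [fF, One_S]

theorem One_G (N : ℕ) : fG N = One_C (Finset.Ico N (2 * N)) (fun _ => 1) := by
  funext s; simp [fG, One_C]

theorem One_H (N : ℕ) : fH N = One_S (Finset.Ico (16 * N) (17 * N)) (fun j => 1 / (2 * Real.pi * j)) := by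
  funext s
  unfold fH One_S
  refine Finset.sum_congr rfl fun j _ => ?_
  ring

theorem One_dF (N : ℕ) : deriv (fF N) = One_C (Finset.Ico N (2 * N)) (fun j => 2 * Real.pi * j) := by
  rw [One_F, One_dS]
  exact One_C_congr _ _ _ fun j _ => by ring

theorem One_ddF (N : ℕ) : deriv (deriv (fF N)) =
    One_S (Finset.Ico N (2 * N)) (fun j => -((2 * Real.pi * j) ^ 2)) := by
  rw [One_dF, One_dC]
  exact One_S_congr _ _ _ fun j _ => by ring

theorem One_dG (N : ℕ) : deriv (fG N) = One_S (Finset.Ico N (2 * N)) (fun j => -(2 * Real.pi * j)) := by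
  rw [One_G, One_dC]
  exact One_S_congr _ _ _ fun j _ => by ring

theorem One_dH (N : ℕ) : deriv (fH N) = One_C (Finset.Ico (16 * N) (17 * N)) (fun _ => 1) := by
  rw [One_H, One_dS]
  refine One_C_congr _ _ _ fun j hj => ?_
  rw [Finset.mem_Ico] at hj
  have : (j : ℝ) ≠ 0 := by
    have : 1 ≤ j := by omega
    positivity
  have := Real.pi_pos.ne'
  field_simp

theorem One_ddH (N : ℕ) : deriv (deriv (fH N)) =
    One_S (Finset.Ico (16 * N) (17 * N)) (fun j => -(2 * Real.pi * j)) := by
  rw [One_dH, One_dC]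
  exact One_S_congr _ _ _ fun j _ => by ring

/-! ### Counting -/

theorem One_cnt1 (M L k : ℕ) (u : ℕ → ℝ) :
    ∑ a ∈ Finset.Ico M L, ∑ b ∈ Finset.Ico M L, u a * u b * (if a + k = b then 1 else 0) =
      ∑ a ∈ Finset.Ico M (L - k), u a * u (a + k) := by
  have h1 : ∀ a ∈ Finset.Ico M L, ∑ b ∈ Finset.Ico M L, u a * u b * (if a + k = b then (1 : ℝ) else 0) =
      if a + k < L then u a * u (a + k) else 0 := by
    intro a ha
    rw [Finset.mem_Ico] at ha
    split_ifs with h
    · rw [Finset.sum_eq_single_of_mem (a + k) (Finset.mem_Ico.2 ⟨by omega, h⟩)]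
      · rw [if_pos rfl, mul_one]
      · intro b _ hb
        rw [if_neg (fun h => hb h.symm), mul_zero]
    · refine Finset.sum_eq_zero fun b hb => ?_
      rw [Finset.mem_Ico] at hb
      rw [if_neg (by omega), mul_zero]
  rw [Finset.sum_congr rfl h1, ← Finset.sum_filter]
  refine Finset.sum_congr ?_ fun _ _ => rfl
  ext a
  simp only [Finset.mem_filter, Finset.mem_Ico]
  omega

theorem One_cnt2 (M L k : ℕ) (u : ℕ → ℝ) :
    ∑ a ∈ Finset.Ico M L, ∑ b ∈ Finset.Ico M L, u a * u b * (if b + k = a then 1 else 0) =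
      ∑ a ∈ Finset.Ico M (L - k), u a * u (a + k) := by
  rw [← One_cnt1, Finset.sum_comm]
  refine Finset.sum_congr rfl fun a _ => Finset.sum_congr rfl fun b _ => ?_
  rw [mul_comm (u b) (u a)]

theorem One_cnt3 (M L k : ℕ) (u : ℕ → ℝ) (hk : k < 2 * M) :
    ∑ a ∈ Finset.Ico M L, ∑ b ∈ Finset.Ico M L, u a * u b * (if a + b = k then (1 : ℝ) else 0) = 0 := by
  refine Finset.sum_eq_zero fun a ha => Finset.sum_eq_zero fun b hb => ?_
  rw [Finset.mem_Ico] at ha hb
  rw [if_neg (by omega), mul_zero]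

theorem One_pair (A : Finset ℕ) (u : ℕ → ℝ) (p q : ℕ) (hp : p ∈ A) (hq : q ∈ A) :
    ∑ a ∈ A, ∑ b ∈ A, u a * u b * (if a = p ∧ b = q then (1 : ℝ) else 0) = u p * u q := by
  rw [Finset.sum_eq_single_of_mem p hp]
  · rw [Finset.sum_eq_single_of_mem q hq]
    · simp
    · intro b _ hb
      rw [if_neg (fun h => hb h.2), mul_zero]
  · intro a _ ha
    refine Finset.sum_eq_zero fun b _ => ?_
    rw [if_neg (fun h => ha h.1), mul_zero]

theorem One_top (M L : ℕ) (u : ℕ → ℝ) (hM : M < L) :
    ∑ a ∈ Finset.Ico M L, ∑ b ∈ Finset.Ico M L, u a * u b * (if a + b = 2 * (L - 1) then (1 : ℝ) else 0) =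
      u (L - 1) * u (L - 1) := by
  rw [← One_pair (Finset.Ico M L) u (L - 1) (L - 1) (Finset.mem_Ico.2 (by omega)) (Finset.mem_Ico.2 (by omega))]
  refine Finset.sum_congr rfl fun a ha => Finset.sum_congr rfl fun b hb => ?_
  rw [Finset.mem_Ico] at ha hb
  have : a + b = 2 * (L - 1) ↔ a = L - 1 ∧ b = L - 1 := by omega
  simp only [this]

theorem One_top2 (M L : ℕ) (u : ℕ → ℝ) (hM : M + 1 < L) :
    ∑ a ∈ Finset.Ico M L, ∑ b ∈ Finset.Ico M L, u a * u b * (if a + b = 2 * L - 3 then (1 : ℝ) else 0) =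
      2 * (u (L - 1) * u (L - 2)) := by
  have h1 := One_pair (Finset.Ico M L) u (L - 1) (L - 2) (Finset.mem_Ico.2 (by omega)) (Finset.mem_Ico.2 (by omega))
  have h2 := One_pair (Finset.Ico M L) u (L - 2) (L - 1) (Finset.mem_Ico.2 (by omega)) (Finset.mem_Ico.2 (by omega))
  have h3 : 2 * (u (L - 1) * u (L - 2)) = u (L - 1) * u (L - 2) + u (L - 2) * u (L - 1) := by ring
  rw [h3, ← h1, ← h2, ← Finset.sum_add_distrib]
  refine Finset.sum_congr rfl fun a ha => ?_
  rw [← Finset.sum_add_distrib]
  refine Finset.sum_congr rfl fun b hb => ?_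
  rw [Finset.mem_Ico] at ha hb
  rw [← mul_add]
  congr 1
  by_cases c1 : a = L - 1 ∧ b = L - 2
  · have c3 : a + b = 2 * L - 3 := by omega
    have c4 : ¬ (a = L - 2 ∧ b = L - 1) := by omega
    rw [if_pos c1, if_neg c4, if_pos c3, add_zero]
  · by_cases c2 : a = L - 2 ∧ b = L - 1
    · have c3 : a + b = 2 * L - 3 := by omega
      rw [if_neg c1, if_pos c2, if_pos c3, zero_add]
    · have c3 : ¬ (a + b = 2 * L - 3) := by omega
      rw [if_neg c1, if_neg c2, if_neg c3, zero_add]

theorem One_S_gen (M L k : ℕ) (u : ℕ → ℝ) (hM : 1 ≤ M) :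
    i1 (fun s => One_S (Finset.Ico M L) u s ^ 2 * cs k s) =
      1 / 2 * ∑ a ∈ Finset.Ico M (L - k), u a * u (a + k) -
        1 / 4 * ∑ a ∈ Finset.Ico M L, ∑ b ∈ Finset.Ico M L, u a * u b * (if a + b = k then 1 else 0) := by
  rw [One_S_sq _ (fun a ha => hM.trans (Finset.mem_Ico.1 ha).1)]
  have e : ∀ a b : ℕ, u a * u b * (1 / 4 * ((if a + k = b then 1 else 0) + (if b + k = a then 1 else 0) -
      (if a + b = k then 1 else 0))) = 1 / 4 * (u a * u b * (if a + k = b then 1 else 0)) +
      1 / 4 * (u a * u b * (if b + k = a then 1 else 0)) -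
      1 / 4 * (u a * u b * (if a + b = k then 1 else 0)) := fun a b => by ring
  simp only [e, Finset.sum_sub_distrib, Finset.sum_add_distrib, ← Finset.mul_sum]
  rw [One_cnt1, One_cnt2]
  ring

theorem One_C_gen (M L k : ℕ) (u : ℕ → ℝ) (hM : 1 ≤ M) :
    i1 (fun s => One_C (Finset.Ico M L) u s ^ 2 * cs k s) =
      1 / 2 * ∑ a ∈ Finset.Ico M (L - k), u a * u (a + k) +
        1 / 4 * ∑ a ∈ Finset.Ico M L, ∑ b ∈ Finset.Ico M L, u a * u b * (if a + b = k then 1 else 0) := by
  rw [One_C_sq _ (fun a ha => hM.trans (Finset.mem_Ico.1 ha).1)]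
  have e : ∀ a b : ℕ, u a * u b * (1 / 4 * ((if a + k = b then 1 else 0) + (if b + k = a then 1 else 0) +
      (if a + b = k then 1 else 0))) = 1 / 4 * (u a * u b * (if a + k = b then 1 else 0)) +
      1 / 4 * (u a * u b * (if b + k = a then 1 else 0)) +
      1 / 4 * (u a * u b * (if a + b = k then 1 else 0)) := fun a b => by ring
  simp only [e, Finset.sum_add_distrib, ← Finset.mul_sum]
  rw [One_cnt1, One_cnt2]
  ring

theorem One_S_low (M L k : ℕ) (u : ℕ → ℝ) (hM : 1 ≤ M) (hk : k < 2 * M) :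
    i1 (fun s => One_S (Finset.Ico M L) u s ^ 2 * cs k s) =
      1 / 2 * ∑ a ∈ Finset.Ico M (L - k), u a * u (a + k) := by
  rw [One_S_gen M L k u hM, One_cnt3 M L k u hk]; ring

theorem One_C_low (M L k : ℕ) (u : ℕ → ℝ) (hM : 1 ≤ M) (hk : k < 2 * M) :
    i1 (fun s => One_C (Finset.Ico M L) u s ^ 2 * cs k s) =
      1 / 2 * ∑ a ∈ Finset.Ico M (L - k), u a * u (a + k) := by
  rw [One_C_gen M L k u hM, One_cnt3 M L k u hk]; ring

theorem One_S_nrm (M L : ℕ) (u : ℕ → ℝ) (hM : 1 ≤ M) :
    i1 (fun s => One_S (Finset.Ico M L) u s ^ 2) = 1 / 2 * ∑ a ∈ Finset.Ico M L, u a ^ 2 := by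
  have h := One_S_low M L 0 u hM (by omega)
  simp only [One_cs_zero, mul_one, add_zero, Nat.sub_zero] at h
  rw [h]
  congr 1
  exact Finset.sum_congr rfl fun a _ => (sq (u a)).symm

theorem One_C_nrm (M L : ℕ) (u : ℕ → ℝ) (hM : 1 ≤ M) :
    i1 (fun s => One_C (Finset.Ico M L) u s ^ 2) = 1 / 2 * ∑ a ∈ Finset.Ico M L, u a ^ 2 := by
  have h := One_C_low M L 0 u hM (by omega)
  simp only [One_cs_zero, mul_one, add_zero, Nat.sub_zero] at h
  rw [h]
  congr 1
  exact Finset.sum_congr rfl fun a _ => (sq (u a)).symm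

theorem One_S_high (M L k : ℕ) (u : ℕ → ℝ) (hM : 1 ≤ M) (hk : L ≤ M + k) :
    i1 (fun s => One_S (Finset.Ico M L) u s ^ 2 * cs k s) =
      -(1 / 4 * ∑ a ∈ Finset.Ico M L, ∑ b ∈ Finset.Ico M L, u a * u b * (if a + b = k then 1 else 0)) := by
  rw [One_S_gen M L k u hM, Finset.Ico_eq_empty (by omega : ¬ M < L - k), Finset.sum_empty]; ring

theorem One_C_high (M L k : ℕ) (u : ℕ → ℝ) (hM : 1 ≤ M) (hk : L ≤ M + k) :
    i1 (fun s => One_C (Finset.Ico M L) u s ^ 2 * cs k s) =
      1 / 4 * ∑ a ∈ Finset.Ico M L, ∑ b ∈ Finset.Ico M L, u a * u b * (if a + b = k then 1 else 0) := by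
  rw [One_C_gen M L k u hM, Finset.Ico_eq_empty (by omega : ¬ M < L - k), Finset.sum_empty]; ring

/-- bounds of sums -/
theorem One_le (M L : ℕ) (f : ℕ → ℝ) (c : ℝ) (hf : ∀ a ∈ Finset.Ico M L, f a ≤ c) :
    ∑ a ∈ Finset.Ico M L, f a ≤ ((L - M : ℕ) : ℝ) * c := by
  have := Finset.sum_le_card_nsmul (Finset.Ico M L) f c hf
  rwa [Nat.card_Ico, nsmul_eq_mul] at this

theorem One_ge (M L : ℕ) (f : ℕ → ℝ) (c : ℝ) (hf : ∀ a ∈ Finset.Ico M L, c ≤ f a) :
    ((L - M : ℕ) : ℝ) * c ≤ ∑ a ∈ Finset.Ico M L, f a := by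
  have := Finset.card_nsmul_le_sum (Finset.Ico M L) f c hf
  rwa [Nat.card_Ico, nsmul_eq_mul] at this

/-! ### Smoothness -/

theorem One_p1_sn (k : ℕ) : P1 (sn k) where
  smooth := by
    unfold sn
    exact Real.contDiff_sin.comp (contDiff_const.mul contDiff_id)
  per := by
    intro s
    unfold sn
    have : 2 * Real.pi * (k : ℝ) * (s + 1) = 2 * Real.pi * k * s + k * (2 * Real.pi) := by ring
    rw [this, Real.sin_add_nat_mul_two_pi]

theorem One_p1_cs (k : ℕ) : P1 (cs k) where
  smooth := by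
    unfold cs
    exact Real.contDiff_cos.comp (contDiff_const.mul contDiff_id)
  per := by
    intro s
    unfold cs
    have : 2 * Real.pi * (k : ℝ) * (s + 1) = 2 * Real.pi * k * s + k * (2 * Real.pi) := by ring
    rw [this, Real.cos_add_nat_mul_two_pi]

theorem One_p1_S (A : Finset ℕ) (u : ℕ → ℝ) : P1 (One_S A u) where
  smooth := by
    unfold One_S
    exact ContDiff.sum fun j _ => contDiff_const.mul (One_p1_sn j).smooth
  per := by
    intro s
    unfold One_S
    exact Finset.sum_congr rfl fun j _ => by rw [(One_p1_sn j).per]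

theorem One_p1_C (A : Finset ℕ) (u : ℕ → ℝ) : P1 (One_C A u) where
  smooth := by
    unfold One_C
    exact ContDiff.sum fun j _ => contDiff_const.mul (One_p1_cs j).smooth
  per := by
    intro s
    unfold One_C
    exact Finset.sum_congr rfl fun j _ => by rw [(One_p1_cs j).per]

theorem One_by_parts {f : ℝ → ℝ} (hf : P1 f) (k : ℕ) :
    i1 (fun s => f s * deriv f s * sn k s) = -(Real.pi * k) * i1 (fun s => f s ^ 2 * cs k s) := by
  have hd : Differentiable ℝ f := hf.smooth.differentiable (by simp)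
  have hc : Continuous (deriv f) := hf.smooth.continuous_deriv (by simp)
  have hfc : Continuous f := hd.continuous
  have h1 : ∀ x ∈ uIcc (0 : ℝ) 1, HasDerivAt (sn k) (2 * Real.pi * k * cs k x) x := fun x _ => One_sn_der k x
  have h2 : ∀ x ∈ uIcc (0 : ℝ) 1, HasDerivAt (fun s => f s ^ 2 / 2) (f x * deriv f x) x := by
    intro x _
    have := ((hd x).hasDerivAt.pow 2).div_const 2
    have e : f x * deriv f x = ((2 : ℕ) : ℝ) * f x ^ (2 - 1) * deriv f x / 2 := by push_cast; ring
    rw [e]
    exact this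
  have h3 := intervalIntegral.integral_mul_deriv_eq_deriv_mul h1 h2
    ((continuous_const.mul (One_cs_cont k)).intervalIntegrable _ _) ((hfc.mul hc).intervalIntegrable _ _)
  have e1 : sn k 1 = 0 := by
    have := (One_p1_sn k).per 0
    rw [zero_add] at this
    rw [this]; simp [sn]
  have e0 : sn k 0 = 0 := by simp [sn]
  rw [e1, e0, zero_mul, zero_mul, sub_zero, zero_sub] at h3
  have e3 : i1 (fun s => f s * deriv f s * sn k s) = ∫ x in (0 : ℝ)..1, sn k x * (f x * deriv f x) := by
    unfold i1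
    congr 1
    funext x
    ring
  rw [e3, h3, ← One_i1_smul]
  unfold i1
  rw [← intervalIntegral.integral_neg]
  congr 1
  funext x
  ring

theorem One_card1 (N k : ℕ) (hk : k ≤ N) : ((2 * N - k - N : ℕ) : ℝ) = N - k := by
  have : 2 * N - k - N = N - k := by omega
  rw [this, Nat.cast_sub hk]

theorem One_card2 (N k : ℕ) (hk : k ≤ N) : ((17 * N - k - 16 * N : ℕ) : ℝ) = N - k := by
  have : 17 * N - k - 16 * N = N - k := by omega
  rw [this, Nat.cast_sub hk]

theorem s_one : S_one where
  p1_sn := One_p1_sn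
  p1_cs := One_p1_cs
  p1_F := fun N => by rw [One_F]; exact One_p1_S _ _
  p1_G := fun N => by rw [One_G]; exact One_p1_C _ _
  p1_H := fun N => by rw [One_H]; exact One_p1_S _ _
  dF := fun N s => by rw [One_dF]; rfl
  dH := fun N s => by rw [One_dH]; simp [One_C]
  F2 := fun N k hk hkN => by
    rw [One_F, One_S_low _ _ _ _ (hk.trans hkN) (by omega)]
    simp only [mul_one, Finset.sum_const, Nat.card_Ico, nsmul_eq_mul]
    rw [One_card1 N k hkN]; ring
  G2 := fun N k hk hkN => by
    rw [One_G, One_C_low _ _ _ _ (hk.trans hkN) (by omega)]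
    simp only [mul_one, Finset.sum_const, Nat.card_Ico, nsmul_eq_mul]
    rw [One_card1 N k hkN]; ring
  dH2 := fun N k hk hkN => by
    rw [One_dH, One_C_low _ _ _ _ (by omega) (by omega)]
    simp only [mul_one, Finset.sum_const, Nat.card_Ico, nsmul_eq_mul]
    rw [One_card2 N k hkN]; ring
  dF2 := fun N k hk hkN => by
    rw [One_dF, One_C_low _ _ _ _ (hk.trans hkN) (by omega)]
    have hp := Real.pi_pos
    constructor
    · refine mul_nonneg (by norm_num) (Finset.sum_nonneg fun a _ => by positivity)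
    · have h1 := One_le N (2 * N - k) (fun a => 2 * Real.pi * (a : ℝ) * (2 * Real.pi * ((a + k : ℕ) : ℝ)))
        ((2 * Real.pi * (2 * N)) ^ 2) (by
          intro a ha
          rw [Finset.mem_Ico] at ha
          have q1 : (a : ℝ) ≤ 2 * N := by
            have : a ≤ 2 * N := by omega
            exact_mod_cast this
          have q2 : ((a + k : ℕ) : ℝ) ≤ 2 * N := by
            have : a + k ≤ 2 * N := by omega
            exact_mod_cast this
          rw [sq]
          exact mul_le_mul (mul_le_mul_of_nonneg_left q1 (by positivity))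
            (mul_le_mul_of_nonneg_left q2 (by positivity)) (by positivity) (by positivity))
      rw [One_card1 N k hkN] at h1
      linarith
  H2 := fun N k hk hkN => by
    rw [One_H, One_S_low _ _ _ _ (by omega) (by omega)]
    have hp := Real.pi_pos
    constructor
    · refine mul_nonneg (by norm_num) (Finset.sum_nonneg fun a _ => by positivity)
    · have h1 := One_le (16 * N) (17 * N - k) (fun a => 1 / (2 * Real.pi * (a : ℝ)) * (1 / (2 * Real.pi * ((a + k : ℕ) : ℝ))))
        (1 / (2 * Real.pi * (16 * N)) ^ 2) (by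
          intro a ha
          rw [Finset.mem_Ico] at ha
          have hN : (0 : ℝ) < N := by
            have : 0 < N := by omega
            exact_mod_cast this
          have q1 : (16 : ℝ) * N ≤ a := by
            have : 16 * N ≤ a := by omega
            exact_mod_cast this
          have q2 : (16 : ℝ) * N ≤ ((a + k : ℕ) : ℝ) := by
            have : 16 * N ≤ a + k := by omega
            exact_mod_cast this
          rw [sq, one_div_mul_one_div]
          refine one_div_le_one_div_of_le (by positivity) ?_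
          exact mul_le_mul (mul_le_mul_of_nonneg_left q1 (by positivity))
            (mul_le_mul_of_nonneg_left q2 (by positivity)) (by positivity) (by positivity))
      rw [One_card2 N k hkN] at h1
      have e : (((N : ℝ) - k) / 2) / (2 * Real.pi * (16 * N)) ^ 2 =
        1 / 2 * (((N : ℝ) - k) * (1 / (2 * Real.pi * (16 * N)) ^ 2)) := by ring
      rw [e]
      exact mul_le_mul_of_nonneg_left h1 (by norm_num)
  by_parts := fun hf k => One_by_parts hf k
  nF := fun N hN => by
    rw [One_F, One_S_nrm _ _ _ hN]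
    have := One_card1 N 0 (Nat.zero_le _)
    simp only [Nat.sub_zero, Nat.cast_zero, sub_zero] at this
    simp only [one_pow, Finset.sum_const, Nat.card_Ico, nsmul_eq_mul, mul_one]
    rw [this]; ring
  nG := fun N hN => by
    rw [One_G, One_C_nrm _ _ _ hN]
    have := One_card1 N 0 (Nat.zero_le _)
    simp only [Nat.sub_zero, Nat.cast_zero, sub_zero] at this
    simp only [one_pow, Finset.sum_const, Nat.card_Ico, nsmul_eq_mul, mul_one]
    rw [this]; ring
  ndH := fun N hN => by
    rw [One_dH, One_C_nrm _ _ _ (by omega)]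
    have := One_card2 N 0 (Nat.zero_le _)
    simp only [Nat.sub_zero, Nat.cast_zero, sub_zero] at this
    simp only [one_pow, Finset.sum_const, Nat.card_Ico, nsmul_eq_mul, mul_one]
    rw [this]; ring
  ndF := fun N hN => by
    rw [One_dF, One_C_nrm _ _ _ hN]
    have hp := Real.pi_pos
    have h1 := One_le N (2 * N) (fun a => (2 * Real.pi * (a : ℝ)) ^ 2)
      ((2 * Real.pi * (2 * N)) ^ 2) (by
        intro a ha
        rw [Finset.mem_Ico] at ha
        have q1 : (a : ℝ) ≤ 2 * N := by
          have : a ≤ 2 * N := by omega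
          exact_mod_cast this
        exact pow_le_pow_left₀ (by positivity) (mul_le_mul_of_nonneg_left q1 (by positivity)) 2)
    have := One_card1 N 0 (Nat.zero_le _)
    simp only [Nat.sub_zero, Nat.cast_zero, sub_zero] at this
    rw [this] at h1
    linarith
  ndG := fun N hN => by
    rw [One_dG, One_S_nrm _ _ _ hN]
    have hp := Real.pi_pos
    have h1 := One_le N (2 * N) (fun a => (-(2 * Real.pi * (a : ℝ))) ^ 2)
      ((2 * Real.pi * (2 * N)) ^ 2) (by
        intro a ha
        rw [Finset.mem_Ico] at ha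
        have q1 : (a : ℝ) ≤ 2 * N := by
          have : a ≤ 2 * N := by omega
          exact_mod_cast this
        simp only [neg_sq]
        exact pow_le_pow_left₀ (by positivity) (mul_le_mul_of_nonneg_left q1 (by positivity)) 2)
    have := One_card1 N 0 (Nat.zero_le _)
    simp only [Nat.sub_zero, Nat.cast_zero, sub_zero] at this
    rw [this] at h1
    linarith
  nddF := fun N hN => by
    rw [One_ddF, One_S_nrm _ _ _ hN]
    have hp := Real.pi_pos
    have h1 := One_le N (2 * N) (fun a => (-((2 * Real.pi * (a : ℝ)) ^ 2)) ^ 2)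
      ((2 * Real.pi * (2 * N)) ^ 4) (by
        intro a ha
        rw [Finset.mem_Ico] at ha
        have q1 : (a : ℝ) ≤ 2 * N := by
          have : a ≤ 2 * N := by omega
          exact_mod_cast this
        simp only [neg_sq, ← pow_mul]
        exact pow_le_pow_left₀ (by positivity) (mul_le_mul_of_nonneg_left q1 (by positivity)) 4)
    have := One_card1 N 0 (Nat.zero_le _)
    simp only [Nat.sub_zero, Nat.cast_zero, sub_zero] at this
    rw [this] at h1
    linarith
  nH := fun N hN => by
    rw [One_H, One_S_nrm _ _ _ (by omega)]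
    have hp := Real.pi_pos
    have hN0 : (0 : ℝ) < N := by exact_mod_cast hN
    have h1 := One_le (16 * N) (17 * N) (fun a => (1 / (2 * Real.pi * (a : ℝ))) ^ 2)
      (1 / (2 * Real.pi * (16 * N)) ^ 2) (by
        intro a ha
        rw [Finset.mem_Ico] at ha
        have q1 : (16 : ℝ) * N ≤ a := by
          have : 16 * N ≤ a := by omega
          exact_mod_cast this
        simp only [div_pow, one_pow]
        refine one_div_le_one_div_of_le (by positivity) ?_
        exact pow_le_pow_left₀ (by positivity) (mul_le_mul_of_nonneg_left q1 (by positivity)) 2)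
    have := One_card2 N 0 (Nat.zero_le _)
    simp only [Nat.sub_zero, Nat.cast_zero, sub_zero] at this
    rw [this] at h1
    have e : ((N : ℝ) / 2) / (2 * Real.pi * (16 * N)) ^ 2 =
      1 / 2 * ((N : ℝ) * (1 / (2 * Real.pi * (16 * N)) ^ 2)) := by ring
    rw [e]
    exact mul_le_mul_of_nonneg_left h1 (by norm_num)
  nddH := fun N hN => by
    rw [One_ddH, One_S_nrm _ _ _ (by omega)]
    have hp := Real.pi_pos
    have := One_card2 N 0 (Nat.zero_le _)
    simp only [Nat.sub_zero, Nat.cast_zero, sub_zero] at this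
    constructor
    · have h1 := One_ge (16 * N) (17 * N) (fun a => (-(2 * Real.pi * (a : ℝ))) ^ 2)
        ((2 * Real.pi * (16 * N)) ^ 2) (by
          intro a ha
          rw [Finset.mem_Ico] at ha
          have q1 : (16 : ℝ) * N ≤ a := by
            have : 16 * N ≤ a := by omega
            exact_mod_cast this
          simp only [neg_sq]
          exact pow_le_pow_left₀ (by positivity) (mul_le_mul_of_nonneg_left q1 (by positivity)) 2)
      rw [this] at h1
      linarith
    · have h1 := One_le (16 * N) (17 * N) (fun a => (-(2 * Real.pi * (a : ℝ))) ^ 2)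
        ((2 * Real.pi * (17 * N)) ^ 2) (by
          intro a ha
          rw [Finset.mem_Ico] at ha
          have q1 : (a : ℝ) ≤ 17 * N := by
            have : a ≤ 17 * N := by omega
            exact_mod_cast this
          simp only [neg_sq]
          exact pow_le_pow_left₀ (by positivity) (mul_le_mul_of_nonneg_left q1 (by positivity)) 2)
      rw [this] at h1
      linarith
  pF := fun N hN => by
    have e : 4 * N - 3 = 2 * (2 * N) - 3 := by omega
    rw [One_F, One_S_high _ _ _ _ (by omega) (by omega), e, One_top2 _ _ _ (by omega)]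
    norm_num
  pdF := fun N hN => by
    have e : 4 * N - 3 = 2 * (2 * N) - 3 := by omega
    rw [One_dF, One_C_high _ _ _ _ (by omega) (by omega), e, One_top2 _ _ _ (by omega)]
    have e1 : ((2 * N - 1 : ℕ) : ℝ) = 2 * N - 1 := by
      rw [Nat.cast_sub (by omega)]; push_cast; ring
    have e2 : ((2 * N - 2 : ℕ) : ℝ) = 2 * N - 2 := by
      rw [Nat.cast_sub (by omega)]; push_cast; ring
    rw [e1, e2]
    ring
  pG := fun N hN => by
    have e : 4 * N - 2 = 2 * (2 * N - 1) := by omega
    rw [One_G, One_C_high _ _ _ _ (by omega) (by omega), e, One_top _ _ _ (by omega)]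
    norm_num
  pdH := fun N hN => by
    rw [One_dH, One_C_high _ _ _ _ (by omega) (by omega), One_top _ _ _ (by omega)]
    norm_num
  pH := fun N hN => by
    rw [One_H, One_S_high _ _ _ _ (by omega) (by omega), One_top _ _ _ (by omega)]
    have e1 : ((17 * N - 1 : ℕ) : ℝ) = 17 * N - 1 := by
      rw [Nat.cast_sub (by omega)]; push_cast; ring
    rw [e1]
    have h2 : (0 : ℝ) < 17 * N - 1 := by
      have : (2 : ℝ) ≤ N := by exact_mod_cast hN
      linarith
    have hp := Real.pi_pos
    field_simp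

end Pool.Agent.H226.GB
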