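import Pool.Agent.H226.GB.Spec3

/-!
# GB13 Plan (helper183): the perturbed planar amplifier `x' = - c y²`, `y' = c x y`
-/

set_option autoImplicit false

open Set Real

namespace Pool.Agent.H226.GB

lemma plan_mono {a b : ℝ} {f f' : ℝ → ℝ} (hc : ContinuousOn f (Icc a b))
    (hd : ∀ t ∈ Ioo a b, HasDerivAt f (f' t) t) (h : ∀ t ∈ Ioo a b, 0 ≤ f' t) {u v : ℝ}
    (hu : u ∈ Icc a b) (hv : v ∈ Icc a b) (huv : u ≤ v) : f u ≤ f v := by
  refine monotoneOn_of_deriv_nonneg (convex_Icc a b) hc ?_ ?_ hu hv huv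
  · rw [interior_Icc]
    exact fun t ht => (hd t ht).differentiableAt.differentiableWithinAt
  · rw [interior_Icc]
    intro t ht
    rw [(hd t ht).deriv]
    exact h t ht

section
variable {x y x' y' I : ℝ → ℝ} {c lam P α D X t0 s : ℝ}

lemma plan_Xpos (h : PlanHyp x y x' y' I c lam P α D X t0 s) : 0 < X := h.α0.trans_le h.αX

/-- a linear function of the time is small -/
lemma plan_time (h : PlanHyp x y x' y' I c lam P α D X t0 s) {k : ℝ} (_ : 0 ≤ k) (hk : k ≤ 4)
    {u v : ℝ} (hu : u ∈ Icc t0 s) (hv : v ∈ Icc t0 s) (huv : u ≤ v) :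
    k * lam * (v - u) ≤ 1 / 2 ^ 31 := by
  have h1 : v - u ≤ D := by
    have := h.sD
    have := hu.1
    have := hv.2
    linarith
  have h2 : 0 ≤ v - u := by linarith
  have h3 : 0 < lam := by linarith [h.lam1]
  refine le_trans ?_ h.lamD
  have h4 : k * lam ≤ 4 * lam := mul_le_mul_of_nonneg_right hk h3.le
  exact mul_le_mul h4 h1 h2 (by positivity)

/-- the derivative of `N` -/
lemma plan_dN (h : PlanHyp x y x' y' I c lam P α D X t0 s) {t : ℝ} (ht : t ∈ Ioo t0 s) :
    |2 * x t * x' t + 2 * y t * y' t| ≤ 4 * lam * (x t ^ 2 + y t ^ 2 + α ^ 2) := by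
  have ht' := Ioo_subset_Icc_self ht
  have h1 := h.hx t ht
  have h2 := h.hy1 t ht
  have h3 := h.hy2 t ht
  have hx0 := h.xn t ht'
  have hy0 := h.yn t ht'
  have hl : 0 < lam := by linarith [h.lam1]
  have hP := h.P0
  have hPα := h.Pα
  have hα := h.α0
  have e : 2 * x t * x' t + 2 * y t * y' t =
      2 * x t * (x' t + c * y t ^ 2) + 2 * y t * (y' t - c * x t * y t) := by ring
  have h4 : |y' t - c * x t * y t| ≤ lam * y t + P := by
    rw [abs_le]
    constructor <;> linarith
  have h5 : |2 * x t * (x' t + c * y t ^ 2)| ≤ 2 * x t * (lam * (x t + y t) + P) := by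
    rw [abs_mul, abs_of_nonneg (by positivity : (0 : ℝ) ≤ 2 * x t)]
    exact mul_le_mul_of_nonneg_left h1 (by positivity)
  have h6 : |2 * y t * (y' t - c * x t * y t)| ≤ 2 * y t * (lam * y t + P) := by
    rw [abs_mul, abs_of_nonneg (by positivity : (0 : ℝ) ≤ 2 * y t)]
    exact mul_le_mul_of_nonneg_left h4 (by positivity)
  rw [e]
  refine (abs_add_le _ _).trans ((add_le_add h5 h6).trans ?_)
  have h7 : 2 * P * (x t + y t) ≤ α * lam * (x t + y t) :=
    mul_le_mul_of_nonneg_right (by linarith) (by linarith)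
  have h8 : α * (x t + y t) ≤ x t ^ 2 + y t ^ 2 + α ^ 2 / 2 := by
    nlinarith [sq_nonneg (2 * x t - α), sq_nonneg (2 * y t - α)]
  have h9 : α * lam * (x t + y t) ≤ lam * (x t ^ 2 + y t ^ 2 + α ^ 2 / 2) := by
    calc α * lam * (x t + y t) = lam * (α * (x t + y t)) := by ring
      _ ≤ _ := mul_le_mul_of_nonneg_left h8 hl.le
  have h10 : lam * (2 * (x t * y t)) ≤ lam * (x t ^ 2 + y t ^ 2) :=
    mul_le_mul_of_nonneg_left (by nlinarith [sq_nonneg (x t - y t)]) hl.le
  have h11 : 0 ≤ lam * α ^ 2 := by positivity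
  nlinarith

/-- the function `N + α²` changes little -/
lemma plan_M (h : PlanHyp x y x' y' I c lam P α D X t0 s) {t : ℝ} (ht : t ∈ Icc t0 s) :
    (1 - 1 / 2 ^ 31) * (x t ^ 2 + y t ^ 2 + α ^ 2) ≤ x t0 ^ 2 + y t0 ^ 2 + α ^ 2 ∧
    (1 - 1 / 2 ^ 31) * (x t0 ^ 2 + y t0 ^ 2 + α ^ 2) ≤ x t ^ 2 + y t ^ 2 + α ^ 2 := by
  have ht0 : t0 ∈ Icc t0 s := ⟨le_refl _, h.ts⟩
  have hl : 0 < lam := by linarith [h.lam1]
  have hcx := h.cx
  have hcy := h.cy
  have htime := plan_time h (k := 4) (by norm_num) le_rfl ht0 ht ht.1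
  have hexp : 1 - 1 / 2 ^ 31 ≤ Real.exp (-(4 * lam * (t - t0))) := by
    have := Real.add_one_le_exp (-(4 * lam * (t - t0)))
    linarith
  have hdN : ∀ r ∈ Ioo t0 s, HasDerivAt (fun r => x r ^ 2 + y r ^ 2 + α ^ 2)
      (2 * x r * x' r + 2 * y r * y' r) r := by
    intro r hr
    have h1 := (((h.dx r hr).pow 2).add ((h.dy r hr).pow 2)).add_const (α ^ 2)
    refine h1.congr_deriv ?_
    norm_num
  have hdl : ∀ (k r : ℝ), HasDerivAt (fun r => Real.exp (k * (r - t0)))
      (Real.exp (k * (r - t0)) * k) r := by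
    intro k r
    have h1 : HasDerivAt (fun r => k * (r - t0)) k r := by
      have := ((hasDerivAt_id r).sub_const t0).const_mul k
      simpa using this
    exact h1.exp
  constructor
  · have hm := plan_mono (a := t0) (b := s)
      (f := fun r => -((x r ^ 2 + y r ^ 2 + α ^ 2) * Real.exp (-(4 * lam) * (r - t0))))
      (f' := fun r => -((2 * x r * x' r + 2 * y r * y' r) * Real.exp (-(4 * lam) * (r - t0)) +
        (x r ^ 2 + y r ^ 2 + α ^ 2) * (Real.exp (-(4 * lam) * (r - t0)) * (-(4 * lam)))))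
      (by fun_prop) (fun r hr => ((hdN r hr).mul (hdl _ r)).neg) (by
        intro r hr
        have h1 := (abs_le.1 (plan_dN h hr)).2
        have h2 := Real.exp_pos (-(4 * lam) * (r - t0))
        have e : -((2 * x r * x' r + 2 * y r * y' r) * Real.exp (-(4 * lam) * (r - t0)) +
            (x r ^ 2 + y r ^ 2 + α ^ 2) * (Real.exp (-(4 * lam) * (r - t0)) * (-(4 * lam)))) =
            Real.exp (-(4 * lam) * (r - t0)) * (4 * lam * (x r ^ 2 + y r ^ 2 + α ^ 2) -
              (2 * x r * x' r + 2 * y r * y' r)) := by ring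
        rw [e]
        exact mul_nonneg h2.le (by linarith)) ht0 ht ht.1
    simp only [sub_self, mul_zero, Real.exp_zero, mul_one] at hm
    have e2 : -(4 * lam) * (t - t0) = -(4 * lam * (t - t0)) := by ring
    rw [e2] at hm
    have h3 : 0 ≤ x t ^ 2 + y t ^ 2 + α ^ 2 := by positivity
    have h4 := mul_le_mul_of_nonneg_left hexp h3
    linarith
  · have hm := plan_mono (a := t0) (b := s)
      (f := fun r => (x r ^ 2 + y r ^ 2 + α ^ 2) * Real.exp ((4 * lam) * (r - t0)))
      (f' := fun r => (2 * x r * x' r + 2 * y r * y' r) * Real.exp ((4 * lam) * (r - t0)) +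
        (x r ^ 2 + y r ^ 2 + α ^ 2) * (Real.exp ((4 * lam) * (r - t0)) * (4 * lam)))
      (by fun_prop) (fun r hr => (hdN r hr).mul (hdl _ r)) (by
        intro r hr
        have h1 := (abs_le.1 (plan_dN h hr)).1
        have h2 := Real.exp_pos ((4 * lam) * (r - t0))
        have e : (2 * x r * x' r + 2 * y r * y' r) * Real.exp ((4 * lam) * (r - t0)) +
            (x r ^ 2 + y r ^ 2 + α ^ 2) * (Real.exp ((4 * lam) * (r - t0)) * (4 * lam)) =
            Real.exp ((4 * lam) * (r - t0)) * (4 * lam * (x r ^ 2 + y r ^ 2 + α ^ 2) +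
              (2 * x r * x' r + 2 * y r * y' r)) := by ring
        rw [e]
        exact mul_nonneg h2.le (by linarith)) ht0 ht ht.1
    simp only [sub_self, mul_zero, Real.exp_zero, mul_one] at hm
    have h3 : 0 ≤ x t0 ^ 2 + y t0 ^ 2 + α ^ 2 := by positivity
    have h4 := mul_le_mul_of_nonneg_right hexp h3
    have h5 := mul_le_mul_of_nonneg_right hm (Real.exp_pos (-(4 * lam * (t - t0)))).le
    have e2 : (x t ^ 2 + y t ^ 2 + α ^ 2) * Real.exp (4 * lam * (t - t0)) *
        Real.exp (-(4 * lam * (t - t0))) = x t ^ 2 + y t ^ 2 + α ^ 2 := by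
      rw [mul_assoc, ← Real.exp_add]
      simp
    rw [e2] at h5
    linarith

/-- the bounds of `N` -/
lemma plan_N (h : PlanHyp x y x' y' I c lam P α D X t0 s) {t : ℝ} (ht : t ∈ Icc t0 s) :
    X ^ 2 * (1 - 2 / 2 ^ 31) ≤ x t ^ 2 + y t ^ 2 ∧ x t ^ 2 + y t ^ 2 ≤ X ^ 2 * (1 + 6 / 2 ^ 31) := by
  obtain ⟨h1, h2⟩ := plan_M h ht
  have hX := plan_Xpos h
  have hα := h.α0
  have h3 := h.y0
  have h4 : α ^ 2 ≤ X ^ 2 := pow_le_pow_left₀ hα.le h.αX 2
  have h5 : 0 ≤ y t0 ^ 2 := sq_nonneg _
  rw [h.x0] at h1 h2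
  constructor
  · linarith
  · have h6 : (1 - 1 / 2 ^ 31) * (x t ^ 2 + y t ^ 2) ≤
        (1 - 1 / 2 ^ 31) * (X ^ 2 * (1 + 6 / 2 ^ 31)) := by
      linarith
    exact le_of_mul_le_mul_left h6 (by norm_num)

/-- simple consequences -/
lemma plan_bd (h : PlanHyp x y x' y' I c lam P α D X t0 s) {t : ℝ} (ht : t ∈ Icc t0 s) :
    x t ≤ 101 / 100 * X ∧ y t ≤ 101 / 100 * X ∧ 9 / 10 * X ≤ x t + y t ∧
      x t + y t ≤ 3 / 2 * X ∧ x t + 2 * y t ≤ 5 / 2 * X := by
  obtain ⟨h1, h2⟩ := plan_N h ht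
  have hX := plan_Xpos h
  have hx0 := h.xn t ht
  have hy0 := h.yn t ht
  have hXX : 0 < X ^ 2 := by positivity
  refine ⟨?_, ?_, ?_, ?_, ?_⟩
  · exact abs_le_of_sq_le_sq' (by nlinarith) (by positivity) |>.2
  · exact abs_le_of_sq_le_sq' (by nlinarith) (by positivity) |>.2
  · exact abs_le_of_sq_le_sq' (by nlinarith [mul_nonneg hx0 hy0]) (by positivity) |>.2
  · exact abs_le_of_sq_le_sq' (by nlinarith [sq_nonneg (x t - y t)]) (by positivity) |>.2
  · exact abs_le_of_sq_le_sq' (by nlinarith [sq_nonneg (2 * x t - y t)]) (by positivity) |>.2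

/-- the estimate for `y - x` -/
lemma plan_yx (h : PlanHyp x y x' y' I c lam P α D X t0 s) :
    9 / 10 * X * (c * (I s - I t0)) - X / 2 ^ 31 ≤ (y s - x s) - (y t0 - x t0) := by
  have hX := plan_Xpos h
  have hl : 0 < lam := by linarith [h.lam1]
  have ht0 : t0 ∈ Icc t0 s := ⟨le_refl _, h.ts⟩
  have hts : s ∈ Icc t0 s := ⟨h.ts, le_refl _⟩
  have hcx := h.cx
  have hcy := h.cy
  have hcI := h.cI
  have hc0 := h.c0
  have hm := plan_mono (a := t0) (b := s)
    (f := fun r => (y r - x r) - 9 / 10 * X * c * I r + 3 * lam * X * r)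
    (f' := fun r => (y' r - x' r) - 9 / 10 * X * c * y r + 3 * lam * X)
    (by fun_prop) (fun r hr => by
      have h1 := (((h.dy r hr).sub (h.dx r hr)).sub ((h.dI r hr).const_mul (9 / 10 * X * c))).add
        ((hasDerivAt_id r).const_mul (3 * lam * X))
      exact h1.congr_deriv (by rw [mul_one])) (by
      intro r hr
      have hr' := Ioo_subset_Icc_self hr
      obtain ⟨b1, b2, b3, b4, b5⟩ := plan_bd h hr'
      have h1 := (abs_le.1 (h.hx r hr)).2
      have h2 := h.hy1 r hr
      have hy0 := h.yn r hr'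
      have h3 : c * y r * (9 / 10 * X) ≤ c * y r * (x r + y r) :=
        mul_le_mul_of_nonneg_left b3 (by positivity)
      have h4 : lam * (x r + 2 * y r) ≤ lam * (5 / 2 * X) := mul_le_mul_of_nonneg_left b5 hl.le
      have h5 : P ≤ lam * X / 2 := by
        refine h.Pα.trans ?_
        have := mul_le_mul_of_nonneg_right h.αX hl.le
        linarith
      nlinarith) ht0 hts h.ts
  have htime := plan_time h (k := 3) (by norm_num) (by norm_num) ht0 hts h.ts
  have h6 : 3 * lam * (s - t0) * X ≤ 1 / 2 ^ 31 * X := mul_le_mul_of_nonneg_right htime hX.le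
  linarith

/-- positivity of `y` -/
lemma plan_ypos (h : PlanHyp x y x' y' I c lam P α D X t0 s) {t : ℝ} (ht : t ∈ Icc t0 s) :
    0 < y t := by
  have ht0 : t0 ∈ Icc t0 s := ⟨le_refl _, h.ts⟩
  have hcy := h.cy
  have hm := plan_mono (a := t0) (b := s) (f := fun r => y r * Real.exp (lam * (r - t0)))
    (f' := fun r => y' r * Real.exp (lam * (r - t0)) + y r * (Real.exp (lam * (r - t0)) * lam))
    (by fun_prop) (fun r hr => by
      have h1 : HasDerivAt (fun r => lam * (r - t0)) lam r := by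
        have := ((hasDerivAt_id r).sub_const t0).const_mul lam
        simpa using this
      exact (h.dy r hr).mul h1.exp) (by
      intro r hr
      have hr' := Ioo_subset_Icc_self hr
      have h2 := h.hy1 r hr
      have hy0 := h.yn r hr'
      have hx0 := h.xn r hr'
      have hc0 := h.c0
      have e : y' r * Real.exp (lam * (r - t0)) + y r * (Real.exp (lam * (r - t0)) * lam) =
          Real.exp (lam * (r - t0)) * (y' r + lam * y r) := by ring
      rw [e]
      have h3 : 0 ≤ c * x r * y r := by positivity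
      exact mul_nonneg (Real.exp_pos _).le (by linarith)) ht0 ht ht.1
  simp only [sub_self, mul_zero, Real.exp_zero, mul_one] at hm
  have h1 : 0 < y t * Real.exp (lam * (t - t0)) := h.y00.trans_le hm
  exact (mul_pos_iff_of_pos_right (Real.exp_pos _)).1 h1

/-- the estimate for `log y - x / X` -/
lemma plan_log (h : PlanHyp x y x' y' I c lam P α D X t0 s) :
    9 / 10 * c * X * (s - t0) ≤ 2 - Real.log (y t0) := by
  have hX := plan_Xpos h
  have hl : 0 < lam := by linarith [h.lam1]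
  have ht0 : t0 ∈ Icc t0 s := ⟨le_refl _, h.ts⟩
  have hts : s ∈ Icc t0 s := ⟨h.ts, le_refl _⟩
  have hcx := h.cx
  have hcy := h.cy
  have hc0 := h.c0
  have hcl : ContinuousOn (fun r => Real.log (y r)) (Icc t0 s) :=
    hcy.log fun r hr => (plan_ypos h hr).ne'
  have hm := plan_mono (a := t0) (b := s)
    (f := fun r => Real.log (y r) - x r / X - (9 / 10 * c * X - 3 * lam) * r)
    (f' := fun r => y' r / y r - x' r / X - (9 / 10 * c * X - 3 * lam))
    ((hcl.sub (hcx.div_const X)).sub (by fun_prop)) (fun r hr => by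
      have hr' := Ioo_subset_Icc_self hr
      have h1 := (((h.dy r hr).log (plan_ypos h hr').ne').sub ((h.dx r hr).div_const X)).sub
        ((hasDerivAt_id r).const_mul (9 / 10 * c * X - 3 * lam))
      exact h1.congr_deriv (by rw [mul_one])) (by
      intro r hr
      have hr' := Ioo_subset_Icc_self hr
      obtain ⟨b1, b2, b3, b4, b5⟩ := plan_bd h hr'
      obtain ⟨n1, n2⟩ := plan_N h hr'
      have hy0 := plan_ypos h hr'
      have hx0 := h.xn r hr'
      have h1 := (abs_le.1 (h.hx r hr)).2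
      have h2 := h.hy1 r hr
      have h3 : c * x r - lam ≤ y' r / y r := by
        rw [le_div_iff₀ hy0]
        linarith
      have h5 : P ≤ lam * X / 2 := by
        refine h.Pα.trans ?_
        have := mul_le_mul_of_nonneg_right h.αX hl.le
        linarith
      have h4 : lam * (x r + y r) ≤ lam * (3 / 2 * X) := mul_le_mul_of_nonneg_left b4 hl.le
      have h6 : x' r ≤ -(c * y r ^ 2) + 2 * lam * X := by linarith
      have h7 : x' r / X ≤ -(c * y r ^ 2) / X + 2 * lam := by
        rw [div_le_iff₀ hX]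
        have e : (-(c * y r ^ 2) / X + 2 * lam) * X = -(c * y r ^ 2) + 2 * lam * X := by
          field_simp
        rw [e]
        exact h6
      have h8 : 9 / 10 * X ≤ x r + y r ^ 2 / X := by
        have e : x r + y r ^ 2 / X = (x r * X + y r ^ 2) / X := by field_simp
        rw [e, le_div_iff₀ hX]
        have h9 : x r * x r ≤ 101 / 100 * X * x r := mul_le_mul_of_nonneg_right b1 hx0
        have hXX : 0 < X ^ 2 := by positivity
        nlinarith [sq_nonneg (y r)]
      have h9 : c * (9 / 10 * X) ≤ c * (x r + y r ^ 2 / X) := mul_le_mul_of_nonneg_left h8 hc0.le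
      have e : -(c * y r ^ 2) / X = -(c * (y r ^ 2 / X)) := by ring
      rw [e] at h7
      linarith) ht0 hts h.ts
  have htime := plan_time h (k := 3) (by norm_num) (by norm_num) ht0 hts h.ts
  have hys := (plan_bd h hts).2.1
  have hys0 := plan_ypos h hts
  have hxs := h.xn s hts
  have h1 : Real.log (y s) ≤ 71 / 100 := by
    have h2 : y s ≤ 2 * (101 / 100) := by
      have := h.X2
      linarith
    have h3 : Real.log (y s) ≤ Real.log (2 * (101 / 100)) := Real.log_le_log hys0 h2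
    have h4 : Real.log (2 * (101 / 100)) = Real.log 2 + Real.log (101 / 100) :=
      Real.log_mul (by norm_num) (by norm_num)
    have h5 : Real.log (101 / 100) ≤ 101 / 100 - 1 := Real.log_le_sub_one_of_pos (by norm_num)
    have h6 := Real.log_two_lt_d9
    linarith
  have h2 : x t0 / X = 1 := by
    rw [h.x0]
    exact div_self hX.ne'
  have h3 : 0 ≤ x s / X := by positivity
  rw [h2] at hm
  linarith

/-- the loss of `x` -/
lemma plan_x (h : PlanHyp x y x' y' I c lam P α D X t0 s) {u v : ℝ} (hu : u ∈ Icc t0 s)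
    (hv : v ∈ Icc t0 s) (huv : u ≤ v) :
    x u - x v ≤ 101 / 100 * X * c * (I v - I u) + X / 2 ^ 31 := by
  have hX := plan_Xpos h
  have hl : 0 < lam := by linarith [h.lam1]
  have hcx := h.cx
  have hcI := h.cI
  have hc0 := h.c0
  have hm := plan_mono (a := t0) (b := s)
    (f := fun r => x r + 101 / 100 * X * c * I r + 2 * lam * X * r)
    (f' := fun r => x' r + 101 / 100 * X * c * y r + 2 * lam * X)
    (by fun_prop) (fun r hr => by
      have h1 := ((h.dx r hr).add ((h.dI r hr).const_mul (101 / 100 * X * c))).add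
        ((hasDerivAt_id r).const_mul (2 * lam * X))
      exact h1.congr_deriv (by rw [mul_one])) (by
      intro r hr
      have hr' := Ioo_subset_Icc_self hr
      obtain ⟨b1, b2, b3, b4, b5⟩ := plan_bd h hr'
      have h1 := (abs_le.1 (h.hx r hr)).1
      have hy0 := h.yn r hr'
      have h5 : P ≤ lam * X / 2 := by
        refine h.Pα.trans ?_
        have := mul_le_mul_of_nonneg_right h.αX hl.le
        linarith
      have h4 : lam * (x r + y r) ≤ lam * (3 / 2 * X) := mul_le_mul_of_nonneg_left b4 hl.le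
      have h6 : c * y r * y r ≤ c * y r * (101 / 100 * X) :=
        mul_le_mul_of_nonneg_left b2 (by positivity)
      nlinarith) hu hv huv
  have htime := plan_time h (k := 2) (by norm_num) (by norm_num) hu hv huv
  have h6 : 2 * lam * (v - u) * X ≤ 1 / 2 ^ 31 * X := mul_le_mul_of_nonneg_right htime hX.le
  linarith

end

theorem s_plan : S_plan := by
  intro x y x' y' I c lam P α D X t0 s h
  have hX := plan_Xpos h
  have hts : s ∈ Icc t0 s := ⟨h.ts, le_refl _⟩
  have ht0 : t0 ∈ Icc t0 s := ⟨le_refl _, h.ts⟩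
  have hyx := plan_yx h
  have hXX : 0 < X ^ 2 := by positivity
  refine ⟨?_, ?_, ?_, plan_log h, fun u hu v hv huv => plan_x h hu hv huv⟩
  · intro t ht
    obtain ⟨h1, h2⟩ := plan_N h ht
    exact ⟨by nlinarith, h2⟩
  · have h1 := (plan_bd h hts).2.1
    have h2 := h.xn s hts
    have h3 := h.y00
    have h4 := h.x0
    have h5 : 9 / 10 * X * (c * (I s - I t0)) ≤ 9 / 10 * X * (9 / 4) := by linarith
    exact le_of_mul_le_mul_left h5 (by positivity)
  · intro hθ
    by_contra hlt
    rw [not_le] at hlt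
    have h1 : 9 / 10 * X * (1 / 2 ^ 26) ≤ 9 / 10 * X * (c * (I s - I t0)) :=
      mul_le_mul_of_nonneg_left hθ (by positivity)
    have h3 := h.y00
    have h4 := h.x0
    have hys := h.yn s hts
    have hxs := h.xn s hts
    have h5 : x s ≤ X * (1 - 7 / 10 / 2 ^ 26) := by linarith
    have h6 : x s ^ 2 ≤ (X * (1 - 7 / 10 / 2 ^ 26)) ^ 2 := pow_le_pow_left₀ hxs h5 2
    have h7 : y s ^ 2 ≤ (X / 2 ^ 29) ^ 2 := pow_le_pow_left₀ hys hlt.le 2
    have h8 := (plan_N h hts).1
    have h9 : (X * (1 - 7 / 10 / 2 ^ 26)) ^ 2 + (X / 2 ^ 29) ^ 2 < X ^ 2 * (1 - 2 / 2 ^ 31) := by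
      have e : (X * (1 - 7 / 10 / 2 ^ 26)) ^ 2 + (X / 2 ^ 29) ^ 2 =
          X ^ 2 * ((1 - 7 / 10 / 2 ^ 26) ^ 2 + (1 / 2 ^ 29) ^ 2) := by ring
      rw [e]
      exact mul_lt_mul_of_pos_left (by norm_num) hXX
    linarith

end Pool.Agent.H226.GB
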