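import Pool.Agent.H226.GB.Spec

/-!
Calculus of product functions.
-/

open MeasureTheory Set Filter Topology
open scoped ContDiff
open H459R3.NS

namespace Pool.Agent.H226.GB

namespace Prod_

variable {F G H : ℝ → ℝ}

theorem der (hF : P1 F) : P1 (deriv F) := by
  refine ⟨(contDiff_infty_iff_deriv.1 hF.smooth).2, fun s => ?_⟩
  have h : (fun x => F (x + 1)) = F := funext hF.per
  have h1 := deriv_comp_add_const F 1 s
  rw [h] at h1
  exact h1.symm

theorem mul (hF : P1 F) (hG : P1 G) : P1 (fun s => F s * G s) :=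
  ⟨hF.smooth.mul hG.smooth, fun s => by simp only [hF.per, hG.per]⟩

theorem per1 (hF : P1 F) (i j : Fin 3) (x : V) :
    F ((x + (Pi.single i (1 : ℝ) : V)) j) = F (x j) := by
  by_cases h : j = i
  · subst h
    rw [Pi.add_apply, Pi.single_eq_same, hF.per]
  · rw [Pi.add_apply, Pi.single_eq_of_ne h, add_zero]

theorem sp (hF : P1 F) (hG : P1 G) (hH : P1 H) : SP (prd F G H) := by
  refine ⟨?_, fun i x => ?_⟩
  · unfold prd
    have h : ∀ j : Fin 3, ContDiff ℝ ∞ (fun x : V => x j) := fun j => contDiff_apply ℝ ℝ j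
    exact ((hF.smooth.comp (h 0)).mul (hG.smooth.comp (h 1))).mul (hH.smooth.comp (h 2))
  · simp only [prd, per1 hF, per1 hG, per1 hH]

theorem hd (hF : P1 F) (j : Fin 3) (x : V) : HasFDerivAt (fun y : V => F (y j))
    (deriv F (x j) • (ContinuousLinearMap.proj j : V →L[ℝ] ℝ)) x := by
  have h1 : HasDerivAt F (deriv F (x j)) (x j) :=
    ((contDiff_infty_iff_deriv.1 hF.smooth).1 (x j)).hasDerivAt
  have h2 : HasFDerivAt (fun y : V => y j) (ContinuousLinearMap.proj j : V →L[ℝ] ℝ) x :=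
    (ContinuousLinearMap.proj j : V →L[ℝ] ℝ).hasFDerivAt
  exact h1.comp_hasFDerivAt x h2

theorem pdj (hF : P1 F) (hG : P1 G) (hH : P1 H) (j : Fin 3) (x : V) : pd j (prd F G H) x =
    (if j = 0 then deriv F (x 0) * G (x 1) * H (x 2) else 0) +
    (if j = 1 then F (x 0) * deriv G (x 1) * H (x 2) else 0) +
    (if j = 2 then F (x 0) * G (x 1) * deriv H (x 2) else 0) := by
  have h := ((hd hF 0 x).mul (hd hG 1 x)).mul (hd hH 2 x)
  have h1 : fderiv ℝ (prd F G H) x = _ := h.fderiv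
  unfold pd
  rw [h1]
  fin_cases j <;> simp <;> ring

theorem pd0 (hF : P1 F) (hG : P1 G) (hH : P1 H) : pd 0 (prd F G H) = prd (deriv F) G H := by
  funext x
  rw [pdj hF hG hH]
  simp [prd]

theorem pd1 (hF : P1 F) (hG : P1 G) (hH : P1 H) : pd 1 (prd F G H) = prd F (deriv G) H := by
  funext x
  rw [pdj hF hG hH]
  simp [prd]

theorem pd2 (hF : P1 F) (hG : P1 G) (hH : P1 H) : pd 2 (prd F G H) = prd F G (deriv H) := by
  funext x
  rw [pdj hF hG hH]
  simp [prd]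

theorem int (F G H : ℝ → ℝ) : ∫ x in cube, prd F G H x = i1 F * i1 G * i1 H := by
  have h1 : (volume.restrict cube : Measure V) =
      Measure.pi (fun _ : Fin 3 => (volume : Measure ℝ).restrict (Icc 0 1)) := by
    rw [← Measure.restrict_pi_pi, ← volume_pi]
    congr 1
    ext x
    simp only [cube, Set.mem_Icc, Set.mem_pi, Set.mem_univ, true_implies, Pi.le_def]
    constructor
    · rintro ⟨h1, h2⟩ i
      exact ⟨h1 i, h2 i⟩
    · intro h
      exact ⟨fun i => (h i).1, fun i => (h i).2⟩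
  have h2 : ∀ x : V, prd F G H x = ∏ i, (![F, G, H] : Fin 3 → ℝ → ℝ) i (x i) := by
    intro x
    rw [Fin.prod_univ_three]
    rfl
  have h3 : ∀ f : ℝ → ℝ, ∫ s in Icc (0 : ℝ) 1, f s = i1 f := by
    intro f
    unfold i1
    rw [intervalIntegral.integral_of_le zero_le_one, integral_Icc_eq_integral_Ioc]
  rw [h1]
  simp only [h2]
  rw [integral_fin_nat_prod_eq_prod, Fin.prod_univ_three]
  show (∫ s in Icc (0 : ℝ) 1, F s) * (∫ s in Icc (0 : ℝ) 1, G s) * (∫ s in Icc (0 : ℝ) 1, H s) = _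
  rw [h3, h3, h3]

theorem int' {f : V → ℝ} {c : ℝ} (F G H : ℝ → ℝ) (h : ∀ x, f x = c * prd F G H x) :
    ∫ x in cube, f x = c * (i1 F * i1 G * i1 H) := by
  rw [← int, ← integral_const_mul]
  exact integral_congr_ae (Eventually.of_forall h)

theorem gp0 (hF : P1 F) (hG : P1 G) (hH : P1 H) (x : V) :
    gp (prd F G H) x 0 = prd F G (deriv H) x := by
  show pd 2 (prd F G H) x = _
  rw [pd2 hF hG hH]

theorem gp1 (x : V) : gp (prd F G H) x 1 = 0 := rfl

theorem gp2 (hF : P1 F) (hG : P1 G) (hH : P1 H) (x : V) :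
    gp (prd F G H) x 2 = -prd (deriv F) G H x := by
  show -pd 0 (prd F G H) x = _
  rw [pd0 hF hG hH]

theorem pd_neg (j : Fin 3) (f : V → ℝ) (x : V) : pd j (fun y => -f y) x = -pd j f x := by
  unfold pd
  rw [fderiv_fun_neg]
  rfl

theorem ip_gp {F G H F' G' H' : ℝ → ℝ} (hF : P1 F) (hG : P1 G) (hH : P1 H) (hF' : P1 F')
    (hG' : P1 G') (hH' : P1 H') : ip (gp (prd F G H)) (gp (prd F' G' H'))
      = i1 (fun s => F s * F' s) * i1 (fun s => G s * G' s)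
          * i1 (fun s => deriv H s * deriv H' s)
        + i1 (fun s => deriv F s * deriv F' s) * i1 (fun s => G s * G' s)
          * i1 (fun s => H s * H' s) := by
  unfold ip
  rw [Fin.sum_univ_three]
  have e0 := int' (f := fun x => gp (prd F G H) x 0 * gp (prd F' G' H') x 0) (c := 1)
    (fun s => F s * F' s) (fun s => G s * G' s) (fun s => deriv H s * deriv H' s) (fun x => by
      rw [gp0 hF hG hH, gp0 hF' hG' hH']
      simp only [prd]
      ring)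
  have e1 : ∫ x in cube, gp (prd F G H) x 1 * gp (prd F' G' H') x 1 = 0 := by
    simp only [gp1, mul_zero, integral_zero]
  have e2 := int' (f := fun x => gp (prd F G H) x 2 * gp (prd F' G' H') x 2) (c := 1)
    (fun s => deriv F s * deriv F' s) (fun s => G s * G' s) (fun s => H s * H' s) (fun x => by
      rw [gp2 hF hG hH, gp2 hF' hG' hH']
      simp only [prd]
      ring)
  rw [e0, e1, e2]
  ring

theorem tri_gp {F₁ G₁ H₁ F₂ G₂ H₂ F₃ G₃ H₃ : ℝ → ℝ} (hF₁ : P1 F₁) (hG₁ : P1 G₁) (hH₁ : P1 H₁)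
    (hF₂ : P1 F₂) (hG₂ : P1 G₂) (hH₂ : P1 H₂) (hF₃ : P1 F₃) (hG₃ : P1 G₃) (hH₃ : P1 H₃) :
    tri (gp (prd F₁ G₁ H₁)) (gp (prd F₂ G₂ H₂)) (gp (prd F₃ G₃ H₃))
      = i1 (fun s => G₁ s * G₂ s * G₃ s) *
        (i1 (fun s => F₁ s * F₂ s * deriv F₃ s) * i1 (fun s => deriv H₁ s * deriv H₂ s * deriv H₃ s)
        - i1 (fun s => deriv F₁ s * F₂ s * F₃ s)
          * i1 (fun s => H₁ s * deriv H₂ s * deriv (deriv H₃) s)
        + i1 (fun s => F₁ s * deriv F₂ s * deriv (deriv F₃) s)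
          * i1 (fun s => deriv H₁ s * H₂ s * H₃ s)
        - i1 (fun s => deriv F₁ s * deriv F₂ s * deriv F₃ s)
          * i1 (fun s => H₁ s * H₂ s * deriv H₃ s)) := by
  have w0 : (fun y => gp (prd F₃ G₃ H₃) y 0) = prd F₃ G₃ (deriv H₃) :=
    funext (gp0 hF₃ hG₃ hH₃)
  have w2 : (fun y => gp (prd F₃ G₃ H₃) y 2) = fun y => -prd (deriv F₃) G₃ H₃ y :=
    funext (gp2 hF₃ hG₃ hH₃)
  have p00 : ∀ x, pd 0 (fun y => gp (prd F₃ G₃ H₃) y 0) x = prd (deriv F₃) G₃ (deriv H₃) x := by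
    intro x
    rw [w0, pd0 hF₃ hG₃ (der hH₃)]
  have p20 : ∀ x, pd 2 (fun y => gp (prd F₃ G₃ H₃) y 0) x =
      prd F₃ G₃ (deriv (deriv H₃)) x := by
    intro x
    rw [w0, pd2 hF₃ hG₃ (der hH₃)]
  have p02 : ∀ x, pd 0 (fun y => gp (prd F₃ G₃ H₃) y 2) x =
      -prd (deriv (deriv F₃)) G₃ H₃ x := by
    intro x
    rw [w2, pd_neg, pd0 (der hF₃) hG₃ hH₃]
  have p22 : ∀ x, pd 2 (fun y => gp (prd F₃ G₃ H₃) y 2) x =
      -prd (deriv F₃) G₃ (deriv H₃) x := by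
    intro x
    rw [w2, pd_neg, pd2 (der hF₃) hG₃ hH₃]
  have e00 := int' (f := fun x => gp (prd F₁ G₁ H₁) x 0 * gp (prd F₂ G₂ H₂) x 0 *
      pd 0 (fun y => gp (prd F₃ G₃ H₃) y 0) x) (c := 1)
    (fun s => F₁ s * F₂ s * deriv F₃ s) (fun s => G₁ s * G₂ s * G₃ s)
    (fun s => deriv H₁ s * deriv H₂ s * deriv H₃ s) (fun x => by
      rw [gp0 hF₁ hG₁ hH₁, gp0 hF₂ hG₂ hH₂, p00]
      simp only [prd]
      ring)
  have e02 := int' (f := fun x => gp (prd F₁ G₁ H₁) x 0 * gp (prd F₂ G₂ H₂) x 2 *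
      pd 0 (fun y => gp (prd F₃ G₃ H₃) y 2) x) (c := 1)
    (fun s => F₁ s * deriv F₂ s * deriv (deriv F₃) s) (fun s => G₁ s * G₂ s * G₃ s)
    (fun s => deriv H₁ s * H₂ s * H₃ s) (fun x => by
      rw [gp0 hF₁ hG₁ hH₁, gp2 hF₂ hG₂ hH₂, p02]
      simp only [prd]
      ring)
  have e20 := int' (f := fun x => gp (prd F₁ G₁ H₁) x 2 * gp (prd F₂ G₂ H₂) x 0 *
      pd 2 (fun y => gp (prd F₃ G₃ H₃) y 0) x) (c := -1)
    (fun s => deriv F₁ s * F₂ s * F₃ s) (fun s => G₁ s * G₂ s * G₃ s)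
    (fun s => H₁ s * deriv H₂ s * deriv (deriv H₃) s) (fun x => by
      rw [gp2 hF₁ hG₁ hH₁, gp0 hF₂ hG₂ hH₂, p20]
      simp only [prd]
      ring)
  have e22 := int' (f := fun x => gp (prd F₁ G₁ H₁) x 2 * gp (prd F₂ G₂ H₂) x 2 *
      pd 2 (fun y => gp (prd F₃ G₃ H₃) y 2) x) (c := -1)
    (fun s => deriv F₁ s * deriv F₂ s * deriv F₃ s) (fun s => G₁ s * G₂ s * G₃ s)
    (fun s => H₁ s * H₂ s * deriv H₃ s) (fun x => by
      rw [gp2 hF₁ hG₁ hH₁, gp2 hF₂ hG₂ hH₂, p22]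
      simp only [prd]
      ring)
  unfold tri
  simp only [Fin.sum_univ_three]
  rw [e00, e02, e20, e22]
  simp only [gp1, mul_zero, zero_mul, integral_zero]
  ring

end Prod_

theorem s_prod : S_prod where
  sp := Prod_.sp
  pd0 := Prod_.pd0
  pd1 := Prod_.pd1
  pd2 := Prod_.pd2
  der := Prod_.der
  mul := Prod_.mul
  int := fun _ _ _ => Prod_.int _ _ _
  ip_gp := Prod_.ip_gp
  tri_gp := Prod_.tri_gp

end Pool.Agent.H226.GB
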