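import Pool.Agent.H226.GB.Spec

/-!
Trigonometric polynomials with prescribed frequencies: proof of `S_trig`.
-/

open MeasureTheory Set Filter Topology
open scoped ContDiff
open H459R3.NS

namespace Pool.Agent.H226.GB

/-- a wave with a phase -/
noncomputable def TrigP_e (k : ℕ) (θ : ℝ) (s : ℝ) : ℝ := Real.cos (2 * Real.pi * k * s + θ)

theorem TrigP_cs (k : ℕ) : cs k = TrigP_e k 0 := by
  funext s
  unfold cs TrigP_e
  rw [add_zero]

theorem TrigP_sn (k : ℕ) : sn k = TrigP_e k (-(Real.pi / 2)) := by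
  funext s
  unfold sn TrigP_e
  rw [← sub_eq_add_neg, Real.cos_sub_pi_div_two]

theorem TrigP_int (m : ℤ) (hm : m ≠ 0) (θ : ℝ) :
    ∫ s in (0 : ℝ)..1, Real.cos (2 * Real.pi * m * s + θ) = 0 := by
  have hc : 2 * Real.pi * (m : ℝ) ≠ 0 :=
    mul_ne_zero (mul_ne_zero two_ne_zero Real.pi_ne_zero) (Int.cast_ne_zero.2 hm)
  have h := intervalIntegral.integral_comp_mul_add (a := 0) (b := 1) (fun x => Real.cos x) hc θ
  rw [h, integral_cos, mul_one, mul_zero, zero_add]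
  have e : 2 * Real.pi * (m : ℝ) + θ = θ + m * (2 * Real.pi) := by ring
  rw [e, Real.sin_add_int_mul_two_pi, sub_self, smul_zero]

theorem TrigP_e_smooth (k : ℕ) (θ : ℝ) : ContDiff ℝ ∞ (TrigP_e k θ) := by
  unfold TrigP_e
  exact Real.contDiff_cos.comp ((contDiff_const.mul contDiff_id).add contDiff_const)

theorem TrigP_e_per (k : ℕ) (θ : ℝ) (s : ℝ) : TrigP_e k θ (s + 1) = TrigP_e k θ s := by
  unfold TrigP_e
  have e : 2 * Real.pi * (k : ℝ) * (s + 1) + θ = 2 * Real.pi * k * s + θ + k * (2 * Real.pi) := by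
    ring
  rw [e, Real.cos_add_nat_mul_two_pi]

theorem TrigP_e_p1 (k : ℕ) (θ : ℝ) : P1 (TrigP_e k θ) :=
  ⟨TrigP_e_smooth k θ, TrigP_e_per k θ⟩

theorem TrigP_e_cont (k : ℕ) (θ : ℝ) : Continuous (TrigP_e k θ) :=
  (TrigP_e_smooth k θ).continuous

theorem TrigP_ii {f : ℝ → ℝ} (hf : Continuous f) : IntervalIntegrable f volume 0 1 :=
  hf.intervalIntegrable 0 1

theorem TrigP_add {f g h : ℝ → ℝ} (hf : Continuous f) (hg : Continuous g) (h1 : i1 f = 0)
    (h2 : i1 g = 0) (e : ∀ s, h s = f s + g s) : i1 h = 0 := by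
  have e' : h = fun s => f s + g s := funext e
  unfold i1 at h1 h2 ⊢
  rw [e', intervalIntegral.integral_add (TrigP_ii hf) (TrigP_ii hg), h1, h2, add_zero]

theorem TrigP_smul {f h : ℝ → ℝ} (c : ℝ) (h1 : i1 f = 0) (e : ∀ s, h s = c * f s) :
    i1 h = 0 := by
  have e' : h = fun s => c * f s := funext e
  unfold i1 at h1 ⊢
  rw [e', intervalIntegral.integral_const_mul, h1, mul_zero]

theorem TrigP_b2 {a b : ℕ} (hab : a ≠ b) (θ η : ℝ) :
    i1 (fun s => TrigP_e a θ s * TrigP_e b η s) = 0 := by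
  have e : (fun s => TrigP_e a θ s * TrigP_e b η s) = fun s =>
      2⁻¹ * Real.cos (2 * Real.pi * ((a + b : ℤ) : ℝ) * s + (θ + η)) +
      2⁻¹ * Real.cos (2 * Real.pi * ((a - b : ℤ) : ℝ) * s + (θ - η)) := by
    funext s
    unfold TrigP_e
    have h1 : 2 * Real.pi * ((a + b : ℤ) : ℝ) * s + (θ + η) =
      (2 * Real.pi * a * s + θ) + (2 * Real.pi * b * s + η) := by push_cast; ring
    have h2 : 2 * Real.pi * ((a - b : ℤ) : ℝ) * s + (θ - η) =
      (2 * Real.pi * a * s + θ) - (2 * Real.pi * b * s + η) := by push_cast; ring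
    rw [h1, h2]
    generalize 2 * Real.pi * a * s + θ = x
    generalize 2 * Real.pi * b * s + η = y
    rw [Real.cos_add, Real.cos_sub]
    ring
  unfold i1
  rw [e, intervalIntegral.integral_add (TrigP_ii (by fun_prop)) (TrigP_ii (by fun_prop)),
    intervalIntegral.integral_const_mul, intervalIntegral.integral_const_mul,
    TrigP_int _ (by omega), TrigP_int _ (by omega)]
  ring

theorem TrigP_b3 {a b c : ℕ} (h1 : a ≠ b + c) (h2 : b ≠ a + c) (h3 : c ≠ a + b) (θ η ζ : ℝ) :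
    i1 (fun s => TrigP_e a θ s * TrigP_e b η s * TrigP_e c ζ s) = 0 := by
  have e : (fun s => TrigP_e a θ s * TrigP_e b η s * TrigP_e c ζ s) = fun s =>
      (4⁻¹ * Real.cos (2 * Real.pi * ((a + b + c : ℤ) : ℝ) * s + (θ + η + ζ)) +
      4⁻¹ * Real.cos (2 * Real.pi * ((a + b - c : ℤ) : ℝ) * s + (θ + η - ζ))) +
      (4⁻¹ * Real.cos (2 * Real.pi * ((a - b + c : ℤ) : ℝ) * s + (θ - η + ζ)) +
      4⁻¹ * Real.cos (2 * Real.pi * ((a - b - c : ℤ) : ℝ) * s + (θ - η - ζ))) := by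
    funext s
    unfold TrigP_e
    have h1 : 2 * Real.pi * ((a + b + c : ℤ) : ℝ) * s + (θ + η + ζ) =
      (2 * Real.pi * a * s + θ) + (2 * Real.pi * b * s + η) + (2 * Real.pi * c * s + ζ) := by
      push_cast; ring
    have h2 : 2 * Real.pi * ((a + b - c : ℤ) : ℝ) * s + (θ + η - ζ) =
      (2 * Real.pi * a * s + θ) + (2 * Real.pi * b * s + η) - (2 * Real.pi * c * s + ζ) := by
      push_cast; ring
    have h3 : 2 * Real.pi * ((a - b + c : ℤ) : ℝ) * s + (θ - η + ζ) =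
      (2 * Real.pi * a * s + θ) - (2 * Real.pi * b * s + η) + (2 * Real.pi * c * s + ζ) := by
      push_cast; ring
    have h4 : 2 * Real.pi * ((a - b - c : ℤ) : ℝ) * s + (θ - η - ζ) =
      (2 * Real.pi * a * s + θ) - (2 * Real.pi * b * s + η) - (2 * Real.pi * c * s + ζ) := by
      push_cast; ring
    rw [h1, h2, h3, h4]
    generalize 2 * Real.pi * a * s + θ = x
    generalize 2 * Real.pi * b * s + η = y
    generalize 2 * Real.pi * c * s + ζ = z
    rw [Real.cos_add (x + y) z, Real.cos_sub (x + y) z, Real.cos_add (x - y) z,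
      Real.cos_sub (x - y) z, Real.cos_add x y, Real.cos_sub x y]
    ring
  unfold i1
  rw [e, intervalIntegral.integral_add (TrigP_ii (by fun_prop)) (TrigP_ii (by fun_prop)),
    intervalIntegral.integral_add (TrigP_ii (by fun_prop)) (TrigP_ii (by fun_prop)),
    intervalIntegral.integral_add (TrigP_ii (by fun_prop)) (TrigP_ii (by fun_prop)),
    intervalIntegral.integral_const_mul, intervalIntegral.integral_const_mul,
    intervalIntegral.integral_const_mul, intervalIntegral.integral_const_mul,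
    TrigP_int _ (by omega), TrigP_int _ (by omega), TrigP_int _ (by omega),
    TrigP_int _ (by omega)]
  ring

/-- induction for trigonometric polynomials -/
theorem TrigP_ind {A : Set ℕ} {f : ℝ → ℝ} (hf : Trig A f) (P : (ℝ → ℝ) → Prop)
    (h1 : ∀ k ∈ A, ∀ θ, P (TrigP_e k θ)) (h0 : P (fun _ => 0))
    (hadd : ∀ f g, P f → P g → P (fun s => f s + g s))
    (hsmul : ∀ (c : ℝ) (f : ℝ → ℝ), P f → P (fun s => c * f s)) : P f := by
  unfold Trig at hf
  refine Submodule.span_induction (p := fun f _ => P f) ?_ h0 ?_ ?_ hf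
  · rintro g (⟨k, hk, rfl⟩ | ⟨k, hk, rfl⟩)
    · rw [TrigP_sn]; exact h1 k hk _
    · rw [TrigP_cs]; exact h1 k hk _
  · intro f g _ _ hf hg
    exact hadd f g hf hg
  · intro c f _ hf
    exact hsmul c f hf

theorem TrigP_p1 {A : Set ℕ} {f : ℝ → ℝ} (hf : Trig A f) : P1 f := by
  refine TrigP_ind hf P1 (fun k _ θ => TrigP_e_p1 k θ) ⟨contDiff_const, fun _ => rfl⟩ ?_ ?_
  · intro f g hf hg
    exact ⟨hf.smooth.add hg.smooth, fun s => by rw [hf.per, hg.per]⟩
  · intro c f hf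
    exact ⟨contDiff_const.mul hf.smooth, fun s => by rw [hf.per]⟩

theorem TrigP_cont {A : Set ℕ} {f : ℝ → ℝ} (hf : Trig A f) : Continuous f :=
  (TrigP_p1 hf).smooth.continuous

theorem TrigP_msn {A : Set ℕ} {k : ℕ} (hk : k ∈ A) : Trig A (sn k) :=
  Submodule.subset_span (Or.inl ⟨k, hk, rfl⟩)

theorem TrigP_mcs {A : Set ℕ} {k : ℕ} (hk : k ∈ A) : Trig A (cs k) :=
  Submodule.subset_span (Or.inr ⟨k, hk, rfl⟩)

theorem TrigP_dsn (k : ℕ) : deriv (sn k) = (2 * Real.pi * k) • cs k := by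
  funext s
  have h : HasDerivAt (sn k) (Real.cos (2 * Real.pi * k * s) * (2 * Real.pi * k * 1)) s :=
    (Real.hasDerivAt_sin _).comp s ((hasDerivAt_id s).const_mul (2 * Real.pi * k))
  rw [h.deriv]
  simp only [Pi.smul_apply, smul_eq_mul]
  unfold cs
  ring

theorem TrigP_dcs (k : ℕ) : deriv (cs k) = (-(2 * Real.pi * k)) • sn k := by
  funext s
  have h : HasDerivAt (cs k) (-Real.sin (2 * Real.pi * k * s) * (2 * Real.pi * k * 1)) s :=
    (Real.hasDerivAt_cos _).comp s ((hasDerivAt_id s).const_mul (2 * Real.pi * k))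
  rw [h.deriv]
  simp only [Pi.smul_apply, smul_eq_mul]
  unfold sn
  ring

theorem TrigP_der {A : Set ℕ} {f : ℝ → ℝ} (hf : Trig A f) : Trig A (deriv f) := by
  have h : Differentiable ℝ f ∧ Trig A (deriv f) := by
    unfold Trig at hf
    refine Submodule.span_induction (p := fun f _ => Differentiable ℝ f ∧ Trig A (deriv f))
      ?_ ?_ ?_ ?_ hf
    · rintro g (⟨k, hk, rfl⟩ | ⟨k, hk, rfl⟩)
      · refine ⟨(TrigP_p1 (TrigP_msn hk)).smooth.differentiable (by simp), ?_⟩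
        rw [TrigP_dsn]
        exact Submodule.smul_mem _ _ (TrigP_mcs hk)
      · refine ⟨(TrigP_p1 (TrigP_mcs hk)).smooth.differentiable (by simp), ?_⟩
        rw [TrigP_dcs]
        exact Submodule.smul_mem _ _ (TrigP_msn hk)
    · refine ⟨differentiable_const (0 : ℝ), ?_⟩
      have e : deriv (0 : ℝ → ℝ) = 0 := by
        funext s
        exact deriv_const s (0 : ℝ)
      rw [e]
      exact Submodule.zero_mem _
    · rintro f g _ _ ⟨hf1, hf2⟩ ⟨hg1, hg2⟩
      refine ⟨hf1.add hg1, ?_⟩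
      have e : deriv (f + g) = deriv f + deriv g := by
        funext s
        exact deriv_add (hf1 s) (hg1 s)
      rw [e]
      exact Submodule.add_mem _ hf2 hg2
    · rintro c f _ ⟨hf1, hf2⟩
      refine ⟨hf1.const_smul c, ?_⟩
      have e : deriv (c • f) = c • deriv f := by
        funext s
        exact deriv_const_smul c (hf1 s)
      rw [e]
      exact Submodule.smul_mem _ _ hf2
  exact h.2

theorem TrigP_H (N : ℕ) : Trig {k | 16 * N ≤ k ∧ k ≤ 17 * N - 1} (fH N) := by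
  have e : fH N = ∑ j ∈ Finset.Ico (16 * N) (17 * N), (2 * Real.pi * j)⁻¹ • sn j := by
    funext s
    rw [Finset.sum_apply]
    unfold fH
    refine Finset.sum_congr rfl fun j _ => ?_
    rw [Pi.smul_apply, smul_eq_mul, div_eq_inv_mul]
  rw [e]
  refine Submodule.sum_mem _ fun j hj => Submodule.smul_mem _ _ (TrigP_msn ?_)
  rw [Finset.mem_Ico] at hj
  exact ⟨hj.1, by omega⟩

theorem TrigP_int2 {A B : Set ℕ} {f g : ℝ → ℝ} (hf : Trig A f) (hg : Trig B g)
    (hAB : ∀ a ∈ A, ∀ b ∈ B, a ≠ b) : i1 (fun s => f s * g s) = 0 := by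
  have s1 : ∀ b ∈ B, ∀ η, Continuous f ∧ i1 (fun s => f s * TrigP_e b η s) = 0 := by
    intro b hb η
    refine TrigP_ind hf (fun f => Continuous f ∧ i1 (fun s => f s * TrigP_e b η s) = 0)
      (fun k hk θ => ⟨TrigP_e_cont k θ, TrigP_b2 (hAB k hk b hb) θ η⟩) ?_ ?_ ?_
    · refine ⟨continuous_const, ?_⟩
      simp [i1]
    · rintro f g ⟨hf, hf'⟩ ⟨hg, hg'⟩
      exact ⟨hf.add hg, TrigP_add (hf.mul (TrigP_e_cont b η)) (hg.mul (TrigP_e_cont b η)) hf' hg'
        fun s => add_mul _ _ _⟩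
    · rintro c f ⟨hf, hf'⟩
      exact ⟨continuous_const.mul hf, TrigP_smul c hf' fun s => mul_assoc _ _ _⟩
  have hfc : Continuous f := TrigP_cont hf
  have s2 : Continuous g ∧ i1 (fun s => f s * g s) = 0 := by
    refine TrigP_ind hg (fun g => Continuous g ∧ i1 (fun s => f s * g s) = 0)
      (fun k hk θ => ⟨TrigP_e_cont k θ, (s1 k hk θ).2⟩) ?_ ?_ ?_
    · refine ⟨continuous_const, ?_⟩
      simp [i1]
    · rintro g h ⟨hg, hg'⟩ ⟨hh, hh'⟩
      exact ⟨hg.add hh, TrigP_add (hfc.mul hg) (hfc.mul hh) hg' hh' fun s => mul_add _ _ _⟩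
    · rintro c g ⟨hg, hg'⟩
      exact ⟨continuous_const.mul hg, TrigP_smul c hg' fun s => mul_left_comm _ _ _⟩
  exact s2.2

theorem TrigP_int3 {A B C : Set ℕ} {f g h : ℝ → ℝ} (hf : Trig A f) (hg : Trig B g)
    (hh : Trig C h)
    (hABC : ∀ a ∈ A, ∀ b ∈ B, ∀ c ∈ C, a ≠ b + c ∧ b ≠ a + c ∧ c ≠ a + b) :
    i1 (fun s => f s * g s * h s) = 0 := by
  have s1 : ∀ b ∈ B, ∀ η, ∀ c ∈ C, ∀ ζ,
      Continuous f ∧ i1 (fun s => f s * TrigP_e b η s * TrigP_e c ζ s) = 0 := by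
    intro b hb η c hc ζ
    refine TrigP_ind hf
      (fun f => Continuous f ∧ i1 (fun s => f s * TrigP_e b η s * TrigP_e c ζ s) = 0)
      (fun k hk θ => ⟨TrigP_e_cont k θ, ?_⟩) ?_ ?_ ?_
    · obtain ⟨h1, h2, h3⟩ := hABC k hk b hb c hc
      exact TrigP_b3 h1 h2 h3 θ η ζ
    · refine ⟨continuous_const, ?_⟩
      simp [i1]
    · rintro f g ⟨hf, hf'⟩ ⟨hg, hg'⟩
      exact ⟨hf.add hg, TrigP_add ((hf.mul (TrigP_e_cont b η)).mul (TrigP_e_cont c ζ))
        ((hg.mul (TrigP_e_cont b η)).mul (TrigP_e_cont c ζ)) hf' hg'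
        fun s => by simp only [Pi.mul_apply]; ring⟩
    · rintro r f ⟨hf, hf'⟩
      exact ⟨continuous_const.mul hf, TrigP_smul r hf' fun s => by ring⟩
  have hfc : Continuous f := TrigP_cont hf
  have s2 : ∀ c ∈ C, ∀ ζ, Continuous g ∧ i1 (fun s => f s * g s * TrigP_e c ζ s) = 0 := by
    intro c hc ζ
    refine TrigP_ind hg (fun g => Continuous g ∧ i1 (fun s => f s * g s * TrigP_e c ζ s) = 0)
      (fun k hk θ => ⟨TrigP_e_cont k θ, (s1 k hk θ c hc ζ).2⟩) ?_ ?_ ?_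
    · refine ⟨continuous_const, ?_⟩
      simp [i1]
    · rintro g h ⟨hg, hg'⟩ ⟨hh, hh'⟩
      exact ⟨hg.add hh, TrigP_add ((hfc.mul hg).mul (TrigP_e_cont c ζ))
        ((hfc.mul hh).mul (TrigP_e_cont c ζ)) hg' hh'
        fun s => by simp only [Pi.mul_apply]; ring⟩
    · rintro r g ⟨hg, hg'⟩
      exact ⟨continuous_const.mul hg, TrigP_smul r hg' fun s => by ring⟩
  have hgc : Continuous g := TrigP_cont hg
  have s3 : Continuous h ∧ i1 (fun s => f s * g s * h s) = 0 := by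
    refine TrigP_ind hh (fun h => Continuous h ∧ i1 (fun s => f s * g s * h s) = 0)
      (fun k hk θ => ⟨TrigP_e_cont k θ, (s2 k hk θ).2⟩) ?_ ?_ ?_
    · refine ⟨continuous_const, ?_⟩
      simp [i1]
    · rintro h k ⟨hh, hh'⟩ ⟨hk, hk'⟩
      exact ⟨hh.add hk, TrigP_add ((hfc.mul hgc).mul hh) ((hfc.mul hgc).mul hk) hh' hk'
        fun s => by simp only [Pi.mul_apply]; ring⟩
    · rintro r h ⟨hh, hh'⟩
      exact ⟨continuous_const.mul hh, TrigP_smul r hh' fun s => by ring⟩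
  exact s3.2

theorem s_trig : S_trig where
  p1 := TrigP_p1
  der := TrigP_der
  sn := TrigP_msn
  cs := TrigP_mcs
  H := TrigP_H
  int2 := TrigP_int2
  int3 := TrigP_int3

end Pool.Agent.H226.GB
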