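import Pool.Agent.H226.GB.Spec4

/-!
Integrals of rescaled and of translated periodic functions.
-/

set_option autoImplicit false

open MeasureTheory Set Filter Topology
open scoped ContDiff
open H459R3.NS

namespace Pool.Agent.H226.GB

attribute [local instance] instMeasureSpaceUnitAddCircle

theorem IntP_haar1 : Measure.IsAddHaarMeasure (volume : Measure UnitAddCircle) :=
  inferInstanceAs (Measure.IsAddHaarMeasure AddCircle.haarAddCircle)

theorem IntP_prob1 : IsProbabilityMeasure (volume : Measure UnitAddCircle) :=
  inferInstanceAs (IsProbabilityMeasure AddCircle.haarAddCircle)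

theorem IntP_haar : Measure.IsAddHaarMeasure (volume : Measure (UnitAddTorus (Fin 3))) := by
  have := IntP_haar1
  have := IntP_prob1
  exact Measure.pi.isAddHaarMeasure (fun _ : Fin 3 => (volume : Measure UnitAddCircle))

/-- the function on the torus -/
noncomputable def IntP_lift (f : V → ℝ) (t : UnitAddTorus (Fin 3)) : ℝ :=
  f (Function.surjInv cov_surj t)

theorem IntP_lift_cov {f : V → ℝ} (hf : Per f) (x : V) : IntP_lift f (cov x) = f x :=
  hf.eq_of_cov (Function.surjInv_eq cov_surj (cov x))

theorem IntP_lift_continuous {f : V → ℝ} (hf : Per f) (hc : Continuous f) :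
    Continuous (IntP_lift f) := by
  rw [cov_quot.isQuotientMap.continuous_iff]
  have : IntP_lift f ∘ cov = f := funext fun x => IntP_lift_cov hf x
  rwa [this]

theorem IntP_torus {f : V → ℝ} (hf : Per f) : ∫ x in cube, f x = ∫ t, IntP_lift f t := by
  rw [integral_torus]
  congr 1
  funext x
  rw [IntP_lift_cov hf]

theorem IntP_cov_add (x y : V) : cov (x + y) = cov x + cov y := rfl

theorem IntP_cov_smul (p : ℕ) (x : V) : cov ((p : ℝ) • x) = p • cov x := by
  funext i
  change (((p : ℝ) * x i : ℝ) : UnitAddCircle) = p • ((x i : ℝ) : UnitAddCircle)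
  rw [← nsmul_eq_mul]
  rfl

theorem IntP_mp_smul (p : ℕ) (hp : 1 ≤ p) :
    MeasurePreserving (fun t : UnitAddTorus (Fin 3) => p • t) volume volume := by
  have hp0 : (p : ℝ) ≠ 0 := by
    have : (0 : ℝ) < p := by exact_mod_cast hp
    exact this.ne'
  have hsurj : Function.Surjective (nsmulAddMonoidHom (α := UnitAddTorus (Fin 3)) p) := by
    intro t
    obtain ⟨y, rfl⟩ := cov_surj t
    refine ⟨cov ((p : ℝ)⁻¹ • y), ?_⟩
    change p • cov ((p : ℝ)⁻¹ • y) = cov y
    rw [← IntP_cov_smul, smul_inv_smul₀ hp0]
  have hcont : Continuous (nsmulAddMonoidHom (α := UnitAddTorus (Fin 3)) p) := continuous_nsmul p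
  have := IntP_haar
  exact (nsmulAddMonoidHom (α := UnitAddTorus (Fin 3)) p).measurePreserving
    (μ := (volume : Measure (UnitAddTorus (Fin 3)))) hcont hsurj rfl

theorem s_int : S_int := by
  refine ⟨fun g hg p hp => ?_, fun g hg y => ?_⟩
  · have hc := IntP_lift_continuous hg.per hg.smooth.continuous
    have hmp := IntP_mp_smul p hp
    have h1 : ∫ x in cube, g ((p : ℝ) • x) = ∫ t, IntP_lift g (p • t) := by
      rw [integral_torus fun t => IntP_lift g (p • t)]
      congr 1
      funext x
      rw [← IntP_cov_smul, IntP_lift_cov hg.per]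
    rw [h1, IntP_torus hg.per]
    conv_rhs => rw [← hmp.map_eq]
    exact (integral_map hmp.measurable.aemeasurable hc.aestronglyMeasurable).symm
  · have h1 : ∫ x in cube, g (x + y) = ∫ t, IntP_lift g (t + cov y) := by
      rw [integral_torus fun t => IntP_lift g (t + cov y)]
      congr 1
      funext x
      rw [← IntP_cov_add, IntP_lift_cov hg.per]
    rw [h1, IntP_torus hg.per]
    have := IntP_haar
    exact integral_add_right_eq_self (IntP_lift g) (cov y)

end Pool.Agent.H226.GB
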