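import Pool.Agent.H226.GB.Spec4
import Pool.Agent.H226.GB.Uni

/-!
Invariance of the solutions of the projected equations under the translations by `1 / p`.
-/

set_option autoImplicit false

open MeasureTheory Set Filter Topology
open scoped ContDiff
open H459R3.NS

namespace Pool.Agent.H226.GB

/-! ### Periodic functions -/

theorem shift_nat {F : Type*} {f : V → F} {c : ℝ} {j : Fin 3}
    (h : ∀ x : V, f (x + Pi.single j c) = f x) (n : ℕ) (x : V) :
    f (x + Pi.single j ((n : ℝ) * c)) = f x := by
  induction n generalizing x with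
  | zero => simp
  | succ n ih =>
    have e : x + Pi.single j (((n + 1 : ℕ) : ℝ) * c)
        = (x + Pi.single j ((n : ℝ) * c)) + Pi.single j c := by
      rw [add_assoc, ← Pi.single_add]
      have e1 : ((n + 1 : ℕ) : ℝ) * c = (n : ℝ) * c + c := by push_cast; ring
      rw [e1]
    rw [e, h, ih]

theorem shift_smul_single (p : ℝ) (j : Fin 3) (c : ℝ) :
    p • (Pi.single j c : V) = Pi.single j (p * c) := by
  funext l
  rcases eq_or_ne l j with h | h
  · subst h; simp
  · simp [h]

/-- the fields `φ m (p x)` -/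
theorem shift_sp_phi {φ : ℕ → V → V} (hφ : ∀ m i, SP (fun x => φ m x i)) (p : ℕ) (m : ℕ)
    (i : Fin 3) : SP (fun x => φ m ((p : ℝ) • x) i) where
  smooth := (hφ m i).smooth.comp (contDiff_const_smul (p : ℝ))
  per := by
    intro j x
    have h := shift_nat (f := fun x => φ m x i) (c := 1) (j := j) (fun x => (hφ m i).per j x) p
      ((p : ℝ) • x)
    show φ m ((p : ℝ) • (x + Pi.single j 1)) i = φ m ((p : ℝ) • x) i
    rw [smul_add, shift_smul_single]
    exact h

theorem shift_ph_add (k : Fin 3 → ℤ) (x y : V) :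
    ∑ j, (k j : ℝ) * (x + y) j = ∑ j, (k j : ℝ) * x j + ∑ j, (k j : ℝ) * y j := by
  rw [← Finset.sum_add_distrib]
  refine Finset.sum_congr rfl fun j _ => ?_
  rw [Pi.add_apply, mul_add]

theorem shift_ph_single (k : Fin 3 → ℤ) (i : Fin 3) (c : ℝ) :
    ∑ j, (k j : ℝ) * (Pi.single i c : V) j = k i * c := by
  rw [Finset.sum_eq_single i]
  · rw [Pi.single_eq_same]
  · intro j _ hj
    rw [Pi.single_eq_of_ne hj, mul_zero]
  · intro h; exact absurd (Finset.mem_univ i) h

theorem shift_sp_cos (k : Fin 3 → ℤ) (a : ℝ) :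
    SP (fun x => Real.cos (2 * Real.pi * ∑ j, (k j : ℝ) * x j) * a) where
  smooth := (Real.contDiff_cos.comp (contDiff_const.mul
    (ContDiff.sum fun j _ => contDiff_const.mul (contDiff_apply ℝ ℝ j)))).mul contDiff_const
  per := by
    intro i x
    show Real.cos _ * a = Real.cos _ * a
    rw [shift_ph_add, shift_ph_single, mul_one, mul_add, mul_comm (2 * Real.pi) (k i : ℝ),
      Real.cos_add_int_mul_two_pi]

theorem shift_sp_sin (k : Fin 3 → ℤ) (a : ℝ) :
    SP (fun x => Real.sin (2 * Real.pi * ∑ j, (k j : ℝ) * x j) * a) where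
  smooth := (Real.contDiff_sin.comp (contDiff_const.mul
    (ContDiff.sum fun j _ => contDiff_const.mul (contDiff_apply ℝ ℝ j)))).mul contDiff_const
  per := by
    intro i x
    show Real.sin _ * a = Real.sin _ * a
    rw [shift_ph_add, shift_ph_single, mul_one, mul_add, mul_comm (2 * Real.pi) (k i : ℝ),
      Real.sin_add_int_mul_two_pi]

theorem shift_sp_md {p : ℕ} {w : V → V} (hw : w ∈ md p) (i : Fin 3) : SP (fun x => w x i) := by
  obtain ⟨k, a, -, -, h | h⟩ := hw
  · have e : (fun x => w x i) =
        fun x => Real.cos (2 * Real.pi * ∑ j, (k j : ℝ) * x j) * a i := by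
      funext x
      rw [h x, Pi.smul_apply, smul_eq_mul]
    rw [e]
    exact shift_sp_cos k (a i)
  · have e : (fun x => w x i) =
        fun x => Real.sin (2 * Real.pi * ∑ j, (k j : ℝ) * x j) * a i := by
      funext x
      rw [h x, Pi.smul_apply, smul_eq_mul]
    rw [e]
    exact shift_sp_sin k (a i)

theorem shift_sp_Fp {φ : ℕ → V → V} (hφ : ∀ m i, SP (fun x => φ m x i)) {p : ℕ} {w : V → V}
    (hw : w ∈ Fp φ p) (i : Fin 3) : SP (fun x => w x i) := by
  rcases hw with ⟨m, h⟩ | h
  · have e : (fun x => w x i) = fun x => φ m ((p : ℝ) • x) i := by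
      funext x
      rw [h x]
    rw [e]
    exact shift_sp_phi hφ p m i
  · exact shift_sp_md h i

theorem shift_sp_span {Φ : Set (V → V)} (hΦ : ∀ w ∈ Φ, ∀ i, SP (fun x => w x i)) {w : V → V}
    (hw : w ∈ Submodule.span ℝ Φ) : ∀ i, SP (fun x => w x i) := by
  induction hw using Submodule.span_induction with
  | mem w h => exact hΦ w h
  | zero =>
    intro i
    exact ⟨contDiff_const, fun _ _ => rfl⟩
  | add v w _ _ hv hw =>
    intro i
    exact (hv i).add (hw i)
  | smul c w _ hw =>
    intro i
    exact uni_smul c (hw i)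

/-! ### Translations of the elements of the span -/

/-- a translation maps the modes with frequency `k` into their span -/
theorem shift_md_mem {p : ℕ} {w : V → V} (hw : w ∈ md p) (y : V) :
    (fun x => w (x + y)) ∈ Submodule.span ℝ (md p) := by
  obtain ⟨k, a, h1, h2, h⟩ := hw
  set c : V → V := fun x => Real.cos (2 * Real.pi * ∑ j, (k j : ℝ) * x j) • a with hc
  set s : V → V := fun x => Real.sin (2 * Real.pi * ∑ j, (k j : ℝ) * x j) • a with hs
  have hcm : c ∈ Submodule.span ℝ (md p) :=
    Submodule.subset_span ⟨k, a, h1, h2, Or.inl fun x => rfl⟩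
  have hsm : s ∈ Submodule.span ℝ (md p) :=
    Submodule.subset_span ⟨k, a, h1, h2, Or.inr fun x => rfl⟩
  set β : ℝ := 2 * Real.pi * ∑ j, (k j : ℝ) * y j with hβ
  rcases h with h | h
  · have e : (fun x => w (x + y)) = Real.cos β • c - Real.sin β • s := by
      funext x
      rw [h, shift_ph_add, mul_add, Real.cos_add]
      simp only [hc, hs, Pi.sub_apply, Pi.smul_apply, smul_smul]
      rw [← sub_smul, ← hβ]
      rw [mul_comm (Real.cos β), mul_comm (Real.sin β)]
    rw [e]
    exact Submodule.sub_mem _ (Submodule.smul_mem _ _ hcm) (Submodule.smul_mem _ _ hsm)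
  · have e : (fun x => w (x + y)) = Real.cos β • s + Real.sin β • c := by
      funext x
      rw [h, shift_ph_add, mul_add, Real.sin_add]
      simp only [hc, hs, Pi.add_apply, Pi.smul_apply, smul_smul]
      rw [← add_smul, ← hβ]
      rw [mul_comm (Real.cos β), mul_comm (Real.sin β)]
    rw [e]
    exact Submodule.add_mem _ (Submodule.smul_mem _ _ hsm) (Submodule.smul_mem _ _ hcm)

/-- translations which do not change the fields `φ m (p x)` -/
theorem shift_span {φ : ℕ → V → V} {p : ℕ} {y : V}
    (hy : ∀ m (x : V), φ m ((p : ℝ) • (x + y)) = φ m ((p : ℝ) • x)) {w : V → V}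
    (hw : w ∈ Submodule.span ℝ (Fp φ p)) :
    (fun x => w (x + y)) ∈ Submodule.span ℝ (Fp φ p) := by
  induction hw using Submodule.span_induction with
  | mem w h =>
    rcases h with ⟨m, h⟩ | h
    · have e : (fun x => w (x + y)) = w := by
        funext x
        rw [h, h, hy]
      rw [e]
      exact Submodule.subset_span (Or.inl ⟨m, h⟩)
    · exact Submodule.span_mono subset_union_right (shift_md_mem h y)
  | zero => exact Submodule.zero_mem _
  | add v w _ _ hv hw => exact Submodule.add_mem _ hv hw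
  | smul c w _ hw => exact Submodule.smul_mem _ c hw

theorem shift_phi_add {φ : ℕ → V → V} (hφ : ∀ m i, SP (fun x => φ m x i)) {p : ℕ} (hp : 1 ≤ p)
    (j : Fin 3) (m : ℕ) (x : V) :
    φ m ((p : ℝ) • (x + Pi.single j (1 / (p : ℝ)))) = φ m ((p : ℝ) • x) := by
  have hp0 : (p : ℝ) ≠ 0 := by positivity
  rw [smul_add, shift_smul_single, mul_one_div_cancel hp0]
  funext i
  exact (hφ m i).per j _

theorem shift_phi_sub {φ : ℕ → V → V} (hφ : ∀ m i, SP (fun x => φ m x i)) {p : ℕ} (hp : 1 ≤ p)
    (j : Fin 3) (m : ℕ) (x : V) :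
    φ m ((p : ℝ) • (x + -Pi.single j (1 / (p : ℝ)))) = φ m ((p : ℝ) • x) := by
  have h := shift_phi_add hφ hp j m (x + -Pi.single j (1 / (p : ℝ)))
  rw [neg_add_cancel_right] at h
  exact h.symm

/-! ### Translations of the solutions -/

theorem shift_pd (f : V → ℝ) (j : Fin 3) (y x : V) :
    pd j (fun z => f (z + y)) x = pd j f (x + y) := by
  unfold pd
  rw [fderiv_comp_add_right]

theorem shift_uniR (ν : ℝ) (u : ℝ → V → V) (t : ℝ) (i : Fin 3) (y x : V) :
    uniR ν (fun t x => u t (x + y)) t i x = uniR ν u t i (x + y) := by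
  have e1 : ∀ j : Fin 3, pd j (fun z => u t (z + y) i) =
      fun x => pd j (fun z => u t z i) (x + y) := by
    intro j
    funext x
    exact shift_pd (fun z => u t z i) j y x
  unfold uniR dt
  simp only [e1]
  have e2 : ∀ j : Fin 3, pd j (fun x => pd j (fun z => u t z i) (x + y)) x =
      pd j (pd j (fun z => u t z i)) (x + y) := fun j => shift_pd _ j y x
  simp only [e2]

theorem shift_usp {Φ : Set (V → V)} {ν T : ℝ} {u : ℝ → V → V} (hu : IsPr Φ ν T u) {t : ℝ}
    (ht : t ∈ Ico 0 T) (i : Fin 3) : SP (fun x => u t x i) where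
  smooth := contDiff_slice (f := fun (t : ℝ) (x : V) => u t x i) (uni_comp hu.smooth i) ht
  per := fun j x => congrFun (hu.per t ht j x) i

theorem shift_R {Φ : Set (V → V)} {ν T : ℝ} {u : ℝ → V → V} (hu : IsPr Φ ν T u) {t : ℝ}
    (ht : t ∈ Ioo 0 T) (i : Fin 3) : SP (uniR ν u t i) := by
  have ht' : t ∈ Ico 0 T := ⟨ht.1.le, ht.2⟩
  have hd : SP (dt (fun s x => u s x i) t) :=
    uni_dt (uni_comp hu.smooth i) (fun s hs j x => congrFun (hu.per s hs j x) i) ht
  exact uni_sub (SP.add hd
    (SP.sum fun j _ => (shift_usp hu ht' j).mul ((shift_usp hu ht' i).pd j)))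
    (uni_smul ν (SP.sum fun j _ => ((shift_usp hu ht' i).pd j).pd j))

/-- the equation holds for the elements of the span -/
theorem shift_eq_span {Φ : Set (V → V)} (hΦ : ∀ w ∈ Φ, ∀ i, SP (fun x => w x i)) {ν T : ℝ}
    {u : ℝ → V → V} (hu : IsPr Φ ν T u) {t : ℝ} (ht : t ∈ Ioo 0 T) {w : V → V}
    (hw : w ∈ Submodule.span ℝ Φ) : ∑ i, ∫ x in cube, uniR ν u t i x * w x i = 0 := by
  induction hw using Submodule.span_induction with
  | mem w h => exact hu.eq t ht w h
  | zero =>
    refine Finset.sum_eq_zero fun i _ => ?_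
    simp
  | add v w hv' hw' hv hw =>
    have e : ∀ i, ∫ x in cube, uniR ν u t i x * (v + w) x i =
        (∫ x in cube, uniR ν u t i x * v x i) + ∫ x in cube, uniR ν u t i x * w x i := by
      intro i
      rw [← integral_add ((shift_R hu ht i).mul (shift_sp_span hΦ hv' i)).int
        ((shift_R hu ht i).mul (shift_sp_span hΦ hw' i)).int]
      refine integral_congr_ae (Eventually.of_forall fun x => ?_)
      show uniR ν u t i x * (v x i + w x i) = _
      rw [mul_add]
    rw [Finset.sum_congr rfl fun i _ => e i, Finset.sum_add_distrib, hv, hw, add_zero]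
  | smul c w _ hw =>
    have e : ∀ i, ∫ x in cube, uniR ν u t i x * (c • w) x i =
        c * ∫ x in cube, uniR ν u t i x * w x i := by
      intro i
      rw [← integral_const_mul]
      refine integral_congr_ae (Eventually.of_forall fun x => ?_)
      show uniR ν u t i x * (c * w x i) = c * (uniR ν u t i x * w x i)
      ring
    rw [Finset.sum_congr rfl fun i _ => e i, ← Finset.mul_sum, hw, mul_zero]

theorem s_shift (hI : S_int) : S_shift := by
  intro φ p hφ hp ν T u hu j
  set y : V := Pi.single j (1 / (p : ℝ)) with hy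
  have hΦ : ∀ w ∈ Fp φ p, ∀ i, SP (fun x => w x i) := fun w hw i => shift_sp_Fp hφ hw i
  refine ⟨?_, ?_, ?_, ?_, ?_⟩
  · have h : ContDiffOn ℝ ∞ (fun z : ℝ × V => ((z.1, z.2 + y) : ℝ × V)) (Ico 0 T ×ˢ univ) :=
      (contDiff_fst.prodMk (contDiff_snd.add contDiff_const)).contDiffOn
    exact hu.smooth.comp h fun z hz => ⟨hz.1, mem_univ _⟩
  · intro t ht i x
    show u t (x + Pi.single i 1 + y) = u t (x + y)
    rw [add_right_comm]
    exact hu.per t ht i (x + y)
  · intro t ht x
    have h := hu.divfree t ht (x + y)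
    rw [← h]
    refine Finset.sum_congr rfl fun i _ => ?_
    exact shift_pd (fun z => u t z i) i y x
  · intro t ht ε hε
    obtain ⟨w, hw, h⟩ := hu.mem t ht ε hε
    refine ⟨fun x => w (x + y), shift_span (fun m x => shift_phi_add hφ hp j m x) hw, ?_⟩
    refine lt_of_le_of_lt (le_of_eq ?_) h
    refine Finset.sum_congr rfl fun i _ => ?_
    have hg : SP (fun x => (u t x i - w x i) * (u t x i - w x i)) :=
      (uni_sub (shift_usp hu ht i) (shift_sp_span hΦ hw i)).mul
        (uni_sub (shift_usp hu ht i) (shift_sp_span hΦ hw i))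
    have h1 := hI.2 _ hg y
    simp only [← pow_two] at h1
    exact h1
  · intro t ht w hw
    have hw' : (fun x => w (x + -y)) ∈ Submodule.span ℝ (Fp φ p) :=
      shift_span (fun m x => shift_phi_sub hφ hp j m x) (Submodule.subset_span hw)
    have h1 := shift_eq_span hΦ hu ht hw'
    have h2 : ∀ i, ∫ x in cube, uniR ν (fun t x => u t (x + y)) t i x * w x i =
        ∫ x in cube, uniR ν u t i x * w (x + -y) i := by
      intro i
      have h3 := hI.2 _ ((shift_R hu ht i).mul (shift_sp_span hΦ hw' i)) y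
      rw [← h3]
      refine integral_congr_ae (Eventually.of_forall fun x => ?_)
      show uniR ν (fun t x => u t (x + y)) t i x * w x i =
        uniR ν u t i (x + y) * w (x + y + -y) i
      rw [shift_uniR, add_neg_cancel_right]
    rw [← Finset.sum_congr rfl fun i _ => h2 i] at h1
    exact h1

end Pool.Agent.H226.GB
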