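import Pool.Agent.H226.GB.Spec8
import Pool.Agent.H226.GB.UniP
import Pool.Agent.H226.GB.Shift

/-!
Local existence for all smooth data of the small space (project GB of helper226, task GB47 LocS, by
helper289).
-/

set_option autoImplicit false

open MeasureTheory Set Filter Topology
open scoped ContDiff ENNReal
open H459R3.NS

namespace Pool.Agent.H226.GB

theorem locs_sp (hb : Basis phi cc pp gg) (p : ℕ) : ∀ w ∈ Sc p, ∀ i, SP (fun x => w x i) := by
  rintro w ⟨m, hm⟩ i
  have h := shift_sp_phi (φ := phi) hb.sp p m i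
  simp_rw [hm]
  exact h

/-- an element of the closed span is determined by its products with the fields -/
theorem locs_unique (hb : Basis phi cc pp gg) (p : ℕ) {f G : V → V}
    (hf : ∀ i, SP (fun x => f x i)) (hG : ∀ i, SP (fun x => G x i)) (hfs : InSpan (Sc p) f)
    (hGs : InSpan (Sc p) G)
    (h : ∀ m, ∑ i, ∫ x in cube, (f x i - G x i) * phi m ((p : ℝ) • x) i = 0) : G = f := by
  have hd : ∀ i, SP (fun x => f x i - G x i) := fun i => uni_sub (hf i) (hG i)
  have h0 : ∀ w ∈ Sc p, ∑ i, ∫ x in cube, (f x i - G x i) * w x i = 0 := by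
    rintro w ⟨m, hm⟩
    simp_rw [hm]
    exact h m
  have e1 := uniP_dens (locs_sp hb p) (G := fun i x => f x i - G x i) hd hf h0 hfs
  have e2 := uniP_dens (locs_sp hb p) (G := fun i x => f x i - G x i) hd hG h0 hGs
  have e3 : ∀ i, ∫ x in cube, (f x i - G x i) ^ 2 =
      (∫ x in cube, (f x i - G x i) * f x i) - ∫ x in cube, (f x i - G x i) * G x i := by
    intro i
    rw [← integral_sub ((hd i).mul (hf i)).int ((hd i).mul (hG i)).int]
    refine integral_congr_ae (Eventually.of_forall fun x => ?_)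
    simp only
    ring
  have e4 : ∑ i, ∫ x in cube, (f x i - G x i) ^ 2 = 0 := by
    rw [Finset.sum_congr rfl fun i _ => e3 i, Finset.sum_sub_distrib, e1, e2, sub_zero]
  funext x
  funext i
  have a1 := (Finset.sum_eq_zero_iff_of_nonneg fun i _ =>
      integral_nonneg (μ := volume.restrict cube)
        (f := fun x => (f x i - G x i) ^ 2) fun x => by positivity).1 e4 i
      (Finset.mem_univ i)
  exact (sub_eq_zero.1 (uni_zero (hd i) a1 x)).symm

/-- **Task GB47.** -/
theorem s_locS (h1 : S_prS) (h2 : S_locG) (h3 : S_scl) (hb : Basis phi cc pp gg) : S_locS := by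
  intro p v₀ hp hv hs ν hν
  obtain ⟨G, hG, -, hGs, horth, b, hbr, hsum⟩ := h1 p v₀ hp hv
  have hGv : G = v₀ := locs_unique hb p hv hG hs hGs horth
  subst hGv
  have hp0 : (0 : ℝ) < p := by exact_mod_cast hp
  obtain ⟨τ, hτ, u, hu, hu0⟩ := h2 (ν * p ^ 2) (fun m => (p : ℝ) * b m) (by positivity)
    (fun s => by
      obtain ⟨K, hK⟩ := hbr s
      refine ⟨p * K, fun m => ?_⟩
      rw [abs_mul, abs_of_pos hp0]
      have := mul_le_mul_of_nonneg_left (hK m) hp0.le
      linarith)
  refine ⟨τ, hτ, _, h3 p ν τ u hp hu, ?_⟩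
  funext x
  funext i
  have e1 := (hu0 ((p : ℝ) • x) i).mul_left ((p : ℝ)⁻¹)
  have e2 : (fun m => (p : ℝ)⁻¹ * ((p : ℝ) * b m * phi m ((p : ℝ) • x) i)) =
      fun m => b m * phi m ((p : ℝ) • x) i := by
    funext m
    field_simp
  rw [e2] at e1
  show (p : ℝ)⁻¹ * u 0 ((p : ℝ) • x) i = G x i
  exact e1.unique (hsum x i)

end Pool.Agent.H226.GB
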