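import Pool.Agent.H226.GB.Spec7
import Pool.Agent.H226.GB.Up
import Pool.Agent.H226.GB.Shift

/-!
The orthogonal projection onto the closed span of `Fp phi p` is bounded in Sobolev spaces.
-/

set_option autoImplicit false

open MeasureTheory Set Filter Topology
open scoped ContDiff ENNReal
open H459R3.NS

namespace Pool.Agent.H226.GB

theorem ProjP_pd_add {f g : V → ℝ} (hf : SP f) (hg : SP g) (j : Fin 3) (x : V) :
    pd j (fun y => f y + g y) x = pd j f x + pd j g x := by
  unfold pd
  have h : HasFDerivAt (fun y => f y + g y) _ x :=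
    (hf.diff x).hasFDerivAt.add (hg.diff x).hasFDerivAt
  rw [h.fderiv]
  rfl

/-- Cauchy-Schwarz -/
theorem ProjP_cs {a b : V → ℝ} (ha : SP a) (hb : SP b) :
    (∫ x in cube, a x * b x) ^ 2 ≤ (∫ x in cube, a x ^ 2) * ∫ x in cube, b x ^ 2 := by
  have h : ∀ t : ℝ, 0 ≤ (∫ x in cube, a x ^ 2) * (t * t) + (-2 * ∫ x in cube, a x * b x) * t
      + ∫ x in cube, b x ^ 2 := by
    intro t
    have e : ∫ x in cube, (t * a x - b x) ^ 2 = (∫ x in cube, a x ^ 2) * (t * t)
        + (-2 * ∫ x in cube, a x * b x) * t + ∫ x in cube, b x ^ 2 := by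
      have e1 : ∀ x, (t * a x - b x) ^ 2 = (t * t * a x ^ 2 + (-2 * t) * (a x * b x)) + b x ^ 2 := by
        intro x
        ring
      simp_rw [e1]
      have i1 : IntegrableOn (fun x => t * t * a x ^ 2) cube := (uni_sq ha).const_mul _
      have i2 : IntegrableOn (fun x => (-2 * t) * (a x * b x)) cube := (ha.mul hb).int.const_mul _
      have i3 : IntegrableOn (fun x => b x ^ 2) cube := uni_sq hb
      have i12 : IntegrableOn (fun x => t * t * a x ^ 2 + (-2 * t) * (a x * b x)) cube := i1.add i2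
      rw [integral_add i12 i3, integral_add i1 i2, integral_const_mul, integral_const_mul]
      ring
    rw [← e]
    exact integral_nonneg fun x => sq_nonneg _
  have h2 := discrim_le_zero h
  unfold discrim at h2
  nlinarith

/-- convergence in `L²` implies weak convergence -/
theorem ProjP_conv {G : V → V} {S : ℕ → V → V} (hG : ∀ i, SP (fun x => G x i))
    (hS : ∀ L i, SP (fun x => S L x i))
    (hc : ∀ ε > 0, ∃ L₀, ∀ L, L₀ ≤ L → ∑ i, ∫ x in cube, (G x i - S L x i) ^ 2 < ε)
    {c : V → ℝ} (hcs : SP c) (i : Fin 3) :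
    Tendsto (fun L => ∫ x in cube, S L x i * c x) atTop (𝓝 (∫ x in cube, G x i * c x)) := by
  rw [Metric.tendsto_atTop]
  intro ε hε
  set B := ∫ x in cube, c x ^ 2 with hB
  have hB0 : 0 ≤ B := integral_nonneg fun x => sq_nonneg _
  obtain ⟨L₀, h⟩ := hc (ε ^ 2 / (B + 1)) (by positivity)
  refine ⟨L₀, fun L hL => ?_⟩
  have h1 := h L hL
  have h2 : ∫ x in cube, (G x i - S L x i) ^ 2 < ε ^ 2 / (B + 1) := by
    refine lt_of_le_of_lt ?_ h1
    exact Finset.single_le_sum (f := fun i => ∫ x in cube, (G x i - S L x i) ^ 2)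
      (fun j _ => integral_nonneg fun x => sq_nonneg _) (Finset.mem_univ i)
  have h3 := ProjP_cs (uni_sub (hG i) (hS L i)) hcs
  have h4 : ∫ x in cube, (G x i - S L x i) * c x =
      (∫ x in cube, G x i * c x) - ∫ x in cube, S L x i * c x := by
    have e1 : ∀ x, (G x i - S L x i) * c x = G x i * c x - S L x i * c x := by
      intro x
      ring
    simp_rw [e1]
    exact integral_sub ((hG i).mul hcs).int ((hS L i).mul hcs).int
  rw [h4, ← hB] at h3
  rw [Real.dist_eq, abs_sub_comm]
  have h5 : ((∫ x in cube, G x i * c x) - ∫ x in cube, S L x i * c x) ^ 2 < ε ^ 2 := by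
    have h6 : (∫ x in cube, (G x i - S L x i) ^ 2) * B ≤ ε ^ 2 / (B + 1) * B := by
      have := h2.le
      gcongr
    have h7 : ε ^ 2 / (B + 1) * B < ε ^ 2 := by
      have hB1 : 0 < B + 1 := by linarith
      rw [div_mul_eq_mul_div, div_lt_iff₀ hB1]
      have : 0 < ε ^ 2 := by positivity
      nlinarith
    linarith
  have h8 := abs_lt_of_sq_lt_sq h5 hε.le
  exact h8

/-- `1/p`-periodic functions are orthogonal to the modes with frequency not divisible by `p` -/
theorem ProjP_mode (hI : S_int) {H : V → ℝ} (hH : SP H) {p : ℕ} (hp : 1 ≤ p)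
    (hper : ∀ (j : Fin 3) (x : V), H (x + Pi.single j (1 / (p : ℝ))) = H x) (k : K3)
    (j : Fin 3) (hk : ¬((p : ℤ) ∣ k j)) :
    ∫ x in cube, H x * Real.cos (2 * Real.pi * ph k x) = 0 ∧
    ∫ x in cube, H x * Real.sin (2 * Real.pi * ph k x) = 0 := by
  have hp0 : (p : ℝ) ≠ 0 := by positivity
  have hg : SP (fun y => H ((p : ℝ)⁻¹ • y)) := by
    refine ⟨hH.smooth.comp (contDiff_const_smul ((p : ℝ)⁻¹)), ?_⟩
    intro l y
    show H ((p : ℝ)⁻¹ • (y + Pi.single l 1)) = H ((p : ℝ)⁻¹ • y)
    rw [smul_add, shift_smul_single, mul_one, ← one_div]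
    exact hper l _
  have h := up_mode hI hg hp0 k j hk
  have e : ∀ x : V, (p : ℝ)⁻¹ • ((p : ℝ) • x) = x := by
    intro x
    rw [smul_smul, inv_mul_cancel₀ hp0, one_smul]
  simp only [e] at h
  exact h

/-- the limit of the Sobolev norms -/
theorem ProjP_hs {G : V → V} {S : ℕ → V → V} (hG : ∀ i, SP (fun x => G x i))
    (hS : ∀ L i, SP (fun x => S L x i))
    (hc : ∀ ε > 0, ∃ L₀, ∀ L, L₀ ≤ L → ∑ i, ∫ x in cube, (G x i - S L x i) ^ 2 < ε)
    (s : ℝ) (B : ℝ≥0∞) (hB : ∀ L, hs s (S L) ≤ B) : hs s G ≤ B := by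
  have hfq : ∀ k : Fin 3 → ℤ, Tendsto (fun L => fq (S L) k) atTop (𝓝 (fq G k)) := by
    intro k
    unfold fq
    refine tendsto_finsetSum _ fun i _ => ?_
    have h1 := ProjP_conv hG hS hc (up_cos k) i
    have h2 := ProjP_conv hG hS hc (up_sin k) i
    exact (h1.pow 2).add (h2.pow 2)
  unfold hs
  rw [ENNReal.tsum_eq_iSup_sum]
  refine iSup_le fun F => ?_
  have h3 : Tendsto (fun L => ∑ k ∈ F, ENNReal.ofReal ((1 + ∑ j, (k j : ℝ) ^ 2) ^ s * fq (S L) k)) atTop
      (𝓝 (∑ k ∈ F, ENNReal.ofReal ((1 + ∑ j, (k j : ℝ) ^ 2) ^ s * fq G k))) := by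
    refine tendsto_finsetSum _ fun k _ => ?_
    exact (ENNReal.continuous_ofReal.tendsto _).comp ((hfq k).const_mul _)
  refine le_of_tendsto' h3 fun L => ?_
  exact (ENNReal.sum_le_tsum F).trans (hB L)

theorem s_projP (h1 : S_hs) (h2 : S_hsb) (h3 : S_hfin) (h4 : S_stat) (h5 : S_avg) (hI : S_int)
    (hb : Basis phi cc pp gg) : S_projP := by
  intro p hp
  have hp0 : (p : ℝ) ≠ 0 := by positivity
  have hcon : ∀ s : ℝ, ∃ C1 C2 : ℝ, 0 ≤ s → (0 ≤ C1 ∧ (∀ (d : ℕ → ℝ) (M : ℕ),
      hs s (fun x i => ∑ m ∈ Finset.range M, d m * phi m ((p : ℝ) • x) i)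
        ≤ ENNReal.ofReal (C1 * ∑ m ∈ Finset.range M, (RR m : ℝ) ^ (4 * s) * d m ^ 2)) ∧
      0 ≤ C2 ∧ ∀ f : V → V,
      (∀ i, SP (fun x => f x i)) → ∀ M : ℕ, ENNReal.ofReal (∑ m ∈ Finset.range M,
        (RR m : ℝ) ^ (4 * s) * (∑ i, ∫ x in cube, f x i * phi m ((p : ℝ) • x) i) ^ 2)
        ≤ ENNReal.ofReal C2 * hs s f) := by
    intro s
    by_cases hs0 : 0 ≤ s
    · obtain ⟨C1, a1, b1⟩ := h1 p s hp hs0
      obtain ⟨C2, a2, b2⟩ := h2 p s hp hs0
      exact ⟨C1, C2, fun _ => ⟨a1, b1, a2, b2⟩⟩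
    · exact ⟨0, 0, fun h => absurd h hs0⟩
  choose C1 C2 hC using hcon
  refine ⟨fun s => 2 + 2 * (C1 s * C2 s), fun f hf hdf => ?_⟩
  obtain ⟨h, hh, hdh, hper, hhw, hspan, hhs⟩ := h5 p f hp hf hdf
  -- the fields
  have hphi : ∀ m i, SP (fun x => phi m ((p : ℝ) • x) i) := shift_sp_phi hb.sp p
  -- the coefficients
  set b : ℕ → ℝ := fun m => ∑ i, ∫ x in cube, f x i * phi m ((p : ℝ) • x) i with hbdef
  have hrap : ∀ s : ℕ, ∃ K : ℝ, ∀ m, (RR m : ℝ) ^ s * |b m| ≤ K := by
    intro s
    obtain ⟨-, -, a2, b2⟩ := hC ((s : ℝ) / 2) (by positivity)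
    have hfin : ENNReal.ofReal (C2 ((s : ℝ) / 2)) * hs ((s : ℝ) / 2) f ≠ ⊤ :=
      ENNReal.mul_ne_top ENNReal.ofReal_ne_top (h3.1 f _ hf).ne
    set B := (ENNReal.ofReal (C2 ((s : ℝ) / 2)) * hs ((s : ℝ) / 2) f).toReal with hB
    refine ⟨Real.sqrt B, fun m => ?_⟩
    have h6 := b2 f hf (m + 1)
    rw [ENNReal.ofReal_le_iff_le_toReal hfin, ← hB] at h6
    have h7 : (RR m : ℝ) ^ (4 * ((s : ℝ) / 2)) * b m ^ 2 ≤ B := by
      refine le_trans ?_ h6
      exact Finset.single_le_sum
        (f := fun m => (RR m : ℝ) ^ (4 * ((s : ℝ) / 2)) * (∑ i, ∫ x in cube, f x i * phi m ((p : ℝ) • x) i) ^ 2)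
        (fun j _ => by positivity) (Finset.mem_range.2 (Nat.lt_succ_self m))
    have h8 : (RR m : ℝ) ^ (4 * ((s : ℝ) / 2)) = ((RR m : ℝ) ^ s) ^ 2 := by
      have e : 4 * ((s : ℝ) / 2) = ((s * 2 : ℕ) : ℝ) := by push_cast; ring
      rw [e, Real.rpow_natCast, pow_mul]
    rw [h8] at h7
    apply Real.le_sqrt_of_sq_le
    rw [mul_pow, sq_abs]
    exact h7
  obtain ⟨G, hG, hdG, hsum, hlim⟩ := h4 p b hp hrap
  set S : ℕ → V → V := fun L x i => ∑ m ∈ Finset.range L, b m * phi m ((p : ℝ) • x) i with hSdef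
  have hS : ∀ L i, SP (fun x => S L x i) := by
    intro L i
    exact SP.sum fun m _ => uni_smul (b m) (hphi m i)
  -- `G` is `1/p`-periodic
  have hGper : ∀ (j : Fin 3) (x : V), G (x + Pi.single j (1 / (p : ℝ))) = G x := by
    intro j x
    funext i
    have e1 := hsum (x + Pi.single j (1 / (p : ℝ))) i
    simp only [shift_phi_add hb.sp hp] at e1
    exact e1.unique (hsum x i)
  -- `f - g = h - G`
  have hfg : ∀ x i, f x i - (f x - h x + G x) i = h x i - G x i := by
    intro x i
    rw [Pi.add_apply, Pi.sub_apply]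
    ring
  refine ⟨fun x => f x - h x + G x, ?_, ?_, ?_, ?_, ?_⟩
  · intro i
    exact SP.add (uni_sub (hf i) (hh i)) (hG i)
  · intro x
    have e : ∀ i, pd i (fun y => (f y - h y + G y) i) x =
        pd i (fun y => f y i) x - pd i (fun y => h y i) x + pd i (fun y => G y i) x := by
      intro i
      have e1 := ProjP_pd_add (uni_sub (hf i) (hh i)) (hG i) i x
      have e2 := uni_pd_sub (hf i) (hh i) i x
      rw [← e2]
      exact e1
    rw [Finset.sum_congr rfl fun i _ => e i, Finset.sum_add_distrib, Finset.sum_sub_distrib, hdf, hdh, hdG]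
    ring
  · -- in the closed span
    intro ε hε
    obtain ⟨w, hw, hwε⟩ := hspan (ε / 4) (by linarith)
    obtain ⟨L₀, hL⟩ := hlim (ε / 4) (by linarith)
    have hL0 := hL L₀ le_rfl
    have hwsp := shift_sp_span (fun w hw i => shift_sp_md hw i) hw
    refine ⟨w + S L₀, ?_, ?_⟩
    · refine Submodule.add_mem _ (Submodule.span_mono subset_union_right hw) ?_
      have e : S L₀ = ∑ m ∈ Finset.range L₀, b m • (fun x => phi m ((p : ℝ) • x)) := by
        funext x i
        simp only [hSdef, Finset.sum_apply, Pi.smul_apply, smul_eq_mul]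
      rw [e]
      refine Submodule.sum_mem _ fun m _ => Submodule.smul_mem _ _ (Submodule.subset_span ?_)
      exact Or.inl ⟨m, fun x => rfl⟩
    · have e : ∀ i, ∫ x in cube, ((f x - h x + G x) i - (w + S L₀) x i) ^ 2 ≤
          2 * (∫ x in cube, ((f x - h x) i - w x i) ^ 2) + 2 * ∫ x in cube, (G x i - S L₀ x i) ^ 2 := by
        intro i
        have i1 : IntegrableOn (fun x => ((f x - h x) i - w x i) ^ 2) cube :=
          uni_sq (uni_sub (uni_sub (hf i) (hh i)) (hwsp i))
        have i2 : IntegrableOn (fun x => (G x i - S L₀ x i) ^ 2) cube :=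
          uni_sq (uni_sub (hG i) (hS L₀ i))
        rw [← integral_const_mul, ← integral_const_mul, ← integral_add (i1.const_mul 2) (i2.const_mul 2)]
        refine integral_mono ?_ ((i1.const_mul 2).add (i2.const_mul 2)) ?_
        · exact uni_sq (uni_sub (SP.add (uni_sub (hf i) (hh i)) (hG i)) (SP.add (hwsp i) (hS L₀ i)))
        · intro x
          show ((f x - h x + G x) i - (w + S L₀) x i) ^ 2 ≤
            2 * ((f x - h x) i - w x i) ^ 2 + 2 * (G x i - S L₀ x i) ^ 2
          rw [Pi.add_apply, Pi.add_apply, Pi.add_apply]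
          nlinarith [sq_nonneg (((f x - h x) i - w x i) - (G x i - S L₀ x i))]
      refine lt_of_le_of_lt (Finset.sum_le_sum fun i _ => e i) ?_
      rw [Finset.sum_add_distrib, ← Finset.mul_sum, ← Finset.mul_sum]
      have hL1 : ∑ i, ∫ x in cube, (G x i - S L₀ x i) ^ 2 < ε / 4 := hL0
      have hw1 : ∑ i, ∫ x in cube, ((f x - h x) i - w x i) ^ 2 < ε / 4 := hwε
      linarith
  · -- orthogonality
    intro w hw
    have e0 : ∀ i, ∫ x in cube, (f x i - (f x - h x + G x) i) * w x i =
        ∫ x in cube, (h x i - G x i) * w x i := by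
      intro i
      refine integral_congr_ae (ae_of_all _ fun x => ?_)
      show (f x i - (f x - h x + G x) i) * w x i = (h x i - G x i) * w x i
      rw [hfg x i]
    rw [Finset.sum_congr rfl fun i _ => e0 i]
    rcases hw with ⟨m, hw⟩ | ⟨k, a, ⟨j, hj⟩, -, hw⟩
    · have hw' : ∀ x i, w x i = phi m ((p : ℝ) • x) i := fun x i => by rw [hw x]
      simp_rw [hw']
      have e1 : ∀ i, ∫ x in cube, (h x i - G x i) * phi m ((p : ℝ) • x) i =
          (∫ x in cube, h x i * phi m ((p : ℝ) • x) i) - ∫ x in cube, G x i * phi m ((p : ℝ) • x) i := by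
        intro i
        rw [← integral_sub ((hh i).mul (hphi m i)).int ((hG i).mul (hphi m i)).int]
        refine integral_congr_ae (ae_of_all _ fun x => ?_)
        show (h x i - G x i) * phi m ((p : ℝ) • x) i = _
        ring
      rw [Finset.sum_congr rfl fun i _ => e1 i, Finset.sum_sub_distrib]
      have e2 : ∑ i, ∫ x in cube, h x i * phi m ((p : ℝ) • x) i = b m :=
        hhw (fun x => phi m ((p : ℝ) • x)) (hphi m) (fun j x => shift_phi_add hb.sp hp j m x)
      have e3 : Tendsto (fun L => ∑ i, ∫ x in cube, S L x i * phi m ((p : ℝ) • x) i) atTop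
          (𝓝 (∑ i, ∫ x in cube, G x i * phi m ((p : ℝ) • x) i)) :=
        tendsto_finsetSum _ fun i _ => ProjP_conv hG hS hlim (hphi m i) i
      have e4 : ∀ L, m < L → ∑ i, ∫ x in cube, S L x i * phi m ((p : ℝ) • x) i = b m := by
        intro L hmL
        have f1 : ∀ i, ∫ x in cube, S L x i * phi m ((p : ℝ) • x) i =
            ∑ n ∈ Finset.range L, b n * ∫ x in cube, phi n x i * phi m x i := by
          intro i
          have f2 : ∀ x, S L x i * phi m ((p : ℝ) • x) i =
              ∑ n ∈ Finset.range L, b n * (phi n ((p : ℝ) • x) i * phi m ((p : ℝ) • x) i) := by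
            intro x
            simp only [hSdef]
            rw [Finset.sum_mul]
            refine Finset.sum_congr rfl fun n _ => ?_
            ring
          simp_rw [f2]
          rw [integral_finsetSum _ fun n _ => ((hphi n i).mul (hphi m i)).int.const_mul _]
          refine Finset.sum_congr rfl fun n _ => ?_
          rw [integral_const_mul]
          have f3 := hI.1 (fun x => phi n x i * phi m x i) ((hb.sp n i).mul (hb.sp m i)) p hp
          rw [← f3]
        rw [Finset.sum_congr rfl fun i _ => f1 i, Finset.sum_comm]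
        have f4 : ∀ n, ∑ i, b n * ∫ x in cube, phi n x i * phi m x i = if n = m then b n else 0 := by
          intro n
          rw [← Finset.mul_sum]
          have := hb.on n m
          unfold ip at this
          rw [this]
          split_ifs <;> simp
        rw [Finset.sum_congr rfl fun n _ => f4 n, Finset.sum_ite_eq' , if_pos (Finset.mem_range.2 hmL)]
      have e5 : ∑ i, ∫ x in cube, G x i * phi m ((p : ℝ) • x) i = b m := by
        refine tendsto_nhds_unique e3 (tendsto_const_nhds.congr' ?_)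
        filter_upwards [eventually_gt_atTop m] with L hmL
        exact (e4 L hmL).symm
      rw [e2, e5, sub_self]
    · refine Finset.sum_eq_zero fun i _ => ?_
      have hH : SP (fun x => h x i - G x i) := uni_sub (hh i) (hG i)
      have hHper : ∀ (j : Fin 3) (x : V), (fun x => h x i - G x i) (x + Pi.single j (1 / (p : ℝ)))
          = (fun x => h x i - G x i) x := by
        intro j x
        show h (x + Pi.single j (1 / (p : ℝ))) i - G (x + Pi.single j (1 / (p : ℝ))) i = h x i - G x i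
        rw [hper, hGper]
      have hm := ProjP_mode hI hH hp hHper k j hj
      rcases hw with hw | hw
      · have e1 : ∀ x, (h x i - G x i) * w x i =
            (h x i - G x i) * Real.cos (2 * Real.pi * ph k x) * a i := by
          intro x
          rw [hw x, Pi.smul_apply, smul_eq_mul]
          unfold ph
          ring
        simp_rw [e1]
        rw [integral_mul_const, hm.1, zero_mul]
      · have e1 : ∀ x, (h x i - G x i) * w x i =
            (h x i - G x i) * Real.sin (2 * Real.pi * ph k x) * a i := by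
          intro x
          rw [hw x, Pi.smul_apply, smul_eq_mul]
          unfold ph
          ring
        simp_rw [e1]
        rw [integral_mul_const, hm.2, zero_mul]
  · -- Sobolev norms
    intro s hs0
    obtain ⟨a1, b1, a2, b2⟩ := hC s hs0
    have g1 : hs s G ≤ ENNReal.ofReal (C1 s) * (ENNReal.ofReal (C2 s) * hs s f) := by
      refine ProjP_hs hG hS hlim s _ fun L => ?_
      refine (b1 b L).trans ?_
      rw [ENNReal.ofReal_mul a1]
      gcongr
      exact b2 f hf L
    have g2 := h3.2 (fun x => f x - h x) G s (fun i => uni_sub (hf i) (hh i)) hG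
    refine g2.trans ?_
    have g3 := hhs s
    calc 2 * hs s (fun x => f x - h x) + 2 * hs s G
        ≤ 2 * hs s f + 2 * (ENNReal.ofReal (C1 s) * (ENNReal.ofReal (C2 s) * hs s f)) := by
          gcongr
      _ = ENNReal.ofReal (2 + 2 * (C1 s * C2 s)) * hs s f := by
          rw [ENNReal.ofReal_add (by norm_num) (by positivity), ENNReal.ofReal_mul (by norm_num),
            ENNReal.ofReal_mul a1]
          have : ENNReal.ofReal 2 = 2 := by norm_num
          rw [this]
          ring

end Pool.Agent.H226.GB
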