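import Pool.Agent.H226.GB.Spec8
import Pool.Agent.H226.GB.ProjP

/-!
The orthogonal projection onto the closed span of the rescaled fields preserves smoothness (extracted from
the proof of `s_projP` in `ProjP.lean`).
-/

set_option autoImplicit false

open MeasureTheory Set Filter Topology
open scoped ContDiff ENNReal
open H459R3.NS

namespace Pool.Agent.H226.GB

/-- the coefficients are rapidly decreasing -/
theorem prs_rap (h2 : S_hsb) (h3 : S_hfin) (p : ℕ) (hp : 1 ≤ p) (f : V → V)
    (hf : ∀ i, SP (fun x => f x i)) (s : ℕ) :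
    ∃ K : ℝ, ∀ m, (RR m : ℝ) ^ s * |∑ i, ∫ x in cube, f x i * phi m ((p : ℝ) • x) i| ≤ K := by
  obtain ⟨C2, a2, b2⟩ := h2 p ((s : ℝ) / 2) hp (by positivity)
  have hfin : ENNReal.ofReal C2 * hs ((s : ℝ) / 2) f ≠ ⊤ :=
    ENNReal.mul_ne_top ENNReal.ofReal_ne_top (h3.1 f _ hf).ne
  set B := (ENNReal.ofReal C2 * hs ((s : ℝ) / 2) f).toReal with hB
  refine ⟨Real.sqrt B, fun m => ?_⟩
  have h6 := b2 f hf (m + 1)
  rw [ENNReal.ofReal_le_iff_le_toReal hfin, ← hB] at h6
  have h7 : (RR m : ℝ) ^ (4 * ((s : ℝ) / 2)) *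
      (∑ i, ∫ x in cube, f x i * phi m ((p : ℝ) • x) i) ^ 2 ≤ B := by
    refine le_trans ?_ h6
    exact Finset.single_le_sum
      (f := fun m => (RR m : ℝ) ^ (4 * ((s : ℝ) / 2)) *
        (∑ i, ∫ x in cube, f x i * phi m ((p : ℝ) • x) i) ^ 2)
      (fun j _ => by positivity) (Finset.mem_range.2 (Nat.lt_succ_self m))
  have h8 : (RR m : ℝ) ^ (4 * ((s : ℝ) / 2)) = ((RR m : ℝ) ^ s) ^ 2 := by
    have e : 4 * ((s : ℝ) / 2) = ((s * 2 : ℕ) : ℝ) := by push_cast; ring
    rw [e, Real.rpow_natCast, pow_mul]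
  rw [h8] at h7
  apply Real.le_sqrt_of_sq_le
  rw [mul_pow, sq_abs]
  exact h7

theorem s_prS (h2 : S_hsb) (h3 : S_hfin) (h4 : S_stat) (hI : S_int) (hb : Basis phi cc pp gg) :
    S_prS := by
  intro p f hp hf
  -- the fields
  have hphi : ∀ m i, SP (fun x => phi m ((p : ℝ) • x) i) := shift_sp_phi hb.sp p
  -- the coefficients
  set b : ℕ → ℝ := fun m => ∑ i, ∫ x in cube, f x i * phi m ((p : ℝ) • x) i with hbdef
  have hrap : ∀ s : ℕ, ∃ K : ℝ, ∀ m, (RR m : ℝ) ^ s * |b m| ≤ K :=
    fun s => prs_rap h2 h3 p hp f hf s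
  obtain ⟨G, hG, hdG, hsum, hlim⟩ := h4 p b hp hrap
  set S : ℕ → V → V := fun L x i => ∑ m ∈ Finset.range L, b m * phi m ((p : ℝ) • x) i with hSdef
  have hS : ∀ L i, SP (fun x => S L x i) := by
    intro L i
    exact SP.sum fun m _ => uni_smul (b m) (hphi m i)
  refine ⟨G, hG, hdG, ?_, ?_, b, hrap, hsum⟩
  · -- in the closed span
    intro ε hε
    obtain ⟨L₀, hL⟩ := hlim ε hε
    refine ⟨S L₀, ?_, hL L₀ le_rfl⟩
    have e : S L₀ = ∑ m ∈ Finset.range L₀, b m • (fun x => phi m ((p : ℝ) • x)) := by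
      funext x i
      simp only [hSdef, Finset.sum_apply, Pi.smul_apply, smul_eq_mul]
    rw [e]
    refine Submodule.sum_mem _ fun m _ => Submodule.smul_mem _ _ (Submodule.subset_span ?_)
    exact ⟨m, fun x => rfl⟩
  · -- orthogonality
    intro m
    have e1 : ∀ i, ∫ x in cube, (f x i - G x i) * phi m ((p : ℝ) • x) i =
        (∫ x in cube, f x i * phi m ((p : ℝ) • x) i) - ∫ x in cube, G x i * phi m ((p : ℝ) • x) i := by
      intro i
      rw [← integral_sub ((hf i).mul (hphi m i)).int ((hG i).mul (hphi m i)).int]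
      refine integral_congr_ae (ae_of_all _ fun x => ?_)
      show (f x i - G x i) * phi m ((p : ℝ) • x) i = _
      ring
    rw [Finset.sum_congr rfl fun i _ => e1 i, Finset.sum_sub_distrib]
    have e2 : ∑ i, ∫ x in cube, f x i * phi m ((p : ℝ) • x) i = b m := rfl
    have e3 : Tendsto (fun L => ∑ i, ∫ x in cube, S L x i * phi m ((p : ℝ) • x) i) atTop
        (𝓝 (∑ i, ∫ x in cube, G x i * phi m ((p : ℝ) • x) i)) :=
      tendsto_finsetSum _ fun i _ => ProjP_conv hG hS hlim (hphi m i) i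
    have e4 : ∀ L, m < L → ∑ i, ∫ x in cube, S L x i * phi m ((p : ℝ) • x) i = b m := by
      intro L hmL
      have f1 : ∀ i, ∫ x in cube, S L x i * phi m ((p : ℝ) • x) i =
          ∑ n ∈ Finset.range L, b n * ∫ x in cube, phi n x i * phi m x i := by
        intro i
        have f2 : ∀ x, S L x i * phi m ((p : ℝ) • x) i =
            ∑ n ∈ Finset.range L, b n * (phi n ((p : ℝ) • x) i * phi m ((p : ℝ) • x) i) := by
          intro x
          simp only [hSdef]
          rw [Finset.sum_mul]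
          refine Finset.sum_congr rfl fun n _ => ?_
          ring
        simp_rw [f2]
        rw [integral_finsetSum _ fun n _ => ((hphi n i).mul (hphi m i)).int.const_mul _]
        refine Finset.sum_congr rfl fun n _ => ?_
        rw [integral_const_mul]
        have f3 := hI.1 (fun x => phi n x i * phi m x i) ((hb.sp n i).mul (hb.sp m i)) p hp
        rw [← f3]
      rw [Finset.sum_congr rfl fun i _ => f1 i, Finset.sum_comm]
      have f4 : ∀ n, ∑ i, b n * ∫ x in cube, phi n x i * phi m x i = if n = m then b n else 0 := by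
        intro n
        rw [← Finset.mul_sum]
        have := hb.on n m
        unfold ip at this
        rw [this]
        split_ifs <;> simp
      rw [Finset.sum_congr rfl fun n _ => f4 n, Finset.sum_ite_eq' , if_pos (Finset.mem_range.2 hmL)]
    have e5 : ∑ i, ∫ x in cube, G x i * phi m ((p : ℝ) • x) i = b m := by
      refine tendsto_nhds_unique e3 (tendsto_const_nhds.congr' ?_)
      filter_upwards [eventually_gt_atTop m] with L hmL
      exact (e4 L hmL).symm
    rw [e2, e5, sub_self]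

end Pool.Agent.H226.GB
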