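import Pool.Agent.H226.GB.Spec7
import Pool.Agent.H226.GB.Up
import Pool.Agent.H226.GB.Loc3

/-!
Finiteness of the Sobolev norms of smooth fields, and smooth series of the basis fields.
Written by seat helper588.
-/

set_option autoImplicit false

open MeasureTheory Set Filter Topology
open scoped ContDiff ENNReal
open H459R3.NS

namespace Pool.Agent.H226.GB

/-! ### Fourier coefficients -/

theorem stat_ee (k : K3) (x : V) : ee (-k) x = ((Real.cos (2 * Real.pi * ph k x) : ℝ) : ℂ) -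
    ((Real.sin (2 * Real.pi * ph k x) : ℝ) : ℂ) * Complex.I := by
  have h1 : ee (-k) x = Complex.exp (((-(2 * Real.pi * ph k x) : ℝ) : ℂ) * Complex.I) := by
    rw [ee, ph_neg]
    congr 1
    push_cast
    ring
  rw [h1, Complex.exp_mul_I, ← Complex.ofReal_cos, ← Complex.ofReal_sin, Real.cos_neg,
    Real.sin_neg]
  push_cast
  ring

theorem stat_fr {f : V → ℝ} (hf : SP f) (k : K3) : fr f k =
    ((∫ x in cube, f x * Real.cos (2 * Real.pi * ph k x) : ℝ) : ℂ) -
      ((∫ x in cube, f x * Real.sin (2 * Real.pi * ph k x) : ℝ) : ℂ) * Complex.I := by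
  have c1 : Continuous fun x => ((f x * Real.cos (2 * Real.pi * ph k x) : ℝ) : ℂ) :=
    Complex.continuous_ofReal.comp (hf.mul (up_cos k)).cont
  have c2 : Continuous fun x =>
      ((f x * Real.sin (2 * Real.pi * ph k x) : ℝ) : ℂ) * Complex.I :=
    (Complex.continuous_ofReal.comp (hf.mul (up_sin k)).cont).mul continuous_const
  rw [← integral_complex_ofReal, ← integral_complex_ofReal, ← integral_mul_const,
    ← integral_sub (integrableOn_cube c1) (integrableOn_cube c2)]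
  unfold fr fc
  refine integral_congr_ae (Filter.Eventually.of_forall fun x => ?_)
  beta_reduce
  rw [stat_ee]
  push_cast
  ring

theorem stat_norm {f : V → ℝ} (hf : SP f) (k : K3) : ‖fr f k‖ ^ 2 =
    (∫ x in cube, f x * Real.cos (2 * Real.pi * ph k x)) ^ 2
      + (∫ x in cube, f x * Real.sin (2 * Real.pi * ph k x)) ^ 2 := by
  rw [stat_fr hf, ← Complex.normSq_eq_norm_sq, Complex.normSq_apply]
  simp
  ring

theorem stat_fq {v : V → V} (hv : ∀ i, SP (fun x => v x i)) (k : K3) :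
    fq v k = ∑ i, ‖fr (fun x => v x i) k‖ ^ 2 := by
  unfold fq
  refine Finset.sum_congr rfl fun i _ => ?_
  rw [stat_norm (hv i)]
  rfl

theorem stat_fq_nonneg (v : V → V) (k : K3) : 0 ≤ fq v k :=
  Finset.sum_nonneg fun _ _ => by positivity

/-- the weight is polynomially bounded -/
theorem stat_wt (s : ℝ) : ∃ n : ℕ, ∀ k : K3, (1 + ∑ j, (k j : ℝ) ^ 2) ^ s ≤
    4 ^ n * (1 + (N k : ℝ) ^ (2 * n)) := by
  obtain ⟨n, hn⟩ := exists_nat_ge s
  refine ⟨n, fun k => ?_⟩
  have h1 : (1 : ℝ) ≤ 1 + ∑ j, (k j : ℝ) ^ 2 :=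
    le_add_of_nonneg_right (Finset.sum_nonneg fun _ _ => sq_nonneg _)
  have h2 : ∀ j, (k j : ℝ) ^ 2 ≤ (N k : ℝ) ^ 2 := by
    intro j
    have h := (N_le_iff k (N k)).1 le_rfl j
    have h3 : |(k j : ℝ)| ≤ N k := by exact_mod_cast h
    rw [← sq_abs (k j : ℝ)]
    exact pow_le_pow_left₀ (abs_nonneg _) h3 2
  have h3 : 1 + ∑ j, (k j : ℝ) ^ 2 ≤ 1 + 3 * (N k : ℝ) ^ 2 := by
    rw [Fin.sum_univ_three]
    linarith [h2 0, h2 1, h2 2]
  calc (1 + ∑ j, (k j : ℝ) ^ 2) ^ s ≤ (1 + ∑ j, (k j : ℝ) ^ 2) ^ (n : ℝ) :=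
        Real.rpow_le_rpow_of_exponent_le h1 hn
    _ = (1 + ∑ j, (k j : ℝ) ^ 2) ^ n := Real.rpow_natCast _ _
    _ ≤ (1 + 3 * (N k : ℝ) ^ 2) ^ n := pow_le_pow_left₀ (by linarith) h3 n
    _ ≤ 4 ^ n * (1 + (N k : ℝ) ^ (2 * n)) := by
        rcases Nat.eq_zero_or_pos (N k) with h | h
        · rw [h]
          have h4 : (1 + 3 * ((0 : ℕ) : ℝ) ^ 2) = 1 := by norm_num
          rw [h4, one_pow]
          have h5 : (1 : ℝ) ≤ 4 ^ n := one_le_pow₀ (by norm_num)
          have h6 : (0 : ℝ) ≤ ((0 : ℕ) : ℝ) ^ (2 * n) := by positivity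
          nlinarith
        · have h4 : (1 : ℝ) ≤ N k := by exact_mod_cast h
          have h5 : 1 + 3 * (N k : ℝ) ^ 2 ≤ 4 * (N k : ℝ) ^ 2 := by nlinarith
          calc (1 + 3 * (N k : ℝ) ^ 2) ^ n ≤ (4 * (N k : ℝ) ^ 2) ^ n :=
                pow_le_pow_left₀ (by positivity) h5 n
            _ = 4 ^ n * (N k : ℝ) ^ (2 * n) := by rw [mul_pow, pow_mul]
            _ ≤ 4 ^ n * (1 + (N k : ℝ) ^ (2 * n)) := by
                refine mul_le_mul_of_nonneg_left ?_ (by positivity)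
                linarith

theorem stat_summable {f : V → ℝ} (hf : SP f) (s : ℝ) :
    Summable fun k : K3 => (1 + ∑ j, (k j : ℝ) ^ 2) ^ s * ‖fr f k‖ ^ 2 := by
  obtain ⟨n, hn⟩ := stat_wt s
  obtain ⟨C, hC⟩ := norm_fr_le hf
  have h1 := rap_fr hf 0
  have h2 := rap_fr hf (2 * n)
  have h3 := ((h1.add h2).mul_left (4 ^ n)).mul_right C
  refine Summable.of_nonneg_of_le (fun k => ?_) (fun k => ?_) h3
  · refine mul_nonneg (Real.rpow_nonneg ?_ _) (sq_nonneg _)
    exact add_nonneg zero_le_one (Finset.sum_nonneg fun _ _ => sq_nonneg _)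
  · have h4 : (0 : ℝ) ≤ 4 ^ n * (1 + (N k : ℝ) ^ (2 * n)) := by positivity
    calc (1 + ∑ j, (k j : ℝ) ^ 2) ^ s * ‖fr f k‖ ^ 2
        ≤ (4 ^ n * (1 + (N k : ℝ) ^ (2 * n))) * ‖fr f k‖ ^ 2 :=
          mul_le_mul_of_nonneg_right (hn k) (sq_nonneg _)
      _ = (4 ^ n * (1 + (N k : ℝ) ^ (2 * n))) * ‖fr f k‖ * ‖fr f k‖ := by ring
      _ ≤ (4 ^ n * (1 + (N k : ℝ) ^ (2 * n))) * ‖fr f k‖ * C :=
          mul_le_mul_of_nonneg_left (hC k) (mul_nonneg h4 (norm_nonneg _))
      _ = 4 ^ n * ((N k : ℝ) ^ 0 * ‖fr f k‖ + (N k : ℝ) ^ (2 * n) * ‖fr f k‖) * C := by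
          rw [pow_zero]
          ring

theorem stat_fin {f : V → V} (s : ℝ) (hf : ∀ i, SP (fun x => f x i)) : hs s f < ⊤ := by
  unfold hs
  refine Summable.tsum_ofReal_lt_top ?_
  have h1 : Summable fun k : K3 => ∑ i, (1 + ∑ j, (k j : ℝ) ^ 2) ^ s *
      ‖fr (fun x => f x i) k‖ ^ 2 := summable_sum fun i _ => stat_summable (hf i) s
  refine h1.congr fun k => ?_
  rw [stat_fq hf, Finset.mul_sum]

theorem stat_fq_add {f g : V → V} (hf : ∀ i, SP (fun x => f x i)) (hg : ∀ i, SP (fun x => g x i))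
    (k : K3) : fq (fun x => f x + g x) k ≤ 2 * fq f k + 2 * fq g k := by
  unfold fq
  rw [Finset.mul_sum, Finset.mul_sum, ← Finset.sum_add_distrib]
  refine Finset.sum_le_sum fun i _ => ?_
  have h1 : (∫ x in cube, (f x + g x) i * Real.cos (2 * Real.pi * ∑ j, (k j : ℝ) * x j)) =
      (∫ x in cube, f x i * Real.cos (2 * Real.pi * ∑ j, (k j : ℝ) * x j)) +
      ∫ x in cube, g x i * Real.cos (2 * Real.pi * ∑ j, (k j : ℝ) * x j) := by
    refine Eq.trans ?_ (integral_add ((hf i).mul (up_cos k)).int ((hg i).mul (up_cos k)).int)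
    refine integral_congr_ae (Filter.Eventually.of_forall fun x => ?_)
    exact add_mul _ _ _
  have h2 : (∫ x in cube, (f x + g x) i * Real.sin (2 * Real.pi * ∑ j, (k j : ℝ) * x j)) =
      (∫ x in cube, f x i * Real.sin (2 * Real.pi * ∑ j, (k j : ℝ) * x j)) +
      ∫ x in cube, g x i * Real.sin (2 * Real.pi * ∑ j, (k j : ℝ) * x j) := by
    refine Eq.trans ?_ (integral_add ((hf i).mul (up_sin k)).int ((hg i).mul (up_sin k)).int)
    refine integral_congr_ae (Filter.Eventually.of_forall fun x => ?_)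
    exact add_mul _ _ _
  rw [h1, h2]
  generalize (∫ x in cube, f x i * Real.cos (2 * Real.pi * ∑ j, (k j : ℝ) * x j)) = a
  generalize (∫ x in cube, g x i * Real.cos (2 * Real.pi * ∑ j, (k j : ℝ) * x j)) = b
  generalize (∫ x in cube, f x i * Real.sin (2 * Real.pi * ∑ j, (k j : ℝ) * x j)) = c
  generalize (∫ x in cube, g x i * Real.sin (2 * Real.pi * ∑ j, (k j : ℝ) * x j)) = d
  nlinarith [sq_nonneg (a - b), sq_nonneg (c - d)]

theorem s_hfin : S_hfin := by
  refine ⟨fun f s hf => stat_fin s hf, fun f g s hf hg => ?_⟩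
  unfold hs
  rw [← ENNReal.tsum_mul_left, ← ENNReal.tsum_mul_left, ← ENNReal.tsum_add]
  refine ENNReal.tsum_le_tsum fun k => ?_
  have hw : (0 : ℝ) ≤ (1 + ∑ j, (k j : ℝ) ^ 2) ^ s :=
    Real.rpow_nonneg (add_nonneg zero_le_one (Finset.sum_nonneg fun _ _ => sq_nonneg _)) _
  have e2 : (2 : ℝ≥0∞) = ENNReal.ofReal 2 := by norm_num
  rw [e2, ← ENNReal.ofReal_mul zero_le_two, ← ENNReal.ofReal_mul zero_le_two,
    ← ENNReal.ofReal_add (mul_nonneg zero_le_two (mul_nonneg hw (stat_fq_nonneg _ _)))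
      (mul_nonneg zero_le_two (mul_nonneg hw (stat_fq_nonneg _ _)))]
  refine ENNReal.ofReal_le_ofReal ?_
  calc (1 + ∑ j, (k j : ℝ) ^ 2) ^ s * fq (fun x => f x + g x) k
      ≤ (1 + ∑ j, (k j : ℝ) ^ 2) ^ s * (2 * fq f k + 2 * fq g k) :=
        mul_le_mul_of_nonneg_left (stat_fq_add hf hg k) hw
    _ = _ := by ring

/-! ### Series -/

theorem stat_sp (hb : Basis phi cc pp gg) (hn : S_nm) {b : ℕ → ℝ} (hR : Loc3R b) (i : Fin 3) :
    SP (loc3S b (loc3P i)) where
  smooth := loc3_cdS hR (loc3_pb hn i)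
  per := by
    intro j x
    refine tsum_congr fun m => ?_
    rw [(loc3_sp hb i m).per j x]

theorem s_stat (_ : S_int) (hb : Basis phi cc pp gg) (hn : S_nm) : S_stat := by
  intro p b _ hR
  have hR' : Loc3R b := hR
  refine ⟨fun x i => loc3S b (loc3P i) ((p : ℝ) • x), fun i => up_sp (stat_sp hb hn hR' i) p,
    fun x => ?_, fun x i => loc3_sum hR' (loc3_pb hn i) ((p : ℝ) • x), fun ε hε => ?_⟩
  · have h0 : ∀ i : Fin 3, pd i (fun y => loc3S b (loc3P i) ((p : ℝ) • y)) x =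
        p * pd i (loc3S b (loc3P i)) ((p : ℝ) • x) := fun i => up_pd (stat_sp hb hn hR' i) _ i x
    rw [Finset.sum_congr rfl fun i _ => h0 i, ← Finset.mul_sum]
    have H : ∀ i : Fin 3, HasSum (fun m => b m * pd i (loc3P i m) ((p : ℝ) • x))
        (pd i (loc3S b (loc3P i)) ((p : ℝ) • x)) := fun i => by
      have h1 := loc3_sum hR' ((loc3_pb hn i).pd i) ((p : ℝ) • x)
      rw [← loc3_pdS hR' (loc3_pb hn i) i] at h1
      exact h1
    have H1 := hasSum_sum (s := Finset.univ) fun i _ => H i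
    have e : (fun m => ∑ i : Fin 3, b m * pd i (loc3P i m) ((p : ℝ) • x)) = fun _ => 0 := by
      funext m
      rw [← Finset.mul_sum]
      have h2 : ∑ i : Fin 3, pd i (loc3P i m) ((p : ℝ) • x) = 0 := Basis.div hb m _
      rw [h2, mul_zero]
    rw [e] at H1
    rw [H1.unique hasSum_zero, mul_zero]
  · have h1 : ∀ᶠ L in atTop, ∀ i : Fin 3, ∀ x, |loc3S b (loc3P i) x -
        ∑ m ∈ Finset.range L, b m * loc3P i m x| ≤ Real.sqrt (ε / 6) := by
      rw [eventually_all]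
      intro i
      exact loc3_tail hR' (loc3_pb hn i) (Real.sqrt_pos.2 (by positivity))
    obtain ⟨L₀, hL₀⟩ := eventually_atTop.1 h1
    refine ⟨L₀, fun L hL => ?_⟩
    have h2 : ∀ i : Fin 3, ∫ x in cube, (loc3S b (loc3P i) ((p : ℝ) • x) -
        ∑ m ∈ Finset.range L, b m * phi m ((p : ℝ) • x) i) ^ 2 ≤ ε / 6 := by
      intro i
      have hc : Continuous fun x : V => (loc3S b (loc3P i) ((p : ℝ) • x) -
          ∑ m ∈ Finset.range L, b m * phi m ((p : ℝ) • x) i) ^ 2 := by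
        refine ((up_sp (stat_sp hb hn hR' i) p).cont.sub
          (continuous_finsetSum _ fun m _ => continuous_const.mul ?_)).pow 2
        exact (up_sp (loc3_sp hb i m) p).cont
      have h3 : ∫ x in cube, (loc3S b (loc3P i) ((p : ℝ) • x) -
          ∑ m ∈ Finset.range L, b m * phi m ((p : ℝ) • x) i) ^ 2 ≤ ∫ x in cube, ε / 6 := by
        refine setIntegral_mono (integrableOn_cube hc) (integrableOn_cube continuous_const)
          fun x => ?_
        have h4 := hL₀ L hL i ((p : ℝ) • x)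
        have h5 : (Real.sqrt (ε / 6)) ^ 2 = ε / 6 := Real.sq_sqrt (by positivity)
        beta_reduce
        rw [← h5, ← sq_abs]
        exact pow_le_pow_left₀ (abs_nonneg _) h4 2
      rw [setIntegral_const, smul_eq_mul] at h3
      have h6 : volume.real cube = 1 := by
        rw [Measure.real, volume_cube]
        rfl
      rw [h6, one_mul] at h3
      exact h3
    calc _ ≤ ∑ i : Fin 3, ε / 6 := Finset.sum_le_sum fun i _ => h2 i
      _ < ε := by
        rw [Finset.sum_const, Finset.card_univ, Fintype.card_fin, nsmul_eq_mul]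
        push_cast
        linarith

end Pool.Agent.H226.GB
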