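import Pool.Agent.H226.GB.Spec9
import Pool.Agent.H226.GB.Fin2
import Pool.Agent.H226.GB.IntP
import Pool.Agent.H226.GB.Stat
import Pool.Agent.H226.GB.PrS
import Pool.Agent.H226.GB.LocS

/-!
Continuation of the solutions in the small space (task GB64 Cri, by helper878).
-/

set_option autoImplicit false

open MeasureTheory Set Filter Topology
open scoped ContDiff ENNReal
open H459R3.NS

namespace Pool.Agent.H226.GB

theorem cri_sp {φ : ℕ → V → V} {ν T : ℝ} {u : ℝ → V → V} (hu : IsGal φ ν T u) {t : ℝ}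
    (ht : t ∈ Ico 0 T) (i : Fin 3) : SP (fun x => u t x i) where
  smooth := by
    have h1 : ContDiff ℝ ∞ (fun x : V => ((t, x) : ℝ × V)) := contDiff_const.prodMk contDiff_id
    have h2 : ContDiff ℝ ∞ (fun x : V => u t x) := by
      rw [← contDiffOn_univ]
      exact hu.smooth.comp h1.contDiffOn (fun x _ => ⟨ht, mem_univ _⟩)
    exact contDiff_pi.1 h2 i
  per := fun j x => congrFun (hu.per t ht j x) i

theorem cri_rap (h5 : S_hsb) (h6 : S_hfin) {f : V → V} (hf : ∀ i, SP (fun x => f x i))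
    (s : ℕ) : ∃ K : ℝ, ∀ m, (RR m : ℝ) ^ s * |ip f (phi m)| ≤ K := by
  obtain ⟨K, hK⟩ := prs_rap h5 h6 1 le_rfl f hf s
  refine ⟨K, fun m => ?_⟩
  have h := hK m
  simp only [Nat.cast_one, one_smul] at h
  exact h

theorem cri_bes (h5 : S_hsb) (h6 : S_hfin) {f : V → V} (hf : ∀ i, SP (fun x => f x i)) :
    ∃ A : ℝ, 0 ≤ A ∧ ∀ M : ℕ,
      ∑ m ∈ Finset.range M, (RR m : ℝ) ^ 12 * ip f (phi m) ^ 2 ≤ A := by
  obtain ⟨C, a2, b2⟩ := h5 1 3 le_rfl (by norm_num)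
  have hfin : ENNReal.ofReal C * hs 3 f ≠ ⊤ :=
    ENNReal.mul_ne_top ENNReal.ofReal_ne_top (h6.1 f _ hf).ne
  refine ⟨(ENNReal.ofReal C * hs 3 f).toReal, ENNReal.toReal_nonneg, fun M => ?_⟩
  have h := b2 f hf M
  rw [ENNReal.ofReal_le_iff_le_toReal hfin] at h
  refine le_trans (le_of_eq ?_) h
  refine Finset.sum_congr rfl fun m _ => ?_
  have e : (RR m : ℝ) ^ (4 * (3 : ℝ)) = (RR m : ℝ) ^ 12 := by
    rw [show (4 * (3 : ℝ)) = ((12 : ℕ) : ℝ) by norm_num, Real.rpow_natCast]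
  rw [e]
  simp only [Nat.cast_one, one_smul]
  rfl

theorem cri_RR {m j : ℕ} (h : m ≤ j) : (RR m : ℝ) ≤ RR j := by
  have h1 : RR m ≤ RR j := by
    unfold RR
    exact Nat.pow_le_pow_right (by norm_num) (Nat.pow_le_pow_left (by omega) 3)
  exact_mod_cast h1

theorem cri_RR1 (m : ℕ) : (1 : ℝ) ≤ RR m := by
  have h1 : 1 ≤ RR m := by
    unfold RR
    exact Nat.one_le_two_pow
  exact_mod_cast h1

theorem cri_tail {b : ℕ → ℝ} {A S0 : ℝ}
    (hA : ∀ M : ℕ, ∑ m ∈ Finset.range M, (RR m : ℝ) ^ 12 * b m ^ 2 ≤ A)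
    (hS : HasSum (fun m => b m ^ 2) S0) (m : ℕ) :
    (RR m : ℝ) ^ 12 * (S0 - ∑ j ∈ Finset.range m, b j ^ 2) ≤ A := by
  have h1 : Tendsto (fun M : ℕ => (RR m : ℝ) ^ 12 *
      (∑ j ∈ Finset.range M, b j ^ 2 - ∑ j ∈ Finset.range m, b j ^ 2)) atTop
      (𝓝 ((RR m : ℝ) ^ 12 * (S0 - ∑ j ∈ Finset.range m, b j ^ 2))) :=
    (hS.tendsto_sum_nat.sub_const _).const_mul _
  refine le_of_tendsto h1 ?_
  filter_upwards [eventually_ge_atTop m] with M hM
  rw [← Finset.sum_range_add_sum_Ico _ hM, add_sub_cancel_left, Finset.mul_sum]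
  have h2 : ∑ j ∈ Finset.Ico m M, (RR m : ℝ) ^ 12 * b j ^ 2
      ≤ ∑ j ∈ Finset.Ico m M, (RR j : ℝ) ^ 12 * b j ^ 2 := by
    refine Finset.sum_le_sum fun j hj => ?_
    refine mul_le_mul_of_nonneg_right ?_ (sq_nonneg _)
    exact pow_le_pow_left₀ (Nat.cast_nonneg _) (cri_RR (Finset.mem_Ico.1 hj).1) 12
  refine h2.trans (le_trans ?_ (hA M))
  rw [← Finset.sum_range_add_sum_Ico _ hM]
  have h3 : 0 ≤ ∑ j ∈ Finset.range m, (RR j : ℝ) ^ 12 * b j ^ 2 :=
    Finset.sum_nonneg fun j _ => by positivity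
  linarith

theorem cri_S0 {b : ℕ → ℝ} {A S0 : ℝ}
    (hA : ∀ M : ℕ, ∑ m ∈ Finset.range M, (RR m : ℝ) ^ 12 * b m ^ 2 ≤ A)
    (hS : HasSum (fun m => b m ^ 2) S0) : S0 ≤ A := by
  have h1 := cri_tail hA hS 0
  have h2 : 0 ≤ S0 := hS.nonneg fun m => sq_nonneg _
  have h3 : (1 : ℝ) ≤ (RR 0 : ℝ) ^ 12 := one_le_pow₀ (cri_RR1 0)
  rw [Finset.sum_range_zero, sub_zero] at h1
  nlinarith

theorem cri_comb (b : ℕ → ℝ) (L : ℕ) :
    (fun (x : V) (i : Fin 3) => ∑ m ∈ Finset.range L, b m * phi m x i)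
      ∈ Submodule.span ℝ (Sc 1) := by
  have e : (fun (x : V) (i : Fin 3) => ∑ m ∈ Finset.range L, b m * phi m x i)
      = ∑ m ∈ Finset.range L, b m • (fun x => phi m x) := by
    funext x i
    simp only [Finset.sum_apply, Pi.smul_apply, smul_eq_mul]
  rw [e]
  refine Submodule.sum_mem _ fun m _ => Submodule.smul_mem _ _ (Submodule.subset_span ?_)
  exact ⟨m, fun x => by rw [Nat.cast_one, one_smul]⟩

theorem cri_span {ν T : ℝ} {u : ℝ → V → V} (hu : IsGal phi ν T u) {t : ℝ}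
    (ht : t ∈ Ico 0 T) : InSpan (Sc 1) (u t) := by
  intro ε hε
  obtain ⟨L, a, h⟩ := hu.mem t ht ε hε
  exact ⟨_, cri_comb a L, h⟩

/-- a smooth field of the closed span is the sum of its series -/
theorem cri_sum (h5 : S_hsb) (h6 : S_hfin) {f : V → V} (hf : ∀ i, SP (fun x => f x i))
    (hfs : InSpan (Sc 1) f) (x : V) (i : Fin 3) :
    HasSum (fun m => ip f (phi m) * phi m x i) (f x i) := by
  have hphi : ∀ m i, SP (fun x => phi m x i) := f_bas.sp
  set b : ℕ → ℝ := fun m => ip f (phi m) with hbdef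
  have hrap : ∀ s : ℕ, ∃ K : ℝ, ∀ m, (RR m : ℝ) ^ s * |b m| ≤ K :=
    fun s => cri_rap h5 h6 hf s
  obtain ⟨G, hG, -, hsum, hlim⟩ := s_stat s_int f_bas f_nm 1 b le_rfl hrap
  simp only [Nat.cast_one, one_smul] at hsum hlim
  set S : ℕ → V → V := fun L x i => ∑ m ∈ Finset.range L, b m * phi m x i with hSdef
  have hS : ∀ L i, SP (fun x => S L x i) := by
    intro L i
    exact SP.sum fun m _ => uni_smul (b m) (hphi m i)
  have hGs : InSpan (Sc 1) G := by
    intro ε hε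
    obtain ⟨L₀, hL⟩ := hlim ε hε
    exact ⟨S L₀, cri_comb b L₀, hL L₀ le_rfl⟩
  have horth : ∀ m, ∑ i, ∫ x in cube, (f x i - G x i) * phi m (((1 : ℕ) : ℝ) • x) i = 0 := by
    intro m
    simp only [Nat.cast_one, one_smul]
    have e1 : ∀ i, ∫ x in cube, (f x i - G x i) * phi m x i =
        (∫ x in cube, f x i * phi m x i) - ∫ x in cube, G x i * phi m x i := by
      intro i
      rw [← integral_sub ((hf i).mul (hphi m i)).int ((hG i).mul (hphi m i)).int]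
      refine integral_congr_ae (ae_of_all _ fun x => ?_)
      show (f x i - G x i) * phi m x i = _
      ring
    rw [Finset.sum_congr rfl fun i _ => e1 i, Finset.sum_sub_distrib]
    have e2 : ∑ i, ∫ x in cube, f x i * phi m x i = b m := rfl
    have e3 : Tendsto (fun L => ∑ i, ∫ x in cube, S L x i * phi m x i) atTop
        (𝓝 (∑ i, ∫ x in cube, G x i * phi m x i)) :=
      tendsto_finsetSum _ fun i _ => ProjP_conv hG hS hlim (hphi m i) i
    have e4 : ∀ L, m < L → ∑ i, ∫ x in cube, S L x i * phi m x i = b m := by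
      intro L hmL
      have f1 : ∀ i, ∫ x in cube, S L x i * phi m x i =
          ∑ n ∈ Finset.range L, b n * ∫ x in cube, phi n x i * phi m x i := by
        intro i
        have f2 : ∀ x, S L x i * phi m x i =
            ∑ n ∈ Finset.range L, b n * (phi n x i * phi m x i) := by
          intro x
          simp only [hSdef]
          rw [Finset.sum_mul]
          refine Finset.sum_congr rfl fun n _ => ?_
          ring
        simp_rw [f2]
        rw [integral_finsetSum _ fun n _ => ((hphi n i).mul (hphi m i)).int.const_mul _]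
        refine Finset.sum_congr rfl fun n _ => ?_
        rw [integral_const_mul]
      rw [Finset.sum_congr rfl fun i _ => f1 i, Finset.sum_comm]
      have f4 : ∀ n, ∑ i, b n * ∫ x in cube, phi n x i * phi m x i =
          if n = m then b n else 0 := by
        intro n
        rw [← Finset.mul_sum]
        have h := f_bas.on n m
        unfold ip at h
        rw [h]
        split_ifs <;> simp
      rw [Finset.sum_congr rfl fun n _ => f4 n, Finset.sum_ite_eq',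
        if_pos (Finset.mem_range.2 hmL)]
    have e5 : ∑ i, ∫ x in cube, G x i * phi m x i = b m := by
      refine tendsto_nhds_unique e3 (tendsto_const_nhds.congr' ?_)
      filter_upwards [eventually_gt_atTop m] with L hmL
      exact (e4 L hmL).symm
    rw [e2, e5, sub_self]
  have hGf : G = f := locs_unique f_bas 1 hf hG hfs hGs horth
  have h := hsum x i
  rw [hGf] at h
  exact h

theorem cri_cc (n : ℕ) : ∃ C, ∀ l, |cc n l| ≤ C := by
  refine ⟨2 ^ 10 * (RR n : ℝ) ^ 5 + ∑ l ∈ Finset.range (n + 1), |cc n l|, fun l => ?_⟩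
  have h1 : 0 ≤ ∑ l ∈ Finset.range (n + 1), |cc n l| := Finset.sum_nonneg fun _ _ => abs_nonneg _
  have h2 : (0 : ℝ) ≤ 2 ^ 10 * (RR n : ℝ) ^ 5 :=
    mul_nonneg (by norm_num) (pow_nonneg (Nat.cast_nonneg _) 5)
  by_cases hl : n < l
  · have := f_ccu n l hl
    linarith
  · have := Finset.single_le_sum (f := fun l => |cc n l|) (fun l _ => abs_nonneg _)
      (Finset.mem_range.2 (show l < n + 1 by omega))
    linarith

/-- **Task GB64.** -/
theorem s_cri (h1 : S_loc1u) (h2 : S_apr) (h3 : S_glu) (_ : S_prS) (h5 : S_hsb) (h6 : S_hfin)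
    (h7 : S_red) : S_cri := by
  intro ν T Λ u hν hT hΛ hu hstr
  have hC := f_coef hν
  obtain ⟨A, hA0, hA⟩ := cri_bes h5 h6 (fun i => cri_sp hu ⟨le_rfl, hT⟩ i)
  obtain ⟨K', hK'⟩ := h2 cc pp (fun m => ν * gg m) T A A Λ (fun n l hnl => f_ccu n l hnl)
    hC.p0 hC.p_le hC.ν0 (fun i j hij => mul_le_mul_of_nonneg_left (f_bas.mono hij) hν)
    hT.le hA0 hA0 hΛ
  have hbd : ∀ t ∈ Ico 0 T, ∀ m, (RR m : ℝ) ^ 6 * |ip (u t) (phi m)| ≤ K' := by
    intro t ht m
    have hT' : (t + T) / 2 ∈ Ioo 0 T := ⟨by linarith [ht.1], by linarith [ht.2]⟩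
    obtain ⟨S, W, K, hsh, -⟩ := h7 phi cc pp gg f_bas cri_cc ν T u hν hu _ hT'
    have hS : HasSum (fun m => ip (u 0) (phi m) ^ 2) (S 0) := hsh.sum 0 ⟨le_rfl, hT'.1.le⟩
    refine hK' _ _ S W hT'.1.le hT'.2.le hsh (cri_S0 hA hS) (fun m => ?_) (fun s hs m => ?_)
      t ⟨ht.1, by linarith [ht.2]⟩ m
    · exact cri_tail hA hS m
    · exact hstr s ⟨hs.1, hs.2.trans_lt hT'.2⟩ m
  obtain ⟨τ, hτ, hloc⟩ := h1 _ _ _ _ hC K'
  obtain ⟨t₀, ht0, ht1, ht2⟩ : ∃ t₀, 0 ≤ t₀ ∧ t₀ < T ∧ T < t₀ + τ :=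
    ⟨max 0 (T - τ / 2), le_max_left _ _, max_lt hT (by linarith), by
      have := le_max_right 0 (T - τ / 2)
      linarith⟩
  obtain ⟨a, ha1, ha2, ha3, ha4⟩ := hloc (fun m => ip (u t₀) (phi m))
    (cri_rap h5 h6 (fun i => cri_sp hu ⟨ht0, ht1⟩ i)) (hbd t₀ ⟨ht0, ht1⟩)
  have h8 := s_loc2 _ _ _ _ hC τ a ha1 ha2 ha4
  obtain ⟨U, hU, hU'⟩ :=
    s_loc3 s_prod s_one s_trig f_nm f_bas f_gg f_ccu f_pp ν τ a hν hτ h8 ha4
  have hU0 : U 0 = u t₀ := by
    funext x i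
    have e1 := hU' 0 ⟨le_rfl, hτ⟩ x i
    simp only [ha3] at e1
    exact e1.unique (cri_sum h5 h6 (fun i => cri_sp hu ⟨ht0, ht1⟩ i)
      (cri_span hu ⟨ht0, ht1⟩) x i)
  obtain ⟨u', hu', he⟩ := h3 phi cc pp gg f_bas ν T t₀ τ u U hν ht0 ht1 ht2 hu hU hU0
  exact ⟨t₀ + τ, u', ht2, hu', he⟩

end Pool.Agent.H226.GB
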