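import Pool.Agent.H226.GB.Spec4
import Pool.Agent.H226.GB.Uni

/-!
From the larger space to the span of `φ` (helper353 for helper226).
-/

set_option autoImplicit false

open MeasureTheory Set Filter Topology
open scoped ContDiff
open H459R3.NS

namespace Pool.Agent.H226.GB

theorem down_pd (a c : ℝ) {f : V → ℝ} (hf : Differentiable ℝ f) (j : Fin 3) :
    pd j (fun y => c * f (a • y)) = fun x => c * a * pd j f (a • x) := by
  funext x
  unfold pd
  have h1 : HasFDerivAt (fun y : V => a • y) (a • ContinuousLinearMap.id ℝ V) x :=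
    (hasFDerivAt_id x).const_smul a
  have h2 : HasFDerivAt (fun y => f (a • y)) ((fderiv ℝ f (a • x)).comp
      (a • ContinuousLinearMap.id ℝ V)) x :=
    HasFDerivAt.comp x (hf (a • x)).hasFDerivAt h1
  have h3 : HasFDerivAt (fun y => c * f (a • y)) (c • ((fderiv ℝ f (a • x)).comp
      (a • ContinuousLinearMap.id ℝ V))) x := h2.const_mul c
  rw [h3.fderiv]
  simp only [_root_.smul_apply, ContinuousLinearMap.comp_apply,
    ContinuousLinearMap.id_apply, map_smul, smul_eq_mul]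
  ring

theorem down_sp {T : ℝ} {u : ℝ → V → V}
    (h : ContDiffOn ℝ ∞ (fun z : ℝ × V => u z.1 z.2) (Ico 0 T ×ˢ univ))
    (hp : ∀ t ∈ Ico 0 T, Per (u t)) {t : ℝ} (ht : t ∈ Ico 0 T) (i : Fin 3) :
    SP (fun x => u t x i) where
  smooth := contDiff_slice (f := fun (t : ℝ) (x : V) => u t x i) (uni_comp h i) ht
  per := fun j x => congrFun (hp t ht j x) i

theorem down_R {T : ℝ} {u : ℝ → V → V}
    (h : ContDiffOn ℝ ∞ (fun z : ℝ × V => u z.1 z.2) (Ico 0 T ×ˢ univ))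
    (hp : ∀ t ∈ Ico 0 T, Per (u t)) (ν : ℝ) {t : ℝ} (ht : t ∈ Ioo 0 T) (i : Fin 3) :
    SP (uniR ν u t i) := by
  have ht' : t ∈ Ico 0 T := ⟨ht.1.le, ht.2⟩
  exact uni_sub (SP.add (uni_dt (uni_comp h i) (fun s hs j x => congrFun (hp s hs j x) i) ht)
    (SP.sum fun j _ => (down_sp h hp ht' j).mul ((down_sp h hp ht' i).pd j)))
    (uni_smul ν (SP.sum fun j _ => ((down_sp h hp ht' i).pd j).pd j))

/-- GB23 -/
theorem s_down (hI : S_int) (hM : S_memdown) : S_down := by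
  intro φ p hφ hp ν T u hu hper
  have hp0 : (p : ℝ) ≠ 0 := by
    have : (1 : ℝ) ≤ p := by exact_mod_cast hp
    positivity
  have hsm : ContDiffOn ℝ ∞ (fun z : ℝ × V => (p : ℝ) • u z.1 ((p : ℝ)⁻¹ • z.2))
      (Ico 0 T ×ˢ univ) := by
    refine ContDiffOn.const_smul (p : ℝ) ?_
    refine hu.smooth.comp (g := fun z : ℝ × V => u z.1 z.2)
      (f := fun z : ℝ × V => (z.1, (p : ℝ)⁻¹ • z.2)) ?_ ?_
    · exact ContDiff.contDiffOn (contDiff_fst.prodMk (contDiff_snd.const_smul (p : ℝ)⁻¹))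
    · intro z hz
      exact ⟨hz.1, mem_univ _⟩
  have hpe : ∀ t ∈ Ico 0 T, Per (fun x => (p : ℝ) • u t ((p : ℝ)⁻¹ • x)) := by
    intro t ht i x
    have h1 : (p : ℝ)⁻¹ • (x + Pi.single i 1) = (p : ℝ)⁻¹ • x + Pi.single i (1 / (p : ℝ)) := by
      rw [smul_add, ← Pi.single_smul, smul_eq_mul, mul_one, one_div]
    change (p : ℝ) • u t ((p : ℝ)⁻¹ • (x + Pi.single i 1)) = (p : ℝ) • u t ((p : ℝ)⁻¹ • x)
    rw [h1, hper t ht]
  have hsp : ∀ t ∈ Ico 0 T, ∀ i, SP (fun x => u t x i) := fun t ht i =>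
    down_sp hu.smooth hu.per ht i
  have hpd : ∀ t ∈ Ico 0 T, ∀ i j, pd j (fun y => ((p : ℝ) • u t ((p : ℝ)⁻¹ • y)) i) =
      fun x => pd j (fun y => u t y i) ((p : ℝ)⁻¹ • x) := by
    intro t ht i j
    have h1 := down_pd (p : ℝ)⁻¹ (p : ℝ) (hsp t ht i).diff j
    rw [mul_inv_cancel₀ hp0] at h1
    simp only [one_mul] at h1
    exact h1
  have hpd2 : ∀ t ∈ Ico 0 T, ∀ i j x, pd j (pd j (fun y => ((p : ℝ) • u t ((p : ℝ)⁻¹ • y)) i)) x =
      (p : ℝ)⁻¹ * pd j (pd j (fun y => u t y i)) ((p : ℝ)⁻¹ • x) := by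
    intro t ht i j x
    rw [hpd t ht i j]
    have h1 := down_pd (p : ℝ)⁻¹ 1 ((hsp t ht i).pd j).diff j
    simp only [one_mul] at h1
    rw [h1]
  refine ⟨hsm, hpe, ?_, ?_, ?_⟩
  · intro t ht x
    simp only [hpd t ht]
    exact hu.divfree t ht _
  · intro t ht ε hε
    exact hM φ p hφ hp (u t) (hsp t ht) (hper t ht) (hu.mem t ht) ε hε
  · intro t ht m
    have ht' : t ∈ Ico 0 T := ⟨ht.1.le, ht.2⟩
    have hR := fun i => down_R hsm hpe (ν * p ^ 2) ht i
    have hR2 : ∀ i x, uniR (ν * p ^ 2) (fun t x => (p : ℝ) • u t ((p : ℝ)⁻¹ • x)) t i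
        ((p : ℝ) • x) = p * uniR ν u t i x := by
      intro i x
      have hx : (p : ℝ)⁻¹ • (p : ℝ) • x = x := by
        rw [smul_smul, inv_mul_cancel₀ hp0, one_smul]
      have h1 : dt (fun s x => ((p : ℝ) • u s ((p : ℝ)⁻¹ • x)) i) t ((p : ℝ) • x) =
          p * dt (fun s x => u s x i) t x := by
        unfold dt
        simp only [hx, Pi.smul_apply, smul_eq_mul]
        exact deriv_const_mul_field _
      have h2 : ∑ j, pd j (pd j (fun y => ((p : ℝ) • u t ((p : ℝ)⁻¹ • y)) i)) ((p : ℝ) • x) =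
          (p : ℝ)⁻¹ * ∑ j, pd j (pd j (fun y => u t y i)) x := by
        rw [Finset.mul_sum]
        exact Finset.sum_congr rfl fun j _ => by rw [hpd2 t ht', hx]
      have h3 : ∑ j, ((p : ℝ) • u t ((p : ℝ)⁻¹ • (p : ℝ) • x)) j *
          pd j (fun y => ((p : ℝ) • u t ((p : ℝ)⁻¹ • y)) i) ((p : ℝ) • x) =
          p * ∑ j, u t x j * pd j (fun y => u t y i) x := by
        rw [Finset.mul_sum]
        refine Finset.sum_congr rfl fun j _ => ?_
        have e1 : pd j (fun y => ((p : ℝ) • u t ((p : ℝ)⁻¹ • y)) i) ((p : ℝ) • x) =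
            pd j (fun y => u t y i) x := by
          rw [hpd t ht']
          simp only [hx]
        rw [e1, hx, Pi.smul_apply, smul_eq_mul, mul_assoc]
      change dt (fun s x => ((p : ℝ) • u s ((p : ℝ)⁻¹ • x)) i) t ((p : ℝ) • x) +
        ∑ j, ((p : ℝ) • u t ((p : ℝ)⁻¹ • (p : ℝ) • x)) j *
          pd j (fun y => ((p : ℝ) • u t ((p : ℝ)⁻¹ • y)) i) ((p : ℝ) • x) -
        ν * p ^ 2 * ∑ j, pd j (pd j (fun y => ((p : ℝ) • u t ((p : ℝ)⁻¹ • y)) i))
          ((p : ℝ) • x) = p * uniR ν u t i x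
      rw [h1, h2, h3]
      unfold uniR
      field_simp
    have h3 : ∀ i, ∫ x in cube, uniR (ν * p ^ 2) (fun t x => (p : ℝ) • u t ((p : ℝ)⁻¹ • x)) t i x *
        φ m x i = p * ∫ x in cube, uniR ν u t i x * φ m ((p : ℝ) • x) i := by
      intro i
      rw [← hI.1 _ ((hR i).mul (hφ m i)) p hp, ← integral_const_mul]
      refine integral_congr_ae (Eventually.of_forall fun x => ?_)
      simp only [hR2]
      ring
    change ∑ i, ∫ x in cube, uniR (ν * p ^ 2) (fun t x => (p : ℝ) • u t ((p : ℝ)⁻¹ • x)) t i x *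
        φ m x i = 0
    rw [Finset.sum_congr rfl fun i _ => h3 i, ← Finset.mul_sum]
    have h4 := hu.eq t ht (fun x => φ m ((p : ℝ) • x)) (Or.inl ⟨m, fun x => rfl⟩)
    have h5 : ∑ i, ∫ x in cube, uniR ν u t i x * φ m ((p : ℝ) • x) i = 0 := h4
    rw [h5, mul_zero]

end Pool.Agent.H226.GB
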