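import Pool.Agent.H226.GB.Spec8
import Pool.Agent.H226.GB.Red
import Pool.Agent.H226.GB.UniP
import Pool.Agent.H226.GB.Shift

/-!
The time derivative of a solution in the small space is orthogonal to all smooth periodic fields
which are orthogonal to the small space.
-/

set_option autoImplicit false

open MeasureTheory Set Filter Topology
open scoped ContDiff
open H459R3.NS

namespace Pool.Agent.H226.GB

theorem dt_Sc_sp (hb : Basis phi cc pp gg) (p : ℕ) :
    ∀ v ∈ Sc p, ∀ i, SP (fun x => v x i) := by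
  rintro v ⟨m, hv⟩ i
  have h := shift_sp_phi hb.sp p m i
  have e : (fun x => v x i) = fun x => phi m ((p : ℝ) • x) i := by
    funext x
    rw [hv x]
  rw [e]
  exact h

/-- fields which are orthogonal to the rescaled fields are orthogonal to their closed span -/
theorem dt_orth (hb : Basis phi cc pp gg) {p : ℕ} {w v : V → V} (hw : ∀ i, SP (fun x => w x i))
    (hv : ∀ i, SP (fun x => v x i))
    (h0 : ∀ m, ∑ i, ∫ x in cube, w x i * phi m ((p : ℝ) • x) i = 0) (hs : InSpan (Sc p) v) :
    ip w v = 0 := by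
  have h1 : ∀ z ∈ Sc p, ∑ i, ∫ x in cube, (fun (i : Fin 3) (x : V) => w x i) i x * z x i = 0 := by
    rintro z ⟨m, hz⟩
    simp_rw [hz]
    exact h0 m
  exact uniP_dens (dt_Sc_sp hb p) (G := fun (i : Fin 3) (x : V) => w x i) hw hv h1 hs

theorem s_dt (hI : S_int) (hb : Basis phi cc pp gg) : S_dt := by
  intro p ν T u w hp hu hw h0 t ht
  have h1 : ∀ s ∈ Ioo 0 T, ip (u s) w = 0 := by
    intro s hs
    have hs' : s ∈ Ico 0 T := ⟨hs.1.le, hs.2⟩
    rw [red_ip_comm]
    exact dt_orth hb hw (fun i => uniP_sp hu hs' i) h0 (hu.mem s hs')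
  have h2 := red_ip_der hu.smooth (z := w) hw ht
  have h3 : HasDerivAt (fun t => ip (u t) w) 0 t := by
    refine (hasDerivAt_const t (0 : ℝ)).congr_of_eventuallyEq ?_
    filter_upwards [Ioo_mem_nhds ht.1 ht.2] with s hs
    exact h1 s hs
  exact h2.unique h3

end Pool.Agent.H226.GB
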