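import Pool.Agent.H226.GB.Spec4
import Pool.Agent.H226.GB.UniP

/-!
Maximal solutions of the projected equations.
-/

open MeasureTheory Set Filter Topology
open scoped ContDiff
open H459R3.NS

namespace Pool.Agent.H226.GB

theorem IsPr.mono {Φ : Set (V → V)} {ν T : ℝ} {u : ℝ → V → V} (h : IsPr Φ ν T u) {T' : ℝ}
    (hT : T' ≤ T) : IsPr Φ ν T' u where
  smooth := h.smooth.mono (prod_mono (Ico_subset_Ico le_rfl hT) (subset_univ _))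
  per := fun t ht => h.per t ⟨ht.1, ht.2.trans_le hT⟩
  divfree := fun t ht => h.divfree t ⟨ht.1, ht.2.trans_le hT⟩
  mem := fun t ht => h.mem t ⟨ht.1, ht.2.trans_le hT⟩
  eq := fun t ht => h.eq t ⟨ht.1, ht.2.trans_le hT⟩

/-- local changes -/
theorem IsPr.glue {Φ : Set (V → V)} {ν T : ℝ} {u : ℝ → V → V}
    (h : ∀ t ∈ Ico 0 T, ∃ τ, t < τ ∧ ∃ v, IsPr Φ ν τ v ∧ ∀ s ∈ Ico 0 τ, s < T → v s = u s) :
    IsPr Φ ν T u := by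
  refine ⟨?_, fun t ht => ?_, fun t ht x => ?_, fun t ht => ?_, fun t ht w hw => ?_⟩
  · rintro ⟨t, x⟩ ⟨ht, -⟩
    obtain ⟨τ, htτ, v, hv, hvu⟩ := h t ht
    have h1 := hv.smooth (t, x) ⟨⟨ht.1, htτ⟩, mem_univ _⟩
    have h2 : Ico 0 τ ×ˢ (univ : Set V) ∈ 𝓝[Ico 0 T ×ˢ univ] (t, x) := by
      refine mem_nhdsWithin.2 ⟨Iio τ ×ˢ univ, isOpen_Iio.prod isOpen_univ, ⟨htτ, mem_univ _⟩, ?_⟩
      rintro ⟨s, y⟩ ⟨⟨hs, -⟩, ⟨hs', -⟩⟩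
      exact ⟨⟨hs'.1, hs⟩, mem_univ _⟩
    have h3 : ContDiffWithinAt ℝ ∞ (fun z : ℝ × V => v z.1 z.2) (Ico 0 T ×ˢ univ) (t, x) :=
      h1.mono_of_mem_nhdsWithin h2
    refine h3.congr_of_eventuallyEq ?_ ?_
    · filter_upwards [h2, self_mem_nhdsWithin] with z hz hz'
      have := hvu z.1 hz.1 hz'.1.2
      show u z.1 z.2 = v z.1 z.2
      rw [this]
    · show u t x = v t x
      rw [hvu t ⟨ht.1, htτ⟩ ht.2]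
  · obtain ⟨τ, htτ, v, hv, hvu⟩ := h t ht
    rw [← hvu t ⟨ht.1, htτ⟩ ht.2]
    exact hv.per t ⟨ht.1, htτ⟩
  · obtain ⟨τ, htτ, v, hv, hvu⟩ := h t ht
    rw [← hvu t ⟨ht.1, htτ⟩ ht.2]
    exact hv.divfree t ⟨ht.1, htτ⟩ x
  · obtain ⟨τ, htτ, v, hv, hvu⟩ := h t ht
    rw [← hvu t ⟨ht.1, htτ⟩ ht.2]
    exact hv.mem t ⟨ht.1, htτ⟩
  · obtain ⟨τ, htτ, v, hv, hvu⟩ := h t ⟨ht.1.le, ht.2⟩
    have h1 := hv.eq t ⟨ht.1, htτ⟩ w hw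
    have h2 : ∀ x i, deriv (fun s => u s x i) t = deriv (fun s => v s x i) t := by
      intro x i
      refine Filter.EventuallyEq.deriv_eq ?_
      filter_upwards [Ioo_mem_nhds ht.1 (lt_min htτ ht.2)] with s hs
      rw [hvu s ⟨hs.1.le, hs.2.trans_le (min_le_left _ _)⟩ (hs.2.trans_le (min_le_right _ _))]
    simp only [h2, ← hvu t ⟨ht.1.le, htτ⟩ ht.2]
    exact h1

/-- the maximal solution -/
theorem maxSol {Φ : Set (V → V)} (hΦ : ∀ w ∈ Φ, ∀ i, SP (fun x => w x i)) {ν T : ℝ} (hν : 0 ≤ ν)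
    {u₀ : V → V} (hex : ∃ τ > 0, ∃ u, IsPr Φ ν τ u ∧ u 0 = u₀)
    (hno : ∀ u, IsPr Φ ν T u → u 0 ≠ u₀) :
    ∃ (Tm : ℝ) (u : ℝ → V → V), 0 < Tm ∧ Tm < T ∧ IsPr Φ ν Tm u ∧ u 0 = u₀ ∧
      ∀ T' v, IsPr Φ ν T' v → v 0 = u₀ → T' ≤ Tm ∧ ∀ t ∈ Ico 0 T', v t = u t := by
  set A : Set ℝ := {τ | 0 < τ ∧ ∃ u, IsPr Φ ν τ u ∧ u 0 = u₀} with hA
  have hne : A.Nonempty := by
    obtain ⟨τ, h1, h2⟩ := hex
    exact ⟨τ, h1, h2⟩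
  have hlt : ∀ τ ∈ A, τ < T := by
    rintro τ ⟨h1, u, h2, h3⟩
    by_contra hc
    exact hno u (h2.mono (not_lt.1 hc)) h3
  have hbd : BddAbove A := ⟨T, fun τ hτ => (hlt τ hτ).le⟩
  obtain ⟨τ₀, hτ₀⟩ := hne
  have hpos : 0 < sSup A := hτ₀.1.trans_le (le_csSup hbd hτ₀)
  have hch : ∀ t ∈ Ico 0 (sSup A), ∃ τ, t < τ ∧ ∃ u, IsPr Φ ν τ u ∧ u 0 = u₀ := by
    intro t ht
    obtain ⟨τ, h1, h2⟩ := exists_lt_of_lt_csSup ⟨τ₀, hτ₀⟩ ht.2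
    exact ⟨τ, h2, h1.2⟩
  choose! τ hτ v hv hv0 using hch
  have hag : ∀ t ∈ Ico 0 (sSup A), ∀ T' w, IsPr Φ ν T' w → w 0 = u₀ → t < T' →
      w t = v t t := by
    intro t ht T' w hw hw0 htT
    have h1 : IsPr Φ ν (min T' (τ t)) w := hw.mono (min_le_left _ _)
    have h2 : IsPr Φ ν (min T' (τ t)) (v t) := (hv t ht).mono (min_le_right _ _)
    exact s_uniP Φ hΦ ν _ w (v t) hν h1 h2 (by rw [hw0, hv0 t ht]) t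
      ⟨ht.1, lt_min htT (hτ t ht)⟩
  have h0m : (0 : ℝ) ∈ Ico 0 (sSup A) := ⟨le_rfl, hpos⟩
  have hsol : IsPr Φ ν (sSup A) (fun t => v t t) := by
    refine IsPr.glue fun t ht => ⟨τ t, hτ t ht, v t, hv t ht, fun s hs hs' => ?_⟩
    exact hag s ⟨hs.1, hs'⟩ (τ t) (v t) (hv t ht) (hv0 t ht) hs.2
  have hsol0 : (fun t => v t t) 0 = u₀ := hv0 0 h0m
  have hle : ∀ T' w, IsPr Φ ν T' w → w 0 = u₀ → T' ≤ sSup A := by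
    intro T' w hw hw0
    by_cases hT' : 0 < T'
    · exact le_csSup hbd ⟨hT', w, hw, hw0⟩
    · exact (not_lt.1 hT').trans hpos.le
  refine ⟨sSup A, fun t => v t t, hpos, ?_, hsol, hsol0, fun T' w hw hw0 =>
    ⟨hle T' w hw hw0, fun t ht => ?_⟩⟩
  · exact hlt _ ⟨hpos, _, hsol, hsol0⟩
  · exact hag t ⟨ht.1, ht.2.trans_le (hle T' w hw hw0)⟩ T' w hw hw0 ht.2

end Pool.Agent.H226.GB
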