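import Pool.Agent.H226.GB.Spec7
import Pool.Agent.H226.GB.Prod
import Pool.Agent.H226.GB.TrigP
import Pool.Agent.H226.GB.Bas
import Pool.Agent.H226.GB.Up

/-!
Sobolev norms of combinations of the fields (helper721).
-/

set_option autoImplicit false

open MeasureTheory Set Filter Topology
open scoped ContDiff ENNReal
open H459R3.NS

namespace Pool.Agent.H226.GB

/-! ### Functions with prescribed frequencies in the three variables -/

/-- sums of two product functions, with frequencies in `A j` in the variable number `j` -/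
def hs_Y (A : Fin 3 → Set ℕ) (f : V → ℝ) : Prop :=
  ∃ F G H : Fin 2 → ℝ → ℝ, (∀ i, Trig (A 0) (F i)) ∧ (∀ i, Trig (A 1) (G i)) ∧
    (∀ i, Trig (A 2) (H i)) ∧ f = fun x => ∑ i, prd (F i) (G i) (H i) x

theorem hs_Tsmul {A : Set ℕ} {f : ℝ → ℝ} (hf : Trig A f) (c : ℝ) : Trig A (fun s => c * f s) :=
  Submodule.smul_mem _ c hf

theorem hs_pd {A : Fin 3 → Set ℕ} {f : V → ℝ} (h : hs_Y A f) (j : Fin 3) : hs_Y A (pd j f) := by
  obtain ⟨F, G, H, hF, hG, hH, rfl⟩ := h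
  have e : pd j (fun x => ∑ i, prd (F i) (G i) (H i) x) =
      fun x => ∑ i, pd j (prd (F i) (G i) (H i)) x := by
    funext x
    exact pd_sum (f := fun i => prd (F i) (G i) (H i))
      (fun i _ => s_prod.sp (s_trig.p1 (hF i)) (s_trig.p1 (hG i)) (s_trig.p1 (hH i))) j x
  rw [e]
  have hj : ∀ j : Fin 3, j = 0 ∨ j = 1 ∨ j = 2 := by decide
  rcases hj j with rfl | rfl | rfl
  · refine ⟨fun i => deriv (F i), G, H, fun i => s_trig.der (hF i), hG, hH, ?_⟩
    funext x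
    exact Finset.sum_congr rfl fun i _ => by
      rw [s_prod.pd0 (s_trig.p1 (hF i)) (s_trig.p1 (hG i)) (s_trig.p1 (hH i))]
  · refine ⟨F, fun i => deriv (G i), H, hF, fun i => s_trig.der (hG i), hH, ?_⟩
    funext x
    exact Finset.sum_congr rfl fun i _ => by
      rw [s_prod.pd1 (s_trig.p1 (hF i)) (s_trig.p1 (hG i)) (s_trig.p1 (hH i))]
  · refine ⟨F, G, fun i => deriv (H i), hF, hG, fun i => s_trig.der (hH i), ?_⟩
    funext x
    exact Finset.sum_congr rfl fun i _ => by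
      rw [s_prod.pd2 (s_trig.p1 (hF i)) (s_trig.p1 (hG i)) (s_trig.p1 (hH i))]

theorem hs_smul {A : Fin 3 → Set ℕ} {f : V → ℝ} (h : hs_Y A f) (c : ℝ) :
    hs_Y A (fun x => c * f x) := by
  obtain ⟨F, G, H, hF, hG, hH, rfl⟩ := h
  refine ⟨fun i s => c * F i s, G, H, fun i => hs_Tsmul (hF i) c, hG, hH, ?_⟩
  funext x
  rw [Finset.mul_sum]
  refine Finset.sum_congr rfl fun i _ => ?_
  unfold prd
  ring

/-- cosine with an integral frequency -/
noncomputable def hs_c (n : ℤ) (s : ℝ) : ℝ := Real.cos (2 * Real.pi * ((n : ℝ) * s))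

/-- sine with an integral frequency -/
noncomputable def hs_s (n : ℤ) (s : ℝ) : ℝ := Real.sin (2 * Real.pi * ((n : ℝ) * s))

theorem hs_cT (n : ℤ) : Trig {n.natAbs} (hs_c n) := by
  obtain ⟨a, ha⟩ := Int.eq_nat_or_neg n
  have hn : n.natAbs = a := by rcases ha with ha | ha <;> rw [ha] <;> simp
  have h : hs_c n = cs a := by
    funext s
    unfold hs_c cs
    rcases ha with ha | ha
    · rw [ha, Int.cast_natCast]
      congr 1
      ring
    · rw [ha, Int.cast_neg, Int.cast_natCast, ← Real.cos_neg]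
      congr 1
      ring
  rw [h, hn]
  exact TrigP_mcs (Set.mem_singleton a)

theorem hs_sT (n : ℤ) : Trig {n.natAbs} (hs_s n) := by
  obtain ⟨a, ha⟩ := Int.eq_nat_or_neg n
  have hn : n.natAbs = a := by rcases ha with ha | ha <;> rw [ha] <;> simp
  rw [hn]
  have h0 : Trig {a} (sn a) := TrigP_msn (Set.mem_singleton a)
  rcases ha with ha | ha
  · have h1 : hs_s n = sn a := by
      funext s
      unfold hs_s sn
      rw [ha, Int.cast_natCast]
      congr 1
      ring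
    rw [h1]
    exact h0
  · have h1 : hs_s n = fun s => (-1) * sn a s := by
      funext s
      unfold hs_s sn
      rw [ha, Int.cast_neg, Int.cast_natCast, neg_one_mul, ← Real.sin_neg]
      congr 1
      ring
    rw [h1]
    exact hs_Tsmul h0 _

theorem hs_z4 {g1 g2 g3 g4 : V → ℝ} (h1 : ∫ x in cube, g1 x = 0 ∧ IntegrableOn g1 cube)
    (h2 : ∫ x in cube, g2 x = 0 ∧ IntegrableOn g2 cube)
    (h3 : ∫ x in cube, g3 x = 0 ∧ IntegrableOn g3 cube)
    (h4 : ∫ x in cube, g4 x = 0 ∧ IntegrableOn g4 cube) (a b c d : ℝ) :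
    ∫ x in cube, (a * g1 x + b * g2 x + c * g3 x + d * g4 x) = 0 := by
  have i1 := h1.2.const_mul a
  have i2 := h2.2.const_mul b
  have i3 := h3.2.const_mul c
  have i4 := h4.2.const_mul d
  rw [integral_add (f := fun x => a * g1 x + b * g2 x + c * g3 x) ((i1.add i2).add i3) i4,
    integral_add (f := fun x => a * g1 x + b * g2 x) (i1.add i2) i3, integral_add i1 i2,
    integral_const_mul, integral_const_mul, integral_const_mul, integral_const_mul, h1.1, h2.1,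
    h3.1, h4.1]
  ring

theorem hs_int0 {A B : Fin 3 → Set ℕ} {F G H u v w : ℝ → ℝ} (hF : Trig (A 0) F)
    (hG : Trig (A 1) G) (hH : Trig (A 2) H) (hu : Trig (B 0) u) (hv : Trig (B 1) v)
    (hw : Trig (B 2) w) (h : ∃ j, ∀ a ∈ A j, ∀ b ∈ B j, a ≠ b) :
    ∫ x in cube, prd F G H x * prd u v w x = 0 := by
  have e : ∀ x, prd F G H x * prd u v w x =
      prd (fun s => F s * u s) (fun s => G s * v s) (fun s => H s * w s) x := by
    intro x
    unfold prd
    ring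
  simp only [e]
  rw [s_prod.int (s_prod.mul (s_trig.p1 hF) (s_trig.p1 hu))
    (s_prod.mul (s_trig.p1 hG) (s_trig.p1 hv)) (s_prod.mul (s_trig.p1 hH) (s_trig.p1 hw))]
  obtain ⟨j, hj⟩ := h
  have hj' : ∀ j : Fin 3, j = 0 ∨ j = 1 ∨ j = 2 := by decide
  rcases hj' j with rfl | rfl | rfl
  · rw [s_trig.int2 hF hu hj, zero_mul, zero_mul]
  · rw [s_trig.int2 hG hv hj, mul_zero, zero_mul]
  · rw [s_trig.int2 hH hw hj, mul_zero]

theorem hs_Ysp {A : Fin 3 → Set ℕ} {f : V → ℝ} (h : hs_Y A f) : SP f := by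
  obtain ⟨F, G, H, hF, hG, hH, rfl⟩ := h
  exact SP.sum fun i _ => s_prod.sp (s_trig.p1 (hF i)) (s_trig.p1 (hG i)) (s_trig.p1 (hH i))

theorem hs_int1 {A B : Fin 3 → Set ℕ} {f : V → ℝ} (hf : hs_Y A f) {u v w : ℝ → ℝ}
    (hu : Trig (B 0) u) (hv : Trig (B 1) v) (hw : Trig (B 2) w)
    (h : ∃ j, ∀ a ∈ A j, ∀ b ∈ B j, a ≠ b) : ∫ x in cube, f x * prd u v w x = 0 := by
  obtain ⟨F, G, H, hF, hG, hH, rfl⟩ := hf
  have hp : SP (prd u v w) := s_prod.sp (s_trig.p1 hu) (s_trig.p1 hv) (s_trig.p1 hw)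
  simp only [Finset.sum_mul]
  rw [integral_finsetSum]
  · exact Finset.sum_eq_zero fun i _ => hs_int0 (hF i) (hG i) (hH i) hu hv hw h
  · intro i _
    exact ((s_prod.sp (s_trig.p1 (hF i)) (s_trig.p1 (hG i)) (s_trig.p1 (hH i))).mul hp).int

theorem hs_ph (k : K3) (x : V) :
    2 * Real.pi * ph k x = 2 * Real.pi * ((k 0 : ℝ) * x 0) + 2 * Real.pi * ((k 1 : ℝ) * x 1) +
      2 * Real.pi * ((k 2 : ℝ) * x 2) := by
  unfold ph
  rw [Fin.sum_univ_three]
  ring

theorem hs_cos3 (k : K3) (x : V) : Real.cos (2 * Real.pi * ph k x) =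
    prd (hs_c (k 0)) (hs_c (k 1)) (hs_c (k 2)) x - prd (hs_c (k 0)) (hs_s (k 1)) (hs_s (k 2)) x -
      prd (hs_s (k 0)) (hs_c (k 1)) (hs_s (k 2)) x -
      prd (hs_s (k 0)) (hs_s (k 1)) (hs_c (k 2)) x := by
  rw [hs_ph, Real.cos_add, Real.cos_add, Real.sin_add]
  unfold prd hs_c hs_s
  ring

theorem hs_sin3 (k : K3) (x : V) : Real.sin (2 * Real.pi * ph k x) =
    prd (hs_s (k 0)) (hs_c (k 1)) (hs_c (k 2)) x + prd (hs_c (k 0)) (hs_s (k 1)) (hs_c (k 2)) x +
      prd (hs_c (k 0)) (hs_c (k 1)) (hs_s (k 2)) x -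
      prd (hs_s (k 0)) (hs_s (k 1)) (hs_s (k 2)) x := by
  rw [hs_ph, Real.sin_add, Real.cos_add, Real.sin_add]
  unfold prd hs_c hs_s
  ring

/-- vanishing of the Fourier coefficients -/
theorem hs_van {A : Fin 3 → Set ℕ} {f : V → ℝ} (hf : hs_Y A f) (k : K3)
    (h : ∃ j, (k j).natAbs ∉ A j) :
    ∫ x in cube, f x * Real.cos (2 * Real.pi * ph k x) = 0 ∧
    ∫ x in cube, f x * Real.sin (2 * Real.pi * ph k x) = 0 := by
  have h' : ∃ j, ∀ a ∈ A j, ∀ b ∈ (fun j => {(k j).natAbs} : Fin 3 → Set ℕ) j, a ≠ b := by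
    obtain ⟨j, hj⟩ := h
    refine ⟨j, fun a ha b hb hab => hj ?_⟩
    have hb' : b = (k j).natAbs := hb
    rw [← hb', ← hab]
    exact ha
  have hsp := hs_Ysp hf
  have c0 := hs_cT (k 0)
  have c1 := hs_cT (k 1)
  have c2 := hs_cT (k 2)
  have s0 := hs_sT (k 0)
  have s1 := hs_sT (k 1)
  have s2 := hs_sT (k 2)
  have key : ∀ {u v w : ℝ → ℝ}, Trig {(k 0).natAbs} u → Trig {(k 1).natAbs} v →
      Trig {(k 2).natAbs} w → ∫ x in cube, f x * prd u v w x = 0 ∧
      IntegrableOn (fun x => f x * prd u v w x) cube := by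
    intro u v w hu hv hw
    exact ⟨hs_int1 (B := fun j => {(k j).natAbs}) hf hu hv hw h',
      (hsp.mul (s_prod.sp (s_trig.p1 hu) (s_trig.p1 hv) (s_trig.p1 hw))).int⟩
  constructor
  · have h := hs_z4 (key c0 c1 c2) (key c0 s1 s2) (key s0 c1 s2) (key s0 s1 c2) 1 (-1) (-1) (-1)
    rw [← h]
    refine integral_congr_ae (Filter.Eventually.of_forall fun x => ?_)
    show f x * Real.cos (2 * Real.pi * ph k x) = _
    rw [hs_cos3]
    ring
  · have h := hs_z4 (key s0 c1 c2) (key c0 s1 c2) (key c0 c1 s2) (key s0 s1 s2) 1 1 1 (-1)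
    rw [← h]
    refine integral_congr_ae (Filter.Eventually.of_forall fun x => ?_)
    show f x * Real.sin (2 * Real.pi * ph k x) = _
    rw [hs_sin3]
    ring

/-! ### The fields -/

/-- the frequencies of the `m`-th field -/
def hs_A (m : ℕ) : Fin 3 → Set ℕ := ![{k | k ≤ 2 * NN m}, {k | k ≤ 2 * NN m}, Bas_A m]

theorem hs_F (m : ℕ) : Trig {k | k ≤ 2 * NN m} (fF (NN m)) := by
  have e : fF (NN m) = ∑ j ∈ Finset.Ico (NN m) (2 * NN m), sn j := by
    funext s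
    rw [Finset.sum_apply]
    rfl
  rw [e]
  refine Submodule.sum_mem _ fun j hj => TrigP_msn ?_
  rw [Finset.mem_Ico] at hj
  exact hj.2.le

theorem hs_G (m : ℕ) : Trig {k | k ≤ 2 * NN m} (fG (NN m)) := by
  have e : fG (NN m) = ∑ j ∈ Finset.Ico (NN m) (2 * NN m), cs j := by
    funext s
    rw [Finset.sum_apply]
    rfl
  rw [e]
  refine Submodule.sum_mem _ fun j hj => TrigP_mcs ?_
  rw [Finset.mem_Ico] at hj
  exact hj.2.le

theorem hs_th0 (m : ℕ) : hs_Y (hs_A m) (th0 m) := by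
  have hz : ∀ A : Set ℕ, Trig A (fun _ => 0) := fun A => Submodule.zero_mem _
  rcases Nat.eq_zero_or_pos m with rfl | hm
  · refine ⟨![fF (NN 0), fun _ => 0], ![fG (NN 0), fG (NN 0)], ![fH (NN 0), fH (NN 0)], ?_, ?_, ?_,
      ?_⟩
    · intro i
      fin_cases i
      · exact hs_F 0
      · exact hz _
    · intro i
      fin_cases i
      · exact hs_G 0
      · exact hs_G 0
    · intro i
      fin_cases i
      · exact Bas_H s_trig 0
      · exact Bas_H s_trig 0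
    · funext x
      rw [Fin.sum_univ_two]
      unfold th0 ee' psi prd
      simp
  · obtain ⟨n, rfl⟩ : ∃ n, m = n + 1 := ⟨m - 1, by omega⟩
    have h4 := Bas_NN n
    refine ⟨![fF (NN (n + 1)), fun s => ee' (n + 1) * sn (4 * NN (n + 1 - 1) - 3) s],
      ![fG (NN (n + 1)), cs (4 * NN (n + 1 - 1) - 2)],
      ![fH (NN (n + 1)), sn (2 * (17 * NN (n + 1 - 1) - 1))],
      ?_, ?_, ?_, ?_⟩
    · intro i
      fin_cases i
      · exact hs_F _
      · refine hs_Tsmul (TrigP_msn ?_) _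
        show 4 * NN (n + 1 - 1) - 3 ≤ 2 * NN (n + 1)
        rw [Nat.add_sub_cancel]
        omega
    · intro i
      fin_cases i
      · exact hs_G _
      · refine TrigP_mcs ?_
        show 4 * NN (n + 1 - 1) - 2 ≤ 2 * NN (n + 1)
        rw [Nat.add_sub_cancel]
        omega
    · intro i
      fin_cases i
      · exact Bas_H s_trig _
      · exact s_trig.sn (Or.inr ⟨hm, rfl⟩)
    · funext x
      rw [Fin.sum_univ_two]
      unfold th0 psi chi prd
      simp only [Matrix.cons_val_zero, Matrix.cons_val_one]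
      ring

theorem hs_comp (m : ℕ) (i : Fin 3) : hs_Y (hs_A m) (fun x => phi m x i) := by
  have h := hs_th0 m
  have hi : i = 0 ∨ i = 1 ∨ i = 2 := by
    revert i
    decide
  rcases hi with rfl | rfl | rfl
  · exact hs_smul (hs_pd h 2) (-(nm m)⁻¹)
  · have h1 := hs_smul h 0
    have e : (fun x => phi m x 1) = fun x => 0 * th0 m x := by
      funext x
      rw [Bas_phi1]
      ring
    rw [e]
    exact h1
  · have h1 := hs_smul (hs_pd h 0) ((nm m)⁻¹)
    have e : (fun x => phi m x 2) = fun x => (nm m)⁻¹ * pd 0 (th0 m) x := by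
      funext x
      rw [Bas_phi2]
      ring
    rw [e]
    exact h1

/-- the Fourier coefficients of the rescaled fields -/
theorem hs_supp (hI : S_int) {p : ℕ} (hp : 1 ≤ p) (m : ℕ) (i : Fin 3) (k : K3)
    (h : ¬ (∫ x in cube, phi m ((p : ℝ) • x) i * Real.cos (2 * Real.pi * ph k x) = 0 ∧
      ∫ x in cube, phi m ((p : ℝ) • x) i * Real.sin (2 * Real.pi * ph k x) = 0)) :
    ∃ k' : K3, (∀ j, k j = p * k' j) ∧ ∀ j, (k' j).natAbs ∈ hs_A m j := by
  have hp0 : (p : ℝ) ≠ 0 := by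
    have : (0 : ℝ) < p := by exact_mod_cast hp
    exact this.ne'
  have hY := hs_comp m i
  have hsp := hs_Ysp hY
  have hdiv : ∀ j, (p : ℤ) ∣ k j := by
    intro j
    by_contra hj
    exact h (up_mode hI hsp hp0 k j hj)
  choose k' hk' using hdiv
  refine ⟨k', hk', ?_⟩
  by_contra hc
  push Not at hc
  obtain ⟨v1, v2⟩ := hs_van hY k' hc
  have hph : ∀ x : V, ph k x = ph k' ((p : ℝ) • x) := by
    intro x
    unfold ph
    refine Finset.sum_congr rfl fun j _ => ?_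
    rw [hk' j, Pi.smul_apply, smul_eq_mul]
    push_cast
    ring
  apply h
  constructor
  · simp only [hph]
    rw [hI.1 (fun x => phi m x i * Real.cos (2 * Real.pi * ph k' x)) (hsp.mul (up_cos k')) p hp]
    exact v1
  · simp only [hph]
    rw [hI.1 (fun x => phi m x i * Real.sin (2 * Real.pi * ph k' x)) (hsp.mul (up_sin k')) p hp]
    exact v2

/-! ### Parseval -/

theorem hs_fr {f : V → ℝ} (hf : SP f) (k : K3) : ‖fr f k‖ ^ 2 =
    (∫ x in cube, f x * Real.cos (2 * Real.pi * ph k x)) ^ 2 +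
      (∫ x in cube, f x * Real.sin (2 * Real.pi * ph k x)) ^ 2 := by
  have i1 : Integrable (fun x => ((f x * Real.cos (2 * Real.pi * ph k x) : ℝ) : ℂ))
      (volume.restrict cube) := (hf.mul (up_cos k)).int.ofReal
  have i2 : Integrable (fun x => ((-(f x * Real.sin (2 * Real.pi * ph k x)) : ℝ) : ℂ) * Complex.I)
      (volume.restrict cube) := ((hf.mul (up_sin k)).int.neg.ofReal).mul_const _
  have e : fr f k = ((∫ x in cube, f x * Real.cos (2 * Real.pi * ph k x) : ℝ) : ℂ) +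
      ((-∫ x in cube, f x * Real.sin (2 * Real.pi * ph k x) : ℝ) : ℂ) * Complex.I := by
    rw [fr, fc, ← integral_neg, ← integral_complex_ofReal, ← integral_complex_ofReal,
      ← integral_mul_const, ← integral_add i1 i2]
    refine integral_congr_ae (Filter.Eventually.of_forall fun x => ?_)
    show ee (-k) x * (f x : ℂ) = _
    have h1 : ee (-k) x = Complex.exp (((-(2 * Real.pi * ph k x) : ℝ) : ℂ) * Complex.I) := by
      rw [ee, ph_neg]
      congr 1
      push_cast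
      ring
    rw [h1, Complex.exp_mul_I, ← Complex.ofReal_cos, ← Complex.ofReal_sin, Real.cos_neg,
      Real.sin_neg]
    push_cast
    ring
  rw [e, ← Complex.normSq_eq_norm_sq, Complex.normSq_add_mul_I, neg_sq]

theorem hs_summable {f : V → ℝ} (hf : SP f) : Summable fun k => ‖fr f k‖ ^ 2 := by
  obtain ⟨C, hC⟩ := norm_fr_le hf
  refine Summable.of_nonneg_of_le (fun k => by positivity) (fun k => ?_)
    ((rap_fr hf).summable.norm.mul_left C)
  rw [sq]
  exact mul_le_mul_of_nonneg_right (hC k) (norm_nonneg _)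

theorem hs_tsum {f : V → ℝ} (hf : SP f) : ∑' k, ‖fr f k‖ ^ 2 = ∫ x in cube, f x ^ 2 := by
  rw [← n2_fr hf, n2, Real.sq_sqrt (tsum_nonneg fun k => by positivity)]

theorem hs_fq (v : V → V) (hv : ∀ i, SP fun x => v x i) (k : K3) :
    fq v k = ∑ i, ‖fr (fun x => v x i) k‖ ^ 2 := by
  unfold fq
  refine Finset.sum_congr rfl fun i _ => ?_
  rw [hs_fr (hv i)]
  rfl

theorem hs_pars (hI : S_int) (hb : Basis phi cc pp gg) {p : ℕ} (hp : 1 ≤ p) (m : ℕ) :
    ∑' k, ENNReal.ofReal (fq (fun x i => phi m ((p : ℝ) • x) i) k) = 1 := by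
  have hsp : ∀ i, SP fun x => phi m ((p : ℝ) • x) i := fun i => up_sp (hb.sp m i) p
  have e : ∀ k, fq (fun x i => phi m ((p : ℝ) • x) i) k =
      ∑ i, ‖fr (fun x => phi m ((p : ℝ) • x) i) k‖ ^ 2 := fun k => hs_fq _ hsp k
  simp only [e]
  rw [← ENNReal.ofReal_tsum_of_nonneg (fun k => Finset.sum_nonneg fun i _ => by positivity)
    (summable_sum fun i _ => hs_summable (hsp i)),
    Summable.tsum_finsetSum (fun i _ => hs_summable (hsp i))]
  have h1 : ∑ i, ∑' k, ‖fr (fun x => phi m ((p : ℝ) • x) i) k‖ ^ 2 = 1 := by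
    have h2 := hb.on m m
    rw [if_pos rfl] at h2
    rw [← h2, ip]
    refine Finset.sum_congr rfl fun i _ => ?_
    rw [hs_tsum (hsp i)]
    have h3 := hI.1 (fun x => phi m x i * phi m x i) ((hb.sp m i).mul (hb.sp m i)) p hp
    rw [← h3]
    refine integral_congr_ae (Filter.Eventually.of_forall fun x => ?_)
    show phi m ((p : ℝ) • x) i ^ 2 = phi m ((p : ℝ) • x) i * phi m ((p : ℝ) • x) i
    rw [sq]
  rw [h1, ENNReal.ofReal_one]

/-! ### Assembly -/

theorem hs_sq (M : ℕ) (d c : ℕ → ℝ) (h : ∀ m n, m ≠ n → c m * c n = 0) :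
    (∑ m ∈ Finset.range M, d m * c m) ^ 2 = ∑ m ∈ Finset.range M, d m ^ 2 * c m ^ 2 := by
  rw [sq, Finset.sum_mul_sum]
  refine Finset.sum_congr rfl fun m hm => ?_
  rw [Finset.sum_eq_single m]
  · ring
  · intro n _ hn
    have h1 := h m n hn.symm
    calc d m * c m * (d n * c n) = d m * d n * (c m * c n) := by ring
      _ = 0 := by rw [h1, mul_zero]
  · intro h1
    exact absurd hm h1

theorem hs_dis {p : ℕ} (hp : 1 ≤ p) {m n : ℕ} (hmn : m ≠ n) {k : K3}
    (h1 : ∃ k' : K3, (∀ j, k j = p * k' j) ∧ ∀ j, (k' j).natAbs ∈ hs_A m j)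
    (h2 : ∃ k' : K3, (∀ j, k j = p * k' j) ∧ ∀ j, (k' j).natAbs ∈ hs_A n j) : False := by
  obtain ⟨k', a1, a2⟩ := h1
  obtain ⟨k'', b1, b2⟩ := h2
  have hp0 : (p : ℤ) ≠ 0 := by
    have : 0 < p := hp
    exact_mod_cast this.ne'
  have h3 : k' 2 = k'' 2 := by
    have h4 := a1 2
    rw [b1 2] at h4
    exact (mul_left_cancel₀ hp0 h4).symm
  exact Bas_ne hmn _ (a2 2) _ (b2 2) (by rw [h3])

theorem hs_bd {p : ℕ} (hp : 1 ≤ p) {m : ℕ} {k : K3}
    (h1 : ∃ k' : K3, (∀ j, k j = p * k' j) ∧ ∀ j, (k' j).natAbs ∈ hs_A m j) :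
    1 + ∑ j, (k j : ℝ) ^ 2 ≤ 298 * (p : ℝ) ^ 2 * (RR m : ℝ) ^ 4 := by
  obtain ⟨k', a1, a2⟩ := h1
  have b0 : (k' 0).natAbs ≤ 2 * NN m := a2 0
  have b1 : (k' 1).natAbs ≤ 2 * NN m := a2 1
  have b2 : (k' 2).natAbs ≤ 17 * NN m := (Bas_hi (a2 2)).trans (Nat.sub_le _ _)
  have hsq : ∀ (j : Fin 3) (c : ℕ), (k' j).natAbs ≤ c → (k' j : ℝ) ^ 2 ≤ (c : ℝ) ^ 2 := by
    intro j c h
    have h1 : ((k' j).natAbs : ℝ) = |(k' j : ℝ)| := by
      rw [Nat.cast_natAbs, Int.cast_abs]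
    rw [← sq_abs (k' j : ℝ), ← h1]
    have h2 : ((k' j).natAbs : ℝ) ≤ c := by exact_mod_cast h
    exact pow_le_pow_left₀ (Nat.cast_nonneg _) h2 2
  have c0 := hsq 0 _ b0
  have c1 := hsq 1 _ b1
  have c2 := hsq 2 _ b2
  have hk : ∀ j, (k j : ℝ) = p * (k' j : ℝ) := by
    intro j
    rw [a1 j]
    push_cast
    ring
  have hN : (NN m : ℝ) = (RR m : ℝ) ^ 2 := by
    unfold NN
    push_cast
    ring
  have hN1 : (1 : ℝ) ≤ (NN m : ℝ) := by exact_mod_cast Bas_NNpos m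
  have hp1 : (1 : ℝ) ≤ (p : ℝ) := by exact_mod_cast hp
  have e4 : (RR m : ℝ) ^ 4 = (NN m : ℝ) ^ 2 := by
    rw [hN]
    ring
  rw [e4, Fin.sum_univ_three, hk 0, hk 1, hk 2]
  push_cast at c0 c1 c2
  have h5 : (1 : ℝ) ≤ (p : ℝ) ^ 2 * (NN m : ℝ) ^ 2 := by
    have := one_le_mul_of_one_le_of_one_le hp1 hN1
    calc (1 : ℝ) = 1 ^ 2 := by norm_num
      _ ≤ ((p : ℝ) * (NN m : ℝ)) ^ 2 := pow_le_pow_left₀ zero_le_one this 2
      _ = _ := by ring
  have h6 : (p : ℝ) ^ 2 * ((k' 0 : ℝ) ^ 2 + (k' 1 : ℝ) ^ 2 + (k' 2 : ℝ) ^ 2) ≤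
      (p : ℝ) ^ 2 * ((2 * (NN m : ℝ)) ^ 2 + (2 * (NN m : ℝ)) ^ 2 + (17 * (NN m : ℝ)) ^ 2) := by
    gcongr
  calc 1 + (((p : ℝ) * (k' 0 : ℝ)) ^ 2 + ((p : ℝ) * (k' 1 : ℝ)) ^ 2 + ((p : ℝ) * (k' 2 : ℝ)) ^ 2)
      = 1 + (p : ℝ) ^ 2 * ((k' 0 : ℝ) ^ 2 + (k' 1 : ℝ) ^ 2 + (k' 2 : ℝ) ^ 2) := by ring
    _ ≤ (p : ℝ) ^ 2 * (NN m : ℝ) ^ 2 + (p : ℝ) ^ 2 *
        ((2 * (NN m : ℝ)) ^ 2 + (2 * (NN m : ℝ)) ^ 2 + (17 * (NN m : ℝ)) ^ 2) :=
        add_le_add h5 h6
    _ = 298 * (p : ℝ) ^ 2 * (NN m : ℝ) ^ 2 := by ring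

theorem s_hs (hI : S_int) (hb : Basis phi cc pp gg) : S_hs := by
  intro p s hp hs0
  have hC0 : (0 : ℝ) ≤ 298 * (p : ℝ) ^ 2 := by positivity
  refine ⟨(298 * (p : ℝ) ^ 2) ^ s, by positivity, fun d M => ?_⟩
  have hsp : ∀ m i, SP fun x => phi m ((p : ℝ) • x) i := fun m i => up_sp (hb.sp m i) p
  -- the coefficients
  have hcos : ∀ (i : Fin 3) (k : K3), (∫ x in cube, (∑ m ∈ Finset.range M,
      d m * phi m ((p : ℝ) • x) i) * Real.cos (2 * Real.pi * ph k x)) =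
      ∑ m ∈ Finset.range M, d m * ∫ x in cube, phi m ((p : ℝ) • x) i *
        Real.cos (2 * Real.pi * ph k x) := by
    intro i k
    simp only [Finset.sum_mul, mul_assoc (d _)]
    rw [integral_finsetSum]
    · simp only [integral_const_mul]
    · intro m _
      exact (((hsp m i).mul (up_cos k)).int).const_mul _
  have hsin : ∀ (i : Fin 3) (k : K3), (∫ x in cube, (∑ m ∈ Finset.range M,
      d m * phi m ((p : ℝ) • x) i) * Real.sin (2 * Real.pi * ph k x)) =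
      ∑ m ∈ Finset.range M, d m * ∫ x in cube, phi m ((p : ℝ) • x) i *
        Real.sin (2 * Real.pi * ph k x) := by
    intro i k
    simp only [Finset.sum_mul, mul_assoc (d _)]
    rw [integral_finsetSum]
    · simp only [integral_const_mul]
    · intro m _
      exact (((hsp m i).mul (up_sin k)).int).const_mul _
  have hfq : ∀ k : K3, fq (fun x i => ∑ m ∈ Finset.range M, d m * phi m ((p : ℝ) • x) i) k =
      ∑ m ∈ Finset.range M, d m ^ 2 * fq (fun x i => phi m ((p : ℝ) • x) i) k := by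
    intro k
    have e1 : fq (fun x i => ∑ m ∈ Finset.range M, d m * phi m ((p : ℝ) • x) i) k =
        ∑ i, ((∫ x in cube, (∑ m ∈ Finset.range M,
      d m * phi m ((p : ℝ) • x) i) * Real.cos (2 * Real.pi * ph k x)) ^ 2 +
        (∫ x in cube, (∑ m ∈ Finset.range M,
      d m * phi m ((p : ℝ) • x) i) * Real.sin (2 * Real.pi * ph k x)) ^ 2) := rfl
    have e2 : ∀ m, fq (fun x i => phi m ((p : ℝ) • x) i) k =
        ∑ i, ((∫ x in cube, phi m ((p : ℝ) • x) i * Real.cos (2 * Real.pi * ph k x)) ^ 2 +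
        (∫ x in cube, phi m ((p : ℝ) • x) i * Real.sin (2 * Real.pi * ph k x)) ^ 2) :=
      fun m => rfl
    rw [e1]
    simp only [e2, Finset.mul_sum]
    rw [Finset.sum_comm]
    refine Finset.sum_congr rfl fun i _ => ?_
    rw [hcos, hsin, hs_sq, hs_sq, ← Finset.sum_add_distrib]
    · exact Finset.sum_congr rfl fun m _ => by ring
    · intro m n hmn
      by_contra h0
      refine hs_dis hp hmn (hs_supp hI hp m i k fun h => h0 ?_) (hs_supp hI hp n i k fun h => h0 ?_)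
      · rw [h.2, zero_mul]
      · rw [h.2, mul_zero]
    · intro m n hmn
      by_contra h0
      refine hs_dis hp hmn (hs_supp hI hp m i k fun h => h0 ?_) (hs_supp hI hp n i k fun h => h0 ?_)
      · rw [h.1, zero_mul]
      · rw [h.1, mul_zero]
  have hfq0 : ∀ (m : ℕ) (k : K3), 0 ≤ fq (fun x i => phi m ((p : ℝ) • x) i) k := by
    intro m k
    unfold fq
    positivity
  -- the weight
  have hw : ∀ (m : ℕ) (k : K3), (1 + ∑ j, (k j : ℝ) ^ 2) ^ s *
      fq (fun x i => phi m ((p : ℝ) • x) i) k ≤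
      (298 * (p : ℝ) ^ 2) ^ s * (RR m : ℝ) ^ (4 * s) *
        fq (fun x i => phi m ((p : ℝ) • x) i) k := by
    intro m k
    by_cases h0 : fq (fun x i => phi m ((p : ℝ) • x) i) k = 0
    · rw [h0, mul_zero, mul_zero]
    · have h1 : ∃ i, ¬ (∫ x in cube, phi m ((p : ℝ) • x) i * Real.cos (2 * Real.pi * ph k x) = 0 ∧
          ∫ x in cube, phi m ((p : ℝ) • x) i * Real.sin (2 * Real.pi * ph k x) = 0) := by
        by_contra h2
        push Not at h2
        apply h0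
        show ∑ i, ((∫ x in cube, phi m ((p : ℝ) • x) i * Real.cos (2 * Real.pi * ph k x)) ^ 2 +
          (∫ x in cube, phi m ((p : ℝ) • x) i * Real.sin (2 * Real.pi * ph k x)) ^ 2) = 0
        refine Finset.sum_eq_zero fun i _ => ?_
        have h3 := h2 i
        by_cases h4 : ∫ x in cube, phi m ((p : ℝ) • x) i * Real.cos (2 * Real.pi * ph k x) = 0 ∧
          ∫ x in cube, phi m ((p : ℝ) • x) i * Real.sin (2 * Real.pi * ph k x) = 0
        · rw [h4.1, h4.2]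
          norm_num
        · exact absurd (h2 i) h4
      obtain ⟨i, hi⟩ := h1
      have h2 := hs_bd hp (hs_supp hI hp m i k hi)
      have h3 : (1 + ∑ j, (k j : ℝ) ^ 2) ^ s ≤ (298 * (p : ℝ) ^ 2 * (RR m : ℝ) ^ 4) ^ s :=
        Real.rpow_le_rpow (by positivity) h2 hs0
      have h4 : (298 * (p : ℝ) ^ 2 * (RR m : ℝ) ^ 4) ^ s =
          (298 * (p : ℝ) ^ 2) ^ s * (RR m : ℝ) ^ (4 * s) := by
        rw [Real.mul_rpow hC0 (by positivity), Real.rpow_mul (by positivity)]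
        congr 2
        norm_num
      rw [h4] at h3
      exact mul_le_mul_of_nonneg_right h3 (hfq0 m k)
  have hA0 : ∀ m, 0 ≤ d m ^ 2 * ((298 * (p : ℝ) ^ 2) ^ s * (RR m : ℝ) ^ (4 * s)) :=
    fun m => by positivity
  have hterm : ∀ k : K3, ENNReal.ofReal ((1 + ∑ j, (k j : ℝ) ^ 2) ^ s *
      fq (fun x i => ∑ m ∈ Finset.range M, d m * phi m ((p : ℝ) • x) i) k) ≤
      ∑ m ∈ Finset.range M, ENNReal.ofReal (d m ^ 2 * ((298 * (p : ℝ) ^ 2) ^ s *
        (RR m : ℝ) ^ (4 * s))) * ENNReal.ofReal (fq (fun x i => phi m ((p : ℝ) • x) i) k) := by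
    intro k
    rw [hfq, Finset.mul_sum]
    have e3 : ∀ m, ENNReal.ofReal (d m ^ 2 * ((298 * (p : ℝ) ^ 2) ^ s *
        (RR m : ℝ) ^ (4 * s))) * ENNReal.ofReal (fq (fun x i => phi m ((p : ℝ) • x) i) k) =
        ENNReal.ofReal (d m ^ 2 * ((298 * (p : ℝ) ^ 2) ^ s *
        (RR m : ℝ) ^ (4 * s)) * fq (fun x i => phi m ((p : ℝ) • x) i) k) :=
      fun m => (ENNReal.ofReal_mul (hA0 m)).symm
    simp only [e3]
    rw [← ENNReal.ofReal_sum_of_nonneg (fun m _ => mul_nonneg (hA0 m) (hfq0 m k))]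
    apply ENNReal.ofReal_le_ofReal
    refine Finset.sum_le_sum fun m _ => ?_
    have h1 := mul_le_mul_of_nonneg_left (hw m k) (sq_nonneg (d m))
    calc (1 + ∑ j, (k j : ℝ) ^ 2) ^ s * (d m ^ 2 * fq (fun x i => phi m ((p : ℝ) • x) i) k) =
        d m ^ 2 * ((1 + ∑ j, (k j : ℝ) ^ 2) ^ s * fq (fun x i => phi m ((p : ℝ) • x) i) k) := by
          ring
      _ ≤ _ := h1
      _ = _ := by ring
  unfold hs
  refine (ENNReal.tsum_le_tsum hterm).trans (le_of_eq ?_)
  rw [Summable.tsum_finsetSum (fun m _ => ENNReal.summable)]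
  simp only [ENNReal.tsum_mul_left, hs_pars hI hb hp, mul_one]
  rw [← ENNReal.ofReal_sum_of_nonneg (fun m _ => hA0 m), Finset.mul_sum]
  congr 1
  exact Finset.sum_congr rfl fun m _ => by ring

end Pool.Agent.H226.GB

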