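import Pool.Agent.H226.GB.Fin2
import Pool.Agent.H226.GB.Fin3
import Pool.Agent.H226.GB.IntP
import Pool.Agent.H226.GB.Down
import Pool.Agent.H226.GB.Shift
import Pool.Agent.H226.GB.Up
import Pool.Agent.H226.GB.MemDown
import Pool.Agent.H226.GB.Hs
import Pool.Agent.H226.GB.Hsb
import Pool.Agent.H226.GB.Stat
import Pool.Agent.H226.GB.Avg
import Pool.Agent.H226.GB.ProjP

/-!
The projection onto the larger spaces: existence, uniqueness and blow-up.
-/

open MeasureTheory Set Filter Topology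
open scoped ContDiff ENNReal
open H459R3.NS

namespace Pool.Agent.H226.GB

/-- local existence -/
theorem f_loc {ν : ℝ} (hν : 0 ≤ ν) (d : ℕ → ℝ) (M : ℕ) :
    ∃ τ > 0, ∃ u, IsGal phi ν τ u ∧ u 0 = red_comb phi d M := by
  have hC := f_coef hν
  obtain ⟨τ, hτ, a, h1, h2, h3, h4⟩ := s_loc1 _ _ _ _ hC (fun m => if m < M then d m else 0)
    (fun s => by
      refine ⟨∑ m ∈ Finset.range M, (RR m : ℝ) ^ s * |d m|, fun m => ?_⟩
      have hnn : ∀ m, 0 ≤ (RR m : ℝ) ^ s * |d m| := fun m =>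
        mul_nonneg (pow_nonneg (RR_pos m).le s) (abs_nonneg _)
      by_cases hm : m < M
      · rw [if_pos hm]
        exact Finset.single_le_sum (f := fun m => (RR m : ℝ) ^ s * |d m|) (fun m _ => hnn m)
          (Finset.mem_range.2 hm)
      · rw [if_neg hm, abs_zero, mul_zero]
        exact Finset.sum_nonneg fun m _ => hnn m)
  have h5 := s_loc2 _ _ _ _ hC τ a h1 h2 h4
  obtain ⟨u, hu, hu'⟩ := s_loc3 s_prod s_one s_trig f_nm f_bas f_gg f_ccu f_pp ν τ a hν hτ h5 h4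
  refine ⟨τ, hτ, u, hu, ?_⟩
  funext x i
  have h6 := hu' 0 ⟨le_rfl, hτ⟩ x i
  simp only [h3] at h6
  have h7 : HasSum (fun m => (if m < M then d m else 0) * phi m x i)
      (∑ m ∈ Finset.range M, (if m < M then d m else 0) * phi m x i) :=
    hasSum_sum_of_ne_finset_zero fun k hk => by
      rw [Finset.mem_range] at hk
      rw [if_neg hk, zero_mul]
  rw [h6.unique h7]
  unfold red_comb
  exact Finset.sum_congr rfl fun m hm => by rw [if_pos (Finset.mem_range.1 hm)]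

/-- the field `p⁻¹ v (p x)` -/
noncomputable def up0 (p : ℕ) (v : V → V) (x : V) : V := (p : ℝ)⁻¹ • v ((p : ℝ) • x)

theorem f_noSolP (hM : S_memdown) {p : ℕ} (hp : 1 ≤ p) {ν T : ℝ} (hν : 0 ≤ ν) {d : ℕ → ℝ} {M : ℕ}
    (hno : ∀ u, IsGal phi (ν * p ^ 2) T u → u 0 ≠ red_comb phi d M) (u : ℝ → V → V)
    (hu : IsPr (Fp phi p) ν T u) : u 0 ≠ up0 p (red_comb phi d M) := by
  intro hu0
  have hp0 : (p : ℝ) ≠ 0 := by
    have : p ≠ 0 := by omega
    exact_mod_cast this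
  have hΦ : ∀ w ∈ Fp phi p, ∀ i, SP (fun x => w x i) := fun w hw => shift_sp_Fp f_sf hw
  have hper : ∀ t ∈ Ico 0 T, ∀ (j : Fin 3) (x : V), u t (x + Pi.single j (1 / (p : ℝ))) = u t x := by
    intro t ht j x
    have h1 := s_shift s_int phi p f_sf hp ν T u hu j
    have h2 : (fun (t : ℝ) (x : V) => u t (x + Pi.single j (1 / (p : ℝ)))) 0 = u 0 := by
      funext y
      show u 0 (y + Pi.single j (1 / (p : ℝ))) = u 0 y
      rw [hu0]
      unfold up0
      congr 1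
      have h3 : (p : ℝ) • (y + Pi.single j (1 / (p : ℝ))) = (p : ℝ) • y + Pi.single j 1 := by
        rw [smul_add, ← Pi.single_smul, smul_eq_mul, mul_one_div_cancel hp0]
      rw [h3]
      funext i
      exact (red_comb_sf f_sf d M i).per j ((p : ℝ) • y)
    exact congrFun (s_uniP _ hΦ ν T _ u hν h1 hu h2 t ht) x
  refine hno _ (s_down s_int hM phi p f_sf hp ν T u hu hper) ?_
  funext x
  show (p : ℝ) • u 0 ((p : ℝ)⁻¹ • x) = red_comb phi d M x
  rw [hu0]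
  unfold up0
  rw [smul_smul, mul_inv_cancel₀ hp0, one_smul, smul_smul, mul_inv_cancel₀ hp0, one_smul]

theorem f_locP {p : ℕ} (hp : 1 ≤ p) {ν : ℝ} (hν : 0 ≤ ν) (d : ℕ → ℝ) (M : ℕ) :
    ∃ τ > 0, ∃ u, IsPr (Fp phi p) ν τ u ∧ u 0 = up0 p (red_comb phi d M) := by
  obtain ⟨τ, hτ, u, hu, hu0⟩ := f_loc (show 0 ≤ ν * (p : ℝ) ^ 2 by positivity) d M
  refine ⟨τ, hτ, _, s_up s_int phi p f_sf hp ν τ u hu, ?_⟩
  funext x
  show (p : ℝ)⁻¹ • u 0 ((p : ℝ) • x) = _
  rw [hu0]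
  rfl

theorem f_hs {p : ℕ} (hp : 1 ≤ p) {s : ℝ} (hs0 : 0 ≤ s) : ∃ C : ℝ, 0 ≤ C ∧
    ∀ (b d : ℕ → ℝ) (L M : ℕ), L ≤ M → (∀ m < L, d m = b m) →
    hs s (up0 p (red_comb phi d M) - up0 p (red_comb phi b L))
      ≤ ENNReal.ofReal (C * ∑ m ∈ Finset.Ico L M, (RR m : ℝ) ^ (4 * s) * d m ^ 2) := by
  obtain ⟨C, hC, h⟩ := s_hs s_int f_bas p s hp hs0
  refine ⟨C, hC, fun b d L M hLM hd => ?_⟩
  have hp1 : (1 : ℝ) ≤ p := by exact_mod_cast hp
  set d' : ℕ → ℝ := fun m => if m < L then 0 else (p : ℝ)⁻¹ * d m with hd'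
  have e1 : up0 p (red_comb phi d M) - up0 p (red_comb phi b L)
      = fun x i => ∑ m ∈ Finset.range M, d' m * phi m ((p : ℝ) • x) i := by
    funext x i
    show (p : ℝ)⁻¹ * (∑ m ∈ Finset.range M, d m * phi m ((p : ℝ) • x) i)
      - (p : ℝ)⁻¹ * (∑ m ∈ Finset.range L, b m * phi m ((p : ℝ) • x) i) = _
    rw [← mul_sub, ← Finset.sum_range_add_sum_Ico (fun m => d m * phi m ((p : ℝ) • x) i) hLM,
      ← Finset.sum_range_add_sum_Ico (fun m => d' m * phi m ((p : ℝ) • x) i) hLM]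
    have a1 : ∑ m ∈ Finset.range L, d m * phi m ((p : ℝ) • x) i
        = ∑ m ∈ Finset.range L, b m * phi m ((p : ℝ) • x) i :=
      Finset.sum_congr rfl fun m hm => by rw [hd m (Finset.mem_range.1 hm)]
    have a2 : ∑ m ∈ Finset.range L, d' m * phi m ((p : ℝ) • x) i = 0 :=
      Finset.sum_eq_zero fun m hm => by
        simp only [hd']
        rw [if_pos (Finset.mem_range.1 hm), zero_mul]
    have a3 : ∑ m ∈ Finset.Ico L M, d' m * phi m ((p : ℝ) • x) i
        = (p : ℝ)⁻¹ * ∑ m ∈ Finset.Ico L M, d m * phi m ((p : ℝ) • x) i := by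
      rw [Finset.mul_sum]
      refine Finset.sum_congr rfl fun m hm => ?_
      simp only [hd']
      rw [if_neg (by have := (Finset.mem_Ico.1 hm).1; omega), mul_assoc]
    rw [a1, a2, a3]
    ring
  rw [e1]
  refine (h d' M).trans (ENNReal.ofReal_le_ofReal (mul_le_mul_of_nonneg_left ?_ hC))
  rw [← Finset.sum_range_add_sum_Ico _ hLM]
  have a2 : ∑ m ∈ Finset.range L, (RR m : ℝ) ^ (4 * s) * d' m ^ 2 = 0 :=
    Finset.sum_eq_zero fun m hm => by
      simp only [hd']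
      rw [if_pos (Finset.mem_range.1 hm)]
      ring
  rw [a2, zero_add]
  refine Finset.sum_le_sum fun m hm => ?_
  simp only [hd']
  rw [if_neg (by have := (Finset.mem_Ico.1 hm).1; omega)]
  have h1 : ((p : ℝ)⁻¹) ^ 2 ≤ 1 := pow_le_one₀ (by positivity) (inv_le_one_of_one_le₀ hp1)
  have h2 : (0 : ℝ) ≤ (RR m : ℝ) ^ (4 * s) := Real.rpow_nonneg (Nat.cast_nonneg _) _
  refine mul_le_mul_of_nonneg_left ?_ h2
  rw [mul_pow]
  nlinarith [sq_nonneg (d m)]

/-- the rescaled fields -/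
def Sp1 (p : ℕ) : Set (V → V) := {w | ∃ m, ∀ x, w x = phi m ((p : ℝ) • x)}

theorem f_up_mem {p : ℕ} (d : ℕ → ℝ) (M : ℕ) :
    up0 p (red_comb phi d M) ∈ Submodule.span ℝ (Sp1 p) := by
  have e : up0 p (red_comb phi d M)
      = ∑ m ∈ Finset.range M, ((p : ℝ)⁻¹ * d m) • (fun x => phi m ((p : ℝ) • x)) := by
    funext x i
    rw [Finset.sum_apply, Finset.sum_apply]
    show (p : ℝ)⁻¹ * ∑ m ∈ Finset.range M, d m * phi m ((p : ℝ) • x) i
      = ∑ m ∈ Finset.range M, (p : ℝ)⁻¹ * d m * phi m ((p : ℝ) • x) i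
    rw [Finset.mul_sum]
    exact Finset.sum_congr rfl fun m _ => by ring
  rw [e]
  exact Submodule.sum_mem _ fun m _ => Submodule.smul_mem _ _
    (Submodule.subset_span ⟨m, fun _ => rfl⟩)

theorem f_mem_up {p : ℕ} (hp : 1 ≤ p) {w : V → V} (hw : w ∈ Submodule.span ℝ (Sp1 p)) :
    ∃ (d : ℕ → ℝ) (M : ℕ), w = up0 p (red_comb phi d M) := by
  have hp0 : (p : ℝ) ≠ 0 := by
    have : p ≠ 0 := by omega
    exact_mod_cast this
  induction hw using Submodule.span_induction with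
  | mem w h =>
    obtain ⟨m, hm⟩ := h
    refine ⟨fun k => if k = m then (p : ℝ) else 0, m + 1, ?_⟩
    funext x i
    rw [hm x]
    show phi m ((p : ℝ) • x) i = (p : ℝ)⁻¹ * ∑ k ∈ Finset.range (m + 1),
      (if k = m then (p : ℝ) else 0) * phi k ((p : ℝ) • x) i
    rw [Finset.sum_eq_single m, if_pos rfl, ← mul_assoc, inv_mul_cancel₀ hp0, one_mul]
    · intro k _ hk
      rw [if_neg hk, zero_mul]
    · intro h
      exact absurd (Finset.mem_range.2 (Nat.lt_succ_self m)) h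
  | zero =>
    refine ⟨fun _ => 0, 0, ?_⟩
    funext x i
    show (0 : ℝ) = (p : ℝ)⁻¹ * ∑ k ∈ Finset.range 0, (0 : ℝ) * phi k ((p : ℝ) • x) i
    simp
  | add v w _ _ hv hw =>
    obtain ⟨d, M, hd⟩ := hv
    obtain ⟨e, N, he⟩ := hw
    refine ⟨fun k => (if k < M then d k else 0) + (if k < N then e k else 0), max M N, ?_⟩
    have key : ∀ (d : ℕ → ℝ) (M R : ℕ), M ≤ R → ∀ y i, ∑ k ∈ Finset.range R,
        (if k < M then d k else 0) * phi k y i = ∑ k ∈ Finset.range M, d k * phi k y i := by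
      intro d M R hMR y i
      rw [← Finset.sum_range_add_sum_Ico _ hMR]
      have a1 : ∑ k ∈ Finset.Ico M R, (if k < M then d k else 0) * phi k y i = 0 :=
        Finset.sum_eq_zero fun k hk => by
          rw [if_neg (by have := (Finset.mem_Ico.1 hk).1; omega), zero_mul]
      rw [a1, add_zero]
      exact Finset.sum_congr rfl fun k hk => by rw [if_pos (Finset.mem_range.1 hk)]
    funext x i
    show v x i + w x i = (p : ℝ)⁻¹ * ∑ k ∈ Finset.range (max M N),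
      ((if k < M then d k else 0) + (if k < N then e k else 0)) * phi k ((p : ℝ) • x) i
    have a2 : ∑ k ∈ Finset.range (max M N),
        ((if k < M then d k else 0) + (if k < N then e k else 0)) * phi k ((p : ℝ) • x) i
        = ∑ k ∈ Finset.range M, d k * phi k ((p : ℝ) • x) i
          + ∑ k ∈ Finset.range N, e k * phi k ((p : ℝ) • x) i := by
      rw [← key d M _ (le_max_left _ _), ← key e N _ (le_max_right _ _), ← Finset.sum_add_distrib]
      exact Finset.sum_congr rfl fun k _ => by ring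
    rw [a2, mul_add, hd, he]
    rfl
  | smul c w _ hw =>
    obtain ⟨d, M, hd⟩ := hw
    refine ⟨fun k => c * d k, M, ?_⟩
    funext x i
    rw [hd]
    show c * ((p : ℝ)⁻¹ * ∑ k ∈ Finset.range M, d k * phi k ((p : ℝ) • x) i)
      = (p : ℝ)⁻¹ * ∑ k ∈ Finset.range M, c * d k * phi k ((p : ℝ) • x) i
    rw [Finset.mul_sum, Finset.mul_sum, Finset.mul_sum]
    exact Finset.sum_congr rfl fun k _ => by ring

/-- **the main theorem** -/
theorem f_main {p : ℕ} (hp : 1 ≤ p) {ν₀ T : ℝ} (hν₀ : 0 ≤ ν₀) (hT : 0 < T) {e : ℕ}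
    (he : e = 1 ∨ e = 5 ∧ ν₀ = 0) {s : ℝ} (hs : s < e / 2) {w : V → V}
    (hw : w ∈ Submodule.span ℝ (Sp1 p)) {ε : ℝ} (hε : 0 < ε) :
    ∃ u₀ ∈ Submodule.span ℝ (Sp1 p), GB.hs s (u₀ - w) < ENNReal.ofReal ε ∧
      ∀ ν, 0 ≤ ν → ν ≤ ν₀ → ∃ (Tm : ℝ) (u : ℝ → V → V), 0 < Tm ∧ Tm < T ∧
        IsPr (Fp phi p) ν Tm u ∧ u 0 = u₀ ∧
        ∀ T' v, IsPr (Fp phi p) ν T' v → v 0 = u₀ → T' ≤ Tm ∧ ∀ t ∈ Ico 0 T', v t = u t := by
  obtain ⟨b, L, rfl⟩ := f_mem_up hp hw
  have hp1 : (1 : ℝ) ≤ p := by exact_mod_cast hp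
  have hs' : max s 0 < (e : ℝ) / 2 := by
    refine max_lt hs ?_
    rcases he with rfl | ⟨rfl, -⟩ <;> norm_num
  obtain ⟨C, hC, hdist⟩ := f_hs hp (le_max_right s 0)
  have hε' : 0 < ε / (C + 1) := by positivity
  obtain ⟨M, d, hLM, hdb, hsum, hno⟩ :=
    noSol (ν₀ := ν₀ * (p : ℝ) ^ 2) (by positivity) hT b L (e := e) (by
      rcases he with h | ⟨h, h0⟩
      · exact Or.inl h
      · exact Or.inr ⟨h, by rw [h0, zero_mul]⟩) (le_max_right s 0) hs' hε'
  refine ⟨up0 p (red_comb phi d M), f_up_mem d M, ?_, fun ν hν hνν => ?_⟩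
  · have h0 : GB.hs s (up0 p (red_comb phi d M) - up0 p (red_comb phi b L))
        ≤ GB.hs (max s 0) (up0 p (red_comb phi d M) - up0 p (red_comb phi b L)) := by
      unfold GB.hs
      refine ENNReal.tsum_le_tsum fun k => ENNReal.ofReal_le_ofReal ?_
      have h1 : 0 ≤ fq (up0 p (red_comb phi d M) - up0 p (red_comb phi b L)) k := by
        unfold fq
        exact Finset.sum_nonneg fun i _ => add_nonneg (sq_nonneg _) (sq_nonneg _)
      refine mul_le_mul_of_nonneg_right ?_ h1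
      refine Real.rpow_le_rpow_of_exponent_le ?_ (le_max_left _ _)
      have : 0 ≤ ∑ j, (k j : ℝ) ^ 2 := Finset.sum_nonneg fun j _ => sq_nonneg _
      linarith
    refine (h0.trans (hdist b d L M hLM hdb)).trans_lt ?_
    rw [ENNReal.ofReal_lt_ofReal_iff hε]
    have h2 : C * ∑ m ∈ Finset.Ico L M, (RR m : ℝ) ^ (4 * max s 0) * d m ^ 2
        ≤ C * (ε / (C + 1)) := mul_le_mul_of_nonneg_left hsum.le hC
    refine h2.trans_lt ?_
    rw [mul_div_assoc', div_lt_iff₀ (by positivity)]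
    nlinarith
  · exact maxSol (fun w hw => shift_sp_Fp f_sf hw) hν (f_locP hp hν d M)
      (f_noSolP (s_memdown s_int) hp hν (hno _ (by positivity) (by gcongr)))

theorem f_proj : S_projP :=
  s_projP (s_hs s_int f_bas) (s_hsb s_int f_bas f_nm) s_hfin (s_stat s_int f_bas f_nm)
    (s_avg s_int) s_int f_bas

end Pool.Agent.H226.GB
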