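import Pool.Agent.H226.GB.Spec

/-!
The infinite system: tails of the energy and the comparison of neighbouring levels.
-/

open MeasureTheory Set Filter Topology

namespace Pool.Agent.H226.GB

/-- the hypotheses on the system, with globally continuous functions -/
structure Sys0 (c : ℕ → ℕ → ℝ) (G p ν : ℕ → ℝ) (T : ℝ) (a : ℕ → ℝ → ℝ) (S : ℝ → ℝ)
    (W : ℕ → ℝ → ℝ) : Prop where
  cont : ∀ m, Continuous (a m)
  contS : Continuous S
  sum : ∀ t ∈ Icc 0 T, HasSum (fun m => a m t ^ 2) (S t)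
  sumW : ∀ t ∈ Icc 0 T, ∀ m, HasSum (fun l => if m < l then c m l * a l t ^ 2 else 0) (W m t)
  der : ∀ t ∈ Ioo 0 T, ∀ m, HasDerivAt (a m)
    ((∑ n ∈ Finset.range m, c n m * a n t - ν m) * a m t - W m t + pm p a m t
      - p m * a m t * a (m + 1) t) t
  en : ∀ t ∈ Ioo 0 T, ∃ S', HasDerivAt S S' t ∧
    ∀ L, S' ≤ -2 * ∑ m ∈ Finset.range L, ν m * a m t ^ 2
  cG : ∀ n l, n < l → |c n l| ≤ G n
  p0 : ∀ n, 0 ≤ p n
  ν0 : ∀ n, 0 ≤ ν n
  νm : Monotone ν

/-- monotonicity from the sign of the derivative -/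
lemma mono_of {f f' : ℝ → ℝ} {s t : ℝ} (hc : ContinuousOn f (Icc s t))
    (hd : ∀ u ∈ Ioo s t, HasDerivAt f (f' u) u) (h : ∀ u ∈ Ioo s t, 0 ≤ f' u) {u v : ℝ}
    (hu : s ≤ u) (huv : u ≤ v) (hv : v ≤ t) : f u ≤ f v := by
  have hm : MonotoneOn f (Icc s t) := by
    refine monotoneOn_of_deriv_nonneg (convex_Icc s t) hc (fun w hw => ?_) (fun w hw => ?_)
    · rw [interior_Icc] at hw
      exact (hd w hw).differentiableAt.differentiableWithinAt
    · rw [interior_Icc] at hw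
      rw [(hd w hw).deriv]
      exact h w hw
  exact hm ⟨hu, huv.trans hv⟩ ⟨hu.trans huv, hv⟩ huv

/-- the energy of the levels `≥ l` -/
noncomputable def tl (a : ℕ → ℝ → ℝ) (S : ℝ → ℝ) (l : ℕ) (t : ℝ) : ℝ :=
  S t - ∑ j ∈ Finset.range l, a j t ^ 2

/-- the hypotheses on the system: the levels `≥ l1` have energy at most 2, and the strain of the
levels below `l1` is bounded -/
structure Sys (l1 : ℕ) (c : ℕ → ℕ → ℝ) (G p ν : ℕ → ℝ) (T : ℝ) (a : ℕ → ℝ → ℝ) (S : ℝ → ℝ)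
    (W : ℕ → ℝ → ℝ) : Prop extends Sys0 c G p ν T a S W where
  E2 : ∀ t ∈ Icc 0 T, tl a S l1 t ≤ 2
  low : ∀ t ∈ Icc 0 T, ∑ n ∈ Finset.range l1, G n * |a n t| ≤ 2 * ∑ n ∈ Finset.range l1, G n

/-- the part `∑_{k ≥ l} c j k a_k²` of `W j` -/
noncomputable def rw' (c : ℕ → ℕ → ℝ) (a : ℕ → ℝ → ℝ) (W : ℕ → ℝ → ℝ) (j l : ℕ) (t : ℝ) : ℝ :=
  W j t - ∑ k ∈ Finset.Ico (j + 1) l, c j k * a k t ^ 2

section

variable {c : ℕ → ℕ → ℝ} {G p ν : ℕ → ℝ} {T : ℝ} {a : ℕ → ℝ → ℝ} {S : ℝ → ℝ} {W : ℕ → ℝ → ℝ}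

lemma tl_zero (t : ℝ) : tl a S 0 t = S t := by simp [tl]

lemma tl_succ (l : ℕ) (t : ℝ) : tl a S l t = a l t ^ 2 + tl a S (l + 1) t := by
  unfold tl; rw [Finset.sum_range_succ]; ring

lemma Sys0.G0 (h : Sys0 c G p ν T a S W) (n : ℕ) : 0 ≤ G n :=
  (abs_nonneg _).trans (h.cG n (n + 1) (Nat.lt_succ_self n))

lemma Sys0.tl_hasSum (h : Sys0 c G p ν T a S W) {t : ℝ} (ht : t ∈ Icc 0 T) (l : ℕ) :
    HasSum (fun k => if l ≤ k then a k t ^ 2 else 0) (tl a S l t) := by
  have h1 := h.sum t ht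
  have h2 : HasSum (fun k => if k < l then a k t ^ 2 else 0)
      (∑ k ∈ Finset.range l, if k < l then a k t ^ 2 else 0) :=
    hasSum_sum_of_ne_finset_zero fun k hk => by
      rw [Finset.mem_range] at hk; exact if_neg hk
  have h3 := h1.sub h2
  have e1 : (∑ k ∈ Finset.range l, if k < l then a k t ^ 2 else 0)
      = ∑ k ∈ Finset.range l, a k t ^ 2 :=
    Finset.sum_congr rfl fun k hk => if_pos (Finset.mem_range.1 hk)
  rw [e1] at h3
  have e2 : (fun k => a k t ^ 2 - if k < l then a k t ^ 2 else 0)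
      = fun k => if l ≤ k then a k t ^ 2 else 0 := by
    funext k
    by_cases hk : k < l
    · rw [if_pos hk, if_neg (not_le.2 hk), sub_self]
    · rw [if_neg hk, if_pos (not_lt.1 hk), sub_zero]
  rw [e2] at h3
  exact h3

lemma Sys0.tl_nonneg (h : Sys0 c G p ν T a S W) {t : ℝ} (ht : t ∈ Icc 0 T) (l : ℕ) :
    0 ≤ tl a S l t := by
  refine (h.tl_hasSum ht l).nonneg fun k => ?_
  split_ifs
  · positivity
  · exact le_rfl

lemma Sys0.sq_le_tl (h : Sys0 c G p ν T a S W) {t : ℝ} (ht : t ∈ Icc 0 T) (l : ℕ) :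
    a l t ^ 2 ≤ tl a S l t := by
  have := h.tl_nonneg ht (l + 1)
  rw [tl_succ]; linarith

lemma tl_succ_le {t : ℝ} (l : ℕ) :
    tl a S (l + 1) t ≤ tl a S l t := by
  have := sq_nonneg (a l t)
  rw [tl_succ (a := a) (S := S) l]; linarith

lemma tl_le_S {t : ℝ} (l : ℕ) : tl a S l t ≤ S t := by
  unfold tl
  have : 0 ≤ ∑ j ∈ Finset.range l, a j t ^ 2 := Finset.sum_nonneg fun _ _ => sq_nonneg _
  linarith

lemma rw_succ {j l : ℕ} (hjl : j < l) (t : ℝ) :
    rw' c a W j (l + 1) t = rw' c a W j l t - c j l * a l t ^ 2 := by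
  unfold rw'
  rw [Finset.sum_Ico_succ_top (by omega)]
  ring

lemma Sys0.abs_rw_le (h : Sys0 c G p ν T a S W) {t : ℝ} (ht : t ∈ Icc 0 T) {j l : ℕ}
    (hjl : j < l) : |rw' c a W j l t| ≤ G j * tl a S l t := by
  have h1 := h.sumW t ht j
  have h2 : HasSum (fun k => if k ∈ Finset.Ico (j + 1) l then c j k * a k t ^ 2 else 0)
      (∑ k ∈ Finset.Ico (j + 1) l, if k ∈ Finset.Ico (j + 1) l then c j k * a k t ^ 2 else 0) :=
    hasSum_sum_of_ne_finset_zero fun k hk => if_neg hk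
  have h3 := h1.sub h2
  have e1 : (∑ k ∈ Finset.Ico (j + 1) l, if k ∈ Finset.Ico (j + 1) l then c j k * a k t ^ 2 else 0)
      = ∑ k ∈ Finset.Ico (j + 1) l, c j k * a k t ^ 2 :=
    Finset.sum_congr rfl fun k hk => if_pos hk
  rw [e1] at h3
  have h4 : HasSum (fun k => if l ≤ k then c j k * a k t ^ 2 else 0) (rw' c a W j l t) := by
    have e3 : (fun k => (if j < k then c j k * a k t ^ 2 else 0)
        - if k ∈ Finset.Ico (j + 1) l then c j k * a k t ^ 2 else 0)
        = fun k => if l ≤ k then c j k * a k t ^ 2 else 0 := by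
      funext k
      by_cases hk : l ≤ k
      · rw [if_pos hk, if_pos (by omega), if_neg (by rw [Finset.mem_Ico]; omega), sub_zero]
      · rw [if_neg hk]
        by_cases hk2 : j < k
        · rw [if_pos hk2, if_pos (by rw [Finset.mem_Ico]; omega), sub_self]
        · rw [if_neg hk2, if_neg (by rw [Finset.mem_Ico]; omega), sub_self]
    rw [e3] at h3
    exact h3
  have h5 := (h.tl_hasSum ht l).mul_left (G j)
  rw [abs_le]
  constructor
  · have h6 := h5.neg
    refine hasSum_le (fun k => ?_) h6 h4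
    by_cases hk : l ≤ k
    · simp only [if_pos hk]
      have := neg_abs_le (c j k)
      have := h.cG j k (by omega)
      nlinarith [sq_nonneg (a k t)]
    · simp only [if_neg hk]; simp
  · refine hasSum_le (fun k => ?_) h4 h5
    by_cases hk : l ≤ k
    · simp only [if_pos hk]
      have := le_abs_self (c j k)
      have := h.cG j k (by omega)
      nlinarith [sq_nonneg (a k t)]
    · simp only [if_neg hk]; simp

lemma Sys0.tl_der (h : Sys0 c G p ν T a S W) {t S' : ℝ} (ht : t ∈ Ioo 0 T)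
    (hS : HasDerivAt S S' t) (l : ℕ) :
    HasDerivAt (tl a S l) (S' + 2 * ∑ j ∈ Finset.range l, ν j * a j t ^ 2
      + 2 * ∑ j ∈ Finset.range l, a j t * rw' c a W j l t + 2 * pm p a l t * a l t) t := by
  induction l with
  | zero =>
    have e : tl a S 0 = S := funext fun s => tl_zero s
    rw [e]
    refine hS.congr_deriv ?_
    simp [pm]
  | succ l ih =>
    have e : tl a S (l + 1) = fun s => tl a S l s - a l s ^ 2 := by
      funext s
      have := tl_succ (a := a) (S := S) l s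
      linarith
    rw [e]
    have h1 := (h.der t ht l).pow 2
    refine (ih.sub h1).congr_deriv ?_
    have e2 : ∑ j ∈ Finset.range (l + 1), a j t * rw' c a W j (l + 1) t
        = ∑ j ∈ Finset.range l, a j t * rw' c a W j l t
          - (∑ n ∈ Finset.range l, c n l * a n t) * a l t ^ 2 + a l t * W l t := by
      rw [Finset.sum_range_succ]
      have e3 : rw' c a W l (l + 1) t = W l t := by simp [rw']
      rw [e3]
      congr 1
      rw [Finset.sum_mul, ← Finset.sum_sub_distrib]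
      refine Finset.sum_congr rfl fun j hj => ?_
      rw [rw_succ (Finset.mem_range.1 hj)]
      ring
    rw [e2, Finset.sum_range_succ]
    have e4 : pm p a (l + 1) t = p l * a l t ^ 2 := by
      unfold pm
      rw [if_neg (Nat.succ_ne_zero l)]
      simp
    rw [e4]
    simp only [Nat.cast_ofNat, Nat.add_one_sub_one, pow_one]
    ring

lemma pm_nonneg (hp : ∀ n, 0 ≤ p n) (l : ℕ) (t : ℝ) : 0 ≤ pm p a l t := by
  unfold pm
  split_ifs
  · exact le_rfl
  · exact mul_nonneg (hp _) (sq_nonneg _)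

/-- the basic inequality for the tails -/
lemma Sys0.tl_der_le (h : Sys0 c G p ν T a S W) {t : ℝ} (ht : t ∈ Ioo 0 T) (l : ℕ) :
    ∃ D, HasDerivAt (tl a S l) D t ∧ D ≤ 2 * (∑ n ∈ Finset.range l, G n * |a n t|) * tl a S l t
      + 2 * pm p a l t * |a l t| - 2 * ν l * tl a S l t := by
  have ht' : t ∈ Icc 0 T := ⟨ht.1.le, ht.2.le⟩
  obtain ⟨S', hS, hS'⟩ := h.en t ht
  refine ⟨_, h.tl_der ht hS l, ?_⟩
  have h1 : S' + 2 * ∑ j ∈ Finset.range l, ν j * a j t ^ 2 ≤ -(2 * ν l * tl a S l t) := by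
    have h2 : Tendsto (fun L => S' + 2 * ∑ j ∈ Finset.range l, ν j * a j t ^ 2
        + 2 * ν l * ∑ j ∈ Finset.range L, (if l ≤ j then a j t ^ 2 else 0)) atTop
        (𝓝 (S' + 2 * ∑ j ∈ Finset.range l, ν j * a j t ^ 2 + 2 * ν l * tl a S l t)) :=
      ((h.tl_hasSum ht' l).tendsto_sum_nat.const_mul _).const_add _
    have h3 := le_of_tendsto h2 (b := 0) (by
      filter_upwards [eventually_ge_atTop l] with L hL
      have h4 := hS' L
      have h5 : ∑ m ∈ Finset.range L, ν m * a m t ^ 2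
          = ∑ m ∈ Finset.range l, ν m * a m t ^ 2 + ∑ m ∈ Finset.Ico l L, ν m * a m t ^ 2 := by
        rw [Finset.range_eq_Ico, Finset.range_eq_Ico, Finset.sum_Ico_consecutive _ (Nat.zero_le l) hL]
      have h6 : ∑ j ∈ Finset.range L, (if l ≤ j then a j t ^ 2 else 0)
          = ∑ m ∈ Finset.Ico l L, a m t ^ 2 := by
        rw [Finset.range_eq_Ico, ← Finset.sum_Ico_consecutive _ (Nat.zero_le l) hL]
        have e1 : ∑ j ∈ Finset.Ico 0 l, (if l ≤ j then a j t ^ 2 else 0) = 0 :=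
          Finset.sum_eq_zero fun j hj => if_neg (by rw [Finset.mem_Ico] at hj; omega)
        rw [e1, zero_add]
        exact Finset.sum_congr rfl fun j hj => if_pos (Finset.mem_Ico.1 hj).1
      have h7 : ν l * ∑ m ∈ Finset.Ico l L, a m t ^ 2 ≤ ∑ m ∈ Finset.Ico l L, ν m * a m t ^ 2 := by
        rw [Finset.mul_sum]
        refine Finset.sum_le_sum fun m hm => ?_
        have := h.νm (Finset.mem_Ico.1 hm).1
        nlinarith [sq_nonneg (a m t)]
      rw [h5] at h4
      rw [h6]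
      linarith)
    linarith
  have h8 : ∑ j ∈ Finset.range l, a j t * rw' c a W j l t
      ≤ (∑ n ∈ Finset.range l, G n * |a n t|) * tl a S l t := by
    rw [Finset.sum_mul]
    refine Finset.sum_le_sum fun j hj => ?_
    have h9 := h.abs_rw_le ht' (Finset.mem_range.1 hj)
    calc a j t * rw' c a W j l t ≤ |a j t * rw' c a W j l t| := le_abs_self _
      _ = |a j t| * |rw' c a W j l t| := abs_mul _ _
      _ ≤ |a j t| * (G j * tl a S l t) := by gcongr
      _ = G j * |a j t| * tl a S l t := by ring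
  have h10 : pm p a l t * a l t ≤ pm p a l t * |a l t| :=
    mul_le_mul_of_nonneg_left (le_abs_self _) (pm_nonneg h.p0 l t)
  linarith

lemma tl_anti {t : ℝ} {l k : ℕ} (hlk : l ≤ k) : tl a S k t ≤ tl a S l t := by
  induction k, hlk using Nat.le_induction with
  | base => exact le_rfl
  | succ k _ ih => exact (tl_succ_le k).trans ih

variable {l1 : ℕ}

lemma Sys.tl_le (h : Sys l1 c G p ν T a S W) {t : ℝ} (ht : t ∈ Icc 0 T) {l : ℕ} (hl : l1 ≤ l) :
    tl a S l t ≤ 2 := (tl_anti hl).trans (h.E2 t ht)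

lemma Sys.sq_le (h : Sys l1 c G p ν T a S W) {t : ℝ} (ht : t ∈ Icc 0 T) {l : ℕ} (hl : l1 ≤ l) :
    a l t ^ 2 ≤ 2 := (h.sq_le_tl ht l).trans (h.tl_le ht hl)

lemma Sys.ab_le (h : Sys l1 c G p ν T a S W) {t : ℝ} (ht : t ∈ Icc 0 T) {l : ℕ} (hl : l1 ≤ l) :
    |a l t| ≤ 2 := by
  have h1 := h.sq_le ht hl
  exact abs_le_of_sq_le_sq (by linarith) (by norm_num)

/-- the strain of the levels below `l` -/
lemma Sys.str_le (h : Sys l1 c G p ν T a S W) {t : ℝ} (ht : t ∈ Icc 0 T) {l : ℕ} (hl : l1 ≤ l) :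
    ∑ n ∈ Finset.range l, G n * |a n t| ≤ 2 * ∑ n ∈ Finset.range l, G n := by
  rw [← Finset.sum_range_add_sum_Ico _ hl, ← Finset.sum_range_add_sum_Ico _ hl, mul_add]
  refine add_le_add (h.low t ht) ?_
  rw [Finset.mul_sum]
  refine Finset.sum_le_sum fun n hn => ?_
  have h1 := h.ab_le ht (Finset.mem_Ico.1 hn).1
  have h2 := h.G0 n
  nlinarith

end

end Pool.Agent.H226.GB
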