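import Pool.Agent.H226.GB.Spec

/-!
Interface, third part: lemmas for the analysis of the infinite system.
-/

open MeasureTheory Set Filter Topology

namespace Pool.Agent.H226.GB

/-- perturbed amplifier `x' = - c y² + .., y' = c x y + ..` on `[t0, s]` -/
structure PlanHyp (x y x' y' I : ℝ → ℝ) (c lam P α D X t0 s : ℝ) : Prop where
  ts : t0 ≤ s
  sD : s - t0 ≤ D
  c0 : 0 < c
  lam1 : 1 ≤ lam
  lamD : 4 * lam * D ≤ 1 / 2 ^ 31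
  α0 : 0 < α
  P0 : 0 ≤ P
  Pα : P ≤ α * lam / 2
  αX : α ≤ X
  X2 : X ≤ 2
  x0 : x t0 = X
  y00 : 0 < y t0
  y0 : y t0 ^ 2 ≤ α ^ 2 / 2 ^ 31
  cx : ContinuousOn x (Icc t0 s)
  cy : ContinuousOn y (Icc t0 s)
  cI : ContinuousOn I (Icc t0 s)
  dx : ∀ t ∈ Ioo t0 s, HasDerivAt x (x' t) t
  dy : ∀ t ∈ Ioo t0 s, HasDerivAt y (y' t) t
  dI : ∀ t ∈ Ioo t0 s, HasDerivAt I (y t) t
  xn : ∀ t ∈ Icc t0 s, 0 ≤ x t
  yn : ∀ t ∈ Icc t0 s, 0 ≤ y t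
  hx : ∀ t ∈ Ioo t0 s, |x' t + c * y t ^ 2| ≤ lam * (x t + y t) + P
  hy1 : ∀ t ∈ Ioo t0 s, c * x t * y t - lam * y t ≤ y' t
  hy2 : ∀ t ∈ Ioo t0 s, y' t ≤ c * x t * y t + lam * y t + P

/-- conclusions for the perturbed amplifier -/
def S_plan : Prop := ∀ (x y x' y' I : ℝ → ℝ) (c lam P α D X t0 s : ℝ),
  PlanHyp x y x' y' I c lam P α D X t0 s →
  (∀ t ∈ Icc t0 s, X ^ 2 * (1 - 3 / 2 ^ 31) ≤ x t ^ 2 + y t ^ 2 ∧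
    x t ^ 2 + y t ^ 2 ≤ X ^ 2 * (1 + 6 / 2 ^ 31)) ∧
  c * (I s - I t0) ≤ 9 / 4 ∧
  (1 / 2 ^ 26 ≤ c * (I s - I t0) → X / 2 ^ 29 ≤ y s) ∧
  9 / 10 * c * X * (s - t0) ≤ 2 - Real.log (y t0) ∧
  ∀ u ∈ Icc t0 s, ∀ v ∈ Icc t0 s, u ≤ v →
    x u - x v ≤ 101 / 100 * X * c * (I v - I u) + X / 2 ^ 31

/-- growth of the next level -/
def S_grow : Prop := ∀ (x y z x' z' I : ℝ → ℝ) (c c1 E π err D t0 s1 s : ℝ),
  t0 ≤ s1 → s1 ≤ s → s - t0 ≤ D → 0 < c → 0 ≤ c1 → 0 ≤ E → 0 ≤ π → 0 ≤ err →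
  ContinuousOn x (Icc t0 s) → ContinuousOn z (Icc t0 s) → ContinuousOn I (Icc t0 s) →
  (∀ t ∈ Ioo t0 s, HasDerivAt x (x' t) t) → (∀ t ∈ Ioo t0 s, HasDerivAt z (z' t) t) →
  (∀ t ∈ Ioo t0 s, HasDerivAt I (y t) t) → (∀ t ∈ Icc t0 s, 0 ≤ y t) →
  (∀ t ∈ Icc t0 s, 0 ≤ z t) →
  (∀ t ∈ Ioo t0 s, -(c * y t ^ 2) - err ≤ x' t) →
  (∀ t ∈ Ioo t0 s, (c1 * y t - E) * z t + π * y t ^ 2 ≤ z' t) →
  π / c * (x t0 - x s1 - err * D) * Real.exp (c1 * (I s - I s1) - E * D) ≤ z s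

/-- bound of the couplings `2^10 R^5` -/
noncomputable def Gm (m : ℕ) : ℝ := 2 ^ 10 * (RR m : ℝ) ^ 5

/-- `(R_m / R_{m-1})^5` -/
noncomputable def om (m : ℕ) : ℝ := ((RR m : ℝ) / RR (m - 1)) ^ 5

/-- lower bound of the amplitudes -/
noncomputable def al (m : ℕ) : ℝ := (1 / 2 ^ 29) ^ m

/-- thresholds -/
noncomputable def rr (m : ℕ) : ℝ := 1 / (2 * Gm (m + 1))

/-- budget of the exponents -/
noncomputable def Bm (m : ℕ) : ℝ := 2 ^ 14 * om m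

/-- length of the stage `m` -/
noncomputable def Dm (m : ℕ) : ℝ := 4 * (Real.log (1 / rr m) + 3) / ((RR m : ℝ) ^ 5 * al m)

/-- sum of the lower couplings -/
noncomputable def SG (m : ℕ) : ℝ := ∑ n ∈ Finset.range m, Gm n

/-- size of the perturbations -/
noncomputable def lam (K : ℝ) (m : ℕ) : ℝ := 1 + 2 * SG m + K * (RR (m + 1) : ℝ) ^ 4
  + Gm (m + 1) * rr (m + 1) + 2 * Real.exp (-bb m) + 2 * Real.exp (-bb (m + 1))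

/-- the numerical conditions for the stage `m` -/
structure Par (K T : ℝ) (m : ℕ) : Prop where
  f1 : 4 * lam K m * Dm m ≤ 1 / 2 ^ 31
  f2 : 4 * (Real.exp (-bb (m - 1)) + Real.exp (-bb m)) ≤ al m * lam K m / 2
  f3 : rr m ^ 2 ≤ al m ^ 2 / 2 ^ 31
  f4 : rr (m + 1) < al (m + 1)
  f5 : Bm m + 2 ≤ bb (m + 1)
  f5' : 2 * Real.exp (Bm m + 1 - bb (m + 1)) < rr (m + 1)
  f6 : Bm m + 1 + 4 * Dm m * SG (m + 1) + 9216 * om (m + 1) ≤ Bm (m + 1)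
  f7 : Bm (m + 1) + 2 ≤ bb (m + 2)
  f7b : 2 * Gm (m + 2) * Real.exp (Bm (m + 1) + 1 - bb (m + 2)) ^ 2 ≤ 1
  f7c : 2 * Real.exp (-bb (m + 2)) ≤ 1
  f8 : Real.log (2 / rr (m + 1)) + Bm m + 2 + 4 * Dm m * SG (m + 1) ≤ bb (m + 1) / 2
  f10 : rr (m + 1) < 1 / (2 * (RR (m + 2) : ℝ) ^ 9) * (49 / 100 * al m / Gm m)
    * Real.exp (49 / 100 / 2 ^ 11 * om (m + 1) - bb (m + 1)
      - (2 * SG (m + 1) + K * (RR (m + 2) : ℝ) ^ 4 + 2) * Dm m)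
  f11 : Dm m ≤ T / 2 ^ (m + 1)

/-- the numerical conditions hold for all large `m` -/
def S_par : Prop := ∀ K T : ℝ, 0 ≤ K → 0 < T → ∃ m0, 2 ≤ m0 ∧ ∀ m, m0 ≤ m → Par K T m

end Pool.Agent.H226.GB
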