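import Pool.Agent.H226.GB.Spec8
import Pool.Agent.H226.GB.Ode1
import Pool.Agent.H226.GB.Spec3
import Pool.Agent.H226.GB.Spec2

/-!
Interface, ninth part: blow-up of the critical norms at the maximal time.
-/

open MeasureTheory Set Filter Topology
open scoped ContDiff ENNReal
open H459R3.NS

namespace Pool.Agent.H226.GB

/-- local existence for the infinite system, the time depends only on `sup R_m^6 |a0 m|` -/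
def S_loc1u : Prop := ∀ (c : ℕ → ℕ → ℝ) (p ν : ℕ → ℝ) (C : ℝ), Coef c p ν C → ∀ K6 : ℝ,
  ∃ τ > 0, ∀ a0 : ℕ → ℝ, (∀ s : ℕ, ∃ K : ℝ, ∀ m, (RR m : ℝ) ^ s * |a0 m| ≤ K) →
    (∀ m, (RR m : ℝ) ^ 6 * |a0 m| ≤ K6) →
    ∃ a : ℕ → ℝ → ℝ, Rap a ∧ (∀ m, Continuous (a m)) ∧ (∀ m, a m 0 = a0 m) ∧
      ∀ t ∈ Ioo 0 τ, ∀ m, HasDerivAt (a m) (FF c p ν a m t) t

/-- a priori bound: if the strain of the lower levels is dominated by the dissipation, the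
coefficients stay rapidly decreasing (the bound `K'` does not depend on `T ≤ T₁` and on the
solution) -/
def S_apr : Prop := ∀ (c : ℕ → ℕ → ℝ) (p ν : ℕ → ℝ) (T₁ E K0 Λ : ℝ),
  (∀ n l, n < l → |c n l| ≤ Gm n) → (∀ n, 0 ≤ p n) →
  (∀ s : ℕ, ∃ K : ℝ, ∀ n, p n * (RR (n + 1) : ℝ) ^ s ≤ K) → (∀ n, 0 ≤ ν n) → Monotone ν →
  0 ≤ T₁ → 0 ≤ E → 0 ≤ K0 → 0 ≤ Λ →
  ∃ K' : ℝ, ∀ (T : ℝ) (a : ℕ → ℝ → ℝ) (S : ℝ → ℝ) (W : ℕ → ℝ → ℝ), 0 ≤ T → T ≤ T₁ →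
    Shell c p ν T a S W → S 0 ≤ E → (∀ m, (RR m : ℝ) ^ 12 * tl a S m 0 ≤ K0) →
    (∀ t ∈ Icc 0 T, ∀ m, ∑ n ∈ Finset.range m, Gm n * |a n t| ≤ ν m + Λ) →
    ∀ t ∈ Icc 0 T, ∀ m, (RR m : ℝ) ^ 6 * |a m t| ≤ K'

/-- the strain is dominated by the dissipation if the norm of `H^(1/2)` is bounded (`ν > 0`), or
the norm of `H^r`, `r > 5/2` -/
def S_str : Prop := (∀ ν K : ℝ, 0 < ν → 0 ≤ K → ∃ Λ : ℝ, 0 ≤ Λ ∧ ∀ a : ℕ → ℝ,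
    (∀ m, (RR m : ℝ) * |a m| ≤ K) →
    ∀ m, ∑ n ∈ Finset.range m, Gm n * |a n| ≤ ν * (RR m : ℝ) ^ 4 + Λ) ∧
  ∀ r K : ℝ, 5 / 2 < r → 0 ≤ K → ∃ Λ : ℝ, 0 ≤ Λ ∧ ∀ a : ℕ → ℝ,
    (∀ m, (RR m : ℝ) ^ (2 * r) * |a m| ≤ K) → ∀ m, ∑ n ∈ Finset.range m, Gm n * |a n| ≤ Λ

/-- concatenation -/
def S_glu : Prop := ∀ (φ : ℕ → V → V) (c : ℕ → ℕ → ℝ) (p g : ℕ → ℝ), Basis φ c p g →
  ∀ (ν T t₀ τ : ℝ) (u U : ℝ → V → V), 0 ≤ ν → 0 ≤ t₀ → t₀ < T → T < t₀ + τ →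
    IsGal φ ν T u → IsGal φ ν τ U → U 0 = u t₀ →
    ∃ u' : ℝ → V → V, IsGal φ ν (t₀ + τ) u' ∧ ∀ t ∈ Ico 0 T, u' t = u t

/-- continuation of the solutions in the small space -/
def S_cri : Prop := ∀ (ν T Λ : ℝ) (u : ℝ → V → V), 0 ≤ ν → 0 < T → 0 ≤ Λ → IsGal phi ν T u →
  (∀ t ∈ Ico 0 T, ∀ m, ∑ n ∈ Finset.range m, Gm n * |ip (u t) (phi n)| ≤ ν * gg m + Λ) →
  ∃ (T' : ℝ) (u' : ℝ → V → V), T < T' ∧ IsGal phi ν T' u' ∧ ∀ t ∈ Ico 0 T, u' t = u t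

/-- the norms of a maximal solution in the small space are unbounded -/
def S_bup : Prop := ∀ (p : ℕ) (ν T : ℝ) (u : ℝ → V → V), 1 ≤ p → 0 ≤ ν → 0 < T →
  IsPr (Sc p) ν T u → (∀ T' v, IsPr (Sc p) ν T' v → v 0 = u 0 → T' ≤ T) →
  ∀ r : ℝ, 5 / 2 < r ∨ 0 < ν ∧ 1 / 2 ≤ r → ∀ B : ℝ,
    ∃ t ∈ Ico 0 T, ENNReal.ofReal B < hs r (u t)

end Pool.Agent.H226.GB
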