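import Pool.Agent.H226.GB.Fin4
import Pool.Agent.H226.GB.Spec9

/-!
All admissible spaces: existence, uniqueness and blow-up.
-/

open MeasureTheory Set Filter Topology
open scoped ContDiff ENNReal
open H459R3.NS

namespace Pool.Agent.H226.GB

/-- local existence -/
theorem s_locG : S_locG := by
  intro ν a0 hν ha0
  have hC := f_coef hν
  obtain ⟨τ, hτ, a, h1, h2, h3, h4⟩ := s_loc1 _ _ _ _ hC a0 ha0
  have h5 := s_loc2 _ _ _ _ hC τ a h1 h2 h4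
  obtain ⟨u, hu, hu'⟩ := s_loc3 s_prod s_one s_trig f_nm f_bas f_gg f_ccu f_pp ν τ a hν hτ h5 h4
  refine ⟨τ, hτ, u, hu, fun x i => ?_⟩
  have h6 := hu' 0 ⟨le_rfl, hτ⟩ x i
  simp only [h3] at h6
  exact h6

theorem f_sc (p : ℕ) : Sc p = Sp1 p := rfl

/-- **the main theorem**, all admissible spaces at once -/
theorem f_main2 (hadm : S_adm) (hret : S_ret) (hscl : S_scl) (hscl2 : S_scl2) (hbup : S_bup)
    {p : ℕ} (hp : 1 ≤ p) {ν₀ T : ℝ} (hν₀ : 0 ≤ ν₀) (hT : 0 < T) {e : ℕ}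
    (he : e = 1 ∨ e = 5 ∧ ν₀ = 0) {s : ℝ} (hs : s < e / 2) {w : V → V}
    (hw : w ∈ Submodule.span ℝ (Sp1 p)) {ε : ℝ} (hε : 0 < ε) :
    ∃ u₀ ∈ Submodule.span ℝ (Sp1 p), GB.hs s (u₀ - w) < ENNReal.ofReal ε ∧
      ∀ ν, 0 ≤ ν → ν ≤ ν₀ → ∃ (Tm : ℝ) (u : ℝ → V → V), 0 < Tm ∧ Tm < T ∧ u 0 = u₀ ∧
        (∀ r : ℝ, 5 / 2 < r ∨ 0 < ν ∧ 1 / 2 ≤ r → ∀ B : ℝ,
          ∃ t ∈ Ico 0 Tm, ENNReal.ofReal B < GB.hs r (u t)) ∧
        ∀ Φ : Set (V → V), Adm p Φ → IsPr Φ ν Tm u ∧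
          ∀ T' v, IsPr Φ ν T' v → v 0 = u₀ → T' ≤ Tm ∧ ∀ t ∈ Ico 0 T', v t = u t := by
  obtain ⟨b, L, rfl⟩ := f_mem_up hp hw
  have hp1 : (1 : ℝ) ≤ p := by exact_mod_cast hp
  have hp0 : (p : ℝ) ≠ 0 := by positivity
  have hs' : max s 0 < (e : ℝ) / 2 := by
    refine max_lt hs ?_
    rcases he with rfl | ⟨rfl, -⟩ <;> norm_num
  obtain ⟨C, hC, hdist⟩ := f_hs hp (le_max_right s 0)
  have hε' : 0 < ε / (C + 1) := by positivity
  obtain ⟨M, d, hLM, hdb, hsum, hno⟩ :=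
    noSol (ν₀ := ν₀ * (p : ℝ) ^ 2) (by positivity) hT b L (e := e) (by
      rcases he with h | ⟨h, h0⟩
      · exact Or.inl h
      · exact Or.inr ⟨h, by rw [h0, zero_mul]⟩) (le_max_right s 0) hs' hε'
  refine ⟨up0 p (red_comb phi d M), f_up_mem d M, ?_, fun ν hν hνν => ?_⟩
  · have h0 : GB.hs s (up0 p (red_comb phi d M) - up0 p (red_comb phi b L))
        ≤ GB.hs (max s 0) (up0 p (red_comb phi d M) - up0 p (red_comb phi b L)) := by
      unfold GB.hs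
      refine ENNReal.tsum_le_tsum fun k => ENNReal.ofReal_le_ofReal ?_
      have h1 : 0 ≤ fq (up0 p (red_comb phi d M) - up0 p (red_comb phi b L)) k := by
        unfold fq
        exact Finset.sum_nonneg fun i _ => add_nonneg (sq_nonneg _) (sq_nonneg _)
      refine mul_le_mul_of_nonneg_right ?_ h1
      refine Real.rpow_le_rpow_of_exponent_le ?_ (le_max_left _ _)
      have : 0 ≤ ∑ j, (k j : ℝ) ^ 2 := Finset.sum_nonneg fun j _ => sq_nonneg _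
      linarith
    refine (h0.trans (hdist b d L M hLM hdb)).trans_lt ?_
    rw [ENNReal.ofReal_lt_ofReal_iff hε]
    have h2 : C * ∑ m ∈ Finset.Ico L M, (RR m : ℝ) ^ (4 * max s 0) * d m ^ 2
        ≤ C * (ε / (C + 1)) := mul_le_mul_of_nonneg_left hsum.le hC
    refine h2.trans_lt ?_
    rw [mul_div_assoc', div_lt_iff₀ (by positivity)]
    nlinarith
  · have hno' : ∀ u, IsPr (Sp1 p) ν T u → u 0 ≠ up0 p (red_comb phi d M) := by
      intro u hu hu0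
      refine hno (ν * (p : ℝ) ^ 2) (by positivity) (by gcongr) _ (hscl2 p ν T u hp hu) ?_
      funext x
      show (p : ℝ) • u 0 ((p : ℝ)⁻¹ • x) = red_comb phi d M x
      rw [hu0]
      unfold up0
      rw [smul_smul, mul_inv_cancel₀ hp0, one_smul, smul_smul, mul_inv_cancel₀ hp0, one_smul]
    have hex : ∃ τ > 0, ∃ u, IsPr (Sp1 p) ν τ u ∧ u 0 = up0 p (red_comb phi d M) := by
      obtain ⟨τ, hτ, u, hu, hu0⟩ := f_loc (show 0 ≤ ν * (p : ℝ) ^ 2 by positivity) d M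
      refine ⟨τ, hτ, _, hscl p ν τ u hp hu, ?_⟩
      funext x
      show (p : ℝ)⁻¹ • u 0 ((p : ℝ) • x) = _
      rw [hu0]
      rfl
    have hsp : ∀ w ∈ Sp1 p, ∀ i, SP (fun x => w x i) := by
      rintro w ⟨m, hm⟩ i
      have h1 := shift_sp_phi f_bas.sp p m i
      have h2 : (fun x => w x i) = fun x => phi m ((p : ℝ) • x) i := by
        funext x
        rw [hm x]
      rw [h2]
      exact h1
    obtain ⟨Tm, u, h1, h2, h3, h4, h5⟩ := maxSol hsp hν hex hno'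
    refine ⟨Tm, u, h1, h2, h4, hbup p ν Tm u hp hν h1 h3 fun T' v hv hv0 =>
      (h5 T' v hv (by rw [hv0, h4])).1, fun Φ hΦ => ⟨hadm p Φ hp hΦ ν Tm u h3,
      fun T' v hv hv0 => h5 T' v (hret p Φ hp hΦ ν T' v hν hv ?_) hv0⟩⟩
    rw [hv0]
    intro ε' hε'
    refine ⟨_, f_up_mem d M, ?_⟩
    simpa using hε'

end Pool.Agent.H226.GB
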