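import Pool.Agent.H226.GB.Spec8
import Pool.Agent.H226.GB.Up
import Pool.Agent.H226.GB.Shift

/-!
The viscous term against orthogonal fields.
-/

set_option autoImplicit false

open MeasureTheory Set Filter Topology
open scoped ContDiff
open H459R3.NS

namespace Pool.Agent.H226.GB

theorem lap_symm {f g : V → ℝ} (hf : SP f) (hg : SP g) :
    ∫ x in cube, lap f x * g x = ∫ x in cube, lap g x * f x := by
  rw [int_lap_mul hf hg, int_lap_mul hg hf]
  refine congrArg _ (Finset.sum_congr rfl fun j _ => ?_)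
  refine integral_congr_ae (Eventually.of_forall fun x => ?_)
  exact mul_comm _ _

/-- symmetry of the Laplacian -/
theorem lap_lp {u w : V → V} (hu : ∀ i, SP (fun x => u x i)) (hw : ∀ i, SP (fun x => w x i)) :
    ∑ i, ∫ x in cube, lp u x i * w x i = ∑ i, ∫ x in cube, lp w x i * u x i :=
  Finset.sum_congr rfl fun i _ => lap_symm (hu i) (hw i)

/-- the Laplacian of a rescaled function -/
theorem lap_scale {f : V → ℝ} (hf : SP f) (p : ℕ) (x : V) :
    lap (fun y => f ((p : ℝ) • y)) x = (p : ℝ) ^ 2 * lap f ((p : ℝ) • x) := by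
  unfold lap
  rw [Finset.mul_sum]
  refine Finset.sum_congr rfl fun j _ => ?_
  have e1 : pd j (fun y => f ((p : ℝ) • y)) = fun y => (p : ℝ) * pd j f ((p : ℝ) • y) :=
    funext fun y => up_pd hf p j y
  rw [e1, up_pdc (up_sp (hf.pd j) p), up_pd (hf.pd j)]
  ring

/-- elements of the span -/
theorem lap_span {Φ : Set (V → V)} (hΦ : ∀ w ∈ Φ, ∀ i, SP (fun x => w x i)) {G : Fin 3 → V → ℝ}
    (hG : ∀ i, SP (G i)) (h0 : ∀ w ∈ Φ, ∑ i, ∫ x in cube, G i x * w x i = 0) {w : V → V}
    (hw : w ∈ Submodule.span ℝ Φ) : ∑ i, ∫ x in cube, G i x * w x i = 0 := by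
  induction hw using Submodule.span_induction with
  | mem w h => exact h0 w h
  | zero =>
    refine Finset.sum_eq_zero fun i _ => ?_
    simp
  | add v w hv' hw' hv hw =>
    have e : ∀ i, ∫ x in cube, G i x * (v + w) x i =
        (∫ x in cube, G i x * v x i) + ∫ x in cube, G i x * w x i := by
      intro i
      rw [← integral_add ((hG i).mul (shift_sp_span hΦ hv' i)).int
        ((hG i).mul (shift_sp_span hΦ hw' i)).int]
      refine integral_congr_ae (Eventually.of_forall fun x => ?_)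
      show G i x * (v x i + w x i) = _
      rw [mul_add]
    rw [Finset.sum_congr rfl fun i _ => e i, Finset.sum_add_distrib, hv, hw, add_zero]
  | smul c w _ hw =>
    have e : ∀ i, ∫ x in cube, G i x * (c • w) x i = c * ∫ x in cube, G i x * w x i := by
      intro i
      rw [← integral_const_mul]
      refine integral_congr_ae (Eventually.of_forall fun x => ?_)
      show G i x * (c * w x i) = c * (G i x * w x i)
      ring
    rw [Finset.sum_congr rfl fun i _ => e i, ← Finset.mul_sum, hw, mul_zero]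

/-- a field which is orthogonal to the elements of `Φ` is orthogonal to their closed span -/
theorem lap_dens {Φ : Set (V → V)} (hΦ : ∀ w ∈ Φ, ∀ i, SP (fun x => w x i)) {G : Fin 3 → V → ℝ}
    (hG : ∀ i, SP (G i)) (h0 : ∀ w ∈ Φ, ∑ i, ∫ x in cube, G i x * w x i = 0) {u : V → V}
    (hu : ∀ i, SP (fun x => u x i)) (h : InSpan Φ u) : ∑ i, ∫ x in cube, G i x * u x i = 0 := by
  have h1 : ∀ n : ℕ, ∃ w ∈ Submodule.span ℝ Φ,
      ∑ i, ∫ x in cube, (u x i - w x i) ^ 2 < 1 / ((n : ℝ) + 1) := fun n => h _ (by positivity)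
  choose w hw h2 using h1
  refine uni_dens (φ := w) (fun m i => shift_sp_span hΦ (hw m) i) hG hu
    (fun m => lap_span hΦ hG h0 (hw m)) ?_
  intro ε hε
  obtain ⟨n, hn⟩ := exists_nat_one_div_lt hε
  refine ⟨n + 1, fun m => if m = n then 1 else 0, lt_trans ?_ hn⟩
  refine lt_of_le_of_lt (le_of_eq ?_) (h2 n)
  refine Finset.sum_congr rfl fun i _ => ?_
  refine integral_congr_ae (Eventually.of_forall fun x => ?_)
  show (u x i - ∑ m ∈ Finset.range (n + 1), (if m = n then 1 else 0) * w m x i) ^ 2 =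
    (u x i - w n x i) ^ 2
  simp

theorem s_lap (hb : Basis phi cc pp gg) : S_lap := by
  intro p u w _ hu hsp hw h0
  have hΦ : ∀ v ∈ Sc p, ∀ i, SP (fun x => v x i) := by
    rintro v ⟨m, hm⟩ i
    have e : (fun x => v x i) = fun x => phi m ((p : ℝ) • x) i := by
      funext x
      rw [hm]
    rw [e]
    exact up_sp (hb.sp m i) p
  rw [lap_lp hu hw]
  refine lap_dens hΦ (G := fun i x => lp w x i) (fun i => (hw i).lap) ?_ hu hsp
  rintro v ⟨m, hm⟩
  have hv : v = fun x => phi m ((p : ℝ) • x) := funext hm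
  have e1 : ∀ i, ∫ x in cube, lp v x i * w x i =
      (p : ℝ) ^ 2 * ∫ x in cube, w x i * lp (phi m) ((p : ℝ) • x) i := by
    intro i
    rw [← integral_const_mul]
    refine integral_congr_ae (Eventually.of_forall fun x => ?_)
    have e2 : lp v x i = (p : ℝ) ^ 2 * lp (phi m) ((p : ℝ) • x) i := by
      rw [hv]
      exact lap_scale (hb.sp m i) p x
    show lp v x i * w x i = (p : ℝ) ^ 2 * (w x i * lp (phi m) ((p : ℝ) • x) i)
    rw [e2]
    ring
  rw [← lap_lp (hΦ v ⟨m, hm⟩) hw, Finset.sum_congr rfl fun i _ => e1 i, ← Finset.mul_sum, h0,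
    mul_zero]

end Pool.Agent.H226.GB
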