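import Pool.Agent.H226.GB.Spec8

/-!
The Leray projection of trigonometric polynomials, and gradients.
-/

set_option autoImplicit false

open MeasureTheory Set Filter Topology
open scoped ContDiff
open H459R3.NS

namespace Pool.Agent.H226.GB

theorem lr_hf (k : Fin 3 → ℤ) (x : V) : HasFDerivAt (fun x : V => ∑ j, (k j : ℝ) * x j)
    (∑ j, (k j : ℝ) • (ContinuousLinearMap.proj j : V →L[ℝ] ℝ)) x :=
  HasFDerivAt.fun_sum fun j _ => (hasFDerivAt_apply j x).const_mul (k j : ℝ)

theorem lr_single (k : Fin 3 → ℤ) (i : Fin 3) :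
    (∑ j, (k j : ℝ) • (ContinuousLinearMap.proj j : V →L[ℝ] ℝ)) (Pi.single i (1 : ℝ)) = k i := by
  rw [sum_apply, Finset.sum_eq_single i]
  · simp
  · intro j _ hj
    simp [hj]
  · intro h
    exact absurd (Finset.mem_univ i) h

theorem lr_pd_sin (k : Fin 3 → ℤ) (b : ℝ) (i : Fin 3) (x : V) :
    pd i (fun x : V => Real.sin (2 * Real.pi * ∑ j, (k j : ℝ) * x j) * b) x
      = Real.cos (2 * Real.pi * ∑ j, (k j : ℝ) * x j) * (2 * Real.pi * k i) * b := by
  have h1 : HasFDerivAt (fun x : V => 2 * Real.pi * ∑ j, (k j : ℝ) * x j)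
      ((2 * Real.pi) • ∑ j, (k j : ℝ) • (ContinuousLinearMap.proj j : V →L[ℝ] ℝ)) x :=
    (lr_hf k x).const_mul (2 * Real.pi)
  have h2 := (h1.sin).mul_const b
  unfold pd
  rw [h2.fderiv]
  simp only [smul_apply, smul_eq_mul, lr_single]
  ring

theorem lr_pd_cos (k : Fin 3 → ℤ) (b : ℝ) (i : Fin 3) (x : V) :
    pd i (fun x : V => Real.cos (2 * Real.pi * ∑ j, (k j : ℝ) * x j) * b) x
      = -(Real.sin (2 * Real.pi * ∑ j, (k j : ℝ) * x j) * (2 * Real.pi * k i) * b) := by
  have h1 : HasFDerivAt (fun x : V => 2 * Real.pi * ∑ j, (k j : ℝ) * x j)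
      ((2 * Real.pi) • ∑ j, (k j : ℝ) • (ContinuousLinearMap.proj j : V →L[ℝ] ℝ)) x :=
    (lr_hf k x).const_mul (2 * Real.pi)
  have h2 := (h1.cos).mul_const b
  unfold pd
  rw [h2.fderiv]
  simp only [smul_apply, smul_eq_mul, lr_single]
  ring

theorem lr_per_ph (k : Fin 3 → ℤ) (i : Fin 3) (x : V) :
    ∑ j, (k j : ℝ) * (x + Pi.single i 1 : V) j = ∑ j, (k j : ℝ) * x j + k i := by
  have h : ∀ j, (k j : ℝ) * (x + Pi.single i 1 : V) j = (k j : ℝ) * x j + if j = i then (k i : ℝ) else 0 := by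
    intro j
    rw [Pi.add_apply, mul_add]
    by_cases hj : j = i
    · subst hj
      simp
    · simp [hj]
  simp_rw [h]
  rw [Finset.sum_add_distrib]
  simp

theorem lr_sp_sin (k : Fin 3 → ℤ) (b : ℝ) :
    SP (fun x : V => Real.sin (2 * Real.pi * ∑ j, (k j : ℝ) * x j) * b) where
  smooth := (Real.contDiff_sin.comp (contDiff_const.mul
    (ContDiff.sum fun j _ => contDiff_const.mul (contDiff_apply ℝ ℝ j)))).mul contDiff_const
  per := by
    intro i x
    show Real.sin _ * b = Real.sin _ * b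
    rw [lr_per_ph, mul_add, mul_comm (2 * Real.pi) (k i : ℝ), Real.sin_add_int_mul_two_pi]

theorem lr_sp_cos (k : Fin 3 → ℤ) (b : ℝ) :
    SP (fun x : V => Real.cos (2 * Real.pi * ∑ j, (k j : ℝ) * x j) * b) where
  smooth := (Real.contDiff_cos.comp (contDiff_const.mul
    (ContDiff.sum fun j _ => contDiff_const.mul (contDiff_apply ℝ ℝ j)))).mul contDiff_const
  per := by
    intro i x
    show Real.cos _ * b = Real.cos _ * b
    rw [lr_per_ph, mul_add, mul_comm (2 * Real.pi) (k i : ℝ), Real.cos_add_int_mul_two_pi]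

theorem lr_sp_smul {q : V → ℝ} (hq : SP q) (c : ℝ) : SP (fun x => c * q x) where
  smooth := contDiff_const.mul hq.smooth
  per := fun i x => by
    show c * q _ = c * q _
    rw [hq.per i x]

theorem lr_pd_add {f g : V → ℝ} (hf : SP f) (hg : SP g) (j : Fin 3) (x : V) :
    pd j (fun y => f y + g y) x = pd j f x + pd j g x := by
  unfold pd
  have h : HasFDerivAt (fun y => f y + g y) _ x := (hf.diff x).hasFDerivAt.add (hg.diff x).hasFDerivAt
  rw [h.fderiv]
  rfl

theorem lr_pd_smul {f : V → ℝ} (hf : SP f) (c : ℝ) (j : Fin 3) (x : V) :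
    pd j (fun y => c * f y) x = c * pd j f x := by
  unfold pd
  have h : HasFDerivAt (fun y => c * f y) _ x := (hf.diff x).hasFDerivAt.const_mul c
  rw [h.fderiv]
  rfl

/-- the coefficient of the gradient part -/
noncomputable def lr_c (k : Fin 3 → ℤ) (a : V) : ℝ :=
  (∑ j, (k j : ℝ) * a j) / ∑ j, (k j : ℝ) * (k j : ℝ)

theorem lr_orth (k : Fin 3 → ℤ) (a : V) :
    ∑ j, (k j : ℝ) * (a - lr_c k a • (fun j => (k j : ℝ)) : V) j = 0 := by
  have h1 : ∑ j, (k j : ℝ) * (a - lr_c k a • (fun j => (k j : ℝ)) : V) j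
      = ∑ j, (k j : ℝ) * a j - lr_c k a * ∑ j, (k j : ℝ) * (k j : ℝ) := by
    rw [Finset.mul_sum, ← Finset.sum_sub_distrib]
    refine Finset.sum_congr rfl fun j _ => ?_
    simp only [Pi.sub_apply, Pi.smul_apply, smul_eq_mul]
    ring
  rw [h1]
  by_cases hN : ∑ j, (k j : ℝ) * (k j : ℝ) = 0
  · have h2 : ∀ j, (k j : ℝ) = 0 := by
      intro j
      have h3 := (Finset.sum_eq_zero_iff_of_nonneg (fun j _ => mul_self_nonneg (k j : ℝ))).1 hN j
        (Finset.mem_univ j)
      exact mul_self_eq_zero.1 h3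
    have h4 : ∑ j, (k j : ℝ) * a j = 0 := Finset.sum_eq_zero fun j _ => by rw [h2 j, zero_mul]
    rw [h4, hN, mul_zero, sub_zero]
  · unfold lr_c
    rw [div_mul_cancel₀ _ hN, sub_self]

theorem s_lr : S_lr := by
  intro A f hf
  unfold TP at hf
  induction hf using Submodule.span_induction with
  | mem w hw =>
    obtain ⟨k, hk, a, hw⟩ := hw
    have hpi : (2 * Real.pi : ℝ) ≠ 0 := by positivity
    rcases hw with hw | hw
    · refine ⟨fun x => Real.cos (2 * Real.pi * ∑ j, (k j : ℝ) * x j) •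
        (a - lr_c k a • (fun j => (k j : ℝ)) : V), Submodule.subset_span
          ⟨k, hk, _, lr_orth k a, Or.inl fun x => rfl⟩,
        fun x => Real.sin (2 * Real.pi * ∑ j, (k j : ℝ) * x j) * (lr_c k a / (2 * Real.pi)),
        lr_sp_sin k _, ?_⟩
      intro x i
      rw [lr_pd_sin, hw x]
      simp only [Pi.smul_apply, Pi.sub_apply, smul_eq_mul]
      field_simp
      ring
    · refine ⟨fun x => Real.sin (2 * Real.pi * ∑ j, (k j : ℝ) * x j) •
        (a - lr_c k a • (fun j => (k j : ℝ)) : V), Submodule.subset_span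
          ⟨k, hk, _, lr_orth k a, Or.inr fun x => rfl⟩,
        fun x => Real.cos (2 * Real.pi * ∑ j, (k j : ℝ) * x j) * (-(lr_c k a / (2 * Real.pi))),
        lr_sp_cos k _, ?_⟩
      intro x i
      rw [lr_pd_cos, hw x]
      simp only [Pi.smul_apply, Pi.sub_apply, smul_eq_mul]
      field_simp
      ring
  | zero =>
    refine ⟨0, Submodule.zero_mem _, fun _ => 0, ⟨contDiff_const, fun _ _ => rfl⟩, ?_⟩
    intro x i
    have h : pd i (fun _ : V => (0 : ℝ)) x = 0 := by
      unfold pd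
      simp
    rw [h]
    simp
  | add v w _ _ hv hw =>
    obtain ⟨g1, hg1, q1, hq1, h1⟩ := hv
    obtain ⟨g2, hg2, q2, hq2, h2⟩ := hw
    refine ⟨g1 + g2, Submodule.add_mem _ hg1 hg2, fun x => q1 x + q2 x, hq1.add hq2, ?_⟩
    intro x i
    rw [lr_pd_add hq1 hq2]
    simp only [Pi.add_apply, h1, h2]
    ring
  | smul c w _ hw =>
    obtain ⟨g1, hg1, q1, hq1, h1⟩ := hw
    refine ⟨c • g1, Submodule.smul_mem _ c hg1, fun x => c * q1 x, lr_sp_smul hq1 c, ?_⟩
    intro x i
    rw [lr_pd_smul hq1]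
    simp only [Pi.smul_apply, smul_eq_mul, h1]
    ring

theorem lr_nat {f : V → ℝ} {j : Fin 3} (h : ∀ x : V, f (x + Pi.single j 1) = f x) (n : ℕ)
    (x : V) : f (x + Pi.single j (n : ℝ)) = f x := by
  induction n generalizing x with
  | zero => simp
  | succ n ih =>
    have e : x + Pi.single j ((n + 1 : ℕ) : ℝ)
        = (x + Pi.single j (n : ℝ)) + Pi.single j 1 := by
      rw [add_assoc, ← Pi.single_add]
      push_cast
      rfl
    rw [e, h, ih]

theorem lr_sp_scale {q : V → ℝ} (hq : SP q) (p : ℕ) : SP (fun x => q ((p : ℝ) • x)) where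
  smooth := hq.smooth.comp (contDiff_const_smul (p : ℝ))
  per := by
    intro j x
    have h := lr_nat (f := q) (j := j) (fun x => hq.per j x) p ((p : ℝ) • x)
    show q ((p : ℝ) • (x + Pi.single j 1)) = q ((p : ℝ) • x)
    have e : (p : ℝ) • (Pi.single j (1 : ℝ) : V) = Pi.single j (p : ℝ) := by
      funext l
      rcases eq_or_ne l j with h | h
      · subst h; simp
      · simp [h]
    rw [smul_add, e]
    exact h

theorem lr_pd_scale {q : V → ℝ} (hq : SP q) (p : ℝ) (j : Fin 3) (x : V) :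
    pd j (fun x => q (p • x)) x = p * pd j q (p • x) := by
  unfold pd
  have h1 : HasFDerivAt (fun x : V => p • x) (p • ContinuousLinearMap.id ℝ V) x :=
    (hasFDerivAt_id x).const_smul p
  have h2 : HasFDerivAt (fun x : V => q (p • x))
      ((fderiv ℝ q (p • x)).comp (p • ContinuousLinearMap.id ℝ V)) x :=
    (hq.diff (p • x)).hasFDerivAt.comp x h1
  rw [h2.fderiv]
  simp

theorem s_grd_aux : S_grd := by
  intro p q w hp hq hw hdiv
  have hp0 : (p : ℝ) ≠ 0 := by
    have : (0 : ℝ) < p := by exact_mod_cast hp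
    exact this.ne'
  have h1 := int_press (v := fun i x => w x i) hw hdiv (lr_sp_scale hq p)
  simp_rw [lr_pd_scale hq] at h1
  have h2 : ∑ i, ∫ x in cube, w x i * ((p : ℝ) * pd i q ((p : ℝ) • x))
      = (p : ℝ) * ∑ i, ∫ x in cube, w x i * pd i q ((p : ℝ) • x) := by
    rw [Finset.mul_sum]
    refine Finset.sum_congr rfl fun i _ => ?_
    rw [← integral_const_mul]
    congr 1
    funext x
    ring
  rw [h2] at h1
  exact (mul_eq_zero.1 h1).resolve_left hp0

theorem s_grd (_hI : S_int) : S_grd := s_grd_aux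

end Pool.Agent.H226.GB
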