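import Pool.Agent.H226.GB.Spec8
import Pool.Agent.H226.GB.Up
import Pool.Agent.H226.GB.Uni

/-!
Non-zero Fourier coefficients of trigonometric polynomials.
-/

set_option autoImplicit false

open MeasureTheory Set Filter Topology
open scoped ContDiff ENNReal
open H459R3.NS

namespace Pool.Agent.H226.GB

theorem nz_am_sp {k : Fin 3 → ℤ} {w : V → V} (hw : w ∈ am k) : ∀ i, SP (fun x => w x i) := by
  intro i
  obtain ⟨a, h | h⟩ := hw
  · have e : (fun x => w x i) = fun x => a i * Real.cos (2 * Real.pi * ph k x) := by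
      funext x
      rw [h x]
      show Real.cos (2 * Real.pi * ∑ j, (k j : ℝ) * x j) * a i = _
      rw [mul_comm]
      rfl
    rw [e]
    exact uni_smul _ (up_cos k)
  · have e : (fun x => w x i) = fun x => a i * Real.sin (2 * Real.pi * ph k x) := by
      funext x
      rw [h x]
      show Real.sin (2 * Real.pi * ∑ j, (k j : ℝ) * x j) * a i = _
      rw [mul_comm]
      rfl
    rw [e]
    exact uni_smul _ (up_sin k)

theorem nz_zero_sp : SP (fun _ : V => (0 : ℝ)) where
  smooth := contDiff_const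
  per := fun _ _ => rfl

theorem nz_tp_sp {A : Set (Fin 3 → ℤ)} {f : V → V} (hf : f ∈ TP A) : ∀ i, SP (fun x => f x i) := by
  unfold TP at hf
  induction hf using Submodule.span_induction with
  | mem w hw =>
    obtain ⟨k, _, hk⟩ := hw
    exact nz_am_sp hk
  | zero => exact fun i => nz_zero_sp
  | add u v _ _ hu hv => exact fun i => (hu i).add (hv i)
  | smul c u _ hu => exact fun i => uni_smul c (hu i)

theorem nz_ip_add {u v f : V → V} (hu : ∀ i, SP (fun x => u x i)) (hv : ∀ i, SP (fun x => v x i))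
    (hf : ∀ i, SP (fun x => f x i)) : ip (u + v) f = ip u f + ip v f := by
  unfold ip
  rw [← Finset.sum_add_distrib]
  refine Finset.sum_congr rfl fun i _ => ?_
  rw [← integral_add ((hu i).mul (hf i)).int ((hv i).mul (hf i)).int]
  congr 1
  funext x
  show (u x i + v x i) * f x i = _
  ring

theorem nz_ip_smul {u f : V → V} (c : ℝ) : ip (c • u) f = c * ip u f := by
  unfold ip
  rw [Finset.mul_sum]
  refine Finset.sum_congr rfl fun i _ => ?_
  rw [← integral_const_mul]
  congr 1
  funext x
  show c * u x i * f x i = _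
  ring

theorem nz_fq_zero {f : V → V} {k : Fin 3 → ℤ} (h : fq f k = 0) (i : Fin 3) :
    (∫ x in cube, f x i * Real.cos (2 * Real.pi * ∑ j, (k j : ℝ) * x j)) = 0 ∧
    (∫ x in cube, f x i * Real.sin (2 * Real.pi * ∑ j, (k j : ℝ) * x j)) = 0 := by
  unfold fq at h
  have h1 := (Finset.sum_eq_zero_iff_of_nonneg (fun i _ => by positivity)).1 h i
    (Finset.mem_univ i)
  constructor
  · by_contra h2
    have : 0 < (∫ x in cube, f x i * Real.cos (2 * Real.pi * ∑ j, (k j : ℝ) * x j)) ^ 2 := by
      positivity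
    nlinarith [sq_nonneg (∫ x in cube, f x i * Real.sin (2 * Real.pi * ∑ j, (k j : ℝ) * x j))]
  · by_contra h2
    have : 0 < (∫ x in cube, f x i * Real.sin (2 * Real.pi * ∑ j, (k j : ℝ) * x j)) ^ 2 := by
      positivity
    nlinarith [sq_nonneg (∫ x in cube, f x i * Real.cos (2 * Real.pi * ∑ j, (k j : ℝ) * x j))]

theorem nz_am_ip {f w : V → V} {k : Fin 3 → ℤ} (h : fq f k = 0) (hw : w ∈ am k) : ip w f = 0 := by
  unfold ip
  refine Finset.sum_eq_zero fun i _ => ?_
  obtain ⟨a, hc | hs⟩ := hw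
  · have e : (fun x => w x i * f x i) = fun x =>
        a i * (f x i * Real.cos (2 * Real.pi * ∑ j, (k j : ℝ) * x j)) := by
      funext x
      rw [hc x]
      show Real.cos (2 * Real.pi * ∑ j, (k j : ℝ) * x j) * a i * f x i = _
      ring
    rw [e, integral_const_mul, (nz_fq_zero h i).1, mul_zero]
  · have e : (fun x => w x i * f x i) = fun x =>
        a i * (f x i * Real.sin (2 * Real.pi * ∑ j, (k j : ℝ) * x j)) := by
      funext x
      rw [hs x]
      show Real.sin (2 * Real.pi * ∑ j, (k j : ℝ) * x j) * a i * f x i = _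
      ring
    rw [e, integral_const_mul, (nz_fq_zero h i).2, mul_zero]

theorem nz_tp_ip {A : Set (Fin 3 → ℤ)} {f w : V → V} (hf : ∀ i, SP (fun x => f x i))
    (h : ∀ k ∈ A, fq f k = 0) (hw : w ∈ TP A) : ip w f = 0 := by
  unfold TP at hw
  induction hw using Submodule.span_induction with
  | mem w hw =>
    obtain ⟨k, hkA, hk⟩ := hw
    exact nz_am_ip (h k hkA) hk
  | zero =>
    have : (0 : V → V) = (0 : ℝ) • (0 : V → V) := by simp
    rw [this, nz_ip_smul, zero_mul]
  | add u v hu' hv' hu hv =>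
    rw [nz_ip_add (nz_tp_sp (A := A) hu') (nz_tp_sp (A := A) hv') hf, hu, hv, add_zero]
  | smul c u _ hu => rw [nz_ip_smul, hu, mul_zero]

theorem nz_ip_self {f : V → V} (hf : ∀ i, SP (fun x => f x i)) (h : ip f f = 0) : f = 0 := by
  unfold ip at h
  have h0 : ∀ i ∈ (Finset.univ : Finset (Fin 3)), 0 ≤ ∫ x in cube, f x i * f x i := fun i _ =>
    integral_nonneg fun x => mul_self_nonneg _
  have h1 := (Finset.sum_eq_zero_iff_of_nonneg h0).1 h
  funext x i
  have h2 := h1 i (Finset.mem_univ i)
  refine uni_zero (hf i) ?_ x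
  rw [← h2]
  congr 1
  funext y
  ring

theorem s_nz : S_nz := by
  refine ⟨?_, ?_, ?_⟩
  · intro A f w hf hw hne
    by_contra h
    push Not at h
    exact hne (nz_tp_ip hf h hw)
  · intro A f hf
    exact ⟨nz_tp_sp hf, fun hne h => hne (nz_ip_self (nz_tp_sp hf) h)⟩
  · intro A
    unfold DP TP
    apply Submodule.span_mono
    rintro w ⟨k, hk, a, _, h⟩
    exact ⟨k, hk, a, h⟩

end Pool.Agent.H226.GB
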