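import Pool.Agent.H226.GB.Spec8
import Pool.Agent.H226.GB.Up
import Pool.Agent.H226.GB.Shift
import Pool.Agent.H226.GB.ProjP

/-!
The constraints are smooth and orthogonal to the fields; the space of the earlier theorem is
admissible.
-/

set_option autoImplicit false

open MeasureTheory Set Filter Topology
open scoped ContDiff ENNReal
open H459R3.NS

namespace Pool.Agent.H226.GB

theorem ort_ip_comm (u v : V → V) : ip u v = ip v u := by
  unfold ip
  refine Finset.sum_congr rfl fun i _ => ?_
  congr 1
  funext x
  exact mul_comm _ _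

/-- the convection term -/
theorem ort_conv {u v z : V → V} (hu : ∀ i, SP (fun x => u x i))
    (hdiv : ∀ x, ∑ i, pd i (fun y => u y i) x = 0) (hv : ∀ i, SP (fun x => v x i))
    (hz : ∀ i, SP (fun x => z x i)) : ip (cv u v) z = -tri u v z := by
  unfold ip cv
  have h1 : ∀ i : Fin 3, ∫ x in cube, (∑ j, u x j * pd j (fun y => v y i) x) * z x i
      = ∑ j, ∫ x in cube, pd j (fun y => v y i) x * (u x j * z x i) := by
    intro i
    rw [← integral_finsetSum _ fun j _ => (((hv i).pd j).mul ((hu j).mul (hz i))).int]
    congr 1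
    funext x
    rw [Finset.sum_mul]
    exact Finset.sum_congr rfl fun j _ => by ring
  have h2 : ∀ i j : Fin 3, ∫ x in cube, pd j (fun y => v y i) x * (u x j * z x i)
      = -(∫ x in cube, v x i * (u x j * pd j (fun y => z y i) x))
        - ∫ x in cube, v x i * z x i * pd j (fun y => u y j) x := by
    intro i j
    rw [ibp (hv i) ((hu j).mul (hz i)) j]
    have e : ∀ x, v x i * pd j (fun y => u y j * z y i) x
        = v x i * (u x j * pd j (fun y => z y i) x) + v x i * z x i * pd j (fun y => u y j) x := by
      intro x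
      rw [pd_mul (hu j) (hz i)]
      ring
    simp_rw [e]
    rw [integral_add ((hv i).mul ((hu j).mul ((hz i).pd j))).int
      (((hv i).mul (hz i)).mul ((hu j).pd j)).int]
    ring
  simp_rw [h1, h2, Finset.sum_sub_distrib, Finset.sum_neg_distrib]
  have h3 : ∀ i : Fin 3, ∑ j, ∫ x in cube, v x i * z x i * pd j (fun y => u y j) x = 0 := by
    intro i
    rw [← integral_finsetSum _ fun j _ => (((hv i).mul (hz i)).mul ((hu j).pd j)).int]
    simp_rw [← Finset.mul_sum, hdiv]
    simp
  simp_rw [h3]
  rw [Finset.sum_const_zero, sub_zero]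
  congr 1
  unfold tri
  rw [Finset.sum_comm]
  refine Finset.sum_congr rfl fun i _ => Finset.sum_congr rfl fun j _ => ?_
  congr 1
  funext x
  ring

/-- the viscous term -/
theorem ort_lap {u z : V → V} (hu : ∀ i, SP (fun x => u x i)) (hz : ∀ i, SP (fun x => z x i)) :
    ip (lp u) z = -gip u z := by
  unfold ip gip
  rw [← Finset.sum_neg_distrib]
  refine Finset.sum_congr rfl fun i _ => ?_
  exact int_lap_mul (hu i) (hz i)

theorem ort_sp_cv {u v : V → V} (hu : ∀ i, SP (fun x => u x i)) (hv : ∀ i, SP (fun x => v x i))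
    (l : Fin 3) : SP (fun x => cv u v x l) := SP.sum fun j _ => (hu j).mul ((hv l).pd j)

theorem ort_sp_lp {u : V → V} (hu : ∀ i, SP (fun x => u x i)) (l : Fin 3) :
    SP (fun x => lp u x l) := SP.sum fun j _ => ((hu l).pd j).pd j

theorem ort_sp_zero : SP (fun _ : V => (0 : ℝ)) := ⟨contDiff_const, fun _ _ => rfl⟩

theorem ort_sp_qq (hb : Basis phi cc pp gg) (i j : ℕ) (l : Fin 3) :
    SP (fun x => qq i j x l) :=
  SP.add (ort_sp_cv (hb.sp i) (hb.sp j) l) (ort_sp_cv (hb.sp j) (hb.sp i) l)

theorem ort_sp_res (hb : Basis phi cc pp gg) (n : ℕ) {f : V → V} (hf : ∀ i, SP (fun x => f x i))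
    (l : Fin 3) : SP (fun x => res n f x l) :=
  uni_sub (hf l) (SP.sum fun m _ => uni_smul (ip f (phi m)) (hb.sp m l))

theorem ort_sp_cst (hb : Basis phi cc pp gg) (n i : ℕ) (l : Fin 3) :
    SP (fun x => cst n i x l) := by
  unfold cst
  split_ifs
  · exact ort_sp_res hb n (ort_sp_qq hb i n) l
  · exact ort_sp_res hb n (ort_sp_lp (hb.sp n)) l
  · exact ort_sp_zero

/-- the products of the residual part with the fields -/
theorem ort_ip_res (hb : Basis phi cc pp gg) (n : ℕ) {f : V → V} (hf : ∀ i, SP (fun x => f x i))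
    (m : ℕ) : ip (res n f) (phi m) = if m < n + 2 then 0 else ip f (phi m) := by
  have h1 : ip (res n f) (phi m) =
      ip f (phi m) - ∑ k ∈ Finset.range (n + 2), ip f (phi k) * ip (phi k) (phi m) := by
    have e1 : ∀ l : Fin 3, ∫ x in cube, res n f x l * phi m x l =
        (∫ x in cube, f x l * phi m x l) -
          ∑ k ∈ Finset.range (n + 2), ip f (phi k) * ∫ x in cube, phi k x l * phi m x l := by
      intro l
      have e2 : ∀ x, res n f x l * phi m x l = f x l * phi m x l -
          ∑ k ∈ Finset.range (n + 2), ip f (phi k) * (phi k x l * phi m x l) := by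
        intro x
        unfold res
        rw [sub_mul, Finset.sum_mul]
        congr 1
        exact Finset.sum_congr rfl fun k _ => by ring
      simp_rw [e2]
      have i2 : ∀ k ∈ Finset.range (n + 2),
          IntegrableOn (fun x => ip f (phi k) * (phi k x l * phi m x l)) cube :=
        fun k _ => ((hb.sp k l).mul (hb.sp m l)).int.const_mul _
      rw [integral_sub ((hf l).mul (hb.sp m l)).int (integrable_finsetSum _ i2),
        integral_finsetSum _ i2]
      congr 1
      exact Finset.sum_congr rfl fun k _ => integral_const_mul _ _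
    unfold ip at e1 ⊢
    rw [Finset.sum_congr rfl fun l _ => e1 l, Finset.sum_sub_distrib, Finset.sum_comm]
    congr 1
    refine Finset.sum_congr rfl fun k _ => ?_
    rw [← Finset.mul_sum]
  have h2 : ∑ k ∈ Finset.range (n + 2), ip f (phi k) * ip (phi k) (phi m) =
      if m < n + 2 then ip f (phi m) else 0 := by
    have e1 : ∀ k ∈ Finset.range (n + 2), ip f (phi k) * ip (phi k) (phi m) =
        if k = m then ip f (phi m) else 0 := by
      intro k _
      rw [hb.on k m]
      by_cases h : k = m
      · rw [if_pos h, if_pos h, h, mul_one]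
      · rw [if_neg h, if_neg h, mul_zero]
    rw [Finset.sum_congr rfl e1, Finset.sum_ite_eq' (Finset.range (n + 2)) m]
    simp only [Finset.mem_range]
  rw [h1, h2]
  split_ifs
  · exact sub_self _
  · exact sub_zero _

theorem ort_ip_add {u v z : V → V} (hu : ∀ i, SP (fun x => u x i)) (hv : ∀ i, SP (fun x => v x i))
    (hz : ∀ i, SP (fun x => z x i)) : ip (fun x l => u x l + v x l) z = ip u z + ip v z := by
  unfold ip
  rw [← Finset.sum_add_distrib]
  refine Finset.sum_congr rfl fun i _ => ?_
  rw [← integral_add ((hu i).mul (hz i)).int ((hv i).mul (hz i)).int]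
  congr 1
  funext x
  exact add_mul _ _ _

theorem ort_cst (hb : Basis phi cc pp gg) (n i m : ℕ) : ip (cst n i) (phi m) = 0 := by
  by_cases h1 : i ≤ n
  · have e : cst n i = res n (qq i n) := by
      unfold cst
      rw [if_pos h1]
    rw [e, ort_ip_res hb n (ort_sp_qq hb i n) m]
    split_ifs with h2
    · rfl
    · have e2 : ip (qq i n) (phi m) = ip (cv (phi i) (phi n)) (phi m) +
          ip (cv (phi n) (phi i)) (phi m) :=
        ort_ip_add (ort_sp_cv (hb.sp i) (hb.sp n)) (ort_sp_cv (hb.sp n) (hb.sp i)) (hb.sp m)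
      rw [e2, ort_conv (hb.sp i) (hb.div i) (hb.sp n) (hb.sp m),
        ort_conv (hb.sp n) (hb.div n) (hb.sp i) (hb.sp m), hb.tri_eq, hb.tri_eq]
      have g1 : ¬ (n < m ∧ i = m) := by omega
      have g2 : ¬ (m < n ∧ i = n) := by omega
      have g3 : ¬ (i = n ∧ m = i + 1) := by omega
      have g4 : ¬ (i = m ∧ n = i + 1) := by omega
      have g5 : ¬ (i < m ∧ n = m) := by omega
      have g6 : ¬ (m < i ∧ n = i) := by omega
      have g7 : ¬ (n = i ∧ m = n + 1) := by omega
      have g8 : ¬ (n = m ∧ i = n + 1) := by omega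
      rw [if_neg g1, if_neg g2, if_neg g3, if_neg g4, if_neg g5, if_neg g6, if_neg g7, if_neg g8]
      norm_num
  · by_cases h3 : i = n + 1
    · have e : cst n i = res n (lp (phi n)) := by
        unfold cst
        rw [if_neg h1, if_pos h3]
      rw [e, ort_ip_res hb n (ort_sp_lp (hb.sp n)) m]
      split_ifs with h2
      · rfl
      · rw [ort_lap (hb.sp n) (hb.sp m), hb.gon, if_neg (by omega)]
        norm_num
    · have e : cst n i = 0 := by
        unfold cst
        rw [if_neg h1, if_neg h3]
      rw [e]
      unfold ip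
      simp

/-- **Orthogonality** -/
theorem s_ort (hb : Basis phi cc pp gg) : S_ort :=
  ⟨fun n i l => ort_sp_cst hb n i l, fun n i m => ort_cst hb n i m⟩

/-! ### Divergences -/

theorem ort_pd_cos (k : K3) (a : ℝ) (j : Fin 3) (x : V) :
    pd j (fun y => Real.cos (2 * Real.pi * ph k y) * a) x =
      -(2 * Real.pi * Real.sin (2 * Real.pi * ph k x)) * ((k j : ℝ) * a) := by
  have h1 := (((hasFDerivAt_ph k x).const_mul (2 * Real.pi)).cos).mul_const a
  unfold pd
  rw [h1.fderiv]
  simp only [smul_apply, sum_apply, ContinuousLinearMap.proj_apply, smul_eq_mul,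
    Pi.single_apply]
  rw [Finset.sum_eq_single j (fun b _ hb => by rw [if_neg hb, mul_zero])
    (fun h => absurd (Finset.mem_univ j) h), if_pos rfl]
  ring

theorem ort_pd_sin (k : K3) (a : ℝ) (j : Fin 3) (x : V) :
    pd j (fun y => Real.sin (2 * Real.pi * ph k y) * a) x =
      (2 * Real.pi * Real.cos (2 * Real.pi * ph k x)) * ((k j : ℝ) * a) := by
  have h1 := (((hasFDerivAt_ph k x).const_mul (2 * Real.pi)).sin).mul_const a
  unfold pd
  rw [h1.fderiv]
  simp only [smul_apply, sum_apply, ContinuousLinearMap.proj_apply, smul_eq_mul,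
    Pi.single_apply]
  rw [Finset.sum_eq_single j (fun b _ hb => by rw [if_neg hb, mul_zero])
    (fun h => absurd (Finset.mem_univ j) h), if_pos rfl]
  ring

theorem ort_div_Fp (hb : Basis phi cc pp gg) {p : ℕ} {w : V → V} (hw : w ∈ Fp phi p) (x : V) :
    ∑ i, pd i (fun y => w y i) x = 0 := by
  rcases hw with ⟨m, h⟩ | ⟨k, a, -, h2, h | h⟩
  · have e : ∀ i, pd i (fun y => w y i) x =
        (p : ℝ) * pd i (fun y => phi m y i) ((p : ℝ) • x) := by
      intro i
      have e1 : (fun y => w y i) = fun y => phi m ((p : ℝ) • y) i := by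
        funext y
        rw [h y]
      rw [e1]
      exact up_pd (hb.sp m i) (p : ℝ) i x
    rw [Finset.sum_congr rfl fun i _ => e i, ← Finset.mul_sum, hb.div, mul_zero]
  · have e : ∀ i, pd i (fun y => w y i) x =
        -(2 * Real.pi * Real.sin (2 * Real.pi * ph k x)) * ((k i : ℝ) * a i) := by
      intro i
      have e1 : (fun y => w y i) = fun y => Real.cos (2 * Real.pi * ph k y) * a i := by
        funext y
        rw [h y]
        rfl
      rw [e1]
      exact ort_pd_cos k (a i) i x
    rw [Finset.sum_congr rfl fun i _ => e i, ← Finset.mul_sum, h2, mul_zero]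
  · have e : ∀ i, pd i (fun y => w y i) x =
        (2 * Real.pi * Real.cos (2 * Real.pi * ph k x)) * ((k i : ℝ) * a i) := by
      intro i
      have e1 : (fun y => w y i) = fun y => Real.sin (2 * Real.pi * ph k y) * a i := by
        funext y
        rw [h y]
        rfl
      rw [e1]
      exact ort_pd_sin k (a i) i x
    rw [Finset.sum_congr rfl fun i _ => e i, ← Finset.mul_sum, h2, mul_zero]

/-- **The space of the earlier theorem is admissible** -/
theorem s_admF (hI : S_int) (h : S_ort) (hb : Basis phi cc pp gg) : S_admF := by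
  intro p hp
  refine ⟨?_, ?_, ?_, ?_⟩
  · intro w hw i
    exact shift_sp_Fp hb.sp hw i
  · intro w hw x
    exact ort_div_Fp hb hw x
  · intro w hw
    exact Or.inl hw
  · intro w hw n i
    rcases hw with ⟨m, hw⟩ | ⟨k, a, ⟨j, hj⟩, -, hw⟩
    · have e1 : ∀ l : Fin 3, ∫ x in cube, w x l * cst n i ((p : ℝ) • x) l =
          ∫ x in cube, phi m x l * cst n i x l := by
        intro l
        have := hI.1 (fun x => phi m x l * cst n i x l) ((hb.sp m l).mul (h.1 n i l)) p hp
        rw [← this]
        congr 1
        funext x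
        rw [hw x]
      rw [Finset.sum_congr rfl fun l _ => e1 l]
      have e2 : ∑ l, ∫ x in cube, phi m x l * cst n i x l = ip (phi m) (cst n i) := rfl
      rw [e2, ort_ip_comm]
      exact h.2 n i m
    · refine Finset.sum_eq_zero fun l _ => ?_
      have hH : SP (fun x => cst n i ((p : ℝ) • x) l) :=
        shift_sp_phi (φ := fun _ => cst n i) (fun _ l => h.1 n i l) p 0 l
      have hHper : ∀ (j : Fin 3) (x : V),
          (fun x => cst n i ((p : ℝ) • x) l) (x + Pi.single j (1 / (p : ℝ)))
            = (fun x => cst n i ((p : ℝ) • x) l) x := by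
        intro j x
        have h1 := shift_phi_add (φ := fun _ => cst n i) (fun _ l => h.1 n i l) hp j 0 x
        exact congrFun h1 l
      have hm := ProjP_mode hI hH hp hHper k j hj
      rcases hw with hw | hw
      · have e1 : ∀ x, w x l * cst n i ((p : ℝ) • x) l =
            cst n i ((p : ℝ) • x) l * Real.cos (2 * Real.pi * ph k x) * a l := by
          intro x
          rw [hw x, Pi.smul_apply, smul_eq_mul]
          unfold ph
          ring
        simp_rw [e1]
        rw [integral_mul_const, hm.1, zero_mul]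
      · have e1 : ∀ x, w x l * cst n i ((p : ℝ) • x) l =
            cst n i ((p : ℝ) • x) l * Real.sin (2 * Real.pi * ph k x) * a l := by
          intro x
          rw [hw x, Pi.smul_apply, smul_eq_mul]
          unfold ph
          ring
        simp_rw [e1]
        rw [integral_mul_const, hm.2, zero_mul]

end Pool.Agent.H226.GB
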