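import Pool.Agent.H226.GB.Spec8

/-!
Returning to the small space (helper550).
-/

open MeasureTheory Set Filter Topology
open scoped ContDiff ENNReal
open H459R3.NS

namespace Pool.Agent.H226.GB

theorem ret_mono {Φ : Set (V → V)} {ν T : ℝ} {u : ℝ → V → V} (h : IsPr Φ ν T u) {T' : ℝ}
    (hT : T' ≤ T) : IsPr Φ ν T' u where
  smooth := h.smooth.mono (prod_mono (Ico_subset_Ico le_rfl hT) (subset_univ _))
  per := fun t ht => h.per t ⟨ht.1, ht.2.trans_le hT⟩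
  divfree := fun t ht => h.divfree t ⟨ht.1, ht.2.trans_le hT⟩
  mem := fun t ht => h.mem t ⟨ht.1, ht.2.trans_le hT⟩
  eq := fun t ht => h.eq t ⟨ht.1, ht.2.trans_le hT⟩

theorem ret_sp {Φ : Set (V → V)} {ν T : ℝ} {u : ℝ → V → V} (hu : IsPr Φ ν T u) {t : ℝ}
    (ht : t ∈ Ico 0 T) (i : Fin 3) : SP (fun x => u t x i) where
  smooth := by
    have h1 : ContDiffOn ℝ ∞ (fun x : V => u t x) univ :=
      hu.smooth.comp (contDiff_const.prodMk contDiff_id).contDiffOn fun x _ => ⟨ht, mem_univ _⟩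
    have h2 : ContDiff ℝ ∞ (fun x : V => u t x) := contDiffOn_univ.1 h1
    exact (contDiff_pi.1 h2) i
  per := fun j x => congrFun (hu.per t ht j x) i

/-- a solution in the larger space stays in the small space for a short time -/
theorem ret_step (h1 : S_adm) (h3 : S_tsh) (h4 : S_locS) (h5 : S_uniP) {p : ℕ} {Φ : Set (V → V)}
    (hp : 1 ≤ p) (hA : Adm p Φ) {ν T : ℝ} {v : ℝ → V → V} (hν : 0 ≤ ν) (hv : IsPr Φ ν T v) {t₀ : ℝ}
    (ht : t₀ ∈ Ico 0 T) (h0 : InSpan (Sc p) (v t₀)) :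
    ∃ τ > 0, ∀ t ∈ Ico 0 τ, t₀ + t < T ∧ InSpan (Sc p) (v (t₀ + t)) := by
  obtain ⟨τ, hτ, U, hU, hU0⟩ := h4 p (v t₀) hp (ret_sp hv ht) h0 ν hν
  have hUΦ : IsPr Φ ν τ U := h1 p Φ hp hA ν τ U hU
  have hsh : IsPr Φ ν (T - t₀) (fun t x => v (t₀ + t) x) := h3 Φ ν T t₀ v hv ht.1
  have hpos : 0 < min τ (T - t₀) := lt_min hτ (sub_pos.2 ht.2)
  have e0 : (fun (t : ℝ) (x : V) => v (t₀ + t) x) 0 = U 0 := by
    rw [hU0]
    show (fun x => v (t₀ + 0) x) = v t₀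
    rw [add_zero]
  have hag := h5 Φ hA.sp ν (min τ (T - t₀)) (fun t x => v (t₀ + t) x) U hν
    (ret_mono hsh (min_le_right _ _)) (ret_mono hUΦ (min_le_left _ _)) e0
  refine ⟨min τ (T - t₀), hpos, fun t htt => ⟨?_, ?_⟩⟩
  · have := htt.2.trans_le (min_le_right _ _)
    linarith
  · have h6 : v (t₀ + t) = U t := hag t htt
    rw [h6]
    exact hU.mem t ⟨htt.1, htt.2.trans_le (min_le_left _ _)⟩

theorem s_ret (h1 : S_adm) (h2 : S_clo) (h3 : S_tsh) (h4 : S_locS) (h5 : S_uniP)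
    (hb : Basis phi cc pp gg) : S_ret := by
  intro p Φ hp hA ν T v hν hv h0
  have key : ∀ t ∈ Ico 0 T, InSpan (Sc p) (v t) := by
    intro t₁ ht₁
    have hcl : IsClosed ({t : ℝ | InSpan (Sc p) (v t)} ∩ Icc 0 t₁) := by
      apply isClosed_of_closure_subset
      intro t ht
      have hI : t ∈ Icc 0 t₁ :=
        (isClosed_Icc.closure_subset_iff.2 inter_subset_right) ht
      refine ⟨?_, hI⟩
      refine h2 Φ (Sc p) (fun w hw => hA.sp w (hA.sc hw)) ν T v hv t ⟨hI.1, hI.2.trans_lt ht₁.2⟩ fun ε hε => ?_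
      obtain ⟨s, hs, hd⟩ := Metric.mem_closure_iff.1 ht ε hε
      refine ⟨s, ⟨hs.2.1, hs.2.2.trans_lt ht₁.2⟩, ?_, hs.1⟩
      rw [← Real.dist_eq, dist_comm]
      exact hd
    have hsub : Icc 0 t₁ ⊆ {t : ℝ | InSpan (Sc p) (v t)} := by
      refine hcl.Icc_subset_of_forall_exists_gt h0 ?_
      rintro t ⟨hts, htI⟩ y hy
      obtain ⟨τ, hτ, hstep⟩ := ret_step h1 h3 h4 h5 hp hA hν hv
        ⟨htI.1, htI.2.trans ht₁.2⟩ hts
      have hy' : 0 < y - t := sub_pos.2 hy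
      have hm : 0 < min (τ / 2) (y - t) := lt_min (half_pos hτ) hy'
      refine ⟨t + min (τ / 2) (y - t), ?_, ?_⟩
      · refine (hstep _ ⟨hm.le, ?_⟩).2
        exact (min_le_left _ _).trans_lt (half_lt_self hτ)
      · refine ⟨by linarith, ?_⟩
        have := min_le_right (τ / 2) (y - t)
        linarith
    exact hsub ⟨ht₁.1, le_rfl⟩
  exact ⟨hv.smooth, hv.per, hv.divfree, key, fun t ht w hw => hv.eq t ht w (hA.sc hw)⟩

end Pool.Agent.H226.GB

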