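import Pool.Agent.H226.GB.Spec8
import Pool.Agent.H226.GB.Up

/-!
Rescaling: from solutions for the fields `φ m` to solutions for the fields `φ m (p x)`.
-/

set_option autoImplicit false

open MeasureTheory Set Filter Topology
open scoped ContDiff ENNReal
open H459R3.NS

namespace Pool.Agent.H226.GB

theorem scl_mem (hI : S_int) {φ : ℕ → V → V} (hφ : ∀ m i, SP (fun x => φ m x i)) {p : ℕ}
    (hp1 : 1 ≤ p) {ν T : ℝ} {u : ℝ → V → V} (hu : IsGal φ ν T u) {t : ℝ} (ht : t ∈ Ico 0 T) :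
    InSpan {w | ∃ m, ∀ x, w x = φ m ((p : ℝ) • x)} (fun x => (p : ℝ)⁻¹ • u t ((p : ℝ) • x)) := by
  have hp : (p : ℝ) ≠ 0 := by
    have : 0 < p := hp1
    positivity
  intro ε hε
  obtain ⟨L, a, h⟩ := hu.mem t ht (ε * p ^ 2) (by positivity)
  refine ⟨∑ m ∈ Finset.range L, ((p : ℝ)⁻¹ * a m) • (fun x => φ m ((p : ℝ) • x)), ?_, ?_⟩
  · refine Submodule.sum_mem _ fun m _ => Submodule.smul_mem _ _ (Submodule.subset_span ?_)
    exact ⟨m, fun x => rfl⟩
  · have e : ∀ i, ∫ x in cube, (((p : ℝ)⁻¹ • u t ((p : ℝ) • x)) i -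
        (∑ m ∈ Finset.range L, ((p : ℝ)⁻¹ * a m) • (fun x => φ m ((p : ℝ) • x))) x i) ^ 2 =
        ((p : ℝ) ^ 2)⁻¹ * ∫ x in cube, (u t x i - ∑ m ∈ Finset.range L, a m * φ m x i) ^ 2 := by
      intro i
      have hs : SP (fun x => u t x i - ∑ m ∈ Finset.range L, a m * φ m x i) :=
        uni_sub (uni_sp hu ht i) (SP.sum fun m _ => uni_smul (a m) (hφ m i))
      have h1 := hI.1 _ (hs.mul hs) p hp1
      simp only [← sq] at h1
      rw [← h1, ← integral_const_mul]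
      refine integral_congr_ae (Eventually.of_forall fun x => ?_)
      show (((p : ℝ)⁻¹ • u t ((p : ℝ) • x)) i -
        (∑ m ∈ Finset.range L, ((p : ℝ)⁻¹ * a m) • (fun x => φ m ((p : ℝ) • x))) x i) ^ 2 =
        ((p : ℝ) ^ 2)⁻¹ * (u t ((p : ℝ) • x) i -
          ∑ m ∈ Finset.range L, a m * φ m ((p : ℝ) • x) i) ^ 2
      have e1 : (∑ m ∈ Finset.range L, ((p : ℝ)⁻¹ * a m) • (fun x => φ m ((p : ℝ) • x))) x i =
          (p : ℝ)⁻¹ * ∑ m ∈ Finset.range L, a m * φ m ((p : ℝ) • x) i := by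
        rw [Finset.sum_apply, Finset.sum_apply, Finset.mul_sum]
        refine Finset.sum_congr rfl fun m _ => ?_
        simp only [Pi.smul_apply, smul_eq_mul]
        ring
      rw [e1, Pi.smul_apply, smul_eq_mul, ← mul_sub, mul_pow, inv_pow]
    rw [Finset.sum_congr rfl fun i _ => e i, ← Finset.mul_sum]
    have hp2 : (0 : ℝ) < (p : ℝ) ^ 2 := by positivity
    rw [inv_mul_lt_iff₀ hp2]
    linarith

theorem s_scl (hI : S_int) (hb : Basis phi cc pp gg) : S_scl := by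
  intro p ν T u hp1 hu
  have h := s_up hI phi p hb.sp hp1 ν T u hu
  exact ⟨h.smooth, h.per, h.divfree, fun t ht => scl_mem hI hb.sp hp1 hu ht,
    fun t ht w hw => h.eq t ht w (Or.inl hw)⟩

end Pool.Agent.H226.GB
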