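import Pool.Agent.H226.GB.Spec8
import Pool.Agent.H226.GB.Down
import Pool.Agent.H226.GB.MemDown

/-!
Rescaling from the closed span of the fields `φ m (p x)` to the closed span of the fields `φ m`
(helper720 for helper226).
-/

set_option autoImplicit false

open MeasureTheory Set Filter Topology
open scoped ContDiff
open H459R3.NS

namespace Pool.Agent.H226.GB

theorem scl2_sub (p : ℕ) : Sc p ⊆ Fp phi p := fun _ hw => Or.inl hw

theorem scl2_inSpan {p : ℕ} {v : V → V} (h : InSpan (Sc p) v) : InSpan (Fp phi p) v := by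
  intro ε hε
  obtain ⟨w, hw, h⟩ := h ε hε
  exact ⟨w, Submodule.span_mono (scl2_sub p) hw, h⟩

/-- the elements of the span are `1 / p`-periodic -/
theorem scl2_span {p : ℕ} (hφ : ∀ m i, SP (fun x => phi m x i)) (hp : 1 ≤ p) (j : Fin 3)
    {w : V → V} (hw : w ∈ Submodule.span ℝ (Sc p)) :
    ∀ x : V, w (x + Pi.single j (1 / (p : ℝ))) = w x := by
  induction hw using Submodule.span_induction with
  | mem w h =>
    intro x
    obtain ⟨m, h⟩ := h
    rw [h, h, shift_phi_add hφ hp]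
  | zero => exact fun x => rfl
  | add v w _ _ hv hw =>
    intro x
    show v (x + Pi.single j (1 / (p : ℝ))) + w (x + Pi.single j (1 / (p : ℝ))) = v x + w x
    rw [hv, hw]
  | smul c w _ hw =>
    intro x
    show c • w (x + Pi.single j (1 / (p : ℝ))) = c • w x
    rw [hw]

/-- smooth elements of the closed span are `1 / p`-periodic -/
theorem scl2_per (hI : S_int) {p : ℕ} (hφ : ∀ m i, SP (fun x => phi m x i)) (hp : 1 ≤ p)
    {v : V → V} (hv : ∀ i, SP (fun x => v x i)) (h : InSpan (Sc p) v) (j : Fin 3) (x : V) :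
    v (x + Pi.single j (1 / (p : ℝ))) = v x := by
  set y : V := Pi.single j (1 / (p : ℝ)) with hy
  have hvy : ∀ i, SP (fun x => v (x + y) i) := fun i => mem_trans (hv i) y
  have hd : ∀ i, SP (fun x => v (x + y) i - v x i) := fun i => uni_sub (hvy i) (hv i)
  have key : ∀ ε > 0, ∑ i, ∫ x in cube, (v (x + y) i - v x i) ^ 2 ≤ 4 * ε := by
    intro ε hε
    obtain ⟨w, hw, hlt⟩ := h ε hε
    have hwsp : ∀ i, SP (fun x => w x i) :=
      shift_sp_span (fun w hw i => shift_sp_Fp hφ (scl2_sub p hw) i) hw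
    have h1 : ∀ i, ∫ x in cube, (v (x + y) i - v x i) ^ 2 ≤
        4 * ∫ x in cube, (v x i - w x i) ^ 2 := by
      intro i
      have hg : SP (fun x => v x i - w x i) := uni_sub (hv i) (hwsp i)
      have hgy : SP (fun x => v (x + y) i - w (x + y) i) := mem_trans hg y
      have h2 : ∫ x in cube, (v (x + y) i - w (x + y) i) ^ 2 =
          ∫ x in cube, (v x i - w x i) ^ 2 := by
        have h5 := hI.2 _ (hg.mul hg) y
        simp only [← pow_two] at h5
        exact h5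
      have hi1 : IntegrableOn (fun x => 2 * (v (x + y) i - w (x + y) i) ^ 2) cube :=
        (uni_sq hgy).const_mul 2
      have hi2 : IntegrableOn (fun x => 2 * (v x i - w x i) ^ 2) cube := (uni_sq hg).const_mul 2
      have h3 : ∫ x in cube, (v (x + y) i - v x i) ^ 2 ≤
          ∫ x in cube, (2 * (v (x + y) i - w (x + y) i) ^ 2 + 2 * (v x i - w x i) ^ 2) := by
        refine integral_mono (uni_sq (hd i)) (hi1.add hi2) (fun x => ?_)
        have h4 : w (x + y) i = w x i := congrFun (scl2_span hφ hp j hw x) i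
        show (v (x + y) i - v x i) ^ 2 ≤
          2 * (v (x + y) i - w (x + y) i) ^ 2 + 2 * (v x i - w x i) ^ 2
        rw [h4]
        nlinarith [sq_nonneg ((v (x + y) i - w x i) + (v x i - w x i))]
      rw [integral_add hi1 hi2, integral_const_mul, integral_const_mul, h2] at h3
      linarith
    have h6 : ∑ i, ∫ x in cube, (v (x + y) i - v x i) ^ 2 ≤
        ∑ i, 4 * ∫ x in cube, (v x i - w x i) ^ 2 := Finset.sum_le_sum fun i _ => h1 i
    rw [← Finset.mul_sum] at h6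
    linarith
  have h0 : ∑ i, ∫ x in cube, (v (x + y) i - v x i) ^ 2 ≤ 0 := by
    refine le_of_forall_pos_le_add fun ε hε => ?_
    have h7 := key (ε / 4) (by positivity)
    linarith
  have hnn : ∀ i, 0 ≤ ∫ x in cube, (v (x + y) i - v x i) ^ 2 := fun i =>
    integral_nonneg fun x => sq_nonneg _
  funext i
  have h1 : ∫ x in cube, (v (x + y) i - v x i) ^ 2 = 0 :=
    le_antisymm ((Finset.single_le_sum (f := fun i => ∫ x in cube, (v (x + y) i - v x i) ^ 2)
      (fun i _ => hnn i) (Finset.mem_univ i)).trans h0) (hnn i)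
  exact sub_eq_zero.1 (uni_zero (hd i) h1 x)

/-- GB49 -/
theorem s_scl2 (hI : S_int) (hb : Basis phi cc pp gg) : S_scl2 := by
  intro p ν T u hp hu
  have hφ : ∀ m i, SP (fun x => phi m x i) := hb.sp
  have hp0 : (p : ℝ) ≠ 0 := by
    have : (1 : ℝ) ≤ p := by exact_mod_cast hp
    positivity
  have hper : ∀ t ∈ Ico 0 T, ∀ (j : Fin 3) (x : V),
      u t (x + Pi.single j (1 / (p : ℝ))) = u t x := fun t ht j x =>
    scl2_per hI hφ hp (fun i => down_sp hu.smooth hu.per ht i) (hu.mem t ht) j x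
  have hsm : ContDiffOn ℝ ∞ (fun z : ℝ × V => (p : ℝ) • u z.1 ((p : ℝ)⁻¹ • z.2))
      (Ico 0 T ×ˢ univ) := by
    refine ContDiffOn.const_smul (p : ℝ) ?_
    refine hu.smooth.comp (g := fun z : ℝ × V => u z.1 z.2)
      (f := fun z : ℝ × V => (z.1, (p : ℝ)⁻¹ • z.2)) ?_ ?_
    · exact ContDiff.contDiffOn (contDiff_fst.prodMk (contDiff_snd.const_smul (p : ℝ)⁻¹))
    · intro z hz
      exact ⟨hz.1, mem_univ _⟩
  have hpe : ∀ t ∈ Ico 0 T, Per (fun x => (p : ℝ) • u t ((p : ℝ)⁻¹ • x)) := by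
    intro t ht i x
    have h1 : (p : ℝ)⁻¹ • (x + Pi.single i 1) = (p : ℝ)⁻¹ • x + Pi.single i (1 / (p : ℝ)) := by
      rw [smul_add, ← Pi.single_smul, smul_eq_mul, mul_one, one_div]
    change (p : ℝ) • u t ((p : ℝ)⁻¹ • (x + Pi.single i 1)) = (p : ℝ) • u t ((p : ℝ)⁻¹ • x)
    rw [h1, hper t ht]
  have hsp : ∀ t ∈ Ico 0 T, ∀ i, SP (fun x => u t x i) := fun t ht i =>
    down_sp hu.smooth hu.per ht i
  have hpd : ∀ t ∈ Ico 0 T, ∀ i j, pd j (fun y => ((p : ℝ) • u t ((p : ℝ)⁻¹ • y)) i) =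
      fun x => pd j (fun y => u t y i) ((p : ℝ)⁻¹ • x) := by
    intro t ht i j
    have h1 := down_pd (p : ℝ)⁻¹ (p : ℝ) (hsp t ht i).diff j
    rw [mul_inv_cancel₀ hp0] at h1
    simp only [one_mul] at h1
    exact h1
  have hpd2 : ∀ t ∈ Ico 0 T, ∀ i j x, pd j (pd j (fun y => ((p : ℝ) • u t ((p : ℝ)⁻¹ • y)) i)) x =
      (p : ℝ)⁻¹ * pd j (pd j (fun y => u t y i)) ((p : ℝ)⁻¹ • x) := by
    intro t ht i j x
    rw [hpd t ht i j]
    have h1 := down_pd (p : ℝ)⁻¹ 1 ((hsp t ht i).pd j).diff j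
    simp only [one_mul] at h1
    rw [h1]
  refine ⟨hsm, hpe, ?_, ?_, ?_⟩
  · intro t ht x
    simp only [hpd t ht]
    exact hu.divfree t ht _
  · intro t ht ε hε
    exact s_memdown hI phi p hφ hp (u t) (hsp t ht) (hper t ht) (scl2_inSpan (hu.mem t ht)) ε hε
  · intro t ht m
    have ht' : t ∈ Ico 0 T := ⟨ht.1.le, ht.2⟩
    have hR := fun i => down_R hsm hpe (ν * p ^ 2) ht i
    have hR2 : ∀ i x, uniR (ν * p ^ 2) (fun t x => (p : ℝ) • u t ((p : ℝ)⁻¹ • x)) t i
        ((p : ℝ) • x) = p * uniR ν u t i x := by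
      intro i x
      have hx : (p : ℝ)⁻¹ • (p : ℝ) • x = x := by
        rw [smul_smul, inv_mul_cancel₀ hp0, one_smul]
      have h1 : dt (fun s x => ((p : ℝ) • u s ((p : ℝ)⁻¹ • x)) i) t ((p : ℝ) • x) =
          p * dt (fun s x => u s x i) t x := by
        unfold dt
        simp only [hx, Pi.smul_apply, smul_eq_mul]
        exact deriv_const_mul_field _
      have h2 : ∑ j, pd j (pd j (fun y => ((p : ℝ) • u t ((p : ℝ)⁻¹ • y)) i)) ((p : ℝ) • x) =
          (p : ℝ)⁻¹ * ∑ j, pd j (pd j (fun y => u t y i)) x := by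
        rw [Finset.mul_sum]
        exact Finset.sum_congr rfl fun j _ => by rw [hpd2 t ht', hx]
      have h3 : ∑ j, ((p : ℝ) • u t ((p : ℝ)⁻¹ • (p : ℝ) • x)) j *
          pd j (fun y => ((p : ℝ) • u t ((p : ℝ)⁻¹ • y)) i) ((p : ℝ) • x) =
          p * ∑ j, u t x j * pd j (fun y => u t y i) x := by
        rw [Finset.mul_sum]
        refine Finset.sum_congr rfl fun j _ => ?_
        have e1 : pd j (fun y => ((p : ℝ) • u t ((p : ℝ)⁻¹ • y)) i) ((p : ℝ) • x) =
            pd j (fun y => u t y i) x := by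
          rw [hpd t ht']
          simp only [hx]
        rw [e1, hx, Pi.smul_apply, smul_eq_mul, mul_assoc]
      change dt (fun s x => ((p : ℝ) • u s ((p : ℝ)⁻¹ • x)) i) t ((p : ℝ) • x) +
        ∑ j, ((p : ℝ) • u t ((p : ℝ)⁻¹ • (p : ℝ) • x)) j *
          pd j (fun y => ((p : ℝ) • u t ((p : ℝ)⁻¹ • y)) i) ((p : ℝ) • x) -
        ν * p ^ 2 * ∑ j, pd j (pd j (fun y => ((p : ℝ) • u t ((p : ℝ)⁻¹ • y)) i))
          ((p : ℝ) • x) = p * uniR ν u t i x
      rw [h1, h2, h3]
      unfold uniR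
      field_simp
    have h3 : ∀ i, ∫ x in cube, uniR (ν * p ^ 2) (fun t x => (p : ℝ) • u t ((p : ℝ)⁻¹ • x)) t i x *
        phi m x i = p * ∫ x in cube, uniR ν u t i x * phi m ((p : ℝ) • x) i := by
      intro i
      rw [← hI.1 _ ((hR i).mul (hφ m i)) p hp, ← integral_const_mul]
      refine integral_congr_ae (Eventually.of_forall fun x => ?_)
      simp only [hR2]
      ring
    change ∑ i, ∫ x in cube, uniR (ν * p ^ 2) (fun t x => (p : ℝ) • u t ((p : ℝ)⁻¹ • x)) t i x *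
        phi m x i = 0
    rw [Finset.sum_congr rfl fun i _ => h3 i, ← Finset.mul_sum]
    have h4 := hu.eq t ht (fun x => phi m ((p : ℝ) • x)) ⟨m, fun x => rfl⟩
    have h5 : ∑ i, ∫ x in cube, uniR ν u t i x * phi m ((p : ℝ) • x) i = 0 := h4
    rw [h5, mul_zero]

end Pool.Agent.H226.GB
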