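import Pool.Agent.H226.GB.Fin5
import Pool.Agent.H226.GB.Spec9
import Pool.Agent.H226.GB.Dt
import Pool.Agent.H226.GB.Lap
import Pool.Agent.H226.GB.Conv
import Pool.Agent.H226.GB.PrS
import Pool.Agent.H226.GB.AdmS
import Pool.Agent.H226.GB.Clo
import Pool.Agent.H226.GB.Scl
import Pool.Agent.H226.GB.LocS
import Pool.Agent.H226.GB.Ret
import Pool.Agent.H226.GB.Scl2
import Pool.Agent.H226.GB.Ort
import Pool.Agent.H226.GB.Lr
import Pool.Agent.H226.GB.Nz

/-!
The main theorem for all admissible spaces, and the constraints.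
-/

open MeasureTheory Set Filter Topology
open scoped ContDiff ENNReal
open H459R3.NS

namespace Pool.Agent.H226.GB

theorem f_hsb : S_hsb := s_hsb s_int f_bas f_nm

theorem f_stat : S_stat := s_stat s_int f_bas f_nm

theorem f_prS : S_prS := s_prS f_hsb s_hfin f_stat s_int f_bas

theorem f_ort : S_ort := s_ort f_bas

theorem f_adm : S_adm :=
  s_adm (s_dt s_int f_bas) (s_lap f_bas) (s_con f_bas) f_prS f_ort s_int f_bas

theorem f_scl : S_scl := s_scl s_int f_bas

theorem f_scl2 : S_scl2 := s_scl2 s_int f_bas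

theorem f_locS : S_locS := s_locS f_prS s_locG f_scl f_bas

theorem f_ret : S_ret := s_ret f_adm s_clo s_tsh f_locS s_uniP f_bas

theorem f_admF : S_admF := s_admF s_int f_ort f_bas

theorem f_ip_comm (u v : V → V) : ip u v = ip v u := by
  unfold ip
  simp_rw [mul_comm]

/-- gradients and divergence-free fields -/
theorem f_grd1 {q : V → ℝ} (hq : SP q) {w : V → V} (hw : ∀ i, SP (fun x => w x i))
    (hd : ∀ x, ∑ i, pd i (fun y => w y i) x = 0) : ∑ i, ∫ x in cube, w x i * pd i q x = 0 := by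
  have h := s_grd s_int 1 q w le_rfl hq hw hd
  simpa using h

/-- divergence-free constraints -/
theorem f_psi (hs : S_spec) : ∃ ψ : ℕ → ℕ → V → V, (∀ n i, ψ n i ∈ DP univ) ∧
    (∀ n i, ∃ q : V → ℝ, SP q ∧ ∀ x l, cst n i x l = ψ n i x l + pd l q x) ∧
    (∀ n i, n + 1 < i → ψ n i = 0) ∧
    ∀ n i, ψ n i ≠ 0 → ∃ k : Fin 3 → ℤ, (4 : ℤ) ^ (n ^ 3) ≤ |k 2| ∧ fq (ψ n i) k ≠ 0 := by
  obtain ⟨n1, n2, n3⟩ := s_nz
  have key : ∀ n i, ∃ g : V → V, g ∈ DP univ ∧
      (∃ q : V → ℝ, SP q ∧ ∀ x l, cst n i x l = g x l + pd l q x) ∧ (n + 1 < i → g = 0) ∧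
      (g ≠ 0 → ∃ k : Fin 3 → ℤ, (4 : ℤ) ^ (n ^ 3) ≤ |k 2| ∧ fq g k ≠ 0) := by
    intro n i
    by_cases h1 : n + 1 < i
    · refine ⟨0, Submodule.zero_mem _, ⟨fun _ => 0, ⟨contDiff_const, fun _ _ => rfl⟩, fun x l => ?_⟩,
        fun _ => rfl, fun h => absurd rfl h⟩
      have e : cst n i = 0 := by
        unfold cst
        rw [if_neg (by omega), if_neg (by omega)]
      rw [e]
      show (0 : ℝ) = 0 + pd l (fun _ => (0 : ℝ)) x
      unfold pd
      simp
    by_cases h2 : i = n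
    · subst h2
      obtain ⟨w, hw, hwS, hwd, hw0⟩ := hs.2.2 i
      obtain ⟨g, hg, q, hq, hgq⟩ := s_lr univ (cst i i) (hs.1 i i)
      have hgS := (n2 univ g (n3 univ hg)).1
      refine ⟨g, hg, ⟨q, hq, hgq⟩, fun h => absurd h h1, fun _ => ?_⟩
      have h3 : ip w g ≠ 0 := by
        have h4 : ip w (cst i i) = ip w g + ∑ l, ∫ x in cube, w x l * pd l q x := by
          unfold ip
          rw [← Finset.sum_add_distrib]
          refine Finset.sum_congr rfl fun l _ => ?_
          rw [← integral_add ((hwS l).mul (hgS l)).int ((hwS l).mul (hq.pd l)).int]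
          refine integral_congr_ae (Eventually.of_forall fun x => ?_)
          show w x l * cst i i x l = w x l * g x l + w x l * pd l q x
          rw [hgq x l]
          ring
        rw [f_grd1 hq hwS hwd, add_zero] at h4
        rw [← h4]
        exact hw0
      obtain ⟨k, hk, hk'⟩ := n1 _ g w hgS hw h3
      exact ⟨k, hk, hk'⟩
    · obtain ⟨g, hg, q, hq, hgq⟩ := s_lr _ (cst n i) (hs.2.1 n i h2)
      have hgT := n3 _ hg
      have hgu : g ∈ DP univ := by
        refine Submodule.span_mono ?_ hg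
        rintro w ⟨k, -, hk⟩
        exact ⟨k, mem_univ _, hk⟩
      refine ⟨g, hgu, ⟨q, hq, hgq⟩, fun h => absurd h h1, fun h0 => ?_⟩
      obtain ⟨hgS, hg0⟩ := n2 _ g hgT
      obtain ⟨k, hk, hk'⟩ := n1 _ g g hgS hgT (hg0 h0)
      exact ⟨k, hk, hk'⟩
  choose ψ h1 h2 h3 h4 using key
  exact ⟨ψ, h1, h2, h3, h4⟩

/-- the constraints in terms of the divergence-free parts -/
theorem f_cstψ {p : ℕ} (hp : 1 ≤ p) {c g : V → V} {q : V → ℝ} (hg : ∀ i, SP (fun x => g x i))
    (hq : SP q) (h : ∀ x l, c x l = g x l + pd l q x) {w : V → V} (hw : ∀ i, SP (fun x => w x i))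
    (hd : ∀ x, ∑ i, pd i (fun y => w y i) x = 0) :
    ∑ l, ∫ x in cube, w x l * c ((p : ℝ) • x) l
      = ∑ l, ∫ x in cube, w x l * g ((p : ℝ) • x) l := by
  have h1 := s_grd s_int p q w hp hq hw hd
  have hsp : ∀ f : V → ℝ, SP f → SP (fun x => f ((p : ℝ) • x)) := by
    intro f hf
    refine ⟨hf.smooth.comp (contDiff_const_smul (p : ℝ)), fun j x => ?_⟩
    show f ((p : ℝ) • (x + Pi.single j 1)) = f ((p : ℝ) • x)
    rw [smul_add]
    have e : ∀ (k : ℕ) (y : V), f (y + (k : ℝ) • Pi.single j (1 : ℝ)) = f y := by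
      intro k y
      induction k with
      | zero => simp
      | succ k ih =>
        rw [Nat.cast_succ, add_smul, one_smul, ← add_assoc, hf.per j, ih]
    exact e p _
  have e1 : ∀ l, ∫ x in cube, w x l * c ((p : ℝ) • x) l
      = (∫ x in cube, w x l * g ((p : ℝ) • x) l) + ∫ x in cube, w x l * pd l q ((p : ℝ) • x) := by
    intro l
    rw [← integral_add ((hw l).mul (hsp _ (hg l))).int ((hw l).mul (hsp _ (hq.pd l))).int]
    refine integral_congr_ae (Eventually.of_forall fun x => ?_)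
    show w x l * c ((p : ℝ) • x) l = w x l * g ((p : ℝ) • x) l + w x l * pd l q ((p : ℝ) • x)
    rw [h]
    ring
  rw [Finset.sum_congr rfl fun l _ => e1 l, Finset.sum_add_distrib, h1, add_zero]

end Pool.Agent.H226.GB
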