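import Pool.Agent.H226.GB.Spec9

/-!
Concatenation of solutions (task GB63 Glu, by helper878).
-/

set_option autoImplicit false

open MeasureTheory Set Filter Topology
open scoped ContDiff ENNReal
open H459R3.NS

namespace Pool.Agent.H226.GB

theorem glu_mono {φ : ℕ → V → V} {ν T T' : ℝ} {u : ℝ → V → V} (h : IsGal φ ν T u)
    (hT : T' ≤ T) : IsGal φ ν T' u where
  smooth := h.smooth.mono (prod_mono (Ico_subset_Ico le_rfl hT) (subset_univ _))
  per := fun t ht => h.per t ⟨ht.1, ht.2.trans_le hT⟩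
  divfree := fun t ht => h.divfree t ⟨ht.1, ht.2.trans_le hT⟩
  mem := fun t ht => h.mem t ⟨ht.1, ht.2.trans_le hT⟩
  eq := fun t ht => h.eq t ⟨ht.1, ht.2.trans_le hT⟩

theorem glu_tsh {φ : ℕ → V → V} {ν T t₀ : ℝ} {u : ℝ → V → V} (hu : IsGal φ ν T u)
    (ht₀ : 0 ≤ t₀) : IsGal φ ν (T - t₀) (fun t x => u (t₀ + t) x) := by
  have hin : ∀ t ∈ Ico 0 (T - t₀), t₀ + t ∈ Ico 0 T := fun t ht =>
    ⟨add_nonneg ht₀ ht.1, by linarith [ht.2]⟩
  refine ⟨?_, fun t ht => hu.per _ (hin t ht), fun t ht => hu.divfree _ (hin t ht),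
    fun t ht => hu.mem _ (hin t ht), ?_⟩
  · have h1 : ContDiff ℝ ∞ (fun z : ℝ × V => ((t₀ + z.1, z.2) : ℝ × V)) :=
      (contDiff_const.add contDiff_fst).prodMk contDiff_snd
    exact hu.smooth.comp h1.contDiffOn (fun z hz => ⟨hin _ hz.1, mem_univ _⟩)
  · intro t ht w
    have ht' : t₀ + t ∈ Ioo 0 T := ⟨by linarith [ht.1], by linarith [ht.2]⟩
    have e : ∀ (x : V) (i : Fin 3), deriv (fun s => u (t₀ + s) x i) t =
        deriv (fun s => u s x i) (t₀ + t) := fun x i =>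
      deriv_comp_const_add (f := fun s => u s x i) t₀ t
    simp only [e]
    exact hu.eq _ ht' w

/-- the solution property at the time `t` of the function `w` -/
structure GluAt (φ : ℕ → V → V) (ν T : ℝ) (w : ℝ → V → V) (t : ℝ) : Prop where
  smooth : ∀ x, ContDiffWithinAt ℝ ∞ (fun z : ℝ × V => w z.1 z.2) (Ico 0 T ×ˢ univ) (t, x)
  per : Per (w t)
  divfree : ∀ x, ∑ i, pd i (fun y => w t y i) x = 0
  mem : ∀ ε > 0, ∃ (L : ℕ) (a : ℕ → ℝ),
    ∑ i, ∫ x in cube, (w t x i - ∑ m ∈ Finset.range L, a m * φ m x i) ^ 2 < ε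
  eq : 0 < t → ∀ m, ∑ i, ∫ x in cube,
    (deriv (fun s => w s x i) t + ∑ j, w t x j * pd j (fun y => w t y i) x
      - ν * ∑ j, pd j (pd j (fun y => w t y i)) x) * φ m x i = 0

theorem glu_of {φ : ℕ → V → V} {ν T : ℝ} {w : ℝ → V → V}
    (h : ∀ t ∈ Ico 0 T, GluAt φ ν T w t) : IsGal φ ν T w where
  smooth := by
    rintro ⟨t, x⟩ ⟨ht, -⟩
    exact (h t ht).smooth x
  per := fun t ht => (h t ht).per
  divfree := fun t ht => (h t ht).divfree
  mem := fun t ht => (h t ht).mem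
  eq := fun t ht => (h t ⟨ht.1.le, ht.2⟩).eq ht.1

/-- near `t`, the function `w` is a solution `u` (up to the starting time) -/
theorem glu_at1 {φ : ℕ → V → V} {ν T T' : ℝ} {u w : ℝ → V → V} (hu : IsGal φ ν T u)
    (hw : ∀ s ∈ Ico 0 T, w s = u s) {t : ℝ} (ht : t ∈ Ico 0 T) :
    GluAt φ ν T' w t := by
  have e0 := hw t ht
  refine ⟨fun x => ?_, ?_, fun x => ?_, ?_, fun h0 m => ?_⟩
  · have h1 := hu.smooth (t, x) ⟨ht, mem_univ _⟩
    have h2 : Ico 0 T ×ˢ (univ : Set V) ∈ 𝓝[Ico 0 T' ×ˢ univ] (t, x) := by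
      refine mem_nhdsWithin.2 ⟨Iio T ×ˢ univ, isOpen_Iio.prod isOpen_univ,
        ⟨ht.2, mem_univ _⟩, ?_⟩
      rintro ⟨s, y⟩ ⟨⟨hs, -⟩, ⟨hs', -⟩⟩
      exact ⟨⟨hs'.1, hs⟩, mem_univ _⟩
    have h3 : ContDiffWithinAt ℝ ∞ (fun z : ℝ × V => u z.1 z.2) (Ico 0 T' ×ˢ univ) (t, x) :=
      h1.mono_of_mem_nhdsWithin h2
    refine h3.congr_of_eventuallyEq ?_ ?_
    · filter_upwards [h2] with z hz
      have := hw z.1 hz.1
      show w z.1 z.2 = u z.1 z.2
      rw [this]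
    · show w t x = u t x
      rw [e0]
  · rw [e0]
    exact hu.per t ht
  · rw [e0]
    exact hu.divfree t ht x
  · rw [e0]
    exact hu.mem t ht
  · have h1 := hu.eq t ⟨h0, ht.2⟩ m
    have h2 : ∀ x i, deriv (fun s => w s x i) t = deriv (fun s => u s x i) t := by
      intro x i
      refine Filter.EventuallyEq.deriv_eq ?_
      filter_upwards [Ioo_mem_nhds h0 ht.2] with s hs
      rw [hw s ⟨hs.1.le, hs.2⟩]
    simp only [h2, e0]
    exact h1

/-- near `t > t₀`, the function `w` is a translate of a solution `U` -/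
theorem glu_at2 {φ : ℕ → V → V} {ν τ t₀ : ℝ} {U w : ℝ → V → V} (hU : IsGal φ ν τ U)
    (hw : ∀ s ∈ Ico 0 τ, w (t₀ + s) = U s) {t : ℝ} (ht : t ∈ Ioo t₀ (t₀ + τ)) :
    GluAt φ ν (t₀ + τ) w t := by
  have hw' : ∀ s ∈ Ico t₀ (t₀ + τ), w s = U (s - t₀) := by
    intro s hs
    have := hw (s - t₀) ⟨by linarith [hs.1], by linarith [hs.2]⟩
    rw [← this]
    congr 1
    ring
  have ht' : t - t₀ ∈ Ioo 0 τ := ⟨by linarith [ht.1], by linarith [ht.2]⟩
  have ht'' : t - t₀ ∈ Ico 0 τ := ⟨ht'.1.le, ht'.2⟩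
  have e0 := hw' t ⟨ht.1.le, ht.2⟩
  refine ⟨fun x => ?_, ?_, fun x => ?_, ?_, fun h0 m => ?_⟩
  · have h1 : ContDiffWithinAt ℝ ∞ (fun z : ℝ × V => U z.1 z.2) (Ico 0 τ ×ˢ univ)
        (t - t₀, x) := hU.smooth (t - t₀, x) ⟨ht'', mem_univ _⟩
    have h4 : ContDiffWithinAt ℝ ∞ (fun z : ℝ × V => ((z.1 - t₀, z.2) : ℝ × V))
        (Ico t₀ (t₀ + τ) ×ˢ univ) (t, x) :=
      ((contDiff_fst.sub contDiff_const).prodMk contDiff_snd).contDiffWithinAt
    have h5 : ContDiffWithinAt ℝ ∞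
        ((fun z : ℝ × V => U z.1 z.2) ∘ (fun z : ℝ × V => ((z.1 - t₀, z.2) : ℝ × V)))
        (Ico t₀ (t₀ + τ) ×ˢ univ) (t, x) :=
      ContDiffWithinAt.comp (t := Ico 0 τ ×ˢ (univ : Set V)) (t, x) h1 h4
        (fun z hz => ⟨⟨by linarith [hz.1.1], by linarith [hz.1.2]⟩, mem_univ _⟩)
    have h2 : Ico t₀ (t₀ + τ) ×ˢ (univ : Set V) ∈ 𝓝[Ico 0 (t₀ + τ) ×ˢ univ] (t, x) := by
      refine mem_nhdsWithin.2 ⟨Ioi t₀ ×ˢ univ, isOpen_Ioi.prod isOpen_univ,
        ⟨ht.1, mem_univ _⟩, ?_⟩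
      rintro ⟨s, y⟩ ⟨⟨hs, -⟩, ⟨hs', -⟩⟩
      exact ⟨⟨le_of_lt hs, hs'.2⟩, mem_univ _⟩
    have h3 := h5.mono_of_mem_nhdsWithin h2
    refine h3.congr_of_eventuallyEq ?_ ?_
    · filter_upwards [h2] with z hz
      have := hw' z.1 hz.1
      show w z.1 z.2 = U (z.1 - t₀) z.2
      rw [this]
    · show w t x = U (t - t₀) x
      rw [e0]
  · rw [e0]
    exact hU.per _ ht''
  · rw [e0]
    exact hU.divfree _ ht'' x
  · rw [e0]
    exact hU.mem _ ht''
  · have h1 := hU.eq (t - t₀) ht' m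
    have h2 : ∀ x i, deriv (fun s => w s x i) t = deriv (fun s => U s x i) (t - t₀) := by
      intro x i
      have e1 : deriv (fun s => w s x i) t = deriv (fun s => U (s - t₀) x i) t := by
        refine Filter.EventuallyEq.deriv_eq ?_
        filter_upwards [Ioo_mem_nhds ht.1 ht.2] with s hs
        rw [hw' s ⟨hs.1.le, hs.2⟩]
      rw [e1]
      exact deriv_comp_sub_const (f := fun s => U s x i) t₀ t
    simp only [h2, e0]
    exact h1

/-- **Task GB63.** -/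
theorem s_glu (h : S_uni) : S_glu := by
  intro φ c p g hb ν T t₀ τ u U hν h0 h1 h2 hu hU hU0
  have hτ : T - t₀ ≤ τ := by linarith
  have key : ∀ t ∈ Ico 0 (T - t₀), u (t₀ + t) = U t := by
    intro t ht
    have e1 := h φ c p g hb ν (T - t₀) (fun t x => u (t₀ + t) x) U hν (glu_tsh hu h0)
      (glu_mono hU hτ) (by
        show (fun x => u (t₀ + 0) x) = U 0
        rw [add_zero, hU0]) t ht
    exact e1
  set w : ℝ → V → V := fun t => if t < T then u t else U (t - t₀) with hw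
  have hw1 : ∀ s ∈ Ico 0 T, w s = u s := by
    intro s hs
    simp only [hw]
    rw [if_pos hs.2]
  have hw2 : ∀ s ∈ Ico 0 τ, w (t₀ + s) = U s := by
    intro s hs
    simp only [hw]
    split_ifs with hc
    · exact key s ⟨hs.1, by linarith⟩
    · congr 1
      ring
  refine ⟨w, glu_of fun t ht => ?_, hw1⟩
  by_cases hc : t < T
  · exact glu_at1 hu hw1 ⟨ht.1, hc⟩
  · exact glu_at2 hU hw2 ⟨by linarith [not_lt.1 hc], ht.2⟩

end Pool.Agent.H226.GB
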