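import Pool.Agent.H226.GB.Spec9
import Pool.Agent.H226.GB.Loc1

/-!
Local existence for the infinite system, with a time depending only on the bound of
`R_m^6 |a0 m|`: the contraction principle applied to Duhamel's formula.
-/

open MeasureTheory Set Filter Topology
open scoped BoundedContinuousFunction

namespace Pool.Agent.H226.GB

theorem s_loc1u : S_loc1u := by
  intro c p ν C hc K6
  choose P hP using hc.p_le
  have hP0 : ∀ n, p n ≤ P 0 := fun n => by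
    have h := hP 0 n
    rw [pow_zero, mul_one] at h
    exact h
  have h0 := Loc1_C0 hc
  have hPn : ∀ k, 0 ≤ P k := fun k =>
    le_trans (mul_nonneg (hc.p0 0) (by positivity)) (hP k 0)
  obtain ⟨L6, hL6⟩ : ∃ L6, L6 = max K6 0 := ⟨_, rfl⟩
  have hL60 : 0 ≤ L6 := by rw [hL6]; exact le_max_right _ _
  have hL61 : K6 ≤ L6 := by rw [hL6]; exact le_max_left _ _
  obtain ⟨M, hMdef⟩ : ∃ M, M = L6 + 1 := ⟨_, rfl⟩
  have hM : 0 < M := by rw [hMdef]; linarith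
  obtain ⟨B, hB⟩ : ∃ B : ℕ → ℝ, ∀ k, B k = (2 * C + P k + P 0) * M := ⟨_, fun _ => rfl⟩
  have hBn : ∀ k, 0 ≤ B k := fun k => by
    rw [hB]
    have := hPn k
    have := hPn 0
    positivity
  obtain ⟨τ, hτ, hτ1, hτ2⟩ : ∃ τ : ℝ, 0 < τ ∧ τ * (B 6 * M) ≤ 1 ∧
      τ * (4 * (C + P 0) * M) ≤ 1 / 2 := by
    have h1 : 0 ≤ B 6 * M := mul_nonneg (hBn 6) hM.le
    have h2 : 0 ≤ 4 * (C + P 0) * M := by
      have := hPn 0
      positivity
    have h3 : 0 < B 6 * M + 2 * (4 * (C + P 0) * M) + 1 := by linarith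
    refine ⟨1 / (B 6 * M + 2 * (4 * (C + P 0) * M) + 1), by positivity, ?_, ?_⟩
    · rw [one_div, inv_mul_le_iff₀ h3]
      linarith
    · rw [one_div, inv_mul_le_iff₀ h3]
      linarith
  refine ⟨τ, hτ, fun a0 ha0 h6 => ?_⟩
  choose K hK using ha0
  have hKn : ∀ k, 0 ≤ K k := fun k => le_trans (abs_nonneg _) (Loc1_le (hK k 0))
  -- the set
  let s : Set ((ℕ × ℝ) →ᵇ ℝ) := {a | (∀ m t, (RR m : ℝ) ^ 6 * |a (m, t)| ≤ M) ∧
    ∀ k m t, (RR m : ℝ) ^ k * |a (m, t)| ≤ K k * Real.exp (B k * Loc1_cl τ t)}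
  have hsc : IsClosed s := by
    have hev : ∀ (k m : ℕ) (t L : ℝ),
        IsClosed {a : (ℕ × ℝ) →ᵇ ℝ | (RR m : ℝ) ^ k * |a (m, t)| ≤ L} := fun k m t L =>
      isClosed_le (continuous_const.mul
        (continuous_eval_const (F := (ℕ × ℝ) →ᵇ ℝ) (m, t)).abs) continuous_const
    have e : s = (⋂ m : ℕ, ⋂ t : ℝ, {a : (ℕ × ℝ) →ᵇ ℝ | (RR m : ℝ) ^ 6 * |a (m, t)| ≤ M}) ∩
        ⋂ k : ℕ, ⋂ m : ℕ, ⋂ t : ℝ, {a : (ℕ × ℝ) →ᵇ ℝ | (RR m : ℝ) ^ k * |a (m, t)|
          ≤ K k * Real.exp (B k * Loc1_cl τ t)} := by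
      ext a
      simp only [s, mem_ofPred_eq, mem_inter_iff, mem_iInter]
    rw [e]
    exact (isClosed_iInter fun m => isClosed_iInter fun t => hev _ _ _ _).inter
      (isClosed_iInter fun k => isClosed_iInter fun m => isClosed_iInter fun t => hev _ _ _ _)
  have hexp : ∀ k t, K k ≤ K k * Real.exp (B k * Loc1_cl τ t) := fun k t => by
    have h1 : 1 ≤ Real.exp (B k * Loc1_cl τ t) :=
      Real.one_le_exp (mul_nonneg (hBn k) (Loc1_cl0 τ t))
    calc K k = K k * 1 := by ring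
      _ ≤ _ := mul_le_mul_of_nonneg_left h1 (hKn k)
  -- continuity of the families
  have hac : ∀ (a : (ℕ × ℝ) →ᵇ ℝ) (m : ℕ), Continuous fun t => a (m, t) := fun a m =>
    a.continuous.comp (continuous_const.prodMk continuous_id)
  have hNc : ∀ a ∈ s, ∀ m, Continuous fun r => Loc1_N c p (fun n => a (n, r)) m :=
    fun a ha m => Loc1_cont (a := fun n t => a (n, t)) hc (hac a) ha.1 m
  -- bounds of the map
  have hmap : ∀ a ∈ s, ∀ m t,
      (RR m : ℝ) ^ 6 * |Loc1_D (ν m) (a0 m) (fun r => Loc1_N c p (fun n => a (n, r)) m)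
        (Loc1_cl τ t)| ≤ M ∧
      ∀ k : ℕ, (RR m : ℝ) ^ k * |Loc1_D (ν m) (a0 m)
        (fun r => Loc1_N c p (fun n => a (n, r)) m) (Loc1_cl τ t)|
          ≤ K k * Real.exp (B k * Loc1_cl τ t) := by
    intro a ha m t
    have ht := Loc1_cl0 τ t
    have ht' := Loc1_clτ hτ.le t
    refine ⟨?_, fun k => ?_⟩
    · have h1 := Loc1_Dbd (x0 := a0 m) (hc.ν0 m) (hNc a ha m) ht
      have h2 := Loc1_small (R := (RR m : ℝ) ^ 6) (L := B 6 * M) (hNc a ha m) ht (fun r _ => by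
        rw [hB]
        exact Loc1_bd hc (hP 6) hP0 (fun n => ha.1 n r) (fun n => ha.1 n r) m)
      calc _ ≤ (RR m : ℝ) ^ 6 * (|a0 m|
            + ∫ r in (0 : ℝ)..Loc1_cl τ t, |Loc1_N c p (fun n => a (n, r)) m|) :=
            mul_le_mul_of_nonneg_left h1 (by positivity)
        _ = (RR m : ℝ) ^ 6 * |a0 m| + (RR m : ℝ) ^ 6 *
            ∫ r in (0 : ℝ)..Loc1_cl τ t, |Loc1_N c p (fun n => a (n, r)) m| := by ring
        _ ≤ L6 + Loc1_cl τ t * (B 6 * M) := add_le_add ((h6 m).trans hL61) h2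
        _ ≤ L6 + τ * (B 6 * M) := by
            have := mul_le_mul_of_nonneg_right ht' (mul_nonneg (hBn 6) hM.le)
            linarith
        _ ≤ M := by rw [hMdef]; rw [hMdef] at hτ1; linarith
    · refine Loc1_grow (hc.ν0 m) (by positivity) (hNc a ha m) ht (hK k m) fun r hr => ?_
      have hr' : Loc1_cl τ r = r := Loc1_cl_eq ⟨hr.1, hr.2.trans ht'⟩
      have h3 := Loc1_bd (E := K k * Real.exp (B k * r)) hc (hP k) hP0 (fun n => ha.1 n r)
        (fun n => by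
          have h4 := ha.2 k n r
          rw [hr'] at h4
          exact h4) m
      rw [hB k] at h3 ⊢
      exact h3
  -- the map
  have hex : ∀ a : s, ∃ b : s, ∀ m t, (b : (ℕ × ℝ) →ᵇ ℝ) (m, t)
      = Loc1_D (ν m) (a0 m) (fun r => Loc1_N c p (fun n => (a : (ℕ × ℝ) →ᵇ ℝ) (n, r)) m)
        (Loc1_cl τ t) := by
    rintro ⟨a, ha⟩
    have hcont : Continuous fun z : ℕ × ℝ => Loc1_D (ν z.1) (a0 z.1)
        (fun r => Loc1_N c p (fun n => a (n, r)) z.1) (Loc1_cl τ z.2) := by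
      rw [continuous_prod_of_discrete_left]
      intro m
      show Continuous fun x => Loc1_D (ν m) (a0 m)
        (fun r => Loc1_N c p (fun n => a (n, r)) m) (Loc1_cl τ x)
      exact (Loc1_Dcont (hNc a ha m)).comp (Loc1_cl_cont τ)
    refine ⟨⟨BoundedContinuousFunction.ofNormedAddCommGroup _ hcont M fun z => ?_, ?_, ?_⟩,
      fun m t => rfl⟩
    · exact Loc1_le (hmap a ha z.1 z.2).1
    · exact fun m t => (hmap a ha m t).1
    · exact fun k m t => (hmap a ha m t).2 k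
  choose Φ hΦ using hex
  have hcw : ContractingWith (1 / 2) Φ := by
    refine ⟨by norm_num, LipschitzWith.of_dist_le_mul fun a b => ?_⟩
    rw [Subtype.dist_eq, Subtype.dist_eq]
    refine (BoundedContinuousFunction.dist_le (by positivity)).2 ?_
    rintro ⟨m, t⟩
    have ht := Loc1_cl0 τ t
    have ht' := Loc1_clτ hτ.le t
    rw [hΦ, hΦ, Real.dist_eq]
    refine (Loc1_Dsub (hc.ν0 m) (hNc a a.2 m) (hNc b b.2 m) ht).trans ?_
    have h2 := Loc1_small (R := 1) (L := 4 * (C + P 0) * M * dist (a : (ℕ × ℝ) →ᵇ ℝ) b)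
      ((hNc a a.2 m).sub (hNc b b.2 m)) ht (fun r _ => by
        rw [one_mul]
        refine Loc1_lip hc hP0 (fun n => a.2.1 n r) (fun n => b.2.1 n r) (fun n => ?_) m
        rw [← Real.dist_eq]
        exact BoundedContinuousFunction.dist_coe_le_dist _)
    rw [one_mul] at h2
    refine h2.trans ?_
    have hd : 0 ≤ dist (a : (ℕ × ℝ) →ᵇ ℝ) b := dist_nonneg
    have hL : 0 ≤ 4 * (C + P 0) * M := by
      have := hPn 0
      positivity
    calc Loc1_cl τ t * (4 * (C + P 0) * M * dist (a : (ℕ × ℝ) →ᵇ ℝ) b)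
        ≤ τ * (4 * (C + P 0) * M * dist (a : (ℕ × ℝ) →ᵇ ℝ) b) :=
          mul_le_mul_of_nonneg_right ht' (mul_nonneg hL hd)
      _ = (τ * (4 * (C + P 0) * M)) * dist (a : (ℕ × ℝ) →ᵇ ℝ) b := by ring
      _ ≤ (1 / 2) * dist (a : (ℕ × ℝ) →ᵇ ℝ) b := mul_le_mul_of_nonneg_right hτ2 hd
      _ = _ := by norm_num
  -- the fixed point
  have : CompleteSpace s := hsc.completeSpace_coe
  have : Nonempty s := by
    have hcont : Continuous fun z : ℕ × ℝ => a0 z.1 := by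
      rw [continuous_prod_of_discrete_left]
      intro m
      show Continuous fun _ : ℝ => a0 m
      exact continuous_const
    refine ⟨⟨BoundedContinuousFunction.ofNormedAddCommGroup _ hcont (K 0) fun z => ?_, ?_, ?_⟩⟩
    · exact Loc1_le (hK 0 z.1)
    · intro m t
      exact (h6 m).trans (by rw [hMdef]; linarith)
    · intro k m t
      exact (hK k m).trans (hexp k t)
  obtain ⟨a, ha⟩ : ∃ a : s, Φ a = a :=
    ⟨ContractingWith.fixedPoint Φ hcw, hcw.fixedPoint_isFixedPt⟩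
  have hfix : ∀ m t, (a : (ℕ × ℝ) →ᵇ ℝ) (m, t)
      = Loc1_D (ν m) (a0 m) (fun r => Loc1_N c p (fun n => (a : (ℕ × ℝ) →ᵇ ℝ) (n, r)) m)
        (Loc1_cl τ t) := fun m t => by
    rw [← hΦ a m t, ha]
  refine ⟨fun m t => (a : (ℕ × ℝ) →ᵇ ℝ) (m, t), fun k => ?_, hac a, fun m => ?_,
    fun t ht m => ?_⟩
  · refine ⟨K k * Real.exp (B k * τ), fun m t => (a.2.2 k m t).trans ?_⟩
    exact mul_le_mul_of_nonneg_left (Real.exp_le_exp.2
      (mul_le_mul_of_nonneg_left (Loc1_clτ hτ.le t) (hBn k))) (hKn k)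
  · show (a : (ℕ × ℝ) →ᵇ ℝ) (m, 0) = a0 m
    rw [hfix, Loc1_cl_eq ⟨le_rfl, hτ.le⟩, Loc1_D0]
  · have h1 := Loc1_Dder (ν := ν m) (x0 := a0 m) (hNc a a.2 m) t
    have h2 : (fun t => (a : (ℕ × ℝ) →ᵇ ℝ) (m, t)) =ᶠ[𝓝 t]
        Loc1_D (ν m) (a0 m) (fun r => Loc1_N c p (fun n => (a : (ℕ × ℝ) →ᵇ ℝ) (n, r)) m) := by
      filter_upwards [Ioo_mem_nhds ht.1 ht.2] with r hr
      rw [hfix, Loc1_cl_eq ⟨hr.1.le, hr.2.le⟩]
    rw [Loc1_FF]
    refine (h1.congr_of_eventuallyEq h2).congr_deriv ?_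
    have h3 := h2.eq_of_nhds
    show Loc1_N c p (fun n => (a : (ℕ × ℝ) →ᵇ ℝ) (n, t)) m - ν m * _
      = Loc1_N c p (fun n => (a : (ℕ × ℝ) →ᵇ ℝ) (n, t)) m - ν m * (a : (ℕ × ℝ) →ᵇ ℝ) (m, t)
    rw [← h3]

end Pool.Agent.H226.GB
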