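import Pool.Agent.H226.GB.Spec9

/-!
Bounds of the strain.
-/

open Filter Topology

namespace Pool.Agent.H226.GB

theorem str_RR (m : ℕ) : (RR m : ℝ) = 2 ^ ((m + 2) ^ 3) := by
  unfold RR
  push_cast
  rfl

theorem str_RR_pos (m : ℕ) : (0 : ℝ) < RR m := by
  rw [str_RR]
  positivity

theorem str_step (m : ℕ) : 2 ^ (m + 2) * (RR m : ℝ) ^ 4 ≤ (RR (m + 1) : ℝ) ^ 4 := by
  rw [str_RR, str_RR, ← pow_mul, ← pow_mul, ← pow_add]
  refine pow_le_pow_right₀ (by norm_num) ?_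
  nlinarith [Nat.zero_le m, Nat.zero_le (m ^ 2)]

theorem str_sum (m : ℕ) : 2 ^ m * ∑ n ∈ Finset.range m, (RR n : ℝ) ^ 4 ≤ (RR m : ℝ) ^ 4 := by
  induction m with
  | zero =>
    rw [Finset.sum_range_zero, mul_zero]
    positivity
  | succ m ih =>
    rw [Finset.sum_range_succ]
    have h1 := str_step m
    have h2 : (1 : ℝ) ≤ 2 ^ m := one_le_pow₀ (by norm_num)
    have h3 : (0 : ℝ) ≤ (RR m : ℝ) ^ 4 := by positivity
    have h4 : (2 : ℝ) ^ (m + 1) = 2 * 2 ^ m := by ring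
    have h5 : (2 : ℝ) ^ (m + 2) = 4 * 2 ^ m := by ring
    rw [h5] at h1
    rw [h4]
    nlinarith

theorem str_part1 (ν K : ℝ) (hν : 0 < ν) (hK : 0 ≤ K) : ∃ Λ : ℝ, 0 ≤ Λ ∧ ∀ a : ℕ → ℝ,
    (∀ m, (RR m : ℝ) * |a m| ≤ K) →
    ∀ m, ∑ n ∈ Finset.range m, Gm n * |a n| ≤ ν * (RR m : ℝ) ^ 4 + Λ := by
  obtain ⟨m1, hm1⟩ := pow_unbounded_of_one_lt (2 ^ 10 * K / ν) (one_lt_two (α := ℝ))
  rw [div_lt_iff₀ hν] at hm1
  refine ⟨2 ^ 10 * K * ∑ n ∈ Finset.range m1, (RR n : ℝ) ^ 4, ?_, ?_⟩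
  · exact mul_nonneg (by positivity) (Finset.sum_nonneg fun n _ => by positivity)
  intro a ha m
  have h1 : ∑ n ∈ Finset.range m, Gm n * |a n| ≤
      2 ^ 10 * K * ∑ n ∈ Finset.range m, (RR n : ℝ) ^ 4 := by
    rw [Finset.mul_sum]
    apply Finset.sum_le_sum
    intro n _
    unfold Gm
    have h2 := ha n
    have h3 : (0 : ℝ) ≤ 2 ^ 10 * (RR n : ℝ) ^ 4 := by positivity
    calc 2 ^ 10 * (RR n : ℝ) ^ 5 * |a n| = 2 ^ 10 * (RR n : ℝ) ^ 4 * ((RR n : ℝ) * |a n|) := by ring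
      _ ≤ 2 ^ 10 * (RR n : ℝ) ^ 4 * K := mul_le_mul_of_nonneg_left h2 h3
      _ = _ := by ring
  refine h1.trans ?_
  have hR : (0 : ℝ) ≤ (RR m : ℝ) ^ 4 := by positivity
  rcases le_total m1 m with hm | hm
  · have h2 := str_sum m
    have h3 : (2 : ℝ) ^ m1 ≤ 2 ^ m := pow_le_pow_right₀ (by norm_num) hm
    have h4 : 0 ≤ ∑ n ∈ Finset.range m, (RR n : ℝ) ^ 4 := Finset.sum_nonneg fun n _ => by positivity
    have h5 : 0 ≤ 2 ^ 10 * K * ∑ n ∈ Finset.range m1, (RR n : ℝ) ^ 4 :=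
      mul_nonneg (by positivity) (Finset.sum_nonneg fun n _ => by positivity)
    have h6 : 2 ^ 10 * K * ∑ n ∈ Finset.range m, (RR n : ℝ) ^ 4 ≤ ν * (RR m : ℝ) ^ 4 := by
      calc 2 ^ 10 * K * ∑ n ∈ Finset.range m, (RR n : ℝ) ^ 4
          ≤ (2 ^ m * ν) * ∑ n ∈ Finset.range m, (RR n : ℝ) ^ 4 := by
            refine mul_le_mul_of_nonneg_right ?_ h4
            exact hm1.le.trans (mul_le_mul_of_nonneg_right h3 hν.le)
        _ = ν * (2 ^ m * ∑ n ∈ Finset.range m, (RR n : ℝ) ^ 4) := by ring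
        _ ≤ _ := mul_le_mul_of_nonneg_left h2 hν.le
    linarith
  · have h2 : ∑ n ∈ Finset.range m, (RR n : ℝ) ^ 4 ≤ ∑ n ∈ Finset.range m1, (RR n : ℝ) ^ 4 :=
      Finset.sum_le_sum_of_subset_of_nonneg (Finset.range_mono hm) fun n _ _ => by positivity
    have h3 : 2 ^ 10 * K * ∑ n ∈ Finset.range m, (RR n : ℝ) ^ 4 ≤
        2 ^ 10 * K * ∑ n ∈ Finset.range m1, (RR n : ℝ) ^ 4 :=
      mul_le_mul_of_nonneg_left h2 (by positivity)
    have h4 : 0 ≤ ν * (RR m : ℝ) ^ 4 := mul_nonneg hν.le hR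
    linarith

theorem str_part2 (r K : ℝ) (hr : 5 / 2 < r) (hK : 0 ≤ K) : ∃ Λ : ℝ, 0 ≤ Λ ∧ ∀ a : ℕ → ℝ,
    (∀ m, (RR m : ℝ) ^ (2 * r) * |a m| ≤ K) →
    ∀ m, ∑ n ∈ Finset.range m, Gm n * |a n| ≤ Λ := by
  set x : ℝ := (2 : ℝ) ^ (5 - 2 * r) with hx
  have hx0 : 0 ≤ x := Real.rpow_nonneg (by norm_num) _
  have hx1 : x < 1 := Real.rpow_lt_one_of_one_lt_of_neg (by norm_num) (by linarith)
  refine ⟨2 ^ 10 * K * ∑' n : ℕ, x ^ n, ?_, ?_⟩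
  · exact mul_nonneg (by positivity) (tsum_nonneg fun n => pow_nonneg hx0 n)
  intro a ha m
  have h1 : ∀ n : ℕ, Gm n * |a n| ≤ 2 ^ 10 * K * x ^ n := by
    intro n
    have hR := str_RR_pos n
    have hRn : (2 : ℝ) ^ n ≤ RR n := by
      rw [str_RR]
      refine pow_le_pow_right₀ (by norm_num) ?_
      nlinarith [Nat.zero_le n, Nat.zero_le (n ^ 2), Nat.zero_le (n ^ 3)]
    have h2 : (RR n : ℝ) ^ 5 = (RR n : ℝ) ^ (5 - 2 * r) * (RR n : ℝ) ^ (2 * r) := by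
      rw [← Real.rpow_add hR, sub_add_cancel]
      exact_mod_cast (Real.rpow_natCast (RR n : ℝ) 5).symm
    have h3 : (RR n : ℝ) ^ (5 - 2 * r) ≤ x ^ n := by
      have h4 : x ^ n = ((2 : ℝ) ^ n) ^ (5 - 2 * r) := by
        rw [hx, ← Real.rpow_natCast, ← Real.rpow_natCast, ← Real.rpow_mul (by norm_num),
          ← Real.rpow_mul (by norm_num), mul_comm]
      rw [h4]
      exact Real.rpow_le_rpow_of_nonpos (by positivity) hRn (by linarith)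
    unfold Gm
    calc 2 ^ 10 * (RR n : ℝ) ^ 5 * |a n| =
        2 ^ 10 * (RR n : ℝ) ^ (5 - 2 * r) * ((RR n : ℝ) ^ (2 * r) * |a n|) := by
          rw [h2]
          ring
      _ ≤ 2 ^ 10 * (RR n : ℝ) ^ (5 - 2 * r) * K :=
          mul_le_mul_of_nonneg_left (ha n) (mul_nonneg (by norm_num) (Real.rpow_nonneg hR.le _))
      _ ≤ 2 ^ 10 * x ^ n * K :=
          mul_le_mul_of_nonneg_right (mul_le_mul_of_nonneg_left h3 (by norm_num)) hK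
      _ = _ := by ring
  calc ∑ n ∈ Finset.range m, Gm n * |a n| ≤ ∑ n ∈ Finset.range m, 2 ^ 10 * K * x ^ n :=
        Finset.sum_le_sum fun n _ => h1 n
    _ = 2 ^ 10 * K * ∑ n ∈ Finset.range m, x ^ n := by rw [Finset.mul_sum]
    _ ≤ _ := by
        refine mul_le_mul_of_nonneg_left ?_ (by positivity)
        exact (summable_geometric_of_lt_one hx0 hx1).sum_le_tsum _ fun n _ => pow_nonneg hx0 n

theorem s_str : S_str := ⟨fun ν K hν hK => str_part1 ν K hν hK, fun r K hr hK =>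
  str_part2 r K hr hK⟩

end Pool.Agent.H226.GB
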