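import Pool.Agent.H226.GB.Fin6
import Pool.Agent.H226.GB.Spc
import Pool.Agent.H226.GB.Loc1u
import Pool.Agent.H226.GB.Str
import Pool.Agent.H226.GB.Apr
import Pool.Agent.H226.GB.Glu
import Pool.Agent.H226.GB.Cri
import Pool.Agent.H226.GB.Bup

/-!
Assembly: continuation criterion and frequencies of the constraints.
-/

open MeasureTheory Set Filter Topology
open scoped ContDiff ENNReal
open H459R3.NS

namespace Pool.Agent.H226.GB

theorem f_cri : S_cri := s_cri s_loc1u s_apr (s_glu s_uni) f_prS f_hsb s_hfin s_red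

theorem f_bup : S_bup := s_bup f_cri s_str f_scl f_scl2 f_hsb s_int f_gg f_bas

theorem f_spec : S_spec := s_spec s_prod s_one s_trig f_nm f_bas

end Pool.Agent.H226.GB
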