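import Pool.Agent.H226.GB.Spec2

/-!
Time regularity of the solutions of the infinite system (helper181 for helper226).
-/

open MeasureTheory Set Filter Topology
open scoped ContDiff
open H459R3.NS

namespace Pool.Agent.H226.GB

theorem Loc2_one_le (m : ℕ) : (1 : ℝ) ≤ RR m := by
  unfold RR
  push_cast
  exact one_le_pow₀ (by norm_num)

theorem Loc2_pos (m : ℕ) : (0 : ℝ) < RR m := lt_of_lt_of_le one_pos (Loc2_one_le m)

theorem Loc2_mono : Monotone (fun m : ℕ => (RR m : ℝ)) := by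
  intro m n h
  simp only [RR]
  push_cast
  refine pow_le_pow_right₀ (by norm_num) ?_
  gcongr

theorem Loc2_two_pow (m : ℕ) : (2 : ℝ) ^ m ≤ RR m := by
  unfold RR
  push_cast
  refine pow_le_pow_right₀ (by norm_num) ?_
  calc m ≤ m + 2 := by omega
    _ ≤ (m + 2) ^ 3 := Nat.le_self_pow (by norm_num) _

theorem Loc2_summable : Summable (fun k : ℕ => ((RR k : ℝ))⁻¹) := by
  refine Summable.of_nonneg_of_le (fun k => (inv_pos.2 (Loc2_pos k)).le) (fun k => ?_)
    (summable_geometric_of_lt_one (r := (1 / 2 : ℝ)) (by norm_num) (by norm_num))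
  rw [one_div, inv_pow]
  exact inv_anti₀ (by positivity) (Loc2_two_pow k)

/-- the terms of the bilinear series -/
noncomputable def Loc2_tm (β₁ β₂ : ℕ → ℕ → ℝ) (a b : ℕ → ℝ → ℝ) (m k : ℕ) (t : ℝ) : ℝ :=
  β₁ m k * (a k t * b m t) + β₂ m k * (a k t * b k t)

/-- the bilinear series -/
noncomputable def Loc2_B (β₁ β₂ : ℕ → ℕ → ℝ) (a b : ℕ → ℝ → ℝ) (m : ℕ) (t : ℝ) : ℝ :=
  ∑' k, Loc2_tm β₁ β₂ a b m k t

/-- bounds of the coefficients -/
def Loc2_Bd (β₁ β₂ : ℕ → ℕ → ℝ) : Prop :=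
  (∀ s : ℕ, ∃ (D : ℝ) (q : ℕ), ∀ m k, (RR m : ℝ) ^ s * |β₁ m k| ≤
    D * ((RR k : ℝ) ^ q * (RR m : ℝ) ^ q)) ∧
  ∀ s : ℕ, ∃ (D : ℝ) (q : ℕ), ∀ m k, (RR m : ℝ) ^ s * |β₂ m k| ≤ D * (RR k : ℝ) ^ q

section

variable {β₁ β₂ : ℕ → ℕ → ℝ} (hβ : Loc2_Bd β₁ β₂)
include hβ

theorem Loc2_bound {a b : ℕ → ℝ → ℝ} (ha : Rap a) (hb : Rap b) (s : ℕ) :
    ∃ D : ℝ, 0 ≤ D ∧ ∀ m k t, (RR m : ℝ) ^ s * |Loc2_tm β₁ β₂ a b m k t| ≤ D * ((RR k : ℝ))⁻¹ := by
  obtain ⟨D1, q1, h1⟩ := hβ.1 s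
  obtain ⟨D2, q2, h2⟩ := hβ.2 s
  obtain ⟨A1, hA1⟩ := ha (q1 + 1)
  obtain ⟨A2, hA2⟩ := ha (q2 + 1)
  obtain ⟨B1, hB1⟩ := hb q1
  obtain ⟨B2, hB2⟩ := hb 0
  refine ⟨|D1| * |A1| * |B1| + |D2| * |A2| * |B2|, by positivity, fun m k t => ?_⟩
  have hk := Loc2_pos k
  have hm := Loc2_pos m
  have e1 : (RR m : ℝ) ^ s * |β₁ m k * (a k t * b m t)| ≤
      |D1| * |A1| * |B1| * ((RR k : ℝ))⁻¹ := by
    calc (RR m : ℝ) ^ s * |β₁ m k * (a k t * b m t)|
        = ((RR m : ℝ) ^ s * |β₁ m k|) * (|a k t| * |b m t|) := by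
          rw [abs_mul, abs_mul]
          ring
      _ ≤ (|D1| * ((RR k : ℝ) ^ q1 * (RR m : ℝ) ^ q1)) * (|a k t| * |b m t|) := by
          refine mul_le_mul_of_nonneg_right ((h1 m k).trans ?_) (by positivity)
          exact mul_le_mul_of_nonneg_right (le_abs_self _) (by positivity)
      _ = |D1| * ((RR k : ℝ) ^ (q1 + 1) * |a k t|) * ((RR m : ℝ) ^ q1 * |b m t|) *
          ((RR k : ℝ))⁻¹ := by
          field_simp
          ring
      _ ≤ |D1| * |A1| * |B1| * ((RR k : ℝ))⁻¹ := by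
          gcongr
          · exact (hA1 k t).trans (le_abs_self _)
          · exact (hB1 m t).trans (le_abs_self _)
  have e2 : (RR m : ℝ) ^ s * |β₂ m k * (a k t * b k t)| ≤
      |D2| * |A2| * |B2| * ((RR k : ℝ))⁻¹ := by
    calc (RR m : ℝ) ^ s * |β₂ m k * (a k t * b k t)|
        = ((RR m : ℝ) ^ s * |β₂ m k|) * (|a k t| * |b k t|) := by
          rw [abs_mul, abs_mul]
          ring
      _ ≤ (|D2| * (RR k : ℝ) ^ q2) * (|a k t| * |b k t|) := by
          refine mul_le_mul_of_nonneg_right ((h2 m k).trans ?_) (by positivity)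
          exact mul_le_mul_of_nonneg_right (le_abs_self _) (by positivity)
      _ = |D2| * ((RR k : ℝ) ^ (q2 + 1) * |a k t|) * ((RR k : ℝ) ^ 0 * |b k t|) *
          ((RR k : ℝ))⁻¹ := by
          field_simp
          ring
      _ ≤ |D2| * |A2| * |B2| * ((RR k : ℝ))⁻¹ := by
          gcongr
          · exact (hA2 k t).trans (le_abs_self _)
          · exact (hB2 k t).trans (le_abs_self _)
  calc (RR m : ℝ) ^ s * |Loc2_tm β₁ β₂ a b m k t|
      ≤ (RR m : ℝ) ^ s * (|β₁ m k * (a k t * b m t)| + |β₂ m k * (a k t * b k t)|) := by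
        gcongr
        exact abs_add_le _ _
    _ ≤ |D1| * |A1| * |B1| * ((RR k : ℝ))⁻¹ + |D2| * |A2| * |B2| * ((RR k : ℝ))⁻¹ := by
        rw [mul_add]
        exact add_le_add e1 e2
    _ = _ := by ring

theorem Loc2_bound0 {a b : ℕ → ℝ → ℝ} (ha : Rap a) (hb : Rap b) :
    ∃ D : ℝ, 0 ≤ D ∧ ∀ m k t, ‖Loc2_tm β₁ β₂ a b m k t‖ ≤ D * ((RR k : ℝ))⁻¹ := by
  obtain ⟨D, hD, h⟩ := Loc2_bound hβ ha hb 0
  refine ⟨D, hD, fun m k t => ?_⟩
  have := h m k t
  rwa [pow_zero, one_mul] at this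

theorem Loc2_sum {a b : ℕ → ℝ → ℝ} (ha : Rap a) (hb : Rap b) (m : ℕ) (t : ℝ) :
    Summable (fun k => Loc2_tm β₁ β₂ a b m k t) := by
  obtain ⟨D, -, h⟩ := Loc2_bound0 hβ ha hb
  exact Summable.of_norm_bounded (Loc2_summable.mul_left D) fun k => h m k t

theorem Loc2_rap {a b : ℕ → ℝ → ℝ} (ha : Rap a) (hb : Rap b) : Rap (Loc2_B β₁ β₂ a b) := by
  intro s
  obtain ⟨D, hD, h⟩ := Loc2_bound hβ ha hb s
  refine ⟨∑' k, D * ((RR k : ℝ))⁻¹, fun m t => ?_⟩
  have hm := Loc2_pos m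
  have hs : Summable (fun k => (RR m : ℝ) ^ s * Loc2_tm β₁ β₂ a b m k t) :=
    (Loc2_sum hβ ha hb m t).mul_left _
  have e : (RR m : ℝ) ^ s * |Loc2_B β₁ β₂ a b m t| =
      ‖∑' k, (RR m : ℝ) ^ s * Loc2_tm β₁ β₂ a b m k t‖ := by
    rw [tsum_mul_left, norm_mul, Real.norm_of_nonneg (by positivity), Real.norm_eq_abs]
    rfl
  rw [e]
  refine tsum_of_norm_bounded (Loc2_summable.mul_left D).hasSum fun k => ?_
  rw [norm_mul, Real.norm_of_nonneg (by positivity), Real.norm_eq_abs]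
  exact h m k t

theorem Loc2_cont {a b : ℕ → ℝ → ℝ} (ha : Rap a) (hb : Rap b) (ca : ∀ m, Continuous (a m))
    (cb : ∀ m, Continuous (b m)) (m : ℕ) : Continuous (Loc2_B β₁ β₂ a b m) := by
  obtain ⟨D, -, h⟩ := Loc2_bound0 hβ ha hb
  refine continuous_tsum (fun k => ?_) (Loc2_summable.mul_left D) fun k t => h m k t
  unfold Loc2_tm
  exact (continuous_const.mul ((ca k).mul (cb m))).add (continuous_const.mul ((ca k).mul (cb k)))

theorem Loc2_der {τ : ℝ} {a b a' b' : ℕ → ℝ → ℝ} (ha : Rap a) (hb : Rap b) (ha' : Rap a')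
    (hb' : Rap b') (da : ∀ t ∈ Ioo 0 τ, ∀ m, HasDerivAt (a m) (a' m t) t)
    (db : ∀ t ∈ Ioo 0 τ, ∀ m, HasDerivAt (b m) (b' m t) t) :
    ∀ t ∈ Ioo 0 τ, ∀ m, HasDerivAt (Loc2_B β₁ β₂ a b m)
      (Loc2_B β₁ β₂ a' b m t + Loc2_B β₁ β₂ a b' m t) t := by
  intro t ht m
  obtain ⟨D, -, h⟩ := Loc2_bound0 hβ ha' hb
  obtain ⟨D', -, h'⟩ := Loc2_bound0 hβ ha hb'
  have e : Loc2_B β₁ β₂ a' b m t + Loc2_B β₁ β₂ a b' m t =
      ∑' k, (Loc2_tm β₁ β₂ a' b m k t + Loc2_tm β₁ β₂ a b' m k t) :=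
    ((Loc2_sum hβ ha' hb m t).tsum_add (Loc2_sum hβ ha hb' m t)).symm
  rw [e]
  refine hasDerivAt_tsum_of_isPreconnected
    ((Loc2_summable.mul_left D).add (Loc2_summable.mul_left D')) isOpen_Ioo isPreconnected_Ioo
    (g := fun k t => Loc2_tm β₁ β₂ a b m k t)
    (g' := fun k t => Loc2_tm β₁ β₂ a' b m k t + Loc2_tm β₁ β₂ a b' m k t)
    (fun k y hy => ?_) (fun k y _ => ?_) ht (Loc2_sum hβ ha hb m t) ht
  · have h1 := ((da y hy k).mul (db y hy m)).const_mul (β₁ m k)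
    have h2 := ((da y hy k).mul (db y hy k)).const_mul (β₂ m k)
    refine (h1.add h2).congr_deriv ?_
    unfold Loc2_tm
    ring
  · exact (norm_add_le _ _).trans (add_le_add (h m k y) (h' m k y))

end

/-! ### families which are `n` times differentiable -/

theorem Loc2_AT_zero {τ : ℝ} {n : ℕ} {a : ℕ → ℝ → ℝ} (h : AT τ n a) :
    Rap a ∧ ∀ m, Continuous (a m) := by
  cases n with
  | zero => exact h
  | succ n => exact h.1

theorem Loc2_AT_pred {τ : ℝ} (n : ℕ) : ∀ {a : ℕ → ℝ → ℝ}, AT τ (n + 1) a → AT τ n a := by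
  induction n with
  | zero =>
    intro a h
    exact h.1
  | succ n ih =>
    intro a h
    obtain ⟨h1, a', h2, h3⟩ := h
    exact ⟨h1, a', h2, ih h3⟩

theorem Loc2_Rap_add {a b : ℕ → ℝ → ℝ} (ha : Rap a) (hb : Rap b) :
    Rap (fun m t => a m t + b m t) := by
  intro s
  obtain ⟨K, hK⟩ := ha s
  obtain ⟨L, hL⟩ := hb s
  refine ⟨K + L, fun m t => ?_⟩
  have hm := Loc2_pos m
  calc (RR m : ℝ) ^ s * |a m t + b m t| ≤ (RR m : ℝ) ^ s * (|a m t| + |b m t|) := by
        gcongr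
        exact abs_add_le _ _
    _ = (RR m : ℝ) ^ s * |a m t| + (RR m : ℝ) ^ s * |b m t| := mul_add _ _ _
    _ ≤ K + L := add_le_add (hK m t) (hL m t)

theorem Loc2_AT_add {τ : ℝ} (n : ℕ) : ∀ {a b : ℕ → ℝ → ℝ}, AT τ n a → AT τ n b →
    AT τ n (fun m t => a m t + b m t) := by
  induction n with
  | zero =>
    intro a b ha hb
    exact ⟨Loc2_Rap_add ha.1 hb.1, fun m => (ha.2 m).add (hb.2 m)⟩
  | succ n ih =>
    intro a b ha hb
    obtain ⟨ha1, a', ha2, ha3⟩ := ha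
    obtain ⟨hb1, b', hb2, hb3⟩ := hb
    refine ⟨⟨Loc2_Rap_add ha1.1 hb1.1, fun m => (ha1.2 m).add (hb1.2 m)⟩,
      fun m t => a' m t + b' m t, fun t ht m => ?_, ih ha3 hb3⟩
    exact (ha2 t ht m).add (hb2 t ht m)

theorem Loc2_AT_lin {τ C : ℝ} {ν : ℕ → ℝ} (h0 : ∀ n, 0 ≤ ν n)
    (hν : ∀ n, ν n ≤ C * (RR n : ℝ) ^ 4) (n : ℕ) :
    ∀ {a : ℕ → ℝ → ℝ}, AT τ n a → AT τ n (fun m t => -(ν m) * a m t) := by
  have hrap : ∀ {a : ℕ → ℝ → ℝ}, Rap a → Rap (fun m t => -(ν m) * a m t) := by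
    intro a ha s
    obtain ⟨K, hK⟩ := ha (s + 4)
    refine ⟨|C| * K, fun m t => ?_⟩
    have hm := Loc2_pos m
    calc (RR m : ℝ) ^ s * |-(ν m) * a m t| = ν m * ((RR m : ℝ) ^ s * |a m t|) := by
          rw [abs_mul, abs_neg, abs_of_nonneg (h0 m)]
          ring
      _ ≤ (|C| * (RR m : ℝ) ^ 4) * ((RR m : ℝ) ^ s * |a m t|) := by
          refine mul_le_mul_of_nonneg_right ((hν m).trans ?_) (by positivity)
          exact mul_le_mul_of_nonneg_right (le_abs_self _) (by positivity)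
      _ = |C| * ((RR m : ℝ) ^ (s + 4) * |a m t|) := by ring
      _ ≤ |C| * K := by
          gcongr
          exact hK m t
  induction n with
  | zero =>
    intro a ha
    exact ⟨hrap ha.1, fun m => continuous_const.mul (ha.2 m)⟩
  | succ n ih =>
    intro a ha
    obtain ⟨ha1, a', ha2, ha3⟩ := ha
    exact ⟨⟨hrap ha1.1, fun m => continuous_const.mul (ha1.2 m)⟩, fun m t => -(ν m) * a' m t,
      fun t ht m => (ha2 t ht m).const_mul _, ih ha3⟩

theorem Loc2_AT_B {β₁ β₂ : ℕ → ℕ → ℝ} (hβ : Loc2_Bd β₁ β₂) {τ : ℝ} (n : ℕ) :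
    ∀ {a b : ℕ → ℝ → ℝ}, AT τ n a → AT τ n b → AT τ n (Loc2_B β₁ β₂ a b) := by
  induction n with
  | zero =>
    intro a b ha hb
    exact ⟨Loc2_rap hβ ha.1 hb.1, Loc2_cont hβ ha.1 hb.1 ha.2 hb.2⟩
  | succ n ih =>
    intro a b ha hb
    have ha0 := Loc2_AT_pred n ha
    have hb0 := Loc2_AT_pred n hb
    obtain ⟨ha1, a', ha2, ha3⟩ := ha
    obtain ⟨hb1, b', hb2, hb3⟩ := hb
    refine ⟨⟨Loc2_rap hβ ha1.1 hb1.1, Loc2_cont hβ ha1.1 hb1.1 ha1.2 hb1.2⟩,
      fun m t => Loc2_B β₁ β₂ a' b m t + Loc2_B β₁ β₂ a b' m t, ?_,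
      Loc2_AT_add n (ih ha3 hb0) (ih ha0 hb3)⟩
    exact Loc2_der hβ ha1.1 hb1.1 (Loc2_AT_zero ha3).1 (Loc2_AT_zero hb3).1 ha2 hb2

/-! ### the system -/

/-- coefficients of the products `a_k a_m` -/
noncomputable def Loc2_b1 (c : ℕ → ℕ → ℝ) (p : ℕ → ℝ) (m k : ℕ) : ℝ :=
  (if k < m then c k m else 0) + (if k = m + 1 then -p m else 0)

/-- coefficients of the squares -/
noncomputable def Loc2_b2 (c : ℕ → ℕ → ℝ) (p : ℕ → ℝ) (m k : ℕ) : ℝ :=
  (if m < k then -c m k else 0) + (if k + 1 = m then p k else 0)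

theorem Loc2_bd {c : ℕ → ℕ → ℝ} {p ν : ℕ → ℝ} {C : ℝ} (h : Coef c p ν C) :
    Loc2_Bd (Loc2_b1 c p) (Loc2_b2 c p) := by
  constructor
  · intro s
    obtain ⟨K, hK⟩ := h.p_le s
    refine ⟨|C| + |K|, s + 5, fun m k => ?_⟩
    have hk := Loc2_one_le k
    have hm := Loc2_one_le m
    have hk0 := Loc2_pos k
    have hm0 := Loc2_pos m
    have e1 : (RR m : ℝ) ^ s * |if k < m then c k m else 0| ≤
        |C| * ((RR k : ℝ) ^ (s + 5) * (RR m : ℝ) ^ (s + 5)) := by
      split_ifs with hkm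
      · calc (RR m : ℝ) ^ s * |c k m| ≤ (RR m : ℝ) ^ s * (|C| * (RR k : ℝ) ^ 5) := by
              gcongr
              refine (h.c_le k m hkm).trans ?_
              gcongr
              exact le_abs_self _
          _ = |C| * ((RR k : ℝ) ^ 5 * (RR m : ℝ) ^ s) := by ring
          _ ≤ |C| * ((RR k : ℝ) ^ (s + 5) * (RR m : ℝ) ^ (s + 5)) := by
              gcongr
              · omega
              · omega
      · rw [abs_zero, mul_zero]
        positivity
    have e2 : (RR m : ℝ) ^ s * |if k = m + 1 then -p m else 0| ≤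
        |K| * ((RR k : ℝ) ^ (s + 5) * (RR m : ℝ) ^ (s + 5)) := by
      have h1 : (1 : ℝ) ≤ (RR k : ℝ) ^ (s + 5) * (RR m : ℝ) ^ (s + 5) :=
        one_le_mul_of_one_le_of_one_le (one_le_pow₀ hk) (one_le_pow₀ hm)
      split_ifs with hkm
      · calc (RR m : ℝ) ^ s * |-p m| = p m * (RR m : ℝ) ^ s := by
              rw [abs_neg, abs_of_nonneg (h.p0 m)]
              ring
          _ ≤ p m * (RR (m + 1) : ℝ) ^ s := by
              have h3 : (RR m : ℝ) ≤ RR (m + 1) := Loc2_mono (Nat.le_succ m)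
              exact mul_le_mul_of_nonneg_left (pow_le_pow_left₀ hm0.le h3 s) (h.p0 m)
          _ ≤ |K| * 1 := by
              rw [mul_one]
              exact (hK m).trans (le_abs_self _)
          _ ≤ _ := by gcongr
      · rw [abs_zero, mul_zero]
        positivity
    calc (RR m : ℝ) ^ s * |Loc2_b1 c p m k| ≤ (RR m : ℝ) ^ s *
          (|if k < m then c k m else 0| + |if k = m + 1 then -p m else 0|) := by
          gcongr
          exact abs_add_le _ _
      _ ≤ |C| * ((RR k : ℝ) ^ (s + 5) * (RR m : ℝ) ^ (s + 5)) +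
          |K| * ((RR k : ℝ) ^ (s + 5) * (RR m : ℝ) ^ (s + 5)) := by
          rw [mul_add]
          exact add_le_add e1 e2
      _ = _ := by ring
  · intro s
    obtain ⟨K, hK⟩ := h.p_le s
    refine ⟨|C| + |K|, s + 5, fun m k => ?_⟩
    have hk := Loc2_one_le k
    have hm := Loc2_one_le m
    have hk0 := Loc2_pos k
    have hm0 := Loc2_pos m
    have e1 : (RR m : ℝ) ^ s * |if m < k then -c m k else 0| ≤ |C| * (RR k : ℝ) ^ (s + 5) := by
      split_ifs with hkm
      · have h2 : (RR m : ℝ) ≤ RR k := Loc2_mono hkm.le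
        calc (RR m : ℝ) ^ s * |-c m k| ≤ (RR m : ℝ) ^ s * (|C| * (RR m : ℝ) ^ 5) := by
              rw [abs_neg]
              gcongr
              refine (h.c_le m k hkm).trans ?_
              gcongr
              exact le_abs_self _
          _ = |C| * (RR m : ℝ) ^ (s + 5) := by ring
          _ ≤ |C| * (RR k : ℝ) ^ (s + 5) := by gcongr
      · rw [abs_zero, mul_zero]
        positivity
    have e2 : (RR m : ℝ) ^ s * |if k + 1 = m then p k else 0| ≤ |K| * (RR k : ℝ) ^ (s + 5) := by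
      split_ifs with hkm
      · calc (RR m : ℝ) ^ s * |p k| = p k * (RR (k + 1) : ℝ) ^ s := by
              rw [abs_of_nonneg (h.p0 k), hkm]
              ring
          _ ≤ |K| * 1 := by
              rw [mul_one]
              exact (hK k).trans (le_abs_self _)
          _ ≤ _ := by
              gcongr
              exact one_le_pow₀ hk
      · rw [abs_zero, mul_zero]
        positivity
    calc (RR m : ℝ) ^ s * |Loc2_b2 c p m k| ≤ (RR m : ℝ) ^ s *
          (|if m < k then -c m k else 0| + |if k + 1 = m then p k else 0|) := by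
          gcongr
          exact abs_add_le _ _
      _ ≤ |C| * (RR k : ℝ) ^ (s + 5) + |K| * (RR k : ℝ) ^ (s + 5) := by
          rw [mul_add]
          exact add_le_add e1 e2
      _ = _ := by ring

theorem Loc2_FF {c : ℕ → ℕ → ℝ} {p ν : ℕ → ℝ} {C : ℝ} (h : Coef c p ν C) {a : ℕ → ℝ → ℝ}
    (ha : Rap a) (m : ℕ) (t : ℝ) :
    Loc2_B (Loc2_b1 c p) (Loc2_b2 c p) a a m t + -(ν m) * a m t = FF c p ν a m t := by
  -- the sum over `l > m`
  have hs3 : Summable (fun k => if m < k then c m k * a k t ^ 2 else 0) := by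
    have h1 : Loc2_Bd (fun _ _ => 0) (fun m k => if m < k then c m k else 0) := by
      constructor
      · intro s
        refine ⟨0, 0, fun m k => ?_⟩
        simp
      · intro s
        refine ⟨|C|, s + 5, fun m k => ?_⟩
        have hm0 := Loc2_pos m
        have hk0 := Loc2_pos k
        beta_reduce
        split_ifs with hkm
        · have h2 : (RR m : ℝ) ≤ RR k := Loc2_mono hkm.le
          calc (RR m : ℝ) ^ s * |c m k| ≤ (RR m : ℝ) ^ s * (|C| * (RR m : ℝ) ^ 5) := by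
                gcongr
                refine (h.c_le m k hkm).trans ?_
                gcongr
                exact le_abs_self _
            _ = |C| * (RR m : ℝ) ^ (s + 5) := by ring
            _ ≤ |C| * (RR k : ℝ) ^ (s + 5) := by gcongr
        · rw [abs_zero, mul_zero]
          positivity
    have h2 := Loc2_sum h1 ha ha m t
    refine h2.congr fun k => ?_
    show 0 * (a k t * a m t) + (if m < k then c m k else 0) * (a k t * a k t) =
      (if m < k then c m k * a k t ^ 2 else 0)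
    split_ifs
    · ring
    · ring
  have f1 : HasSum (fun k => if k < m then c k m * a k t * a m t else 0)
      (∑ n ∈ Finset.range m, c n m * a n t * a m t) := by
    have h1 : HasSum (fun k => if k < m then c k m * a k t * a m t else 0)
        (∑ k ∈ Finset.range m, (if k < m then c k m * a k t * a m t else 0)) :=
      hasSum_sum_of_ne_finset_zero fun k hk => by
        rw [Finset.mem_range] at hk
        rw [if_neg hk]
    have h2 : ∑ k ∈ Finset.range m, (if k < m then c k m * a k t * a m t else 0) =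
        ∑ n ∈ Finset.range m, c n m * a n t * a m t :=
      Finset.sum_congr rfl fun k hk => by rw [if_pos (Finset.mem_range.1 hk)]
    rwa [h2] at h1
  have f2 : HasSum (fun k => if k = m + 1 then -p m * (a (m + 1) t * a m t) else 0)
      (-p m * (a (m + 1) t * a m t)) := hasSum_ite_eq _ _
  have f4 : HasSum (fun k => if k + 1 = m then p k * a k t ^ 2 else 0) (pm p a m t) := by
    unfold pm
    rcases m with _ | m
    · rw [if_pos rfl]
      have : (fun k => if k + 1 = 0 then p k * a k t ^ 2 else 0) = fun _ : ℕ => (0 : ℝ) := by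
        ext k
        rw [if_neg (Nat.succ_ne_zero k)]
      rw [this]
      exact hasSum_zero
    · rw [if_neg (Nat.succ_ne_zero m), Nat.add_sub_cancel]
      have : (fun k => if k + 1 = m + 1 then p k * a k t ^ 2 else 0) =
          fun k : ℕ => if k = m then p m * a m t ^ 2 else 0 := by
        ext k
        by_cases hk : k = m
        · rw [if_pos hk, if_pos (by rw [hk]), hk]
        · rw [if_neg hk, if_neg (fun e => hk (Nat.succ_injective e))]
      rw [this]
      exact hasSum_ite_eq _ _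
  have hsum := ((f1.add f2).sub hs3.hasSum).add f4
  have e : Loc2_B (Loc2_b1 c p) (Loc2_b2 c p) a a m t =
      ∑' k, ((if k < m then c k m * a k t * a m t else 0) +
        (if k = m + 1 then -p m * (a (m + 1) t * a m t) else 0) -
        (if m < k then c m k * a k t ^ 2 else 0) + (if k + 1 = m then p k * a k t ^ 2 else 0)) := by
    unfold Loc2_B
    refine tsum_congr fun k => ?_
    unfold Loc2_tm Loc2_b1 Loc2_b2
    by_cases h2 : k = m + 1
    · subst h2
      rw [if_pos rfl, if_pos rfl]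
      split_ifs <;> ring
    · rw [if_neg h2, if_neg h2]
      split_ifs <;> ring
  rw [e, hsum.tsum_eq]
  unfold FF
  rw [← Finset.sum_mul]
  ring

/-- **GB10 Loc2**: regularity in time of the solutions of the infinite system -/
theorem s_loc2 : S_loc2 := by
  intro c p ν C h τ a ha hc hd n
  induction n with
  | zero => exact ⟨ha, hc⟩
  | succ n ih =>
    refine ⟨⟨ha, hc⟩, fun m t => Loc2_B (Loc2_b1 c p) (Loc2_b2 c p) a a m t + -(ν m) * a m t,
      fun t ht m => ?_, Loc2_AT_add n (Loc2_AT_B (Loc2_bd h) n ih ih) (Loc2_AT_lin h.ν0 h.ν_le n ih)⟩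
    have e := Loc2_FF h ha m t
    show HasDerivAt (a m) (Loc2_B (Loc2_b1 c p) (Loc2_b2 c p) a a m t + -(ν m) * a m t) t
    rw [e]
    exact hd t ht m

end Pool.Agent.H226.GB
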