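import Pool.Agent.H226.GB.Spec

/-!
Bounds of the pump coefficients.
-/

open MeasureTheory Set Filter Topology
open scoped ContDiff
open H459R3.NS

namespace Pool.Agent.H226.GB

/-- all components smooth and periodic -/
def Pump_S (u : V → V) : Prop := ∀ i, SP (fun x => u x i)

theorem Pump_const (c : ℝ) : SP (fun _ : V => c) where
  smooth := contDiff_const
  per := fun _ _ => rfl

theorem Pump_smul {f : V → ℝ} (hf : SP f) (c : ℝ) : SP (fun x => c * f x) :=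
  (Pump_const c).mul hf

theorem Pump_pd_add {f g : V → ℝ} (hf : SP f) (hg : SP g) (j : Fin 3) (x : V) :
    pd j (fun y => f y + g y) x = pd j f x + pd j g x := by
  unfold pd
  have h : HasFDerivAt (fun y => f y + g y) _ x := (hf.diff x).hasFDerivAt.add (hg.diff x).hasFDerivAt
  rw [h.fderiv]
  rfl

theorem Pump_pd_smul {f : V → ℝ} (hf : SP f) (c : ℝ) (j : Fin 3) (x : V) :
    pd j (fun y => c * f y) x = c * pd j f x := by
  unfold pd
  have h : HasFDerivAt (fun y => c * f y) _ x := (hf.diff x).hasFDerivAt.const_mul c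
  rw [h.fderiv]
  rfl

theorem Pump_pd_lin {f g : V → ℝ} (hf : SP f) (hg : SP g) (c : ℝ) (j : Fin 3) (x : V) :
    pd j (fun y => f y + c * g y) x = pd j f x + c * pd j g x := by
  rw [Pump_pd_add hf (Pump_smul hg c), Pump_pd_smul hg]

theorem Pump_gp_S {Θ : V → ℝ} (h : SP Θ) : Pump_S (gp Θ) := by
  intro i
  fin_cases i
  · exact h.pd 2
  · exact Pump_const 0
  · have := Pump_smul (h.pd 0) (-1)
    have e : (fun x => gp Θ x ((fun i => i) ⟨2, by omega⟩)) = fun x => -1 * pd 0 Θ x := by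
      funext x
      simp [gp]
    rw [e]
    exact this

theorem Pump_gp_lin {f g : V → ℝ} (hf : SP f) (hg : SP g) (c : ℝ) :
    gp (fun y => f y + c * g y) = fun x => gp f x + c • gp g x := by
  funext x
  ext i
  fin_cases i
  · simp [gp, Pump_pd_lin hf hg]
  · simp [gp]
  · simp [gp, Pump_pd_lin hf hg]
    ring

theorem Pump_tri_smul1 (c : ℝ) (u v w : V → V) :
    tri (fun x => c • u x) v w = c * tri u v w := by
  unfold tri
  simp only [Finset.mul_sum]
  refine Finset.sum_congr rfl fun i _ => Finset.sum_congr rfl fun j _ => ?_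
  rw [← integral_const_mul]
  refine integral_congr_ae (Filter.Eventually.of_forall fun x => ?_)
  simp only [Pi.smul_apply, smul_eq_mul]
  ring

theorem Pump_tri_smul2 (c : ℝ) (u v w : V → V) :
    tri u (fun x => c • v x) w = c * tri u v w := by
  unfold tri
  simp only [Finset.mul_sum]
  refine Finset.sum_congr rfl fun i _ => Finset.sum_congr rfl fun j _ => ?_
  rw [← integral_const_mul]
  refine integral_congr_ae (Filter.Eventually.of_forall fun x => ?_)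
  simp only [Pi.smul_apply, smul_eq_mul]
  ring

theorem Pump_tri_smul3 (c : ℝ) (u v : V → V) {w : V → V} (hw : Pump_S w) :
    tri u v (fun x => c • w x) = c * tri u v w := by
  unfold tri
  simp only [Finset.mul_sum]
  refine Finset.sum_congr rfl fun i _ => Finset.sum_congr rfl fun j _ => ?_
  rw [← integral_const_mul]
  refine integral_congr_ae (Filter.Eventually.of_forall fun x => ?_)
  simp only [Pi.smul_apply, smul_eq_mul]
  rw [Pump_pd_smul (hw j)]
  ring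

theorem Pump_tri_add1 {u u' v w : V → V} (hu : Pump_S u) (hu' : Pump_S u') (hv : Pump_S v)
    (hw : Pump_S w) :
    tri (fun x => u x + u' x) v w = tri u v w + tri u' v w := by
  unfold tri
  simp only [← Finset.sum_add_distrib]
  refine Finset.sum_congr rfl fun i _ => Finset.sum_congr rfl fun j _ => ?_
  have h1 : IntegrableOn (fun x => u x i * v x j * pd i (fun y => w y j) x) cube :=
    (((hu i).mul (hv j)).mul ((hw j).pd i)).int
  have h2 : IntegrableOn (fun x => u' x i * v x j * pd i (fun y => w y j) x) cube :=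
    (((hu' i).mul (hv j)).mul ((hw j).pd i)).int
  rw [← integral_add h1 h2]
  refine integral_congr_ae (Filter.Eventually.of_forall fun x => ?_)
  simp only [Pi.add_apply]
  ring

theorem Pump_tri_add2 {u v v' w : V → V} (hu : Pump_S u) (hv : Pump_S v) (hv' : Pump_S v')
    (hw : Pump_S w) :
    tri u (fun x => v x + v' x) w = tri u v w + tri u v' w := by
  unfold tri
  simp only [← Finset.sum_add_distrib]
  refine Finset.sum_congr rfl fun i _ => Finset.sum_congr rfl fun j _ => ?_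
  have h1 : IntegrableOn (fun x => u x i * v x j * pd i (fun y => w y j) x) cube :=
    (((hu i).mul (hv j)).mul ((hw j).pd i)).int
  have h2 : IntegrableOn (fun x => u x i * v' x j * pd i (fun y => w y j) x) cube :=
    (((hu i).mul (hv' j)).mul ((hw j).pd i)).int
  rw [← integral_add h1 h2]
  refine integral_congr_ae (Filter.Eventually.of_forall fun x => ?_)
  simp only [Pi.add_apply]
  ring

theorem Pump_tri_add3 {u v w w' : V → V} (hu : Pump_S u) (hv : Pump_S v) (hw : Pump_S w)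
    (hw' : Pump_S w') :
    tri u v (fun x => w x + w' x) = tri u v w + tri u v w' := by
  unfold tri
  simp only [← Finset.sum_add_distrib]
  refine Finset.sum_congr rfl fun i _ => Finset.sum_congr rfl fun j _ => ?_
  have h1 : IntegrableOn (fun x => u x i * v x j * pd i (fun y => w y j) x) cube :=
    (((hu i).mul (hv j)).mul ((hw j).pd i)).int
  have h2 : IntegrableOn (fun x => u x i * v x j * pd i (fun y => w' y j) x) cube :=
    (((hu i).mul (hv j)).mul ((hw' j).pd i)).int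
  rw [← integral_add h1 h2]
  refine integral_congr_ae (Filter.Eventually.of_forall fun x => ?_)
  simp only [Pi.add_apply]
  rw [Pump_pd_add (hw j) (hw' j)]
  ring

theorem Pump_S_smul {u : V → V} (hu : Pump_S u) (c : ℝ) : Pump_S (fun x => c • u x) := by
  intro i
  have := Pump_smul (hu i) c
  exact this

theorem Pump_S_add {u v : V → V} (hu : Pump_S u) (hv : Pump_S v) :
    Pump_S (fun x => u x + v x) := by
  intro i
  have := (hu i).add (hv i)
  exact this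

/-- trilinear expansion -/
theorem Pump_expand {u u' v v' w w' : V → V} (hu : Pump_S u) (hu' : Pump_S u') (hv : Pump_S v)
    (hv' : Pump_S v') (hw : Pump_S w) (hw' : Pump_S w') (a b c : ℝ) :
    tri (fun x => u x + a • u' x) (fun x => v x + b • v' x) (fun x => w x + c • w' x)
      = tri u v w + a * tri u' v w + b * tri u v' w + a * b * tri u' v' w
        + c * (tri u v w' + a * tri u' v w' + b * tri u v' w' + a * b * tri u' v' w') := by
  have hau := Pump_S_smul hu' a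
  have hbv := Pump_S_smul hv' b
  have hcw := Pump_S_smul hw' c
  have e1 := Pump_tri_add3 (Pump_S_add hu hau) (Pump_S_add hv hbv) hw hcw
  have e2 : ∀ {z : V → V}, Pump_S z →
      tri (fun x => u x + a • u' x) (fun x => v x + b • v' x) z
      = tri u v z + a * tri u' v z + b * tri u v' z + a * b * tri u' v' z := by
    intro z hz
    rw [Pump_tri_add2 (Pump_S_add hu hau) hv hbv hz, Pump_tri_add1 hu hau hv hz,
      Pump_tri_add1 hu hau hbv hz, Pump_tri_smul1, Pump_tri_smul1, Pump_tri_smul2,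
      Pump_tri_smul2]
    ring
  rw [e1, e2 hw, e2 hcw, Pump_tri_smul3 _ _ _ hw', Pump_tri_smul3 _ _ _ hw',
    Pump_tri_smul3 _ _ _ hw', Pump_tri_smul3 _ _ _ hw']
  ring

theorem Pump_NN_pos (m : ℕ) : 2 ≤ NN m := by
  unfold NN RR
  rw [← pow_mul]
  calc 2 = 2 ^ 1 := by norm_num
    _ ≤ 2 ^ ((m + 2) ^ 3 * 2) := Nat.pow_le_pow_right (by norm_num)
        (Nat.succ_le_of_lt (by positivity))

theorem Pump_RR_le (m : ℕ) : 2 * RR m ≤ RR (m + 1) := by
  unfold RR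
  rw [← pow_succ']
  refine Nat.pow_le_pow_right (by norm_num) ?_
  ring_nf
  nlinarith

theorem Pump_NN_le (m : ℕ) : 4 * NN m ≤ NN (m + 1) := by
  unfold NN
  have := Nat.pow_le_pow_left (Pump_RR_le m) 2
  calc 4 * RR m ^ 2 = (2 * RR m) ^ 2 := by ring
    _ ≤ _ := this

theorem Pump_NN_le' {m : ℕ} (h : 1 ≤ m) : 4 * NN (m - 1) ≤ NN m := by
  have := Pump_NN_le (m - 1)
  rwa [Nat.sub_add_cancel h] at this

/-- vanishing without resonances in the last variable -/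
theorem Pump_zero (P : S_prod) (G : S_trig) {F₁ G₁ H₁ F₂ G₂ H₂ F₃ G₃ H₃ : ℝ → ℝ} (f1 : P1 F₁)
    (g1 : P1 G₁) (f2 : P1 F₂) (g2 : P1 G₂) (f3 : P1 F₃) (g3 : P1 G₃) {A B C : Set ℕ}
    (h1 : Trig A H₁) (h2 : Trig B H₂) (h3 : Trig C H₃)
    (hn : ∀ a ∈ A, ∀ b ∈ B, ∀ c ∈ C, a ≠ b + c ∧ b ≠ a + c ∧ c ≠ a + b) :
    tri (gp (prd F₁ G₁ H₁)) (gp (prd F₂ G₂ H₂)) (gp (prd F₃ G₃ H₃)) = 0 := by
  rw [P.tri_gp f1 g1 (G.p1 h1) f2 g2 (G.p1 h2) f3 g3 (G.p1 h3)]
  rw [G.int3 (G.der h1) (G.der h2) (G.der h3) hn, G.int3 h1 (G.der h2) (G.der (G.der h3)) hn,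
    G.int3 (G.der h1) h2 h3 hn, G.int3 h1 h2 (G.der h3) hn]
  ring

theorem Pump_i1_const (c : ℝ) (f : ℝ → ℝ) : i1 (fun s => c * f s) = c * i1 f := by
  unfold i1
  exact intervalIntegral.integral_const_mul c f

theorem Pump_dsn (k : ℕ) : deriv (sn k) = fun s => 2 * Real.pi * k * cs k s := by
  funext s
  have h : HasDerivAt (fun s : ℝ => Real.sin (2 * Real.pi * k * s))
      (Real.cos (2 * Real.pi * k * s) * (2 * Real.pi * k * 1)) s :=
    ((hasDerivAt_id s).const_mul (2 * Real.pi * (k : ℝ))).sin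
  have e : deriv (sn k) s = _ := h.deriv
  rw [e]
  unfold cs
  ring

theorem Pump_dcs (k : ℕ) : deriv (cs k) = fun s => -(2 * Real.pi * k) * sn k s := by
  funext s
  have h : HasDerivAt (fun s : ℝ => Real.cos (2 * Real.pi * k * s))
      (-Real.sin (2 * Real.pi * k * s) * (2 * Real.pi * k * 1)) s :=
    ((hasDerivAt_id s).const_mul (2 * Real.pi * (k : ℝ))).cos
  have e : deriv (cs k) s = _ := h.deriv
  rw [e]
  unfold sn
  ring

theorem Pump_ddsn (k : ℕ) : deriv (deriv (sn k)) = fun s => -(2 * Real.pi * k) ^ 2 * sn k s := by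
  rw [Pump_dsn]
  funext s
  have h : HasDerivAt (cs k) (-(2 * Real.pi * k) * sn k s) s := by
    have h : HasDerivAt (fun s : ℝ => Real.cos (2 * Real.pi * k * s))
        (-Real.sin (2 * Real.pi * k * s) * (2 * Real.pi * k * 1)) s :=
      ((hasDerivAt_id s).const_mul (2 * Real.pi * (k : ℝ))).cos
    have e : -Real.sin (2 * Real.pi * k * s) * (2 * Real.pi * k * 1)
        = -(2 * Real.pi * k) * sn k s := by unfold sn; ring
    rw [e] at h
    exact h
  have h2 : HasDerivAt (fun s => 2 * Real.pi * k * cs k s)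
      (2 * Real.pi * k * (-(2 * Real.pi * k) * sn k s)) s := h.const_mul _
  rw [h2.deriv]
  ring

/-- the main term of the pump -/
theorem Pump_main (P : S_prod) (O : S_one) (N : ℕ) (hN : 2 ≤ N) :
    tri (gp (prd (fF N) (fG N) (fH N))) (gp (prd (fF N) (fG N) (fH N)))
      (gp (prd (sn (4 * N - 3)) (cs (4 * N - 2)) (sn (2 * (17 * N - 1)))))
      = -((2 * Real.pi) ^ 2 * (4 * N - 3) / (64 * (17 * N - 1))) := by
  have pf := O.p1_F N
  have pg := O.p1_G N
  have ph := O.p1_H N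
  rw [P.tri_gp pf pg ph pf pg ph (O.p1_sn _) (O.p1_cs _) (O.p1_sn _)]
  obtain ⟨k1, hk1⟩ : ∃ k, k = 4 * N - 3 := ⟨_, rfl⟩
  obtain ⟨k2, hk2⟩ : ∃ k, k = 4 * N - 2 := ⟨_, rfl⟩
  obtain ⟨k3, hk3⟩ : ∃ k, k = 2 * (17 * N - 1) := ⟨_, rfl⟩
  have a1 := O.pF N hN
  have a2 := O.pdF N hN
  have a3 := O.pG N hN
  have a4 := O.pdH N hN
  have a5 := O.pH N hN
  rw [← hk1, ← hk2, ← hk3]
  rw [← hk1] at a1 a2
  rw [← hk2] at a3
  rw [← hk3] at a4 a5
  have b1 := O.by_parts pf k1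
  have b2 := O.by_parts ph k3
  have r1 : (k1 : ℝ) = 4 * N - 3 := by
    rw [hk1, Nat.cast_sub (by omega)]; push_cast; ring
  have r3 : (k3 : ℝ) = 2 * (17 * N - 1) := by
    rw [hk3]; push_cast [Nat.cast_sub (show 1 ≤ 17 * N by omega)]; ring
  have c0 : i1 (fun s => fG N s * fG N s * cs k2 s) = 1 / 4 := by
    rw [← a3]; congr 1; funext s; ring
  have c1 : i1 (fun s => fF N s * fF N s * deriv (sn k1) s) = 2 * Real.pi * k1 * (-(1 / 2)) := by
    rw [← a1, ← Pump_i1_const]; congr 1; funext s; rw [Pump_dsn]; ring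
  have c2 : i1 (fun s => deriv (fH N) s * deriv (fH N) s * deriv (sn k3) s)
      = 2 * Real.pi * k3 * (1 / 4) := by
    rw [← a4, ← Pump_i1_const]; congr 1; funext s; rw [Pump_dsn]; ring
  have c3 : i1 (fun s => deriv (fF N) s * fF N s * sn k1 s)
      = -(Real.pi * k1) * (-(1 / 2)) := by
    rw [← a1, ← b1]; congr 1; funext s; ring
  have c4 : i1 (fun s => fH N s * deriv (fH N) s * deriv (deriv (sn k3)) s)
      = -(2 * Real.pi * k3) ^ 2 * (-(Real.pi * k3) *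
        (-(1 / (4 * (2 * Real.pi) ^ 2 * (17 * N - 1) ^ 2)))) := by
    rw [← a5, ← b2, ← Pump_i1_const]; congr 1; funext s; rw [Pump_ddsn]; ring
  have c5 : i1 (fun s => fF N s * deriv (fF N) s * deriv (deriv (sn k1)) s)
      = -(2 * Real.pi * k1) ^ 2 * (-(Real.pi * k1) * (-(1 / 2))) := by
    rw [← a1, ← b1, ← Pump_i1_const]; congr 1; funext s; rw [Pump_ddsn]; ring
  have c6 : i1 (fun s => deriv (fH N) s * fH N s * sn k3 s)
      = -(Real.pi * k3) * (-(1 / (4 * (2 * Real.pi) ^ 2 * (17 * N - 1) ^ 2))) := by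
    rw [← a5, ← b2]; congr 1; funext s; ring
  have c7 : i1 (fun s => deriv (fF N) s * deriv (fF N) s * deriv (sn k1) s)
      = 2 * Real.pi * k1 * ((2 * Real.pi) ^ 2 * ((2 * N - 1) * (2 * N - 2)) / 2) := by
    rw [← a2, ← Pump_i1_const]; congr 1; funext s; rw [Pump_dsn]; ring
  have c8 : i1 (fun s => fH N s * fH N s * deriv (sn k3) s)
      = 2 * Real.pi * k3 * (-(1 / (4 * (2 * Real.pi) ^ 2 * (17 * N - 1) ^ 2))) := by
    rw [← a5, ← Pump_i1_const]; congr 1; funext s; rw [Pump_dsn]; ring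
  rw [c0, c1, c2, c3, c4, c5, c6, c7, c8, r1, r3]
  have hN' : (2 : ℝ) ≤ N := by exact_mod_cast hN
  have hJ : (17 * (N : ℝ) - 1) ≠ 0 := by
    have : 0 < 17 * (N : ℝ) - 1 := by linarith
    exact this.ne'
  have hp : Real.pi ≠ 0 := Real.pi_ne_zero
  field_simp
  ring

theorem Pump_psi_P (P : S_prod) (O : S_one) (m : ℕ) : SP (psi m) :=
  P.sp (O.p1_F _) (O.p1_G _) (O.p1_H _)

theorem Pump_chi_P (P : S_prod) (O : S_one) (m : ℕ) : SP (chi m) :=
  P.sp (O.p1_sn _) (O.p1_cs _) (O.p1_sn _)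

theorem Pump_gp_th0 (P : S_prod) (O : S_one) (m : ℕ) :
    gp (th0 m) = fun x => gp (psi m) x + ee' m • gp (chi m) x :=
  Pump_gp_lin (Pump_psi_P P O m) (Pump_chi_P P O m) (ee' m)

theorem Pump_tri (P : S_prod) (O : S_one) (G : S_trig) (n : ℕ) (hn : 1 ≤ n) :
    tri (gp (th0 n)) (gp (th0 n)) (gp (th0 (n + 1)))
      = -(Real.exp (-bb n) * ((2 * Real.pi) ^ 2 * (4 * NN n - 3) / (64 * (17 * NN n - 1)))) := by
  have h1 := Pump_NN_pos (n - 1)
  have h2 := Pump_NN_le' hn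
  have h3 := Pump_NN_le n
  have sp1 := Pump_gp_S (Pump_psi_P P O n)
  have sp2 := Pump_gp_S (Pump_chi_P P O n)
  have sp3 := Pump_gp_S (Pump_psi_P P O (n + 1))
  have sp4 := Pump_gp_S (Pump_chi_P P O (n + 1))
  rw [Pump_gp_th0 P O, Pump_gp_th0 P O, Pump_expand sp1 sp2 sp1 sp2 sp3 sp4]
  have tH : ∀ N, Trig {k | 16 * N ≤ k ∧ k ≤ 17 * N - 1} (fH N) := G.H
  have tS : ∀ k, Trig {k} (sn k) := fun k => G.sn rfl
  have pF := O.p1_F
  have pG := O.p1_G
  have pS := O.p1_sn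
  have pC := O.p1_cs
  have z1 : tri (gp (psi n)) (gp (psi n)) (gp (psi (n + 1))) = 0 := by
    refine Pump_zero P G (pF _) (pG _) (pF _) (pG _) (pF _) (pG _) (tH _) (tH _) (tH _) ?_
    rintro a ⟨ha, ha'⟩ b ⟨hb, hb'⟩ c ⟨hc, hc'⟩
    refine ⟨?_, ?_, ?_⟩ <;> omega
  have z2 : tri (gp (chi n)) (gp (psi n)) (gp (psi (n + 1))) = 0 := by
    refine Pump_zero P G (pS _) (pC _) (pF _) (pG _) (pF _) (pG _) (tS _) (tH _) (tH _) ?_
    rintro a rfl b ⟨hb, hb'⟩ c ⟨hc, hc'⟩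
    refine ⟨?_, ?_, ?_⟩ <;> omega
  have z3 : tri (gp (psi n)) (gp (chi n)) (gp (psi (n + 1))) = 0 := by
    refine Pump_zero P G (pF _) (pG _) (pS _) (pC _) (pF _) (pG _) (tH _) (tS _) (tH _) ?_
    rintro a ⟨ha, ha'⟩ b rfl c ⟨hc, hc'⟩
    refine ⟨?_, ?_, ?_⟩ <;> omega
  have z4 : tri (gp (chi n)) (gp (chi n)) (gp (psi (n + 1))) = 0 := by
    refine Pump_zero P G (pS _) (pC _) (pS _) (pC _) (pF _) (pG _) (tS _) (tS _) (tH _) ?_
    rintro a rfl b rfl c ⟨hc, hc'⟩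
    refine ⟨?_, ?_, ?_⟩ <;> omega
  have hs : n + 1 - 1 = n := Nat.add_sub_cancel n 1
  have z5 : tri (gp (chi n)) (gp (psi n)) (gp (chi (n + 1))) = 0 := by
    refine Pump_zero P G (pS _) (pC _) (pF _) (pG _) (pS _) (pC _) (tS _) (tH _) (tS _) ?_
    rw [hs]
    rintro a rfl b ⟨hb, hb'⟩ c rfl
    refine ⟨?_, ?_, ?_⟩ <;> omega
  have z6 : tri (gp (psi n)) (gp (chi n)) (gp (chi (n + 1))) = 0 := by
    refine Pump_zero P G (pF _) (pG _) (pS _) (pC _) (pS _) (pC _) (tH _) (tS _) (tS _) ?_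
    rw [hs]
    rintro a ⟨ha, ha'⟩ b rfl c rfl
    refine ⟨?_, ?_, ?_⟩ <;> omega
  have z7 : tri (gp (chi n)) (gp (chi n)) (gp (chi (n + 1))) = 0 := by
    refine Pump_zero P G (pS _) (pC _) (pS _) (pC _) (pS _) (pC _) (tS _) (tS _) (tS _) ?_
    rw [hs]
    rintro a rfl b rfl c rfl
    refine ⟨?_, ?_, ?_⟩ <;> omega
  have z8 : tri (gp (psi n)) (gp (psi n)) (gp (chi (n + 1)))
      = -((2 * Real.pi) ^ 2 * (4 * NN n - 3) / (64 * (17 * NN n - 1))) := by
    have := Pump_main P O (NN n) (Pump_NN_pos n)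
    unfold psi chi
    rw [hs]
    exact this
  have he : ee' (n + 1) = Real.exp (-bb n) := by
    unfold ee'
    rw [if_neg (Nat.succ_ne_zero n), hs]
  rw [z1, z2, z3, z4, z5, z6, z7, z8, he]
  ring

theorem Pump_pp (P : S_prod) (O : S_one) (G : S_trig) (n : ℕ) (hn : 1 ≤ n) :
    pp n = Real.exp (-bb n) * (((2 * Real.pi) ^ 2 * (4 * NN n - 3) / (64 * (17 * NN n - 1)))
      * ((nm n)⁻¹ ^ 2 * (nm (n + 1))⁻¹)) := by
  have e : ∀ m, phi m = fun x => (-(nm m)⁻¹) • gp (th0 m) x := fun m => rfl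
  have s3 : Pump_S (gp (th0 (n + 1))) := by
    refine Pump_gp_S ?_
    exact (Pump_psi_P P O (n + 1)).add (Pump_smul (Pump_chi_P P O (n + 1)) _)
  unfold pp
  rw [e n, e (n + 1), Pump_tri_smul3 _ _ _ s3, Pump_tri_smul1, Pump_tri_smul2,
    Pump_tri P O G n hn]
  ring

theorem s_pp (P : S_prod) (O : S_one) (G : S_trig) (h : S_nm) : S_pp := by
  intro n hn
  rw [Pump_pp P O G n hn]
  have hE := Real.exp_pos (-bb n)
  obtain ⟨⟨a1, a2⟩, a3⟩ := h n
  obtain ⟨⟨b1, b2⟩, b3⟩ := h (n + 1)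
  have hN : (2 : ℝ) ≤ NN n := by exact_mod_cast Pump_NN_pos n
  have hN1 : (2 : ℝ) ≤ NN (n + 1) := by exact_mod_cast Pump_NN_pos (n + 1)
  have hR : (2 : ℝ) * RR n ≤ RR (n + 1) := by exact_mod_cast Pump_RR_le n
  have hR0 : (0 : ℝ) < RR n := Nat.cast_pos.2 (pow_pos (by norm_num) _)
  have hR1 : (0 : ℝ) < RR (n + 1) := Nat.cast_pos.2 (pow_pos (by norm_num) _)
  have eN : (NN n : ℝ) = (RR n : ℝ) ^ 2 := by unfold NN; push_cast; ring
  have eN1 : (NN (n + 1) : ℝ) = (RR (n + 1) : ℝ) ^ 2 := by unfold NN; push_cast; ring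
  have p3 := Real.pi_gt_three
  have p4 := Real.pi_lt_four
  have hJ : 0 < 64 * (17 * (NN n : ℝ) - 1) := by linarith
  -- the constant
  obtain ⟨q, hq⟩ : ∃ q, q = (2 * Real.pi) ^ 2 * (4 * NN n - 3) / (64 * (17 * (NN n : ℝ) - 1)) :=
    ⟨_, rfl⟩
  have q1 : 1 / 16 ≤ q := by
    rw [hq, le_div_iff₀ hJ]
    nlinarith [mul_pos (sub_pos.2 p3) (show 0 < 4 * (NN n : ℝ) - 3 by linarith)]
  have q2 : q ≤ 1 := by
    rw [hq, div_le_iff₀ hJ]
    nlinarith [mul_pos (sub_pos.2 p4) (show 0 < 4 * (NN n : ℝ) - 3 by linarith)]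
  rw [← hq]
  -- norms
  have c1 : (RR (n + 1) : ℝ) ^ 9 = (RR (n + 1) : ℝ) ^ 6 * (RR (n + 1) : ℝ) ^ 3 := by ring
  have c2 : nm (n + 1) ≤ (RR (n + 1) : ℝ) ^ 3 / 2 := by
    refine abs_le_of_sq_le_sq' ?_ (div_nonneg (pow_nonneg hR1.le 3) (by norm_num)) |>.2
    calc nm (n + 1) ^ 2 ≤ (NN (n + 1) : ℝ) ^ 3 / 4 := b2
      _ = _ := by rw [eN1]; ring
  have c3 : nm n ^ 2 ≤ (RR (n + 1) : ℝ) ^ 6 / 4 := by
    refine a2.trans ?_
    rw [eN, ← pow_mul]
    have : (RR n : ℝ) ^ 6 ≤ (RR (n + 1) : ℝ) ^ 6 :=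
      pow_le_pow_left₀ hR0.le (by linarith) 6
    linarith
  have c4 : 1 ≤ nm n ^ 2 := by
    refine le_trans ?_ a1
    have : (2 : ℝ) ^ 3 ≤ (NN n : ℝ) ^ 3 := pow_le_pow_left₀ (by norm_num) hN 3
    linarith
  have c5 : 1 ≤ nm (n + 1) := by
    have h1 : 1 ≤ nm (n + 1) ^ 2 := by
      refine le_trans ?_ b1
      have : (2 : ℝ) ^ 3 ≤ (NN (n + 1) : ℝ) ^ 3 := pow_le_pow_left₀ (by norm_num) hN1 3
      linarith
    nlinarith
  have c6 : (nm n)⁻¹ ^ 2 * (nm (n + 1))⁻¹ = 1 / (nm n ^ 2 * nm (n + 1)) := by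
    rw [inv_pow, one_div, mul_inv]
  have c7 : 0 < nm n ^ 2 * nm (n + 1) := mul_pos (pow_pos a3 2) b3
  have c8 : nm n ^ 2 * nm (n + 1) ≤ (RR (n + 1) : ℝ) ^ 9 / 8 := by
    rw [c1]
    calc nm n ^ 2 * nm (n + 1) ≤ (RR (n + 1) : ℝ) ^ 6 / 4 * ((RR (n + 1) : ℝ) ^ 3 / 2) :=
        mul_le_mul c3 c2 b3.le (div_nonneg (pow_nonneg hR1.le 6) (by norm_num))
      _ = _ := by ring
  have c9 : 1 ≤ nm n ^ 2 * nm (n + 1) := one_le_mul_of_one_le_of_one_le c4 c5
  rw [c6]
  constructor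
  · rw [div_eq_mul_inv]
    refine mul_le_mul_of_nonneg_left ?_ hE.le
    rw [← one_div, mul_one_div, div_le_div_iff₀ (mul_pos two_pos (pow_pos hR1 9)) c7, one_mul]
    have hR9 : (0 : ℝ) < (RR (n + 1) : ℝ) ^ 9 := pow_pos hR1 9
    nlinarith
  · have : q * (1 / (nm n ^ 2 * nm (n + 1))) ≤ 1 := by
      rw [mul_one_div, div_le_one c7]
      linarith
    calc Real.exp (-bb n) * (q * (1 / (nm n ^ 2 * nm (n + 1)))) ≤ Real.exp (-bb n) * 1 :=
        mul_le_mul_of_nonneg_left this hE.le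
      _ = _ := mul_one _

end Pool.Agent.H226.GB
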