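import Pool.Agent.H226.GB.Spec4
import Pool.Agent.H226.GB.One
import Pool.Agent.H226.GB.Pump
import Pool.Agent.H226.GB.Prod

/-!
The explicit fields are divergence-free trigonometric polynomials .
-/

open MeasureTheory Set Filter Topology
open scoped ContDiff
open H459R3.NS

namespace Pool.Agent.H226.GB

/-- the field of one product mode -/
noncomputable def Modes_E (a b c : ℕ) (x : V) : V :=
  ![2 * Real.pi * c * (sn a (x 0) * cs b (x 1) * cs c (x 2)), 0,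
    -(2 * Real.pi * a * (cs a (x 0) * cs b (x 1) * sn c (x 2)))]

/-- one mode -/
noncomputable def Modes_M (p q r : ℤ) (x : V) : V :=
  Real.sin (2 * Real.pi * (p * x 0 + q * x 1 + r * x 2)) • (![(r : ℝ), 0, -(p : ℝ)] : V)

theorem Modes_M_mem (p q r : ℤ) (hr : r ≠ 0) : Modes_M p q r ∈ Submodule.span ℝ (md 0) := by
  apply Submodule.subset_span
  refine ⟨![p, q, r], ![(r : ℝ), 0, -(p : ℝ)], ⟨2, ?_⟩, ?_, Or.inr fun x => ?_⟩
  · simpa using hr
  · simp [Fin.sum_univ_three]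
    ring
  · simp [Fin.sum_univ_three, Modes_M]

theorem Modes_t1 (α β γ : ℝ) : Real.sin (α + β + γ) + Real.sin (α - β + γ) -
    Real.sin (-α + β + γ) - Real.sin (-α - β + γ) = 4 * (Real.sin α * Real.cos β * Real.cos γ) := by
  simp only [Real.sin_add, Real.cos_add, Real.sin_sub, Real.cos_sub, Real.sin_neg, Real.cos_neg]
  ring

theorem Modes_t2 (α β γ : ℝ) : Real.sin (α + β + γ) + Real.sin (α - β + γ) +
    Real.sin (-α + β + γ) + Real.sin (-α - β + γ) = 4 * (Real.cos α * Real.cos β * Real.sin γ) := by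
  simp only [Real.sin_add, Real.cos_add, Real.sin_sub, Real.cos_sub, Real.sin_neg, Real.cos_neg]
  ring

theorem Modes_E_eq (a b c : ℕ) : Modes_E a b c = (Real.pi / 2) •
    (Modes_M a b c + Modes_M a (-b) c - Modes_M (-a) b c - Modes_M (-a) (-b) c) := by
  funext x
  have e1 : 2 * Real.pi * (((a : ℤ) : ℝ) * x 0 + ((b : ℤ) : ℝ) * x 1 + ((c : ℤ) : ℝ) * x 2) =
      2 * Real.pi * a * x 0 + 2 * Real.pi * b * x 1 + 2 * Real.pi * c * x 2 := by
    push_cast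
    ring
  have e2 : 2 * Real.pi * (((a : ℤ) : ℝ) * x 0 + ((-(b : ℤ) : ℤ) : ℝ) * x 1 +
      ((c : ℤ) : ℝ) * x 2) =
      2 * Real.pi * a * x 0 - 2 * Real.pi * b * x 1 + 2 * Real.pi * c * x 2 := by
    push_cast
    ring
  have e3 : 2 * Real.pi * (((-(a : ℤ) : ℤ) : ℝ) * x 0 + ((b : ℤ) : ℝ) * x 1 +
      ((c : ℤ) : ℝ) * x 2) =
      -(2 * Real.pi * a * x 0) + 2 * Real.pi * b * x 1 + 2 * Real.pi * c * x 2 := by
    push_cast
    ring
  have e4 : 2 * Real.pi * (((-(a : ℤ) : ℤ) : ℝ) * x 0 + ((-(b : ℤ) : ℤ) : ℝ) * x 1 +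
      ((c : ℤ) : ℝ) * x 2) =
      -(2 * Real.pi * a * x 0) - 2 * Real.pi * b * x 1 + 2 * Real.pi * c * x 2 := by
    push_cast
    ring
  have t1 := Modes_t1 (2 * Real.pi * a * x 0) (2 * Real.pi * b * x 1) (2 * Real.pi * c * x 2)
  have t2 := Modes_t2 (2 * Real.pi * a * x 0) (2 * Real.pi * b * x 1) (2 * Real.pi * c * x 2)
  rw [← e1, ← e2, ← e3, ← e4] at t1 t2
  rw [Pi.smul_apply, Pi.sub_apply, Pi.sub_apply, Pi.add_apply]
  ext i
  fin_cases i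
  · show 2 * Real.pi * c * (sn a (x 0) * cs b (x 1) * cs c (x 2)) = Real.pi / 2 *
      (Real.sin (2 * Real.pi * (((a : ℤ) : ℝ) * x 0 + ((b : ℤ) : ℝ) * x 1 + ((c : ℤ) : ℝ) * x 2)) *
        ((c : ℤ) : ℝ) +
      Real.sin (2 * Real.pi * (((a : ℤ) : ℝ) * x 0 + ((-(b : ℤ) : ℤ) : ℝ) * x 1 +
        ((c : ℤ) : ℝ) * x 2)) * ((c : ℤ) : ℝ) -
      Real.sin (2 * Real.pi * (((-(a : ℤ) : ℤ) : ℝ) * x 0 + ((b : ℤ) : ℝ) * x 1 +
        ((c : ℤ) : ℝ) * x 2)) * ((c : ℤ) : ℝ) -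
      Real.sin (2 * Real.pi * (((-(a : ℤ) : ℤ) : ℝ) * x 0 + ((-(b : ℤ) : ℤ) : ℝ) * x 1 +
        ((c : ℤ) : ℝ) * x 2)) * ((c : ℤ) : ℝ))
    unfold sn cs
    have hc : ((c : ℤ) : ℝ) = (c : ℝ) := by push_cast; rfl
    linear_combination (-(Real.pi / 2) * (c : ℝ)) * t1
  · show (0 : ℝ) = Real.pi / 2 *
      (Real.sin (2 * Real.pi * (((a : ℤ) : ℝ) * x 0 + ((b : ℤ) : ℝ) * x 1 + ((c : ℤ) : ℝ) * x 2)) * 0 +
      Real.sin (2 * Real.pi * (((a : ℤ) : ℝ) * x 0 + ((-(b : ℤ) : ℤ) : ℝ) * x 1 +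
        ((c : ℤ) : ℝ) * x 2)) * 0 -
      Real.sin (2 * Real.pi * (((-(a : ℤ) : ℤ) : ℝ) * x 0 + ((b : ℤ) : ℝ) * x 1 +
        ((c : ℤ) : ℝ) * x 2)) * 0 -
      Real.sin (2 * Real.pi * (((-(a : ℤ) : ℤ) : ℝ) * x 0 + ((-(b : ℤ) : ℤ) : ℝ) * x 1 +
        ((c : ℤ) : ℝ) * x 2)) * 0)
    ring
  · show -(2 * Real.pi * a * (cs a (x 0) * cs b (x 1) * sn c (x 2))) = Real.pi / 2 *
      (Real.sin (2 * Real.pi * (((a : ℤ) : ℝ) * x 0 + ((b : ℤ) : ℝ) * x 1 + ((c : ℤ) : ℝ) * x 2)) *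
        -((a : ℤ) : ℝ) +
      Real.sin (2 * Real.pi * (((a : ℤ) : ℝ) * x 0 + ((-(b : ℤ) : ℤ) : ℝ) * x 1 +
        ((c : ℤ) : ℝ) * x 2)) * -((a : ℤ) : ℝ) -
      Real.sin (2 * Real.pi * (((-(a : ℤ) : ℤ) : ℝ) * x 0 + ((b : ℤ) : ℝ) * x 1 +
        ((c : ℤ) : ℝ) * x 2)) * -((-(a : ℤ) : ℤ) : ℝ) -
      Real.sin (2 * Real.pi * (((-(a : ℤ) : ℤ) : ℝ) * x 0 + ((-(b : ℤ) : ℤ) : ℝ) * x 1 +
        ((c : ℤ) : ℝ) * x 2)) * -((-(a : ℤ) : ℤ) : ℝ))
    have hna : ((-(a : ℤ) : ℤ) : ℝ) = -((a : ℤ) : ℝ) := Int.cast_neg _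
    rw [hna] at t2 ⊢
    unfold sn cs
    push_cast at t2 ⊢
    linear_combination ((Real.pi / 2) * (a : ℝ)) * t2

theorem Modes_E_mem (a b c : ℕ) (hc : 1 ≤ c) : Modes_E a b c ∈ Submodule.span ℝ (md 0) := by
  have hc0 : ((c : ℕ) : ℤ) ≠ 0 := by omega
  rw [Modes_E_eq]
  exact Submodule.smul_mem _ _ (Submodule.sub_mem _ (Submodule.sub_mem _ (Submodule.add_mem _
    (Modes_M_mem _ _ _ hc0) (Modes_M_mem _ _ _ hc0)) (Modes_M_mem _ _ _ hc0))
    (Modes_M_mem _ _ _ hc0))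

theorem Modes_NN_pos (m : ℕ) : 1 ≤ NN m := by
  unfold NN RR
  exact Nat.one_le_iff_ne_zero.2 (by positivity)

theorem Modes_psi (m : ℕ) : gp (psi m) ∈ Submodule.span ℝ (md 0) := by
  have hN := Modes_NN_pos m
  set N := NN m with hNdef
  have e : gp (psi m) = ∑ a ∈ Finset.Ico N (2 * N), ∑ b ∈ Finset.Ico N (2 * N),
      ∑ c ∈ Finset.Ico (16 * N) (17 * N), (1 / (2 * Real.pi * (c : ℝ))) • Modes_E a b c := by
    funext x
    have hs : (∑ a ∈ Finset.Ico N (2 * N), ∑ b ∈ Finset.Ico N (2 * N),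
        ∑ c ∈ Finset.Ico (16 * N) (17 * N), (1 / (2 * Real.pi * (c : ℝ))) • Modes_E a b c) x =
        ∑ a ∈ Finset.Ico N (2 * N), ∑ b ∈ Finset.Ico N (2 * N),
        ∑ c ∈ Finset.Ico (16 * N) (17 * N), (1 / (2 * Real.pi * (c : ℝ))) • Modes_E a b c x := by
      simp only [Finset.sum_apply, Pi.smul_apply]
    rw [hs]
    ext i
    simp only [Finset.sum_apply, Pi.smul_apply, smul_eq_mul]
    have hc0 : ∀ c ∈ Finset.Ico (16 * N) (17 * N), (2 * Real.pi * (c : ℝ)) ≠ 0 := by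
      intro c hc
      rw [Finset.mem_Ico] at hc
      have h1 : (c : ℝ) ≠ 0 := by
        have : c ≠ 0 := by omega
        exact_mod_cast this
      have := Real.pi_ne_zero
      positivity
    fin_cases i
    · show pd 2 (psi m) x = _
      unfold psi
      rw [s_prod.pd2 (s_one.p1_F _) (s_one.p1_G _) (s_one.p1_H _)]
      show fF N (x 0) * fG N (x 1) * deriv (fH N) (x 2) = _
      rw [s_one.dH, fF, fG, Finset.sum_mul_sum, Finset.sum_mul]
      refine Finset.sum_congr rfl fun a _ => ?_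
      rw [Finset.sum_mul]
      refine Finset.sum_congr rfl fun b _ => ?_
      rw [Finset.mul_sum]
      refine Finset.sum_congr rfl fun c hc => ?_
      have h2 := hc0 c hc
      have h3 : (c : ℝ) ≠ 0 := right_ne_zero_of_mul h2
      show _ = 1 / (2 * Real.pi * (c : ℝ)) *
        (2 * Real.pi * c * (sn a (x 0) * cs b (x 1) * cs c (x 2)))
      field_simp
    · show (0 : ℝ) = ∑ a ∈ Finset.Ico N (2 * N), ∑ b ∈ Finset.Ico N (2 * N),
        ∑ c ∈ Finset.Ico (16 * N) (17 * N), (1 / (2 * Real.pi * (c : ℝ))) * 0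
      simp
    · show -pd 0 (psi m) x = _
      unfold psi
      rw [s_prod.pd0 (s_one.p1_F _) (s_one.p1_G _) (s_one.p1_H _)]
      show -(deriv (fF N) (x 0) * fG N (x 1) * fH N (x 2)) = _
      rw [s_one.dF, fG, fH, Finset.sum_mul_sum, Finset.sum_mul, ← Finset.sum_neg_distrib]
      refine Finset.sum_congr rfl fun a _ => ?_
      rw [Finset.sum_mul, ← Finset.sum_neg_distrib]
      refine Finset.sum_congr rfl fun b _ => ?_
      rw [Finset.mul_sum, ← Finset.sum_neg_distrib]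
      refine Finset.sum_congr rfl fun c hc => ?_
      have h2 := hc0 c hc
      have h3 : (c : ℝ) ≠ 0 := right_ne_zero_of_mul h2
      show _ = 1 / (2 * Real.pi * (c : ℝ)) *
        -(2 * Real.pi * a * (cs a (x 0) * cs b (x 1) * sn c (x 2)))
      field_simp
  rw [e]
  refine Submodule.sum_mem _ fun a _ => Submodule.sum_mem _ fun b _ => Submodule.sum_mem _
    fun c hc => Submodule.smul_mem _ _ (Modes_E_mem a b c ?_)
  rw [Finset.mem_Ico] at hc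
  omega

theorem Modes_chi (m : ℕ) : gp (chi m) ∈ Submodule.span ℝ (md 0) := by
  have hN := Modes_NN_pos (m - 1)
  have e : gp (chi m) = Modes_E (4 * NN (m - 1) - 3) (4 * NN (m - 1) - 2)
      (2 * (17 * NN (m - 1) - 1)) := by
    funext x
    ext i
    fin_cases i
    · show pd 2 (chi m) x = _
      unfold chi
      rw [s_prod.pd2 (s_one.p1_sn _) (s_one.p1_cs _) (s_one.p1_sn _)]
      show sn _ (x 0) * cs _ (x 1) * deriv (sn (2 * (17 * NN (m - 1) - 1))) (x 2) = _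
      rw [(One_sn_der _ _).deriv]
      show _ = 2 * Real.pi * _ * (_ * _ * _)
      ring
    · rfl
    · show -pd 0 (chi m) x = _
      unfold chi
      rw [s_prod.pd0 (s_one.p1_sn _) (s_one.p1_cs _) (s_one.p1_sn _)]
      show -(deriv (sn (4 * NN (m - 1) - 3)) (x 0) * cs _ (x 1) * sn _ (x 2)) = _
      rw [(One_sn_der _ _).deriv]
      show _ = -(2 * Real.pi * _ * (_ * _ * _))
      ring
  rw [e]
  exact Modes_E_mem _ _ _ (by omega)

theorem s_modes : ∀ m, phi m ∈ Submodule.span ℝ (md 0) := by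
  intro m
  have hpsi : SP (psi m) := s_prod.sp (s_one.p1_F _) (s_one.p1_G _) (s_one.p1_H _)
  have hchi : SP (chi m) := s_prod.sp (s_one.p1_sn _) (s_one.p1_cs _) (s_one.p1_sn _)
  have e1 : gp (th0 m) = gp (psi m) + ee' m • gp (chi m) :=
    Pump_gp_lin hpsi hchi (ee' m)
  have e2 : phi m = (-(nm m)⁻¹) • gp (th0 m) := rfl
  rw [e2, e1]
  exact Submodule.smul_mem _ _ (Submodule.add_mem _ (Modes_psi m)
    (Submodule.smul_mem _ _ (Modes_chi m)))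

end Pool.Agent.H226.GB
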