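import Pool.Agent.H226.GB.Ode2
import Pool.Agent.H226.GB.Spec3

/-!
One stage of the cascade.
-/

open MeasureTheory Set Filter Topology

namespace Pool.Agent.H226.GB

/-- hypotheses on the coefficients -/
structure CH (c : ℕ → ℕ → ℝ) (p ν : ℕ → ℝ) (K : ℝ) : Prop where
  c_lo : ∀ n, (RR n : ℝ) ^ 5 / 2 ≤ c n (n + 1)
  p_hi : ∀ n, 1 ≤ n → p n ≤ Real.exp (-bb n)
  p_lo : ∀ n, 1 ≤ n → Real.exp (-bb n) / (2 * (RR (n + 1) : ℝ) ^ 9) ≤ p n
  ν_hi : ∀ n, ν n ≤ K * (RR n : ℝ) ^ 4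

lemma RR_pos (m : ℕ) : 0 < (RR m : ℝ) := by unfold RR; positivity

lemma one_le_RR (m : ℕ) : 1 ≤ (RR m : ℝ) := by
  unfold RR; exact_mod_cast Nat.one_le_two_pow

lemma RR_mono {m n : ℕ} (h : m ≤ n) : (RR m : ℝ) ≤ RR n := by
  unfold RR
  push_cast
  exact pow_le_pow_right₀ (by norm_num) (Nat.pow_le_pow_left (by omega) 3)

lemma Gm_pos (m : ℕ) : 0 < Gm m := by
  unfold Gm; have := RR_pos m; positivity

lemma Gm_mono {m n : ℕ} (h : m ≤ n) : Gm m ≤ Gm n := by
  unfold Gm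
  have := RR_mono h
  have := RR_pos m
  gcongr

lemma four_le_Gm (m : ℕ) : 1024 ≤ Gm m := by
  unfold Gm
  have := one_le_pow₀ (one_le_RR m) (n := 5)
  norm_num; linarith

lemma rr_pos (m : ℕ) : 0 < rr m := by
  unfold rr; have := Gm_pos (m + 1); positivity

lemma Gm_rr (m : ℕ) : 2 * Gm (m + 1) * rr m = 1 := by
  unfold rr; have := Gm_pos (m + 1); field_simp

lemma rr_le (m : ℕ) : rr m ≤ 1 / 2 := by
  unfold rr
  have := four_le_Gm (m + 1)
  exact one_div_le_one_div_of_le (by norm_num) (by linarith)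

lemma al_pos (m : ℕ) : 0 < al m := by unfold al; positivity

lemma al_le (m : ℕ) : al m ≤ 1 := by
  unfold al; exact pow_le_one₀ (by norm_num) (by norm_num)

lemma al_succ (m : ℕ) : al (m + 1) = al m / 2 ^ 29 := by
  unfold al; rw [pow_succ]; ring

lemma SG_nonneg (m : ℕ) : 0 ≤ SG m := Finset.sum_nonneg fun n _ => (Gm_pos n).le

lemma log_rr (m : ℕ) : 0 ≤ Real.log (1 / rr m) := by
  refine Real.log_nonneg ?_
  rw [le_div_iff₀ (rr_pos m)]
  have := rr_le m
  linarith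

lemma Dm_pos (m : ℕ) : 0 < Dm m := by
  unfold Dm
  have := log_rr m
  have := RR_pos m
  have := al_pos m
  positivity

/-- the right side of the `m`-th equation -/
noncomputable def rhs (c : ℕ → ℕ → ℝ) (p ν : ℕ → ℝ) (a : ℕ → ℝ → ℝ) (W : ℕ → ℝ → ℝ) (m : ℕ)
    (t : ℝ) : ℝ :=
  (∑ n ∈ Finset.range m, c n m * a n t - ν m) * a m t - W m t + pm p a m t
    - p m * a m t * a (m + 1) t

section

variable {l1 : ℕ} {c : ℕ → ℕ → ℝ} {G p ν : ℕ → ℝ} {T K : ℝ} {a : ℕ → ℝ → ℝ} {S : ℝ → ℝ} {W : ℕ → ℝ → ℝ}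

lemma II_sub_le {n : ℕ} (hc : Continuous (a n)) {C s t : ℝ} (hst : s ≤ t)
    (hC : ∀ u ∈ Icc s t, |a n u| ≤ C) : II a n t - II a n s ≤ C * (t - s) := by
  have h1 := mono_of (f := fun u => C * u - II a n u) (f' := fun u => C - |a n u|) (s := s)
    (t := t) (by
      have : Continuous (II a n) := continuous_iff_continuousAt.2 fun u => (II_der hc u).continuousAt
      fun_prop) (fun u _ =>
      (((hasDerivAt_id u).const_mul C).sub (II_der hc u)).congr_deriv (by simp)) (fun u hu => by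
      have := hC u ⟨hu.1.le, hu.2.le⟩
      linarith) le_rfl hst le_rfl
  have h2 : C * s - II a n s ≤ C * t - II a n t := h1
  linarith

lemma Sys.sum_bd (h : Sys l1 c Gm p ν T a S W) {t : ℝ} (ht : t ∈ Icc 0 T) (l k : ℕ)
    (hl : l1 ≤ l) (hlk : l ≤ k) : |∑ n ∈ Finset.range l, c n k * a n t| ≤ 2 * SG l := by
  refine le_trans ?_ (h.str_le ht hl)
  refine (Finset.abs_sum_le_sum_abs _ _).trans (Finset.sum_le_sum fun n hn => ?_)
  rw [abs_mul]
  exact mul_le_mul_of_nonneg_right (h.cG n k (lt_of_lt_of_le (Finset.mem_range.1 hn) hlk))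
    (abs_nonneg _)

/-- the equation of the level `m` during the stage -/
lemma est_x (h : Sys l1 c Gm p ν T a S W) (hc : CH c p ν K) (hK : 0 ≤ K) {m : ℕ} (hm : 2 ≤ m)
    (hlm : l1 + 1 ≤ m) {t : ℝ}
    (ht : t ∈ Icc 0 T) (hx : 0 ≤ a m t) (hy : 0 ≤ a (m + 1) t)
    (hZ : tl a S (m + 2) t ≤ rr (m + 1) * a (m + 1) t) :
    |rhs c p ν a W m t + c m (m + 1) * a (m + 1) t ^ 2|
      ≤ lam K m * (a m t + a (m + 1) t)
        + 4 * (Real.exp (-bb (m - 1)) + Real.exp (-bb m)) := by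
  have h1 := h.sum_bd ht m m (by omega) le_rfl
  have h2 := h.abs_rw_le ht (j := m) (l := m + 2) (by omega)
  have e2 : rw' c a W m (m + 2) t = W m t - c m (m + 1) * a (m + 1) t ^ 2 := by
    unfold rw'
    rw [show m + 2 = (m + 1) + 1 by ring, Finset.sum_Ico_succ_top (by omega)]
    simp
  rw [e2] at h2
  have h3 : |W m t - c m (m + 1) * a (m + 1) t ^ 2| ≤ Gm (m + 1) * rr (m + 1) * a (m + 1) t := by
    refine h2.trans ?_
    have := Gm_mono (Nat.le_succ m)
    have h4 := Gm_pos m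
    have h5 := Gm_pos (m + 1)
    have h6 := h.tl_nonneg ht (m + 2)
    calc Gm m * tl a S (m + 2) t ≤ Gm (m + 1) * (rr (m + 1) * a (m + 1) t) := by gcongr
      _ = _ := by ring
  have h4 : |pm p a m t| ≤ 4 * Real.exp (-bb (m - 1)) := by
    unfold pm
    rw [if_neg (by omega), abs_of_nonneg (mul_nonneg (h.p0 _) (sq_nonneg _))]
    have h5 := hc.p_hi (m - 1) (by omega)
    have h6 := h.sq_le ht (l := m - 1) (by omega)
    have := h.p0 (m - 1)
    calc p (m - 1) * a (m - 1) t ^ 2 ≤ Real.exp (-bb (m - 1)) * 2 := by gcongr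
      _ ≤ _ := by have := Real.exp_pos (-bb (m - 1)); linarith
  have h5 : |p m * a m t * a (m + 1) t| ≤ 2 * Real.exp (-bb m) * a m t := by
    rw [abs_mul, abs_mul, abs_of_nonneg (h.p0 m), abs_of_nonneg hx]
    have h6 := hc.p_hi m (by omega)
    have h7 := h.ab_le ht (l := m + 1) (by omega)
    have := h.p0 m
    calc p m * a m t * |a (m + 1) t| ≤ Real.exp (-bb m) * a m t * 2 := by gcongr
      _ = _ := by ring
  have hν0 := h.ν0 m
  have hν : ν m ≤ K * (RR (m + 1) : ℝ) ^ 4 := by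
    refine (hc.ν_hi m).trans ?_
    have := RR_mono (Nat.le_succ m)
    have := RR_pos m
    gcongr
  have h6 : |(∑ n ∈ Finset.range m, c n m * a n t - ν m) * a m t|
      ≤ (2 * SG m + K * (RR (m + 1) : ℝ) ^ 4) * a m t := by
    rw [abs_mul, abs_of_nonneg hx]
    refine mul_le_mul_of_nonneg_right ((abs_sub _ _).trans ?_) hx
    rw [abs_of_nonneg hν0]
    linarith
  have e : rhs c p ν a W m t + c m (m + 1) * a (m + 1) t ^ 2
      = (∑ n ∈ Finset.range m, c n m * a n t - ν m) * a m t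
        - (W m t - c m (m + 1) * a (m + 1) t ^ 2) + pm p a m t - p m * a m t * a (m + 1) t := by
    unfold rhs; ring
  rw [e]
  have h7 := abs_sub ((∑ n ∈ Finset.range m, c n m * a n t - ν m) * a m t
        - (W m t - c m (m + 1) * a (m + 1) t ^ 2) + pm p a m t) (p m * a m t * a (m + 1) t)
  have h8 := abs_add_le ((∑ n ∈ Finset.range m, c n m * a n t - ν m) * a m t
        - (W m t - c m (m + 1) * a (m + 1) t ^ 2)) (pm p a m t)
  have h9 := abs_sub ((∑ n ∈ Finset.range m, c n m * a n t - ν m) * a m t)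
        (W m t - c m (m + 1) * a (m + 1) t ^ 2)
  have h10 : (2 * SG m + K * (RR (m + 1) : ℝ) ^ 4) * a m t
      + Gm (m + 1) * rr (m + 1) * a (m + 1) t + 2 * Real.exp (-bb m) * a m t
      ≤ lam K m * (a m t + a (m + 1) t) := by
    unfold lam
    have g1 := SG_nonneg m
    have g2 : 0 ≤ K * (RR (m + 1) : ℝ) ^ 4 := by have := RR_pos (m + 1); positivity
    have g3 : 0 ≤ Gm (m + 1) * rr (m + 1) := mul_nonneg (Gm_pos _).le (rr_pos _).le
    have g4 := Real.exp_pos (-bb m)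
    have g5 := Real.exp_pos (-bb (m + 1))
    have k1 : 0 ≤ a m t * (1 + Gm (m + 1) * rr (m + 1) + 2 * Real.exp (-bb (m + 1))) := by
      positivity
    have k2 : 0 ≤ a (m + 1) t * (1 + 2 * SG m + K * (RR (m + 1) : ℝ) ^ 4
        + 2 * Real.exp (-bb m) + 2 * Real.exp (-bb (m + 1))) := by positivity
    nlinarith
  have := Real.exp_pos (-bb m)
  linarith

/-- the equation of the level `m + 1` during the stage, lower bound -/
lemma est_y1 (h : Sys l1 c Gm p ν T a S W) (hc : CH c p ν K) {m : ℕ} (hm : 2 ≤ m) (hlm : l1 + 1 ≤ m)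
    {t : ℝ}
    (ht : t ∈ Icc 0 T) (hy : 0 ≤ a (m + 1) t)
    (hZ : tl a S (m + 2) t ≤ rr (m + 1) * a (m + 1) t) :
    c m (m + 1) * a m t * a (m + 1) t - lam K m * a (m + 1) t ≤ rhs c p ν a W (m + 1) t ∧
    rhs c p ν a W (m + 1) t ≤ c m (m + 1) * a m t * a (m + 1) t + lam K m * a (m + 1) t
        + 4 * (Real.exp (-bb (m - 1)) + Real.exp (-bb m)) := by
  have h1 := h.sum_bd ht m (m + 1) (by omega) (by omega)
  have h2 := h.W_bd ht (m + 1)
  have h3 : |W (m + 1) t| ≤ Gm (m + 1) * rr (m + 1) * a (m + 1) t := by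
    refine h2.trans ?_
    have h5 := Gm_pos (m + 1)
    calc Gm (m + 1) * tl a S (m + 2) t ≤ Gm (m + 1) * (rr (m + 1) * a (m + 1) t) := by gcongr
      _ = _ := by ring
  have e4 : pm p a (m + 1) t = p m * a m t ^ 2 := by
    unfold pm; rw [if_neg (by omega)]; simp
  have h4 : p m * a m t ^ 2 ≤ 4 * Real.exp (-bb m) := by
    have h5 := hc.p_hi m (by omega)
    have h6 := h.sq_le ht (l := m) (by omega)
    have := h.p0 m
    calc p m * a m t ^ 2 ≤ Real.exp (-bb m) * 2 := by gcongr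
      _ ≤ _ := by have := Real.exp_pos (-bb m); linarith
  have h4' : 0 ≤ p m * a m t ^ 2 := mul_nonneg (h.p0 _) (sq_nonneg _)
  have h5 : |p (m + 1) * a (m + 1) t * a (m + 2) t| ≤ 2 * Real.exp (-bb (m + 1)) * a (m + 1) t := by
    rw [abs_mul, abs_mul, abs_of_nonneg (h.p0 _), abs_of_nonneg hy]
    have h6 := hc.p_hi (m + 1) (by omega)
    have h7 := h.ab_le ht (l := m + 2) (by omega)
    have := h.p0 (m + 1)
    calc p (m + 1) * a (m + 1) t * |a (m + 2) t|
        ≤ Real.exp (-bb (m + 1)) * a (m + 1) t * 2 := by gcongr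
      _ = _ := by ring
  have hν0 := h.ν0 (m + 1)
  have hν := hc.ν_hi (m + 1)
  have e : rhs c p ν a W (m + 1) t = c m (m + 1) * a m t * a (m + 1) t
      + (∑ n ∈ Finset.range m, c n (m + 1) * a n t) * a (m + 1) t - ν (m + 1) * a (m + 1) t
      - W (m + 1) t + p m * a m t ^ 2 - p (m + 1) * a (m + 1) t * a (m + 2) t := by
    unfold rhs
    rw [e4, Finset.sum_range_succ]
    ring
  have k1 : -(2 * SG m * a (m + 1) t)
      ≤ (∑ n ∈ Finset.range m, c n (m + 1) * a n t) * a (m + 1) t := by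
    rw [← neg_mul]
    exact mul_le_mul_of_nonneg_right (abs_le.1 h1).1 hy
  have k2 : (∑ n ∈ Finset.range m, c n (m + 1) * a n t) * a (m + 1) t
      ≤ 2 * SG m * a (m + 1) t := mul_le_mul_of_nonneg_right (abs_le.1 h1).2 hy
  have k3 : ν (m + 1) * a (m + 1) t ≤ K * (RR (m + 1) : ℝ) ^ 4 * a (m + 1) t :=
    mul_le_mul_of_nonneg_right hν hy
  have k4 : 0 ≤ ν (m + 1) * a (m + 1) t := mul_nonneg hν0 hy
  have k5 := abs_le.1 h3
  have k6 := abs_le.1 h5
  have g4 := Real.exp_pos (-bb m)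
  have g5 := Real.exp_pos (-bb (m - 1))
  have e7 : lam K m * a (m + 1) t = a (m + 1) t + 2 * SG m * a (m + 1) t
      + K * (RR (m + 1) : ℝ) ^ 4 * a (m + 1) t + Gm (m + 1) * rr (m + 1) * a (m + 1) t
      + 2 * Real.exp (-bb m) * a (m + 1) t + 2 * Real.exp (-bb (m + 1)) * a (m + 1) t := by
    unfold lam; ring
  have k7 : 0 ≤ 2 * Real.exp (-bb m) * a (m + 1) t := by positivity
  rw [e, e7]
  constructor
  · linarith [k5.2, k6.2]
  · linarith [k5.1, k6.1]

/-- the equation of the level `m + 2` during the stage -/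
lemma est_z (h : Sys l1 c Gm p ν T a S W) (hc : CH c p ν K) {m : ℕ} (hm : 2 ≤ m) (hlm : l1 + 1 ≤ m)
    {t k : ℝ}
    (ht : t ∈ Icc 0 T) (hz : 0 ≤ a (m + 2) t)
    (hZ : tl a S (m + 3) t ≤ (k * a (m + 2) t) ^ 2) (hk : 2 * Gm (m + 2) * k ^ 2 ≤ 1)
    (hb : 2 * Real.exp (-bb (m + 2)) ≤ 1) :
    (c (m + 1) (m + 2) * a (m + 1) t - (2 * SG (m + 1) + K * (RR (m + 2) : ℝ) ^ 4 + 2))
      * a (m + 2) t + p (m + 1) * a (m + 1) t ^ 2 ≤ rhs c p ν a W (m + 2) t := by
  have h1 := h.sum_bd ht (m + 1) (m + 2) (by omega) (by omega)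
  have h2 := h.W_bd ht (m + 2)
  have hz2 := h.ab_le ht (l := m + 2) (by omega)
  rw [abs_of_nonneg hz] at hz2
  have h3 : W (m + 2) t ≤ a (m + 2) t := by
    refine (le_abs_self _).trans (h2.trans ?_)
    have h5 := Gm_pos (m + 2)
    calc Gm (m + 2) * tl a S (m + 3) t ≤ Gm (m + 2) * (k * a (m + 2) t) ^ 2 := by gcongr
      _ = (2 * Gm (m + 2) * k ^ 2) * (a (m + 2) t / 2) * a (m + 2) t := by ring
      _ ≤ 1 * (2 / 2) * a (m + 2) t := by gcongr
      _ = _ := by ring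
  have e4 : pm p a (m + 2) t = p (m + 1) * a (m + 1) t ^ 2 := by
    unfold pm; rw [if_neg (by omega)]; simp
  have h5 : p (m + 2) * a (m + 2) t * a (m + 3) t ≤ a (m + 2) t := by
    have h6 := hc.p_hi (m + 2) (by omega)
    have h7 := (le_abs_self _).trans (h.ab_le ht (l := m + 3) (by omega))
    have := h.p0 (m + 2)
    calc p (m + 2) * a (m + 2) t * a (m + 3) t
        ≤ p (m + 2) * a (m + 2) t * 2 :=
          mul_le_mul_of_nonneg_left h7 (mul_nonneg this hz)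
      _ ≤ Real.exp (-bb (m + 2)) * a (m + 2) t * 2 := by gcongr
      _ = (2 * Real.exp (-bb (m + 2))) * a (m + 2) t := by ring
      _ ≤ 1 * a (m + 2) t := by gcongr
      _ = _ := one_mul _
  have hν := hc.ν_hi (m + 2)
  have e : rhs c p ν a W (m + 2) t = c (m + 1) (m + 2) * a (m + 1) t * a (m + 2) t
      + (∑ n ∈ Finset.range (m + 1), c n (m + 2) * a n t) * a (m + 2) t - ν (m + 2) * a (m + 2) t
      - W (m + 2) t + p (m + 1) * a (m + 1) t ^ 2 - p (m + 2) * a (m + 2) t * a (m + 3) t := by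
    unfold rhs
    rw [e4, Finset.sum_range_succ]
    ring
  have k1 : -(2 * SG (m + 1) * a (m + 2) t)
      ≤ (∑ n ∈ Finset.range (m + 1), c n (m + 2) * a n t) * a (m + 2) t := by
    rw [← neg_mul]
    exact mul_le_mul_of_nonneg_right (abs_le.1 h1).1 hz
  have k3 : ν (m + 2) * a (m + 2) t ≤ K * (RR (m + 2) : ℝ) ^ 4 * a (m + 2) t :=
    mul_le_mul_of_nonneg_right hν hz
  rw [e]
  linarith

end

end Pool.Agent.H226.GB
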