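import Pool.Agent.H226.GB.Ode3

/-!
One stage of the cascade: from the level `m` to the level `m + 1`.
-/

open MeasureTheory Set Filter Topology

namespace Pool.Agent.H226.GB

/-- the state at the beginning of the stage `m` -/
structure St (a : ℕ → ℝ → ℝ) (S : ℝ → ℝ) (T : ℝ) (m : ℕ) (t0 : ℝ) : Prop where
  nn : 0 ≤ t0
  tT : t0 ≤ T * (1 - 1 / 2 ^ m)
  X : al m ≤ a m t0
  eq : tl a S (m + 1) t0 = rr m ^ 2
  le : ∀ t ∈ Icc 0 t0, tl a S (m + 1) t ≤ rr m ^ 2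
  ph : Ph Gm a m t0 ≤ Bm m

section

variable {l1 : ℕ} {c : ℕ → ℕ → ℝ} {p ν : ℕ → ℝ} {T K : ℝ} {a : ℕ → ℝ → ℝ} {S : ℝ → ℝ} {W : ℕ → ℝ → ℝ}
  {m : ℕ} {t0 : ℝ}

lemma St.tT' (hs : St a S T m t0) (hp : Par K T m) (hT : 0 < T) :
    t0 + Dm m ≤ T * (1 - 1 / 2 ^ (m + 1)) ∧ T * (1 - 1 / 2 ^ (m + 1)) < T := by
  have h1 := hs.tT
  have h2 := hp.f11
  have h3 : T * (1 - 1 / 2 ^ m) + T / 2 ^ (m + 1) = T * (1 - 1 / 2 ^ (m + 1)) := by
    rw [pow_succ]; field_simp; ring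
  refine ⟨by linarith, ?_⟩
  have h4 : (0 : ℝ) < 1 / 2 ^ (m + 1) := by positivity
  nlinarith

lemma Ph_cont (hc : ∀ m, Continuous (a m)) (l : ℕ) : Continuous (Ph Gm a l) :=
  continuous_iff_continuousAt.2 fun t => (Ph_der hc l t).continuousAt

lemma II_cont {n : ℕ} (hc : Continuous (a n)) : Continuous (II a n) :=
  continuous_iff_continuousAt.2 fun t => (II_der hc t).continuousAt

lemma Sys.tl_cont {G : ℕ → ℝ} (h : Sys l1 c G p ν T a S W) (l : ℕ) : Continuous (tl a S l) := by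
  unfold tl
  exact h.contS.sub (continuous_finsetSum _ fun j _ => (h.cont j).pow 2)

/-- the comparison for the level `l ≥ 3` -/
lemma star (h : Sys l1 c Gm p ν T a S W) (hc : CH c p ν K) {l : ℕ} (hl : 1 ≤ l) (hl1 : l1 ≤ l)
    (ha0 : 0 ≤ a l 0)
    (hz0 : tl a S (l + 1) 0 ≤ 0) {τ : ℝ} (hτ : τ ∈ Icc 0 T) (hφ : Ph Gm a l τ ≤ bb l - 1) :
    ∀ t ∈ Icc 0 τ, 0 ≤ a l t ∧
      tl a S (l + 1) t ≤ (Real.exp (Ph Gm a l t - bb l) * a l t) ^ 2 := by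
  refine h.ratio hl1 hτ ?_ ha0 hz0 hφ
  have h1 := hc.p_hi l hl
  have h2 := four_le_Gm l
  have h3 := Real.exp_pos (-bb l)
  nlinarith

/-- bound of the exponent -/
lemma ph_le (h : Sys l1 c Gm p ν T a S W) {l : ℕ} (hl : l1 ≤ l + 1) {s t : ℝ} (hs : 0 ≤ s)
    (hst : s ≤ t) (ht : t ≤ T) : Ph Gm a l t ≤ Ph Gm a l s + 4 * (t - s) * SG (l + 1) := by
  have h1 := mono_of (f := fun u => 4 * SG (l + 1) * u - Ph Gm a l u)
    (f' := fun u => 4 * SG (l + 1) - 2 * ∑ n ∈ Finset.range (l + 1), Gm n * |a n u|) (s := s)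
    (t := t) (by
      have := Ph_cont h.cont l
      fun_prop) (fun u _ =>
      (((hasDerivAt_id u).const_mul (4 * SG (l + 1))).sub (Ph_der h.cont l u)).congr_deriv
        (by simp)) (fun u hu => by
      have h2 := h.str_le (t := u) ⟨by linarith [hu.1], by linarith [hu.2]⟩ hl
      have h3 : ∑ n ∈ Finset.range (l + 1), Gm n = SG (l + 1) := rfl
      rw [h3] at h2
      linarith) le_rfl hst le_rfl
  have h2 : 4 * SG (l + 1) * s - Ph Gm a l s ≤ 4 * SG (l + 1) * t - Ph Gm a l t := h1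
  linarith

/-- the facts at the beginning of the stage -/
lemma St.start (hs : St a S T m t0) (h : Sys l1 c Gm p ν T a S W) (hc : CH c p ν K)
    (hT : 0 < T) (hT1 : T ≤ 1) (hm : 2 ≤ m) (hlm : l1 + 1 ≤ m) (hp : Par K T m)
    (ha0 : 0 ≤ a (m + 1) 0) (hz0 : tl a S (m + 2) 0 ≤ 0) :
    Ph Gm a (m + 1) t0 ≤ Bm m + 1 ∧ (∀ t ∈ Icc 0 t0, tl a S (m + 2) t < rr (m + 1) ^ 2) ∧
    rr m / 2 ≤ a (m + 1) t0 ∧ a (m + 1) t0 ^ 2 ≤ al m ^ 2 / 2 ^ 31 ∧
    tl a S (m + 2) t0 ≤ rr (m + 1) * a (m + 1) t0 := by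
  have h1 := hs.tT' hp hT
  have hD := Dm_pos m
  have ht0T : t0 < T := by linarith [h1.1, h1.2]
  have hr := rr_pos m
  have hφ : Ph Gm a (m + 1) t0 ≤ Bm m + 1 := by
    rw [Ph_succ]
    have h2 : II a (m + 1) t0 - II a (m + 1) 0 ≤ rr m * (t0 - 0) := by
      refine II_sub_le (h.cont _) hs.nn fun u hu => ?_
      have h3 := hs.le u hu
      have h4 := h.sq_le_tl (t := u) ⟨hu.1, hu.2.trans ht0T.le⟩ (m + 1)
      exact abs_le_of_sq_le_sq (h4.trans h3) hr.le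
    rw [II_zero, sub_zero, sub_zero] at h2
    have h5 : II a (m + 1) t0 ≤ rr m := by
      refine h2.trans ?_
      have : t0 ≤ 1 := by linarith
      nlinarith
    have h6 := Gm_rr m
    have h7 := Gm_pos (m + 1)
    have h8 := hs.ph
    nlinarith
  have hφ1 : Ph Gm a (m + 1) t0 ≤ bb (m + 1) - 1 := by linarith [hp.f5]
  have hst := star h hc (by omega) (by omega) ha0 hz0 ⟨hs.nn, ht0T.le⟩ hφ1
  have hmono := Ph_mono (fun n => (Gm_pos n).le) h.cont (m + 1)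
  refine ⟨hφ, fun t ht => ?_, ?_, ?_, ?_⟩
  · obtain ⟨g1, g2⟩ := hst t ht
    have g3 : Ph Gm a (m + 1) t ≤ Bm m + 1 := (hmono ht.2).trans hφ
    have g4 : Real.exp (Ph Gm a (m + 1) t - bb (m + 1)) ≤ Real.exp (Bm m + 1 - bb (m + 1)) :=
      Real.exp_le_exp.2 (by linarith)
    have g5 := (le_abs_self _).trans (h.ab_le (t := t) ⟨ht.1, ht.2.trans ht0T.le⟩ (l := m + 1) (by omega))
    have g6 : Real.exp (Ph Gm a (m + 1) t - bb (m + 1)) * a (m + 1) t < rr (m + 1) := by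
      refine lt_of_le_of_lt ?_ hp.f5'
      have := Real.exp_pos (Bm m + 1 - bb (m + 1))
      calc Real.exp (Ph Gm a (m + 1) t - bb (m + 1)) * a (m + 1) t
          ≤ Real.exp (Bm m + 1 - bb (m + 1)) * 2 := by gcongr
        _ = _ := by ring
    refine g2.trans_lt ?_
    have g7 : 0 ≤ Real.exp (Ph Gm a (m + 1) t - bb (m + 1)) * a (m + 1) t :=
      mul_nonneg (Real.exp_pos _).le g1
    gcongr
  · obtain ⟨g1, g2⟩ := hst t0 ⟨hs.nn, le_rfl⟩
    have g3 : Real.exp (Ph Gm a (m + 1) t0 - bb (m + 1)) ≤ 1 / 2 := by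
      refine (Real.exp_le_exp.2 (show _ ≤ (-1 : ℝ) by linarith)).trans ?_
      rw [Real.exp_neg, ← one_div]
      have := Real.add_one_le_exp (1 : ℝ)
      gcongr
      linarith
    have g4 : (Real.exp (Ph Gm a (m + 1) t0 - bb (m + 1)) * a (m + 1) t0) ^ 2
        ≤ (1 / 2 * a (m + 1) t0) ^ 2 := by
      have := Real.exp_pos (Ph Gm a (m + 1) t0 - bb (m + 1))
      gcongr
    have g5 := hs.eq
    rw [tl_succ] at g5
    have g6 : rr m ^ 2 ≤ 5 / 4 * a (m + 1) t0 ^ 2 := by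
      have : tl a S (m + 1 + 1) t0 = tl a S (m + 2) t0 := rfl
      nlinarith
    refine abs_le_of_sq_le_sq' ?_ g1 |>.2
    nlinarith
  · have g5 := hs.eq
    have g6 := h.sq_le_tl (t := t0) ⟨hs.nn, ht0T.le⟩ (m + 1)
    exact (g6.trans g5.le).trans hp.f3
  · obtain ⟨g1, g2⟩ := hst t0 ⟨hs.nn, le_rfl⟩
    have g3 : Real.exp (Ph Gm a (m + 1) t0 - bb (m + 1)) ≤ rr (m + 1) / 2 := by
      have : Real.exp (Ph Gm a (m + 1) t0 - bb (m + 1)) ≤ Real.exp (Bm m + 1 - bb (m + 1)) :=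
        Real.exp_le_exp.2 (by linarith)
      linarith [hp.f5']
    have g5 := (le_abs_self _).trans (h.ab_le (t := t0) ⟨hs.nn, ht0T.le⟩ (l := m + 1) (by omega))
    have g6 := Real.exp_pos (Ph Gm a (m + 1) t0 - bb (m + 1))
    have g7 := rr_pos (m + 1)
    have g8 := rr_le (m + 1)
    refine g2.trans ?_
    have e : (Real.exp (Ph Gm a (m + 1) t0 - bb (m + 1)) * a (m + 1) t0) ^ 2
        ≤ (rr (m + 1) / 2 * a (m + 1) t0) ^ 2 := by gcongr
    refine e.trans ?_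
    have : (rr (m + 1) / 2 * a (m + 1) t0) ^ 2
        = (rr (m + 1) * a (m + 1) t0) * (rr (m + 1) * (a (m + 1) t0 / 4)) := by ring
    rw [this]
    have g9 : rr (m + 1) * (a (m + 1) t0 / 4) ≤ 1 := by nlinarith
    have g10 : 0 ≤ rr (m + 1) * a (m + 1) t0 := by positivity
    nlinarith

/-- the planar hypotheses hold as long as the higher levels are small -/
lemma St.plan (hs : St a S T m t0) (h : Sys l1 c Gm p ν T a S W) (hc : CH c p ν K) (hK : 0 ≤ K)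
    (hT : 0 < T) (hT1 : T ≤ 1) (hm : 2 ≤ m) (hlm : l1 + 1 ≤ m) (hp : Par K T m)
    (ha0 : 0 ≤ a (m + 1) 0) (hz0 : tl a S (m + 2) 0 ≤ 0) {s : ℝ} (hts : t0 ≤ s)
    (hsD : s ≤ t0 + Dm m) (hx : ∀ t ∈ Icc t0 s, 0 ≤ a m t)
    (hy : ∀ t ∈ Icc t0 s, 0 ≤ a (m + 1) t ∧ tl a S (m + 2) t ≤ rr (m + 1) * a (m + 1) t) :
    PlanHyp (a m) (a (m + 1)) (rhs c p ν a W m) (rhs c p ν a W (m + 1)) (II a (m + 1))
      (c m (m + 1)) (lam K m) (4 * (Real.exp (-bb (m - 1)) + Real.exp (-bb m))) (al m) (Dm m)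
      (a m t0) t0 s := by
  obtain ⟨f1, f2, f3, f4, f5⟩ := hs.start h hc hT hT1 hm hlm hp ha0 hz0
  have h1 := hs.tT' hp hT
  have hmem : ∀ t ∈ Ioo t0 s, t ∈ Ioo 0 T := fun t ht =>
    ⟨lt_of_le_of_lt hs.nn ht.1, by linarith [ht.2, h1.1, h1.2]⟩
  have hrm := rr_pos m
  have hlo := hc.c_lo m
  have hR := RR_pos m
  refine ⟨hts, by linarith, lt_of_lt_of_le (by positivity) hlo, ?_, hp.f1, al_pos m, by positivity,
    hp.f2, hs.X, ?_, rfl, by linarith, f4, (h.cont _).continuousOn, (h.cont _).continuousOn,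
    (II_cont (h.cont _)).continuousOn, fun t ht => h.der t (hmem t ht) m,
    fun t ht => h.der t (hmem t ht) (m + 1), fun t ht => ?_, hx, fun t ht => (hy t ht).1,
    fun t ht => ?_, fun t ht => ?_, fun t ht => ?_⟩
  · unfold lam
    have g1 := SG_nonneg m
    have g2 : 0 ≤ K * (RR (m + 1) : ℝ) ^ 4 := by have := RR_pos (m + 1); positivity
    have g3 : 0 ≤ Gm (m + 1) * rr (m + 1) := mul_nonneg (Gm_pos _).le (rr_pos _).le
    have g4 := Real.exp_pos (-bb m)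
    have g5 := Real.exp_pos (-bb (m + 1))
    linarith
  · exact (le_abs_self _).trans (h.ab_le ⟨hs.nn, by linarith [h1.1, h1.2, Dm_pos m]⟩ (l := m) (by omega))
  · have g := II_der (h.cont (m + 1)) t
    rwa [abs_of_nonneg (hy t ⟨ht.1.le, ht.2.le⟩).1] at g
  · have hI : t ∈ Icc t0 s := ⟨ht.1.le, ht.2.le⟩
    exact est_x h hc hK hm hlm ⟨(hmem t ht).1.le, (hmem t ht).2.le⟩ (hx t hI) (hy t hI).1 (hy t hI).2
  · have hI : t ∈ Icc t0 s := ⟨ht.1.le, ht.2.le⟩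
    exact (est_y1 h hc hm hlm ⟨(hmem t ht).1.le, (hmem t ht).2.le⟩ (hy t hI).1 (hy t hI).2).1
  · have hI : t ∈ Icc t0 s := ⟨ht.1.le, ht.2.le⟩
    exact (est_y1 h hc hm hlm ⟨(hmem t ht).1.le, (hmem t ht).2.le⟩ (hy t hI).1 (hy t hI).2).2

/-- the exponent controls the angle: if it has grown by half of `bb (m+1)` then `y` is large -/
lemma St.angle (hs : St a S T m t0) (h : Sys l1 c Gm p ν T a S W) (hc : CH c p ν K)
    (hT : 0 < T) (hT1 : T ≤ 1) (hm : 2 ≤ m) (hlm : l1 + 1 ≤ m) (hp : Par K T m)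
    (ha0 : 0 ≤ a (m + 1) 0) (hz0 : tl a S (m + 2) 0 ≤ 0) {s : ℝ} (hts : t0 ≤ s)
    (hsD : s ≤ t0 + Dm m)
    (hφ : bb (m + 1) - Real.log (2 / rr (m + 1)) - 1 ≤ Ph Gm a (m + 1) s) :
    1 / 2 ^ 26 ≤ c m (m + 1) * (II a (m + 1) s - II a (m + 1) t0) := by
  obtain ⟨f1, f2, f3, f4, f5⟩ := hs.start h hc hT hT1 hm hlm hp ha0 hz0
  have h1 := hs.tT' hp hT
  have h2 := ph_le h (l := m) (by omega) hs.nn hts (by linarith [h1.1, h1.2])
  rw [Ph_succ] at f1 hφ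
  have h3 : 4 * (s - t0) * SG (m + 1) ≤ 4 * Dm m * SG (m + 1) := by
    have := SG_nonneg (m + 1)
    gcongr
    linarith
  have h4 := hp.f8
  set J := II a (m + 1) s - II a (m + 1) t0 with hJ
  have h5 : bb (m + 1) / 2 ≤ 2 * (Gm (m + 1) * J) := by
    rw [hJ]
    nlinarith
  have h6 : 0 < J := by
    have hb : 0 < bb (m + 1) := by
      unfold bb
      have := RR_pos (m + 1)
      have := RR_pos (m + 1 - 1)
      positivity
    by_contra h7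
    push Not at h7
    have := Gm_pos (m + 1)
    nlinarith
  have h7 := hc.c_lo m
  have h8 : bb (m + 1) = ((RR (m + 1) : ℝ) / RR m) ^ 5 / 2 ^ 13 := by unfold bb; simp
  have hR := RR_pos m
  have hR1 := RR_pos (m + 1)
  have h9 : bb (m + 1) * ((RR m : ℝ) ^ 5 / 2) = (RR (m + 1) : ℝ) ^ 5 / 2 ^ 14 := by
    rw [h8, div_pow]; field_simp
  have h10 : (RR (m + 1) : ℝ) ^ 5 / 2 ^ 14 ≤ 4 * (Gm (m + 1) * J) * c m (m + 1) := by
    rw [← h9]
    have : bb (m + 1) ≤ 4 * (Gm (m + 1) * J) := by linarith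
    have h11 : 0 ≤ 4 * (Gm (m + 1) * J) := by have := Gm_pos (m + 1); positivity
    exact mul_le_mul this h7 (by positivity) h11
  unfold Gm at h10
  have h12 : (0 : ℝ) < (RR (m + 1) : ℝ) ^ 5 := by positivity
  have h13 : (RR (m + 1) : ℝ) ^ 5 * (1 / 2 ^ 14)
      ≤ (RR (m + 1) : ℝ) ^ 5 * (2 ^ 12 * (c m (m + 1) * J)) := by
    refine le_trans (le_of_eq (by ring)) (h10.trans (le_of_eq (by ring)))
  have h14 := le_of_mul_le_mul_left h13 h12
  norm_num at h14 ⊢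
  linarith

end

end Pool.Agent.H226.GB
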