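import Pool.Agent.H226.GB.Ode4

/-!
One stage of the cascade, conclusion.
-/

open MeasureTheory Set Filter Topology

namespace Pool.Agent.H226.GB

section

variable {l1 : ℕ} {c : ℕ → ℕ → ℝ} {p ν : ℕ → ℝ} {T K : ℝ} {a : ℕ → ℝ → ℝ} {S : ℝ → ℝ} {W : ℕ → ℝ → ℝ}
  {m : ℕ} {t0 : ℝ}

/-- as long as `x ≥ 0` and the levels `≥ m + 2` are below the threshold, they are small compared
to `y` -/
lemma St.good (hplan : S_plan) (hs : St a S T m t0) (h : Sys l1 c Gm p ν T a S W) (hc : CH c p ν K)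
    (hK : 0 ≤ K) (hT : 0 < T) (hT1 : T ≤ 1) (hm : 2 ≤ m) (hlm : l1 + 1 ≤ m) (hp : Par K T m)
    (ha0 : 0 ≤ a (m + 1) 0) (hz0 : tl a S (m + 2) 0 ≤ 0) {s : ℝ}
    (hsD : s ≤ t0 + Dm m) (hx : ∀ t ∈ Icc t0 s, 0 ≤ a m t)
    (hZ : ∀ t ∈ Icc t0 s, tl a S (m + 2) t ≤ rr (m + 1) ^ 2) :
    ∀ t ∈ Icc t0 s, 0 ≤ a (m + 1) t ∧ tl a S (m + 2) t ≤ rr (m + 1) * a (m + 1) t := by
  obtain ⟨f1, f2, f3, f4, f5⟩ := hs.start h hc hT hT1 hm hlm hp ha0 hz0
  have h1 := hs.tT' hp hT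
  have hr := rr_pos (m + 1)
  have hr0 := rr_pos m
  have hφc := Ph_cont h.cont (m + 1)
  have hyc := h.cont (m + 1)
  have hZc := h.tl_cont (m + 2)
  by_contra hcon
  push Not at hcon
  obtain ⟨tb, htb, hbad⟩ := hcon
  set N : Set ℝ := {t | t ∈ Icc t0 s ∧
    ¬(0 ≤ a (m + 1) t ∧ tl a S (m + 2) t ≤ rr (m + 1) * a (m + 1) t)} with hN
  have hNne : N.Nonempty := ⟨tb, htb, fun h2 => absurd h2.2 (not_le.2 (hbad h2.1))⟩
  have hNbd : BddBelow N := ⟨t0, fun t ht => ht.1.1⟩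
  set s0 := sInf N with hs0
  have hs0le : s0 ≤ s := (csInf_le hNbd hNne.some_mem).trans hNne.some_mem.1.2
  have hs0ge : t0 ≤ s0 := le_csInf hNne fun t ht => ht.1.1
  have hbefore : ∀ t ∈ Ico t0 s0, 0 ≤ a (m + 1) t ∧
      tl a S (m + 2) t ≤ rr (m + 1) * a (m + 1) t := by
    intro t ht
    by_contra h2
    exact absurd (csInf_le hNbd (show t ∈ N from ⟨⟨ht.1, ht.2.le.trans hs0le⟩, h2⟩))
      (not_le.2 ht.2)
  have hat : 0 ≤ a (m + 1) s0 ∧ tl a S (m + 2) s0 ≤ rr (m + 1) * a (m + 1) s0 := by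
    rcases eq_or_lt_of_le hs0ge with he | hl
    · rw [← he]; exact ⟨by linarith, f5⟩
    · have hcl : s0 ∈ closure (Ico t0 s0) := by
        rw [closure_Ico hl.ne]; exact ⟨hl.le, le_rfl⟩
      have hclosed : IsClosed {t : ℝ | 0 ≤ a (m + 1) t ∧
          tl a S (m + 2) t ≤ rr (m + 1) * a (m + 1) t} :=
        (isClosed_le continuous_const hyc).inter (isClosed_le hZc (continuous_const.mul hyc))
      exact hclosed.closure_subset_iff.2 (fun t ht => hbefore t ht) hcl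
  have hupto : ∀ t ∈ Icc t0 s0, 0 ≤ a (m + 1) t ∧
      tl a S (m + 2) t ≤ rr (m + 1) * a (m + 1) t := by
    intro t ht
    rcases eq_or_lt_of_le ht.2 with he | hl
    · rw [he]; exact hat
    · exact hbefore t ⟨ht.1, hl⟩
  have hs0T : s0 < T := by linarith [h1.1, h1.2]
  -- a right neighbourhood of `s0` without points of `N`
  have key : ∃ ε > 0, ∀ t ∈ Icc s0 (s0 + ε), t ≤ s → 0 ≤ a (m + 1) t ∧
      tl a S (m + 2) t ≤ rr (m + 1) * a (m + 1) t := by
    rcases lt_or_ge (Ph Gm a (m + 1) s0) (bb (m + 1) - 1) with hlt | hge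
    · have hev : ∀ᶠ t in 𝓝 s0, Ph Gm a (m + 1) t < bb (m + 1) - 1 :=
        hφc.continuousAt.eventually_lt_const hlt
      obtain ⟨ε, hε, hball⟩ := Metric.eventually_nhds_iff.1 hev
      refine ⟨min (ε / 2) (T - s0), lt_min (by linarith) (by linarith), fun t ht hts => ?_⟩
      have ht2 : t ≤ s0 + ε / 2 := ht.2.trans (by linarith [min_le_left (ε / 2) (T - s0)])
      have ht3 : t ≤ T := ht.2.trans (by linarith [min_le_right (ε / 2) (T - s0)])
      have h2 : Ph Gm a (m + 1) t ≤ bb (m + 1) - 1 := (hball (by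
        rw [Real.dist_eq, abs_of_nonneg (by linarith [ht.1])]
        linarith)).le
      have ht0 : 0 ≤ t := hs.nn.trans (hs0ge.trans ht.1)
      obtain ⟨g1, g2⟩ := star h hc (by omega) (by omega) ha0 hz0 ⟨ht0, ht3⟩ h2 t ⟨ht0, le_rfl⟩
      refine ⟨g1, ?_⟩
      have g3 : Real.exp (Ph Gm a (m + 1) t - bb (m + 1)) ≤ 1 := by
        rw [Real.exp_le_one_iff]; linarith
      have g4 : tl a S (m + 2) t ≤ a (m + 1) t ^ 2 := by
        refine g2.trans ?_
        rw [mul_pow]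
        have g5 : Real.exp (Ph Gm a (m + 1) t - bb (m + 1)) ^ 2 ≤ 1 :=
          pow_le_one₀ (Real.exp_pos _).le g3
        have := sq_nonneg (a (m + 1) t)
        nlinarith
      have g6 := hZ t ⟨hs0ge.trans ht.1, hts⟩
      have g7 := h.tl_nonneg (t := t) ⟨ht0, ht3⟩ (m + 2)
      refine abs_le_of_sq_le_sq' ?_ (by positivity) |>.2
      calc tl a S (m + 2) t ^ 2 = tl a S (m + 2) t * tl a S (m + 2) t := sq _
        _ ≤ rr (m + 1) ^ 2 * a (m + 1) t ^ 2 := by gcongr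
        _ = _ := by ring
    · -- `y` is large
      have hpl := hs.plan h hc hK hT hT1 hm hlm hp ha0 hz0 hs0ge (hs0le.trans hsD)
        (fun t ht => hx t ⟨ht.1, ht.2.trans hs0le⟩) hupto
      obtain ⟨_, _, e3, _, _⟩ := hplan _ _ _ _ _ _ _ _ _ _ _ _ _ hpl
      have hlog : 0 ≤ Real.log (2 / rr (m + 1)) := Real.log_nonneg (by
        rw [le_div_iff₀ hr]
        have := rr_le (m + 1)
        linarith)
      have h2 := e3 (hs.angle h hc hT hT1 hm hlm hp ha0 hz0 hs0ge (hs0le.trans hsD) (by linarith))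
      have h3 : rr (m + 1) < a (m + 1) s0 := by
        have h4 := hp.f4
        rw [al_succ] at h4
        have h5 := hs.X
        have : al m / 2 ^ 29 ≤ a m t0 / 2 ^ 29 := by gcongr
        linarith
      have hev : ∀ᶠ t in 𝓝 s0, rr (m + 1) < a (m + 1) t :=
        hyc.continuousAt.eventually_const_lt h3
      obtain ⟨ε, hε, hball⟩ := Metric.eventually_nhds_iff.1 hev
      refine ⟨ε / 2, by linarith, fun t ht hts => ?_⟩
      have h5 : rr (m + 1) < a (m + 1) t := hball (by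
        rw [Real.dist_eq, abs_of_nonneg (by linarith [ht.1])]
        linarith [ht.2])
      refine ⟨by linarith, (hZ t ⟨hs0ge.trans ht.1, hts⟩).trans ?_⟩
      nlinarith
  obtain ⟨ε, hε, hkey⟩ := key
  obtain ⟨t, htN, hlt⟩ := exists_lt_of_csInf_lt hNne (show sInf N < s0 + ε by linarith)
  have hge : s0 ≤ t := csInf_le hNbd htN
  exact htN.2 (hkey t ⟨hge, hlt.le⟩ htN.1.2)

/-- the exponent at the end of the stage -/
lemma St.phnext (hplan : S_plan) (hs : St a S T m t0) (h : Sys l1 c Gm p ν T a S W) (hc : CH c p ν K)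
    (hK : 0 ≤ K) (hT : 0 < T) (hT1 : T ≤ 1) (hm : 2 ≤ m) (hlm : l1 + 1 ≤ m) (hp : Par K T m)
    (ha0 : 0 ≤ a (m + 1) 0) (hz0 : tl a S (m + 2) 0 ≤ 0) {s : ℝ} (hts : t0 ≤ s)
    (hsD : s ≤ t0 + Dm m) (hx : ∀ t ∈ Icc t0 s, 0 ≤ a m t)
    (hZ : ∀ t ∈ Icc t0 s, tl a S (m + 2) t ≤ rr (m + 1) ^ 2) :
    Ph Gm a (m + 1) s ≤ Bm (m + 1) := by
  obtain ⟨f1, f2, f3, f4, f5⟩ := hs.start h hc hT hT1 hm hlm hp ha0 hz0
  have h1 := hs.tT' hp hT
  have hy := hs.good hplan h hc hK hT hT1 hm hlm hp ha0 hz0 hsD hx hZ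
  have hpl := hs.plan h hc hK hT hT1 hm hlm hp ha0 hz0 hts hsD hx hy
  obtain ⟨_, e2, _, _, _⟩ := hplan _ _ _ _ _ _ _ _ _ _ _ _ _ hpl
  have h2 := ph_le h (l := m) (by omega) hs.nn hts (by linarith [h1.1, h1.2])
  rw [Ph_succ] at f1 ⊢
  have h3 : 4 * (s - t0) * SG (m + 1) ≤ 4 * Dm m * SG (m + 1) := by
    have := SG_nonneg (m + 1)
    gcongr
    linarith
  set J := II a (m + 1) s - II a (m + 1) t0 with hJ
  have hR := RR_pos m
  have hR1 := RR_pos (m + 1)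
  have hlo := hc.c_lo m
  have hJ0 : 0 ≤ J := by
    have := II_mono (h.cont (m + 1)) hts
    linarith
  have h4 : 2 * (Gm (m + 1) * J) ≤ 9216 * om (m + 1) := by
    have h5 : (RR m : ℝ) ^ 5 / 2 * J ≤ 9 / 4 := (mul_le_mul_of_nonneg_right hlo hJ0).trans e2
    have h6 : J ≤ 9 / 2 / (RR m : ℝ) ^ 5 := by
      rw [le_div_iff₀ (by positivity)]
      linarith
    have h7 : om (m + 1) = (RR (m + 1) : ℝ) ^ 5 / (RR m : ℝ) ^ 5 := by
      unfold om; rw [div_pow]; simp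
    calc 2 * (Gm (m + 1) * J) ≤ 2 * (Gm (m + 1) * (9 / 2 / (RR m : ℝ) ^ 5)) := by
          have := Gm_pos (m + 1)
          gcongr
      _ = 9216 * om (m + 1) := by
          rw [h7]; unfold Gm; ring
  have h8 := hp.f6
  have h9 : II a (m + 1) s = II a (m + 1) t0 + J := by rw [hJ]; ring
  rw [h9]
  linarith

/-- the component `x` stays positive as long as the higher levels are below the threshold -/
lemma St.pos (hplan : S_plan) (hgrow : S_grow) (hs : St a S T m t0) (h : Sys l1 c Gm p ν T a S W)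
    (hc : CH c p ν K)
    (hK : 0 ≤ K) (hT : 0 < T) (hT1 : T ≤ 1) (hm : 2 ≤ m) (hlm : l1 + 1 ≤ m) (hp : Par K T m)
    (ha0 : 0 ≤ a (m + 1) 0) (ha1 : 0 ≤ a (m + 2) 0) (hz0 : tl a S (m + 2) 0 ≤ 0) {s : ℝ}
    (hts : t0 ≤ s) (hsD : s ≤ t0 + Dm m) (hx : ∀ t ∈ Icc t0 s, 0 ≤ a m t)
    (hZ : ∀ t ∈ Icc t0 s, tl a S (m + 2) t ≤ rr (m + 1) ^ 2) : 0 < a m s := by
  obtain ⟨f1, f2, f3, f4, f5⟩ := hs.start h hc hT hT1 hm hlm hp ha0 hz0
  have h1 := hs.tT' hp hT
  have hy := hs.good hplan h hc hK hT hT1 hm hlm hp ha0 hz0 hsD hx hZ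
  have hpl := hs.plan h hc hK hT hT1 hm hlm hp ha0 hz0 hts hsD hx hy
  obtain ⟨e1, e2, e3, e4, e5⟩ := hplan _ _ _ _ _ _ _ _ _ _ _ _ _ hpl
  have hph := hs.phnext hplan h hc hK hT hT1 hm hlm hp ha0 hz0 hts hsD hx hZ
  have hsT : s < T := by linarith [h1.1, h1.2]
  have hal := al_pos m
  have hX : 0 < a m t0 := lt_of_lt_of_le hal hs.X
  by_contra hcon
  have hxs : a m s = 0 := le_antisymm (not_lt.1 hcon) (hx s ⟨hts, le_rfl⟩)
  -- the time `s1`
  obtain ⟨s1, hs1, hs1x⟩ : ∃ s1 ∈ Icc t0 s, a m s1 = a m t0 / 2 := by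
    have := intermediate_value_Icc' hts (h.cont m).continuousOn
    exact this ⟨by rw [hxs]; linarith, by linarith⟩
  -- the comparison for the level `m + 2`
  have hzb : ∀ u ∈ Icc 0 s, |a (m + 2) u| ≤ rr (m + 1) := by
    intro u hu
    have g1 := h.sq_le_tl (t := u) ⟨hu.1, hu.2.trans hsT.le⟩ (m + 2)
    have g2 : tl a S (m + 2) u ≤ rr (m + 1) ^ 2 := by
      rcases le_total u t0 with hle | hge
      · exact (f2 u ⟨hu.1, hle⟩).le
      · exact hZ u ⟨hge, hu.2⟩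
    exact abs_le_of_sq_le_sq (g1.trans g2) (rr_pos _).le
  have hs0 : 0 ≤ s := hs.nn.trans hts
  have hph2 : Ph Gm a (m + 2) s ≤ Bm (m + 1) + 1 := by
    rw [Ph_succ]
    have g1 := II_sub_le (h.cont (m + 2)) hs0 hzb
    rw [II_zero, sub_zero, sub_zero] at g1
    have g2 : II a (m + 2) s ≤ rr (m + 1) := by
      refine g1.trans ?_
      have := rr_pos (m + 1)
      nlinarith
    have g3 := Gm_rr (m + 1)
    have g4 := Gm_pos (m + 2)
    have g5 : Gm (m + 1 + 1) = Gm (m + 2) := rfl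
    have g6 : Gm (m + 2) * II a (m + 2) s ≤ Gm (m + 2) * rr (m + 1) := by gcongr
    rw [g5] at g3 ⊢
    have g7 : II a (m + 1 + 1) s = II a (m + 2) s := rfl
    rw [g7]
    linarith
  have hst := star h hc (l := m + 2) (by omega) (by omega) ha1
    ((tl_succ_le (a := a) (S := S) (m + 2)).trans hz0) ⟨hs0, hsT.le⟩ (by linarith [hp.f7])
  have hmono := Ph_mono (fun n => (Gm_pos n).le) h.cont (m + 2)
  have hz : ∀ t ∈ Icc 0 s, 0 ≤ a (m + 2) t ∧ tl a S (m + 3) t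
      ≤ (Real.exp (Bm (m + 1) + 1 - bb (m + 2)) * a (m + 2) t) ^ 2 := by
    intro t ht
    obtain ⟨g1, g2⟩ := hst t ht
    refine ⟨g1, g2.trans ?_⟩
    have g3 : Real.exp (Ph Gm a (m + 2) t - bb (m + 2))
        ≤ Real.exp (Bm (m + 1) + 1 - bb (m + 2)) :=
      Real.exp_le_exp.2 (by linarith [hmono ht.2])
    have g4 := Real.exp_pos (Ph Gm a (m + 2) t - bb (m + 2))
    gcongr
  -- growth
  have hmem : ∀ t ∈ Ioo t0 s, t ∈ Ioo 0 T := fun t ht =>
    ⟨lt_of_le_of_lt hs.nn ht.1, ht.2.trans hsT⟩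
  have hlam1 := hpl.lam1
  have hxy : ∀ t ∈ Icc t0 s, a m t + a (m + 1) t ≤ 29 / 20 * a m t0 := by
    intro t ht
    have g1 := (e1 t ht).2
    have g2 := hx t ht
    have g3 := (hy t ht).1
    refine abs_le_of_sq_le_sq' ?_ (by positivity) |>.2
    have g4 : (a m t + a (m + 1) t) ^ 2 ≤ 2 * (a m t ^ 2 + a (m + 1) t ^ 2) := by
      nlinarith [sq_nonneg (a m t - a (m + 1) t)]
    nlinarith [sq_nonneg (a m t0)]
  have hcl := hc.c_lo m
  have hR := RR_pos m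
  have hR1 := RR_pos (m + 1)
  have hR2 := RR_pos (m + 2)
  have hc0 : 0 < c m (m + 1) := hpl.c0
  have hcu : c m (m + 1) ≤ Gm m := (le_abs_self _).trans (h.cG m (m + 1) (Nat.lt_succ_self m))
  have hc1 := hc.c_lo (m + 1)
  have hE0 : 0 ≤ 2 * SG (m + 1) + K * (RR (m + 2) : ℝ) ^ 4 + 2 := by
    have := SG_nonneg (m + 1)
    positivity
  have hg := hgrow (a m) (a (m + 1)) (a (m + 2)) (rhs c p ν a W m) (rhs c p ν a W (m + 2))
    (II a (m + 1)) (c m (m + 1)) (c (m + 1) (m + 2))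
    (2 * SG (m + 1) + K * (RR (m + 2) : ℝ) ^ 4 + 2) (p (m + 1)) (2 * lam K m * a m t0) (Dm m)
    t0 s1 s hs1.1 hs1.2 (by linarith) hc0 ((by positivity : (0:ℝ) ≤ _).trans hc1) hE0 (h.p0 _)
    (by positivity) (h.cont _).continuousOn (h.cont _).continuousOn
    (II_cont (h.cont _)).continuousOn (fun t ht => h.der t (hmem t ht) m)
    (fun t ht => h.der t (hmem t ht) (m + 2)) hpl.dI (fun t ht => (hy t ht).1)
    (fun t ht => (hz t ⟨hs.nn.trans ht.1, ht.2⟩).1) (fun t ht => by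
      have hI : t ∈ Icc t0 s := ⟨ht.1.le, ht.2.le⟩
      have g1 := (abs_le.1 (hpl.hx t ht)).1
      have g2 := hxy t hI
      have g3 := hpl.Pα
      have g4 : lam K m * (a m t + a (m + 1) t) ≤ lam K m * (29 / 20 * a m t0) := by gcongr
      have g5 : al m * lam K m ≤ a m t0 * lam K m := by
        have := hs.X
        gcongr
      have g6 : 0 ≤ lam K m * a m t0 := by positivity
      linarith) (fun t ht => by
      have hI : t ∈ Icc t0 s := ⟨ht.1.le, ht.2.le⟩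
      obtain ⟨g1, g2⟩ := hz t ⟨hs.nn.trans hI.1, hI.2⟩
      exact est_z h hc hm hlm ⟨(hmem t ht).1.le, (hmem t ht).2.le⟩ g1 g2 hp.f7b hp.f7c)
  -- lower bound of the left side
  have hzs : a (m + 2) s ≤ rr (m + 1) := (le_abs_self _).trans (hzb s ⟨hs0, le_rfl⟩)
  have hf1 := hp.f1
  have hDm := Dm_pos m
  have k1 : 49 / 100 * al m ≤ a m t0 - a m s1 - 2 * lam K m * a m t0 * Dm m := by
    rw [hs1x]
    have g1 : 2 * lam K m * a m t0 * Dm m ≤ a m t0 / 2 ^ 32 := by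
      have : 2 * lam K m * a m t0 * Dm m = (4 * lam K m * Dm m) * (a m t0 / 2) := by ring
      rw [this]
      calc (4 * lam K m * Dm m) * (a m t0 / 2) ≤ 1 / 2 ^ 31 * (a m t0 / 2) := by gcongr
        _ = _ := by ring
    have := hs.X
    norm_num at g1
    linarith
  have k2 : 49 / 100 ≤ c m (m + 1) * (II a (m + 1) s - II a (m + 1) s1) := by
    have g1 := e5 s1 hs1 s ⟨hts, le_rfl⟩ hs1.2
    rw [hs1x, hxs] at g1
    have g2 : a m t0 * (49 / 100)
        ≤ a m t0 * (c m (m + 1) * (II a (m + 1) s - II a (m + 1) s1)) := by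
      norm_num at g1
      nlinarith
    exact le_of_mul_le_mul_left g2 hX
  have k3 : 49 / 100 / 2 ^ 11 * om (m + 1)
      ≤ c (m + 1) (m + 2) * (II a (m + 1) s - II a (m + 1) s1) := by
    have g1 : 49 / 100 / Gm m ≤ II a (m + 1) s - II a (m + 1) s1 := by
      have gG := Gm_pos m
      rw [div_le_iff₀ gG]
      have g2 : 0 ≤ II a (m + 1) s - II a (m + 1) s1 := by
        have := II_mono (h.cont (m + 1)) hs1.2
        linarith
      nlinarith
    have h7 : om (m + 1) = (RR (m + 1) : ℝ) ^ 5 / (RR m : ℝ) ^ 5 := by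
      unfold om; rw [div_pow]; simp
    calc 49 / 100 / 2 ^ 11 * om (m + 1) = (RR (m + 1) : ℝ) ^ 5 / 2 * (49 / 100 / Gm m) := by
          rw [h7]; unfold Gm; field_simp
      _ ≤ c (m + 1) (m + 2) * (49 / 100 / Gm m) := by
          have gG := Gm_pos m
          gcongr
      _ ≤ _ := by
          have : 0 ≤ c (m + 1) (m + 2) := (by positivity : (0:ℝ) ≤ _).trans hc1
          gcongr
  have k4 : 1 / (2 * (RR (m + 2) : ℝ) ^ 9) * (49 / 100 * al m / Gm m)
      * Real.exp (49 / 100 / 2 ^ 11 * om (m + 1) - bb (m + 1)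
      - (2 * SG (m + 1) + K * (RR (m + 2) : ℝ) ^ 4 + 2) * Dm m)
      ≤ p (m + 1) / c m (m + 1) * (a m t0 - a m s1 - 2 * lam K m * a m t0 * Dm m)
        * Real.exp (c (m + 1) (m + 2) * (II a (m + 1) s - II a (m + 1) s1)
          - (2 * SG (m + 1) + K * (RR (m + 2) : ℝ) ^ 4 + 2) * Dm m) := by
    have g1 := hc.p_lo (m + 1) (by omega)
    have g2 : 1 / (2 * (RR (m + 2) : ℝ) ^ 9) * (49 / 100 * al m / Gm m)
      * Real.exp (49 / 100 / 2 ^ 11 * om (m + 1) - bb (m + 1)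
      - (2 * SG (m + 1) + K * (RR (m + 2) : ℝ) ^ 4 + 2) * Dm m)
      = Real.exp (-bb (m + 1)) / (2 * (RR (m + 2) : ℝ) ^ 9) / Gm m * (49 / 100 * al m)
        * Real.exp (49 / 100 / 2 ^ 11 * om (m + 1)
          - (2 * SG (m + 1) + K * (RR (m + 2) : ℝ) ^ 4 + 2) * Dm m) := by
      have : 49 / 100 / 2 ^ 11 * om (m + 1) - bb (m + 1)
          - (2 * SG (m + 1) + K * (RR (m + 2) : ℝ) ^ 4 + 2) * Dm m
          = -bb (m + 1) + (49 / 100 / 2 ^ 11 * om (m + 1)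
          - (2 * SG (m + 1) + K * (RR (m + 2) : ℝ) ^ 4 + 2) * Dm m) := by ring
      rw [this, Real.exp_add]
      ring
    rw [g2]
    have g3 : Real.exp (-bb (m + 1)) / (2 * (RR (m + 2) : ℝ) ^ 9) / Gm m
        ≤ p (m + 1) / c m (m + 1) :=
      div_le_div₀ (h.p0 _) g1 hc0 hcu
    have g4 : Real.exp (49 / 100 / 2 ^ 11 * om (m + 1)
          - (2 * SG (m + 1) + K * (RR (m + 2) : ℝ) ^ 4 + 2) * Dm m)
        ≤ Real.exp (c (m + 1) (m + 2) * (II a (m + 1) s - II a (m + 1) s1)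
          - (2 * SG (m + 1) + K * (RR (m + 2) : ℝ) ^ 4 + 2) * Dm m) :=
      Real.exp_le_exp.2 (by linarith)
    have g5 : 0 ≤ p (m + 1) / c m (m + 1) := div_nonneg (h.p0 _) hc0.le
    have g6 : 0 ≤ 49 / 100 * al m := by positivity
    exact mul_le_mul (mul_le_mul g3 k1 g6 g5) g4 (Real.exp_pos _).le
      (mul_nonneg g5 (g6.trans k1))
  have k5 := hp.f10
  linarith

/-- **one stage of the cascade** -/
theorem St.next (hplan : S_plan) (hgrow : S_grow) (hs : St a S T m t0)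
    (h : Sys l1 c Gm p ν T a S W) (hc : CH c p ν K)
    (hK : 0 ≤ K) (hT : 0 < T) (hT1 : T ≤ 1) (hm : 2 ≤ m) (hlm : l1 + 1 ≤ m) (hp : Par K T m)
    (ha0 : 0 ≤ a (m + 1) 0) (ha1 : 0 ≤ a (m + 2) 0) (hz0 : tl a S (m + 2) 0 ≤ 0) :
    ∃ t1, St a S T (m + 1) t1 := by
  obtain ⟨f1, f2, f3, f4, f5⟩ := hs.start h hc hT hT1 hm hlm hp ha0 hz0
  have h1 := hs.tT' hp hT
  have hD := Dm_pos m
  have hal := al_pos m
  have hX : 0 < a m t0 := lt_of_lt_of_le hal hs.X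
  have hR := RR_pos m
  set Bad : Set ℝ := {t | t ∈ Icc t0 (t0 + Dm m) ∧
    (rr (m + 1) ^ 2 ≤ tl a S (m + 2) t ∨ a m t ≤ 0)} with hBad
  have hne : Bad.Nonempty := by
    by_contra hcon
    rw [Set.not_nonempty_iff_eq_empty] at hcon
    have g0 : ∀ t ∈ Icc t0 (t0 + Dm m), tl a S (m + 2) t < rr (m + 1) ^ 2 ∧ 0 < a m t := by
      intro t ht
      by_contra h2
      have : t ∈ Bad := by
        refine ⟨ht, ?_⟩
        by_contra h3
        push Not at h3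
        exact h2 h3
      rw [hcon] at this
      exact this
    have hx : ∀ t ∈ Icc t0 (t0 + Dm m), 0 ≤ a m t := fun t ht => (g0 t ht).2.le
    have hZ : ∀ t ∈ Icc t0 (t0 + Dm m), tl a S (m + 2) t ≤ rr (m + 1) ^ 2 :=
      fun t ht => (g0 t ht).1.le
    have hy := hs.good hplan h hc hK hT hT1 hm hlm hp ha0 hz0 le_rfl hx hZ
    have hpl := hs.plan h hc hK hT hT1 hm hlm hp ha0 hz0 (by linarith) le_rfl hx hy
    obtain ⟨_, _, _, e4, _⟩ := hplan _ _ _ _ _ _ _ _ _ _ _ _ _ hpl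
    have hcl := hc.c_lo m
    have g1 : Real.log (rr m / 2) ≤ Real.log (a (m + 1) t0) :=
      Real.log_le_log (by have := rr_pos m; linarith) f3
    have g2 : Real.log (rr m / 2) = -Real.log (1 / rr m) - Real.log 2 := by
      rw [Real.log_div (rr_pos m).ne' (by norm_num), Real.log_div one_ne_zero (rr_pos m).ne',
        Real.log_one]
      ring
    have g3 : Real.log 2 < 1 := by
      have := Real.log_two_lt_d9; linarith
    have g4 : 2 * (Real.log (1 / rr m) + 3) ≤ c m (m + 1) * a m t0 * Dm m := by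
      have e : Dm m * ((RR m : ℝ) ^ 5 * al m) = 4 * (Real.log (1 / rr m) + 3) := by
        unfold Dm; field_simp
      have : (RR m : ℝ) ^ 5 / 2 * al m ≤ c m (m + 1) * a m t0 :=
        mul_le_mul hcl hs.X hal.le ((by positivity : (0:ℝ) ≤ _).trans hcl)
      calc 2 * (Real.log (1 / rr m) + 3) = (RR m : ℝ) ^ 5 / 2 * al m * Dm m := by linarith
        _ ≤ _ := by gcongr
    have g5 := log_rr m
    have e6 : 9 / 10 * c m (m + 1) * a m t0 * (t0 + Dm m - t0)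
        = 9 / 10 * (c m (m + 1) * a m t0 * Dm m) := by ring
    rw [e6] at e4
    linarith
  have hclosed : IsClosed Bad := by
    have e : Bad = Icc t0 (t0 + Dm m) ∩ ({t | rr (m + 1) ^ 2 ≤ tl a S (m + 2) t}
        ∪ {t | a m t ≤ 0}) := rfl
    rw [e]
    exact isClosed_Icc.inter ((isClosed_le continuous_const (h.tl_cont _)).union
      (isClosed_le (h.cont m) continuous_const))
  have hbdd : BddBelow Bad := ⟨t0, fun t ht => ht.1.1⟩
  set t1 := sInf Bad with ht1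
  have ht1B : t1 ∈ Bad := hclosed.csInf_mem hne hbdd
  have hbef : ∀ t ∈ Ico t0 t1, tl a S (m + 2) t < rr (m + 1) ^ 2 ∧ 0 < a m t := by
    intro t ht
    by_contra h2
    have : t ∈ Bad := by
      refine ⟨⟨ht.1, ht.2.le.trans ht1B.1.2⟩, ?_⟩
      by_contra h3
      push Not at h3
      exact h2 h3
    exact absurd (csInf_le hbdd this) (not_le.2 ht.2)
  have ht01 : t0 < t1 := by
    refine lt_of_le_of_ne ht1B.1.1 fun he => ?_
    rcases ht1B.2 with h2 | h2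
    · rw [← he] at h2
      exact absurd (f2 t0 ⟨hs.nn, le_rfl⟩) (not_lt.2 h2)
    · rw [← he] at h2
      linarith
  have hcl1 : t1 ∈ closure (Ico t0 t1) := by
    rw [closure_Ico ht01.ne]; exact ⟨ht01.le, le_rfl⟩
  have hx1 : 0 ≤ a m t1 := by
    have hc1 : IsClosed {t : ℝ | 0 ≤ a m t} := isClosed_le continuous_const (h.cont m)
    exact hc1.closure_subset_iff.2 (fun t ht => (hbef t ht).2.le) hcl1
  have hZ1 : tl a S (m + 2) t1 ≤ rr (m + 1) ^ 2 := by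
    have hc1 : IsClosed {t : ℝ | tl a S (m + 2) t ≤ rr (m + 1) ^ 2} :=
      isClosed_le (h.tl_cont _) continuous_const
    exact hc1.closure_subset_iff.2 (fun t ht => (hbef t ht).1.le) hcl1
  have hx : ∀ t ∈ Icc t0 t1, 0 ≤ a m t := by
    intro t ht
    rcases eq_or_lt_of_le ht.2 with he | hl
    · rw [he]; exact hx1
    · exact (hbef t ⟨ht.1, hl⟩).2.le
  have hZ : ∀ t ∈ Icc t0 t1, tl a S (m + 2) t ≤ rr (m + 1) ^ 2 := by
    intro t ht
    rcases eq_or_lt_of_le ht.2 with he | hl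
    · rw [he]; exact hZ1
    · exact (hbef t ⟨ht.1, hl⟩).1.le
  have ht1D := ht1B.1.2
  have hpos := hs.pos hplan hgrow h hc hK hT hT1 hm hlm hp ha0 ha1 hz0 ht01.le ht1D hx hZ
  have hZeq : tl a S (m + 2) t1 = rr (m + 1) ^ 2 := by
    rcases ht1B.2 with h2 | h2
    · exact le_antisymm hZ1 h2
    · linarith
  have hy := hs.good hplan h hc hK hT hT1 hm hlm hp ha0 hz0 ht1D hx hZ
  have hpl := hs.plan h hc hK hT hT1 hm hlm hp ha0 hz0 ht01.le ht1D hx hy
  obtain ⟨_, _, e3, _, _⟩ := hplan _ _ _ _ _ _ _ _ _ _ _ _ _ hpl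
  have hr := rr_pos (m + 1)
  have hlog : 0 ≤ Real.log (2 / rr (m + 1)) := Real.log_nonneg (by
    rw [le_div_iff₀ hr]
    have := rr_le (m + 1)
    linarith)
  have ht1T : t1 < T := by linarith [h1.1, h1.2]
  have ht10 : 0 ≤ t1 := hs.nn.trans ht01.le
  have hφ : bb (m + 1) - Real.log (2 / rr (m + 1)) - 1 ≤ Ph Gm a (m + 1) t1 := by
    rcases le_or_gt (bb (m + 1) - 1) (Ph Gm a (m + 1) t1) with hge | hlt
    · linarith
    · obtain ⟨g1, g2⟩ := star h hc (by omega) (by omega) ha0 hz0 ⟨ht10, ht1T.le⟩ hlt.le t1 ⟨ht10, le_rfl⟩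
      have g3 : rr (m + 1) ^ 2 ≤ (Real.exp (Ph Gm a (m + 1) t1 - bb (m + 1)) * a (m + 1) t1) ^ 2 := by
        rw [← hZeq]; exact g2
      have g4 : rr (m + 1) ≤ Real.exp (Ph Gm a (m + 1) t1 - bb (m + 1)) * a (m + 1) t1 :=
        abs_le_of_sq_le_sq' g3 (mul_nonneg (Real.exp_pos _).le g1) |>.2
      have g5 := (le_abs_self _).trans (h.ab_le (t := t1) ⟨ht10, ht1T.le⟩ (l := m + 1) (by omega))
      have g6 : rr (m + 1) / 2 ≤ Real.exp (Ph Gm a (m + 1) t1 - bb (m + 1)) := by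
        have := Real.exp_pos (Ph Gm a (m + 1) t1 - bb (m + 1))
        nlinarith
      have g7 : Real.log (rr (m + 1) / 2) ≤ Ph Gm a (m + 1) t1 - bb (m + 1) := by
        rw [Real.log_le_iff_le_exp (by linarith)]
        exact g6
      have g8 : Real.log (2 / rr (m + 1)) = -Real.log (rr (m + 1) / 2) := by
        rw [← Real.log_inv, inv_div]
      linarith
  have hyl := e3 (hs.angle h hc hT hT1 hm hlm hp ha0 hz0 ht01.le ht1D hφ)
  refine ⟨t1, ht10, ht1D.trans h1.1, ?_, hZeq, fun t ht => ?_,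
    hs.phnext hplan h hc hK hT hT1 hm hlm hp ha0 hz0 ht01.le ht1D hx hZ⟩
  · rw [al_succ]
    have := hs.X
    have h5 : al m / 2 ^ 29 ≤ a m t0 / 2 ^ 29 := by gcongr
    exact h5.trans hyl
  · rcases le_total t t0 with hle | hge
    · exact (f2 t ⟨ht.1, hle⟩).le
    · exact hZ t ⟨hge, ht.2⟩

end

end Pool.Agent.H226.GB
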