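import Pool.Agent.H226.GB.Base

/-!
Interface of the project: statements proved in the other files.
-/

open MeasureTheory Set Filter Topology
open scoped ContDiff
open H459R3.NS

namespace Pool.Agent.H226.GB

/-- integral over a period -/
noncomputable def i1 (f : ℝ → ℝ) : ℝ := ∫ s in (0 : ℝ)..1, f s

/-! ### Product functions -/

/-- calculus of product functions -/
structure S_prod : Prop where
  sp : ∀ {F G H : ℝ → ℝ}, P1 F → P1 G → P1 H → SP (prd F G H)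
  pd0 : ∀ {F G H : ℝ → ℝ}, P1 F → P1 G → P1 H → pd 0 (prd F G H) = prd (deriv F) G H
  pd1 : ∀ {F G H : ℝ → ℝ}, P1 F → P1 G → P1 H → pd 1 (prd F G H) = prd F (deriv G) H
  pd2 : ∀ {F G H : ℝ → ℝ}, P1 F → P1 G → P1 H → pd 2 (prd F G H) = prd F G (deriv H)
  der : ∀ {F : ℝ → ℝ}, P1 F → P1 (deriv F)
  mul : ∀ {F G : ℝ → ℝ}, P1 F → P1 G → P1 (fun s => F s * G s)
  int : ∀ {F G H : ℝ → ℝ}, P1 F → P1 G → P1 H →
    ∫ x in cube, prd F G H x = i1 F * i1 G * i1 H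
  ip_gp : ∀ {F G H F' G' H' : ℝ → ℝ}, P1 F → P1 G → P1 H → P1 F' → P1 G' → P1 H' →
    ip (gp (prd F G H)) (gp (prd F' G' H'))
      = i1 (fun s => F s * F' s) * i1 (fun s => G s * G' s)
          * i1 (fun s => deriv H s * deriv H' s)
        + i1 (fun s => deriv F s * deriv F' s) * i1 (fun s => G s * G' s)
          * i1 (fun s => H s * H' s)
  tri_gp : ∀ {F₁ G₁ H₁ F₂ G₂ H₂ F₃ G₃ H₃ : ℝ → ℝ}, P1 F₁ → P1 G₁ → P1 H₁ → P1 F₂ → P1 G₂ →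
    P1 H₂ → P1 F₃ → P1 G₃ → P1 H₃ →
    tri (gp (prd F₁ G₁ H₁)) (gp (prd F₂ G₂ H₂)) (gp (prd F₃ G₃ H₃))
      = i1 (fun s => G₁ s * G₂ s * G₃ s) *
        (i1 (fun s => F₁ s * F₂ s * deriv F₃ s) * i1 (fun s => deriv H₁ s * deriv H₂ s * deriv H₃ s)
        - i1 (fun s => deriv F₁ s * F₂ s * F₃ s)
          * i1 (fun s => H₁ s * deriv H₂ s * deriv (deriv H₃) s)
        + i1 (fun s => F₁ s * deriv F₂ s * deriv (deriv F₃) s)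
          * i1 (fun s => deriv H₁ s * H₂ s * H₃ s)
        - i1 (fun s => deriv F₁ s * deriv F₂ s * deriv F₃ s)
          * i1 (fun s => H₁ s * H₂ s * deriv H₃ s))

/-! ### One-dimensional integrals -/

/-- integrals of the one-dimensional functions -/
structure S_one : Prop where
  p1_sn : ∀ k, P1 (sn k)
  p1_cs : ∀ k, P1 (cs k)
  p1_F : ∀ N, P1 (fF N)
  p1_G : ∀ N, P1 (fG N)
  p1_H : ∀ N, P1 (fH N)
  dF : ∀ N s, deriv (fF N) s = ∑ j ∈ Finset.Ico N (2 * N), 2 * Real.pi * j * cs j s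
  dH : ∀ N s, deriv (fH N) s = ∑ j ∈ Finset.Ico (16 * N) (17 * N), cs j s
  F2 : ∀ N k, 1 ≤ k → k ≤ N → i1 (fun s => fF N s ^ 2 * cs k s) = (N - k) / 2
  G2 : ∀ N k, 1 ≤ k → k ≤ N → i1 (fun s => fG N s ^ 2 * cs k s) = (N - k) / 2
  dH2 : ∀ N k, 1 ≤ k → k ≤ N → i1 (fun s => deriv (fH N) s ^ 2 * cs k s) = (N - k) / 2
  dF2 : ∀ N k, 1 ≤ k → k ≤ N → 0 ≤ i1 (fun s => deriv (fF N) s ^ 2 * cs k s) ∧
    i1 (fun s => deriv (fF N) s ^ 2 * cs k s) ≤ (2 * Real.pi * (2 * N)) ^ 2 * ((N - k) / 2)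
  H2 : ∀ N k, 1 ≤ k → k ≤ N → 0 ≤ i1 (fun s => fH N s ^ 2 * cs k s) ∧
    i1 (fun s => fH N s ^ 2 * cs k s) ≤ ((N - k) / 2) / (2 * Real.pi * (16 * N)) ^ 2
  by_parts : ∀ {f : ℝ → ℝ}, P1 f → ∀ k,
    i1 (fun s => f s * deriv f s * sn k s) = -(Real.pi * k) * i1 (fun s => f s ^ 2 * cs k s)
  nF : ∀ N, 1 ≤ N → i1 (fun s => fF N s ^ 2) = N / 2
  nG : ∀ N, 1 ≤ N → i1 (fun s => fG N s ^ 2) = N / 2
  ndH : ∀ N, 1 ≤ N → i1 (fun s => deriv (fH N) s ^ 2) = N / 2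
  ndF : ∀ N, 1 ≤ N → i1 (fun s => deriv (fF N) s ^ 2) ≤ (2 * Real.pi * (2 * N)) ^ 2 * (N / 2)
  ndG : ∀ N, 1 ≤ N → i1 (fun s => deriv (fG N) s ^ 2) ≤ (2 * Real.pi * (2 * N)) ^ 2 * (N / 2)
  nddF : ∀ N, 1 ≤ N →
    i1 (fun s => deriv (deriv (fF N)) s ^ 2) ≤ (2 * Real.pi * (2 * N)) ^ 4 * (N / 2)
  nH : ∀ N, 1 ≤ N → i1 (fun s => fH N s ^ 2) ≤ (N / 2) / (2 * Real.pi * (16 * N)) ^ 2
  nddH : ∀ N, 1 ≤ N →
    (2 * Real.pi * (16 * N)) ^ 2 * (N / 2) ≤ i1 (fun s => deriv (deriv (fH N)) s ^ 2) ∧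
    i1 (fun s => deriv (deriv (fH N)) s ^ 2) ≤ (2 * Real.pi * (17 * N)) ^ 2 * (N / 2)
  pF : ∀ N, 2 ≤ N → i1 (fun s => fF N s ^ 2 * cs (4 * N - 3) s) = -(1 / 2)
  pdF : ∀ N : ℕ, 2 ≤ N → i1 (fun s => deriv (fF N) s ^ 2 * cs (4 * N - 3) s)
    = (2 * Real.pi) ^ 2 * ((2 * N - 1) * (2 * N - 2)) / 2
  pG : ∀ N, 2 ≤ N → i1 (fun s => fG N s ^ 2 * cs (4 * N - 2) s) = 1 / 4
  pdH : ∀ N, 2 ≤ N → i1 (fun s => deriv (fH N) s ^ 2 * cs (2 * (17 * N - 1)) s) = 1 / 4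
  pH : ∀ N : ℕ, 2 ≤ N → i1 (fun s => fH N s ^ 2 * cs (2 * (17 * N - 1)) s)
    = -(1 / (4 * (2 * Real.pi) ^ 2 * (17 * N - 1) ^ 2))

/-- `f` is a real trigonometric polynomial with frequencies in `A` -/
def Trig (A : Set ℕ) (f : ℝ → ℝ) : Prop :=
  f ∈ Submodule.span ℝ ({g | ∃ k ∈ A, g = sn k} ∪ {g | ∃ k ∈ A, g = cs k})

/-- trigonometric polynomials with prescribed frequencies -/
structure S_trig : Prop where
  p1 : ∀ {A : Set ℕ} {f : ℝ → ℝ}, Trig A f → P1 f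
  der : ∀ {A : Set ℕ} {f : ℝ → ℝ}, Trig A f → Trig A (deriv f)
  sn : ∀ {A : Set ℕ} {k : ℕ}, k ∈ A → Trig A (sn k)
  cs : ∀ {A : Set ℕ} {k : ℕ}, k ∈ A → Trig A (cs k)
  H : ∀ N, Trig {k | 16 * N ≤ k ∧ k ≤ 17 * N - 1} (fH N)
  int2 : ∀ {A B : Set ℕ} {f g : ℝ → ℝ}, Trig A f → Trig B g → (∀ a ∈ A, ∀ b ∈ B, a ≠ b) →
    i1 (fun s => f s * g s) = 0
  int3 : ∀ {A B C : Set ℕ} {f g h : ℝ → ℝ}, Trig A f → Trig B g → Trig C h →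
    (∀ a ∈ A, ∀ b ∈ B, ∀ c ∈ C, a ≠ b + c ∧ b ≠ a + c ∧ c ≠ a + b) →
    i1 (fun s => f s * g s * h s) = 0

/-! ### The coupling coefficients -/

/-- bounds of the norms `nm m`: `n² ∈ [N³/8, N³/4]` -/
def S_nm : Prop := ∀ m, ((NN m : ℝ) ^ 3 / 8 ≤ nm m ^ 2 ∧ nm m ^ 2 ≤ (NN m : ℝ) ^ 3 / 4) ∧ 0 < nm m

/-- lower bound of the main couplings -/
def S_cc : Prop := ∀ n, (RR n : ℝ) ^ 5 / 2 ≤ cc n (n + 1)

/-- upper bound of all couplings -/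
def S_ccu : Prop := ∀ n l, n < l → |cc n l| ≤ 2 ^ 10 * (RR n : ℝ) ^ 5

/-- bounds of the pumps -/
def S_pp : Prop := ∀ n, 1 ≤ n → Real.exp (-bb n) / (2 * (RR (n + 1) : ℝ) ^ 9) ≤ pp n ∧
  pp n ≤ Real.exp (-bb n)

/-- bounds of the dissipation -/
def S_gg : Prop := ∀ m, (RR m : ℝ) ^ 4 ≤ gg m ∧ gg m ≤ 2 ^ 14 * (RR m : ℝ) ^ 4

/-- the structure of the basis -/
def S_basis : Prop := Basis phi cc pp gg

/-! ### The infinite system -/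

/-- the pump from the previous level -/
def pm (p : ℕ → ℝ) (a : ℕ → ℝ → ℝ) (m : ℕ) (t : ℝ) : ℝ :=
  if m = 0 then 0 else p (m - 1) * a (m - 1) t ^ 2

/-- Solutions of the infinite system of ordinary differential equations on `[0, T]`, with the
energy `S` and the sums `W m = ∑_{l > m} c m l * a l ^ 2`. -/
structure Shell (c : ℕ → ℕ → ℝ) (p ν : ℕ → ℝ) (T : ℝ) (a : ℕ → ℝ → ℝ) (S : ℝ → ℝ)
    (W : ℕ → ℝ → ℝ) : Prop where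
  cont : ∀ m, ContinuousOn (a m) (Icc 0 T)
  contS : ContinuousOn S (Icc 0 T)
  sum : ∀ t ∈ Icc 0 T, HasSum (fun m => a m t ^ 2) (S t)
  sumW : ∀ t ∈ Icc 0 T, ∀ m, HasSum (fun l => if m < l then c m l * a l t ^ 2 else 0) (W m t)
  der : ∀ t ∈ Ioo 0 T, ∀ m, HasDerivAt (a m)
    ((∑ n ∈ Finset.range m, c n m * a n t - ν m) * a m t - W m t + pm p a m t
      - p m * a m t * a (m + 1) t) t
  en : ∀ t ∈ Ioo 0 T, ∃ S', HasDerivAt S S' t ∧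
    ∀ L, S' ≤ -2 * ∑ m ∈ Finset.range L, ν m * a m t ^ 2

/-- `u` is, for the times in `[0, T)`, a smooth solution of the Galerkin projection of the
Navier-Stokes equations onto the closed span of the fields `φ m` -/
structure IsGal (φ : ℕ → V → V) (ν : ℝ) (T : ℝ) (u : ℝ → V → V) : Prop where
  smooth : ContDiffOn ℝ ∞ (fun z : ℝ × V => u z.1 z.2) (Ico 0 T ×ˢ univ)
  per : ∀ t ∈ Ico 0 T, Per (u t)
  divfree : ∀ t ∈ Ico 0 T, ∀ x, ∑ i, pd i (fun y => u t y i) x = 0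
  mem : ∀ t ∈ Ico 0 T, ∀ ε > 0, ∃ (L : ℕ) (a : ℕ → ℝ),
    ∑ i, ∫ x in cube, (u t x i - ∑ m ∈ Finset.range L, a m * φ m x i) ^ 2 < ε
  eq : ∀ t ∈ Ioo 0 T, ∀ m, ∑ i, ∫ x in cube,
    (deriv (fun s => u s x i) t + ∑ j, u t x j * pd j (fun y => u t y i) x
      - ν * ∑ j, pd j (pd j (fun y => u t y i)) x) * φ m x i = 0

/-- the reduction to the infinite system -/
def S_red : Prop := ∀ (φ : ℕ → V → V) (c : ℕ → ℕ → ℝ) (p g : ℕ → ℝ), Basis φ c p g →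
  (∀ n, ∃ C, ∀ l, |c n l| ≤ C) →
  ∀ (ν T : ℝ) (u : ℝ → V → V), 0 ≤ ν → IsGal φ ν T u → ∀ T' ∈ Ioo 0 T,
    ∃ (S : ℝ → ℝ) (W : ℕ → ℝ → ℝ) (K : ℝ),
      Shell c p (fun m => ν * g m) T' (fun m t => ip (u t) (φ m)) S W ∧
      ∀ t ∈ Icc 0 T', ∀ m, g m * ip (u t) (φ m) ^ 2 ≤ K

end Pool.Agent.H226.GB
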