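import Pool.Agent.H226.GB.Spec2

/-!
Interface, fourth part: larger spaces. The set `Fp φ p` consists of the rescaled fields
`φ m (p x)` and of all divergence-free modes whose frequency is not divisible by `p`.
-/

open MeasureTheory Set Filter Topology
open scoped ContDiff
open H459R3.NS

namespace Pool.Agent.H226.GB

/-- `v` is in `L²` of the period cell a limit of linear combinations of elements of `Φ` -/
def InSpan (Φ : Set (V → V)) (v : V → V) : Prop :=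
  ∀ ε > 0, ∃ w ∈ Submodule.span ℝ Φ, ∑ i, ∫ x in cube, (v x i - w x i) ^ 2 < ε

/-- `u` is, for the times in `[0, T)`, a smooth solution of the Galerkin projection of the
Navier-Stokes equations onto the closed span of `Φ` -/
structure IsPr (Φ : Set (V → V)) (ν T : ℝ) (u : ℝ → V → V) : Prop where
  smooth : ContDiffOn ℝ ∞ (fun z : ℝ × V => u z.1 z.2) (Ico 0 T ×ˢ univ)
  per : ∀ t ∈ Ico 0 T, Per (u t)
  divfree : ∀ t ∈ Ico 0 T, ∀ x, ∑ i, pd i (fun y => u t y i) x = 0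
  mem : ∀ t ∈ Ico 0 T, InSpan Φ (u t)
  eq : ∀ t ∈ Ioo 0 T, ∀ w ∈ Φ, ∑ i, ∫ x in cube,
    (deriv (fun s => u s x i) t + ∑ j, u t x j * pd j (fun y => u t y i) x
      - ν * ∑ j, pd j (pd j (fun y => u t y i)) x) * w x i = 0

/-- the divergence-free modes whose frequency is not divisible by `p` -/
def md (p : ℕ) : Set (V → V) :=
  {w | ∃ (k : Fin 3 → ℤ) (a : V), (∃ j, ¬((p : ℤ) ∣ k j)) ∧ ∑ j, (k j : ℝ) * a j = 0 ∧
    ((∀ x, w x = Real.cos (2 * Real.pi * ∑ j, (k j : ℝ) * x j) • a) ∨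
      ∀ x, w x = Real.sin (2 * Real.pi * ∑ j, (k j : ℝ) * x j) • a)}

/-- the fields `φ m (p x)` and all divergence-free modes with frequencies not divisible by `p` -/
def Fp (φ : ℕ → V → V) (p : ℕ) : Set (V → V) :=
  {w | ∃ m, ∀ x, w x = φ m ((p : ℝ) • x)} ∪ md p

/-- integrals of rescaled and of translated periodic functions -/
def S_int : Prop := (∀ g : V → ℝ, SP g → ∀ p : ℕ, 1 ≤ p →
    ∫ x in cube, g ((p : ℝ) • x) = ∫ x in cube, g x) ∧
  (∀ g : V → ℝ, SP g → ∀ y : V, ∫ x in cube, g (x + y) = ∫ x in cube, g x)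

/-- uniqueness -/
def S_uniP : Prop := ∀ Φ : Set (V → V), (∀ w ∈ Φ, ∀ i, SP (fun x => w x i)) →
  ∀ (ν T : ℝ) (u v : ℝ → V → V), 0 ≤ ν → IsPr Φ ν T u → IsPr Φ ν T v → u 0 = v 0 →
    ∀ t ∈ Ico 0 T, u t = v t

/-- invariance under the translations by `1 / p` -/
def S_shift : Prop := ∀ (φ : ℕ → V → V) (p : ℕ), (∀ m i, SP (fun x => φ m x i)) → 1 ≤ p →
  ∀ (ν T : ℝ) (u : ℝ → V → V), IsPr (Fp φ p) ν T u → ∀ j : Fin 3,
    IsPr (Fp φ p) ν T (fun t x => u t (x + Pi.single j (1 / (p : ℝ))))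

/-- `1 / p`-periodic elements of the closed span of `Fp φ p` come from the closed span of `φ` -/
def S_memdown : Prop := ∀ (φ : ℕ → V → V) (p : ℕ), (∀ m i, SP (fun x => φ m x i)) → 1 ≤ p →
  ∀ v : V → V, (∀ i, SP (fun x => v x i)) →
    (∀ (j : Fin 3) (x : V), v (x + Pi.single j (1 / (p : ℝ))) = v x) → InSpan (Fp φ p) v →
    ∀ ε > 0, ∃ (L : ℕ) (a : ℕ → ℝ), ∑ i, ∫ x in cube,
      (p * v ((p : ℝ)⁻¹ • x) i - ∑ m ∈ Finset.range L, a m * φ m x i) ^ 2 < ε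

/-- from the larger space to the span of `φ` -/
def S_down : Prop := ∀ (φ : ℕ → V → V) (p : ℕ), (∀ m i, SP (fun x => φ m x i)) → 1 ≤ p →
  ∀ (ν T : ℝ) (u : ℝ → V → V), IsPr (Fp φ p) ν T u →
    (∀ t ∈ Ico 0 T, ∀ (j : Fin 3) (x : V), u t (x + Pi.single j (1 / (p : ℝ))) = u t x) →
    IsGal φ (ν * p ^ 2) T (fun t x => (p : ℝ) • u t ((p : ℝ)⁻¹ • x))

/-- from the span of `φ` to the larger space -/
def S_up : Prop := ∀ (φ : ℕ → V → V) (p : ℕ), (∀ m i, SP (fun x => φ m x i)) → 1 ≤ p →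
  ∀ (ν T : ℝ) (u : ℝ → V → V), IsGal φ (ν * p ^ 2) T u →
    IsPr (Fp φ p) ν T (fun t x => (p : ℝ)⁻¹ • u t ((p : ℝ) • x))

end Pool.Agent.H226.GB
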