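import Pool.Agent.H226.GB.Spec4

/-!
Interface, seventh part: Sobolev norms and the orthogonal projection.
-/

open MeasureTheory Set Filter Topology
open scoped ContDiff ENNReal
open H459R3.NS

namespace Pool.Agent.H226.GB

/-- the sum of the squares of the absolute values of the Fourier coefficients of frequency `k` of
the components of `v` -/
noncomputable def fq (v : V → V) (k : Fin 3 → ℤ) : ℝ :=
  ∑ i, ((∫ x in cube, v x i * Real.cos (2 * Real.pi * ∑ j, (k j : ℝ) * x j)) ^ 2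
    + (∫ x in cube, v x i * Real.sin (2 * Real.pi * ∑ j, (k j : ℝ) * x j)) ^ 2)

/-- the square of the norm of `H^s` -/
noncomputable def hs (s : ℝ) (v : V → V) : ℝ≥0∞ :=
  ∑' k : Fin 3 → ℤ, ENNReal.ofReal ((1 + ∑ j, (k j : ℝ) ^ 2) ^ s * fq v k)

/-- Sobolev norms of finite combinations of the rescaled fields -/
def S_hs : Prop := ∀ (p : ℕ) (s : ℝ), 1 ≤ p → 0 ≤ s → ∃ C : ℝ, 0 ≤ C ∧ ∀ (d : ℕ → ℝ) (M : ℕ),
  hs s (fun x i => ∑ m ∈ Finset.range M, d m * phi m ((p : ℝ) • x) i)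
    ≤ ENNReal.ofReal (C * ∑ m ∈ Finset.range M, (RR m : ℝ) ^ (4 * s) * d m ^ 2)

/-- Bessel's inequality in Sobolev spaces -/
def S_hsb : Prop := ∀ (p : ℕ) (s : ℝ), 1 ≤ p → 0 ≤ s → ∃ C : ℝ, 0 ≤ C ∧ ∀ f : V → V,
  (∀ i, SP (fun x => f x i)) → ∀ M : ℕ, ENNReal.ofReal (∑ m ∈ Finset.range M,
    (RR m : ℝ) ^ (4 * s) * (∑ i, ∫ x in cube, f x i * phi m ((p : ℝ) • x) i) ^ 2)
    ≤ ENNReal.ofReal C * hs s f

/-- Sobolev norms of smooth fields are finite, and the quadratic inequality -/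
def S_hfin : Prop := (∀ (f : V → V) (s : ℝ), (∀ i, SP (fun x => f x i)) → hs s f < ⊤) ∧
  ∀ (f g : V → V) (s : ℝ), (∀ i, SP (fun x => f x i)) → (∀ i, SP (fun x => g x i)) →
    hs s (fun x => f x + g x) ≤ 2 * hs s f + 2 * hs s g

/-- series of the fields with rapidly decreasing coefficients -/
def S_stat : Prop := ∀ (p : ℕ) (b : ℕ → ℝ), 1 ≤ p →
  (∀ s : ℕ, ∃ K : ℝ, ∀ m, (RR m : ℝ) ^ s * |b m| ≤ K) →
  ∃ G : V → V, (∀ i, SP (fun x => G x i)) ∧ (∀ x, ∑ i, pd i (fun y => G y i) x = 0) ∧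
    (∀ x i, HasSum (fun m => b m * phi m ((p : ℝ) • x) i) (G x i)) ∧
    ∀ ε > 0, ∃ L₀, ∀ L, L₀ ≤ L → ∑ i, ∫ x in cube,
      (G x i - ∑ m ∈ Finset.range L, b m * phi m ((p : ℝ) • x) i) ^ 2 < ε

/-- the part of a divergence-free field with frequencies in `(pℤ)³` -/
def S_avg : Prop := ∀ (p : ℕ) (f : V → V), 1 ≤ p → (∀ i, SP (fun x => f x i)) →
  (∀ x, ∑ i, pd i (fun y => f y i) x = 0) →
  ∃ h : V → V, (∀ i, SP (fun x => h x i)) ∧ (∀ x, ∑ i, pd i (fun y => h y i) x = 0) ∧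
    (∀ (j : Fin 3) (x : V), h (x + Pi.single j (1 / (p : ℝ))) = h x) ∧
    (∀ w : V → V, (∀ i, SP (fun x => w x i)) →
      (∀ (j : Fin 3) (x : V), w (x + Pi.single j (1 / (p : ℝ))) = w x) →
      ∑ i, ∫ x in cube, h x i * w x i = ∑ i, ∫ x in cube, f x i * w x i) ∧
    InSpan (md p) (fun x => f x - h x) ∧ ∀ s : ℝ, hs s (fun x => f x - h x) ≤ hs s f

/-- the orthogonal projection onto the closed span of `Fp phi p` preserves smoothness and is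
bounded in all Sobolev spaces -/
def S_projP : Prop := ∀ p : ℕ, 1 ≤ p → ∃ C : ℝ → ℝ, ∀ f : V → V, (∀ i, SP (fun x => f x i)) →
  (∀ x, ∑ i, pd i (fun y => f y i) x = 0) →
  ∃ g : V → V, (∀ i, SP (fun x => g x i)) ∧ (∀ x, ∑ i, pd i (fun y => g y i) x = 0) ∧
    InSpan (Fp phi p) g ∧ (∀ w ∈ Fp phi p, ∑ i, ∫ x in cube, (f x i - g x i) * w x i = 0) ∧
    ∀ s : ℝ, 0 ≤ s → hs s g ≤ ENNReal.ofReal (C s) * hs s f

end Pool.Agent.H226.GB
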