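import Pool.Agent.H226.GB.Spec7

/-!
Interface, eighth part: all spaces between the closed span of the fields `φ m (p x)` and the space
of the fields which satisfy the constraints `∫ w · cst n i (p x) = 0`.
-/

open MeasureTheory Set Filter Topology
open scoped ContDiff ENNReal
open H459R3.NS

namespace Pool.Agent.H226.GB

/-- the rescaled fields -/
def Sc (p : ℕ) : Set (V → V) := {w | ∃ m, ∀ x, w x = phi m ((p : ℝ) • x)}

/-- `(u · ∇) v` -/
noncomputable def cv (u v : V → V) (x : V) (i : Fin 3) : ℝ :=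
  ∑ j, u x j * pd j (fun y => v y i) x

/-- `Δ u` -/
noncomputable def lp (u : V → V) (x : V) (i : Fin 3) : ℝ := ∑ j, pd j (pd j (fun y => u y i)) x

/-- `(φ i · ∇) φ j + (φ j · ∇) φ i` -/
noncomputable def qq (i j : ℕ) (x : V) (l : Fin 3) : ℝ :=
  cv (phi i) (phi j) x l + cv (phi j) (phi i) x l

/-- the part of `f` which is orthogonal to the fields `φ m`, `m < n + 2` -/
noncomputable def res (n : ℕ) (f : V → V) (x : V) (l : Fin 3) : ℝ :=
  f x l - ∑ m ∈ Finset.range (n + 2), ip f (phi m) * phi m x l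

/-- the constraints of the level `n` -/
noncomputable def cst (n i : ℕ) : V → V :=
  if i ≤ n then res n (qq i n) else if i = n + 1 then res n (lp (phi n)) else 0

/-- admissible sets of test fields -/
structure Adm (p : ℕ) (Φ : Set (V → V)) : Prop where
  sp : ∀ w ∈ Φ, ∀ i, SP (fun x => w x i)
  div : ∀ w ∈ Φ, ∀ x, ∑ i, pd i (fun y => w y i) x = 0
  sc : Sc p ⊆ Φ
  orth : ∀ w ∈ Φ, ∀ n i, ∑ l, ∫ x in cube, w x l * cst n i ((p : ℝ) • x) l = 0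

/-! ### A solution in the small space is a solution in all admissible spaces -/

/-- the time derivative -/
def S_dt : Prop := ∀ (p : ℕ) (ν T : ℝ) (u : ℝ → V → V) (w : V → V), 1 ≤ p →
  IsPr (Sc p) ν T u → (∀ i, SP (fun x => w x i)) →
  (∀ m, ∑ i, ∫ x in cube, w x i * phi m ((p : ℝ) • x) i = 0) →
  ∀ t ∈ Ioo 0 T, ∑ i, ∫ x in cube, deriv (fun s => u s x i) t * w x i = 0

/-- the viscous term -/
def S_lap : Prop := ∀ (p : ℕ) (u w : V → V), 1 ≤ p → (∀ i, SP (fun x => u x i)) →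
  InSpan (Sc p) u → (∀ i, SP (fun x => w x i)) →
  (∀ m, ∑ i, ∫ x in cube, w x i * lp (phi m) ((p : ℝ) • x) i = 0) →
  ∑ i, ∫ x in cube, lp u x i * w x i = 0

/-- the convective term -/
def S_con : Prop := ∀ (p : ℕ) (u w : V → V), 1 ≤ p → (∀ i, SP (fun x => u x i)) →
  (∀ x, ∑ i, pd i (fun y => u y i) x = 0) → InSpan (Sc p) u → (∀ i, SP (fun x => w x i)) →
  (∀ i j, i ≤ j → ∑ l, ∫ x in cube, w x l * qq i j ((p : ℝ) • x) l = 0) →
  ∑ i, ∫ x in cube, cv u u x i * w x i = 0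

/-- the orthogonal projection onto the closed span of the rescaled fields preserves smoothness -/
def S_prS : Prop := ∀ (p : ℕ) (f : V → V), 1 ≤ p → (∀ i, SP (fun x => f x i)) →
  ∃ G : V → V, (∀ i, SP (fun x => G x i)) ∧ (∀ x, ∑ i, pd i (fun y => G y i) x = 0) ∧
    InSpan (Sc p) G ∧
    (∀ m, ∑ i, ∫ x in cube, (f x i - G x i) * phi m ((p : ℝ) • x) i = 0) ∧
    ∃ b : ℕ → ℝ, (∀ s : ℕ, ∃ K : ℝ, ∀ m, (RR m : ℝ) ^ s * |b m| ≤ K) ∧
      ∀ x i, HasSum (fun m => b m * phi m ((p : ℝ) • x) i) (G x i)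

/-- the constraints are smooth and orthogonal to the fields -/
def S_ort : Prop := (∀ n i l, SP (fun x => cst n i x l)) ∧ ∀ n i m, ip (cst n i) (phi m) = 0

/-- enlarging the space -/
def S_adm : Prop := ∀ (p : ℕ) (Φ : Set (V → V)), 1 ≤ p → Adm p Φ →
  ∀ (ν T : ℝ) (u : ℝ → V → V), IsPr (Sc p) ν T u → IsPr Φ ν T u

/-- the space of the earlier theorem is admissible -/
def S_admF : Prop := ∀ p : ℕ, 1 ≤ p → Adm p (Fp phi p)

/-! ### A solution in an admissible space stays in the small space -/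

/-- the condition `u t ∈ closed span` is closed in time -/
def S_clo : Prop := ∀ (Φ Ψ : Set (V → V)), (∀ w ∈ Ψ, ∀ i, SP (fun x => w x i)) →
  ∀ (ν T : ℝ) (u : ℝ → V → V), IsPr Φ ν T u → ∀ t ∈ Ico 0 T, (∀ ε > 0, ∃ s ∈ Ico 0 T, |s - t| < ε ∧ InSpan Ψ (u s)) → InSpan Ψ (u t)

/-- translation in time -/
def S_tsh : Prop := ∀ (Φ : Set (V → V)) (ν T t₀ : ℝ) (u : ℝ → V → V), IsPr Φ ν T u → 0 ≤ t₀ →
  IsPr Φ ν (T - t₀) (fun t x => u (t₀ + t) x)

/-- rescaling -/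
def S_scl : Prop := ∀ (p : ℕ) (ν T : ℝ) (u : ℝ → V → V), 1 ≤ p → IsGal phi (ν * p ^ 2) T u →
  IsPr (Sc p) ν T (fun t x => (p : ℝ)⁻¹ • u t ((p : ℝ) • x))

/-- rescaling, the other direction -/
def S_scl2 : Prop := ∀ (p : ℕ) (ν T : ℝ) (u : ℝ → V → V), 1 ≤ p → IsPr (Sc p) ν T u →
  IsGal phi (ν * p ^ 2) T (fun t x => (p : ℝ) • u t ((p : ℝ)⁻¹ • x))

/-- local existence for rapidly decreasing coefficients -/
def S_locG : Prop := ∀ (ν : ℝ) (a0 : ℕ → ℝ), 0 ≤ ν →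
  (∀ s : ℕ, ∃ K : ℝ, ∀ m, (RR m : ℝ) ^ s * |a0 m| ≤ K) →
  ∃ τ > 0, ∃ u, IsGal phi ν τ u ∧ ∀ x i, HasSum (fun m => a0 m * phi m x i) (u 0 x i)

/-- local existence for all smooth data of the small space -/
def S_locS : Prop := ∀ (p : ℕ) (v₀ : V → V), 1 ≤ p → (∀ i, SP (fun x => v₀ x i)) →
  InSpan (Sc p) v₀ → ∀ ν, 0 ≤ ν → ∃ τ > 0, ∃ u, IsPr (Sc p) ν τ u ∧ u 0 = v₀

/-- returning to the small space -/
def S_ret : Prop := ∀ (p : ℕ) (Φ : Set (V → V)), 1 ≤ p → Adm p Φ → ∀ (ν T : ℝ) (v : ℝ → V → V),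
  0 ≤ ν → IsPr Φ ν T v → InSpan (Sc p) (v 0) → IsPr (Sc p) ν T v

/-! ### Frequencies of the constraints -/

/-- the modes of frequency `k` -/
def am (k : Fin 3 → ℤ) : Set (V → V) :=
  {w | ∃ a : V, (∀ x, w x = Real.cos (2 * Real.pi * ∑ j, (k j : ℝ) * x j) • a) ∨
    ∀ x, w x = Real.sin (2 * Real.pi * ∑ j, (k j : ℝ) * x j) • a}

/-- the divergence-free modes of frequency `k` -/
def dm (k : Fin 3 → ℤ) : Set (V → V) :=
  {w | ∃ a : V, ∑ j, (k j : ℝ) * a j = 0 ∧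
    ((∀ x, w x = Real.cos (2 * Real.pi * ∑ j, (k j : ℝ) * x j) • a) ∨
      ∀ x, w x = Real.sin (2 * Real.pi * ∑ j, (k j : ℝ) * x j) • a)}

/-- trigonometric polynomials with frequencies in `A` -/
def TP (A : Set (Fin 3 → ℤ)) : Submodule ℝ (V → V) := Submodule.span ℝ {w | ∃ k ∈ A, w ∈ am k}

/-- divergence-free trigonometric polynomials with frequencies in `A` -/
def DP (A : Set (Fin 3 → ℤ)) : Submodule ℝ (V → V) := Submodule.span ℝ {w | ∃ k ∈ A, w ∈ dm k}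

/-- the Leray projection of trigonometric polynomials -/
def S_lr : Prop := ∀ (A : Set (Fin 3 → ℤ)) (f : V → V), f ∈ TP A →
  ∃ g ∈ DP A, ∃ q : V → ℝ, SP q ∧ ∀ x i, f x i = g x i + pd i q x

/-- gradients are orthogonal to divergence-free fields, also after rescaling -/
def S_grd : Prop := ∀ (p : ℕ) (q : V → ℝ) (w : V → V), 1 ≤ p → SP q →
  (∀ i, SP (fun x => w x i)) → (∀ x, ∑ i, pd i (fun y => w y i) x = 0) →
  ∑ i, ∫ x in cube, w x i * pd i q ((p : ℝ) • x) = 0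

/-- existence of non-zero Fourier coefficients -/
def S_nz : Prop := (∀ (A : Set (Fin 3 → ℤ)) (f w : V → V), (∀ i, SP (fun x => f x i)) →
    w ∈ TP A → ip w f ≠ 0 → ∃ k ∈ A, fq f k ≠ 0) ∧
  (∀ (A : Set (Fin 3 → ℤ)) (f : V → V), f ∈ TP A → (∀ i, SP (fun x => f x i)) ∧
    (f ≠ 0 → ip f f ≠ 0)) ∧
  ∀ A : Set (Fin 3 → ℤ), DP A ≤ TP A

/-- the frequencies of the constraints -/
def S_spec : Prop := (∀ n i, cst n i ∈ TP univ) ∧
  (∀ n i, i ≠ n → cst n i ∈ TP {k | (4 : ℤ) ^ (n ^ 3) ≤ |k 2|}) ∧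
  ∀ n, ∃ w ∈ TP {k | (4 : ℤ) ^ (n ^ 3) ≤ |k 2|}, (∀ i, SP (fun x => w x i)) ∧
    (∀ x, ∑ i, pd i (fun y => w y i) x = 0) ∧ ip w (cst n n) ≠ 0

end Pool.Agent.H226.GB
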